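import Pool.Agent.MP_d7736f_co.PGeo

namespace Pool.Agent.MP_d7736f_co

/-- A base edge with its bounding box and its sides with respect to the two cluster directions. -/
structure Rec where
  i : ℕ
  j : ℕ
  ax : ℕ
  ay : ℕ
  bx : ℕ
  bY : ℕ
  xl : ℕ
  xh : ℕ
  xm : ℕ
  yl : ℕ
  yh : ℕ
  ym : ℕ
  sa : ℕ
  sb : ℕ

def big : ℕ := 1000000000000

def wEI (s : ℤ) : ℕ := if 0 < s then 4 else if s < 0 then 0 else big

def rare (dir : ℕ → ℤ × ℤ) (self : Bool) (i j ax ay bx bY i' j' cx cy dx dy : ℕ) : ℕ :=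
  if i = j then
    if self = true ∧ bx = ax ∧ bY = ay ∧ cx = ax ∧ cy = ay ∧ dx = ax ∧ dy = ay ∧ i' = i ∧ j' = i ∧
      dir i ≠ 0 then 1 else big
  else if i' = j' then
    if i' = i ∧ cx = ax ∧ cy = ay ∧ dx = ax ∧ dy = ay then wEI (dZ (dir i) ax ay bx bY)
    else if i' = j ∧ cx = bx ∧ cy = bY ∧ dx = bx ∧ dy = bY then wEI (dZ (dir j) bx bY ax ay)
    else big
  else if self = true ∧ i' = i ∧ cx = ax ∧ cy = ay ∧ j' = j ∧ dx = bx ∧ dy = bY ∧
    dZ (dir i) ax ay bx bY ≠ 0 ∧ dZ (dir j) bx bY ax ay ≠ 0 then 6 else big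

noncomputable def tri (p q lt eq gt : ℕ) : ℕ :=
  Bool.rec (motive := fun _ => ℕ) gt (Bool.rec (motive := fun _ => ℕ) lt eq (Nat.ble q p))
    (Nat.ble p q)

/-- Weight of two edges whose ends `(i, x, y)` and `(i', x', y')` should coincide. -/
noncomputable def wSh (i x y s i' x' y' s' other : ℕ) : ℕ :=
  Bool.rec (motive := fun _ => ℕ) other (Bool.rec (motive := fun _ => ℕ) big
    (Bool.rec (motive := fun _ => ℕ) big
      (Bool.rec (motive := fun _ => ℕ) (nat_lit 0) (nat_lit 12) (Nat.beq s s')) (Nat.beq y y'))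
    (Nat.beq x x')) (Nat.beq i i')

noncomputable def second (ax ay bx bY cx cy dx dy g h : ℕ) : ℕ :=
  tri (Nat.add (Nat.add (Nat.mul dx ay) g) (Nat.mul cy ax))
    (Nat.add (Nat.add (Nat.mul dy ax) h) (Nat.mul cx ay))
    (tri (Nat.add (Nat.add (Nat.mul dx bY) g) (Nat.mul cy bx))
      (Nat.add (Nat.add (Nat.mul dy bx) h) (Nat.mul cx bY)) (nat_lit 0) big (nat_lit 24))
    big
    (tri (Nat.add (Nat.add (Nat.mul dx bY) g) (Nat.mul cy bx))
      (Nat.add (Nat.add (Nat.mul dy bx) h) (Nat.mul cx bY)) (nat_lit 24) big (nat_lit 0))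

noncomputable def W (dir : ℕ → ℤ × ℤ) (self : Bool)
    (i j ax ay bx bY g h sa sb i' j' cx cy dx dy sa' sb' : ℕ) : ℕ :=
  tri (Nat.add (Nat.add (Nat.mul bx cy) g) (Nat.mul ay cx))
    (Nat.add (Nat.add (Nat.mul bY cx) h) (Nat.mul ax cy))
    (tri (Nat.add (Nat.add (Nat.mul bx dy) g) (Nat.mul ay dx))
      (Nat.add (Nat.add (Nat.mul bY dx) h) (Nat.mul ax dy)) (nat_lit 0)
      (wSh j bx bY sb j' dx dy sb' big)
      (second ax ay bx bY cx cy dx dy (Nat.mul cx dy) (Nat.mul cy dx)))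
    (Bool.rec (motive := fun _ => ℕ)
      (wSh i ax ay sa i' cx cy sa' (wSh j bx bY sb i' cx cy sa' big))
      (rare dir self i j ax ay bx bY i' j' cx cy dx dy)
      (Nat.beq (Nat.add (Nat.add (Nat.mul bx dy) g) (Nat.mul ay dx))
        (Nat.add (Nat.add (Nat.mul bY dx) h) (Nat.mul ax dy))))
    (tri (Nat.add (Nat.add (Nat.mul bx dy) g) (Nat.mul ay dx))
      (Nat.add (Nat.add (Nat.mul bY dx) h) (Nat.mul ax dy))
      (second ax ay bx bY cx cy dx dy (Nat.mul cx dy) (Nat.mul cy dx))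
      (wSh j bx bY sb j' dx dy sb' big) (nat_lit 0))

noncomputable def three (w : ℕ → ℕ → ℕ) (M M2 l h m l' h' m' c d : ℕ) : ℕ :=
  Nat.add (Nat.add (Bool.rec (motive := fun _ => ℕ) (nat_lit 0) (w c d) (Nat.ble m h'))
    (Bool.rec (motive := fun _ => ℕ) (nat_lit 0) (Bool.rec (motive := fun _ => ℕ) (nat_lit 0)
      (w (Nat.add c M) (Nat.add d M)) (Nat.ble l' h)) (Nat.ble l h')))
    (Bool.rec (motive := fun _ => ℕ) (nat_lit 0) (w (Nat.add c M2) (Nat.add d M2)) (Nat.ble m' h))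

noncomputable def frc (v : ℕ) (k : ℕ → ℕ) : ℕ :=
  Nat.rec (k (nat_lit 0)) (fun n _ => k (Nat.succ n)) v

noncomputable def rowC (dir : ℕ → ℤ × ℤ) (M M2 : ℕ) (self : Bool)
    (i j ax ay bx bY g h xl xh xm yl yh ym sa sb : ℕ) (L : List Rec) : ℕ :=
  List.rec (nat_lit 0) (fun f _ r => Rec.rec (motive := fun _ => ℕ)
    (fun i' j' cx cy dx dy xl' xh' xm' yl' yh' ym' sa' sb' =>
      Nat.add (three (fun cx dx => three (fun cy dy =>
        W dir self i j ax ay bx bY g h sa sb i' j' cx cy dx dy sa' sb')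
        M M2 yl yh ym yl' yh' ym' cy dy) M M2 xl xh xm xl' xh' xm' cx dx) r) f) L

noncomputable def rowW (dir : ℕ → ℤ × ℤ) (M M2 : ℕ) (e : Rec) (L : List Rec) : ℕ :=
  Rec.rec (motive := fun _ => ℕ) (fun i j ax ay bx bY xl xh xm yl yh ym sa sb =>
    frc (Nat.add ax M) fun ax => frc (Nat.add ay M) fun ay => frc (Nat.add bx M) fun bx =>
    frc (Nat.add bY M) fun bY => frc (Nat.mul ax bY) fun g => frc (Nat.mul ay bx) fun h =>
    Nat.add (rowC dir M M2 true i j ax ay bx bY g h xl xh xm yl yh ym sa sb [e])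
      (rowC dir M M2 false i j ax ay bx bY g h xl xh xm yl yh ym sa sb L)) e

/-- The weight of the first `n` rows. -/
noncomputable def rows (dir : ℕ → ℤ × ℤ) (M M2 : ℕ) (L : List Rec) : ℕ → ℕ :=
  List.rec (fun _ => 0)
    (fun e l r n => Nat.rec 0 (fun n _ => Nat.add (rowW dir M M2 e l) (r n)) n) L

/-- Zero when the point `(cx, cy)` of cluster `l` is off the edge or is one of its ends. -/
noncomputable def av (i j ax ay bx bY l cx cy : ℕ) : ℕ :=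
  Bool.rec (motive := fun _ => ℕ) (nat_lit 0)
    (if (l = i ∧ cx = ax ∧ cy = ay) ∨ (l = j ∧ cx = bx ∧ cy = bY) then 0 else 1)
    (Nat.beq (Nat.add (Nat.add (Nat.mul bx cy) (Nat.mul ax bY)) (Nat.mul ay cx))
      (Nat.add (Nat.add (Nat.mul bY cx) (Nat.mul ay bx)) (Nat.mul ax cy)))

noncomputable def avRow (M M2 l x xm' y ym' : ℕ) (L : List Rec) : ℕ :=
  List.rec (nat_lit 0) (fun e _ r => Rec.rec (motive := fun _ => ℕ)
    (fun i j ax ay bx bY xl xh xm yl yh ym _ _ =>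
      Nat.add (three (fun cx _ => three (fun cy _ =>
        av i j (Nat.add ax M) (Nat.add ay M) (Nat.add bx M) (Nat.add bY M) l cx cy)
        M M2 yl yh ym y y ym' y y) M M2 xl xh xm x x xm' x x) r) e) L

noncomputable def avAll (M M2 : ℕ) (px py : ℕ → ℕ) (L : List Rec) (n : ℕ) : ℕ :=
  Nat.rec (nat_lit 0) (fun l r => Nat.add (frc (px l) fun x => frc (py l) fun y =>
    frc (Nat.add x M) fun xm => frc (Nat.add y M) fun ym => avRow M M2 l x xm y ym L) r) n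

def Side (d : ℤ × ℤ) (ax ay bx bY s : ℕ) : Prop :=
  (ax = bx ∧ ay = bY) ∨ (s = 1 ∧ 0 < dZ d ax ay bx bY) ∨ (s = 0 ∧ dZ d ax ay bx bY < 0)

instance (d : ℤ × ℤ) (ax ay bx bY s : ℕ) : Decidable (Side d ax ay bx bY s) := by
  unfold Side; infer_instance

def Valid (dir : ℕ → ℤ × ℤ) (px py : ℕ → ℕ) (M m : ℕ) (r : Rec) : Prop :=
  (r.xl ≤ r.ax ∧ r.ax ≤ r.xh ∧ r.xl ≤ r.bx ∧ r.bx ≤ r.xh ∧ r.xl < M ∧ r.xh < r.xm ∧
    r.xm = r.xl + M) ∧
  (r.yl ≤ r.ay ∧ r.ay ≤ r.yh ∧ r.yl ≤ r.bY ∧ r.bY ≤ r.yh ∧ r.yl < M ∧ r.yh < r.ym ∧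
    r.ym = r.yl + M) ∧
  (r.i < m ∧ r.j < m) ∧
  (r.ax % M = px r.i ∧ r.ay % M = py r.i ∧ r.bx % M = px r.j ∧ r.bY % M = py r.j) ∧
  (r.i = r.j ↔ r.ax = r.bx ∧ r.ay = r.bY) ∧
  Side (dir r.i) r.ax r.ay r.bx r.bY r.sa ∧ Side (dir r.j) r.bx r.bY r.ax r.ay r.sb ∧ dir r.i ≠ 0

instance (dir : ℕ → ℤ × ℤ) (px py : ℕ → ℕ) (M m : ℕ) (r : Rec) :
    Decidable (Valid dir px py M m r) := by
  unfold Valid; infer_instance

/-- The list of pairs `i < j` followed by the pairs `i = j`. -/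
def pairs (m : ℕ) : List (ℕ × ℕ) :=
  ((List.range m).flatMap fun i => (List.range (m - (i + 1))).map fun d => (i, i + 1 + d)) ++
    (List.range m).map fun i => (i, i)

end Pool.Agent.MP_d7736f_co
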