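import Pool.Agent.MP_d7736f_co.Geo

namespace Pool.Agent.MP_d7736f_co

open Filter Topology Classical

noncomputable def cnt (n : ℕ) (P : ℕ → ℕ → ℕ → ℕ → Prop) : ℕ :=
  (Finset.univ.filter fun q : Fin n × Fin n × Fin n × Fin n => P q.1 q.2.1 q.2.2.1 q.2.2.2).card

theorem cnt_s12 (n : ℕ) (P : ℕ → ℕ → ℕ → ℕ → Prop) : cnt n (fun i j k l => P j i k l) = cnt n P := by
  refine Finset.card_nbij' (fun q => (q.2.1, q.1, q.2.2.1, q.2.2.2))
    (fun q => (q.2.1, q.1, q.2.2.1, q.2.2.2)) ?_ ?_ ?_ ?_ <;> intro q <;> simp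

theorem cnt_s23 (n : ℕ) (P : ℕ → ℕ → ℕ → ℕ → Prop) : cnt n (fun i j k l => P i k j l) = cnt n P := by
  refine Finset.card_nbij' (fun q => (q.1, q.2.2.1, q.2.1, q.2.2.2))
    (fun q => (q.1, q.2.2.1, q.2.1, q.2.2.2)) ?_ ?_ ?_ ?_ <;> intro q <;> simp

theorem cnt_s13 (n : ℕ) (P : ℕ → ℕ → ℕ → ℕ → Prop) : cnt n (fun i j k l => P k j i l) = cnt n P := by
  refine Finset.card_nbij' (fun q => (q.2.2.1, q.2.1, q.1, q.2.2.2))
    (fun q => (q.2.2.1, q.2.1, q.1, q.2.2.2)) ?_ ?_ ?_ ?_ <;> intro q <;> simp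

theorem cnt_s24 (n : ℕ) (P : ℕ → ℕ → ℕ → ℕ → Prop) : cnt n (fun i j k l => P i l k j) = cnt n P := by
  refine Finset.card_nbij' (fun q => (q.1, q.2.2.2, q.2.2.1, q.2.1))
    (fun q => (q.1, q.2.2.2, q.2.2.1, q.2.1)) ?_ ?_ ?_ ?_ <;> intro q <;> simp

theorem cnt_sp (n : ℕ) (P : ℕ → ℕ → ℕ → ℕ → Prop) : cnt n (fun i j k l => P k l i j) = cnt n P := by
  refine Finset.card_nbij' (fun q => (q.2.2.1, q.2.2.2, q.1, q.2.1))
    (fun q => (q.2.2.1, q.2.2.2, q.1, q.2.1)) ?_ ?_ ?_ ?_ <;> intro q <;> simp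

theorem cnt_le (n : ℕ) (P : ℕ → ℕ → ℕ → ℕ → Prop) : cnt n P ≤ n ^ 4 := by
  refine (Finset.card_le_univ _).trans_eq ?_
  simp; ring

theorem cnt_or (n : ℕ) {P Q : ℕ → ℕ → ℕ → ℕ → Prop} (h : ∀ i j k l, P i j k l → ¬ Q i j k l) :
    cnt n P + cnt n Q = cnt n fun i j k l => P i j k l ∨ Q i j k l := by
  unfold cnt
  rw [← Finset.card_union_of_disjoint (Finset.disjoint_filter.2 fun q _ h1 => h _ _ _ _ h1),
    ← Finset.filter_or]
  congr

theorem cnt_two (n : ℕ) {P Q : ℕ → ℕ → ℕ → ℕ → Prop} (h : ∀ i j k l, P i j k l → ¬ Q i j k l)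
    (h1 : cnt n Q = cnt n P) : 6 * cnt n P ≤ 3 * n ^ 4 := by
  have := cnt_or n h
  have := cnt_le n fun i j k l => P i j k l ∨ Q i j k l
  omega

theorem cnt_three (n : ℕ) {P Q R : ℕ → ℕ → ℕ → ℕ → Prop} (h : ∀ i j k l, P i j k l → ¬ Q i j k l)
    (h' : ∀ i j k l, P i j k l ∨ Q i j k l → ¬ R i j k l)
    (h1 : cnt n Q = cnt n P) (h2 : cnt n R = cnt n P) : 6 * cnt n P ≤ 2 * n ^ 4 := by
  have := cnt_or n h
  have := cnt_or n h'
  have := cnt_le n fun i j k l => (P i j k l ∨ Q i j k l) ∨ R i j k l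
  omega

def Bound (e : ℕ → ℤ × ℤ) (A B C D : Pt) (w : ℕ) : Prop :=
  ∃ P, (∀ n, 6 * cnt n P ≤ w * n ^ 4) ∧ BoundP e A B C D P

variable {e : ℕ → ℤ × ℤ} {A B C D : Pt} {w : ℕ}

theorem Bound.symm (h : Bound e A B C D w) : Bound e C D A B w := by
  obtain ⟨P, h1, h2⟩ := h
  exact ⟨_, fun n => by rw [cnt_sp]; exact h1 n, h2.symm⟩

theorem Bound.swap (h : Bound e A B C D w) : Bound e B A C D w := by
  obtain ⟨P, h1, h2⟩ := h
  exact ⟨_, fun n => by rw [cnt_s12]; exact h1 n, h2.swap⟩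

theorem Bound.swap' (h : Bound e A B C D w) : Bound e A B D C w := h.symm.swap.symm

theorem Bound.zero (h : BoundP e A B C D fun _ _ _ _ => False) : Bound e A B C D 0 :=
  ⟨_, fun n => by simp [cnt], h⟩

theorem bound_w2 (h : w2 e A D < pen) : Bound e A A A D (w2 e A D) := by
  unfold w2 at *
  split_ifs at * with h1 h2
  · refine ⟨_, fun n => ?_, bp_chord h1.ne'⟩
    refine cnt_three n (Q := fun i j k _ => ((k : ℝ) - i) * (j - i) < 0)
      (R := fun i j k _ => ((i : ℝ) - j) * (k - j) < 0) (fun i j k l a b => ?_)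
      (fun i j k l a b => ?_) (cnt_s13 n fun i j k _ => ((i : ℝ) - k) * (j - k) < 0)
      (cnt_s23 n fun i j k _ => ((i : ℝ) - k) * (j - k) < 0)
    · nlinarith [sq_nonneg ((i : ℝ) - k)]
    · rcases a with a | a
      · nlinarith [sq_nonneg ((j : ℝ) - k)]
      · nlinarith [sq_nonneg ((j : ℝ) - i)]
  · exact .zero (bp_chord0 h2)
  · exact absurd h (lt_irrefl _)

theorem bound_w1b (h : w1b e A B D < pen) : Bound e A B A D (w1b e A B D) := by
  unfold w1b at *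
  split_ifs at * with h1 h2
  · exact .zero (bp_opp h1)
  · obtain ⟨σ, h3⟩ := bp_star (left_ne_zero_of_mul h2.1.ne') h2.2
    refine ⟨_, fun n => ?_, h3⟩
    exact cnt_two n (Q := fun i _ k _ => ((i : ℝ) - k) * σ < 0) (fun i j k l a b => by linarith)
      (cnt_s13 n fun i _ k _ => ((k : ℝ) - i) * σ < 0)
  · exact absurd h (lt_irrefl _)

theorem bound_w1c (h : w1c e A B < pen) : Bound e A B A B (w1c e A B) := by
  unfold w1c at *
  split_ifs at * with h1
  · obtain ⟨σ, h3⟩ := bp_bundle h1.1 h1.2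
    refine ⟨_, fun n => ?_, h3⟩
    exact cnt_two n (Q := fun i j k l => ((i : ℝ) - k) * (l - j) * σ < 0)
      (fun i j k l a b => by linarith) (cnt_s13 n fun i j k l => ((k : ℝ) - i) * (l - j) * σ < 0)
  · exact absurd h (lt_irrefl _)

theorem bound_inner (h : e A.a ≠ (0, 0)) : Bound e A A A A 2 := by
  refine ⟨_, fun n => ?_, bp_inner h⟩
  refine cnt_three n (Q := fun i j k l => ((j : ℝ) - i) * (j - k) * ((l - i) * (l - k)) < 0)
    (R := fun i j k l => ((k : ℝ) - i) * (k - l) * ((j - i) * (j - l)) < 0) (fun i j k l a b => ?_)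
    (fun i j k l a b => ?_)
    (cnt_s23 n fun i j k l => ((k : ℝ) - i) * (k - j) * ((l - i) * (l - j)) < 0)
    (cnt_s24 n fun i j k l => ((k : ℝ) - i) * (k - j) * ((l - i) * (l - j)) < 0)
  · nlinarith [sq_nonneg (((k : ℝ) - j) * (l - i))]
  · rcases a with a | a
    · nlinarith [sq_nonneg (((k : ℝ) - i) * (l - j))]
    · nlinarith [sq_nonneg (((j : ℝ) - i) * (l - k))]

theorem peq_eq (h : peq A B = true) : A = B := by
  obtain ⟨a, x, y⟩ := A
  obtain ⟨a', x', y'⟩ := B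
  simp only [peq, Bool.and_eq_true, Nat.beq_eq] at h
  obtain ⟨⟨rfl, rfl⟩, rfl⟩ := h
  rfl

theorem bound_wt (he : ∀ a, e a ≠ (0, 0)) (h : wt e A B C D < pen) :
    Bound e A B C D (wt e A B C D) := by
  unfold wt at *
  simp only [Bool.cond_eq_ite, Bool.or_eq_true] at *
  split_ifs at * with h1 h2 h3 h4 h5 h6 h7 h8 h9 h10 h11 h12 h13 h14 h15 h16 h17 h18
  · exact h1.elim (fun h => .zero (bp_below_y h)) fun h => .symm (.zero (bp_below_y h))
  · exact h2.elim (fun h => .zero (bp_below_x h)) fun h => .symm (.zero (bp_below_x h))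
  · exact h3.elim (fun h => .zero (bp_sameSide h)) fun h => .symm (.zero (bp_sameSide h))
  · obtain rfl := peq_eq h4
    obtain rfl := peq_eq h5
    obtain rfl := peq_eq h6
    exact bound_inner (he _)
  · exact absurd h (lt_irrefl _)
  · obtain rfl := peq_eq h4
    obtain rfl := peq_eq h7
    exact bound_w2 h
  · obtain rfl := peq_eq h4
    obtain rfl := peq_eq h8
    exact (bound_w2 h).swap'
  · exact absurd h (lt_irrefl _)
  · obtain rfl := peq_eq h9
    obtain rfl := peq_eq h10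
    exact (bound_w2 h).symm
  · obtain rfl := peq_eq h9
    obtain rfl := peq_eq h11
    exact (bound_w2 h).symm.swap
  · exact absurd h (lt_irrefl _)
  · obtain rfl := peq_eq h12
    obtain rfl := peq_eq h13
    exact bound_w1c h
  · obtain rfl := peq_eq h12
    exact bound_w1b h
  · obtain rfl := peq_eq h14
    obtain rfl := peq_eq h15
    exact (bound_w1c h).swap'
  · obtain rfl := peq_eq h14
    exact (bound_w1b h).swap'
  · obtain rfl := peq_eq h16
    exact (bound_w1b h).swap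
  · obtain rfl := peq_eq h17
    exact (bound_w1b h).swap.swap'
  · exact absurd h (lt_irrefl _)
  · exact ⟨_, fun n => Nat.mul_le_mul_left _ (cnt_le n _),
      bp_generic fun h => h18 (by rw [h]; exact Nat.beq_refl _)⟩

end Pool.Agent.MP_d7736f_co
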