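import Mathlib

namespace Pool.Agent.MP_d7736f_co

open Finset

abbrev N4 : Type := ℕ × ℕ × ℕ × ℕ

def n2 (k : ℕ) : ℕ := ∑ q ∈ range k, q
def n3 (k : ℕ) : ℕ := ∑ q ∈ range k, n2 q
def n4 (k : ℕ) : ℕ := ∑ q ∈ range k, n3 q

theorem n2_le (k : ℕ) : 2 * n2 k ≤ k ^ 2 := by
  induction k with
  | zero => simp [n2]
  | succ k ih => rw [n2, sum_range_succ, ← n2]; nlinarith

theorem n3_le (k : ℕ) : 6 * n3 k ≤ k ^ 3 := by
  induction k with
  | zero => simp [n3]
  | succ k ih => rw [n3, sum_range_succ, ← n3]; nlinarith [n2_le k]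

theorem n4_le (k : ℕ) : 24 * n4 k ≤ k ^ 4 := by
  induction k with
  | zero => simp [n4]
  | succ k ih => rw [n4, sum_range_succ, ← n4]; nlinarith [n3_le k, Nat.zero_le (k ^ 2)]

def P2 (k : ℕ) : Finset (Σ _ : ℕ, ℕ) := (range k).sigma range
def P3 (k : ℕ) : Finset (Σ _ : ℕ, Σ _ : ℕ, ℕ) := (range k).sigma P2
def P4 (k : ℕ) : Finset (Σ _ : ℕ, Σ _ : ℕ, Σ _ : ℕ, ℕ) := (range k).sigma P3

theorem card_P2 (k : ℕ) : (P2 k).card = n2 k := by simp [P2, n2]
theorem card_P3 (k : ℕ) : (P3 k).card = n3 k := by simp [P3, n3, card_P2]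
theorem card_P4 (k : ℕ) : (P4 k).card = n4 k := by simp [P4, n4, card_P3]

variable {S : Finset N4} {k : ℕ} (p q r s : N4 → ℕ)

theorem cnt12 (inj : ∀ x y, p x = p y → q x = q y → r x = r y → s x = s y → x = y)
    (h : ∀ x ∈ S, p x < q x ∧ q x < k ∧ r x < k ∧ s x < k) : 24 * S.card ≤ 12 * k ^ 4 := by
  have := card_le_card_of_injOn (s := S) (t := P2 k ×ˢ range k ×ˢ range k)
    (fun x => (⟨q x, p x⟩, r x, s x)) (fun x hx => by simpa [P2] using by have := h x hx; tauto)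
    (fun x _ y _ e => by simp at e; exact inj x y e.1.2 e.1.1 e.2.1 e.2.2)
  simp only [card_product, card_P2, card_range] at this
  nlinarith [n2_le k, Nat.mul_le_mul_right (k * k) (n2_le k)]

theorem cnt6 (inj : ∀ x y, p x = p y → q x = q y → r x = r y → s x = s y → x = y)
    (h : ∀ x ∈ S, p x < q x ∧ q x < k ∧ r x < s x ∧ s x < k) : 24 * S.card ≤ 6 * k ^ 4 := by
  have := card_le_card_of_injOn (s := S) (t := P2 k ×ˢ P2 k)
    (fun x => (⟨q x, p x⟩, ⟨s x, r x⟩)) (fun x hx => by simpa [P2] using by have := h x hx; tauto)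
    (fun x _ y _ e => by simp at e; exact inj x y e.1.2 e.1.1 e.2.2 e.2.1)
  simp only [card_product, card_P2] at this
  nlinarith [Nat.mul_le_mul (n2_le k) (n2_le k)]

theorem cnt4 (inj : ∀ x y, p x = p y → q x = q y → r x = r y → s x = s y → x = y)
    (h : ∀ x ∈ S, p x < q x ∧ q x < r x ∧ r x < k ∧ s x < k) : 24 * S.card ≤ 4 * k ^ 4 := by
  have := card_le_card_of_injOn (s := S) (t := P3 k ×ˢ range k)
    (fun x => (⟨r x, q x, p x⟩, s x))
    (fun x hx => by simpa [P3, P2] using by have := h x hx; tauto)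
    (fun x _ y _ e => by simp at e; exact inj x y e.1.2.2 e.1.2.1 e.1.1 e.2)
  simp only [card_product, card_P3, card_range] at this
  nlinarith [Nat.mul_le_mul_right k (n3_le k)]

theorem cnt1 (inj : ∀ x y, p x = p y → q x = q y → r x = r y → s x = s y → x = y)
    (h : ∀ x ∈ S, p x < q x ∧ q x < r x ∧ r x < s x ∧ s x < k) : 24 * S.card ≤ 1 * k ^ 4 := by
  have := card_le_card_of_injOn (s := S) (t := P4 k)
    (fun x => ⟨s x, r x, q x, p x⟩)
    (fun x hx => by simpa [P4, P3, P2] using by have := h x hx; tauto)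
    (fun x _ y _ e => by simp at e; exact inj x y e.2.2.2 e.2.2.1 e.2.1 e.1)
  simp only [card_P4] at this
  nlinarith [n4_le k]

/-- All index quadruples. -/
def box4 (k : ℕ) : Finset N4 := range k ×ˢ range k ×ˢ range k ×ˢ range k

theorem mem_box4 {x : N4} : x ∈ box4 k ↔ x.1 < k ∧ x.2.1 < k ∧ x.2.2.1 < k ∧ x.2.2.2 < k := by
  simp [box4]

theorem cnt24 (h : S ⊆ box4 k) : 24 * S.card ≤ 24 * k ^ 4 := by
  have := card_le_card h
  simp only [box4, card_product, card_range] at this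
  nlinarith

end Pool.Agent.MP_d7736f_co
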