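import Pool.Agent.MP_d7736f_co.Check

namespace Pool.Agent.MP_d7736f_co

def dirN : ℕ := nat_lit 95058775691855934190727641876113155726606264888015808013775464071200289043715587875493012398285556128482265370638530327976025179711463489221515635464211592623681541865820763268896946444598727507650515216348971281958720210781051534279195684647186913592926751517490649532503550900519310744339265514387372841298449050284231581486838416718972868707899990228680946457227859975923660284526728022220790777344772791094015229164757814013140257006289370135285493218081180815466780814610826840437710877816635544979141479319302305861697661382345237959611941537207500827426466667781493152679891159621944725750131673340958706093853451387565810228117825817073335666442708031753240640670841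

def posN : ℕ := nat_lit 130592219445540261232048274953063770324273780196548708526929696301442665160996822665529542845182064766643911076258422570431692094437578160295692714650146102962361625247127692010283918522299039932028807375079925867998639247143516540261525385724925087140497201402208748994828140301593393403291206265645680512398310723706729732773988089689289500773978117143144028830414867785804071187773154414995906482985761467643000070768734306326455694868115208628296555419858068445931268016727835024219672605148099973807968193280293767739504992026851236961712435442386436395514947935172150576883810154051782186254710194223535712212974811186500220121861928046794634733721328859550575095791243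

def dirT (i : ℕ) : ℤ × ℤ :=
  (Int.subNatNat (Nat.mod (Nat.shiftRight dirN (Nat.mul 40 i)) 1048576) 524288,
   Int.subNatNat (Nat.mod (Nat.shiftRight dirN (Nat.add (Nat.mul 40 i) 20)) 1048576) 524288)

def pxT (i : ℕ) : ℕ := Nat.mod (Nat.shiftRight posN (Nat.mul 40 i)) 1048576

def pyT (i : ℕ) : ℕ := Nat.mod (Nat.shiftRight posN (Nat.add (Nat.mul 40 i) 20)) 1048576

def E40 : List Rec := []

def E39 : List Rec :=
  List.cons (Rec.mk (nat_lit 20) (nat_lit 20) (nat_lit 876318) (nat_lit 381236) (nat_lit 876318) (nat_lit 381236) (nat_lit 876318) (nat_lit 876318) (nat_lit 1924894) (nat_lit 381236) (nat_lit 381236) (nat_lit 1429812) (nat_lit 0) (nat_lit 0)) <|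
  List.cons (Rec.mk (nat_lit 21) (nat_lit 21) (nat_lit 918775) (nat_lit 440156) (nat_lit 918775) (nat_lit 440156) (nat_lit 918775) (nat_lit 918775) (nat_lit 1967351) (nat_lit 440156) (nat_lit 440156) (nat_lit 1488732) (nat_lit 0) (nat_lit 0)) <|
  List.cons (Rec.mk (nat_lit 22) (nat_lit 22) (nat_lit 236122) (nat_lit 923345) (nat_lit 236122) (nat_lit 923345) (nat_lit 236122) (nat_lit 236122) (nat_lit 1284698) (nat_lit 923345) (nat_lit 923345) (nat_lit 1971921) (nat_lit 0) (nat_lit 0)) <|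
  List.cons (Rec.mk (nat_lit 23) (nat_lit 23) (nat_lit 983221) (nat_lit 330793) (nat_lit 983221) (nat_lit 330793) (nat_lit 983221) (nat_lit 983221) (nat_lit 2031797) (nat_lit 330793) (nat_lit 330793) (nat_lit 1379369) (nat_lit 0) (nat_lit 0)) <|
  List.cons (Rec.mk (nat_lit 24) (nat_lit 24) (nat_lit 664612) (nat_lit 401726) (nat_lit 664612) (nat_lit 401726) (nat_lit 664612) (nat_lit 664612) (nat_lit 1713188) (nat_lit 401726) (nat_lit 401726) (nat_lit 1450302) (nat_lit 0) (nat_lit 0)) <|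
  List.cons (Rec.mk (nat_lit 25) (nat_lit 25) (nat_lit 508882) (nat_lit 505448) (nat_lit 508882) (nat_lit 505448) (nat_lit 508882) (nat_lit 508882) (nat_lit 1557458) (nat_lit 505448) (nat_lit 505448) (nat_lit 1554024) (nat_lit 0) (nat_lit 0)) <|
  List.cons (Rec.mk (nat_lit 26) (nat_lit 26) (nat_lit 46399) (nat_lit 924342) (nat_lit 46399) (nat_lit 924342) (nat_lit 46399) (nat_lit 46399) (nat_lit 1094975) (nat_lit 924342) (nat_lit 924342) (nat_lit 1972918) (nat_lit 0) (nat_lit 0)) <|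
  List.cons (Rec.mk (nat_lit 27) (nat_lit 27) (nat_lit 1020255) (nat_lit 940354) (nat_lit 1020255) (nat_lit 940354) (nat_lit 1020255) (nat_lit 1020255) (nat_lit 2068831) (nat_lit 940354) (nat_lit 940354) (nat_lit 1988930) (nat_lit 0) (nat_lit 0)) <|
  List.cons (Rec.mk (nat_lit 28) (nat_lit 28) (nat_lit 176086) (nat_lit 1028414) (nat_lit 176086) (nat_lit 1028414) (nat_lit 176086) (nat_lit 176086) (nat_lit 1224662) (nat_lit 1028414) (nat_lit 1028414) (nat_lit 2076990) (nat_lit 0) (nat_lit 0)) <|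
  List.cons (Rec.mk (nat_lit 29) (nat_lit 29) (nat_lit 132099) (nat_lit 968835) (nat_lit 132099) (nat_lit 968835) (nat_lit 132099) (nat_lit 132099) (nat_lit 1180675) (nat_lit 968835) (nat_lit 968835) (nat_lit 2017411) (nat_lit 0) (nat_lit 0)) <|
  List.cons (Rec.mk (nat_lit 30) (nat_lit 30) (nat_lit 841806) (nat_lit 28267) (nat_lit 841806) (nat_lit 28267) (nat_lit 841806) (nat_lit 841806) (nat_lit 1890382) (nat_lit 28267) (nat_lit 28267) (nat_lit 1076843) (nat_lit 0) (nat_lit 0)) <|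
  List.cons (Rec.mk (nat_lit 31) (nat_lit 31) (nat_lit 184871) (nat_lit 196633) (nat_lit 184871) (nat_lit 196633) (nat_lit 184871) (nat_lit 184871) (nat_lit 1233447) (nat_lit 196633) (nat_lit 196633) (nat_lit 1245209) (nat_lit 0) (nat_lit 0)) <|
  List.cons (Rec.mk (nat_lit 32) (nat_lit 32) (nat_lit 769851) (nat_lit 144942) (nat_lit 769851) (nat_lit 144942) (nat_lit 769851) (nat_lit 769851) (nat_lit 1818427) (nat_lit 144942) (nat_lit 144942) (nat_lit 1193518) (nat_lit 0) (nat_lit 0)) <|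
  List.cons (Rec.mk (nat_lit 33) (nat_lit 33) (nat_lit 628264) (nat_lit 879843) (nat_lit 628264) (nat_lit 879843) (nat_lit 628264) (nat_lit 628264) (nat_lit 1676840) (nat_lit 879843) (nat_lit 879843) (nat_lit 1928419) (nat_lit 0) (nat_lit 0)) <|
  List.cons (Rec.mk (nat_lit 34) (nat_lit 34) (nat_lit 138066) (nat_lit 140566) (nat_lit 138066) (nat_lit 140566) (nat_lit 138066) (nat_lit 138066) (nat_lit 1186642) (nat_lit 140566) (nat_lit 140566) (nat_lit 1189142) (nat_lit 0) (nat_lit 0)) <|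
  List.cons (Rec.mk (nat_lit 35) (nat_lit 35) (nat_lit 401101) (nat_lit 813007) (nat_lit 401101) (nat_lit 813007) (nat_lit 401101) (nat_lit 401101) (nat_lit 1449677) (nat_lit 813007) (nat_lit 813007) (nat_lit 1861583) (nat_lit 0) (nat_lit 0)) <|
  List.cons (Rec.mk (nat_lit 36) (nat_lit 36) (nat_lit 384169) (nat_lit 176938) (nat_lit 384169) (nat_lit 176938) (nat_lit 384169) (nat_lit 384169) (nat_lit 1432745) (nat_lit 176938) (nat_lit 176938) (nat_lit 1225514) (nat_lit 0) (nat_lit 0)) <|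
  List.cons (Rec.mk (nat_lit 37) (nat_lit 37) (nat_lit 981851) (nat_lit 976656) (nat_lit 981851) (nat_lit 976656) (nat_lit 981851) (nat_lit 981851) (nat_lit 2030427) (nat_lit 976656) (nat_lit 976656) (nat_lit 2025232) (nat_lit 0) (nat_lit 0)) <|
  List.cons (Rec.mk (nat_lit 38) (nat_lit 38) (nat_lit 712533) (nat_lit 337991) (nat_lit 712533) (nat_lit 337991) (nat_lit 712533) (nat_lit 712533) (nat_lit 1761109) (nat_lit 337991) (nat_lit 337991) (nat_lit 1386567) (nat_lit 0) (nat_lit 0)) <|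
  List.cons (Rec.mk (nat_lit 39) (nat_lit 39) (nat_lit 26484) (nat_lit 718563) (nat_lit 26484) (nat_lit 718563) (nat_lit 26484) (nat_lit 26484) (nat_lit 1075060) (nat_lit 718563) (nat_lit 718563) (nat_lit 1767139) (nat_lit 0) (nat_lit 0)) <|
  List.cons (Rec.mk (nat_lit 40) (nat_lit 40) (nat_lit 714818) (nat_lit 79592) (nat_lit 714818) (nat_lit 79592) (nat_lit 714818) (nat_lit 714818) (nat_lit 1763394) (nat_lit 79592) (nat_lit 79592) (nat_lit 1128168) (nat_lit 0) (nat_lit 0)) <|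
  List.cons (Rec.mk (nat_lit 41) (nat_lit 41) (nat_lit 587619) (nat_lit 824506) (nat_lit 587619) (nat_lit 824506) (nat_lit 587619) (nat_lit 587619) (nat_lit 1636195) (nat_lit 824506) (nat_lit 824506) (nat_lit 1873082) (nat_lit 0) (nat_lit 0)) <|
  List.cons (Rec.mk (nat_lit 42) (nat_lit 42) (nat_lit 562139) (nat_lit 53161) (nat_lit 562139) (nat_lit 53161) (nat_lit 562139) (nat_lit 562139) (nat_lit 1610715) (nat_lit 53161) (nat_lit 53161) (nat_lit 1101737) (nat_lit 0) (nat_lit 0)) <|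
  List.cons (Rec.mk (nat_lit 43) (nat_lit 43) (nat_lit 443596) (nat_lit 733714) (nat_lit 443596) (nat_lit 733714) (nat_lit 443596) (nat_lit 443596) (nat_lit 1492172) (nat_lit 733714) (nat_lit 733714) (nat_lit 1782290) (nat_lit 0) (nat_lit 0)) <|
  List.cons (Rec.mk (nat_lit 44) (nat_lit 44) (nat_lit 797581) (nat_lit 83136) (nat_lit 797581) (nat_lit 83136) (nat_lit 797581) (nat_lit 797581) (nat_lit 1846157) (nat_lit 83136) (nat_lit 83136) (nat_lit 1131712) (nat_lit 0) (nat_lit 0)) <|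
  List.cons (Rec.mk (nat_lit 45) (nat_lit 45) (nat_lit 687375) (nat_lit 777397) (nat_lit 687375) (nat_lit 777397) (nat_lit 687375) (nat_lit 687375) (nat_lit 1735951) (nat_lit 777397) (nat_lit 777397) (nat_lit 1825973) (nat_lit 0) (nat_lit 0)) <|
  List.cons (Rec.mk (nat_lit 46) (nat_lit 46) (nat_lit 348262) (nat_lit 227533) (nat_lit 348262) (nat_lit 227533) (nat_lit 348262) (nat_lit 348262) (nat_lit 1396838) (nat_lit 227533) (nat_lit 227533) (nat_lit 1276109) (nat_lit 0) (nat_lit 0)) <|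
  List.cons (Rec.mk (nat_lit 47) (nat_lit 47) (nat_lit 209178) (nat_lit 549030) (nat_lit 209178) (nat_lit 549030) (nat_lit 209178) (nat_lit 209178) (nat_lit 1257754) (nat_lit 549030) (nat_lit 549030) (nat_lit 1597606) (nat_lit 0) (nat_lit 0)) <|
  List.cons (Rec.mk (nat_lit 48) (nat_lit 48) (nat_lit 949236) (nat_lit 374610) (nat_lit 949236) (nat_lit 374610) (nat_lit 949236) (nat_lit 949236) (nat_lit 1997812) (nat_lit 374610) (nat_lit 374610) (nat_lit 1423186) (nat_lit 0) (nat_lit 0)) <|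
  List.cons (Rec.mk (nat_lit 49) (nat_lit 49) (nat_lit 662814) (nat_lit 807520) (nat_lit 662814) (nat_lit 807520) (nat_lit 662814) (nat_lit 662814) (nat_lit 1711390) (nat_lit 807520) (nat_lit 807520) (nat_lit 1856096) (nat_lit 0) (nat_lit 0)) <|
  List.cons (Rec.mk (nat_lit 50) (nat_lit 50) (nat_lit 317216) (nat_lit 502786) (nat_lit 317216) (nat_lit 502786) (nat_lit 317216) (nat_lit 317216) (nat_lit 1365792) (nat_lit 502786) (nat_lit 502786) (nat_lit 1551362) (nat_lit 0) (nat_lit 0)) <|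
  List.cons (Rec.mk (nat_lit 51) (nat_lit 51) (nat_lit 268762) (nat_lit 231467) (nat_lit 268762) (nat_lit 231467) (nat_lit 268762) (nat_lit 268762) (nat_lit 1317338) (nat_lit 231467) (nat_lit 231467) (nat_lit 1280043) (nat_lit 0) (nat_lit 0)) <|
  List.cons (Rec.mk (nat_lit 52) (nat_lit 52) (nat_lit 268078) (nat_lit 447768) (nat_lit 268078) (nat_lit 447768) (nat_lit 268078) (nat_lit 268078) (nat_lit 1316654) (nat_lit 447768) (nat_lit 447768) (nat_lit 1496344) (nat_lit 0) (nat_lit 0)) <|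
  List.cons (Rec.mk (nat_lit 53) (nat_lit 53) (nat_lit 888048) (nat_lit 578007) (nat_lit 888048) (nat_lit 578007) (nat_lit 888048) (nat_lit 888048) (nat_lit 1936624) (nat_lit 578007) (nat_lit 578007) (nat_lit 1626583) (nat_lit 0) (nat_lit 0)) <|
  List.cons (Rec.mk (nat_lit 54) (nat_lit 54) (nat_lit 530018) (nat_lit 84442) (nat_lit 530018) (nat_lit 84442) (nat_lit 530018) (nat_lit 530018) (nat_lit 1578594) (nat_lit 84442) (nat_lit 84442) (nat_lit 1133018) (nat_lit 0) (nat_lit 0)) <|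
  List.cons (Rec.mk (nat_lit 55) (nat_lit 55) (nat_lit 1039209) (nat_lit 675035) (nat_lit 1039209) (nat_lit 675035) (nat_lit 1039209) (nat_lit 1039209) (nat_lit 2087785) (nat_lit 675035) (nat_lit 675035) (nat_lit 1723611) (nat_lit 0) (nat_lit 0)) <|
  E40

def E38 : List Rec :=
  List.cons (Rec.mk (nat_lit 49) (nat_lit 51) (nat_lit 662814) (nat_lit 807520) (nat_lit 268762) (nat_lit 1280043) (nat_lit 268762) (nat_lit 662814) (nat_lit 1317338) (nat_lit 807520) (nat_lit 1280043) (nat_lit 1856096) (nat_lit 0) (nat_lit 0)) <|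
  List.cons (Rec.mk (nat_lit 49) (nat_lit 52) (nat_lit 662814) (nat_lit 807520) (nat_lit 268078) (nat_lit 1496344) (nat_lit 268078) (nat_lit 662814) (nat_lit 1316654) (nat_lit 807520) (nat_lit 1496344) (nat_lit 1856096) (nat_lit 0) (nat_lit 1)) <|
  List.cons (Rec.mk (nat_lit 49) (nat_lit 53) (nat_lit 662814) (nat_lit 807520) (nat_lit 888048) (nat_lit 578007) (nat_lit 662814) (nat_lit 888048) (nat_lit 1711390) (nat_lit 578007) (nat_lit 807520) (nat_lit 1626583) (nat_lit 1) (nat_lit 0)) <|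
  List.cons (Rec.mk (nat_lit 49) (nat_lit 54) (nat_lit 662814) (nat_lit 807520) (nat_lit 530018) (nat_lit 1133018) (nat_lit 530018) (nat_lit 662814) (nat_lit 1578594) (nat_lit 807520) (nat_lit 1133018) (nat_lit 1856096) (nat_lit 0) (nat_lit 0)) <|
  List.cons (Rec.mk (nat_lit 49) (nat_lit 55) (nat_lit 662814) (nat_lit 807520) (nat_lit 1039209) (nat_lit 675035) (nat_lit 662814) (nat_lit 1039209) (nat_lit 1711390) (nat_lit 675035) (nat_lit 807520) (nat_lit 1723611) (nat_lit 1) (nat_lit 0)) <|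
  List.cons (Rec.mk (nat_lit 50) (nat_lit 51) (nat_lit 317216) (nat_lit 502786) (nat_lit 268762) (nat_lit 231467) (nat_lit 268762) (nat_lit 317216) (nat_lit 1317338) (nat_lit 231467) (nat_lit 502786) (nat_lit 1280043) (nat_lit 0) (nat_lit 1)) <|
  List.cons (Rec.mk (nat_lit 50) (nat_lit 52) (nat_lit 317216) (nat_lit 502786) (nat_lit 268078) (nat_lit 447768) (nat_lit 268078) (nat_lit 317216) (nat_lit 1316654) (nat_lit 447768) (nat_lit 502786) (nat_lit 1496344) (nat_lit 0) (nat_lit 0)) <|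
  List.cons (Rec.mk (nat_lit 50) (nat_lit 53) (nat_lit 1365792) (nat_lit 502786) (nat_lit 888048) (nat_lit 578007) (nat_lit 888048) (nat_lit 1365792) (nat_lit 1936624) (nat_lit 502786) (nat_lit 578007) (nat_lit 1551362) (nat_lit 1) (nat_lit 1)) <|
  List.cons (Rec.mk (nat_lit 50) (nat_lit 54) (nat_lit 317216) (nat_lit 502786) (nat_lit 530018) (nat_lit 84442) (nat_lit 317216) (nat_lit 530018) (nat_lit 1365792) (nat_lit 84442) (nat_lit 502786) (nat_lit 1133018) (nat_lit 0) (nat_lit 1)) <|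
  List.cons (Rec.mk (nat_lit 50) (nat_lit 55) (nat_lit 1365792) (nat_lit 502786) (nat_lit 1039209) (nat_lit 675035) (nat_lit 1039209) (nat_lit 1365792) (nat_lit 2087785) (nat_lit 502786) (nat_lit 675035) (nat_lit 1551362) (nat_lit 1) (nat_lit 1)) <|
  List.cons (Rec.mk (nat_lit 51) (nat_lit 52) (nat_lit 268762) (nat_lit 231467) (nat_lit 268078) (nat_lit 447768) (nat_lit 268078) (nat_lit 268762) (nat_lit 1316654) (nat_lit 231467) (nat_lit 447768) (nat_lit 1280043) (nat_lit 1) (nat_lit 1)) <|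
  List.cons (Rec.mk (nat_lit 51) (nat_lit 53) (nat_lit 1317338) (nat_lit 231467) (nat_lit 888048) (nat_lit 578007) (nat_lit 888048) (nat_lit 1317338) (nat_lit 1936624) (nat_lit 231467) (nat_lit 578007) (nat_lit 1280043) (nat_lit 1) (nat_lit 1)) <|
  List.cons (Rec.mk (nat_lit 51) (nat_lit 54) (nat_lit 268762) (nat_lit 231467) (nat_lit 530018) (nat_lit 84442) (nat_lit 268762) (nat_lit 530018) (nat_lit 1317338) (nat_lit 84442) (nat_lit 231467) (nat_lit 1133018) (nat_lit 0) (nat_lit 1)) <|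
  List.cons (Rec.mk (nat_lit 51) (nat_lit 55) (nat_lit 1317338) (nat_lit 231467) (nat_lit 1039209) (nat_lit 675035) (nat_lit 1039209) (nat_lit 1317338) (nat_lit 2087785) (nat_lit 231467) (nat_lit 675035) (nat_lit 1280043) (nat_lit 1) (nat_lit 1)) <|
  List.cons (Rec.mk (nat_lit 52) (nat_lit 53) (nat_lit 1316654) (nat_lit 447768) (nat_lit 888048) (nat_lit 578007) (nat_lit 888048) (nat_lit 1316654) (nat_lit 1936624) (nat_lit 447768) (nat_lit 578007) (nat_lit 1496344) (nat_lit 0) (nat_lit 1)) <|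
  List.cons (Rec.mk (nat_lit 52) (nat_lit 54) (nat_lit 268078) (nat_lit 447768) (nat_lit 530018) (nat_lit 84442) (nat_lit 268078) (nat_lit 530018) (nat_lit 1316654) (nat_lit 84442) (nat_lit 447768) (nat_lit 1133018) (nat_lit 1) (nat_lit 1)) <|
  List.cons (Rec.mk (nat_lit 52) (nat_lit 55) (nat_lit 1316654) (nat_lit 447768) (nat_lit 1039209) (nat_lit 675035) (nat_lit 1039209) (nat_lit 1316654) (nat_lit 2087785) (nat_lit 447768) (nat_lit 675035) (nat_lit 1496344) (nat_lit 0) (nat_lit 1)) <|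
  List.cons (Rec.mk (nat_lit 53) (nat_lit 54) (nat_lit 888048) (nat_lit 578007) (nat_lit 530018) (nat_lit 1133018) (nat_lit 530018) (nat_lit 888048) (nat_lit 1578594) (nat_lit 578007) (nat_lit 1133018) (nat_lit 1626583) (nat_lit 0) (nat_lit 0)) <|
  List.cons (Rec.mk (nat_lit 53) (nat_lit 55) (nat_lit 888048) (nat_lit 578007) (nat_lit 1039209) (nat_lit 675035) (nat_lit 888048) (nat_lit 1039209) (nat_lit 1936624) (nat_lit 578007) (nat_lit 675035) (nat_lit 1626583) (nat_lit 1) (nat_lit 1)) <|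
  List.cons (Rec.mk (nat_lit 54) (nat_lit 55) (nat_lit 530018) (nat_lit 1133018) (nat_lit 1039209) (nat_lit 675035) (nat_lit 530018) (nat_lit 1039209) (nat_lit 1578594) (nat_lit 675035) (nat_lit 1133018) (nat_lit 1723611) (nat_lit 0) (nat_lit 0)) <|
  List.cons (Rec.mk (nat_lit 0) (nat_lit 0) (nat_lit 81547) (nat_lit 242381) (nat_lit 81547) (nat_lit 242381) (nat_lit 81547) (nat_lit 81547) (nat_lit 1130123) (nat_lit 242381) (nat_lit 242381) (nat_lit 1290957) (nat_lit 0) (nat_lit 0)) <|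
  List.cons (Rec.mk (nat_lit 1) (nat_lit 1) (nat_lit 243623) (nat_lit 501101) (nat_lit 243623) (nat_lit 501101) (nat_lit 243623) (nat_lit 243623) (nat_lit 1292199) (nat_lit 501101) (nat_lit 501101) (nat_lit 1549677) (nat_lit 0) (nat_lit 0)) <|
  List.cons (Rec.mk (nat_lit 2) (nat_lit 2) (nat_lit 638790) (nat_lit 32744) (nat_lit 638790) (nat_lit 32744) (nat_lit 638790) (nat_lit 638790) (nat_lit 1687366) (nat_lit 32744) (nat_lit 32744) (nat_lit 1081320) (nat_lit 0) (nat_lit 0)) <|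
  List.cons (Rec.mk (nat_lit 3) (nat_lit 3) (nat_lit 595856) (nat_lit 1030861) (nat_lit 595856) (nat_lit 1030861) (nat_lit 595856) (nat_lit 595856) (nat_lit 1644432) (nat_lit 1030861) (nat_lit 1030861) (nat_lit 2079437) (nat_lit 0) (nat_lit 0)) <|
  List.cons (Rec.mk (nat_lit 4) (nat_lit 4) (nat_lit 413536) (nat_lit 543987) (nat_lit 413536) (nat_lit 543987) (nat_lit 413536) (nat_lit 413536) (nat_lit 1462112) (nat_lit 543987) (nat_lit 543987) (nat_lit 1592563) (nat_lit 0) (nat_lit 0)) <|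
  List.cons (Rec.mk (nat_lit 5) (nat_lit 5) (nat_lit 494782) (nat_lit 777563) (nat_lit 494782) (nat_lit 777563) (nat_lit 494782) (nat_lit 494782) (nat_lit 1543358) (nat_lit 777563) (nat_lit 777563) (nat_lit 1826139) (nat_lit 0) (nat_lit 0)) <|
  List.cons (Rec.mk (nat_lit 6) (nat_lit 6) (nat_lit 937387) (nat_lit 640361) (nat_lit 937387) (nat_lit 640361) (nat_lit 937387) (nat_lit 937387) (nat_lit 1985963) (nat_lit 640361) (nat_lit 640361) (nat_lit 1688937) (nat_lit 0) (nat_lit 0)) <|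
  List.cons (Rec.mk (nat_lit 7) (nat_lit 7) (nat_lit 741848) (nat_lit 272566) (nat_lit 741848) (nat_lit 272566) (nat_lit 741848) (nat_lit 741848) (nat_lit 1790424) (nat_lit 272566) (nat_lit 272566) (nat_lit 1321142) (nat_lit 0) (nat_lit 0)) <|
  List.cons (Rec.mk (nat_lit 8) (nat_lit 8) (nat_lit 201080) (nat_lit 971903) (nat_lit 201080) (nat_lit 971903) (nat_lit 201080) (nat_lit 201080) (nat_lit 1249656) (nat_lit 971903) (nat_lit 971903) (nat_lit 2020479) (nat_lit 0) (nat_lit 0)) <|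
  List.cons (Rec.mk (nat_lit 9) (nat_lit 9) (nat_lit 38750) (nat_lit 684886) (nat_lit 38750) (nat_lit 684886) (nat_lit 38750) (nat_lit 38750) (nat_lit 1087326) (nat_lit 684886) (nat_lit 684886) (nat_lit 1733462) (nat_lit 0) (nat_lit 0)) <|
  List.cons (Rec.mk (nat_lit 10) (nat_lit 10) (nat_lit 802444) (nat_lit 343805) (nat_lit 802444) (nat_lit 343805) (nat_lit 802444) (nat_lit 802444) (nat_lit 1851020) (nat_lit 343805) (nat_lit 343805) (nat_lit 1392381) (nat_lit 0) (nat_lit 0)) <|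
  List.cons (Rec.mk (nat_lit 11) (nat_lit 11) (nat_lit 1039812) (nat_lit 872241) (nat_lit 1039812) (nat_lit 872241) (nat_lit 1039812) (nat_lit 1039812) (nat_lit 2088388) (nat_lit 872241) (nat_lit 872241) (nat_lit 1920817) (nat_lit 0) (nat_lit 0)) <|
  List.cons (Rec.mk (nat_lit 12) (nat_lit 12) (nat_lit 109748) (nat_lit 204044) (nat_lit 109748) (nat_lit 204044) (nat_lit 109748) (nat_lit 109748) (nat_lit 1158324) (nat_lit 204044) (nat_lit 204044) (nat_lit 1252620) (nat_lit 0) (nat_lit 0)) <|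
  List.cons (Rec.mk (nat_lit 13) (nat_lit 13) (nat_lit 80662) (nat_lit 633316) (nat_lit 80662) (nat_lit 633316) (nat_lit 80662) (nat_lit 80662) (nat_lit 1129238) (nat_lit 633316) (nat_lit 633316) (nat_lit 1681892) (nat_lit 0) (nat_lit 0)) <|
  List.cons (Rec.mk (nat_lit 14) (nat_lit 14) (nat_lit 851227) (nat_lit 656936) (nat_lit 851227) (nat_lit 656936) (nat_lit 851227) (nat_lit 851227) (nat_lit 1899803) (nat_lit 656936) (nat_lit 656936) (nat_lit 1705512) (nat_lit 0) (nat_lit 0)) <|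
  List.cons (Rec.mk (nat_lit 15) (nat_lit 15) (nat_lit 416168) (nat_lit 793693) (nat_lit 416168) (nat_lit 793693) (nat_lit 416168) (nat_lit 416168) (nat_lit 1464744) (nat_lit 793693) (nat_lit 793693) (nat_lit 1842269) (nat_lit 0) (nat_lit 0)) <|
  List.cons (Rec.mk (nat_lit 16) (nat_lit 16) (nat_lit 478612) (nat_lit 544091) (nat_lit 478612) (nat_lit 544091) (nat_lit 478612) (nat_lit 478612) (nat_lit 1527188) (nat_lit 544091) (nat_lit 544091) (nat_lit 1592667) (nat_lit 0) (nat_lit 0)) <|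
  List.cons (Rec.mk (nat_lit 17) (nat_lit 17) (nat_lit 457741) (nat_lit 585975) (nat_lit 457741) (nat_lit 585975) (nat_lit 457741) (nat_lit 457741) (nat_lit 1506317) (nat_lit 585975) (nat_lit 585975) (nat_lit 1634551) (nat_lit 0) (nat_lit 0)) <|
  List.cons (Rec.mk (nat_lit 18) (nat_lit 18) (nat_lit 314895) (nat_lit 297987) (nat_lit 314895) (nat_lit 297987) (nat_lit 314895) (nat_lit 314895) (nat_lit 1363471) (nat_lit 297987) (nat_lit 297987) (nat_lit 1346563) (nat_lit 0) (nat_lit 0)) <|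
  List.cons (Rec.mk (nat_lit 19) (nat_lit 19) (nat_lit 821034) (nat_lit 699137) (nat_lit 821034) (nat_lit 699137) (nat_lit 821034) (nat_lit 821034) (nat_lit 1869610) (nat_lit 699137) (nat_lit 699137) (nat_lit 1747713) (nat_lit 0) (nat_lit 0)) <|
  E39

def E37 : List Rec :=
  List.cons (Rec.mk (nat_lit 44) (nat_lit 51) (nat_lit 797581) (nat_lit 83136) (nat_lit 268762) (nat_lit 231467) (nat_lit 268762) (nat_lit 797581) (nat_lit 1317338) (nat_lit 83136) (nat_lit 231467) (nat_lit 1131712) (nat_lit 0) (nat_lit 0)) <|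
  List.cons (Rec.mk (nat_lit 44) (nat_lit 52) (nat_lit 797581) (nat_lit 83136) (nat_lit 268078) (nat_lit 447768) (nat_lit 268078) (nat_lit 797581) (nat_lit 1316654) (nat_lit 83136) (nat_lit 447768) (nat_lit 1131712) (nat_lit 0) (nat_lit 1)) <|
  List.cons (Rec.mk (nat_lit 44) (nat_lit 53) (nat_lit 797581) (nat_lit 1131712) (nat_lit 888048) (nat_lit 578007) (nat_lit 797581) (nat_lit 888048) (nat_lit 1846157) (nat_lit 578007) (nat_lit 1131712) (nat_lit 1626583) (nat_lit 1) (nat_lit 0)) <|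
  List.cons (Rec.mk (nat_lit 44) (nat_lit 54) (nat_lit 797581) (nat_lit 83136) (nat_lit 530018) (nat_lit 84442) (nat_lit 530018) (nat_lit 797581) (nat_lit 1578594) (nat_lit 83136) (nat_lit 84442) (nat_lit 1131712) (nat_lit 0) (nat_lit 0)) <|
  List.cons (Rec.mk (nat_lit 44) (nat_lit 55) (nat_lit 797581) (nat_lit 1131712) (nat_lit 1039209) (nat_lit 675035) (nat_lit 797581) (nat_lit 1039209) (nat_lit 1846157) (nat_lit 675035) (nat_lit 1131712) (nat_lit 1723611) (nat_lit 1) (nat_lit 0)) <|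
  List.cons (Rec.mk (nat_lit 45) (nat_lit 46) (nat_lit 687375) (nat_lit 777397) (nat_lit 348262) (nat_lit 1276109) (nat_lit 348262) (nat_lit 687375) (nat_lit 1396838) (nat_lit 777397) (nat_lit 1276109) (nat_lit 1825973) (nat_lit 0) (nat_lit 1)) <|
  List.cons (Rec.mk (nat_lit 45) (nat_lit 47) (nat_lit 687375) (nat_lit 777397) (nat_lit 1257754) (nat_lit 549030) (nat_lit 687375) (nat_lit 1257754) (nat_lit 1735951) (nat_lit 549030) (nat_lit 777397) (nat_lit 1597606) (nat_lit 1) (nat_lit 1)) <|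
  List.cons (Rec.mk (nat_lit 45) (nat_lit 48) (nat_lit 687375) (nat_lit 777397) (nat_lit 949236) (nat_lit 374610) (nat_lit 687375) (nat_lit 949236) (nat_lit 1735951) (nat_lit 374610) (nat_lit 777397) (nat_lit 1423186) (nat_lit 1) (nat_lit 0)) <|
  List.cons (Rec.mk (nat_lit 45) (nat_lit 49) (nat_lit 687375) (nat_lit 777397) (nat_lit 662814) (nat_lit 807520) (nat_lit 662814) (nat_lit 687375) (nat_lit 1711390) (nat_lit 777397) (nat_lit 807520) (nat_lit 1825973) (nat_lit 0) (nat_lit 1)) <|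
  List.cons (Rec.mk (nat_lit 45) (nat_lit 50) (nat_lit 687375) (nat_lit 777397) (nat_lit 317216) (nat_lit 502786) (nat_lit 317216) (nat_lit 687375) (nat_lit 1365792) (nat_lit 502786) (nat_lit 777397) (nat_lit 1551362) (nat_lit 1) (nat_lit 1)) <|
  List.cons (Rec.mk (nat_lit 45) (nat_lit 51) (nat_lit 687375) (nat_lit 777397) (nat_lit 268762) (nat_lit 1280043) (nat_lit 268762) (nat_lit 687375) (nat_lit 1317338) (nat_lit 777397) (nat_lit 1280043) (nat_lit 1825973) (nat_lit 0) (nat_lit 0)) <|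
  List.cons (Rec.mk (nat_lit 45) (nat_lit 52) (nat_lit 687375) (nat_lit 777397) (nat_lit 1316654) (nat_lit 447768) (nat_lit 687375) (nat_lit 1316654) (nat_lit 1735951) (nat_lit 447768) (nat_lit 777397) (nat_lit 1496344) (nat_lit 1) (nat_lit 0)) <|
  List.cons (Rec.mk (nat_lit 45) (nat_lit 53) (nat_lit 687375) (nat_lit 777397) (nat_lit 888048) (nat_lit 578007) (nat_lit 687375) (nat_lit 888048) (nat_lit 1735951) (nat_lit 578007) (nat_lit 777397) (nat_lit 1626583) (nat_lit 1) (nat_lit 0)) <|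
  List.cons (Rec.mk (nat_lit 45) (nat_lit 54) (nat_lit 687375) (nat_lit 777397) (nat_lit 530018) (nat_lit 1133018) (nat_lit 530018) (nat_lit 687375) (nat_lit 1578594) (nat_lit 777397) (nat_lit 1133018) (nat_lit 1825973) (nat_lit 0) (nat_lit 0)) <|
  List.cons (Rec.mk (nat_lit 45) (nat_lit 55) (nat_lit 687375) (nat_lit 777397) (nat_lit 1039209) (nat_lit 675035) (nat_lit 687375) (nat_lit 1039209) (nat_lit 1735951) (nat_lit 675035) (nat_lit 777397) (nat_lit 1723611) (nat_lit 1) (nat_lit 0)) <|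
  List.cons (Rec.mk (nat_lit 46) (nat_lit 47) (nat_lit 348262) (nat_lit 227533) (nat_lit 209178) (nat_lit 549030) (nat_lit 209178) (nat_lit 348262) (nat_lit 1257754) (nat_lit 227533) (nat_lit 549030) (nat_lit 1276109) (nat_lit 0) (nat_lit 0)) <|
  List.cons (Rec.mk (nat_lit 46) (nat_lit 48) (nat_lit 1396838) (nat_lit 227533) (nat_lit 949236) (nat_lit 374610) (nat_lit 949236) (nat_lit 1396838) (nat_lit 1997812) (nat_lit 227533) (nat_lit 374610) (nat_lit 1276109) (nat_lit 0) (nat_lit 1)) <|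
  List.cons (Rec.mk (nat_lit 46) (nat_lit 49) (nat_lit 348262) (nat_lit 1276109) (nat_lit 662814) (nat_lit 807520) (nat_lit 348262) (nat_lit 662814) (nat_lit 1396838) (nat_lit 807520) (nat_lit 1276109) (nat_lit 1856096) (nat_lit 1) (nat_lit 0)) <|
  List.cons (Rec.mk (nat_lit 46) (nat_lit 50) (nat_lit 348262) (nat_lit 227533) (nat_lit 317216) (nat_lit 502786) (nat_lit 317216) (nat_lit 348262) (nat_lit 1365792) (nat_lit 227533) (nat_lit 502786) (nat_lit 1276109) (nat_lit 0) (nat_lit 0)) <|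
  List.cons (Rec.mk (nat_lit 46) (nat_lit 51) (nat_lit 348262) (nat_lit 227533) (nat_lit 268762) (nat_lit 231467) (nat_lit 268762) (nat_lit 348262) (nat_lit 1317338) (nat_lit 227533) (nat_lit 231467) (nat_lit 1276109) (nat_lit 0) (nat_lit 0)) <|
  List.cons (Rec.mk (nat_lit 46) (nat_lit 52) (nat_lit 348262) (nat_lit 227533) (nat_lit 268078) (nat_lit 447768) (nat_lit 268078) (nat_lit 348262) (nat_lit 1316654) (nat_lit 227533) (nat_lit 447768) (nat_lit 1276109) (nat_lit 0) (nat_lit 1)) <|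
  List.cons (Rec.mk (nat_lit 46) (nat_lit 53) (nat_lit 1396838) (nat_lit 227533) (nat_lit 888048) (nat_lit 578007) (nat_lit 888048) (nat_lit 1396838) (nat_lit 1936624) (nat_lit 227533) (nat_lit 578007) (nat_lit 1276109) (nat_lit 0) (nat_lit 1)) <|
  List.cons (Rec.mk (nat_lit 46) (nat_lit 54) (nat_lit 348262) (nat_lit 227533) (nat_lit 530018) (nat_lit 84442) (nat_lit 348262) (nat_lit 530018) (nat_lit 1396838) (nat_lit 84442) (nat_lit 227533) (nat_lit 1133018) (nat_lit 1) (nat_lit 1)) <|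
  List.cons (Rec.mk (nat_lit 46) (nat_lit 55) (nat_lit 1396838) (nat_lit 227533) (nat_lit 1039209) (nat_lit 675035) (nat_lit 1039209) (nat_lit 1396838) (nat_lit 2087785) (nat_lit 227533) (nat_lit 675035) (nat_lit 1276109) (nat_lit 0) (nat_lit 1)) <|
  List.cons (Rec.mk (nat_lit 47) (nat_lit 48) (nat_lit 1257754) (nat_lit 549030) (nat_lit 949236) (nat_lit 374610) (nat_lit 949236) (nat_lit 1257754) (nat_lit 1997812) (nat_lit 374610) (nat_lit 549030) (nat_lit 1423186) (nat_lit 0) (nat_lit 0)) <|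
  List.cons (Rec.mk (nat_lit 47) (nat_lit 49) (nat_lit 1257754) (nat_lit 549030) (nat_lit 662814) (nat_lit 807520) (nat_lit 662814) (nat_lit 1257754) (nat_lit 1711390) (nat_lit 549030) (nat_lit 807520) (nat_lit 1597606) (nat_lit 1) (nat_lit 1)) <|
  List.cons (Rec.mk (nat_lit 47) (nat_lit 50) (nat_lit 209178) (nat_lit 549030) (nat_lit 317216) (nat_lit 502786) (nat_lit 209178) (nat_lit 317216) (nat_lit 1257754) (nat_lit 502786) (nat_lit 549030) (nat_lit 1551362) (nat_lit 0) (nat_lit 1)) <|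
  List.cons (Rec.mk (nat_lit 47) (nat_lit 51) (nat_lit 209178) (nat_lit 549030) (nat_lit 268762) (nat_lit 231467) (nat_lit 209178) (nat_lit 268762) (nat_lit 1257754) (nat_lit 231467) (nat_lit 549030) (nat_lit 1280043) (nat_lit 0) (nat_lit 1)) <|
  List.cons (Rec.mk (nat_lit 47) (nat_lit 52) (nat_lit 209178) (nat_lit 549030) (nat_lit 268078) (nat_lit 447768) (nat_lit 209178) (nat_lit 268078) (nat_lit 1257754) (nat_lit 447768) (nat_lit 549030) (nat_lit 1496344) (nat_lit 0) (nat_lit 0)) <|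
  List.cons (Rec.mk (nat_lit 47) (nat_lit 53) (nat_lit 1257754) (nat_lit 549030) (nat_lit 888048) (nat_lit 578007) (nat_lit 888048) (nat_lit 1257754) (nat_lit 1936624) (nat_lit 549030) (nat_lit 578007) (nat_lit 1597606) (nat_lit 1) (nat_lit 1)) <|
  List.cons (Rec.mk (nat_lit 47) (nat_lit 54) (nat_lit 209178) (nat_lit 549030) (nat_lit 530018) (nat_lit 84442) (nat_lit 209178) (nat_lit 530018) (nat_lit 1257754) (nat_lit 84442) (nat_lit 549030) (nat_lit 1133018) (nat_lit 0) (nat_lit 1)) <|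
  List.cons (Rec.mk (nat_lit 47) (nat_lit 55) (nat_lit 1257754) (nat_lit 549030) (nat_lit 1039209) (nat_lit 675035) (nat_lit 1039209) (nat_lit 1257754) (nat_lit 2087785) (nat_lit 549030) (nat_lit 675035) (nat_lit 1597606) (nat_lit 1) (nat_lit 1)) <|
  List.cons (Rec.mk (nat_lit 48) (nat_lit 49) (nat_lit 949236) (nat_lit 374610) (nat_lit 662814) (nat_lit 807520) (nat_lit 662814) (nat_lit 949236) (nat_lit 1711390) (nat_lit 374610) (nat_lit 807520) (nat_lit 1423186) (nat_lit 0) (nat_lit 1)) <|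
  List.cons (Rec.mk (nat_lit 48) (nat_lit 50) (nat_lit 949236) (nat_lit 374610) (nat_lit 1365792) (nat_lit 502786) (nat_lit 949236) (nat_lit 1365792) (nat_lit 1997812) (nat_lit 374610) (nat_lit 502786) (nat_lit 1423186) (nat_lit 0) (nat_lit 0)) <|
  List.cons (Rec.mk (nat_lit 48) (nat_lit 51) (nat_lit 949236) (nat_lit 374610) (nat_lit 1317338) (nat_lit 231467) (nat_lit 949236) (nat_lit 1317338) (nat_lit 1997812) (nat_lit 231467) (nat_lit 374610) (nat_lit 1280043) (nat_lit 1) (nat_lit 1)) <|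
  List.cons (Rec.mk (nat_lit 48) (nat_lit 52) (nat_lit 949236) (nat_lit 374610) (nat_lit 1316654) (nat_lit 447768) (nat_lit 949236) (nat_lit 1316654) (nat_lit 1997812) (nat_lit 374610) (nat_lit 447768) (nat_lit 1423186) (nat_lit 1) (nat_lit 1)) <|
  List.cons (Rec.mk (nat_lit 48) (nat_lit 53) (nat_lit 949236) (nat_lit 374610) (nat_lit 888048) (nat_lit 578007) (nat_lit 888048) (nat_lit 949236) (nat_lit 1936624) (nat_lit 374610) (nat_lit 578007) (nat_lit 1423186) (nat_lit 0) (nat_lit 1)) <|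
  List.cons (Rec.mk (nat_lit 48) (nat_lit 54) (nat_lit 949236) (nat_lit 374610) (nat_lit 1578594) (nat_lit 84442) (nat_lit 949236) (nat_lit 1578594) (nat_lit 1997812) (nat_lit 84442) (nat_lit 374610) (nat_lit 1133018) (nat_lit 1) (nat_lit 1)) <|
  List.cons (Rec.mk (nat_lit 48) (nat_lit 55) (nat_lit 949236) (nat_lit 374610) (nat_lit 1039209) (nat_lit 675035) (nat_lit 949236) (nat_lit 1039209) (nat_lit 1997812) (nat_lit 374610) (nat_lit 675035) (nat_lit 1423186) (nat_lit 0) (nat_lit 1)) <|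
  List.cons (Rec.mk (nat_lit 49) (nat_lit 50) (nat_lit 662814) (nat_lit 807520) (nat_lit 317216) (nat_lit 502786) (nat_lit 317216) (nat_lit 662814) (nat_lit 1365792) (nat_lit 502786) (nat_lit 807520) (nat_lit 1551362) (nat_lit 1) (nat_lit 1)) <|
  E38

def E36 : List Rec :=
  List.cons (Rec.mk (nat_lit 41) (nat_lit 47) (nat_lit 587619) (nat_lit 824506) (nat_lit 209178) (nat_lit 549030) (nat_lit 209178) (nat_lit 587619) (nat_lit 1257754) (nat_lit 549030) (nat_lit 824506) (nat_lit 1597606) (nat_lit 0) (nat_lit 1)) <|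
  List.cons (Rec.mk (nat_lit 41) (nat_lit 48) (nat_lit 587619) (nat_lit 824506) (nat_lit 949236) (nat_lit 374610) (nat_lit 587619) (nat_lit 949236) (nat_lit 1636195) (nat_lit 374610) (nat_lit 824506) (nat_lit 1423186) (nat_lit 0) (nat_lit 0)) <|
  List.cons (Rec.mk (nat_lit 41) (nat_lit 49) (nat_lit 587619) (nat_lit 824506) (nat_lit 662814) (nat_lit 807520) (nat_lit 587619) (nat_lit 662814) (nat_lit 1636195) (nat_lit 807520) (nat_lit 824506) (nat_lit 1856096) (nat_lit 0) (nat_lit 0)) <|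
  List.cons (Rec.mk (nat_lit 41) (nat_lit 50) (nat_lit 587619) (nat_lit 824506) (nat_lit 317216) (nat_lit 502786) (nat_lit 317216) (nat_lit 587619) (nat_lit 1365792) (nat_lit 502786) (nat_lit 824506) (nat_lit 1551362) (nat_lit 0) (nat_lit 1)) <|
  List.cons (Rec.mk (nat_lit 41) (nat_lit 51) (nat_lit 587619) (nat_lit 824506) (nat_lit 268762) (nat_lit 1280043) (nat_lit 268762) (nat_lit 587619) (nat_lit 1317338) (nat_lit 824506) (nat_lit 1280043) (nat_lit 1873082) (nat_lit 1) (nat_lit 0)) <|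
  List.cons (Rec.mk (nat_lit 41) (nat_lit 52) (nat_lit 587619) (nat_lit 824506) (nat_lit 268078) (nat_lit 1496344) (nat_lit 268078) (nat_lit 587619) (nat_lit 1316654) (nat_lit 824506) (nat_lit 1496344) (nat_lit 1873082) (nat_lit 1) (nat_lit 1)) <|
  List.cons (Rec.mk (nat_lit 41) (nat_lit 53) (nat_lit 587619) (nat_lit 824506) (nat_lit 888048) (nat_lit 578007) (nat_lit 587619) (nat_lit 888048) (nat_lit 1636195) (nat_lit 578007) (nat_lit 824506) (nat_lit 1626583) (nat_lit 0) (nat_lit 0)) <|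
  List.cons (Rec.mk (nat_lit 41) (nat_lit 54) (nat_lit 587619) (nat_lit 824506) (nat_lit 530018) (nat_lit 1133018) (nat_lit 530018) (nat_lit 587619) (nat_lit 1578594) (nat_lit 824506) (nat_lit 1133018) (nat_lit 1873082) (nat_lit 1) (nat_lit 0)) <|
  List.cons (Rec.mk (nat_lit 41) (nat_lit 55) (nat_lit 587619) (nat_lit 824506) (nat_lit 1039209) (nat_lit 675035) (nat_lit 587619) (nat_lit 1039209) (nat_lit 1636195) (nat_lit 675035) (nat_lit 824506) (nat_lit 1723611) (nat_lit 0) (nat_lit 0)) <|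
  List.cons (Rec.mk (nat_lit 42) (nat_lit 43) (nat_lit 562139) (nat_lit 1101737) (nat_lit 443596) (nat_lit 733714) (nat_lit 443596) (nat_lit 562139) (nat_lit 1492172) (nat_lit 733714) (nat_lit 1101737) (nat_lit 1782290) (nat_lit 0) (nat_lit 0)) <|
  List.cons (Rec.mk (nat_lit 42) (nat_lit 44) (nat_lit 562139) (nat_lit 53161) (nat_lit 797581) (nat_lit 83136) (nat_lit 562139) (nat_lit 797581) (nat_lit 1610715) (nat_lit 53161) (nat_lit 83136) (nat_lit 1101737) (nat_lit 0) (nat_lit 1)) <|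
  List.cons (Rec.mk (nat_lit 42) (nat_lit 45) (nat_lit 562139) (nat_lit 1101737) (nat_lit 687375) (nat_lit 777397) (nat_lit 562139) (nat_lit 687375) (nat_lit 1610715) (nat_lit 777397) (nat_lit 1101737) (nat_lit 1825973) (nat_lit 0) (nat_lit 0)) <|
  List.cons (Rec.mk (nat_lit 42) (nat_lit 46) (nat_lit 562139) (nat_lit 53161) (nat_lit 348262) (nat_lit 227533) (nat_lit 348262) (nat_lit 562139) (nat_lit 1396838) (nat_lit 53161) (nat_lit 227533) (nat_lit 1101737) (nat_lit 1) (nat_lit 1)) <|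
  List.cons (Rec.mk (nat_lit 42) (nat_lit 47) (nat_lit 562139) (nat_lit 53161) (nat_lit 209178) (nat_lit 549030) (nat_lit 209178) (nat_lit 562139) (nat_lit 1257754) (nat_lit 53161) (nat_lit 549030) (nat_lit 1101737) (nat_lit 1) (nat_lit 0)) <|
  List.cons (Rec.mk (nat_lit 42) (nat_lit 48) (nat_lit 1610715) (nat_lit 53161) (nat_lit 949236) (nat_lit 374610) (nat_lit 949236) (nat_lit 1610715) (nat_lit 1997812) (nat_lit 53161) (nat_lit 374610) (nat_lit 1101737) (nat_lit 1) (nat_lit 1)) <|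
  List.cons (Rec.mk (nat_lit 42) (nat_lit 49) (nat_lit 562139) (nat_lit 1101737) (nat_lit 662814) (nat_lit 807520) (nat_lit 562139) (nat_lit 662814) (nat_lit 1610715) (nat_lit 807520) (nat_lit 1101737) (nat_lit 1856096) (nat_lit 0) (nat_lit 0)) <|
  List.cons (Rec.mk (nat_lit 42) (nat_lit 50) (nat_lit 562139) (nat_lit 53161) (nat_lit 317216) (nat_lit 502786) (nat_lit 317216) (nat_lit 562139) (nat_lit 1365792) (nat_lit 53161) (nat_lit 502786) (nat_lit 1101737) (nat_lit 1) (nat_lit 0)) <|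
  List.cons (Rec.mk (nat_lit 42) (nat_lit 51) (nat_lit 562139) (nat_lit 53161) (nat_lit 268762) (nat_lit 231467) (nat_lit 268762) (nat_lit 562139) (nat_lit 1317338) (nat_lit 53161) (nat_lit 231467) (nat_lit 1101737) (nat_lit 1) (nat_lit 0)) <|
  List.cons (Rec.mk (nat_lit 42) (nat_lit 52) (nat_lit 562139) (nat_lit 53161) (nat_lit 268078) (nat_lit 447768) (nat_lit 268078) (nat_lit 562139) (nat_lit 1316654) (nat_lit 53161) (nat_lit 447768) (nat_lit 1101737) (nat_lit 1) (nat_lit 1)) <|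
  List.cons (Rec.mk (nat_lit 42) (nat_lit 53) (nat_lit 562139) (nat_lit 1101737) (nat_lit 888048) (nat_lit 578007) (nat_lit 562139) (nat_lit 888048) (nat_lit 1610715) (nat_lit 578007) (nat_lit 1101737) (nat_lit 1626583) (nat_lit 0) (nat_lit 0)) <|
  List.cons (Rec.mk (nat_lit 42) (nat_lit 54) (nat_lit 562139) (nat_lit 53161) (nat_lit 530018) (nat_lit 84442) (nat_lit 530018) (nat_lit 562139) (nat_lit 1578594) (nat_lit 53161) (nat_lit 84442) (nat_lit 1101737) (nat_lit 1) (nat_lit 0)) <|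
  List.cons (Rec.mk (nat_lit 42) (nat_lit 55) (nat_lit 562139) (nat_lit 1101737) (nat_lit 1039209) (nat_lit 675035) (nat_lit 562139) (nat_lit 1039209) (nat_lit 1610715) (nat_lit 675035) (nat_lit 1101737) (nat_lit 1723611) (nat_lit 0) (nat_lit 0)) <|
  List.cons (Rec.mk (nat_lit 43) (nat_lit 44) (nat_lit 443596) (nat_lit 733714) (nat_lit 797581) (nat_lit 83136) (nat_lit 443596) (nat_lit 797581) (nat_lit 1492172) (nat_lit 83136) (nat_lit 733714) (nat_lit 1131712) (nat_lit 1) (nat_lit 0)) <|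
  List.cons (Rec.mk (nat_lit 43) (nat_lit 45) (nat_lit 443596) (nat_lit 733714) (nat_lit 687375) (nat_lit 777397) (nat_lit 443596) (nat_lit 687375) (nat_lit 1492172) (nat_lit 733714) (nat_lit 777397) (nat_lit 1782290) (nat_lit 0) (nat_lit 0)) <|
  List.cons (Rec.mk (nat_lit 43) (nat_lit 46) (nat_lit 443596) (nat_lit 733714) (nat_lit 348262) (nat_lit 1276109) (nat_lit 348262) (nat_lit 443596) (nat_lit 1396838) (nat_lit 733714) (nat_lit 1276109) (nat_lit 1782290) (nat_lit 0) (nat_lit 1)) <|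
  List.cons (Rec.mk (nat_lit 43) (nat_lit 47) (nat_lit 443596) (nat_lit 733714) (nat_lit 209178) (nat_lit 549030) (nat_lit 209178) (nat_lit 443596) (nat_lit 1257754) (nat_lit 549030) (nat_lit 733714) (nat_lit 1597606) (nat_lit 1) (nat_lit 1)) <|
  List.cons (Rec.mk (nat_lit 43) (nat_lit 48) (nat_lit 443596) (nat_lit 733714) (nat_lit 949236) (nat_lit 374610) (nat_lit 443596) (nat_lit 949236) (nat_lit 1492172) (nat_lit 374610) (nat_lit 733714) (nat_lit 1423186) (nat_lit 1) (nat_lit 0)) <|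
  List.cons (Rec.mk (nat_lit 43) (nat_lit 49) (nat_lit 443596) (nat_lit 733714) (nat_lit 662814) (nat_lit 807520) (nat_lit 443596) (nat_lit 662814) (nat_lit 1492172) (nat_lit 733714) (nat_lit 807520) (nat_lit 1782290) (nat_lit 0) (nat_lit 1)) <|
  List.cons (Rec.mk (nat_lit 43) (nat_lit 50) (nat_lit 443596) (nat_lit 733714) (nat_lit 317216) (nat_lit 502786) (nat_lit 317216) (nat_lit 443596) (nat_lit 1365792) (nat_lit 502786) (nat_lit 733714) (nat_lit 1551362) (nat_lit 1) (nat_lit 1)) <|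
  List.cons (Rec.mk (nat_lit 43) (nat_lit 51) (nat_lit 443596) (nat_lit 733714) (nat_lit 268762) (nat_lit 1280043) (nat_lit 268762) (nat_lit 443596) (nat_lit 1317338) (nat_lit 733714) (nat_lit 1280043) (nat_lit 1782290) (nat_lit 0) (nat_lit 0)) <|
  List.cons (Rec.mk (nat_lit 43) (nat_lit 52) (nat_lit 443596) (nat_lit 733714) (nat_lit 268078) (nat_lit 447768) (nat_lit 268078) (nat_lit 443596) (nat_lit 1316654) (nat_lit 447768) (nat_lit 733714) (nat_lit 1496344) (nat_lit 1) (nat_lit 0)) <|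
  List.cons (Rec.mk (nat_lit 43) (nat_lit 53) (nat_lit 443596) (nat_lit 733714) (nat_lit 888048) (nat_lit 578007) (nat_lit 443596) (nat_lit 888048) (nat_lit 1492172) (nat_lit 578007) (nat_lit 733714) (nat_lit 1626583) (nat_lit 1) (nat_lit 0)) <|
  List.cons (Rec.mk (nat_lit 43) (nat_lit 54) (nat_lit 443596) (nat_lit 733714) (nat_lit 530018) (nat_lit 1133018) (nat_lit 443596) (nat_lit 530018) (nat_lit 1492172) (nat_lit 733714) (nat_lit 1133018) (nat_lit 1782290) (nat_lit 0) (nat_lit 0)) <|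
  List.cons (Rec.mk (nat_lit 43) (nat_lit 55) (nat_lit 1492172) (nat_lit 733714) (nat_lit 1039209) (nat_lit 675035) (nat_lit 1039209) (nat_lit 1492172) (nat_lit 2087785) (nat_lit 675035) (nat_lit 733714) (nat_lit 1723611) (nat_lit 1) (nat_lit 1)) <|
  List.cons (Rec.mk (nat_lit 44) (nat_lit 45) (nat_lit 797581) (nat_lit 1131712) (nat_lit 687375) (nat_lit 777397) (nat_lit 687375) (nat_lit 797581) (nat_lit 1735951) (nat_lit 777397) (nat_lit 1131712) (nat_lit 1825973) (nat_lit 1) (nat_lit 0)) <|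
  List.cons (Rec.mk (nat_lit 44) (nat_lit 46) (nat_lit 797581) (nat_lit 83136) (nat_lit 348262) (nat_lit 227533) (nat_lit 348262) (nat_lit 797581) (nat_lit 1396838) (nat_lit 83136) (nat_lit 227533) (nat_lit 1131712) (nat_lit 0) (nat_lit 1)) <|
  List.cons (Rec.mk (nat_lit 44) (nat_lit 47) (nat_lit 797581) (nat_lit 83136) (nat_lit 209178) (nat_lit 549030) (nat_lit 209178) (nat_lit 797581) (nat_lit 1257754) (nat_lit 83136) (nat_lit 549030) (nat_lit 1131712) (nat_lit 0) (nat_lit 0)) <|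
  List.cons (Rec.mk (nat_lit 44) (nat_lit 48) (nat_lit 797581) (nat_lit 83136) (nat_lit 949236) (nat_lit 374610) (nat_lit 797581) (nat_lit 949236) (nat_lit 1846157) (nat_lit 83136) (nat_lit 374610) (nat_lit 1131712) (nat_lit 0) (nat_lit 1)) <|
  List.cons (Rec.mk (nat_lit 44) (nat_lit 49) (nat_lit 797581) (nat_lit 1131712) (nat_lit 662814) (nat_lit 807520) (nat_lit 662814) (nat_lit 797581) (nat_lit 1711390) (nat_lit 807520) (nat_lit 1131712) (nat_lit 1856096) (nat_lit 1) (nat_lit 0)) <|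
  List.cons (Rec.mk (nat_lit 44) (nat_lit 50) (nat_lit 797581) (nat_lit 83136) (nat_lit 317216) (nat_lit 502786) (nat_lit 317216) (nat_lit 797581) (nat_lit 1365792) (nat_lit 83136) (nat_lit 502786) (nat_lit 1131712) (nat_lit 0) (nat_lit 0)) <|
  E37

def E35 : List Rec :=
  List.cons (Rec.mk (nat_lit 38) (nat_lit 52) (nat_lit 712533) (nat_lit 337991) (nat_lit 268078) (nat_lit 447768) (nat_lit 268078) (nat_lit 712533) (nat_lit 1316654) (nat_lit 337991) (nat_lit 447768) (nat_lit 1386567) (nat_lit 1) (nat_lit 1)) <|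
  List.cons (Rec.mk (nat_lit 38) (nat_lit 53) (nat_lit 712533) (nat_lit 337991) (nat_lit 888048) (nat_lit 578007) (nat_lit 712533) (nat_lit 888048) (nat_lit 1761109) (nat_lit 337991) (nat_lit 578007) (nat_lit 1386567) (nat_lit 1) (nat_lit 1)) <|
  List.cons (Rec.mk (nat_lit 38) (nat_lit 54) (nat_lit 712533) (nat_lit 337991) (nat_lit 530018) (nat_lit 84442) (nat_lit 530018) (nat_lit 712533) (nat_lit 1578594) (nat_lit 84442) (nat_lit 337991) (nat_lit 1133018) (nat_lit 0) (nat_lit 1)) <|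
  List.cons (Rec.mk (nat_lit 38) (nat_lit 55) (nat_lit 712533) (nat_lit 337991) (nat_lit 1039209) (nat_lit 675035) (nat_lit 712533) (nat_lit 1039209) (nat_lit 1761109) (nat_lit 337991) (nat_lit 675035) (nat_lit 1386567) (nat_lit 1) (nat_lit 1)) <|
  List.cons (Rec.mk (nat_lit 39) (nat_lit 40) (nat_lit 1075060) (nat_lit 718563) (nat_lit 714818) (nat_lit 1128168) (nat_lit 714818) (nat_lit 1075060) (nat_lit 1763394) (nat_lit 718563) (nat_lit 1128168) (nat_lit 1767139) (nat_lit 1) (nat_lit 0)) <|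
  List.cons (Rec.mk (nat_lit 39) (nat_lit 41) (nat_lit 1075060) (nat_lit 718563) (nat_lit 587619) (nat_lit 824506) (nat_lit 587619) (nat_lit 1075060) (nat_lit 1636195) (nat_lit 718563) (nat_lit 824506) (nat_lit 1767139) (nat_lit 1) (nat_lit 0)) <|
  List.cons (Rec.mk (nat_lit 39) (nat_lit 42) (nat_lit 1075060) (nat_lit 718563) (nat_lit 562139) (nat_lit 1101737) (nat_lit 562139) (nat_lit 1075060) (nat_lit 1610715) (nat_lit 718563) (nat_lit 1101737) (nat_lit 1767139) (nat_lit 1) (nat_lit 0)) <|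
  List.cons (Rec.mk (nat_lit 39) (nat_lit 43) (nat_lit 26484) (nat_lit 718563) (nat_lit 443596) (nat_lit 733714) (nat_lit 26484) (nat_lit 443596) (nat_lit 1075060) (nat_lit 718563) (nat_lit 733714) (nat_lit 1767139) (nat_lit 0) (nat_lit 0)) <|
  List.cons (Rec.mk (nat_lit 39) (nat_lit 44) (nat_lit 1075060) (nat_lit 718563) (nat_lit 797581) (nat_lit 1131712) (nat_lit 797581) (nat_lit 1075060) (nat_lit 1846157) (nat_lit 718563) (nat_lit 1131712) (nat_lit 1767139) (nat_lit 1) (nat_lit 1)) <|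
  List.cons (Rec.mk (nat_lit 39) (nat_lit 45) (nat_lit 1075060) (nat_lit 718563) (nat_lit 687375) (nat_lit 777397) (nat_lit 687375) (nat_lit 1075060) (nat_lit 1735951) (nat_lit 718563) (nat_lit 777397) (nat_lit 1767139) (nat_lit 1) (nat_lit 1)) <|
  List.cons (Rec.mk (nat_lit 39) (nat_lit 46) (nat_lit 26484) (nat_lit 718563) (nat_lit 348262) (nat_lit 227533) (nat_lit 26484) (nat_lit 348262) (nat_lit 1075060) (nat_lit 227533) (nat_lit 718563) (nat_lit 1276109) (nat_lit 0) (nat_lit 0)) <|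
  List.cons (Rec.mk (nat_lit 39) (nat_lit 47) (nat_lit 26484) (nat_lit 718563) (nat_lit 209178) (nat_lit 549030) (nat_lit 26484) (nat_lit 209178) (nat_lit 1075060) (nat_lit 549030) (nat_lit 718563) (nat_lit 1597606) (nat_lit 0) (nat_lit 1)) <|
  List.cons (Rec.mk (nat_lit 39) (nat_lit 48) (nat_lit 1075060) (nat_lit 718563) (nat_lit 949236) (nat_lit 374610) (nat_lit 949236) (nat_lit 1075060) (nat_lit 1997812) (nat_lit 374610) (nat_lit 718563) (nat_lit 1423186) (nat_lit 0) (nat_lit 0)) <|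
  List.cons (Rec.mk (nat_lit 39) (nat_lit 49) (nat_lit 1075060) (nat_lit 718563) (nat_lit 662814) (nat_lit 807520) (nat_lit 662814) (nat_lit 1075060) (nat_lit 1711390) (nat_lit 718563) (nat_lit 807520) (nat_lit 1767139) (nat_lit 1) (nat_lit 1)) <|
  List.cons (Rec.mk (nat_lit 39) (nat_lit 50) (nat_lit 26484) (nat_lit 718563) (nat_lit 317216) (nat_lit 502786) (nat_lit 26484) (nat_lit 317216) (nat_lit 1075060) (nat_lit 502786) (nat_lit 718563) (nat_lit 1551362) (nat_lit 0) (nat_lit 1)) <|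
  List.cons (Rec.mk (nat_lit 39) (nat_lit 51) (nat_lit 26484) (nat_lit 718563) (nat_lit 268762) (nat_lit 231467) (nat_lit 26484) (nat_lit 268762) (nat_lit 1075060) (nat_lit 231467) (nat_lit 718563) (nat_lit 1280043) (nat_lit 0) (nat_lit 1)) <|
  List.cons (Rec.mk (nat_lit 39) (nat_lit 52) (nat_lit 26484) (nat_lit 718563) (nat_lit 268078) (nat_lit 447768) (nat_lit 26484) (nat_lit 268078) (nat_lit 1075060) (nat_lit 447768) (nat_lit 718563) (nat_lit 1496344) (nat_lit 0) (nat_lit 0)) <|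
  List.cons (Rec.mk (nat_lit 39) (nat_lit 53) (nat_lit 1075060) (nat_lit 718563) (nat_lit 888048) (nat_lit 578007) (nat_lit 888048) (nat_lit 1075060) (nat_lit 1936624) (nat_lit 578007) (nat_lit 718563) (nat_lit 1626583) (nat_lit 0) (nat_lit 0)) <|
  List.cons (Rec.mk (nat_lit 39) (nat_lit 54) (nat_lit 1075060) (nat_lit 718563) (nat_lit 530018) (nat_lit 1133018) (nat_lit 530018) (nat_lit 1075060) (nat_lit 1578594) (nat_lit 718563) (nat_lit 1133018) (nat_lit 1767139) (nat_lit 1) (nat_lit 0)) <|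
  List.cons (Rec.mk (nat_lit 39) (nat_lit 55) (nat_lit 1075060) (nat_lit 718563) (nat_lit 1039209) (nat_lit 675035) (nat_lit 1039209) (nat_lit 1075060) (nat_lit 2087785) (nat_lit 675035) (nat_lit 718563) (nat_lit 1723611) (nat_lit 0) (nat_lit 0)) <|
  List.cons (Rec.mk (nat_lit 40) (nat_lit 41) (nat_lit 714818) (nat_lit 1128168) (nat_lit 587619) (nat_lit 824506) (nat_lit 587619) (nat_lit 714818) (nat_lit 1636195) (nat_lit 824506) (nat_lit 1128168) (nat_lit 1873082) (nat_lit 0) (nat_lit 1)) <|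
  List.cons (Rec.mk (nat_lit 40) (nat_lit 42) (nat_lit 714818) (nat_lit 79592) (nat_lit 562139) (nat_lit 53161) (nat_lit 562139) (nat_lit 714818) (nat_lit 1610715) (nat_lit 53161) (nat_lit 79592) (nat_lit 1101737) (nat_lit 0) (nat_lit 0)) <|
  List.cons (Rec.mk (nat_lit 40) (nat_lit 43) (nat_lit 714818) (nat_lit 79592) (nat_lit 443596) (nat_lit 733714) (nat_lit 443596) (nat_lit 714818) (nat_lit 1492172) (nat_lit 79592) (nat_lit 733714) (nat_lit 1128168) (nat_lit 1) (nat_lit 1)) <|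
  List.cons (Rec.mk (nat_lit 40) (nat_lit 44) (nat_lit 714818) (nat_lit 79592) (nat_lit 797581) (nat_lit 83136) (nat_lit 714818) (nat_lit 797581) (nat_lit 1763394) (nat_lit 79592) (nat_lit 83136) (nat_lit 1128168) (nat_lit 0) (nat_lit 0)) <|
  List.cons (Rec.mk (nat_lit 40) (nat_lit 45) (nat_lit 714818) (nat_lit 1128168) (nat_lit 687375) (nat_lit 777397) (nat_lit 687375) (nat_lit 714818) (nat_lit 1735951) (nat_lit 777397) (nat_lit 1128168) (nat_lit 1825973) (nat_lit 0) (nat_lit 0)) <|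
  List.cons (Rec.mk (nat_lit 40) (nat_lit 46) (nat_lit 714818) (nat_lit 79592) (nat_lit 348262) (nat_lit 227533) (nat_lit 348262) (nat_lit 714818) (nat_lit 1396838) (nat_lit 79592) (nat_lit 227533) (nat_lit 1128168) (nat_lit 1) (nat_lit 1)) <|
  List.cons (Rec.mk (nat_lit 40) (nat_lit 47) (nat_lit 714818) (nat_lit 79592) (nat_lit 209178) (nat_lit 549030) (nat_lit 209178) (nat_lit 714818) (nat_lit 1257754) (nat_lit 79592) (nat_lit 549030) (nat_lit 1128168) (nat_lit 1) (nat_lit 0)) <|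
  List.cons (Rec.mk (nat_lit 40) (nat_lit 48) (nat_lit 714818) (nat_lit 79592) (nat_lit 949236) (nat_lit 374610) (nat_lit 714818) (nat_lit 949236) (nat_lit 1763394) (nat_lit 79592) (nat_lit 374610) (nat_lit 1128168) (nat_lit 1) (nat_lit 1)) <|
  List.cons (Rec.mk (nat_lit 40) (nat_lit 49) (nat_lit 714818) (nat_lit 1128168) (nat_lit 662814) (nat_lit 807520) (nat_lit 662814) (nat_lit 714818) (nat_lit 1711390) (nat_lit 807520) (nat_lit 1128168) (nat_lit 1856096) (nat_lit 0) (nat_lit 0)) <|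
  List.cons (Rec.mk (nat_lit 40) (nat_lit 50) (nat_lit 714818) (nat_lit 79592) (nat_lit 317216) (nat_lit 502786) (nat_lit 317216) (nat_lit 714818) (nat_lit 1365792) (nat_lit 79592) (nat_lit 502786) (nat_lit 1128168) (nat_lit 1) (nat_lit 0)) <|
  List.cons (Rec.mk (nat_lit 40) (nat_lit 51) (nat_lit 714818) (nat_lit 79592) (nat_lit 268762) (nat_lit 231467) (nat_lit 268762) (nat_lit 714818) (nat_lit 1317338) (nat_lit 79592) (nat_lit 231467) (nat_lit 1128168) (nat_lit 1) (nat_lit 0)) <|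
  List.cons (Rec.mk (nat_lit 40) (nat_lit 52) (nat_lit 714818) (nat_lit 79592) (nat_lit 268078) (nat_lit 447768) (nat_lit 268078) (nat_lit 714818) (nat_lit 1316654) (nat_lit 79592) (nat_lit 447768) (nat_lit 1128168) (nat_lit 1) (nat_lit 1)) <|
  List.cons (Rec.mk (nat_lit 40) (nat_lit 53) (nat_lit 714818) (nat_lit 1128168) (nat_lit 888048) (nat_lit 578007) (nat_lit 714818) (nat_lit 888048) (nat_lit 1763394) (nat_lit 578007) (nat_lit 1128168) (nat_lit 1626583) (nat_lit 0) (nat_lit 0)) <|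
  List.cons (Rec.mk (nat_lit 40) (nat_lit 54) (nat_lit 714818) (nat_lit 79592) (nat_lit 530018) (nat_lit 84442) (nat_lit 530018) (nat_lit 714818) (nat_lit 1578594) (nat_lit 79592) (nat_lit 84442) (nat_lit 1128168) (nat_lit 1) (nat_lit 0)) <|
  List.cons (Rec.mk (nat_lit 40) (nat_lit 55) (nat_lit 714818) (nat_lit 1128168) (nat_lit 1039209) (nat_lit 675035) (nat_lit 714818) (nat_lit 1039209) (nat_lit 1763394) (nat_lit 675035) (nat_lit 1128168) (nat_lit 1723611) (nat_lit 0) (nat_lit 0)) <|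
  List.cons (Rec.mk (nat_lit 41) (nat_lit 42) (nat_lit 587619) (nat_lit 824506) (nat_lit 562139) (nat_lit 1101737) (nat_lit 562139) (nat_lit 587619) (nat_lit 1610715) (nat_lit 824506) (nat_lit 1101737) (nat_lit 1873082) (nat_lit 1) (nat_lit 0)) <|
  List.cons (Rec.mk (nat_lit 41) (nat_lit 43) (nat_lit 587619) (nat_lit 824506) (nat_lit 443596) (nat_lit 733714) (nat_lit 443596) (nat_lit 587619) (nat_lit 1492172) (nat_lit 733714) (nat_lit 824506) (nat_lit 1782290) (nat_lit 0) (nat_lit 0)) <|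
  List.cons (Rec.mk (nat_lit 41) (nat_lit 44) (nat_lit 587619) (nat_lit 824506) (nat_lit 797581) (nat_lit 1131712) (nat_lit 587619) (nat_lit 797581) (nat_lit 1636195) (nat_lit 824506) (nat_lit 1131712) (nat_lit 1873082) (nat_lit 1) (nat_lit 1)) <|
  List.cons (Rec.mk (nat_lit 41) (nat_lit 45) (nat_lit 587619) (nat_lit 824506) (nat_lit 687375) (nat_lit 777397) (nat_lit 587619) (nat_lit 687375) (nat_lit 1636195) (nat_lit 777397) (nat_lit 824506) (nat_lit 1825973) (nat_lit 0) (nat_lit 0)) <|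
  List.cons (Rec.mk (nat_lit 41) (nat_lit 46) (nat_lit 587619) (nat_lit 824506) (nat_lit 348262) (nat_lit 1276109) (nat_lit 348262) (nat_lit 587619) (nat_lit 1396838) (nat_lit 824506) (nat_lit 1276109) (nat_lit 1873082) (nat_lit 1) (nat_lit 1)) <|
  E36

def E34 : List Rec :=
  List.cons (Rec.mk (nat_lit 36) (nat_lit 47) (nat_lit 384169) (nat_lit 176938) (nat_lit 209178) (nat_lit 549030) (nat_lit 209178) (nat_lit 384169) (nat_lit 1257754) (nat_lit 176938) (nat_lit 549030) (nat_lit 1225514) (nat_lit 0) (nat_lit 0)) <|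
  List.cons (Rec.mk (nat_lit 36) (nat_lit 48) (nat_lit 1432745) (nat_lit 176938) (nat_lit 949236) (nat_lit 374610) (nat_lit 949236) (nat_lit 1432745) (nat_lit 1997812) (nat_lit 176938) (nat_lit 374610) (nat_lit 1225514) (nat_lit 0) (nat_lit 1)) <|
  List.cons (Rec.mk (nat_lit 36) (nat_lit 49) (nat_lit 384169) (nat_lit 1225514) (nat_lit 662814) (nat_lit 807520) (nat_lit 384169) (nat_lit 662814) (nat_lit 1432745) (nat_lit 807520) (nat_lit 1225514) (nat_lit 1856096) (nat_lit 1) (nat_lit 0)) <|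
  List.cons (Rec.mk (nat_lit 36) (nat_lit 50) (nat_lit 384169) (nat_lit 176938) (nat_lit 317216) (nat_lit 502786) (nat_lit 317216) (nat_lit 384169) (nat_lit 1365792) (nat_lit 176938) (nat_lit 502786) (nat_lit 1225514) (nat_lit 0) (nat_lit 0)) <|
  List.cons (Rec.mk (nat_lit 36) (nat_lit 51) (nat_lit 384169) (nat_lit 176938) (nat_lit 268762) (nat_lit 231467) (nat_lit 268762) (nat_lit 384169) (nat_lit 1317338) (nat_lit 176938) (nat_lit 231467) (nat_lit 1225514) (nat_lit 0) (nat_lit 0)) <|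
  List.cons (Rec.mk (nat_lit 36) (nat_lit 52) (nat_lit 384169) (nat_lit 176938) (nat_lit 268078) (nat_lit 447768) (nat_lit 268078) (nat_lit 384169) (nat_lit 1316654) (nat_lit 176938) (nat_lit 447768) (nat_lit 1225514) (nat_lit 0) (nat_lit 1)) <|
  List.cons (Rec.mk (nat_lit 36) (nat_lit 53) (nat_lit 1432745) (nat_lit 176938) (nat_lit 888048) (nat_lit 578007) (nat_lit 888048) (nat_lit 1432745) (nat_lit 1936624) (nat_lit 176938) (nat_lit 578007) (nat_lit 1225514) (nat_lit 0) (nat_lit 1)) <|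
  List.cons (Rec.mk (nat_lit 36) (nat_lit 54) (nat_lit 384169) (nat_lit 176938) (nat_lit 530018) (nat_lit 84442) (nat_lit 384169) (nat_lit 530018) (nat_lit 1432745) (nat_lit 84442) (nat_lit 176938) (nat_lit 1133018) (nat_lit 1) (nat_lit 1)) <|
  List.cons (Rec.mk (nat_lit 36) (nat_lit 55) (nat_lit 1432745) (nat_lit 176938) (nat_lit 1039209) (nat_lit 675035) (nat_lit 1039209) (nat_lit 1432745) (nat_lit 2087785) (nat_lit 176938) (nat_lit 675035) (nat_lit 1225514) (nat_lit 0) (nat_lit 1)) <|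
  List.cons (Rec.mk (nat_lit 37) (nat_lit 38) (nat_lit 981851) (nat_lit 976656) (nat_lit 712533) (nat_lit 1386567) (nat_lit 712533) (nat_lit 981851) (nat_lit 1761109) (nat_lit 976656) (nat_lit 1386567) (nat_lit 2025232) (nat_lit 1) (nat_lit 0)) <|
  List.cons (Rec.mk (nat_lit 37) (nat_lit 39) (nat_lit 981851) (nat_lit 976656) (nat_lit 1075060) (nat_lit 718563) (nat_lit 981851) (nat_lit 1075060) (nat_lit 2030427) (nat_lit 718563) (nat_lit 976656) (nat_lit 1767139) (nat_lit 0) (nat_lit 1)) <|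
  List.cons (Rec.mk (nat_lit 37) (nat_lit 40) (nat_lit 981851) (nat_lit 976656) (nat_lit 714818) (nat_lit 1128168) (nat_lit 714818) (nat_lit 981851) (nat_lit 1763394) (nat_lit 976656) (nat_lit 1128168) (nat_lit 2025232) (nat_lit 1) (nat_lit 0)) <|
  List.cons (Rec.mk (nat_lit 37) (nat_lit 41) (nat_lit 981851) (nat_lit 976656) (nat_lit 587619) (nat_lit 824506) (nat_lit 587619) (nat_lit 981851) (nat_lit 1636195) (nat_lit 824506) (nat_lit 976656) (nat_lit 1873082) (nat_lit 1) (nat_lit 1)) <|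
  List.cons (Rec.mk (nat_lit 37) (nat_lit 42) (nat_lit 981851) (nat_lit 976656) (nat_lit 562139) (nat_lit 1101737) (nat_lit 562139) (nat_lit 981851) (nat_lit 1610715) (nat_lit 976656) (nat_lit 1101737) (nat_lit 2025232) (nat_lit 1) (nat_lit 0)) <|
  List.cons (Rec.mk (nat_lit 37) (nat_lit 43) (nat_lit 981851) (nat_lit 976656) (nat_lit 1492172) (nat_lit 733714) (nat_lit 981851) (nat_lit 1492172) (nat_lit 2030427) (nat_lit 733714) (nat_lit 976656) (nat_lit 1782290) (nat_lit 0) (nat_lit 0)) <|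
  List.cons (Rec.mk (nat_lit 37) (nat_lit 44) (nat_lit 981851) (nat_lit 976656) (nat_lit 797581) (nat_lit 1131712) (nat_lit 797581) (nat_lit 981851) (nat_lit 1846157) (nat_lit 976656) (nat_lit 1131712) (nat_lit 2025232) (nat_lit 1) (nat_lit 1)) <|
  List.cons (Rec.mk (nat_lit 37) (nat_lit 45) (nat_lit 981851) (nat_lit 976656) (nat_lit 687375) (nat_lit 777397) (nat_lit 687375) (nat_lit 981851) (nat_lit 1735951) (nat_lit 777397) (nat_lit 976656) (nat_lit 1825973) (nat_lit 0) (nat_lit 0)) <|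
  List.cons (Rec.mk (nat_lit 37) (nat_lit 46) (nat_lit 981851) (nat_lit 976656) (nat_lit 348262) (nat_lit 1276109) (nat_lit 348262) (nat_lit 981851) (nat_lit 1396838) (nat_lit 976656) (nat_lit 1276109) (nat_lit 2025232) (nat_lit 1) (nat_lit 1)) <|
  List.cons (Rec.mk (nat_lit 37) (nat_lit 47) (nat_lit 981851) (nat_lit 976656) (nat_lit 1257754) (nat_lit 549030) (nat_lit 981851) (nat_lit 1257754) (nat_lit 2030427) (nat_lit 549030) (nat_lit 976656) (nat_lit 1597606) (nat_lit 0) (nat_lit 1)) <|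
  List.cons (Rec.mk (nat_lit 37) (nat_lit 48) (nat_lit 981851) (nat_lit 976656) (nat_lit 949236) (nat_lit 1423186) (nat_lit 949236) (nat_lit 981851) (nat_lit 1997812) (nat_lit 976656) (nat_lit 1423186) (nat_lit 2025232) (nat_lit 1) (nat_lit 1)) <|
  List.cons (Rec.mk (nat_lit 37) (nat_lit 49) (nat_lit 981851) (nat_lit 976656) (nat_lit 662814) (nat_lit 807520) (nat_lit 662814) (nat_lit 981851) (nat_lit 1711390) (nat_lit 807520) (nat_lit 976656) (nat_lit 1856096) (nat_lit 0) (nat_lit 0)) <|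
  List.cons (Rec.mk (nat_lit 37) (nat_lit 50) (nat_lit 981851) (nat_lit 976656) (nat_lit 1365792) (nat_lit 502786) (nat_lit 981851) (nat_lit 1365792) (nat_lit 2030427) (nat_lit 502786) (nat_lit 976656) (nat_lit 1551362) (nat_lit 0) (nat_lit 1)) <|
  List.cons (Rec.mk (nat_lit 37) (nat_lit 51) (nat_lit 981851) (nat_lit 976656) (nat_lit 1317338) (nat_lit 1280043) (nat_lit 981851) (nat_lit 1317338) (nat_lit 2030427) (nat_lit 976656) (nat_lit 1280043) (nat_lit 2025232) (nat_lit 1) (nat_lit 0)) <|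
  List.cons (Rec.mk (nat_lit 37) (nat_lit 52) (nat_lit 981851) (nat_lit 976656) (nat_lit 1316654) (nat_lit 447768) (nat_lit 981851) (nat_lit 1316654) (nat_lit 2030427) (nat_lit 447768) (nat_lit 976656) (nat_lit 1496344) (nat_lit 0) (nat_lit 0)) <|
  List.cons (Rec.mk (nat_lit 37) (nat_lit 53) (nat_lit 981851) (nat_lit 976656) (nat_lit 888048) (nat_lit 578007) (nat_lit 888048) (nat_lit 981851) (nat_lit 1936624) (nat_lit 578007) (nat_lit 976656) (nat_lit 1626583) (nat_lit 0) (nat_lit 0)) <|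
  List.cons (Rec.mk (nat_lit 37) (nat_lit 54) (nat_lit 981851) (nat_lit 976656) (nat_lit 530018) (nat_lit 1133018) (nat_lit 530018) (nat_lit 981851) (nat_lit 1578594) (nat_lit 976656) (nat_lit 1133018) (nat_lit 2025232) (nat_lit 1) (nat_lit 0)) <|
  List.cons (Rec.mk (nat_lit 37) (nat_lit 55) (nat_lit 981851) (nat_lit 976656) (nat_lit 1039209) (nat_lit 675035) (nat_lit 981851) (nat_lit 1039209) (nat_lit 2030427) (nat_lit 675035) (nat_lit 976656) (nat_lit 1723611) (nat_lit 0) (nat_lit 0)) <|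
  List.cons (Rec.mk (nat_lit 38) (nat_lit 39) (nat_lit 712533) (nat_lit 1386567) (nat_lit 1075060) (nat_lit 718563) (nat_lit 712533) (nat_lit 1075060) (nat_lit 1761109) (nat_lit 718563) (nat_lit 1386567) (nat_lit 1767139) (nat_lit 0) (nat_lit 1)) <|
  List.cons (Rec.mk (nat_lit 38) (nat_lit 40) (nat_lit 712533) (nat_lit 337991) (nat_lit 714818) (nat_lit 79592) (nat_lit 712533) (nat_lit 714818) (nat_lit 1761109) (nat_lit 79592) (nat_lit 337991) (nat_lit 1128168) (nat_lit 0) (nat_lit 1)) <|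
  List.cons (Rec.mk (nat_lit 38) (nat_lit 41) (nat_lit 712533) (nat_lit 337991) (nat_lit 587619) (nat_lit 824506) (nat_lit 587619) (nat_lit 712533) (nat_lit 1636195) (nat_lit 337991) (nat_lit 824506) (nat_lit 1386567) (nat_lit 1) (nat_lit 0)) <|
  List.cons (Rec.mk (nat_lit 38) (nat_lit 42) (nat_lit 712533) (nat_lit 337991) (nat_lit 562139) (nat_lit 53161) (nat_lit 562139) (nat_lit 712533) (nat_lit 1610715) (nat_lit 53161) (nat_lit 337991) (nat_lit 1101737) (nat_lit 0) (nat_lit 1)) <|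
  List.cons (Rec.mk (nat_lit 38) (nat_lit 43) (nat_lit 712533) (nat_lit 337991) (nat_lit 443596) (nat_lit 733714) (nat_lit 443596) (nat_lit 712533) (nat_lit 1492172) (nat_lit 337991) (nat_lit 733714) (nat_lit 1386567) (nat_lit 1) (nat_lit 1)) <|
  List.cons (Rec.mk (nat_lit 38) (nat_lit 44) (nat_lit 712533) (nat_lit 337991) (nat_lit 797581) (nat_lit 83136) (nat_lit 712533) (nat_lit 797581) (nat_lit 1761109) (nat_lit 83136) (nat_lit 337991) (nat_lit 1131712) (nat_lit 0) (nat_lit 0)) <|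
  List.cons (Rec.mk (nat_lit 38) (nat_lit 45) (nat_lit 712533) (nat_lit 337991) (nat_lit 687375) (nat_lit 777397) (nat_lit 687375) (nat_lit 712533) (nat_lit 1735951) (nat_lit 337991) (nat_lit 777397) (nat_lit 1386567) (nat_lit 1) (nat_lit 1)) <|
  List.cons (Rec.mk (nat_lit 38) (nat_lit 46) (nat_lit 712533) (nat_lit 337991) (nat_lit 348262) (nat_lit 227533) (nat_lit 348262) (nat_lit 712533) (nat_lit 1396838) (nat_lit 227533) (nat_lit 337991) (nat_lit 1276109) (nat_lit 0) (nat_lit 0)) <|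
  List.cons (Rec.mk (nat_lit 38) (nat_lit 47) (nat_lit 712533) (nat_lit 337991) (nat_lit 209178) (nat_lit 549030) (nat_lit 209178) (nat_lit 712533) (nat_lit 1257754) (nat_lit 337991) (nat_lit 549030) (nat_lit 1386567) (nat_lit 1) (nat_lit 0)) <|
  List.cons (Rec.mk (nat_lit 38) (nat_lit 48) (nat_lit 712533) (nat_lit 337991) (nat_lit 949236) (nat_lit 374610) (nat_lit 712533) (nat_lit 949236) (nat_lit 1761109) (nat_lit 337991) (nat_lit 374610) (nat_lit 1386567) (nat_lit 1) (nat_lit 0)) <|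
  List.cons (Rec.mk (nat_lit 38) (nat_lit 49) (nat_lit 712533) (nat_lit 337991) (nat_lit 662814) (nat_lit 807520) (nat_lit 662814) (nat_lit 712533) (nat_lit 1711390) (nat_lit 337991) (nat_lit 807520) (nat_lit 1386567) (nat_lit 1) (nat_lit 1)) <|
  List.cons (Rec.mk (nat_lit 38) (nat_lit 50) (nat_lit 712533) (nat_lit 337991) (nat_lit 317216) (nat_lit 502786) (nat_lit 317216) (nat_lit 712533) (nat_lit 1365792) (nat_lit 337991) (nat_lit 502786) (nat_lit 1386567) (nat_lit 1) (nat_lit 0)) <|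
  List.cons (Rec.mk (nat_lit 38) (nat_lit 51) (nat_lit 712533) (nat_lit 337991) (nat_lit 268762) (nat_lit 231467) (nat_lit 268762) (nat_lit 712533) (nat_lit 1317338) (nat_lit 231467) (nat_lit 337991) (nat_lit 1280043) (nat_lit 0) (nat_lit 1)) <|
  E35

def E33 : List Rec :=
  List.cons (Rec.mk (nat_lit 34) (nat_lit 46) (nat_lit 138066) (nat_lit 140566) (nat_lit 348262) (nat_lit 227533) (nat_lit 138066) (nat_lit 348262) (nat_lit 1186642) (nat_lit 140566) (nat_lit 227533) (nat_lit 1189142) (nat_lit 1) (nat_lit 1)) <|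
  List.cons (Rec.mk (nat_lit 34) (nat_lit 47) (nat_lit 138066) (nat_lit 140566) (nat_lit 209178) (nat_lit 549030) (nat_lit 138066) (nat_lit 209178) (nat_lit 1186642) (nat_lit 140566) (nat_lit 549030) (nat_lit 1189142) (nat_lit 0) (nat_lit 0)) <|
  List.cons (Rec.mk (nat_lit 34) (nat_lit 48) (nat_lit 1186642) (nat_lit 140566) (nat_lit 949236) (nat_lit 374610) (nat_lit 949236) (nat_lit 1186642) (nat_lit 1997812) (nat_lit 140566) (nat_lit 374610) (nat_lit 1189142) (nat_lit 0) (nat_lit 1)) <|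
  List.cons (Rec.mk (nat_lit 34) (nat_lit 49) (nat_lit 138066) (nat_lit 1189142) (nat_lit 662814) (nat_lit 807520) (nat_lit 138066) (nat_lit 662814) (nat_lit 1186642) (nat_lit 807520) (nat_lit 1189142) (nat_lit 1856096) (nat_lit 1) (nat_lit 0)) <|
  List.cons (Rec.mk (nat_lit 34) (nat_lit 50) (nat_lit 138066) (nat_lit 140566) (nat_lit 317216) (nat_lit 502786) (nat_lit 138066) (nat_lit 317216) (nat_lit 1186642) (nat_lit 140566) (nat_lit 502786) (nat_lit 1189142) (nat_lit 0) (nat_lit 0)) <|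
  List.cons (Rec.mk (nat_lit 34) (nat_lit 51) (nat_lit 138066) (nat_lit 140566) (nat_lit 268762) (nat_lit 231467) (nat_lit 138066) (nat_lit 268762) (nat_lit 1186642) (nat_lit 140566) (nat_lit 231467) (nat_lit 1189142) (nat_lit 1) (nat_lit 0)) <|
  List.cons (Rec.mk (nat_lit 34) (nat_lit 52) (nat_lit 138066) (nat_lit 140566) (nat_lit 268078) (nat_lit 447768) (nat_lit 138066) (nat_lit 268078) (nat_lit 1186642) (nat_lit 140566) (nat_lit 447768) (nat_lit 1189142) (nat_lit 0) (nat_lit 1)) <|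
  List.cons (Rec.mk (nat_lit 34) (nat_lit 53) (nat_lit 1186642) (nat_lit 140566) (nat_lit 888048) (nat_lit 578007) (nat_lit 888048) (nat_lit 1186642) (nat_lit 1936624) (nat_lit 140566) (nat_lit 578007) (nat_lit 1189142) (nat_lit 0) (nat_lit 1)) <|
  List.cons (Rec.mk (nat_lit 34) (nat_lit 54) (nat_lit 138066) (nat_lit 140566) (nat_lit 530018) (nat_lit 84442) (nat_lit 138066) (nat_lit 530018) (nat_lit 1186642) (nat_lit 84442) (nat_lit 140566) (nat_lit 1133018) (nat_lit 1) (nat_lit 1)) <|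
  List.cons (Rec.mk (nat_lit 34) (nat_lit 55) (nat_lit 1186642) (nat_lit 140566) (nat_lit 1039209) (nat_lit 675035) (nat_lit 1039209) (nat_lit 1186642) (nat_lit 2087785) (nat_lit 140566) (nat_lit 675035) (nat_lit 1189142) (nat_lit 0) (nat_lit 1)) <|
  List.cons (Rec.mk (nat_lit 35) (nat_lit 36) (nat_lit 401101) (nat_lit 813007) (nat_lit 384169) (nat_lit 1225514) (nat_lit 384169) (nat_lit 401101) (nat_lit 1432745) (nat_lit 813007) (nat_lit 1225514) (nat_lit 1861583) (nat_lit 1) (nat_lit 1)) <|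
  List.cons (Rec.mk (nat_lit 35) (nat_lit 37) (nat_lit 1449677) (nat_lit 813007) (nat_lit 981851) (nat_lit 976656) (nat_lit 981851) (nat_lit 1449677) (nat_lit 2030427) (nat_lit 813007) (nat_lit 976656) (nat_lit 1861583) (nat_lit 1) (nat_lit 0)) <|
  List.cons (Rec.mk (nat_lit 35) (nat_lit 38) (nat_lit 401101) (nat_lit 813007) (nat_lit 712533) (nat_lit 337991) (nat_lit 401101) (nat_lit 712533) (nat_lit 1449677) (nat_lit 337991) (nat_lit 813007) (nat_lit 1386567) (nat_lit 0) (nat_lit 1)) <|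
  List.cons (Rec.mk (nat_lit 35) (nat_lit 39) (nat_lit 401101) (nat_lit 813007) (nat_lit 26484) (nat_lit 718563) (nat_lit 26484) (nat_lit 401101) (nat_lit 1075060) (nat_lit 718563) (nat_lit 813007) (nat_lit 1767139) (nat_lit 1) (nat_lit 1)) <|
  List.cons (Rec.mk (nat_lit 35) (nat_lit 40) (nat_lit 401101) (nat_lit 813007) (nat_lit 714818) (nat_lit 1128168) (nat_lit 401101) (nat_lit 714818) (nat_lit 1449677) (nat_lit 813007) (nat_lit 1128168) (nat_lit 1861583) (nat_lit 1) (nat_lit 0)) <|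
  List.cons (Rec.mk (nat_lit 35) (nat_lit 41) (nat_lit 401101) (nat_lit 813007) (nat_lit 587619) (nat_lit 824506) (nat_lit 401101) (nat_lit 587619) (nat_lit 1449677) (nat_lit 813007) (nat_lit 824506) (nat_lit 1861583) (nat_lit 0) (nat_lit 1)) <|
  List.cons (Rec.mk (nat_lit 35) (nat_lit 42) (nat_lit 401101) (nat_lit 813007) (nat_lit 562139) (nat_lit 1101737) (nat_lit 401101) (nat_lit 562139) (nat_lit 1449677) (nat_lit 813007) (nat_lit 1101737) (nat_lit 1861583) (nat_lit 1) (nat_lit 0)) <|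
  List.cons (Rec.mk (nat_lit 35) (nat_lit 43) (nat_lit 401101) (nat_lit 813007) (nat_lit 443596) (nat_lit 733714) (nat_lit 401101) (nat_lit 443596) (nat_lit 1449677) (nat_lit 733714) (nat_lit 813007) (nat_lit 1782290) (nat_lit 0) (nat_lit 0)) <|
  List.cons (Rec.mk (nat_lit 35) (nat_lit 44) (nat_lit 1449677) (nat_lit 813007) (nat_lit 797581) (nat_lit 1131712) (nat_lit 797581) (nat_lit 1449677) (nat_lit 1846157) (nat_lit 813007) (nat_lit 1131712) (nat_lit 1861583) (nat_lit 1) (nat_lit 1)) <|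
  List.cons (Rec.mk (nat_lit 35) (nat_lit 45) (nat_lit 401101) (nat_lit 813007) (nat_lit 687375) (nat_lit 777397) (nat_lit 401101) (nat_lit 687375) (nat_lit 1449677) (nat_lit 777397) (nat_lit 813007) (nat_lit 1825973) (nat_lit 0) (nat_lit 0)) <|
  List.cons (Rec.mk (nat_lit 35) (nat_lit 46) (nat_lit 401101) (nat_lit 813007) (nat_lit 348262) (nat_lit 1276109) (nat_lit 348262) (nat_lit 401101) (nat_lit 1396838) (nat_lit 813007) (nat_lit 1276109) (nat_lit 1861583) (nat_lit 1) (nat_lit 1)) <|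
  List.cons (Rec.mk (nat_lit 35) (nat_lit 47) (nat_lit 401101) (nat_lit 813007) (nat_lit 209178) (nat_lit 549030) (nat_lit 209178) (nat_lit 401101) (nat_lit 1257754) (nat_lit 549030) (nat_lit 813007) (nat_lit 1597606) (nat_lit 0) (nat_lit 1)) <|
  List.cons (Rec.mk (nat_lit 35) (nat_lit 48) (nat_lit 401101) (nat_lit 813007) (nat_lit 949236) (nat_lit 374610) (nat_lit 401101) (nat_lit 949236) (nat_lit 1449677) (nat_lit 374610) (nat_lit 813007) (nat_lit 1423186) (nat_lit 0) (nat_lit 0)) <|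
  List.cons (Rec.mk (nat_lit 35) (nat_lit 49) (nat_lit 401101) (nat_lit 813007) (nat_lit 662814) (nat_lit 807520) (nat_lit 401101) (nat_lit 662814) (nat_lit 1449677) (nat_lit 807520) (nat_lit 813007) (nat_lit 1856096) (nat_lit 0) (nat_lit 0)) <|
  List.cons (Rec.mk (nat_lit 35) (nat_lit 50) (nat_lit 401101) (nat_lit 813007) (nat_lit 317216) (nat_lit 502786) (nat_lit 317216) (nat_lit 401101) (nat_lit 1365792) (nat_lit 502786) (nat_lit 813007) (nat_lit 1551362) (nat_lit 0) (nat_lit 1)) <|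
  List.cons (Rec.mk (nat_lit 35) (nat_lit 51) (nat_lit 401101) (nat_lit 813007) (nat_lit 268762) (nat_lit 1280043) (nat_lit 268762) (nat_lit 401101) (nat_lit 1317338) (nat_lit 813007) (nat_lit 1280043) (nat_lit 1861583) (nat_lit 1) (nat_lit 0)) <|
  List.cons (Rec.mk (nat_lit 35) (nat_lit 52) (nat_lit 401101) (nat_lit 813007) (nat_lit 268078) (nat_lit 447768) (nat_lit 268078) (nat_lit 401101) (nat_lit 1316654) (nat_lit 447768) (nat_lit 813007) (nat_lit 1496344) (nat_lit 0) (nat_lit 0)) <|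
  List.cons (Rec.mk (nat_lit 35) (nat_lit 53) (nat_lit 401101) (nat_lit 813007) (nat_lit 888048) (nat_lit 578007) (nat_lit 401101) (nat_lit 888048) (nat_lit 1449677) (nat_lit 578007) (nat_lit 813007) (nat_lit 1626583) (nat_lit 0) (nat_lit 0)) <|
  List.cons (Rec.mk (nat_lit 35) (nat_lit 54) (nat_lit 401101) (nat_lit 813007) (nat_lit 530018) (nat_lit 1133018) (nat_lit 401101) (nat_lit 530018) (nat_lit 1449677) (nat_lit 813007) (nat_lit 1133018) (nat_lit 1861583) (nat_lit 1) (nat_lit 0)) <|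
  List.cons (Rec.mk (nat_lit 35) (nat_lit 55) (nat_lit 1449677) (nat_lit 813007) (nat_lit 1039209) (nat_lit 675035) (nat_lit 1039209) (nat_lit 1449677) (nat_lit 2087785) (nat_lit 675035) (nat_lit 813007) (nat_lit 1723611) (nat_lit 0) (nat_lit 0)) <|
  List.cons (Rec.mk (nat_lit 36) (nat_lit 37) (nat_lit 384169) (nat_lit 1225514) (nat_lit 981851) (nat_lit 976656) (nat_lit 384169) (nat_lit 981851) (nat_lit 1432745) (nat_lit 976656) (nat_lit 1225514) (nat_lit 2025232) (nat_lit 1) (nat_lit 1)) <|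
  List.cons (Rec.mk (nat_lit 36) (nat_lit 38) (nat_lit 384169) (nat_lit 176938) (nat_lit 712533) (nat_lit 337991) (nat_lit 384169) (nat_lit 712533) (nat_lit 1432745) (nat_lit 176938) (nat_lit 337991) (nat_lit 1225514) (nat_lit 0) (nat_lit 0)) <|
  List.cons (Rec.mk (nat_lit 36) (nat_lit 39) (nat_lit 384169) (nat_lit 176938) (nat_lit 26484) (nat_lit 718563) (nat_lit 26484) (nat_lit 384169) (nat_lit 1075060) (nat_lit 176938) (nat_lit 718563) (nat_lit 1225514) (nat_lit 0) (nat_lit 0)) <|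
  List.cons (Rec.mk (nat_lit 36) (nat_lit 40) (nat_lit 384169) (nat_lit 176938) (nat_lit 714818) (nat_lit 79592) (nat_lit 384169) (nat_lit 714818) (nat_lit 1432745) (nat_lit 79592) (nat_lit 176938) (nat_lit 1128168) (nat_lit 1) (nat_lit 1)) <|
  List.cons (Rec.mk (nat_lit 36) (nat_lit 41) (nat_lit 384169) (nat_lit 1225514) (nat_lit 587619) (nat_lit 824506) (nat_lit 384169) (nat_lit 587619) (nat_lit 1432745) (nat_lit 824506) (nat_lit 1225514) (nat_lit 1873082) (nat_lit 1) (nat_lit 1)) <|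
  List.cons (Rec.mk (nat_lit 36) (nat_lit 42) (nat_lit 384169) (nat_lit 176938) (nat_lit 562139) (nat_lit 53161) (nat_lit 384169) (nat_lit 562139) (nat_lit 1432745) (nat_lit 53161) (nat_lit 176938) (nat_lit 1101737) (nat_lit 1) (nat_lit 1)) <|
  List.cons (Rec.mk (nat_lit 36) (nat_lit 43) (nat_lit 384169) (nat_lit 1225514) (nat_lit 443596) (nat_lit 733714) (nat_lit 384169) (nat_lit 443596) (nat_lit 1432745) (nat_lit 733714) (nat_lit 1225514) (nat_lit 1782290) (nat_lit 1) (nat_lit 0)) <|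
  List.cons (Rec.mk (nat_lit 36) (nat_lit 44) (nat_lit 384169) (nat_lit 176938) (nat_lit 797581) (nat_lit 83136) (nat_lit 384169) (nat_lit 797581) (nat_lit 1432745) (nat_lit 83136) (nat_lit 176938) (nat_lit 1131712) (nat_lit 1) (nat_lit 0)) <|
  List.cons (Rec.mk (nat_lit 36) (nat_lit 45) (nat_lit 384169) (nat_lit 1225514) (nat_lit 687375) (nat_lit 777397) (nat_lit 384169) (nat_lit 687375) (nat_lit 1432745) (nat_lit 777397) (nat_lit 1225514) (nat_lit 1825973) (nat_lit 1) (nat_lit 0)) <|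
  List.cons (Rec.mk (nat_lit 36) (nat_lit 46) (nat_lit 384169) (nat_lit 176938) (nat_lit 348262) (nat_lit 227533) (nat_lit 348262) (nat_lit 384169) (nat_lit 1396838) (nat_lit 176938) (nat_lit 227533) (nat_lit 1225514) (nat_lit 0) (nat_lit 1)) <|
  E34

def E32 : List Rec :=
  List.cons (Rec.mk (nat_lit 32) (nat_lit 49) (nat_lit 769851) (nat_lit 1193518) (nat_lit 662814) (nat_lit 807520) (nat_lit 662814) (nat_lit 769851) (nat_lit 1711390) (nat_lit 807520) (nat_lit 1193518) (nat_lit 1856096) (nat_lit 0) (nat_lit 0)) <|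
  List.cons (Rec.mk (nat_lit 32) (nat_lit 50) (nat_lit 769851) (nat_lit 144942) (nat_lit 317216) (nat_lit 502786) (nat_lit 317216) (nat_lit 769851) (nat_lit 1365792) (nat_lit 144942) (nat_lit 502786) (nat_lit 1193518) (nat_lit 1) (nat_lit 0)) <|
  List.cons (Rec.mk (nat_lit 32) (nat_lit 51) (nat_lit 769851) (nat_lit 144942) (nat_lit 268762) (nat_lit 231467) (nat_lit 268762) (nat_lit 769851) (nat_lit 1317338) (nat_lit 144942) (nat_lit 231467) (nat_lit 1193518) (nat_lit 1) (nat_lit 0)) <|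
  List.cons (Rec.mk (nat_lit 32) (nat_lit 52) (nat_lit 769851) (nat_lit 144942) (nat_lit 268078) (nat_lit 447768) (nat_lit 268078) (nat_lit 769851) (nat_lit 1316654) (nat_lit 144942) (nat_lit 447768) (nat_lit 1193518) (nat_lit 1) (nat_lit 1)) <|
  List.cons (Rec.mk (nat_lit 32) (nat_lit 53) (nat_lit 769851) (nat_lit 144942) (nat_lit 888048) (nat_lit 578007) (nat_lit 769851) (nat_lit 888048) (nat_lit 1818427) (nat_lit 144942) (nat_lit 578007) (nat_lit 1193518) (nat_lit 1) (nat_lit 1)) <|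
  List.cons (Rec.mk (nat_lit 32) (nat_lit 54) (nat_lit 769851) (nat_lit 144942) (nat_lit 530018) (nat_lit 84442) (nat_lit 530018) (nat_lit 769851) (nat_lit 1578594) (nat_lit 84442) (nat_lit 144942) (nat_lit 1133018) (nat_lit 1) (nat_lit 0)) <|
  List.cons (Rec.mk (nat_lit 32) (nat_lit 55) (nat_lit 769851) (nat_lit 1193518) (nat_lit 1039209) (nat_lit 675035) (nat_lit 769851) (nat_lit 1039209) (nat_lit 1818427) (nat_lit 675035) (nat_lit 1193518) (nat_lit 1723611) (nat_lit 0) (nat_lit 0)) <|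
  List.cons (Rec.mk (nat_lit 33) (nat_lit 34) (nat_lit 628264) (nat_lit 879843) (nat_lit 138066) (nat_lit 1189142) (nat_lit 138066) (nat_lit 628264) (nat_lit 1186642) (nat_lit 879843) (nat_lit 1189142) (nat_lit 1928419) (nat_lit 1) (nat_lit 1)) <|
  List.cons (Rec.mk (nat_lit 33) (nat_lit 35) (nat_lit 628264) (nat_lit 879843) (nat_lit 401101) (nat_lit 813007) (nat_lit 401101) (nat_lit 628264) (nat_lit 1449677) (nat_lit 813007) (nat_lit 879843) (nat_lit 1861583) (nat_lit 1) (nat_lit 1)) <|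
  List.cons (Rec.mk (nat_lit 33) (nat_lit 36) (nat_lit 628264) (nat_lit 879843) (nat_lit 384169) (nat_lit 1225514) (nat_lit 384169) (nat_lit 628264) (nat_lit 1432745) (nat_lit 879843) (nat_lit 1225514) (nat_lit 1928419) (nat_lit 1) (nat_lit 1)) <|
  List.cons (Rec.mk (nat_lit 33) (nat_lit 37) (nat_lit 628264) (nat_lit 879843) (nat_lit 981851) (nat_lit 976656) (nat_lit 628264) (nat_lit 981851) (nat_lit 1676840) (nat_lit 879843) (nat_lit 976656) (nat_lit 1928419) (nat_lit 0) (nat_lit 1)) <|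
  List.cons (Rec.mk (nat_lit 33) (nat_lit 38) (nat_lit 628264) (nat_lit 879843) (nat_lit 712533) (nat_lit 337991) (nat_lit 628264) (nat_lit 712533) (nat_lit 1676840) (nat_lit 337991) (nat_lit 879843) (nat_lit 1386567) (nat_lit 0) (nat_lit 1)) <|
  List.cons (Rec.mk (nat_lit 33) (nat_lit 39) (nat_lit 628264) (nat_lit 879843) (nat_lit 1075060) (nat_lit 718563) (nat_lit 628264) (nat_lit 1075060) (nat_lit 1676840) (nat_lit 718563) (nat_lit 879843) (nat_lit 1767139) (nat_lit 0) (nat_lit 1)) <|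
  List.cons (Rec.mk (nat_lit 33) (nat_lit 40) (nat_lit 628264) (nat_lit 879843) (nat_lit 714818) (nat_lit 1128168) (nat_lit 628264) (nat_lit 714818) (nat_lit 1676840) (nat_lit 879843) (nat_lit 1128168) (nat_lit 1928419) (nat_lit 1) (nat_lit 0)) <|
  List.cons (Rec.mk (nat_lit 33) (nat_lit 41) (nat_lit 628264) (nat_lit 879843) (nat_lit 587619) (nat_lit 824506) (nat_lit 587619) (nat_lit 628264) (nat_lit 1636195) (nat_lit 824506) (nat_lit 879843) (nat_lit 1873082) (nat_lit 0) (nat_lit 1)) <|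
  List.cons (Rec.mk (nat_lit 33) (nat_lit 42) (nat_lit 628264) (nat_lit 879843) (nat_lit 562139) (nat_lit 1101737) (nat_lit 562139) (nat_lit 628264) (nat_lit 1610715) (nat_lit 879843) (nat_lit 1101737) (nat_lit 1928419) (nat_lit 1) (nat_lit 0)) <|
  List.cons (Rec.mk (nat_lit 33) (nat_lit 43) (nat_lit 628264) (nat_lit 879843) (nat_lit 443596) (nat_lit 733714) (nat_lit 443596) (nat_lit 628264) (nat_lit 1492172) (nat_lit 733714) (nat_lit 879843) (nat_lit 1782290) (nat_lit 0) (nat_lit 0)) <|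
  List.cons (Rec.mk (nat_lit 33) (nat_lit 44) (nat_lit 628264) (nat_lit 879843) (nat_lit 797581) (nat_lit 1131712) (nat_lit 628264) (nat_lit 797581) (nat_lit 1676840) (nat_lit 879843) (nat_lit 1131712) (nat_lit 1928419) (nat_lit 1) (nat_lit 1)) <|
  List.cons (Rec.mk (nat_lit 33) (nat_lit 45) (nat_lit 628264) (nat_lit 879843) (nat_lit 687375) (nat_lit 777397) (nat_lit 628264) (nat_lit 687375) (nat_lit 1676840) (nat_lit 777397) (nat_lit 879843) (nat_lit 1825973) (nat_lit 0) (nat_lit 0)) <|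
  List.cons (Rec.mk (nat_lit 33) (nat_lit 46) (nat_lit 628264) (nat_lit 879843) (nat_lit 348262) (nat_lit 1276109) (nat_lit 348262) (nat_lit 628264) (nat_lit 1396838) (nat_lit 879843) (nat_lit 1276109) (nat_lit 1928419) (nat_lit 1) (nat_lit 1)) <|
  List.cons (Rec.mk (nat_lit 33) (nat_lit 47) (nat_lit 628264) (nat_lit 879843) (nat_lit 1257754) (nat_lit 549030) (nat_lit 628264) (nat_lit 1257754) (nat_lit 1676840) (nat_lit 549030) (nat_lit 879843) (nat_lit 1597606) (nat_lit 0) (nat_lit 1)) <|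
  List.cons (Rec.mk (nat_lit 33) (nat_lit 48) (nat_lit 628264) (nat_lit 879843) (nat_lit 949236) (nat_lit 374610) (nat_lit 628264) (nat_lit 949236) (nat_lit 1676840) (nat_lit 374610) (nat_lit 879843) (nat_lit 1423186) (nat_lit 0) (nat_lit 0)) <|
  List.cons (Rec.mk (nat_lit 33) (nat_lit 49) (nat_lit 628264) (nat_lit 879843) (nat_lit 662814) (nat_lit 807520) (nat_lit 628264) (nat_lit 662814) (nat_lit 1676840) (nat_lit 807520) (nat_lit 879843) (nat_lit 1856096) (nat_lit 0) (nat_lit 0)) <|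
  List.cons (Rec.mk (nat_lit 33) (nat_lit 50) (nat_lit 628264) (nat_lit 879843) (nat_lit 317216) (nat_lit 1551362) (nat_lit 317216) (nat_lit 628264) (nat_lit 1365792) (nat_lit 879843) (nat_lit 1551362) (nat_lit 1928419) (nat_lit 1) (nat_lit 0)) <|
  List.cons (Rec.mk (nat_lit 33) (nat_lit 51) (nat_lit 628264) (nat_lit 879843) (nat_lit 268762) (nat_lit 1280043) (nat_lit 268762) (nat_lit 628264) (nat_lit 1317338) (nat_lit 879843) (nat_lit 1280043) (nat_lit 1928419) (nat_lit 1) (nat_lit 0)) <|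
  List.cons (Rec.mk (nat_lit 33) (nat_lit 52) (nat_lit 628264) (nat_lit 879843) (nat_lit 268078) (nat_lit 1496344) (nat_lit 268078) (nat_lit 628264) (nat_lit 1316654) (nat_lit 879843) (nat_lit 1496344) (nat_lit 1928419) (nat_lit 1) (nat_lit 1)) <|
  List.cons (Rec.mk (nat_lit 33) (nat_lit 53) (nat_lit 628264) (nat_lit 879843) (nat_lit 888048) (nat_lit 578007) (nat_lit 628264) (nat_lit 888048) (nat_lit 1676840) (nat_lit 578007) (nat_lit 879843) (nat_lit 1626583) (nat_lit 0) (nat_lit 0)) <|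
  List.cons (Rec.mk (nat_lit 33) (nat_lit 54) (nat_lit 628264) (nat_lit 879843) (nat_lit 530018) (nat_lit 1133018) (nat_lit 530018) (nat_lit 628264) (nat_lit 1578594) (nat_lit 879843) (nat_lit 1133018) (nat_lit 1928419) (nat_lit 1) (nat_lit 0)) <|
  List.cons (Rec.mk (nat_lit 33) (nat_lit 55) (nat_lit 628264) (nat_lit 879843) (nat_lit 1039209) (nat_lit 675035) (nat_lit 628264) (nat_lit 1039209) (nat_lit 1676840) (nat_lit 675035) (nat_lit 879843) (nat_lit 1723611) (nat_lit 0) (nat_lit 0)) <|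
  List.cons (Rec.mk (nat_lit 34) (nat_lit 35) (nat_lit 138066) (nat_lit 1189142) (nat_lit 401101) (nat_lit 813007) (nat_lit 138066) (nat_lit 401101) (nat_lit 1186642) (nat_lit 813007) (nat_lit 1189142) (nat_lit 1861583) (nat_lit 1) (nat_lit 1)) <|
  List.cons (Rec.mk (nat_lit 34) (nat_lit 36) (nat_lit 138066) (nat_lit 140566) (nat_lit 384169) (nat_lit 176938) (nat_lit 138066) (nat_lit 384169) (nat_lit 1186642) (nat_lit 140566) (nat_lit 176938) (nat_lit 1189142) (nat_lit 1) (nat_lit 0)) <|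
  List.cons (Rec.mk (nat_lit 34) (nat_lit 37) (nat_lit 1186642) (nat_lit 1189142) (nat_lit 981851) (nat_lit 976656) (nat_lit 981851) (nat_lit 1186642) (nat_lit 2030427) (nat_lit 976656) (nat_lit 1189142) (nat_lit 2025232) (nat_lit 1) (nat_lit 1)) <|
  List.cons (Rec.mk (nat_lit 34) (nat_lit 38) (nat_lit 1186642) (nat_lit 140566) (nat_lit 712533) (nat_lit 337991) (nat_lit 712533) (nat_lit 1186642) (nat_lit 1761109) (nat_lit 140566) (nat_lit 337991) (nat_lit 1189142) (nat_lit 0) (nat_lit 0)) <|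
  List.cons (Rec.mk (nat_lit 34) (nat_lit 39) (nat_lit 138066) (nat_lit 1189142) (nat_lit 26484) (nat_lit 718563) (nat_lit 26484) (nat_lit 138066) (nat_lit 1075060) (nat_lit 718563) (nat_lit 1189142) (nat_lit 1767139) (nat_lit 1) (nat_lit 1)) <|
  List.cons (Rec.mk (nat_lit 34) (nat_lit 40) (nat_lit 1186642) (nat_lit 140566) (nat_lit 714818) (nat_lit 79592) (nat_lit 714818) (nat_lit 1186642) (nat_lit 1763394) (nat_lit 79592) (nat_lit 140566) (nat_lit 1128168) (nat_lit 0) (nat_lit 1)) <|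
  List.cons (Rec.mk (nat_lit 34) (nat_lit 41) (nat_lit 138066) (nat_lit 1189142) (nat_lit 587619) (nat_lit 824506) (nat_lit 138066) (nat_lit 587619) (nat_lit 1186642) (nat_lit 824506) (nat_lit 1189142) (nat_lit 1873082) (nat_lit 1) (nat_lit 1)) <|
  List.cons (Rec.mk (nat_lit 34) (nat_lit 42) (nat_lit 138066) (nat_lit 140566) (nat_lit 562139) (nat_lit 53161) (nat_lit 138066) (nat_lit 562139) (nat_lit 1186642) (nat_lit 53161) (nat_lit 140566) (nat_lit 1101737) (nat_lit 1) (nat_lit 1)) <|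
  List.cons (Rec.mk (nat_lit 34) (nat_lit 43) (nat_lit 138066) (nat_lit 1189142) (nat_lit 443596) (nat_lit 733714) (nat_lit 138066) (nat_lit 443596) (nat_lit 1186642) (nat_lit 733714) (nat_lit 1189142) (nat_lit 1782290) (nat_lit 1) (nat_lit 0)) <|
  List.cons (Rec.mk (nat_lit 34) (nat_lit 44) (nat_lit 1186642) (nat_lit 140566) (nat_lit 797581) (nat_lit 83136) (nat_lit 797581) (nat_lit 1186642) (nat_lit 1846157) (nat_lit 83136) (nat_lit 140566) (nat_lit 1131712) (nat_lit 0) (nat_lit 0)) <|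
  List.cons (Rec.mk (nat_lit 34) (nat_lit 45) (nat_lit 138066) (nat_lit 1189142) (nat_lit 687375) (nat_lit 777397) (nat_lit 138066) (nat_lit 687375) (nat_lit 1186642) (nat_lit 777397) (nat_lit 1189142) (nat_lit 1825973) (nat_lit 1) (nat_lit 0)) <|
  E33

def E31 : List Rec :=
  List.cons (Rec.mk (nat_lit 31) (nat_lit 32) (nat_lit 1233447) (nat_lit 196633) (nat_lit 769851) (nat_lit 144942) (nat_lit 769851) (nat_lit 1233447) (nat_lit 1818427) (nat_lit 144942) (nat_lit 196633) (nat_lit 1193518) (nat_lit 0) (nat_lit 0)) <|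
  List.cons (Rec.mk (nat_lit 31) (nat_lit 33) (nat_lit 184871) (nat_lit 1245209) (nat_lit 628264) (nat_lit 879843) (nat_lit 184871) (nat_lit 628264) (nat_lit 1233447) (nat_lit 879843) (nat_lit 1245209) (nat_lit 1928419) (nat_lit 1) (nat_lit 1)) <|
  List.cons (Rec.mk (nat_lit 31) (nat_lit 34) (nat_lit 184871) (nat_lit 196633) (nat_lit 138066) (nat_lit 140566) (nat_lit 138066) (nat_lit 184871) (nat_lit 1186642) (nat_lit 140566) (nat_lit 196633) (nat_lit 1189142) (nat_lit 1) (nat_lit 0)) <|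
  List.cons (Rec.mk (nat_lit 31) (nat_lit 35) (nat_lit 184871) (nat_lit 1245209) (nat_lit 401101) (nat_lit 813007) (nat_lit 184871) (nat_lit 401101) (nat_lit 1233447) (nat_lit 813007) (nat_lit 1245209) (nat_lit 1861583) (nat_lit 1) (nat_lit 1)) <|
  List.cons (Rec.mk (nat_lit 31) (nat_lit 36) (nat_lit 184871) (nat_lit 196633) (nat_lit 384169) (nat_lit 176938) (nat_lit 184871) (nat_lit 384169) (nat_lit 1233447) (nat_lit 176938) (nat_lit 196633) (nat_lit 1225514) (nat_lit 1) (nat_lit 0)) <|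
  List.cons (Rec.mk (nat_lit 31) (nat_lit 37) (nat_lit 1233447) (nat_lit 1245209) (nat_lit 981851) (nat_lit 976656) (nat_lit 981851) (nat_lit 1233447) (nat_lit 2030427) (nat_lit 976656) (nat_lit 1245209) (nat_lit 2025232) (nat_lit 1) (nat_lit 1)) <|
  List.cons (Rec.mk (nat_lit 31) (nat_lit 38) (nat_lit 1233447) (nat_lit 196633) (nat_lit 712533) (nat_lit 337991) (nat_lit 712533) (nat_lit 1233447) (nat_lit 1761109) (nat_lit 196633) (nat_lit 337991) (nat_lit 1245209) (nat_lit 0) (nat_lit 0)) <|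
  List.cons (Rec.mk (nat_lit 31) (nat_lit 39) (nat_lit 184871) (nat_lit 196633) (nat_lit 26484) (nat_lit 718563) (nat_lit 26484) (nat_lit 184871) (nat_lit 1075060) (nat_lit 196633) (nat_lit 718563) (nat_lit 1245209) (nat_lit 0) (nat_lit 0)) <|
  List.cons (Rec.mk (nat_lit 31) (nat_lit 40) (nat_lit 184871) (nat_lit 196633) (nat_lit 714818) (nat_lit 79592) (nat_lit 184871) (nat_lit 714818) (nat_lit 1233447) (nat_lit 79592) (nat_lit 196633) (nat_lit 1128168) (nat_lit 1) (nat_lit 1)) <|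
  List.cons (Rec.mk (nat_lit 31) (nat_lit 41) (nat_lit 184871) (nat_lit 1245209) (nat_lit 587619) (nat_lit 824506) (nat_lit 184871) (nat_lit 587619) (nat_lit 1233447) (nat_lit 824506) (nat_lit 1245209) (nat_lit 1873082) (nat_lit 1) (nat_lit 1)) <|
  List.cons (Rec.mk (nat_lit 31) (nat_lit 42) (nat_lit 184871) (nat_lit 196633) (nat_lit 562139) (nat_lit 53161) (nat_lit 184871) (nat_lit 562139) (nat_lit 1233447) (nat_lit 53161) (nat_lit 196633) (nat_lit 1101737) (nat_lit 1) (nat_lit 1)) <|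
  List.cons (Rec.mk (nat_lit 31) (nat_lit 43) (nat_lit 184871) (nat_lit 1245209) (nat_lit 443596) (nat_lit 733714) (nat_lit 184871) (nat_lit 443596) (nat_lit 1233447) (nat_lit 733714) (nat_lit 1245209) (nat_lit 1782290) (nat_lit 1) (nat_lit 0)) <|
  List.cons (Rec.mk (nat_lit 31) (nat_lit 44) (nat_lit 1233447) (nat_lit 196633) (nat_lit 797581) (nat_lit 83136) (nat_lit 797581) (nat_lit 1233447) (nat_lit 1846157) (nat_lit 83136) (nat_lit 196633) (nat_lit 1131712) (nat_lit 1) (nat_lit 0)) <|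
  List.cons (Rec.mk (nat_lit 31) (nat_lit 45) (nat_lit 184871) (nat_lit 1245209) (nat_lit 687375) (nat_lit 777397) (nat_lit 184871) (nat_lit 687375) (nat_lit 1233447) (nat_lit 777397) (nat_lit 1245209) (nat_lit 1825973) (nat_lit 1) (nat_lit 0)) <|
  List.cons (Rec.mk (nat_lit 31) (nat_lit 46) (nat_lit 184871) (nat_lit 196633) (nat_lit 348262) (nat_lit 227533) (nat_lit 184871) (nat_lit 348262) (nat_lit 1233447) (nat_lit 196633) (nat_lit 227533) (nat_lit 1245209) (nat_lit 1) (nat_lit 1)) <|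
  List.cons (Rec.mk (nat_lit 31) (nat_lit 47) (nat_lit 184871) (nat_lit 196633) (nat_lit 209178) (nat_lit 549030) (nat_lit 184871) (nat_lit 209178) (nat_lit 1233447) (nat_lit 196633) (nat_lit 549030) (nat_lit 1245209) (nat_lit 0) (nat_lit 0)) <|
  List.cons (Rec.mk (nat_lit 31) (nat_lit 48) (nat_lit 1233447) (nat_lit 196633) (nat_lit 949236) (nat_lit 374610) (nat_lit 949236) (nat_lit 1233447) (nat_lit 1997812) (nat_lit 196633) (nat_lit 374610) (nat_lit 1245209) (nat_lit 0) (nat_lit 1)) <|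
  List.cons (Rec.mk (nat_lit 31) (nat_lit 49) (nat_lit 184871) (nat_lit 1245209) (nat_lit 662814) (nat_lit 807520) (nat_lit 184871) (nat_lit 662814) (nat_lit 1233447) (nat_lit 807520) (nat_lit 1245209) (nat_lit 1856096) (nat_lit 1) (nat_lit 0)) <|
  List.cons (Rec.mk (nat_lit 31) (nat_lit 50) (nat_lit 184871) (nat_lit 196633) (nat_lit 317216) (nat_lit 502786) (nat_lit 184871) (nat_lit 317216) (nat_lit 1233447) (nat_lit 196633) (nat_lit 502786) (nat_lit 1245209) (nat_lit 0) (nat_lit 0)) <|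
  List.cons (Rec.mk (nat_lit 31) (nat_lit 51) (nat_lit 184871) (nat_lit 196633) (nat_lit 268762) (nat_lit 231467) (nat_lit 184871) (nat_lit 268762) (nat_lit 1233447) (nat_lit 196633) (nat_lit 231467) (nat_lit 1245209) (nat_lit 0) (nat_lit 0)) <|
  List.cons (Rec.mk (nat_lit 31) (nat_lit 52) (nat_lit 184871) (nat_lit 196633) (nat_lit 268078) (nat_lit 447768) (nat_lit 184871) (nat_lit 268078) (nat_lit 1233447) (nat_lit 196633) (nat_lit 447768) (nat_lit 1245209) (nat_lit 0) (nat_lit 1)) <|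
  List.cons (Rec.mk (nat_lit 31) (nat_lit 53) (nat_lit 1233447) (nat_lit 196633) (nat_lit 888048) (nat_lit 578007) (nat_lit 888048) (nat_lit 1233447) (nat_lit 1936624) (nat_lit 196633) (nat_lit 578007) (nat_lit 1245209) (nat_lit 0) (nat_lit 1)) <|
  List.cons (Rec.mk (nat_lit 31) (nat_lit 54) (nat_lit 184871) (nat_lit 196633) (nat_lit 530018) (nat_lit 84442) (nat_lit 184871) (nat_lit 530018) (nat_lit 1233447) (nat_lit 84442) (nat_lit 196633) (nat_lit 1133018) (nat_lit 1) (nat_lit 1)) <|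
  List.cons (Rec.mk (nat_lit 31) (nat_lit 55) (nat_lit 1233447) (nat_lit 196633) (nat_lit 1039209) (nat_lit 675035) (nat_lit 1039209) (nat_lit 1233447) (nat_lit 2087785) (nat_lit 196633) (nat_lit 675035) (nat_lit 1245209) (nat_lit 0) (nat_lit 1)) <|
  List.cons (Rec.mk (nat_lit 32) (nat_lit 33) (nat_lit 769851) (nat_lit 1193518) (nat_lit 628264) (nat_lit 879843) (nat_lit 628264) (nat_lit 769851) (nat_lit 1676840) (nat_lit 879843) (nat_lit 1193518) (nat_lit 1928419) (nat_lit 0) (nat_lit 1)) <|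
  List.cons (Rec.mk (nat_lit 32) (nat_lit 34) (nat_lit 769851) (nat_lit 144942) (nat_lit 1186642) (nat_lit 140566) (nat_lit 769851) (nat_lit 1186642) (nat_lit 1818427) (nat_lit 140566) (nat_lit 144942) (nat_lit 1189142) (nat_lit 0) (nat_lit 0)) <|
  List.cons (Rec.mk (nat_lit 32) (nat_lit 35) (nat_lit 769851) (nat_lit 1193518) (nat_lit 1449677) (nat_lit 813007) (nat_lit 769851) (nat_lit 1449677) (nat_lit 1818427) (nat_lit 813007) (nat_lit 1193518) (nat_lit 1861583) (nat_lit 0) (nat_lit 1)) <|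
  List.cons (Rec.mk (nat_lit 32) (nat_lit 36) (nat_lit 769851) (nat_lit 144942) (nat_lit 384169) (nat_lit 176938) (nat_lit 384169) (nat_lit 769851) (nat_lit 1432745) (nat_lit 144942) (nat_lit 176938) (nat_lit 1193518) (nat_lit 1) (nat_lit 1)) <|
  List.cons (Rec.mk (nat_lit 32) (nat_lit 37) (nat_lit 769851) (nat_lit 1193518) (nat_lit 981851) (nat_lit 976656) (nat_lit 769851) (nat_lit 981851) (nat_lit 1818427) (nat_lit 976656) (nat_lit 1193518) (nat_lit 2025232) (nat_lit 0) (nat_lit 1)) <|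
  List.cons (Rec.mk (nat_lit 32) (nat_lit 38) (nat_lit 769851) (nat_lit 144942) (nat_lit 712533) (nat_lit 337991) (nat_lit 712533) (nat_lit 769851) (nat_lit 1761109) (nat_lit 144942) (nat_lit 337991) (nat_lit 1193518) (nat_lit 1) (nat_lit 0)) <|
  List.cons (Rec.mk (nat_lit 32) (nat_lit 39) (nat_lit 769851) (nat_lit 1193518) (nat_lit 1075060) (nat_lit 718563) (nat_lit 769851) (nat_lit 1075060) (nat_lit 1818427) (nat_lit 718563) (nat_lit 1193518) (nat_lit 1767139) (nat_lit 0) (nat_lit 1)) <|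
  List.cons (Rec.mk (nat_lit 32) (nat_lit 40) (nat_lit 769851) (nat_lit 144942) (nat_lit 714818) (nat_lit 79592) (nat_lit 714818) (nat_lit 769851) (nat_lit 1763394) (nat_lit 79592) (nat_lit 144942) (nat_lit 1128168) (nat_lit 0) (nat_lit 1)) <|
  List.cons (Rec.mk (nat_lit 32) (nat_lit 41) (nat_lit 769851) (nat_lit 1193518) (nat_lit 587619) (nat_lit 824506) (nat_lit 587619) (nat_lit 769851) (nat_lit 1636195) (nat_lit 824506) (nat_lit 1193518) (nat_lit 1873082) (nat_lit 0) (nat_lit 1)) <|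
  List.cons (Rec.mk (nat_lit 32) (nat_lit 42) (nat_lit 769851) (nat_lit 144942) (nat_lit 562139) (nat_lit 53161) (nat_lit 562139) (nat_lit 769851) (nat_lit 1610715) (nat_lit 53161) (nat_lit 144942) (nat_lit 1101737) (nat_lit 1) (nat_lit 1)) <|
  List.cons (Rec.mk (nat_lit 32) (nat_lit 43) (nat_lit 769851) (nat_lit 144942) (nat_lit 443596) (nat_lit 733714) (nat_lit 443596) (nat_lit 769851) (nat_lit 1492172) (nat_lit 144942) (nat_lit 733714) (nat_lit 1193518) (nat_lit 1) (nat_lit 1)) <|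
  List.cons (Rec.mk (nat_lit 32) (nat_lit 44) (nat_lit 769851) (nat_lit 144942) (nat_lit 797581) (nat_lit 83136) (nat_lit 769851) (nat_lit 797581) (nat_lit 1818427) (nat_lit 83136) (nat_lit 144942) (nat_lit 1131712) (nat_lit 0) (nat_lit 0)) <|
  List.cons (Rec.mk (nat_lit 32) (nat_lit 45) (nat_lit 769851) (nat_lit 1193518) (nat_lit 687375) (nat_lit 777397) (nat_lit 687375) (nat_lit 769851) (nat_lit 1735951) (nat_lit 777397) (nat_lit 1193518) (nat_lit 1825973) (nat_lit 0) (nat_lit 0)) <|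
  List.cons (Rec.mk (nat_lit 32) (nat_lit 46) (nat_lit 769851) (nat_lit 144942) (nat_lit 348262) (nat_lit 227533) (nat_lit 348262) (nat_lit 769851) (nat_lit 1396838) (nat_lit 144942) (nat_lit 227533) (nat_lit 1193518) (nat_lit 1) (nat_lit 1)) <|
  List.cons (Rec.mk (nat_lit 32) (nat_lit 47) (nat_lit 769851) (nat_lit 144942) (nat_lit 209178) (nat_lit 549030) (nat_lit 209178) (nat_lit 769851) (nat_lit 1257754) (nat_lit 144942) (nat_lit 549030) (nat_lit 1193518) (nat_lit 1) (nat_lit 0)) <|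
  List.cons (Rec.mk (nat_lit 32) (nat_lit 48) (nat_lit 769851) (nat_lit 144942) (nat_lit 949236) (nat_lit 374610) (nat_lit 769851) (nat_lit 949236) (nat_lit 1818427) (nat_lit 144942) (nat_lit 374610) (nat_lit 1193518) (nat_lit 1) (nat_lit 1)) <|
  E32

def E30 : List Rec :=
  List.cons (Rec.mk (nat_lit 29) (nat_lit 41) (nat_lit 132099) (nat_lit 968835) (nat_lit 587619) (nat_lit 824506) (nat_lit 132099) (nat_lit 587619) (nat_lit 1180675) (nat_lit 824506) (nat_lit 968835) (nat_lit 1873082) (nat_lit 0) (nat_lit 1)) <|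
  List.cons (Rec.mk (nat_lit 29) (nat_lit 42) (nat_lit 132099) (nat_lit 968835) (nat_lit 562139) (nat_lit 1101737) (nat_lit 132099) (nat_lit 562139) (nat_lit 1180675) (nat_lit 968835) (nat_lit 1101737) (nat_lit 2017411) (nat_lit 1) (nat_lit 1)) <|
  List.cons (Rec.mk (nat_lit 29) (nat_lit 43) (nat_lit 132099) (nat_lit 968835) (nat_lit 443596) (nat_lit 733714) (nat_lit 132099) (nat_lit 443596) (nat_lit 1180675) (nat_lit 733714) (nat_lit 968835) (nat_lit 1782290) (nat_lit 0) (nat_lit 0)) <|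
  List.cons (Rec.mk (nat_lit 29) (nat_lit 44) (nat_lit 1180675) (nat_lit 968835) (nat_lit 797581) (nat_lit 1131712) (nat_lit 797581) (nat_lit 1180675) (nat_lit 1846157) (nat_lit 968835) (nat_lit 1131712) (nat_lit 2017411) (nat_lit 1) (nat_lit 1)) <|
  List.cons (Rec.mk (nat_lit 29) (nat_lit 45) (nat_lit 132099) (nat_lit 968835) (nat_lit 687375) (nat_lit 777397) (nat_lit 132099) (nat_lit 687375) (nat_lit 1180675) (nat_lit 777397) (nat_lit 968835) (nat_lit 1825973) (nat_lit 0) (nat_lit 0)) <|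
  List.cons (Rec.mk (nat_lit 29) (nat_lit 46) (nat_lit 132099) (nat_lit 968835) (nat_lit 348262) (nat_lit 1276109) (nat_lit 132099) (nat_lit 348262) (nat_lit 1180675) (nat_lit 968835) (nat_lit 1276109) (nat_lit 2017411) (nat_lit 1) (nat_lit 1)) <|
  List.cons (Rec.mk (nat_lit 29) (nat_lit 47) (nat_lit 132099) (nat_lit 968835) (nat_lit 209178) (nat_lit 549030) (nat_lit 132099) (nat_lit 209178) (nat_lit 1180675) (nat_lit 549030) (nat_lit 968835) (nat_lit 1597606) (nat_lit 0) (nat_lit 1)) <|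
  List.cons (Rec.mk (nat_lit 29) (nat_lit 48) (nat_lit 1180675) (nat_lit 968835) (nat_lit 949236) (nat_lit 1423186) (nat_lit 949236) (nat_lit 1180675) (nat_lit 1997812) (nat_lit 968835) (nat_lit 1423186) (nat_lit 2017411) (nat_lit 1) (nat_lit 1)) <|
  List.cons (Rec.mk (nat_lit 29) (nat_lit 49) (nat_lit 132099) (nat_lit 968835) (nat_lit 662814) (nat_lit 807520) (nat_lit 132099) (nat_lit 662814) (nat_lit 1180675) (nat_lit 807520) (nat_lit 968835) (nat_lit 1856096) (nat_lit 0) (nat_lit 0)) <|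
  List.cons (Rec.mk (nat_lit 29) (nat_lit 50) (nat_lit 132099) (nat_lit 968835) (nat_lit 317216) (nat_lit 502786) (nat_lit 132099) (nat_lit 317216) (nat_lit 1180675) (nat_lit 502786) (nat_lit 968835) (nat_lit 1551362) (nat_lit 0) (nat_lit 1)) <|
  List.cons (Rec.mk (nat_lit 29) (nat_lit 51) (nat_lit 132099) (nat_lit 968835) (nat_lit 268762) (nat_lit 1280043) (nat_lit 132099) (nat_lit 268762) (nat_lit 1180675) (nat_lit 968835) (nat_lit 1280043) (nat_lit 2017411) (nat_lit 1) (nat_lit 0)) <|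
  List.cons (Rec.mk (nat_lit 29) (nat_lit 52) (nat_lit 132099) (nat_lit 968835) (nat_lit 268078) (nat_lit 447768) (nat_lit 132099) (nat_lit 268078) (nat_lit 1180675) (nat_lit 447768) (nat_lit 968835) (nat_lit 1496344) (nat_lit 0) (nat_lit 0)) <|
  List.cons (Rec.mk (nat_lit 29) (nat_lit 53) (nat_lit 1180675) (nat_lit 968835) (nat_lit 888048) (nat_lit 1626583) (nat_lit 888048) (nat_lit 1180675) (nat_lit 1936624) (nat_lit 968835) (nat_lit 1626583) (nat_lit 2017411) (nat_lit 1) (nat_lit 1)) <|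
  List.cons (Rec.mk (nat_lit 29) (nat_lit 54) (nat_lit 132099) (nat_lit 968835) (nat_lit 530018) (nat_lit 1133018) (nat_lit 132099) (nat_lit 530018) (nat_lit 1180675) (nat_lit 968835) (nat_lit 1133018) (nat_lit 2017411) (nat_lit 1) (nat_lit 1)) <|
  List.cons (Rec.mk (nat_lit 29) (nat_lit 55) (nat_lit 1180675) (nat_lit 968835) (nat_lit 1039209) (nat_lit 675035) (nat_lit 1039209) (nat_lit 1180675) (nat_lit 2087785) (nat_lit 675035) (nat_lit 968835) (nat_lit 1723611) (nat_lit 0) (nat_lit 0)) <|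
  List.cons (Rec.mk (nat_lit 30) (nat_lit 31) (nat_lit 841806) (nat_lit 28267) (nat_lit 1233447) (nat_lit 196633) (nat_lit 841806) (nat_lit 1233447) (nat_lit 1890382) (nat_lit 28267) (nat_lit 196633) (nat_lit 1076843) (nat_lit 1) (nat_lit 1)) <|
  List.cons (Rec.mk (nat_lit 30) (nat_lit 32) (nat_lit 841806) (nat_lit 28267) (nat_lit 769851) (nat_lit 144942) (nat_lit 769851) (nat_lit 841806) (nat_lit 1818427) (nat_lit 28267) (nat_lit 144942) (nat_lit 1076843) (nat_lit 0) (nat_lit 0)) <|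
  List.cons (Rec.mk (nat_lit 30) (nat_lit 33) (nat_lit 841806) (nat_lit 1076843) (nat_lit 628264) (nat_lit 879843) (nat_lit 628264) (nat_lit 841806) (nat_lit 1676840) (nat_lit 879843) (nat_lit 1076843) (nat_lit 1928419) (nat_lit 1) (nat_lit 1)) <|
  List.cons (Rec.mk (nat_lit 30) (nat_lit 34) (nat_lit 841806) (nat_lit 28267) (nat_lit 1186642) (nat_lit 140566) (nat_lit 841806) (nat_lit 1186642) (nat_lit 1890382) (nat_lit 28267) (nat_lit 140566) (nat_lit 1076843) (nat_lit 1) (nat_lit 0)) <|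
  List.cons (Rec.mk (nat_lit 30) (nat_lit 35) (nat_lit 841806) (nat_lit 1076843) (nat_lit 1449677) (nat_lit 813007) (nat_lit 841806) (nat_lit 1449677) (nat_lit 1890382) (nat_lit 813007) (nat_lit 1076843) (nat_lit 1861583) (nat_lit 1) (nat_lit 1)) <|
  List.cons (Rec.mk (nat_lit 30) (nat_lit 36) (nat_lit 841806) (nat_lit 28267) (nat_lit 384169) (nat_lit 176938) (nat_lit 384169) (nat_lit 841806) (nat_lit 1432745) (nat_lit 28267) (nat_lit 176938) (nat_lit 1076843) (nat_lit 0) (nat_lit 1)) <|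
  List.cons (Rec.mk (nat_lit 30) (nat_lit 37) (nat_lit 841806) (nat_lit 1076843) (nat_lit 981851) (nat_lit 976656) (nat_lit 841806) (nat_lit 981851) (nat_lit 1890382) (nat_lit 976656) (nat_lit 1076843) (nat_lit 2025232) (nat_lit 1) (nat_lit 1)) <|
  List.cons (Rec.mk (nat_lit 30) (nat_lit 38) (nat_lit 841806) (nat_lit 28267) (nat_lit 712533) (nat_lit 337991) (nat_lit 712533) (nat_lit 841806) (nat_lit 1761109) (nat_lit 28267) (nat_lit 337991) (nat_lit 1076843) (nat_lit 0) (nat_lit 0)) <|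
  List.cons (Rec.mk (nat_lit 30) (nat_lit 39) (nat_lit 841806) (nat_lit 1076843) (nat_lit 1075060) (nat_lit 718563) (nat_lit 841806) (nat_lit 1075060) (nat_lit 1890382) (nat_lit 718563) (nat_lit 1076843) (nat_lit 1767139) (nat_lit 1) (nat_lit 1)) <|
  List.cons (Rec.mk (nat_lit 30) (nat_lit 40) (nat_lit 841806) (nat_lit 28267) (nat_lit 714818) (nat_lit 79592) (nat_lit 714818) (nat_lit 841806) (nat_lit 1763394) (nat_lit 28267) (nat_lit 79592) (nat_lit 1076843) (nat_lit 0) (nat_lit 0)) <|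
  List.cons (Rec.mk (nat_lit 30) (nat_lit 41) (nat_lit 841806) (nat_lit 1076843) (nat_lit 587619) (nat_lit 824506) (nat_lit 587619) (nat_lit 841806) (nat_lit 1636195) (nat_lit 824506) (nat_lit 1076843) (nat_lit 1873082) (nat_lit 1) (nat_lit 1)) <|
  List.cons (Rec.mk (nat_lit 30) (nat_lit 42) (nat_lit 841806) (nat_lit 28267) (nat_lit 562139) (nat_lit 53161) (nat_lit 562139) (nat_lit 841806) (nat_lit 1610715) (nat_lit 28267) (nat_lit 53161) (nat_lit 1076843) (nat_lit 0) (nat_lit 0)) <|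
  List.cons (Rec.mk (nat_lit 30) (nat_lit 43) (nat_lit 841806) (nat_lit 1076843) (nat_lit 1492172) (nat_lit 733714) (nat_lit 841806) (nat_lit 1492172) (nat_lit 1890382) (nat_lit 733714) (nat_lit 1076843) (nat_lit 1782290) (nat_lit 1) (nat_lit 0)) <|
  List.cons (Rec.mk (nat_lit 30) (nat_lit 44) (nat_lit 841806) (nat_lit 28267) (nat_lit 797581) (nat_lit 83136) (nat_lit 797581) (nat_lit 841806) (nat_lit 1846157) (nat_lit 28267) (nat_lit 83136) (nat_lit 1076843) (nat_lit 0) (nat_lit 1)) <|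
  List.cons (Rec.mk (nat_lit 30) (nat_lit 45) (nat_lit 841806) (nat_lit 1076843) (nat_lit 687375) (nat_lit 777397) (nat_lit 687375) (nat_lit 841806) (nat_lit 1735951) (nat_lit 777397) (nat_lit 1076843) (nat_lit 1825973) (nat_lit 1) (nat_lit 0)) <|
  List.cons (Rec.mk (nat_lit 30) (nat_lit 46) (nat_lit 841806) (nat_lit 28267) (nat_lit 348262) (nat_lit 227533) (nat_lit 348262) (nat_lit 841806) (nat_lit 1396838) (nat_lit 28267) (nat_lit 227533) (nat_lit 1076843) (nat_lit 0) (nat_lit 1)) <|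
  List.cons (Rec.mk (nat_lit 30) (nat_lit 47) (nat_lit 841806) (nat_lit 1076843) (nat_lit 1257754) (nat_lit 549030) (nat_lit 841806) (nat_lit 1257754) (nat_lit 1890382) (nat_lit 549030) (nat_lit 1076843) (nat_lit 1597606) (nat_lit 1) (nat_lit 1)) <|
  List.cons (Rec.mk (nat_lit 30) (nat_lit 48) (nat_lit 841806) (nat_lit 28267) (nat_lit 949236) (nat_lit 374610) (nat_lit 841806) (nat_lit 949236) (nat_lit 1890382) (nat_lit 28267) (nat_lit 374610) (nat_lit 1076843) (nat_lit 0) (nat_lit 1)) <|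
  List.cons (Rec.mk (nat_lit 30) (nat_lit 49) (nat_lit 841806) (nat_lit 1076843) (nat_lit 662814) (nat_lit 807520) (nat_lit 662814) (nat_lit 841806) (nat_lit 1711390) (nat_lit 807520) (nat_lit 1076843) (nat_lit 1856096) (nat_lit 1) (nat_lit 0)) <|
  List.cons (Rec.mk (nat_lit 30) (nat_lit 50) (nat_lit 841806) (nat_lit 28267) (nat_lit 317216) (nat_lit 502786) (nat_lit 317216) (nat_lit 841806) (nat_lit 1365792) (nat_lit 28267) (nat_lit 502786) (nat_lit 1076843) (nat_lit 0) (nat_lit 0)) <|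
  List.cons (Rec.mk (nat_lit 30) (nat_lit 51) (nat_lit 841806) (nat_lit 28267) (nat_lit 268762) (nat_lit 231467) (nat_lit 268762) (nat_lit 841806) (nat_lit 1317338) (nat_lit 28267) (nat_lit 231467) (nat_lit 1076843) (nat_lit 0) (nat_lit 0)) <|
  List.cons (Rec.mk (nat_lit 30) (nat_lit 52) (nat_lit 841806) (nat_lit 28267) (nat_lit 268078) (nat_lit 447768) (nat_lit 268078) (nat_lit 841806) (nat_lit 1316654) (nat_lit 28267) (nat_lit 447768) (nat_lit 1076843) (nat_lit 0) (nat_lit 1)) <|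
  List.cons (Rec.mk (nat_lit 30) (nat_lit 53) (nat_lit 841806) (nat_lit 1076843) (nat_lit 888048) (nat_lit 578007) (nat_lit 841806) (nat_lit 888048) (nat_lit 1890382) (nat_lit 578007) (nat_lit 1076843) (nat_lit 1626583) (nat_lit 1) (nat_lit 0)) <|
  List.cons (Rec.mk (nat_lit 30) (nat_lit 54) (nat_lit 841806) (nat_lit 28267) (nat_lit 530018) (nat_lit 84442) (nat_lit 530018) (nat_lit 841806) (nat_lit 1578594) (nat_lit 28267) (nat_lit 84442) (nat_lit 1076843) (nat_lit 0) (nat_lit 0)) <|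
  List.cons (Rec.mk (nat_lit 30) (nat_lit 55) (nat_lit 841806) (nat_lit 1076843) (nat_lit 1039209) (nat_lit 675035) (nat_lit 841806) (nat_lit 1039209) (nat_lit 1890382) (nat_lit 675035) (nat_lit 1076843) (nat_lit 1723611) (nat_lit 1) (nat_lit 0)) <|
  E31

def E29 : List Rec :=
  List.cons (Rec.mk (nat_lit 27) (nat_lit 54) (nat_lit 1020255) (nat_lit 940354) (nat_lit 530018) (nat_lit 1133018) (nat_lit 530018) (nat_lit 1020255) (nat_lit 1578594) (nat_lit 940354) (nat_lit 1133018) (nat_lit 1988930) (nat_lit 1) (nat_lit 0)) <|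
  List.cons (Rec.mk (nat_lit 27) (nat_lit 55) (nat_lit 1020255) (nat_lit 940354) (nat_lit 1039209) (nat_lit 675035) (nat_lit 1020255) (nat_lit 1039209) (nat_lit 2068831) (nat_lit 675035) (nat_lit 940354) (nat_lit 1723611) (nat_lit 0) (nat_lit 0)) <|
  List.cons (Rec.mk (nat_lit 28) (nat_lit 29) (nat_lit 176086) (nat_lit 1028414) (nat_lit 132099) (nat_lit 968835) (nat_lit 132099) (nat_lit 176086) (nat_lit 1180675) (nat_lit 968835) (nat_lit 1028414) (nat_lit 2017411) (nat_lit 0) (nat_lit 1)) <|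
  List.cons (Rec.mk (nat_lit 28) (nat_lit 30) (nat_lit 1224662) (nat_lit 1028414) (nat_lit 841806) (nat_lit 1076843) (nat_lit 841806) (nat_lit 1224662) (nat_lit 1890382) (nat_lit 1028414) (nat_lit 1076843) (nat_lit 2076990) (nat_lit 1) (nat_lit 1)) <|
  List.cons (Rec.mk (nat_lit 28) (nat_lit 31) (nat_lit 176086) (nat_lit 1028414) (nat_lit 184871) (nat_lit 1245209) (nat_lit 176086) (nat_lit 184871) (nat_lit 1224662) (nat_lit 1028414) (nat_lit 1245209) (nat_lit 2076990) (nat_lit 1) (nat_lit 1)) <|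
  List.cons (Rec.mk (nat_lit 28) (nat_lit 32) (nat_lit 1224662) (nat_lit 1028414) (nat_lit 769851) (nat_lit 1193518) (nat_lit 769851) (nat_lit 1224662) (nat_lit 1818427) (nat_lit 1028414) (nat_lit 1193518) (nat_lit 2076990) (nat_lit 1) (nat_lit 0)) <|
  List.cons (Rec.mk (nat_lit 28) (nat_lit 33) (nat_lit 176086) (nat_lit 1028414) (nat_lit 628264) (nat_lit 879843) (nat_lit 176086) (nat_lit 628264) (nat_lit 1224662) (nat_lit 879843) (nat_lit 1028414) (nat_lit 1928419) (nat_lit 0) (nat_lit 1)) <|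
  List.cons (Rec.mk (nat_lit 28) (nat_lit 34) (nat_lit 176086) (nat_lit 1028414) (nat_lit 138066) (nat_lit 1189142) (nat_lit 138066) (nat_lit 176086) (nat_lit 1186642) (nat_lit 1028414) (nat_lit 1189142) (nat_lit 2076990) (nat_lit 1) (nat_lit 1)) <|
  List.cons (Rec.mk (nat_lit 28) (nat_lit 35) (nat_lit 176086) (nat_lit 1028414) (nat_lit 401101) (nat_lit 813007) (nat_lit 176086) (nat_lit 401101) (nat_lit 1224662) (nat_lit 813007) (nat_lit 1028414) (nat_lit 1861583) (nat_lit 0) (nat_lit 1)) <|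
  List.cons (Rec.mk (nat_lit 28) (nat_lit 36) (nat_lit 176086) (nat_lit 1028414) (nat_lit 384169) (nat_lit 1225514) (nat_lit 176086) (nat_lit 384169) (nat_lit 1224662) (nat_lit 1028414) (nat_lit 1225514) (nat_lit 2076990) (nat_lit 1) (nat_lit 1)) <|
  List.cons (Rec.mk (nat_lit 28) (nat_lit 37) (nat_lit 1224662) (nat_lit 1028414) (nat_lit 981851) (nat_lit 976656) (nat_lit 981851) (nat_lit 1224662) (nat_lit 2030427) (nat_lit 976656) (nat_lit 1028414) (nat_lit 2025232) (nat_lit 0) (nat_lit 0)) <|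
  List.cons (Rec.mk (nat_lit 28) (nat_lit 38) (nat_lit 1224662) (nat_lit 1028414) (nat_lit 712533) (nat_lit 1386567) (nat_lit 712533) (nat_lit 1224662) (nat_lit 1761109) (nat_lit 1028414) (nat_lit 1386567) (nat_lit 2076990) (nat_lit 1) (nat_lit 0)) <|
  List.cons (Rec.mk (nat_lit 28) (nat_lit 39) (nat_lit 176086) (nat_lit 1028414) (nat_lit 26484) (nat_lit 718563) (nat_lit 26484) (nat_lit 176086) (nat_lit 1075060) (nat_lit 718563) (nat_lit 1028414) (nat_lit 1767139) (nat_lit 0) (nat_lit 1)) <|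
  List.cons (Rec.mk (nat_lit 28) (nat_lit 40) (nat_lit 1224662) (nat_lit 1028414) (nat_lit 714818) (nat_lit 1128168) (nat_lit 714818) (nat_lit 1224662) (nat_lit 1763394) (nat_lit 1028414) (nat_lit 1128168) (nat_lit 2076990) (nat_lit 1) (nat_lit 0)) <|
  List.cons (Rec.mk (nat_lit 28) (nat_lit 41) (nat_lit 176086) (nat_lit 1028414) (nat_lit 587619) (nat_lit 824506) (nat_lit 176086) (nat_lit 587619) (nat_lit 1224662) (nat_lit 824506) (nat_lit 1028414) (nat_lit 1873082) (nat_lit 0) (nat_lit 1)) <|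
  List.cons (Rec.mk (nat_lit 28) (nat_lit 42) (nat_lit 176086) (nat_lit 1028414) (nat_lit 562139) (nat_lit 1101737) (nat_lit 176086) (nat_lit 562139) (nat_lit 1224662) (nat_lit 1028414) (nat_lit 1101737) (nat_lit 2076990) (nat_lit 1) (nat_lit 1)) <|
  List.cons (Rec.mk (nat_lit 28) (nat_lit 43) (nat_lit 176086) (nat_lit 1028414) (nat_lit 443596) (nat_lit 733714) (nat_lit 176086) (nat_lit 443596) (nat_lit 1224662) (nat_lit 733714) (nat_lit 1028414) (nat_lit 1782290) (nat_lit 0) (nat_lit 0)) <|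
  List.cons (Rec.mk (nat_lit 28) (nat_lit 44) (nat_lit 1224662) (nat_lit 1028414) (nat_lit 797581) (nat_lit 1131712) (nat_lit 797581) (nat_lit 1224662) (nat_lit 1846157) (nat_lit 1028414) (nat_lit 1131712) (nat_lit 2076990) (nat_lit 1) (nat_lit 1)) <|
  List.cons (Rec.mk (nat_lit 28) (nat_lit 45) (nat_lit 176086) (nat_lit 1028414) (nat_lit 687375) (nat_lit 777397) (nat_lit 176086) (nat_lit 687375) (nat_lit 1224662) (nat_lit 777397) (nat_lit 1028414) (nat_lit 1825973) (nat_lit 0) (nat_lit 0)) <|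
  List.cons (Rec.mk (nat_lit 28) (nat_lit 46) (nat_lit 176086) (nat_lit 1028414) (nat_lit 348262) (nat_lit 1276109) (nat_lit 176086) (nat_lit 348262) (nat_lit 1224662) (nat_lit 1028414) (nat_lit 1276109) (nat_lit 2076990) (nat_lit 1) (nat_lit 1)) <|
  List.cons (Rec.mk (nat_lit 28) (nat_lit 47) (nat_lit 176086) (nat_lit 1028414) (nat_lit 209178) (nat_lit 549030) (nat_lit 176086) (nat_lit 209178) (nat_lit 1224662) (nat_lit 549030) (nat_lit 1028414) (nat_lit 1597606) (nat_lit 0) (nat_lit 1)) <|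
  List.cons (Rec.mk (nat_lit 28) (nat_lit 48) (nat_lit 1224662) (nat_lit 1028414) (nat_lit 949236) (nat_lit 1423186) (nat_lit 949236) (nat_lit 1224662) (nat_lit 1997812) (nat_lit 1028414) (nat_lit 1423186) (nat_lit 2076990) (nat_lit 1) (nat_lit 1)) <|
  List.cons (Rec.mk (nat_lit 28) (nat_lit 49) (nat_lit 176086) (nat_lit 1028414) (nat_lit 662814) (nat_lit 807520) (nat_lit 176086) (nat_lit 662814) (nat_lit 1224662) (nat_lit 807520) (nat_lit 1028414) (nat_lit 1856096) (nat_lit 0) (nat_lit 0)) <|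
  List.cons (Rec.mk (nat_lit 28) (nat_lit 50) (nat_lit 176086) (nat_lit 1028414) (nat_lit 317216) (nat_lit 502786) (nat_lit 176086) (nat_lit 317216) (nat_lit 1224662) (nat_lit 502786) (nat_lit 1028414) (nat_lit 1551362) (nat_lit 0) (nat_lit 1)) <|
  List.cons (Rec.mk (nat_lit 28) (nat_lit 51) (nat_lit 176086) (nat_lit 1028414) (nat_lit 268762) (nat_lit 1280043) (nat_lit 176086) (nat_lit 268762) (nat_lit 1224662) (nat_lit 1028414) (nat_lit 1280043) (nat_lit 2076990) (nat_lit 1) (nat_lit 0)) <|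
  List.cons (Rec.mk (nat_lit 28) (nat_lit 52) (nat_lit 176086) (nat_lit 1028414) (nat_lit 268078) (nat_lit 1496344) (nat_lit 176086) (nat_lit 268078) (nat_lit 1224662) (nat_lit 1028414) (nat_lit 1496344) (nat_lit 2076990) (nat_lit 1) (nat_lit 1)) <|
  List.cons (Rec.mk (nat_lit 28) (nat_lit 53) (nat_lit 1224662) (nat_lit 1028414) (nat_lit 888048) (nat_lit 1626583) (nat_lit 888048) (nat_lit 1224662) (nat_lit 1936624) (nat_lit 1028414) (nat_lit 1626583) (nat_lit 2076990) (nat_lit 1) (nat_lit 1)) <|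
  List.cons (Rec.mk (nat_lit 28) (nat_lit 54) (nat_lit 176086) (nat_lit 1028414) (nat_lit 530018) (nat_lit 1133018) (nat_lit 176086) (nat_lit 530018) (nat_lit 1224662) (nat_lit 1028414) (nat_lit 1133018) (nat_lit 2076990) (nat_lit 1) (nat_lit 1)) <|
  List.cons (Rec.mk (nat_lit 28) (nat_lit 55) (nat_lit 1224662) (nat_lit 1028414) (nat_lit 1039209) (nat_lit 675035) (nat_lit 1039209) (nat_lit 1224662) (nat_lit 2087785) (nat_lit 675035) (nat_lit 1028414) (nat_lit 1723611) (nat_lit 0) (nat_lit 0)) <|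
  List.cons (Rec.mk (nat_lit 29) (nat_lit 30) (nat_lit 1180675) (nat_lit 968835) (nat_lit 841806) (nat_lit 1076843) (nat_lit 841806) (nat_lit 1180675) (nat_lit 1890382) (nat_lit 968835) (nat_lit 1076843) (nat_lit 2017411) (nat_lit 1) (nat_lit 1)) <|
  List.cons (Rec.mk (nat_lit 29) (nat_lit 31) (nat_lit 132099) (nat_lit 968835) (nat_lit 184871) (nat_lit 1245209) (nat_lit 132099) (nat_lit 184871) (nat_lit 1180675) (nat_lit 968835) (nat_lit 1245209) (nat_lit 2017411) (nat_lit 1) (nat_lit 1)) <|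
  List.cons (Rec.mk (nat_lit 29) (nat_lit 32) (nat_lit 1180675) (nat_lit 968835) (nat_lit 769851) (nat_lit 1193518) (nat_lit 769851) (nat_lit 1180675) (nat_lit 1818427) (nat_lit 968835) (nat_lit 1193518) (nat_lit 2017411) (nat_lit 1) (nat_lit 0)) <|
  List.cons (Rec.mk (nat_lit 29) (nat_lit 33) (nat_lit 132099) (nat_lit 968835) (nat_lit 628264) (nat_lit 879843) (nat_lit 132099) (nat_lit 628264) (nat_lit 1180675) (nat_lit 879843) (nat_lit 968835) (nat_lit 1928419) (nat_lit 0) (nat_lit 1)) <|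
  List.cons (Rec.mk (nat_lit 29) (nat_lit 34) (nat_lit 132099) (nat_lit 968835) (nat_lit 138066) (nat_lit 1189142) (nat_lit 132099) (nat_lit 138066) (nat_lit 1180675) (nat_lit 968835) (nat_lit 1189142) (nat_lit 2017411) (nat_lit 1) (nat_lit 1)) <|
  List.cons (Rec.mk (nat_lit 29) (nat_lit 35) (nat_lit 132099) (nat_lit 968835) (nat_lit 401101) (nat_lit 813007) (nat_lit 132099) (nat_lit 401101) (nat_lit 1180675) (nat_lit 813007) (nat_lit 968835) (nat_lit 1861583) (nat_lit 0) (nat_lit 1)) <|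
  List.cons (Rec.mk (nat_lit 29) (nat_lit 36) (nat_lit 132099) (nat_lit 968835) (nat_lit 384169) (nat_lit 1225514) (nat_lit 132099) (nat_lit 384169) (nat_lit 1180675) (nat_lit 968835) (nat_lit 1225514) (nat_lit 2017411) (nat_lit 1) (nat_lit 1)) <|
  List.cons (Rec.mk (nat_lit 29) (nat_lit 37) (nat_lit 1180675) (nat_lit 968835) (nat_lit 981851) (nat_lit 976656) (nat_lit 981851) (nat_lit 1180675) (nat_lit 2030427) (nat_lit 968835) (nat_lit 976656) (nat_lit 2017411) (nat_lit 1) (nat_lit 0)) <|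
  List.cons (Rec.mk (nat_lit 29) (nat_lit 38) (nat_lit 1180675) (nat_lit 968835) (nat_lit 712533) (nat_lit 1386567) (nat_lit 712533) (nat_lit 1180675) (nat_lit 1761109) (nat_lit 968835) (nat_lit 1386567) (nat_lit 2017411) (nat_lit 1) (nat_lit 0)) <|
  List.cons (Rec.mk (nat_lit 29) (nat_lit 39) (nat_lit 132099) (nat_lit 968835) (nat_lit 26484) (nat_lit 718563) (nat_lit 26484) (nat_lit 132099) (nat_lit 1075060) (nat_lit 718563) (nat_lit 968835) (nat_lit 1767139) (nat_lit 0) (nat_lit 1)) <|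
  List.cons (Rec.mk (nat_lit 29) (nat_lit 40) (nat_lit 1180675) (nat_lit 968835) (nat_lit 714818) (nat_lit 1128168) (nat_lit 714818) (nat_lit 1180675) (nat_lit 1763394) (nat_lit 968835) (nat_lit 1128168) (nat_lit 2017411) (nat_lit 1) (nat_lit 0)) <|
  E30

def E28 : List Rec :=
  List.cons (Rec.mk (nat_lit 26) (nat_lit 42) (nat_lit 1094975) (nat_lit 924342) (nat_lit 562139) (nat_lit 1101737) (nat_lit 562139) (nat_lit 1094975) (nat_lit 1610715) (nat_lit 924342) (nat_lit 1101737) (nat_lit 1972918) (nat_lit 0) (nat_lit 0)) <|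
  List.cons (Rec.mk (nat_lit 26) (nat_lit 43) (nat_lit 46399) (nat_lit 924342) (nat_lit 443596) (nat_lit 733714) (nat_lit 46399) (nat_lit 443596) (nat_lit 1094975) (nat_lit 733714) (nat_lit 924342) (nat_lit 1782290) (nat_lit 1) (nat_lit 0)) <|
  List.cons (Rec.mk (nat_lit 26) (nat_lit 44) (nat_lit 1094975) (nat_lit 924342) (nat_lit 797581) (nat_lit 1131712) (nat_lit 797581) (nat_lit 1094975) (nat_lit 1846157) (nat_lit 924342) (nat_lit 1131712) (nat_lit 1972918) (nat_lit 0) (nat_lit 1)) <|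
  List.cons (Rec.mk (nat_lit 26) (nat_lit 45) (nat_lit 1094975) (nat_lit 924342) (nat_lit 687375) (nat_lit 777397) (nat_lit 687375) (nat_lit 1094975) (nat_lit 1735951) (nat_lit 777397) (nat_lit 924342) (nat_lit 1825973) (nat_lit 0) (nat_lit 1)) <|
  List.cons (Rec.mk (nat_lit 26) (nat_lit 46) (nat_lit 46399) (nat_lit 924342) (nat_lit 348262) (nat_lit 1276109) (nat_lit 46399) (nat_lit 348262) (nat_lit 1094975) (nat_lit 924342) (nat_lit 1276109) (nat_lit 1972918) (nat_lit 0) (nat_lit 1)) <|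
  List.cons (Rec.mk (nat_lit 26) (nat_lit 47) (nat_lit 46399) (nat_lit 924342) (nat_lit 209178) (nat_lit 549030) (nat_lit 46399) (nat_lit 209178) (nat_lit 1094975) (nat_lit 549030) (nat_lit 924342) (nat_lit 1597606) (nat_lit 1) (nat_lit 1)) <|
  List.cons (Rec.mk (nat_lit 26) (nat_lit 48) (nat_lit 1094975) (nat_lit 924342) (nat_lit 949236) (nat_lit 1423186) (nat_lit 949236) (nat_lit 1094975) (nat_lit 1997812) (nat_lit 924342) (nat_lit 1423186) (nat_lit 1972918) (nat_lit 0) (nat_lit 1)) <|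
  List.cons (Rec.mk (nat_lit 26) (nat_lit 49) (nat_lit 1094975) (nat_lit 924342) (nat_lit 662814) (nat_lit 807520) (nat_lit 662814) (nat_lit 1094975) (nat_lit 1711390) (nat_lit 807520) (nat_lit 924342) (nat_lit 1856096) (nat_lit 0) (nat_lit 0)) <|
  List.cons (Rec.mk (nat_lit 26) (nat_lit 50) (nat_lit 46399) (nat_lit 924342) (nat_lit 317216) (nat_lit 502786) (nat_lit 46399) (nat_lit 317216) (nat_lit 1094975) (nat_lit 502786) (nat_lit 924342) (nat_lit 1551362) (nat_lit 1) (nat_lit 1)) <|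
  List.cons (Rec.mk (nat_lit 26) (nat_lit 51) (nat_lit 46399) (nat_lit 924342) (nat_lit 268762) (nat_lit 1280043) (nat_lit 46399) (nat_lit 268762) (nat_lit 1094975) (nat_lit 924342) (nat_lit 1280043) (nat_lit 1972918) (nat_lit 0) (nat_lit 0)) <|
  List.cons (Rec.mk (nat_lit 26) (nat_lit 52) (nat_lit 46399) (nat_lit 924342) (nat_lit 268078) (nat_lit 447768) (nat_lit 46399) (nat_lit 268078) (nat_lit 1094975) (nat_lit 447768) (nat_lit 924342) (nat_lit 1496344) (nat_lit 1) (nat_lit 0)) <|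
  List.cons (Rec.mk (nat_lit 26) (nat_lit 53) (nat_lit 1094975) (nat_lit 924342) (nat_lit 888048) (nat_lit 578007) (nat_lit 888048) (nat_lit 1094975) (nat_lit 1936624) (nat_lit 578007) (nat_lit 924342) (nat_lit 1626583) (nat_lit 1) (nat_lit 0)) <|
  List.cons (Rec.mk (nat_lit 26) (nat_lit 54) (nat_lit 1094975) (nat_lit 924342) (nat_lit 530018) (nat_lit 1133018) (nat_lit 530018) (nat_lit 1094975) (nat_lit 1578594) (nat_lit 924342) (nat_lit 1133018) (nat_lit 1972918) (nat_lit 0) (nat_lit 0)) <|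
  List.cons (Rec.mk (nat_lit 26) (nat_lit 55) (nat_lit 1094975) (nat_lit 924342) (nat_lit 1039209) (nat_lit 675035) (nat_lit 1039209) (nat_lit 1094975) (nat_lit 2087785) (nat_lit 675035) (nat_lit 924342) (nat_lit 1723611) (nat_lit 1) (nat_lit 0)) <|
  List.cons (Rec.mk (nat_lit 27) (nat_lit 28) (nat_lit 1020255) (nat_lit 940354) (nat_lit 1224662) (nat_lit 1028414) (nat_lit 1020255) (nat_lit 1224662) (nat_lit 2068831) (nat_lit 940354) (nat_lit 1028414) (nat_lit 1988930) (nat_lit 1) (nat_lit 0)) <|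
  List.cons (Rec.mk (nat_lit 27) (nat_lit 29) (nat_lit 1020255) (nat_lit 940354) (nat_lit 1180675) (nat_lit 968835) (nat_lit 1020255) (nat_lit 1180675) (nat_lit 2068831) (nat_lit 940354) (nat_lit 968835) (nat_lit 1988930) (nat_lit 1) (nat_lit 0)) <|
  List.cons (Rec.mk (nat_lit 27) (nat_lit 30) (nat_lit 1020255) (nat_lit 940354) (nat_lit 841806) (nat_lit 1076843) (nat_lit 841806) (nat_lit 1020255) (nat_lit 1890382) (nat_lit 940354) (nat_lit 1076843) (nat_lit 1988930) (nat_lit 1) (nat_lit 1)) <|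
  List.cons (Rec.mk (nat_lit 27) (nat_lit 31) (nat_lit 1020255) (nat_lit 940354) (nat_lit 1233447) (nat_lit 1245209) (nat_lit 1020255) (nat_lit 1233447) (nat_lit 2068831) (nat_lit 940354) (nat_lit 1245209) (nat_lit 1988930) (nat_lit 1) (nat_lit 1)) <|
  List.cons (Rec.mk (nat_lit 27) (nat_lit 32) (nat_lit 1020255) (nat_lit 940354) (nat_lit 769851) (nat_lit 1193518) (nat_lit 769851) (nat_lit 1020255) (nat_lit 1818427) (nat_lit 940354) (nat_lit 1193518) (nat_lit 1988930) (nat_lit 1) (nat_lit 0)) <|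
  List.cons (Rec.mk (nat_lit 27) (nat_lit 33) (nat_lit 1020255) (nat_lit 940354) (nat_lit 628264) (nat_lit 879843) (nat_lit 628264) (nat_lit 1020255) (nat_lit 1676840) (nat_lit 879843) (nat_lit 940354) (nat_lit 1928419) (nat_lit 1) (nat_lit 0)) <|
  List.cons (Rec.mk (nat_lit 27) (nat_lit 34) (nat_lit 1020255) (nat_lit 940354) (nat_lit 1186642) (nat_lit 1189142) (nat_lit 1020255) (nat_lit 1186642) (nat_lit 2068831) (nat_lit 940354) (nat_lit 1189142) (nat_lit 1988930) (nat_lit 1) (nat_lit 1)) <|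
  List.cons (Rec.mk (nat_lit 27) (nat_lit 35) (nat_lit 1020255) (nat_lit 940354) (nat_lit 1449677) (nat_lit 813007) (nat_lit 1020255) (nat_lit 1449677) (nat_lit 2068831) (nat_lit 813007) (nat_lit 940354) (nat_lit 1861583) (nat_lit 0) (nat_lit 1)) <|
  List.cons (Rec.mk (nat_lit 27) (nat_lit 36) (nat_lit 1020255) (nat_lit 940354) (nat_lit 384169) (nat_lit 1225514) (nat_lit 384169) (nat_lit 1020255) (nat_lit 1432745) (nat_lit 940354) (nat_lit 1225514) (nat_lit 1988930) (nat_lit 1) (nat_lit 1)) <|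
  List.cons (Rec.mk (nat_lit 27) (nat_lit 37) (nat_lit 1020255) (nat_lit 940354) (nat_lit 981851) (nat_lit 976656) (nat_lit 981851) (nat_lit 1020255) (nat_lit 2030427) (nat_lit 940354) (nat_lit 976656) (nat_lit 1988930) (nat_lit 1) (nat_lit 0)) <|
  List.cons (Rec.mk (nat_lit 27) (nat_lit 38) (nat_lit 1020255) (nat_lit 940354) (nat_lit 712533) (nat_lit 1386567) (nat_lit 712533) (nat_lit 1020255) (nat_lit 1761109) (nat_lit 940354) (nat_lit 1386567) (nat_lit 1988930) (nat_lit 1) (nat_lit 0)) <|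
  List.cons (Rec.mk (nat_lit 27) (nat_lit 39) (nat_lit 1020255) (nat_lit 940354) (nat_lit 1075060) (nat_lit 718563) (nat_lit 1020255) (nat_lit 1075060) (nat_lit 2068831) (nat_lit 718563) (nat_lit 940354) (nat_lit 1767139) (nat_lit 0) (nat_lit 1)) <|
  List.cons (Rec.mk (nat_lit 27) (nat_lit 40) (nat_lit 1020255) (nat_lit 940354) (nat_lit 714818) (nat_lit 1128168) (nat_lit 714818) (nat_lit 1020255) (nat_lit 1763394) (nat_lit 940354) (nat_lit 1128168) (nat_lit 1988930) (nat_lit 1) (nat_lit 0)) <|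
  List.cons (Rec.mk (nat_lit 27) (nat_lit 41) (nat_lit 1020255) (nat_lit 940354) (nat_lit 587619) (nat_lit 824506) (nat_lit 587619) (nat_lit 1020255) (nat_lit 1636195) (nat_lit 824506) (nat_lit 940354) (nat_lit 1873082) (nat_lit 0) (nat_lit 1)) <|
  List.cons (Rec.mk (nat_lit 27) (nat_lit 42) (nat_lit 1020255) (nat_lit 940354) (nat_lit 562139) (nat_lit 1101737) (nat_lit 562139) (nat_lit 1020255) (nat_lit 1610715) (nat_lit 940354) (nat_lit 1101737) (nat_lit 1988930) (nat_lit 1) (nat_lit 0)) <|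
  List.cons (Rec.mk (nat_lit 27) (nat_lit 43) (nat_lit 1020255) (nat_lit 940354) (nat_lit 1492172) (nat_lit 733714) (nat_lit 1020255) (nat_lit 1492172) (nat_lit 2068831) (nat_lit 733714) (nat_lit 940354) (nat_lit 1782290) (nat_lit 0) (nat_lit 0)) <|
  List.cons (Rec.mk (nat_lit 27) (nat_lit 44) (nat_lit 1020255) (nat_lit 940354) (nat_lit 797581) (nat_lit 1131712) (nat_lit 797581) (nat_lit 1020255) (nat_lit 1846157) (nat_lit 940354) (nat_lit 1131712) (nat_lit 1988930) (nat_lit 1) (nat_lit 1)) <|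
  List.cons (Rec.mk (nat_lit 27) (nat_lit 45) (nat_lit 1020255) (nat_lit 940354) (nat_lit 687375) (nat_lit 777397) (nat_lit 687375) (nat_lit 1020255) (nat_lit 1735951) (nat_lit 777397) (nat_lit 940354) (nat_lit 1825973) (nat_lit 0) (nat_lit 0)) <|
  List.cons (Rec.mk (nat_lit 27) (nat_lit 46) (nat_lit 1020255) (nat_lit 940354) (nat_lit 348262) (nat_lit 1276109) (nat_lit 348262) (nat_lit 1020255) (nat_lit 1396838) (nat_lit 940354) (nat_lit 1276109) (nat_lit 1988930) (nat_lit 1) (nat_lit 1)) <|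
  List.cons (Rec.mk (nat_lit 27) (nat_lit 47) (nat_lit 1020255) (nat_lit 940354) (nat_lit 1257754) (nat_lit 549030) (nat_lit 1020255) (nat_lit 1257754) (nat_lit 2068831) (nat_lit 549030) (nat_lit 940354) (nat_lit 1597606) (nat_lit 0) (nat_lit 1)) <|
  List.cons (Rec.mk (nat_lit 27) (nat_lit 48) (nat_lit 1020255) (nat_lit 940354) (nat_lit 949236) (nat_lit 1423186) (nat_lit 949236) (nat_lit 1020255) (nat_lit 1997812) (nat_lit 940354) (nat_lit 1423186) (nat_lit 1988930) (nat_lit 1) (nat_lit 1)) <|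
  List.cons (Rec.mk (nat_lit 27) (nat_lit 49) (nat_lit 1020255) (nat_lit 940354) (nat_lit 662814) (nat_lit 807520) (nat_lit 662814) (nat_lit 1020255) (nat_lit 1711390) (nat_lit 807520) (nat_lit 940354) (nat_lit 1856096) (nat_lit 0) (nat_lit 0)) <|
  List.cons (Rec.mk (nat_lit 27) (nat_lit 50) (nat_lit 1020255) (nat_lit 940354) (nat_lit 1365792) (nat_lit 502786) (nat_lit 1020255) (nat_lit 1365792) (nat_lit 2068831) (nat_lit 502786) (nat_lit 940354) (nat_lit 1551362) (nat_lit 0) (nat_lit 1)) <|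
  List.cons (Rec.mk (nat_lit 27) (nat_lit 51) (nat_lit 1020255) (nat_lit 940354) (nat_lit 1317338) (nat_lit 1280043) (nat_lit 1020255) (nat_lit 1317338) (nat_lit 2068831) (nat_lit 940354) (nat_lit 1280043) (nat_lit 1988930) (nat_lit 1) (nat_lit 0)) <|
  List.cons (Rec.mk (nat_lit 27) (nat_lit 52) (nat_lit 1020255) (nat_lit 940354) (nat_lit 1316654) (nat_lit 447768) (nat_lit 1020255) (nat_lit 1316654) (nat_lit 2068831) (nat_lit 447768) (nat_lit 940354) (nat_lit 1496344) (nat_lit 0) (nat_lit 0)) <|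
  List.cons (Rec.mk (nat_lit 27) (nat_lit 53) (nat_lit 1020255) (nat_lit 940354) (nat_lit 888048) (nat_lit 578007) (nat_lit 888048) (nat_lit 1020255) (nat_lit 1936624) (nat_lit 578007) (nat_lit 940354) (nat_lit 1626583) (nat_lit 0) (nat_lit 0)) <|
  E29

def E27 : List Rec :=
  List.cons (Rec.mk (nat_lit 25) (nat_lit 31) (nat_lit 508882) (nat_lit 505448) (nat_lit 184871) (nat_lit 196633) (nat_lit 184871) (nat_lit 508882) (nat_lit 1233447) (nat_lit 196633) (nat_lit 505448) (nat_lit 1245209) (nat_lit 1) (nat_lit 0)) <|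
  List.cons (Rec.mk (nat_lit 25) (nat_lit 32) (nat_lit 508882) (nat_lit 505448) (nat_lit 769851) (nat_lit 144942) (nat_lit 508882) (nat_lit 769851) (nat_lit 1557458) (nat_lit 144942) (nat_lit 505448) (nat_lit 1193518) (nat_lit 1) (nat_lit 1)) <|
  List.cons (Rec.mk (nat_lit 25) (nat_lit 33) (nat_lit 508882) (nat_lit 505448) (nat_lit 628264) (nat_lit 879843) (nat_lit 508882) (nat_lit 628264) (nat_lit 1557458) (nat_lit 505448) (nat_lit 879843) (nat_lit 1554024) (nat_lit 0) (nat_lit 0)) <|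
  List.cons (Rec.mk (nat_lit 25) (nat_lit 34) (nat_lit 508882) (nat_lit 505448) (nat_lit 1186642) (nat_lit 140566) (nat_lit 508882) (nat_lit 1186642) (nat_lit 1557458) (nat_lit 140566) (nat_lit 505448) (nat_lit 1189142) (nat_lit 1) (nat_lit 0)) <|
  List.cons (Rec.mk (nat_lit 25) (nat_lit 35) (nat_lit 508882) (nat_lit 505448) (nat_lit 401101) (nat_lit 813007) (nat_lit 401101) (nat_lit 508882) (nat_lit 1449677) (nat_lit 505448) (nat_lit 813007) (nat_lit 1554024) (nat_lit 0) (nat_lit 0)) <|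
  List.cons (Rec.mk (nat_lit 25) (nat_lit 36) (nat_lit 508882) (nat_lit 505448) (nat_lit 384169) (nat_lit 176938) (nat_lit 384169) (nat_lit 508882) (nat_lit 1432745) (nat_lit 176938) (nat_lit 505448) (nat_lit 1225514) (nat_lit 1) (nat_lit 0)) <|
  List.cons (Rec.mk (nat_lit 25) (nat_lit 37) (nat_lit 508882) (nat_lit 1554024) (nat_lit 981851) (nat_lit 976656) (nat_lit 508882) (nat_lit 981851) (nat_lit 1557458) (nat_lit 976656) (nat_lit 1554024) (nat_lit 2025232) (nat_lit 1) (nat_lit 1)) <|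
  List.cons (Rec.mk (nat_lit 25) (nat_lit 38) (nat_lit 508882) (nat_lit 505448) (nat_lit 712533) (nat_lit 337991) (nat_lit 508882) (nat_lit 712533) (nat_lit 1557458) (nat_lit 337991) (nat_lit 505448) (nat_lit 1386567) (nat_lit 1) (nat_lit 1)) <|
  List.cons (Rec.mk (nat_lit 25) (nat_lit 39) (nat_lit 508882) (nat_lit 505448) (nat_lit 26484) (nat_lit 718563) (nat_lit 26484) (nat_lit 508882) (nat_lit 1075060) (nat_lit 505448) (nat_lit 718563) (nat_lit 1554024) (nat_lit 0) (nat_lit 0)) <|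
  List.cons (Rec.mk (nat_lit 25) (nat_lit 40) (nat_lit 508882) (nat_lit 505448) (nat_lit 714818) (nat_lit 79592) (nat_lit 508882) (nat_lit 714818) (nat_lit 1557458) (nat_lit 79592) (nat_lit 505448) (nat_lit 1128168) (nat_lit 1) (nat_lit 1)) <|
  List.cons (Rec.mk (nat_lit 25) (nat_lit 41) (nat_lit 508882) (nat_lit 505448) (nat_lit 587619) (nat_lit 824506) (nat_lit 508882) (nat_lit 587619) (nat_lit 1557458) (nat_lit 505448) (nat_lit 824506) (nat_lit 1554024) (nat_lit 0) (nat_lit 0)) <|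
  List.cons (Rec.mk (nat_lit 25) (nat_lit 42) (nat_lit 508882) (nat_lit 505448) (nat_lit 562139) (nat_lit 53161) (nat_lit 508882) (nat_lit 562139) (nat_lit 1557458) (nat_lit 53161) (nat_lit 505448) (nat_lit 1101737) (nat_lit 1) (nat_lit 1)) <|
  List.cons (Rec.mk (nat_lit 25) (nat_lit 43) (nat_lit 508882) (nat_lit 505448) (nat_lit 443596) (nat_lit 733714) (nat_lit 443596) (nat_lit 508882) (nat_lit 1492172) (nat_lit 505448) (nat_lit 733714) (nat_lit 1554024) (nat_lit 0) (nat_lit 1)) <|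
  List.cons (Rec.mk (nat_lit 25) (nat_lit 44) (nat_lit 508882) (nat_lit 505448) (nat_lit 797581) (nat_lit 83136) (nat_lit 508882) (nat_lit 797581) (nat_lit 1557458) (nat_lit 83136) (nat_lit 505448) (nat_lit 1131712) (nat_lit 1) (nat_lit 0)) <|
  List.cons (Rec.mk (nat_lit 25) (nat_lit 45) (nat_lit 508882) (nat_lit 505448) (nat_lit 687375) (nat_lit 777397) (nat_lit 508882) (nat_lit 687375) (nat_lit 1557458) (nat_lit 505448) (nat_lit 777397) (nat_lit 1554024) (nat_lit 0) (nat_lit 1)) <|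
  List.cons (Rec.mk (nat_lit 25) (nat_lit 46) (nat_lit 508882) (nat_lit 505448) (nat_lit 348262) (nat_lit 227533) (nat_lit 348262) (nat_lit 508882) (nat_lit 1396838) (nat_lit 227533) (nat_lit 505448) (nat_lit 1276109) (nat_lit 1) (nat_lit 0)) <|
  List.cons (Rec.mk (nat_lit 25) (nat_lit 47) (nat_lit 508882) (nat_lit 505448) (nat_lit 209178) (nat_lit 549030) (nat_lit 209178) (nat_lit 508882) (nat_lit 1257754) (nat_lit 505448) (nat_lit 549030) (nat_lit 1554024) (nat_lit 0) (nat_lit 0)) <|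
  List.cons (Rec.mk (nat_lit 25) (nat_lit 48) (nat_lit 508882) (nat_lit 505448) (nat_lit 949236) (nat_lit 374610) (nat_lit 508882) (nat_lit 949236) (nat_lit 1557458) (nat_lit 374610) (nat_lit 505448) (nat_lit 1423186) (nat_lit 1) (nat_lit 0)) <|
  List.cons (Rec.mk (nat_lit 25) (nat_lit 49) (nat_lit 508882) (nat_lit 505448) (nat_lit 662814) (nat_lit 807520) (nat_lit 508882) (nat_lit 662814) (nat_lit 1557458) (nat_lit 505448) (nat_lit 807520) (nat_lit 1554024) (nat_lit 0) (nat_lit 1)) <|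
  List.cons (Rec.mk (nat_lit 25) (nat_lit 50) (nat_lit 508882) (nat_lit 505448) (nat_lit 317216) (nat_lit 502786) (nat_lit 317216) (nat_lit 508882) (nat_lit 1365792) (nat_lit 502786) (nat_lit 505448) (nat_lit 1551362) (nat_lit 0) (nat_lit 0)) <|
  List.cons (Rec.mk (nat_lit 25) (nat_lit 51) (nat_lit 508882) (nat_lit 505448) (nat_lit 268762) (nat_lit 231467) (nat_lit 268762) (nat_lit 508882) (nat_lit 1317338) (nat_lit 231467) (nat_lit 505448) (nat_lit 1280043) (nat_lit 1) (nat_lit 1)) <|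
  List.cons (Rec.mk (nat_lit 25) (nat_lit 52) (nat_lit 508882) (nat_lit 505448) (nat_lit 268078) (nat_lit 447768) (nat_lit 268078) (nat_lit 508882) (nat_lit 1316654) (nat_lit 447768) (nat_lit 505448) (nat_lit 1496344) (nat_lit 1) (nat_lit 0)) <|
  List.cons (Rec.mk (nat_lit 25) (nat_lit 53) (nat_lit 508882) (nat_lit 505448) (nat_lit 888048) (nat_lit 578007) (nat_lit 508882) (nat_lit 888048) (nat_lit 1557458) (nat_lit 505448) (nat_lit 578007) (nat_lit 1554024) (nat_lit 0) (nat_lit 0)) <|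
  List.cons (Rec.mk (nat_lit 25) (nat_lit 54) (nat_lit 508882) (nat_lit 505448) (nat_lit 530018) (nat_lit 84442) (nat_lit 508882) (nat_lit 530018) (nat_lit 1557458) (nat_lit 84442) (nat_lit 505448) (nat_lit 1133018) (nat_lit 1) (nat_lit 1)) <|
  List.cons (Rec.mk (nat_lit 25) (nat_lit 55) (nat_lit 1557458) (nat_lit 505448) (nat_lit 1039209) (nat_lit 675035) (nat_lit 1039209) (nat_lit 1557458) (nat_lit 2087785) (nat_lit 505448) (nat_lit 675035) (nat_lit 1554024) (nat_lit 0) (nat_lit 1)) <|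
  List.cons (Rec.mk (nat_lit 26) (nat_lit 27) (nat_lit 1094975) (nat_lit 924342) (nat_lit 1020255) (nat_lit 940354) (nat_lit 1020255) (nat_lit 1094975) (nat_lit 2068831) (nat_lit 924342) (nat_lit 940354) (nat_lit 1972918) (nat_lit 0) (nat_lit 0)) <|
  List.cons (Rec.mk (nat_lit 26) (nat_lit 28) (nat_lit 46399) (nat_lit 924342) (nat_lit 176086) (nat_lit 1028414) (nat_lit 46399) (nat_lit 176086) (nat_lit 1094975) (nat_lit 924342) (nat_lit 1028414) (nat_lit 1972918) (nat_lit 1) (nat_lit 0)) <|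
  List.cons (Rec.mk (nat_lit 26) (nat_lit 29) (nat_lit 46399) (nat_lit 924342) (nat_lit 132099) (nat_lit 968835) (nat_lit 46399) (nat_lit 132099) (nat_lit 1094975) (nat_lit 924342) (nat_lit 968835) (nat_lit 1972918) (nat_lit 1) (nat_lit 0)) <|
  List.cons (Rec.mk (nat_lit 26) (nat_lit 30) (nat_lit 1094975) (nat_lit 924342) (nat_lit 841806) (nat_lit 1076843) (nat_lit 841806) (nat_lit 1094975) (nat_lit 1890382) (nat_lit 924342) (nat_lit 1076843) (nat_lit 1972918) (nat_lit 0) (nat_lit 1)) <|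
  List.cons (Rec.mk (nat_lit 26) (nat_lit 31) (nat_lit 46399) (nat_lit 924342) (nat_lit 184871) (nat_lit 1245209) (nat_lit 46399) (nat_lit 184871) (nat_lit 1094975) (nat_lit 924342) (nat_lit 1245209) (nat_lit 1972918) (nat_lit 0) (nat_lit 1)) <|
  List.cons (Rec.mk (nat_lit 26) (nat_lit 32) (nat_lit 1094975) (nat_lit 924342) (nat_lit 769851) (nat_lit 1193518) (nat_lit 769851) (nat_lit 1094975) (nat_lit 1818427) (nat_lit 924342) (nat_lit 1193518) (nat_lit 1972918) (nat_lit 0) (nat_lit 0)) <|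
  List.cons (Rec.mk (nat_lit 26) (nat_lit 33) (nat_lit 1094975) (nat_lit 924342) (nat_lit 628264) (nat_lit 879843) (nat_lit 628264) (nat_lit 1094975) (nat_lit 1676840) (nat_lit 879843) (nat_lit 924342) (nat_lit 1928419) (nat_lit 0) (nat_lit 0)) <|
  List.cons (Rec.mk (nat_lit 26) (nat_lit 34) (nat_lit 46399) (nat_lit 924342) (nat_lit 138066) (nat_lit 1189142) (nat_lit 46399) (nat_lit 138066) (nat_lit 1094975) (nat_lit 924342) (nat_lit 1189142) (nat_lit 1972918) (nat_lit 0) (nat_lit 1)) <|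
  List.cons (Rec.mk (nat_lit 26) (nat_lit 35) (nat_lit 46399) (nat_lit 924342) (nat_lit 401101) (nat_lit 813007) (nat_lit 46399) (nat_lit 401101) (nat_lit 1094975) (nat_lit 813007) (nat_lit 924342) (nat_lit 1861583) (nat_lit 1) (nat_lit 1)) <|
  List.cons (Rec.mk (nat_lit 26) (nat_lit 36) (nat_lit 46399) (nat_lit 924342) (nat_lit 384169) (nat_lit 1225514) (nat_lit 46399) (nat_lit 384169) (nat_lit 1094975) (nat_lit 924342) (nat_lit 1225514) (nat_lit 1972918) (nat_lit 0) (nat_lit 1)) <|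
  List.cons (Rec.mk (nat_lit 26) (nat_lit 37) (nat_lit 1094975) (nat_lit 924342) (nat_lit 981851) (nat_lit 976656) (nat_lit 981851) (nat_lit 1094975) (nat_lit 2030427) (nat_lit 924342) (nat_lit 976656) (nat_lit 1972918) (nat_lit 0) (nat_lit 0)) <|
  List.cons (Rec.mk (nat_lit 26) (nat_lit 38) (nat_lit 1094975) (nat_lit 924342) (nat_lit 712533) (nat_lit 1386567) (nat_lit 712533) (nat_lit 1094975) (nat_lit 1761109) (nat_lit 924342) (nat_lit 1386567) (nat_lit 1972918) (nat_lit 0) (nat_lit 0)) <|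
  List.cons (Rec.mk (nat_lit 26) (nat_lit 39) (nat_lit 46399) (nat_lit 924342) (nat_lit 26484) (nat_lit 718563) (nat_lit 26484) (nat_lit 46399) (nat_lit 1075060) (nat_lit 718563) (nat_lit 924342) (nat_lit 1767139) (nat_lit 1) (nat_lit 1)) <|
  List.cons (Rec.mk (nat_lit 26) (nat_lit 40) (nat_lit 1094975) (nat_lit 924342) (nat_lit 714818) (nat_lit 1128168) (nat_lit 714818) (nat_lit 1094975) (nat_lit 1763394) (nat_lit 924342) (nat_lit 1128168) (nat_lit 1972918) (nat_lit 0) (nat_lit 0)) <|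
  List.cons (Rec.mk (nat_lit 26) (nat_lit 41) (nat_lit 46399) (nat_lit 924342) (nat_lit 587619) (nat_lit 824506) (nat_lit 46399) (nat_lit 587619) (nat_lit 1094975) (nat_lit 824506) (nat_lit 924342) (nat_lit 1873082) (nat_lit 1) (nat_lit 1)) <|
  E28

def E26 : List Rec :=
  List.cons (Rec.mk (nat_lit 23) (nat_lit 52) (nat_lit 983221) (nat_lit 330793) (nat_lit 1316654) (nat_lit 447768) (nat_lit 983221) (nat_lit 1316654) (nat_lit 2031797) (nat_lit 330793) (nat_lit 447768) (nat_lit 1379369) (nat_lit 1) (nat_lit 1)) <|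
  List.cons (Rec.mk (nat_lit 23) (nat_lit 53) (nat_lit 983221) (nat_lit 330793) (nat_lit 888048) (nat_lit 578007) (nat_lit 888048) (nat_lit 983221) (nat_lit 1936624) (nat_lit 330793) (nat_lit 578007) (nat_lit 1379369) (nat_lit 0) (nat_lit 1)) <|
  List.cons (Rec.mk (nat_lit 23) (nat_lit 54) (nat_lit 983221) (nat_lit 330793) (nat_lit 1578594) (nat_lit 84442) (nat_lit 983221) (nat_lit 1578594) (nat_lit 2031797) (nat_lit 84442) (nat_lit 330793) (nat_lit 1133018) (nat_lit 1) (nat_lit 1)) <|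
  List.cons (Rec.mk (nat_lit 23) (nat_lit 55) (nat_lit 983221) (nat_lit 330793) (nat_lit 1039209) (nat_lit 675035) (nat_lit 983221) (nat_lit 1039209) (nat_lit 2031797) (nat_lit 330793) (nat_lit 675035) (nat_lit 1379369) (nat_lit 0) (nat_lit 1)) <|
  List.cons (Rec.mk (nat_lit 24) (nat_lit 25) (nat_lit 664612) (nat_lit 401726) (nat_lit 508882) (nat_lit 505448) (nat_lit 508882) (nat_lit 664612) (nat_lit 1557458) (nat_lit 401726) (nat_lit 505448) (nat_lit 1450302) (nat_lit 1) (nat_lit 1)) <|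
  List.cons (Rec.mk (nat_lit 24) (nat_lit 26) (nat_lit 664612) (nat_lit 1450302) (nat_lit 1094975) (nat_lit 924342) (nat_lit 664612) (nat_lit 1094975) (nat_lit 1713188) (nat_lit 924342) (nat_lit 1450302) (nat_lit 1972918) (nat_lit 0) (nat_lit 0)) <|
  List.cons (Rec.mk (nat_lit 24) (nat_lit 27) (nat_lit 664612) (nat_lit 1450302) (nat_lit 1020255) (nat_lit 940354) (nat_lit 664612) (nat_lit 1020255) (nat_lit 1713188) (nat_lit 940354) (nat_lit 1450302) (nat_lit 1988930) (nat_lit 0) (nat_lit 1)) <|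
  List.cons (Rec.mk (nat_lit 24) (nat_lit 28) (nat_lit 664612) (nat_lit 1450302) (nat_lit 1224662) (nat_lit 1028414) (nat_lit 664612) (nat_lit 1224662) (nat_lit 1713188) (nat_lit 1028414) (nat_lit 1450302) (nat_lit 2076990) (nat_lit 0) (nat_lit 1)) <|
  List.cons (Rec.mk (nat_lit 24) (nat_lit 29) (nat_lit 664612) (nat_lit 1450302) (nat_lit 1180675) (nat_lit 968835) (nat_lit 664612) (nat_lit 1180675) (nat_lit 1713188) (nat_lit 968835) (nat_lit 1450302) (nat_lit 2017411) (nat_lit 0) (nat_lit 1)) <|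
  List.cons (Rec.mk (nat_lit 24) (nat_lit 30) (nat_lit 664612) (nat_lit 401726) (nat_lit 841806) (nat_lit 28267) (nat_lit 664612) (nat_lit 841806) (nat_lit 1713188) (nat_lit 28267) (nat_lit 401726) (nat_lit 1076843) (nat_lit 0) (nat_lit 0)) <|
  List.cons (Rec.mk (nat_lit 24) (nat_lit 31) (nat_lit 664612) (nat_lit 401726) (nat_lit 1233447) (nat_lit 196633) (nat_lit 664612) (nat_lit 1233447) (nat_lit 1713188) (nat_lit 196633) (nat_lit 401726) (nat_lit 1245209) (nat_lit 0) (nat_lit 0)) <|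
  List.cons (Rec.mk (nat_lit 24) (nat_lit 32) (nat_lit 664612) (nat_lit 401726) (nat_lit 769851) (nat_lit 144942) (nat_lit 664612) (nat_lit 769851) (nat_lit 1713188) (nat_lit 144942) (nat_lit 401726) (nat_lit 1193518) (nat_lit 0) (nat_lit 1)) <|
  List.cons (Rec.mk (nat_lit 24) (nat_lit 33) (nat_lit 664612) (nat_lit 401726) (nat_lit 628264) (nat_lit 879843) (nat_lit 628264) (nat_lit 664612) (nat_lit 1676840) (nat_lit 401726) (nat_lit 879843) (nat_lit 1450302) (nat_lit 1) (nat_lit 0)) <|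
  List.cons (Rec.mk (nat_lit 24) (nat_lit 34) (nat_lit 664612) (nat_lit 401726) (nat_lit 1186642) (nat_lit 140566) (nat_lit 664612) (nat_lit 1186642) (nat_lit 1713188) (nat_lit 140566) (nat_lit 401726) (nat_lit 1189142) (nat_lit 0) (nat_lit 0)) <|
  List.cons (Rec.mk (nat_lit 24) (nat_lit 35) (nat_lit 664612) (nat_lit 401726) (nat_lit 401101) (nat_lit 813007) (nat_lit 401101) (nat_lit 664612) (nat_lit 1449677) (nat_lit 401726) (nat_lit 813007) (nat_lit 1450302) (nat_lit 1) (nat_lit 0)) <|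
  List.cons (Rec.mk (nat_lit 24) (nat_lit 36) (nat_lit 664612) (nat_lit 401726) (nat_lit 384169) (nat_lit 176938) (nat_lit 384169) (nat_lit 664612) (nat_lit 1432745) (nat_lit 176938) (nat_lit 401726) (nat_lit 1225514) (nat_lit 0) (nat_lit 0)) <|
  List.cons (Rec.mk (nat_lit 24) (nat_lit 37) (nat_lit 664612) (nat_lit 1450302) (nat_lit 981851) (nat_lit 976656) (nat_lit 664612) (nat_lit 981851) (nat_lit 1713188) (nat_lit 976656) (nat_lit 1450302) (nat_lit 2025232) (nat_lit 0) (nat_lit 1)) <|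
  List.cons (Rec.mk (nat_lit 24) (nat_lit 38) (nat_lit 664612) (nat_lit 401726) (nat_lit 712533) (nat_lit 337991) (nat_lit 664612) (nat_lit 712533) (nat_lit 1713188) (nat_lit 337991) (nat_lit 401726) (nat_lit 1386567) (nat_lit 0) (nat_lit 1)) <|
  List.cons (Rec.mk (nat_lit 24) (nat_lit 39) (nat_lit 664612) (nat_lit 401726) (nat_lit 26484) (nat_lit 718563) (nat_lit 26484) (nat_lit 664612) (nat_lit 1075060) (nat_lit 401726) (nat_lit 718563) (nat_lit 1450302) (nat_lit 1) (nat_lit 0)) <|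
  List.cons (Rec.mk (nat_lit 24) (nat_lit 40) (nat_lit 664612) (nat_lit 401726) (nat_lit 714818) (nat_lit 79592) (nat_lit 664612) (nat_lit 714818) (nat_lit 1713188) (nat_lit 79592) (nat_lit 401726) (nat_lit 1128168) (nat_lit 0) (nat_lit 1)) <|
  List.cons (Rec.mk (nat_lit 24) (nat_lit 41) (nat_lit 664612) (nat_lit 401726) (nat_lit 587619) (nat_lit 824506) (nat_lit 587619) (nat_lit 664612) (nat_lit 1636195) (nat_lit 401726) (nat_lit 824506) (nat_lit 1450302) (nat_lit 1) (nat_lit 0)) <|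
  List.cons (Rec.mk (nat_lit 24) (nat_lit 42) (nat_lit 664612) (nat_lit 401726) (nat_lit 562139) (nat_lit 53161) (nat_lit 562139) (nat_lit 664612) (nat_lit 1610715) (nat_lit 53161) (nat_lit 401726) (nat_lit 1101737) (nat_lit 0) (nat_lit 1)) <|
  List.cons (Rec.mk (nat_lit 24) (nat_lit 43) (nat_lit 664612) (nat_lit 401726) (nat_lit 443596) (nat_lit 733714) (nat_lit 443596) (nat_lit 664612) (nat_lit 1492172) (nat_lit 401726) (nat_lit 733714) (nat_lit 1450302) (nat_lit 1) (nat_lit 1)) <|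
  List.cons (Rec.mk (nat_lit 24) (nat_lit 44) (nat_lit 664612) (nat_lit 401726) (nat_lit 797581) (nat_lit 83136) (nat_lit 664612) (nat_lit 797581) (nat_lit 1713188) (nat_lit 83136) (nat_lit 401726) (nat_lit 1131712) (nat_lit 0) (nat_lit 0)) <|
  List.cons (Rec.mk (nat_lit 24) (nat_lit 45) (nat_lit 664612) (nat_lit 401726) (nat_lit 687375) (nat_lit 777397) (nat_lit 664612) (nat_lit 687375) (nat_lit 1713188) (nat_lit 401726) (nat_lit 777397) (nat_lit 1450302) (nat_lit 1) (nat_lit 1)) <|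
  List.cons (Rec.mk (nat_lit 24) (nat_lit 46) (nat_lit 664612) (nat_lit 401726) (nat_lit 348262) (nat_lit 227533) (nat_lit 348262) (nat_lit 664612) (nat_lit 1396838) (nat_lit 227533) (nat_lit 401726) (nat_lit 1276109) (nat_lit 0) (nat_lit 0)) <|
  List.cons (Rec.mk (nat_lit 24) (nat_lit 47) (nat_lit 664612) (nat_lit 401726) (nat_lit 209178) (nat_lit 549030) (nat_lit 209178) (nat_lit 664612) (nat_lit 1257754) (nat_lit 401726) (nat_lit 549030) (nat_lit 1450302) (nat_lit 1) (nat_lit 0)) <|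
  List.cons (Rec.mk (nat_lit 24) (nat_lit 48) (nat_lit 664612) (nat_lit 401726) (nat_lit 949236) (nat_lit 374610) (nat_lit 664612) (nat_lit 949236) (nat_lit 1713188) (nat_lit 374610) (nat_lit 401726) (nat_lit 1423186) (nat_lit 0) (nat_lit 0)) <|
  List.cons (Rec.mk (nat_lit 24) (nat_lit 49) (nat_lit 664612) (nat_lit 401726) (nat_lit 662814) (nat_lit 807520) (nat_lit 662814) (nat_lit 664612) (nat_lit 1711390) (nat_lit 401726) (nat_lit 807520) (nat_lit 1450302) (nat_lit 1) (nat_lit 1)) <|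
  List.cons (Rec.mk (nat_lit 24) (nat_lit 50) (nat_lit 664612) (nat_lit 401726) (nat_lit 317216) (nat_lit 502786) (nat_lit 317216) (nat_lit 664612) (nat_lit 1365792) (nat_lit 401726) (nat_lit 502786) (nat_lit 1450302) (nat_lit 1) (nat_lit 0)) <|
  List.cons (Rec.mk (nat_lit 24) (nat_lit 51) (nat_lit 664612) (nat_lit 401726) (nat_lit 268762) (nat_lit 231467) (nat_lit 268762) (nat_lit 664612) (nat_lit 1317338) (nat_lit 231467) (nat_lit 401726) (nat_lit 1280043) (nat_lit 1) (nat_lit 1)) <|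
  List.cons (Rec.mk (nat_lit 24) (nat_lit 52) (nat_lit 664612) (nat_lit 401726) (nat_lit 268078) (nat_lit 447768) (nat_lit 268078) (nat_lit 664612) (nat_lit 1316654) (nat_lit 401726) (nat_lit 447768) (nat_lit 1450302) (nat_lit 1) (nat_lit 1)) <|
  List.cons (Rec.mk (nat_lit 24) (nat_lit 53) (nat_lit 664612) (nat_lit 401726) (nat_lit 888048) (nat_lit 578007) (nat_lit 664612) (nat_lit 888048) (nat_lit 1713188) (nat_lit 401726) (nat_lit 578007) (nat_lit 1450302) (nat_lit 1) (nat_lit 1)) <|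
  List.cons (Rec.mk (nat_lit 24) (nat_lit 54) (nat_lit 664612) (nat_lit 401726) (nat_lit 530018) (nat_lit 84442) (nat_lit 530018) (nat_lit 664612) (nat_lit 1578594) (nat_lit 84442) (nat_lit 401726) (nat_lit 1133018) (nat_lit 0) (nat_lit 1)) <|
  List.cons (Rec.mk (nat_lit 24) (nat_lit 55) (nat_lit 664612) (nat_lit 401726) (nat_lit 1039209) (nat_lit 675035) (nat_lit 664612) (nat_lit 1039209) (nat_lit 1713188) (nat_lit 401726) (nat_lit 675035) (nat_lit 1450302) (nat_lit 1) (nat_lit 1)) <|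
  List.cons (Rec.mk (nat_lit 25) (nat_lit 26) (nat_lit 508882) (nat_lit 505448) (nat_lit 46399) (nat_lit 924342) (nat_lit 46399) (nat_lit 508882) (nat_lit 1094975) (nat_lit 505448) (nat_lit 924342) (nat_lit 1554024) (nat_lit 0) (nat_lit 1)) <|
  List.cons (Rec.mk (nat_lit 25) (nat_lit 27) (nat_lit 1557458) (nat_lit 505448) (nat_lit 1020255) (nat_lit 940354) (nat_lit 1020255) (nat_lit 1557458) (nat_lit 2068831) (nat_lit 505448) (nat_lit 940354) (nat_lit 1554024) (nat_lit 0) (nat_lit 0)) <|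
  List.cons (Rec.mk (nat_lit 25) (nat_lit 28) (nat_lit 508882) (nat_lit 505448) (nat_lit 176086) (nat_lit 1028414) (nat_lit 176086) (nat_lit 508882) (nat_lit 1224662) (nat_lit 505448) (nat_lit 1028414) (nat_lit 1554024) (nat_lit 0) (nat_lit 0)) <|
  List.cons (Rec.mk (nat_lit 25) (nat_lit 29) (nat_lit 508882) (nat_lit 505448) (nat_lit 132099) (nat_lit 968835) (nat_lit 132099) (nat_lit 508882) (nat_lit 1180675) (nat_lit 505448) (nat_lit 968835) (nat_lit 1554024) (nat_lit 0) (nat_lit 0)) <|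
  List.cons (Rec.mk (nat_lit 25) (nat_lit 30) (nat_lit 508882) (nat_lit 505448) (nat_lit 841806) (nat_lit 28267) (nat_lit 508882) (nat_lit 841806) (nat_lit 1557458) (nat_lit 28267) (nat_lit 505448) (nat_lit 1076843) (nat_lit 1) (nat_lit 0)) <|
  E27

def E25 : List Rec :=
  List.cons (Rec.mk (nat_lit 22) (nat_lit 44) (nat_lit 1284698) (nat_lit 923345) (nat_lit 797581) (nat_lit 1131712) (nat_lit 797581) (nat_lit 1284698) (nat_lit 1846157) (nat_lit 923345) (nat_lit 1131712) (nat_lit 1971921) (nat_lit 0) (nat_lit 1)) <|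
  List.cons (Rec.mk (nat_lit 22) (nat_lit 45) (nat_lit 236122) (nat_lit 923345) (nat_lit 687375) (nat_lit 777397) (nat_lit 236122) (nat_lit 687375) (nat_lit 1284698) (nat_lit 777397) (nat_lit 923345) (nat_lit 1825973) (nat_lit 1) (nat_lit 0)) <|
  List.cons (Rec.mk (nat_lit 22) (nat_lit 46) (nat_lit 236122) (nat_lit 923345) (nat_lit 348262) (nat_lit 1276109) (nat_lit 236122) (nat_lit 348262) (nat_lit 1284698) (nat_lit 923345) (nat_lit 1276109) (nat_lit 1971921) (nat_lit 0) (nat_lit 1)) <|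
  List.cons (Rec.mk (nat_lit 22) (nat_lit 47) (nat_lit 236122) (nat_lit 923345) (nat_lit 209178) (nat_lit 549030) (nat_lit 209178) (nat_lit 236122) (nat_lit 1257754) (nat_lit 549030) (nat_lit 923345) (nat_lit 1597606) (nat_lit 1) (nat_lit 1)) <|
  List.cons (Rec.mk (nat_lit 22) (nat_lit 48) (nat_lit 1284698) (nat_lit 923345) (nat_lit 949236) (nat_lit 1423186) (nat_lit 949236) (nat_lit 1284698) (nat_lit 1997812) (nat_lit 923345) (nat_lit 1423186) (nat_lit 1971921) (nat_lit 0) (nat_lit 1)) <|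
  List.cons (Rec.mk (nat_lit 22) (nat_lit 49) (nat_lit 236122) (nat_lit 923345) (nat_lit 662814) (nat_lit 807520) (nat_lit 236122) (nat_lit 662814) (nat_lit 1284698) (nat_lit 807520) (nat_lit 923345) (nat_lit 1856096) (nat_lit 1) (nat_lit 0)) <|
  List.cons (Rec.mk (nat_lit 22) (nat_lit 50) (nat_lit 236122) (nat_lit 923345) (nat_lit 317216) (nat_lit 502786) (nat_lit 236122) (nat_lit 317216) (nat_lit 1284698) (nat_lit 502786) (nat_lit 923345) (nat_lit 1551362) (nat_lit 1) (nat_lit 1)) <|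
  List.cons (Rec.mk (nat_lit 22) (nat_lit 51) (nat_lit 236122) (nat_lit 923345) (nat_lit 268762) (nat_lit 1280043) (nat_lit 236122) (nat_lit 268762) (nat_lit 1284698) (nat_lit 923345) (nat_lit 1280043) (nat_lit 1971921) (nat_lit 0) (nat_lit 0)) <|
  List.cons (Rec.mk (nat_lit 22) (nat_lit 52) (nat_lit 236122) (nat_lit 923345) (nat_lit 268078) (nat_lit 447768) (nat_lit 236122) (nat_lit 268078) (nat_lit 1284698) (nat_lit 447768) (nat_lit 923345) (nat_lit 1496344) (nat_lit 1) (nat_lit 0)) <|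
  List.cons (Rec.mk (nat_lit 22) (nat_lit 53) (nat_lit 236122) (nat_lit 923345) (nat_lit 888048) (nat_lit 578007) (nat_lit 236122) (nat_lit 888048) (nat_lit 1284698) (nat_lit 578007) (nat_lit 923345) (nat_lit 1626583) (nat_lit 1) (nat_lit 0)) <|
  List.cons (Rec.mk (nat_lit 22) (nat_lit 54) (nat_lit 236122) (nat_lit 923345) (nat_lit 530018) (nat_lit 1133018) (nat_lit 236122) (nat_lit 530018) (nat_lit 1284698) (nat_lit 923345) (nat_lit 1133018) (nat_lit 1971921) (nat_lit 0) (nat_lit 0)) <|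
  List.cons (Rec.mk (nat_lit 22) (nat_lit 55) (nat_lit 1284698) (nat_lit 923345) (nat_lit 1039209) (nat_lit 675035) (nat_lit 1039209) (nat_lit 1284698) (nat_lit 2087785) (nat_lit 675035) (nat_lit 923345) (nat_lit 1723611) (nat_lit 1) (nat_lit 0)) <|
  List.cons (Rec.mk (nat_lit 23) (nat_lit 24) (nat_lit 983221) (nat_lit 330793) (nat_lit 664612) (nat_lit 401726) (nat_lit 664612) (nat_lit 983221) (nat_lit 1713188) (nat_lit 330793) (nat_lit 401726) (nat_lit 1379369) (nat_lit 0) (nat_lit 0)) <|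
  List.cons (Rec.mk (nat_lit 23) (nat_lit 25) (nat_lit 983221) (nat_lit 330793) (nat_lit 508882) (nat_lit 505448) (nat_lit 508882) (nat_lit 983221) (nat_lit 1557458) (nat_lit 330793) (nat_lit 505448) (nat_lit 1379369) (nat_lit 0) (nat_lit 1)) <|
  List.cons (Rec.mk (nat_lit 23) (nat_lit 26) (nat_lit 983221) (nat_lit 1379369) (nat_lit 1094975) (nat_lit 924342) (nat_lit 983221) (nat_lit 1094975) (nat_lit 2031797) (nat_lit 924342) (nat_lit 1379369) (nat_lit 1972918) (nat_lit 1) (nat_lit 0)) <|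
  List.cons (Rec.mk (nat_lit 23) (nat_lit 27) (nat_lit 983221) (nat_lit 1379369) (nat_lit 1020255) (nat_lit 940354) (nat_lit 983221) (nat_lit 1020255) (nat_lit 2031797) (nat_lit 940354) (nat_lit 1379369) (nat_lit 1988930) (nat_lit 1) (nat_lit 1)) <|
  List.cons (Rec.mk (nat_lit 23) (nat_lit 28) (nat_lit 983221) (nat_lit 1379369) (nat_lit 1224662) (nat_lit 1028414) (nat_lit 983221) (nat_lit 1224662) (nat_lit 2031797) (nat_lit 1028414) (nat_lit 1379369) (nat_lit 2076990) (nat_lit 1) (nat_lit 1)) <|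
  List.cons (Rec.mk (nat_lit 23) (nat_lit 29) (nat_lit 983221) (nat_lit 1379369) (nat_lit 1180675) (nat_lit 968835) (nat_lit 983221) (nat_lit 1180675) (nat_lit 2031797) (nat_lit 968835) (nat_lit 1379369) (nat_lit 2017411) (nat_lit 1) (nat_lit 1)) <|
  List.cons (Rec.mk (nat_lit 23) (nat_lit 30) (nat_lit 983221) (nat_lit 330793) (nat_lit 841806) (nat_lit 28267) (nat_lit 841806) (nat_lit 983221) (nat_lit 1890382) (nat_lit 28267) (nat_lit 330793) (nat_lit 1076843) (nat_lit 1) (nat_lit 0)) <|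
  List.cons (Rec.mk (nat_lit 23) (nat_lit 31) (nat_lit 983221) (nat_lit 330793) (nat_lit 1233447) (nat_lit 196633) (nat_lit 983221) (nat_lit 1233447) (nat_lit 2031797) (nat_lit 196633) (nat_lit 330793) (nat_lit 1245209) (nat_lit 1) (nat_lit 0)) <|
  List.cons (Rec.mk (nat_lit 23) (nat_lit 32) (nat_lit 983221) (nat_lit 330793) (nat_lit 769851) (nat_lit 144942) (nat_lit 769851) (nat_lit 983221) (nat_lit 1818427) (nat_lit 144942) (nat_lit 330793) (nat_lit 1193518) (nat_lit 1) (nat_lit 1)) <|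
  List.cons (Rec.mk (nat_lit 23) (nat_lit 33) (nat_lit 983221) (nat_lit 330793) (nat_lit 628264) (nat_lit 879843) (nat_lit 628264) (nat_lit 983221) (nat_lit 1676840) (nat_lit 330793) (nat_lit 879843) (nat_lit 1379369) (nat_lit 0) (nat_lit 0)) <|
  List.cons (Rec.mk (nat_lit 23) (nat_lit 34) (nat_lit 983221) (nat_lit 330793) (nat_lit 1186642) (nat_lit 140566) (nat_lit 983221) (nat_lit 1186642) (nat_lit 2031797) (nat_lit 140566) (nat_lit 330793) (nat_lit 1189142) (nat_lit 1) (nat_lit 0)) <|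
  List.cons (Rec.mk (nat_lit 23) (nat_lit 35) (nat_lit 983221) (nat_lit 1379369) (nat_lit 1449677) (nat_lit 813007) (nat_lit 983221) (nat_lit 1449677) (nat_lit 2031797) (nat_lit 813007) (nat_lit 1379369) (nat_lit 1861583) (nat_lit 1) (nat_lit 1)) <|
  List.cons (Rec.mk (nat_lit 23) (nat_lit 36) (nat_lit 983221) (nat_lit 330793) (nat_lit 1432745) (nat_lit 176938) (nat_lit 983221) (nat_lit 1432745) (nat_lit 2031797) (nat_lit 176938) (nat_lit 330793) (nat_lit 1225514) (nat_lit 1) (nat_lit 0)) <|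
  List.cons (Rec.mk (nat_lit 23) (nat_lit 37) (nat_lit 983221) (nat_lit 1379369) (nat_lit 981851) (nat_lit 976656) (nat_lit 981851) (nat_lit 983221) (nat_lit 2030427) (nat_lit 976656) (nat_lit 1379369) (nat_lit 2025232) (nat_lit 1) (nat_lit 1)) <|
  List.cons (Rec.mk (nat_lit 23) (nat_lit 38) (nat_lit 983221) (nat_lit 330793) (nat_lit 712533) (nat_lit 337991) (nat_lit 712533) (nat_lit 983221) (nat_lit 1761109) (nat_lit 330793) (nat_lit 337991) (nat_lit 1379369) (nat_lit 0) (nat_lit 0)) <|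
  List.cons (Rec.mk (nat_lit 23) (nat_lit 39) (nat_lit 983221) (nat_lit 330793) (nat_lit 1075060) (nat_lit 718563) (nat_lit 983221) (nat_lit 1075060) (nat_lit 2031797) (nat_lit 330793) (nat_lit 718563) (nat_lit 1379369) (nat_lit 0) (nat_lit 0)) <|
  List.cons (Rec.mk (nat_lit 23) (nat_lit 40) (nat_lit 983221) (nat_lit 330793) (nat_lit 714818) (nat_lit 79592) (nat_lit 714818) (nat_lit 983221) (nat_lit 1763394) (nat_lit 79592) (nat_lit 330793) (nat_lit 1128168) (nat_lit 1) (nat_lit 1)) <|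
  List.cons (Rec.mk (nat_lit 23) (nat_lit 41) (nat_lit 983221) (nat_lit 330793) (nat_lit 587619) (nat_lit 824506) (nat_lit 587619) (nat_lit 983221) (nat_lit 1636195) (nat_lit 330793) (nat_lit 824506) (nat_lit 1379369) (nat_lit 0) (nat_lit 0)) <|
  List.cons (Rec.mk (nat_lit 23) (nat_lit 42) (nat_lit 983221) (nat_lit 330793) (nat_lit 1610715) (nat_lit 53161) (nat_lit 983221) (nat_lit 1610715) (nat_lit 2031797) (nat_lit 53161) (nat_lit 330793) (nat_lit 1101737) (nat_lit 1) (nat_lit 1)) <|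
  List.cons (Rec.mk (nat_lit 23) (nat_lit 43) (nat_lit 983221) (nat_lit 330793) (nat_lit 443596) (nat_lit 733714) (nat_lit 443596) (nat_lit 983221) (nat_lit 1492172) (nat_lit 330793) (nat_lit 733714) (nat_lit 1379369) (nat_lit 0) (nat_lit 1)) <|
  List.cons (Rec.mk (nat_lit 23) (nat_lit 44) (nat_lit 983221) (nat_lit 330793) (nat_lit 797581) (nat_lit 83136) (nat_lit 797581) (nat_lit 983221) (nat_lit 1846157) (nat_lit 83136) (nat_lit 330793) (nat_lit 1131712) (nat_lit 1) (nat_lit 0)) <|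
  List.cons (Rec.mk (nat_lit 23) (nat_lit 45) (nat_lit 983221) (nat_lit 330793) (nat_lit 687375) (nat_lit 777397) (nat_lit 687375) (nat_lit 983221) (nat_lit 1735951) (nat_lit 330793) (nat_lit 777397) (nat_lit 1379369) (nat_lit 0) (nat_lit 1)) <|
  List.cons (Rec.mk (nat_lit 23) (nat_lit 46) (nat_lit 983221) (nat_lit 330793) (nat_lit 1396838) (nat_lit 227533) (nat_lit 983221) (nat_lit 1396838) (nat_lit 2031797) (nat_lit 227533) (nat_lit 330793) (nat_lit 1276109) (nat_lit 1) (nat_lit 0)) <|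
  List.cons (Rec.mk (nat_lit 23) (nat_lit 47) (nat_lit 983221) (nat_lit 330793) (nat_lit 1257754) (nat_lit 549030) (nat_lit 983221) (nat_lit 1257754) (nat_lit 2031797) (nat_lit 330793) (nat_lit 549030) (nat_lit 1379369) (nat_lit 0) (nat_lit 0)) <|
  List.cons (Rec.mk (nat_lit 23) (nat_lit 48) (nat_lit 983221) (nat_lit 330793) (nat_lit 949236) (nat_lit 374610) (nat_lit 949236) (nat_lit 983221) (nat_lit 1997812) (nat_lit 330793) (nat_lit 374610) (nat_lit 1379369) (nat_lit 0) (nat_lit 1)) <|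
  List.cons (Rec.mk (nat_lit 23) (nat_lit 49) (nat_lit 983221) (nat_lit 330793) (nat_lit 662814) (nat_lit 807520) (nat_lit 662814) (nat_lit 983221) (nat_lit 1711390) (nat_lit 330793) (nat_lit 807520) (nat_lit 1379369) (nat_lit 0) (nat_lit 1)) <|
  List.cons (Rec.mk (nat_lit 23) (nat_lit 50) (nat_lit 983221) (nat_lit 330793) (nat_lit 1365792) (nat_lit 502786) (nat_lit 983221) (nat_lit 1365792) (nat_lit 2031797) (nat_lit 330793) (nat_lit 502786) (nat_lit 1379369) (nat_lit 1) (nat_lit 0)) <|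
  List.cons (Rec.mk (nat_lit 23) (nat_lit 51) (nat_lit 983221) (nat_lit 330793) (nat_lit 1317338) (nat_lit 231467) (nat_lit 983221) (nat_lit 1317338) (nat_lit 2031797) (nat_lit 231467) (nat_lit 330793) (nat_lit 1280043) (nat_lit 1) (nat_lit 1)) <|
  E26

def E24 : List Rec :=
  List.cons (Rec.mk (nat_lit 21) (nat_lit 37) (nat_lit 918775) (nat_lit 1488732) (nat_lit 981851) (nat_lit 976656) (nat_lit 918775) (nat_lit 981851) (nat_lit 1967351) (nat_lit 976656) (nat_lit 1488732) (nat_lit 2025232) (nat_lit 0) (nat_lit 1)) <|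
  List.cons (Rec.mk (nat_lit 21) (nat_lit 38) (nat_lit 918775) (nat_lit 440156) (nat_lit 712533) (nat_lit 337991) (nat_lit 712533) (nat_lit 918775) (nat_lit 1761109) (nat_lit 337991) (nat_lit 440156) (nat_lit 1386567) (nat_lit 0) (nat_lit 1)) <|
  List.cons (Rec.mk (nat_lit 21) (nat_lit 39) (nat_lit 918775) (nat_lit 440156) (nat_lit 1075060) (nat_lit 718563) (nat_lit 918775) (nat_lit 1075060) (nat_lit 1967351) (nat_lit 440156) (nat_lit 718563) (nat_lit 1488732) (nat_lit 1) (nat_lit 0)) <|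
  List.cons (Rec.mk (nat_lit 21) (nat_lit 40) (nat_lit 918775) (nat_lit 440156) (nat_lit 714818) (nat_lit 79592) (nat_lit 714818) (nat_lit 918775) (nat_lit 1763394) (nat_lit 79592) (nat_lit 440156) (nat_lit 1128168) (nat_lit 0) (nat_lit 1)) <|
  List.cons (Rec.mk (nat_lit 21) (nat_lit 41) (nat_lit 918775) (nat_lit 440156) (nat_lit 587619) (nat_lit 824506) (nat_lit 587619) (nat_lit 918775) (nat_lit 1636195) (nat_lit 440156) (nat_lit 824506) (nat_lit 1488732) (nat_lit 1) (nat_lit 0)) <|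
  List.cons (Rec.mk (nat_lit 21) (nat_lit 42) (nat_lit 918775) (nat_lit 440156) (nat_lit 562139) (nat_lit 1101737) (nat_lit 562139) (nat_lit 918775) (nat_lit 1610715) (nat_lit 440156) (nat_lit 1101737) (nat_lit 1488732) (nat_lit 1) (nat_lit 0)) <|
  List.cons (Rec.mk (nat_lit 21) (nat_lit 43) (nat_lit 918775) (nat_lit 440156) (nat_lit 443596) (nat_lit 733714) (nat_lit 443596) (nat_lit 918775) (nat_lit 1492172) (nat_lit 440156) (nat_lit 733714) (nat_lit 1488732) (nat_lit 1) (nat_lit 1)) <|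
  List.cons (Rec.mk (nat_lit 21) (nat_lit 44) (nat_lit 918775) (nat_lit 440156) (nat_lit 797581) (nat_lit 83136) (nat_lit 797581) (nat_lit 918775) (nat_lit 1846157) (nat_lit 83136) (nat_lit 440156) (nat_lit 1131712) (nat_lit 0) (nat_lit 0)) <|
  List.cons (Rec.mk (nat_lit 21) (nat_lit 45) (nat_lit 918775) (nat_lit 440156) (nat_lit 687375) (nat_lit 777397) (nat_lit 687375) (nat_lit 918775) (nat_lit 1735951) (nat_lit 440156) (nat_lit 777397) (nat_lit 1488732) (nat_lit 1) (nat_lit 1)) <|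
  List.cons (Rec.mk (nat_lit 21) (nat_lit 46) (nat_lit 918775) (nat_lit 440156) (nat_lit 1396838) (nat_lit 227533) (nat_lit 918775) (nat_lit 1396838) (nat_lit 1967351) (nat_lit 227533) (nat_lit 440156) (nat_lit 1276109) (nat_lit 0) (nat_lit 0)) <|
  List.cons (Rec.mk (nat_lit 21) (nat_lit 47) (nat_lit 918775) (nat_lit 440156) (nat_lit 1257754) (nat_lit 549030) (nat_lit 918775) (nat_lit 1257754) (nat_lit 1967351) (nat_lit 440156) (nat_lit 549030) (nat_lit 1488732) (nat_lit 1) (nat_lit 1)) <|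
  List.cons (Rec.mk (nat_lit 21) (nat_lit 48) (nat_lit 918775) (nat_lit 440156) (nat_lit 949236) (nat_lit 374610) (nat_lit 918775) (nat_lit 949236) (nat_lit 1967351) (nat_lit 374610) (nat_lit 440156) (nat_lit 1423186) (nat_lit 0) (nat_lit 0)) <|
  List.cons (Rec.mk (nat_lit 21) (nat_lit 49) (nat_lit 918775) (nat_lit 440156) (nat_lit 662814) (nat_lit 807520) (nat_lit 662814) (nat_lit 918775) (nat_lit 1711390) (nat_lit 440156) (nat_lit 807520) (nat_lit 1488732) (nat_lit 1) (nat_lit 1)) <|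
  List.cons (Rec.mk (nat_lit 21) (nat_lit 50) (nat_lit 918775) (nat_lit 440156) (nat_lit 1365792) (nat_lit 502786) (nat_lit 918775) (nat_lit 1365792) (nat_lit 1967351) (nat_lit 440156) (nat_lit 502786) (nat_lit 1488732) (nat_lit 1) (nat_lit 0)) <|
  List.cons (Rec.mk (nat_lit 21) (nat_lit 51) (nat_lit 918775) (nat_lit 440156) (nat_lit 1317338) (nat_lit 231467) (nat_lit 918775) (nat_lit 1317338) (nat_lit 1967351) (nat_lit 231467) (nat_lit 440156) (nat_lit 1280043) (nat_lit 0) (nat_lit 1)) <|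
  List.cons (Rec.mk (nat_lit 21) (nat_lit 52) (nat_lit 918775) (nat_lit 440156) (nat_lit 1316654) (nat_lit 447768) (nat_lit 918775) (nat_lit 1316654) (nat_lit 1967351) (nat_lit 440156) (nat_lit 447768) (nat_lit 1488732) (nat_lit 0) (nat_lit 0)) <|
  List.cons (Rec.mk (nat_lit 21) (nat_lit 53) (nat_lit 918775) (nat_lit 440156) (nat_lit 888048) (nat_lit 578007) (nat_lit 888048) (nat_lit 918775) (nat_lit 1936624) (nat_lit 440156) (nat_lit 578007) (nat_lit 1488732) (nat_lit 1) (nat_lit 1)) <|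
  List.cons (Rec.mk (nat_lit 21) (nat_lit 54) (nat_lit 918775) (nat_lit 440156) (nat_lit 1578594) (nat_lit 84442) (nat_lit 918775) (nat_lit 1578594) (nat_lit 1967351) (nat_lit 84442) (nat_lit 440156) (nat_lit 1133018) (nat_lit 0) (nat_lit 1)) <|
  List.cons (Rec.mk (nat_lit 21) (nat_lit 55) (nat_lit 918775) (nat_lit 440156) (nat_lit 1039209) (nat_lit 675035) (nat_lit 918775) (nat_lit 1039209) (nat_lit 1967351) (nat_lit 440156) (nat_lit 675035) (nat_lit 1488732) (nat_lit 1) (nat_lit 1)) <|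
  List.cons (Rec.mk (nat_lit 22) (nat_lit 23) (nat_lit 1284698) (nat_lit 923345) (nat_lit 983221) (nat_lit 1379369) (nat_lit 983221) (nat_lit 1284698) (nat_lit 2031797) (nat_lit 923345) (nat_lit 1379369) (nat_lit 1971921) (nat_lit 0) (nat_lit 1)) <|
  List.cons (Rec.mk (nat_lit 22) (nat_lit 24) (nat_lit 236122) (nat_lit 923345) (nat_lit 664612) (nat_lit 401726) (nat_lit 236122) (nat_lit 664612) (nat_lit 1284698) (nat_lit 401726) (nat_lit 923345) (nat_lit 1450302) (nat_lit 1) (nat_lit 1)) <|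
  List.cons (Rec.mk (nat_lit 22) (nat_lit 25) (nat_lit 236122) (nat_lit 923345) (nat_lit 508882) (nat_lit 505448) (nat_lit 236122) (nat_lit 508882) (nat_lit 1284698) (nat_lit 505448) (nat_lit 923345) (nat_lit 1554024) (nat_lit 1) (nat_lit 0)) <|
  List.cons (Rec.mk (nat_lit 22) (nat_lit 26) (nat_lit 236122) (nat_lit 923345) (nat_lit 46399) (nat_lit 924342) (nat_lit 46399) (nat_lit 236122) (nat_lit 1094975) (nat_lit 923345) (nat_lit 924342) (nat_lit 1971921) (nat_lit 0) (nat_lit 1)) <|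
  List.cons (Rec.mk (nat_lit 22) (nat_lit 27) (nat_lit 1284698) (nat_lit 923345) (nat_lit 1020255) (nat_lit 940354) (nat_lit 1020255) (nat_lit 1284698) (nat_lit 2068831) (nat_lit 923345) (nat_lit 940354) (nat_lit 1971921) (nat_lit 0) (nat_lit 0)) <|
  List.cons (Rec.mk (nat_lit 22) (nat_lit 28) (nat_lit 236122) (nat_lit 923345) (nat_lit 176086) (nat_lit 1028414) (nat_lit 176086) (nat_lit 236122) (nat_lit 1224662) (nat_lit 923345) (nat_lit 1028414) (nat_lit 1971921) (nat_lit 0) (nat_lit 0)) <|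
  List.cons (Rec.mk (nat_lit 22) (nat_lit 29) (nat_lit 236122) (nat_lit 923345) (nat_lit 132099) (nat_lit 968835) (nat_lit 132099) (nat_lit 236122) (nat_lit 1180675) (nat_lit 923345) (nat_lit 968835) (nat_lit 1971921) (nat_lit 0) (nat_lit 0)) <|
  List.cons (Rec.mk (nat_lit 22) (nat_lit 30) (nat_lit 1284698) (nat_lit 923345) (nat_lit 841806) (nat_lit 1076843) (nat_lit 841806) (nat_lit 1284698) (nat_lit 1890382) (nat_lit 923345) (nat_lit 1076843) (nat_lit 1971921) (nat_lit 0) (nat_lit 1)) <|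
  List.cons (Rec.mk (nat_lit 22) (nat_lit 31) (nat_lit 236122) (nat_lit 923345) (nat_lit 184871) (nat_lit 1245209) (nat_lit 184871) (nat_lit 236122) (nat_lit 1233447) (nat_lit 923345) (nat_lit 1245209) (nat_lit 1971921) (nat_lit 0) (nat_lit 1)) <|
  List.cons (Rec.mk (nat_lit 22) (nat_lit 32) (nat_lit 1284698) (nat_lit 923345) (nat_lit 769851) (nat_lit 1193518) (nat_lit 769851) (nat_lit 1284698) (nat_lit 1818427) (nat_lit 923345) (nat_lit 1193518) (nat_lit 1971921) (nat_lit 0) (nat_lit 0)) <|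
  List.cons (Rec.mk (nat_lit 22) (nat_lit 33) (nat_lit 236122) (nat_lit 923345) (nat_lit 628264) (nat_lit 879843) (nat_lit 236122) (nat_lit 628264) (nat_lit 1284698) (nat_lit 879843) (nat_lit 923345) (nat_lit 1928419) (nat_lit 1) (nat_lit 1)) <|
  List.cons (Rec.mk (nat_lit 22) (nat_lit 34) (nat_lit 236122) (nat_lit 923345) (nat_lit 138066) (nat_lit 1189142) (nat_lit 138066) (nat_lit 236122) (nat_lit 1186642) (nat_lit 923345) (nat_lit 1189142) (nat_lit 1971921) (nat_lit 0) (nat_lit 1)) <|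
  List.cons (Rec.mk (nat_lit 22) (nat_lit 35) (nat_lit 236122) (nat_lit 923345) (nat_lit 401101) (nat_lit 813007) (nat_lit 236122) (nat_lit 401101) (nat_lit 1284698) (nat_lit 813007) (nat_lit 923345) (nat_lit 1861583) (nat_lit 1) (nat_lit 1)) <|
  List.cons (Rec.mk (nat_lit 22) (nat_lit 36) (nat_lit 236122) (nat_lit 923345) (nat_lit 384169) (nat_lit 1225514) (nat_lit 236122) (nat_lit 384169) (nat_lit 1284698) (nat_lit 923345) (nat_lit 1225514) (nat_lit 1971921) (nat_lit 0) (nat_lit 1)) <|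
  List.cons (Rec.mk (nat_lit 22) (nat_lit 37) (nat_lit 1284698) (nat_lit 923345) (nat_lit 981851) (nat_lit 976656) (nat_lit 981851) (nat_lit 1284698) (nat_lit 2030427) (nat_lit 923345) (nat_lit 976656) (nat_lit 1971921) (nat_lit 0) (nat_lit 0)) <|
  List.cons (Rec.mk (nat_lit 22) (nat_lit 38) (nat_lit 1284698) (nat_lit 923345) (nat_lit 712533) (nat_lit 1386567) (nat_lit 712533) (nat_lit 1284698) (nat_lit 1761109) (nat_lit 923345) (nat_lit 1386567) (nat_lit 1971921) (nat_lit 0) (nat_lit 0)) <|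
  List.cons (Rec.mk (nat_lit 22) (nat_lit 39) (nat_lit 236122) (nat_lit 923345) (nat_lit 26484) (nat_lit 718563) (nat_lit 26484) (nat_lit 236122) (nat_lit 1075060) (nat_lit 718563) (nat_lit 923345) (nat_lit 1767139) (nat_lit 1) (nat_lit 1)) <|
  List.cons (Rec.mk (nat_lit 22) (nat_lit 40) (nat_lit 1284698) (nat_lit 923345) (nat_lit 714818) (nat_lit 1128168) (nat_lit 714818) (nat_lit 1284698) (nat_lit 1763394) (nat_lit 923345) (nat_lit 1128168) (nat_lit 1971921) (nat_lit 0) (nat_lit 0)) <|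
  List.cons (Rec.mk (nat_lit 22) (nat_lit 41) (nat_lit 236122) (nat_lit 923345) (nat_lit 587619) (nat_lit 824506) (nat_lit 236122) (nat_lit 587619) (nat_lit 1284698) (nat_lit 824506) (nat_lit 923345) (nat_lit 1873082) (nat_lit 1) (nat_lit 1)) <|
  List.cons (Rec.mk (nat_lit 22) (nat_lit 42) (nat_lit 236122) (nat_lit 923345) (nat_lit 562139) (nat_lit 1101737) (nat_lit 236122) (nat_lit 562139) (nat_lit 1284698) (nat_lit 923345) (nat_lit 1101737) (nat_lit 1971921) (nat_lit 0) (nat_lit 0)) <|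
  List.cons (Rec.mk (nat_lit 22) (nat_lit 43) (nat_lit 236122) (nat_lit 923345) (nat_lit 443596) (nat_lit 733714) (nat_lit 236122) (nat_lit 443596) (nat_lit 1284698) (nat_lit 733714) (nat_lit 923345) (nat_lit 1782290) (nat_lit 1) (nat_lit 0)) <|
  E25

def E23 : List Rec :=
  List.cons (Rec.mk (nat_lit 20) (nat_lit 31) (nat_lit 876318) (nat_lit 381236) (nat_lit 1233447) (nat_lit 196633) (nat_lit 876318) (nat_lit 1233447) (nat_lit 1924894) (nat_lit 196633) (nat_lit 381236) (nat_lit 1245209) (nat_lit 0) (nat_lit 0)) <|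
  List.cons (Rec.mk (nat_lit 20) (nat_lit 32) (nat_lit 876318) (nat_lit 381236) (nat_lit 769851) (nat_lit 144942) (nat_lit 769851) (nat_lit 876318) (nat_lit 1818427) (nat_lit 144942) (nat_lit 381236) (nat_lit 1193518) (nat_lit 0) (nat_lit 1)) <|
  List.cons (Rec.mk (nat_lit 20) (nat_lit 33) (nat_lit 876318) (nat_lit 381236) (nat_lit 628264) (nat_lit 879843) (nat_lit 628264) (nat_lit 876318) (nat_lit 1676840) (nat_lit 381236) (nat_lit 879843) (nat_lit 1429812) (nat_lit 1) (nat_lit 0)) <|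
  List.cons (Rec.mk (nat_lit 20) (nat_lit 34) (nat_lit 876318) (nat_lit 381236) (nat_lit 1186642) (nat_lit 140566) (nat_lit 876318) (nat_lit 1186642) (nat_lit 1924894) (nat_lit 140566) (nat_lit 381236) (nat_lit 1189142) (nat_lit 0) (nat_lit 0)) <|
  List.cons (Rec.mk (nat_lit 20) (nat_lit 35) (nat_lit 876318) (nat_lit 381236) (nat_lit 401101) (nat_lit 813007) (nat_lit 401101) (nat_lit 876318) (nat_lit 1449677) (nat_lit 381236) (nat_lit 813007) (nat_lit 1429812) (nat_lit 1) (nat_lit 0)) <|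
  List.cons (Rec.mk (nat_lit 20) (nat_lit 36) (nat_lit 876318) (nat_lit 381236) (nat_lit 1432745) (nat_lit 176938) (nat_lit 876318) (nat_lit 1432745) (nat_lit 1924894) (nat_lit 176938) (nat_lit 381236) (nat_lit 1225514) (nat_lit 0) (nat_lit 0)) <|
  List.cons (Rec.mk (nat_lit 20) (nat_lit 37) (nat_lit 876318) (nat_lit 1429812) (nat_lit 981851) (nat_lit 976656) (nat_lit 876318) (nat_lit 981851) (nat_lit 1924894) (nat_lit 976656) (nat_lit 1429812) (nat_lit 2025232) (nat_lit 0) (nat_lit 1)) <|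
  List.cons (Rec.mk (nat_lit 20) (nat_lit 38) (nat_lit 876318) (nat_lit 381236) (nat_lit 712533) (nat_lit 337991) (nat_lit 712533) (nat_lit 876318) (nat_lit 1761109) (nat_lit 337991) (nat_lit 381236) (nat_lit 1386567) (nat_lit 1) (nat_lit 1)) <|
  List.cons (Rec.mk (nat_lit 20) (nat_lit 39) (nat_lit 876318) (nat_lit 381236) (nat_lit 1075060) (nat_lit 718563) (nat_lit 876318) (nat_lit 1075060) (nat_lit 1924894) (nat_lit 381236) (nat_lit 718563) (nat_lit 1429812) (nat_lit 1) (nat_lit 0)) <|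
  List.cons (Rec.mk (nat_lit 20) (nat_lit 40) (nat_lit 876318) (nat_lit 381236) (nat_lit 714818) (nat_lit 79592) (nat_lit 714818) (nat_lit 876318) (nat_lit 1763394) (nat_lit 79592) (nat_lit 381236) (nat_lit 1128168) (nat_lit 0) (nat_lit 1)) <|
  List.cons (Rec.mk (nat_lit 20) (nat_lit 41) (nat_lit 876318) (nat_lit 381236) (nat_lit 587619) (nat_lit 824506) (nat_lit 587619) (nat_lit 876318) (nat_lit 1636195) (nat_lit 381236) (nat_lit 824506) (nat_lit 1429812) (nat_lit 1) (nat_lit 0)) <|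
  List.cons (Rec.mk (nat_lit 20) (nat_lit 42) (nat_lit 876318) (nat_lit 381236) (nat_lit 562139) (nat_lit 53161) (nat_lit 562139) (nat_lit 876318) (nat_lit 1610715) (nat_lit 53161) (nat_lit 381236) (nat_lit 1101737) (nat_lit 0) (nat_lit 1)) <|
  List.cons (Rec.mk (nat_lit 20) (nat_lit 43) (nat_lit 876318) (nat_lit 381236) (nat_lit 443596) (nat_lit 733714) (nat_lit 443596) (nat_lit 876318) (nat_lit 1492172) (nat_lit 381236) (nat_lit 733714) (nat_lit 1429812) (nat_lit 1) (nat_lit 1)) <|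
  List.cons (Rec.mk (nat_lit 20) (nat_lit 44) (nat_lit 876318) (nat_lit 381236) (nat_lit 797581) (nat_lit 83136) (nat_lit 797581) (nat_lit 876318) (nat_lit 1846157) (nat_lit 83136) (nat_lit 381236) (nat_lit 1131712) (nat_lit 0) (nat_lit 0)) <|
  List.cons (Rec.mk (nat_lit 20) (nat_lit 45) (nat_lit 876318) (nat_lit 381236) (nat_lit 687375) (nat_lit 777397) (nat_lit 687375) (nat_lit 876318) (nat_lit 1735951) (nat_lit 381236) (nat_lit 777397) (nat_lit 1429812) (nat_lit 1) (nat_lit 1)) <|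
  List.cons (Rec.mk (nat_lit 20) (nat_lit 46) (nat_lit 876318) (nat_lit 381236) (nat_lit 1396838) (nat_lit 227533) (nat_lit 876318) (nat_lit 1396838) (nat_lit 1924894) (nat_lit 227533) (nat_lit 381236) (nat_lit 1276109) (nat_lit 0) (nat_lit 0)) <|
  List.cons (Rec.mk (nat_lit 20) (nat_lit 47) (nat_lit 876318) (nat_lit 381236) (nat_lit 1257754) (nat_lit 549030) (nat_lit 876318) (nat_lit 1257754) (nat_lit 1924894) (nat_lit 381236) (nat_lit 549030) (nat_lit 1429812) (nat_lit 1) (nat_lit 1)) <|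
  List.cons (Rec.mk (nat_lit 20) (nat_lit 48) (nat_lit 876318) (nat_lit 381236) (nat_lit 949236) (nat_lit 374610) (nat_lit 876318) (nat_lit 949236) (nat_lit 1924894) (nat_lit 374610) (nat_lit 381236) (nat_lit 1423186) (nat_lit 0) (nat_lit 0)) <|
  List.cons (Rec.mk (nat_lit 20) (nat_lit 49) (nat_lit 876318) (nat_lit 381236) (nat_lit 662814) (nat_lit 807520) (nat_lit 662814) (nat_lit 876318) (nat_lit 1711390) (nat_lit 381236) (nat_lit 807520) (nat_lit 1429812) (nat_lit 1) (nat_lit 1)) <|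
  List.cons (Rec.mk (nat_lit 20) (nat_lit 50) (nat_lit 876318) (nat_lit 381236) (nat_lit 317216) (nat_lit 502786) (nat_lit 317216) (nat_lit 876318) (nat_lit 1365792) (nat_lit 381236) (nat_lit 502786) (nat_lit 1429812) (nat_lit 1) (nat_lit 0)) <|
  List.cons (Rec.mk (nat_lit 20) (nat_lit 51) (nat_lit 876318) (nat_lit 381236) (nat_lit 1317338) (nat_lit 231467) (nat_lit 876318) (nat_lit 1317338) (nat_lit 1924894) (nat_lit 231467) (nat_lit 381236) (nat_lit 1280043) (nat_lit 0) (nat_lit 1)) <|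
  List.cons (Rec.mk (nat_lit 20) (nat_lit 52) (nat_lit 876318) (nat_lit 381236) (nat_lit 1316654) (nat_lit 447768) (nat_lit 876318) (nat_lit 1316654) (nat_lit 1924894) (nat_lit 381236) (nat_lit 447768) (nat_lit 1429812) (nat_lit 0) (nat_lit 1)) <|
  List.cons (Rec.mk (nat_lit 20) (nat_lit 53) (nat_lit 876318) (nat_lit 381236) (nat_lit 888048) (nat_lit 578007) (nat_lit 876318) (nat_lit 888048) (nat_lit 1924894) (nat_lit 381236) (nat_lit 578007) (nat_lit 1429812) (nat_lit 1) (nat_lit 1)) <|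
  List.cons (Rec.mk (nat_lit 20) (nat_lit 54) (nat_lit 876318) (nat_lit 381236) (nat_lit 530018) (nat_lit 84442) (nat_lit 530018) (nat_lit 876318) (nat_lit 1578594) (nat_lit 84442) (nat_lit 381236) (nat_lit 1133018) (nat_lit 0) (nat_lit 1)) <|
  List.cons (Rec.mk (nat_lit 20) (nat_lit 55) (nat_lit 876318) (nat_lit 381236) (nat_lit 1039209) (nat_lit 675035) (nat_lit 876318) (nat_lit 1039209) (nat_lit 1924894) (nat_lit 381236) (nat_lit 675035) (nat_lit 1429812) (nat_lit 1) (nat_lit 1)) <|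
  List.cons (Rec.mk (nat_lit 21) (nat_lit 22) (nat_lit 918775) (nat_lit 1488732) (nat_lit 1284698) (nat_lit 923345) (nat_lit 918775) (nat_lit 1284698) (nat_lit 1967351) (nat_lit 923345) (nat_lit 1488732) (nat_lit 1971921) (nat_lit 0) (nat_lit 0)) <|
  List.cons (Rec.mk (nat_lit 21) (nat_lit 23) (nat_lit 918775) (nat_lit 440156) (nat_lit 983221) (nat_lit 330793) (nat_lit 918775) (nat_lit 983221) (nat_lit 1967351) (nat_lit 330793) (nat_lit 440156) (nat_lit 1379369) (nat_lit 0) (nat_lit 0)) <|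
  List.cons (Rec.mk (nat_lit 21) (nat_lit 24) (nat_lit 918775) (nat_lit 440156) (nat_lit 664612) (nat_lit 401726) (nat_lit 664612) (nat_lit 918775) (nat_lit 1713188) (nat_lit 401726) (nat_lit 440156) (nat_lit 1450302) (nat_lit 0) (nat_lit 0)) <|
  List.cons (Rec.mk (nat_lit 21) (nat_lit 25) (nat_lit 918775) (nat_lit 440156) (nat_lit 508882) (nat_lit 505448) (nat_lit 508882) (nat_lit 918775) (nat_lit 1557458) (nat_lit 440156) (nat_lit 505448) (nat_lit 1488732) (nat_lit 1) (nat_lit 1)) <|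
  List.cons (Rec.mk (nat_lit 21) (nat_lit 26) (nat_lit 918775) (nat_lit 1488732) (nat_lit 1094975) (nat_lit 924342) (nat_lit 918775) (nat_lit 1094975) (nat_lit 1967351) (nat_lit 924342) (nat_lit 1488732) (nat_lit 1972918) (nat_lit 0) (nat_lit 0)) <|
  List.cons (Rec.mk (nat_lit 21) (nat_lit 27) (nat_lit 918775) (nat_lit 1488732) (nat_lit 1020255) (nat_lit 940354) (nat_lit 918775) (nat_lit 1020255) (nat_lit 1967351) (nat_lit 940354) (nat_lit 1488732) (nat_lit 1988930) (nat_lit 0) (nat_lit 1)) <|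
  List.cons (Rec.mk (nat_lit 21) (nat_lit 28) (nat_lit 918775) (nat_lit 1488732) (nat_lit 1224662) (nat_lit 1028414) (nat_lit 918775) (nat_lit 1224662) (nat_lit 1967351) (nat_lit 1028414) (nat_lit 1488732) (nat_lit 2076990) (nat_lit 0) (nat_lit 1)) <|
  List.cons (Rec.mk (nat_lit 21) (nat_lit 29) (nat_lit 918775) (nat_lit 1488732) (nat_lit 1180675) (nat_lit 968835) (nat_lit 918775) (nat_lit 1180675) (nat_lit 1967351) (nat_lit 968835) (nat_lit 1488732) (nat_lit 2017411) (nat_lit 0) (nat_lit 1)) <|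
  List.cons (Rec.mk (nat_lit 21) (nat_lit 30) (nat_lit 918775) (nat_lit 440156) (nat_lit 841806) (nat_lit 28267) (nat_lit 841806) (nat_lit 918775) (nat_lit 1890382) (nat_lit 28267) (nat_lit 440156) (nat_lit 1076843) (nat_lit 0) (nat_lit 0)) <|
  List.cons (Rec.mk (nat_lit 21) (nat_lit 31) (nat_lit 918775) (nat_lit 440156) (nat_lit 1233447) (nat_lit 196633) (nat_lit 918775) (nat_lit 1233447) (nat_lit 1967351) (nat_lit 196633) (nat_lit 440156) (nat_lit 1245209) (nat_lit 0) (nat_lit 0)) <|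
  List.cons (Rec.mk (nat_lit 21) (nat_lit 32) (nat_lit 918775) (nat_lit 440156) (nat_lit 769851) (nat_lit 144942) (nat_lit 769851) (nat_lit 918775) (nat_lit 1818427) (nat_lit 144942) (nat_lit 440156) (nat_lit 1193518) (nat_lit 0) (nat_lit 1)) <|
  List.cons (Rec.mk (nat_lit 21) (nat_lit 33) (nat_lit 918775) (nat_lit 440156) (nat_lit 628264) (nat_lit 879843) (nat_lit 628264) (nat_lit 918775) (nat_lit 1676840) (nat_lit 440156) (nat_lit 879843) (nat_lit 1488732) (nat_lit 1) (nat_lit 0)) <|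
  List.cons (Rec.mk (nat_lit 21) (nat_lit 34) (nat_lit 918775) (nat_lit 440156) (nat_lit 1186642) (nat_lit 140566) (nat_lit 918775) (nat_lit 1186642) (nat_lit 1967351) (nat_lit 140566) (nat_lit 440156) (nat_lit 1189142) (nat_lit 0) (nat_lit 0)) <|
  List.cons (Rec.mk (nat_lit 21) (nat_lit 35) (nat_lit 918775) (nat_lit 440156) (nat_lit 401101) (nat_lit 813007) (nat_lit 401101) (nat_lit 918775) (nat_lit 1449677) (nat_lit 440156) (nat_lit 813007) (nat_lit 1488732) (nat_lit 1) (nat_lit 0)) <|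
  List.cons (Rec.mk (nat_lit 21) (nat_lit 36) (nat_lit 918775) (nat_lit 440156) (nat_lit 1432745) (nat_lit 176938) (nat_lit 918775) (nat_lit 1432745) (nat_lit 1967351) (nat_lit 176938) (nat_lit 440156) (nat_lit 1225514) (nat_lit 0) (nat_lit 0)) <|
  E24

def E22 : List Rec :=
  List.cons (Rec.mk (nat_lit 19) (nat_lit 26) (nat_lit 821034) (nat_lit 699137) (nat_lit 1094975) (nat_lit 924342) (nat_lit 821034) (nat_lit 1094975) (nat_lit 1869610) (nat_lit 699137) (nat_lit 924342) (nat_lit 1747713) (nat_lit 1) (nat_lit 1)) <|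
  List.cons (Rec.mk (nat_lit 19) (nat_lit 27) (nat_lit 821034) (nat_lit 699137) (nat_lit 1020255) (nat_lit 940354) (nat_lit 821034) (nat_lit 1020255) (nat_lit 1869610) (nat_lit 699137) (nat_lit 940354) (nat_lit 1747713) (nat_lit 1) (nat_lit 0)) <|
  List.cons (Rec.mk (nat_lit 19) (nat_lit 28) (nat_lit 821034) (nat_lit 699137) (nat_lit 176086) (nat_lit 1028414) (nat_lit 176086) (nat_lit 821034) (nat_lit 1224662) (nat_lit 699137) (nat_lit 1028414) (nat_lit 1747713) (nat_lit 1) (nat_lit 0)) <|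
  List.cons (Rec.mk (nat_lit 19) (nat_lit 29) (nat_lit 821034) (nat_lit 699137) (nat_lit 1180675) (nat_lit 968835) (nat_lit 821034) (nat_lit 1180675) (nat_lit 1869610) (nat_lit 699137) (nat_lit 968835) (nat_lit 1747713) (nat_lit 1) (nat_lit 0)) <|
  List.cons (Rec.mk (nat_lit 19) (nat_lit 30) (nat_lit 821034) (nat_lit 699137) (nat_lit 841806) (nat_lit 1076843) (nat_lit 821034) (nat_lit 841806) (nat_lit 1869610) (nat_lit 699137) (nat_lit 1076843) (nat_lit 1747713) (nat_lit 1) (nat_lit 1)) <|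
  List.cons (Rec.mk (nat_lit 19) (nat_lit 31) (nat_lit 821034) (nat_lit 699137) (nat_lit 1233447) (nat_lit 196633) (nat_lit 821034) (nat_lit 1233447) (nat_lit 1869610) (nat_lit 196633) (nat_lit 699137) (nat_lit 1245209) (nat_lit 0) (nat_lit 0)) <|
  List.cons (Rec.mk (nat_lit 19) (nat_lit 32) (nat_lit 821034) (nat_lit 699137) (nat_lit 769851) (nat_lit 1193518) (nat_lit 769851) (nat_lit 821034) (nat_lit 1818427) (nat_lit 699137) (nat_lit 1193518) (nat_lit 1747713) (nat_lit 1) (nat_lit 0)) <|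
  List.cons (Rec.mk (nat_lit 19) (nat_lit 33) (nat_lit 821034) (nat_lit 699137) (nat_lit 628264) (nat_lit 879843) (nat_lit 628264) (nat_lit 821034) (nat_lit 1676840) (nat_lit 699137) (nat_lit 879843) (nat_lit 1747713) (nat_lit 1) (nat_lit 0)) <|
  List.cons (Rec.mk (nat_lit 19) (nat_lit 34) (nat_lit 821034) (nat_lit 699137) (nat_lit 1186642) (nat_lit 140566) (nat_lit 821034) (nat_lit 1186642) (nat_lit 1869610) (nat_lit 140566) (nat_lit 699137) (nat_lit 1189142) (nat_lit 0) (nat_lit 0)) <|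
  List.cons (Rec.mk (nat_lit 19) (nat_lit 35) (nat_lit 821034) (nat_lit 699137) (nat_lit 401101) (nat_lit 813007) (nat_lit 401101) (nat_lit 821034) (nat_lit 1449677) (nat_lit 699137) (nat_lit 813007) (nat_lit 1747713) (nat_lit 1) (nat_lit 0)) <|
  List.cons (Rec.mk (nat_lit 19) (nat_lit 36) (nat_lit 821034) (nat_lit 699137) (nat_lit 384169) (nat_lit 1225514) (nat_lit 384169) (nat_lit 821034) (nat_lit 1432745) (nat_lit 699137) (nat_lit 1225514) (nat_lit 1747713) (nat_lit 1) (nat_lit 1)) <|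
  List.cons (Rec.mk (nat_lit 19) (nat_lit 37) (nat_lit 821034) (nat_lit 699137) (nat_lit 981851) (nat_lit 976656) (nat_lit 821034) (nat_lit 981851) (nat_lit 1869610) (nat_lit 699137) (nat_lit 976656) (nat_lit 1747713) (nat_lit 1) (nat_lit 0)) <|
  List.cons (Rec.mk (nat_lit 19) (nat_lit 38) (nat_lit 821034) (nat_lit 699137) (nat_lit 712533) (nat_lit 337991) (nat_lit 712533) (nat_lit 821034) (nat_lit 1761109) (nat_lit 337991) (nat_lit 699137) (nat_lit 1386567) (nat_lit 0) (nat_lit 1)) <|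
  List.cons (Rec.mk (nat_lit 19) (nat_lit 39) (nat_lit 821034) (nat_lit 699137) (nat_lit 1075060) (nat_lit 718563) (nat_lit 821034) (nat_lit 1075060) (nat_lit 1869610) (nat_lit 699137) (nat_lit 718563) (nat_lit 1747713) (nat_lit 0) (nat_lit 0)) <|
  List.cons (Rec.mk (nat_lit 19) (nat_lit 40) (nat_lit 821034) (nat_lit 699137) (nat_lit 714818) (nat_lit 1128168) (nat_lit 714818) (nat_lit 821034) (nat_lit 1763394) (nat_lit 699137) (nat_lit 1128168) (nat_lit 1747713) (nat_lit 1) (nat_lit 0)) <|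
  List.cons (Rec.mk (nat_lit 19) (nat_lit 41) (nat_lit 821034) (nat_lit 699137) (nat_lit 587619) (nat_lit 824506) (nat_lit 587619) (nat_lit 821034) (nat_lit 1636195) (nat_lit 699137) (nat_lit 824506) (nat_lit 1747713) (nat_lit 1) (nat_lit 0)) <|
  List.cons (Rec.mk (nat_lit 19) (nat_lit 42) (nat_lit 821034) (nat_lit 699137) (nat_lit 562139) (nat_lit 1101737) (nat_lit 562139) (nat_lit 821034) (nat_lit 1610715) (nat_lit 699137) (nat_lit 1101737) (nat_lit 1747713) (nat_lit 1) (nat_lit 0)) <|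
  List.cons (Rec.mk (nat_lit 19) (nat_lit 43) (nat_lit 821034) (nat_lit 699137) (nat_lit 443596) (nat_lit 733714) (nat_lit 443596) (nat_lit 821034) (nat_lit 1492172) (nat_lit 699137) (nat_lit 733714) (nat_lit 1747713) (nat_lit 1) (nat_lit 1)) <|
  List.cons (Rec.mk (nat_lit 19) (nat_lit 44) (nat_lit 821034) (nat_lit 699137) (nat_lit 797581) (nat_lit 1131712) (nat_lit 797581) (nat_lit 821034) (nat_lit 1846157) (nat_lit 699137) (nat_lit 1131712) (nat_lit 1747713) (nat_lit 1) (nat_lit 1)) <|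
  List.cons (Rec.mk (nat_lit 19) (nat_lit 45) (nat_lit 821034) (nat_lit 699137) (nat_lit 687375) (nat_lit 777397) (nat_lit 687375) (nat_lit 821034) (nat_lit 1735951) (nat_lit 699137) (nat_lit 777397) (nat_lit 1747713) (nat_lit 1) (nat_lit 1)) <|
  List.cons (Rec.mk (nat_lit 19) (nat_lit 46) (nat_lit 821034) (nat_lit 699137) (nat_lit 1396838) (nat_lit 227533) (nat_lit 821034) (nat_lit 1396838) (nat_lit 1869610) (nat_lit 227533) (nat_lit 699137) (nat_lit 1276109) (nat_lit 0) (nat_lit 0)) <|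
  List.cons (Rec.mk (nat_lit 19) (nat_lit 47) (nat_lit 821034) (nat_lit 699137) (nat_lit 1257754) (nat_lit 549030) (nat_lit 821034) (nat_lit 1257754) (nat_lit 1869610) (nat_lit 549030) (nat_lit 699137) (nat_lit 1597606) (nat_lit 0) (nat_lit 1)) <|
  List.cons (Rec.mk (nat_lit 19) (nat_lit 48) (nat_lit 821034) (nat_lit 699137) (nat_lit 949236) (nat_lit 374610) (nat_lit 821034) (nat_lit 949236) (nat_lit 1869610) (nat_lit 374610) (nat_lit 699137) (nat_lit 1423186) (nat_lit 0) (nat_lit 0)) <|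
  List.cons (Rec.mk (nat_lit 19) (nat_lit 49) (nat_lit 821034) (nat_lit 699137) (nat_lit 662814) (nat_lit 807520) (nat_lit 662814) (nat_lit 821034) (nat_lit 1711390) (nat_lit 699137) (nat_lit 807520) (nat_lit 1747713) (nat_lit 1) (nat_lit 1)) <|
  List.cons (Rec.mk (nat_lit 19) (nat_lit 50) (nat_lit 821034) (nat_lit 699137) (nat_lit 1365792) (nat_lit 502786) (nat_lit 821034) (nat_lit 1365792) (nat_lit 1869610) (nat_lit 502786) (nat_lit 699137) (nat_lit 1551362) (nat_lit 0) (nat_lit 1)) <|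
  List.cons (Rec.mk (nat_lit 19) (nat_lit 51) (nat_lit 821034) (nat_lit 699137) (nat_lit 1317338) (nat_lit 231467) (nat_lit 821034) (nat_lit 1317338) (nat_lit 1869610) (nat_lit 231467) (nat_lit 699137) (nat_lit 1280043) (nat_lit 0) (nat_lit 1)) <|
  List.cons (Rec.mk (nat_lit 19) (nat_lit 52) (nat_lit 821034) (nat_lit 699137) (nat_lit 1316654) (nat_lit 447768) (nat_lit 821034) (nat_lit 1316654) (nat_lit 1869610) (nat_lit 447768) (nat_lit 699137) (nat_lit 1496344) (nat_lit 0) (nat_lit 0)) <|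
  List.cons (Rec.mk (nat_lit 19) (nat_lit 53) (nat_lit 821034) (nat_lit 699137) (nat_lit 888048) (nat_lit 578007) (nat_lit 821034) (nat_lit 888048) (nat_lit 1869610) (nat_lit 578007) (nat_lit 699137) (nat_lit 1626583) (nat_lit 0) (nat_lit 0)) <|
  List.cons (Rec.mk (nat_lit 19) (nat_lit 54) (nat_lit 821034) (nat_lit 699137) (nat_lit 530018) (nat_lit 1133018) (nat_lit 530018) (nat_lit 821034) (nat_lit 1578594) (nat_lit 699137) (nat_lit 1133018) (nat_lit 1747713) (nat_lit 1) (nat_lit 0)) <|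
  List.cons (Rec.mk (nat_lit 19) (nat_lit 55) (nat_lit 821034) (nat_lit 699137) (nat_lit 1039209) (nat_lit 675035) (nat_lit 821034) (nat_lit 1039209) (nat_lit 1869610) (nat_lit 675035) (nat_lit 699137) (nat_lit 1723611) (nat_lit 0) (nat_lit 0)) <|
  List.cons (Rec.mk (nat_lit 20) (nat_lit 21) (nat_lit 876318) (nat_lit 381236) (nat_lit 918775) (nat_lit 440156) (nat_lit 876318) (nat_lit 918775) (nat_lit 1924894) (nat_lit 381236) (nat_lit 440156) (nat_lit 1429812) (nat_lit 1) (nat_lit 0)) <|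
  List.cons (Rec.mk (nat_lit 20) (nat_lit 22) (nat_lit 876318) (nat_lit 1429812) (nat_lit 1284698) (nat_lit 923345) (nat_lit 876318) (nat_lit 1284698) (nat_lit 1924894) (nat_lit 923345) (nat_lit 1429812) (nat_lit 1971921) (nat_lit 0) (nat_lit 0)) <|
  List.cons (Rec.mk (nat_lit 20) (nat_lit 23) (nat_lit 876318) (nat_lit 381236) (nat_lit 983221) (nat_lit 330793) (nat_lit 876318) (nat_lit 983221) (nat_lit 1924894) (nat_lit 330793) (nat_lit 381236) (nat_lit 1379369) (nat_lit 0) (nat_lit 0)) <|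
  List.cons (Rec.mk (nat_lit 20) (nat_lit 24) (nat_lit 876318) (nat_lit 381236) (nat_lit 664612) (nat_lit 401726) (nat_lit 664612) (nat_lit 876318) (nat_lit 1713188) (nat_lit 381236) (nat_lit 401726) (nat_lit 1429812) (nat_lit 1) (nat_lit 0)) <|
  List.cons (Rec.mk (nat_lit 20) (nat_lit 25) (nat_lit 876318) (nat_lit 381236) (nat_lit 508882) (nat_lit 505448) (nat_lit 508882) (nat_lit 876318) (nat_lit 1557458) (nat_lit 381236) (nat_lit 505448) (nat_lit 1429812) (nat_lit 1) (nat_lit 1)) <|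
  List.cons (Rec.mk (nat_lit 20) (nat_lit 26) (nat_lit 876318) (nat_lit 1429812) (nat_lit 1094975) (nat_lit 924342) (nat_lit 876318) (nat_lit 1094975) (nat_lit 1924894) (nat_lit 924342) (nat_lit 1429812) (nat_lit 1972918) (nat_lit 0) (nat_lit 0)) <|
  List.cons (Rec.mk (nat_lit 20) (nat_lit 27) (nat_lit 876318) (nat_lit 1429812) (nat_lit 1020255) (nat_lit 940354) (nat_lit 876318) (nat_lit 1020255) (nat_lit 1924894) (nat_lit 940354) (nat_lit 1429812) (nat_lit 1988930) (nat_lit 0) (nat_lit 1)) <|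
  List.cons (Rec.mk (nat_lit 20) (nat_lit 28) (nat_lit 876318) (nat_lit 1429812) (nat_lit 1224662) (nat_lit 1028414) (nat_lit 876318) (nat_lit 1224662) (nat_lit 1924894) (nat_lit 1028414) (nat_lit 1429812) (nat_lit 2076990) (nat_lit 0) (nat_lit 1)) <|
  List.cons (Rec.mk (nat_lit 20) (nat_lit 29) (nat_lit 876318) (nat_lit 1429812) (nat_lit 1180675) (nat_lit 968835) (nat_lit 876318) (nat_lit 1180675) (nat_lit 1924894) (nat_lit 968835) (nat_lit 1429812) (nat_lit 2017411) (nat_lit 0) (nat_lit 1)) <|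
  List.cons (Rec.mk (nat_lit 20) (nat_lit 30) (nat_lit 876318) (nat_lit 381236) (nat_lit 841806) (nat_lit 28267) (nat_lit 841806) (nat_lit 876318) (nat_lit 1890382) (nat_lit 28267) (nat_lit 381236) (nat_lit 1076843) (nat_lit 0) (nat_lit 0)) <|
  E23

def E21 : List Rec :=
  List.cons (Rec.mk (nat_lit 18) (nat_lit 22) (nat_lit 314895) (nat_lit 1346563) (nat_lit 236122) (nat_lit 923345) (nat_lit 236122) (nat_lit 314895) (nat_lit 1284698) (nat_lit 923345) (nat_lit 1346563) (nat_lit 1971921) (nat_lit 0) (nat_lit 0)) <|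
  List.cons (Rec.mk (nat_lit 18) (nat_lit 23) (nat_lit 1363471) (nat_lit 297987) (nat_lit 983221) (nat_lit 330793) (nat_lit 983221) (nat_lit 1363471) (nat_lit 2031797) (nat_lit 297987) (nat_lit 330793) (nat_lit 1346563) (nat_lit 1) (nat_lit 1)) <|
  List.cons (Rec.mk (nat_lit 18) (nat_lit 24) (nat_lit 314895) (nat_lit 297987) (nat_lit 664612) (nat_lit 401726) (nat_lit 314895) (nat_lit 664612) (nat_lit 1363471) (nat_lit 297987) (nat_lit 401726) (nat_lit 1346563) (nat_lit 0) (nat_lit 1)) <|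
  List.cons (Rec.mk (nat_lit 18) (nat_lit 25) (nat_lit 314895) (nat_lit 297987) (nat_lit 508882) (nat_lit 505448) (nat_lit 314895) (nat_lit 508882) (nat_lit 1363471) (nat_lit 297987) (nat_lit 505448) (nat_lit 1346563) (nat_lit 1) (nat_lit 1)) <|
  List.cons (Rec.mk (nat_lit 18) (nat_lit 26) (nat_lit 314895) (nat_lit 297987) (nat_lit 46399) (nat_lit 924342) (nat_lit 46399) (nat_lit 314895) (nat_lit 1094975) (nat_lit 297987) (nat_lit 924342) (nat_lit 1346563) (nat_lit 1) (nat_lit 1)) <|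
  List.cons (Rec.mk (nat_lit 18) (nat_lit 27) (nat_lit 1363471) (nat_lit 297987) (nat_lit 1020255) (nat_lit 940354) (nat_lit 1020255) (nat_lit 1363471) (nat_lit 2068831) (nat_lit 297987) (nat_lit 940354) (nat_lit 1346563) (nat_lit 1) (nat_lit 0)) <|
  List.cons (Rec.mk (nat_lit 18) (nat_lit 28) (nat_lit 314895) (nat_lit 1346563) (nat_lit 176086) (nat_lit 1028414) (nat_lit 176086) (nat_lit 314895) (nat_lit 1224662) (nat_lit 1028414) (nat_lit 1346563) (nat_lit 2076990) (nat_lit 0) (nat_lit 1)) <|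
  List.cons (Rec.mk (nat_lit 18) (nat_lit 29) (nat_lit 314895) (nat_lit 1346563) (nat_lit 132099) (nat_lit 968835) (nat_lit 132099) (nat_lit 314895) (nat_lit 1180675) (nat_lit 968835) (nat_lit 1346563) (nat_lit 2017411) (nat_lit 0) (nat_lit 1)) <|
  List.cons (Rec.mk (nat_lit 18) (nat_lit 30) (nat_lit 314895) (nat_lit 297987) (nat_lit 841806) (nat_lit 28267) (nat_lit 314895) (nat_lit 841806) (nat_lit 1363471) (nat_lit 28267) (nat_lit 297987) (nat_lit 1076843) (nat_lit 0) (nat_lit 0)) <|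
  List.cons (Rec.mk (nat_lit 18) (nat_lit 31) (nat_lit 314895) (nat_lit 297987) (nat_lit 184871) (nat_lit 196633) (nat_lit 184871) (nat_lit 314895) (nat_lit 1233447) (nat_lit 196633) (nat_lit 297987) (nat_lit 1245209) (nat_lit 1) (nat_lit 0)) <|
  List.cons (Rec.mk (nat_lit 18) (nat_lit 32) (nat_lit 314895) (nat_lit 297987) (nat_lit 769851) (nat_lit 144942) (nat_lit 314895) (nat_lit 769851) (nat_lit 1363471) (nat_lit 144942) (nat_lit 297987) (nat_lit 1193518) (nat_lit 0) (nat_lit 1)) <|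
  List.cons (Rec.mk (nat_lit 18) (nat_lit 33) (nat_lit 314895) (nat_lit 1346563) (nat_lit 628264) (nat_lit 879843) (nat_lit 314895) (nat_lit 628264) (nat_lit 1363471) (nat_lit 879843) (nat_lit 1346563) (nat_lit 1928419) (nat_lit 0) (nat_lit 1)) <|
  List.cons (Rec.mk (nat_lit 18) (nat_lit 34) (nat_lit 314895) (nat_lit 297987) (nat_lit 138066) (nat_lit 140566) (nat_lit 138066) (nat_lit 314895) (nat_lit 1186642) (nat_lit 140566) (nat_lit 297987) (nat_lit 1189142) (nat_lit 0) (nat_lit 0)) <|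
  List.cons (Rec.mk (nat_lit 18) (nat_lit 35) (nat_lit 314895) (nat_lit 1346563) (nat_lit 401101) (nat_lit 813007) (nat_lit 314895) (nat_lit 401101) (nat_lit 1363471) (nat_lit 813007) (nat_lit 1346563) (nat_lit 1861583) (nat_lit 0) (nat_lit 1)) <|
  List.cons (Rec.mk (nat_lit 18) (nat_lit 36) (nat_lit 314895) (nat_lit 297987) (nat_lit 384169) (nat_lit 176938) (nat_lit 314895) (nat_lit 384169) (nat_lit 1363471) (nat_lit 176938) (nat_lit 297987) (nat_lit 1225514) (nat_lit 0) (nat_lit 0)) <|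
  List.cons (Rec.mk (nat_lit 18) (nat_lit 37) (nat_lit 314895) (nat_lit 1346563) (nat_lit 981851) (nat_lit 976656) (nat_lit 314895) (nat_lit 981851) (nat_lit 1363471) (nat_lit 976656) (nat_lit 1346563) (nat_lit 2025232) (nat_lit 0) (nat_lit 1)) <|
  List.cons (Rec.mk (nat_lit 18) (nat_lit 38) (nat_lit 314895) (nat_lit 297987) (nat_lit 712533) (nat_lit 337991) (nat_lit 314895) (nat_lit 712533) (nat_lit 1363471) (nat_lit 297987) (nat_lit 337991) (nat_lit 1346563) (nat_lit 0) (nat_lit 0)) <|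
  List.cons (Rec.mk (nat_lit 18) (nat_lit 39) (nat_lit 314895) (nat_lit 297987) (nat_lit 26484) (nat_lit 718563) (nat_lit 26484) (nat_lit 314895) (nat_lit 1075060) (nat_lit 297987) (nat_lit 718563) (nat_lit 1346563) (nat_lit 1) (nat_lit 0)) <|
  List.cons (Rec.mk (nat_lit 18) (nat_lit 40) (nat_lit 314895) (nat_lit 297987) (nat_lit 714818) (nat_lit 79592) (nat_lit 314895) (nat_lit 714818) (nat_lit 1363471) (nat_lit 79592) (nat_lit 297987) (nat_lit 1128168) (nat_lit 0) (nat_lit 1)) <|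
  List.cons (Rec.mk (nat_lit 18) (nat_lit 41) (nat_lit 314895) (nat_lit 1346563) (nat_lit 587619) (nat_lit 824506) (nat_lit 314895) (nat_lit 587619) (nat_lit 1363471) (nat_lit 824506) (nat_lit 1346563) (nat_lit 1873082) (nat_lit 0) (nat_lit 1)) <|
  List.cons (Rec.mk (nat_lit 18) (nat_lit 42) (nat_lit 314895) (nat_lit 297987) (nat_lit 562139) (nat_lit 53161) (nat_lit 314895) (nat_lit 562139) (nat_lit 1363471) (nat_lit 53161) (nat_lit 297987) (nat_lit 1101737) (nat_lit 0) (nat_lit 1)) <|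
  List.cons (Rec.mk (nat_lit 18) (nat_lit 43) (nat_lit 314895) (nat_lit 297987) (nat_lit 443596) (nat_lit 733714) (nat_lit 314895) (nat_lit 443596) (nat_lit 1363471) (nat_lit 297987) (nat_lit 733714) (nat_lit 1346563) (nat_lit 1) (nat_lit 1)) <|
  List.cons (Rec.mk (nat_lit 18) (nat_lit 44) (nat_lit 314895) (nat_lit 297987) (nat_lit 797581) (nat_lit 83136) (nat_lit 314895) (nat_lit 797581) (nat_lit 1363471) (nat_lit 83136) (nat_lit 297987) (nat_lit 1131712) (nat_lit 0) (nat_lit 0)) <|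
  List.cons (Rec.mk (nat_lit 18) (nat_lit 45) (nat_lit 314895) (nat_lit 1346563) (nat_lit 687375) (nat_lit 777397) (nat_lit 314895) (nat_lit 687375) (nat_lit 1363471) (nat_lit 777397) (nat_lit 1346563) (nat_lit 1825973) (nat_lit 0) (nat_lit 0)) <|
  List.cons (Rec.mk (nat_lit 18) (nat_lit 46) (nat_lit 314895) (nat_lit 297987) (nat_lit 348262) (nat_lit 227533) (nat_lit 314895) (nat_lit 348262) (nat_lit 1363471) (nat_lit 227533) (nat_lit 297987) (nat_lit 1276109) (nat_lit 0) (nat_lit 0)) <|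
  List.cons (Rec.mk (nat_lit 18) (nat_lit 47) (nat_lit 314895) (nat_lit 297987) (nat_lit 209178) (nat_lit 549030) (nat_lit 209178) (nat_lit 314895) (nat_lit 1257754) (nat_lit 297987) (nat_lit 549030) (nat_lit 1346563) (nat_lit 1) (nat_lit 0)) <|
  List.cons (Rec.mk (nat_lit 18) (nat_lit 48) (nat_lit 1363471) (nat_lit 297987) (nat_lit 949236) (nat_lit 374610) (nat_lit 949236) (nat_lit 1363471) (nat_lit 1997812) (nat_lit 297987) (nat_lit 374610) (nat_lit 1346563) (nat_lit 1) (nat_lit 1)) <|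
  List.cons (Rec.mk (nat_lit 18) (nat_lit 49) (nat_lit 314895) (nat_lit 1346563) (nat_lit 662814) (nat_lit 807520) (nat_lit 314895) (nat_lit 662814) (nat_lit 1363471) (nat_lit 807520) (nat_lit 1346563) (nat_lit 1856096) (nat_lit 0) (nat_lit 0)) <|
  List.cons (Rec.mk (nat_lit 18) (nat_lit 50) (nat_lit 314895) (nat_lit 297987) (nat_lit 317216) (nat_lit 502786) (nat_lit 314895) (nat_lit 317216) (nat_lit 1363471) (nat_lit 297987) (nat_lit 502786) (nat_lit 1346563) (nat_lit 1) (nat_lit 0)) <|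
  List.cons (Rec.mk (nat_lit 18) (nat_lit 51) (nat_lit 314895) (nat_lit 297987) (nat_lit 268762) (nat_lit 231467) (nat_lit 268762) (nat_lit 314895) (nat_lit 1317338) (nat_lit 231467) (nat_lit 297987) (nat_lit 1280043) (nat_lit 0) (nat_lit 1)) <|
  List.cons (Rec.mk (nat_lit 18) (nat_lit 52) (nat_lit 314895) (nat_lit 297987) (nat_lit 268078) (nat_lit 447768) (nat_lit 268078) (nat_lit 314895) (nat_lit 1316654) (nat_lit 297987) (nat_lit 447768) (nat_lit 1346563) (nat_lit 1) (nat_lit 1)) <|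
  List.cons (Rec.mk (nat_lit 18) (nat_lit 53) (nat_lit 1363471) (nat_lit 297987) (nat_lit 888048) (nat_lit 578007) (nat_lit 888048) (nat_lit 1363471) (nat_lit 1936624) (nat_lit 297987) (nat_lit 578007) (nat_lit 1346563) (nat_lit 1) (nat_lit 1)) <|
  List.cons (Rec.mk (nat_lit 18) (nat_lit 54) (nat_lit 314895) (nat_lit 297987) (nat_lit 530018) (nat_lit 84442) (nat_lit 314895) (nat_lit 530018) (nat_lit 1363471) (nat_lit 84442) (nat_lit 297987) (nat_lit 1133018) (nat_lit 0) (nat_lit 1)) <|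
  List.cons (Rec.mk (nat_lit 18) (nat_lit 55) (nat_lit 1363471) (nat_lit 297987) (nat_lit 1039209) (nat_lit 675035) (nat_lit 1039209) (nat_lit 1363471) (nat_lit 2087785) (nat_lit 297987) (nat_lit 675035) (nat_lit 1346563) (nat_lit 1) (nat_lit 1)) <|
  List.cons (Rec.mk (nat_lit 19) (nat_lit 20) (nat_lit 821034) (nat_lit 699137) (nat_lit 876318) (nat_lit 381236) (nat_lit 821034) (nat_lit 876318) (nat_lit 1869610) (nat_lit 381236) (nat_lit 699137) (nat_lit 1429812) (nat_lit 0) (nat_lit 1)) <|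
  List.cons (Rec.mk (nat_lit 19) (nat_lit 21) (nat_lit 821034) (nat_lit 699137) (nat_lit 918775) (nat_lit 440156) (nat_lit 821034) (nat_lit 918775) (nat_lit 1869610) (nat_lit 440156) (nat_lit 699137) (nat_lit 1488732) (nat_lit 0) (nat_lit 1)) <|
  List.cons (Rec.mk (nat_lit 19) (nat_lit 22) (nat_lit 821034) (nat_lit 699137) (nat_lit 236122) (nat_lit 923345) (nat_lit 236122) (nat_lit 821034) (nat_lit 1284698) (nat_lit 699137) (nat_lit 923345) (nat_lit 1747713) (nat_lit 1) (nat_lit 1)) <|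
  List.cons (Rec.mk (nat_lit 19) (nat_lit 23) (nat_lit 821034) (nat_lit 699137) (nat_lit 983221) (nat_lit 330793) (nat_lit 821034) (nat_lit 983221) (nat_lit 1869610) (nat_lit 330793) (nat_lit 699137) (nat_lit 1379369) (nat_lit 0) (nat_lit 0)) <|
  List.cons (Rec.mk (nat_lit 19) (nat_lit 24) (nat_lit 821034) (nat_lit 699137) (nat_lit 664612) (nat_lit 401726) (nat_lit 664612) (nat_lit 821034) (nat_lit 1713188) (nat_lit 401726) (nat_lit 699137) (nat_lit 1450302) (nat_lit 0) (nat_lit 1)) <|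
  List.cons (Rec.mk (nat_lit 19) (nat_lit 25) (nat_lit 821034) (nat_lit 699137) (nat_lit 508882) (nat_lit 505448) (nat_lit 508882) (nat_lit 821034) (nat_lit 1557458) (nat_lit 505448) (nat_lit 699137) (nat_lit 1554024) (nat_lit 0) (nat_lit 0)) <|
  E22

def E20 : List Rec :=
  List.cons (Rec.mk (nat_lit 17) (nat_lit 19) (nat_lit 457741) (nat_lit 585975) (nat_lit 821034) (nat_lit 699137) (nat_lit 457741) (nat_lit 821034) (nat_lit 1506317) (nat_lit 585975) (nat_lit 699137) (nat_lit 1634551) (nat_lit 1) (nat_lit 1)) <|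
  List.cons (Rec.mk (nat_lit 17) (nat_lit 20) (nat_lit 457741) (nat_lit 585975) (nat_lit 876318) (nat_lit 381236) (nat_lit 457741) (nat_lit 876318) (nat_lit 1506317) (nat_lit 381236) (nat_lit 585975) (nat_lit 1429812) (nat_lit 0) (nat_lit 1)) <|
  List.cons (Rec.mk (nat_lit 17) (nat_lit 21) (nat_lit 457741) (nat_lit 585975) (nat_lit 918775) (nat_lit 440156) (nat_lit 457741) (nat_lit 918775) (nat_lit 1506317) (nat_lit 440156) (nat_lit 585975) (nat_lit 1488732) (nat_lit 0) (nat_lit 1)) <|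
  List.cons (Rec.mk (nat_lit 17) (nat_lit 22) (nat_lit 457741) (nat_lit 585975) (nat_lit 236122) (nat_lit 923345) (nat_lit 236122) (nat_lit 457741) (nat_lit 1284698) (nat_lit 585975) (nat_lit 923345) (nat_lit 1634551) (nat_lit 1) (nat_lit 1)) <|
  List.cons (Rec.mk (nat_lit 17) (nat_lit 23) (nat_lit 457741) (nat_lit 585975) (nat_lit 983221) (nat_lit 330793) (nat_lit 457741) (nat_lit 983221) (nat_lit 1506317) (nat_lit 330793) (nat_lit 585975) (nat_lit 1379369) (nat_lit 0) (nat_lit 0)) <|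
  List.cons (Rec.mk (nat_lit 17) (nat_lit 24) (nat_lit 457741) (nat_lit 585975) (nat_lit 664612) (nat_lit 401726) (nat_lit 457741) (nat_lit 664612) (nat_lit 1506317) (nat_lit 401726) (nat_lit 585975) (nat_lit 1450302) (nat_lit 0) (nat_lit 1)) <|
  List.cons (Rec.mk (nat_lit 17) (nat_lit 25) (nat_lit 457741) (nat_lit 585975) (nat_lit 508882) (nat_lit 505448) (nat_lit 457741) (nat_lit 508882) (nat_lit 1506317) (nat_lit 505448) (nat_lit 585975) (nat_lit 1554024) (nat_lit 0) (nat_lit 0)) <|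
  List.cons (Rec.mk (nat_lit 17) (nat_lit 26) (nat_lit 457741) (nat_lit 585975) (nat_lit 46399) (nat_lit 924342) (nat_lit 46399) (nat_lit 457741) (nat_lit 1094975) (nat_lit 585975) (nat_lit 924342) (nat_lit 1634551) (nat_lit 1) (nat_lit 1)) <|
  List.cons (Rec.mk (nat_lit 17) (nat_lit 27) (nat_lit 1506317) (nat_lit 585975) (nat_lit 1020255) (nat_lit 940354) (nat_lit 1020255) (nat_lit 1506317) (nat_lit 2068831) (nat_lit 585975) (nat_lit 940354) (nat_lit 1634551) (nat_lit 1) (nat_lit 0)) <|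
  List.cons (Rec.mk (nat_lit 17) (nat_lit 28) (nat_lit 457741) (nat_lit 585975) (nat_lit 176086) (nat_lit 1028414) (nat_lit 176086) (nat_lit 457741) (nat_lit 1224662) (nat_lit 585975) (nat_lit 1028414) (nat_lit 1634551) (nat_lit 1) (nat_lit 0)) <|
  List.cons (Rec.mk (nat_lit 17) (nat_lit 29) (nat_lit 457741) (nat_lit 585975) (nat_lit 132099) (nat_lit 968835) (nat_lit 132099) (nat_lit 457741) (nat_lit 1180675) (nat_lit 585975) (nat_lit 968835) (nat_lit 1634551) (nat_lit 1) (nat_lit 0)) <|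
  List.cons (Rec.mk (nat_lit 17) (nat_lit 30) (nat_lit 457741) (nat_lit 585975) (nat_lit 841806) (nat_lit 28267) (nat_lit 457741) (nat_lit 841806) (nat_lit 1506317) (nat_lit 28267) (nat_lit 585975) (nat_lit 1076843) (nat_lit 0) (nat_lit 0)) <|
  List.cons (Rec.mk (nat_lit 17) (nat_lit 31) (nat_lit 457741) (nat_lit 585975) (nat_lit 184871) (nat_lit 1245209) (nat_lit 184871) (nat_lit 457741) (nat_lit 1233447) (nat_lit 585975) (nat_lit 1245209) (nat_lit 1634551) (nat_lit 1) (nat_lit 1)) <|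
  List.cons (Rec.mk (nat_lit 17) (nat_lit 32) (nat_lit 457741) (nat_lit 585975) (nat_lit 769851) (nat_lit 144942) (nat_lit 457741) (nat_lit 769851) (nat_lit 1506317) (nat_lit 144942) (nat_lit 585975) (nat_lit 1193518) (nat_lit 0) (nat_lit 1)) <|
  List.cons (Rec.mk (nat_lit 17) (nat_lit 33) (nat_lit 457741) (nat_lit 585975) (nat_lit 628264) (nat_lit 879843) (nat_lit 457741) (nat_lit 628264) (nat_lit 1506317) (nat_lit 585975) (nat_lit 879843) (nat_lit 1634551) (nat_lit 1) (nat_lit 0)) <|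
  List.cons (Rec.mk (nat_lit 17) (nat_lit 34) (nat_lit 457741) (nat_lit 585975) (nat_lit 138066) (nat_lit 1189142) (nat_lit 138066) (nat_lit 457741) (nat_lit 1186642) (nat_lit 585975) (nat_lit 1189142) (nat_lit 1634551) (nat_lit 1) (nat_lit 1)) <|
  List.cons (Rec.mk (nat_lit 17) (nat_lit 35) (nat_lit 457741) (nat_lit 585975) (nat_lit 401101) (nat_lit 813007) (nat_lit 401101) (nat_lit 457741) (nat_lit 1449677) (nat_lit 585975) (nat_lit 813007) (nat_lit 1634551) (nat_lit 1) (nat_lit 0)) <|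
  List.cons (Rec.mk (nat_lit 17) (nat_lit 36) (nat_lit 457741) (nat_lit 585975) (nat_lit 384169) (nat_lit 176938) (nat_lit 384169) (nat_lit 457741) (nat_lit 1432745) (nat_lit 176938) (nat_lit 585975) (nat_lit 1225514) (nat_lit 0) (nat_lit 0)) <|
  List.cons (Rec.mk (nat_lit 17) (nat_lit 37) (nat_lit 1506317) (nat_lit 585975) (nat_lit 981851) (nat_lit 976656) (nat_lit 981851) (nat_lit 1506317) (nat_lit 2030427) (nat_lit 585975) (nat_lit 976656) (nat_lit 1634551) (nat_lit 1) (nat_lit 0)) <|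
  List.cons (Rec.mk (nat_lit 17) (nat_lit 38) (nat_lit 457741) (nat_lit 585975) (nat_lit 712533) (nat_lit 337991) (nat_lit 457741) (nat_lit 712533) (nat_lit 1506317) (nat_lit 337991) (nat_lit 585975) (nat_lit 1386567) (nat_lit 0) (nat_lit 1)) <|
  List.cons (Rec.mk (nat_lit 17) (nat_lit 39) (nat_lit 457741) (nat_lit 585975) (nat_lit 26484) (nat_lit 718563) (nat_lit 26484) (nat_lit 457741) (nat_lit 1075060) (nat_lit 585975) (nat_lit 718563) (nat_lit 1634551) (nat_lit 1) (nat_lit 0)) <|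
  List.cons (Rec.mk (nat_lit 17) (nat_lit 40) (nat_lit 457741) (nat_lit 585975) (nat_lit 714818) (nat_lit 79592) (nat_lit 457741) (nat_lit 714818) (nat_lit 1506317) (nat_lit 79592) (nat_lit 585975) (nat_lit 1128168) (nat_lit 0) (nat_lit 1)) <|
  List.cons (Rec.mk (nat_lit 17) (nat_lit 41) (nat_lit 457741) (nat_lit 585975) (nat_lit 587619) (nat_lit 824506) (nat_lit 457741) (nat_lit 587619) (nat_lit 1506317) (nat_lit 585975) (nat_lit 824506) (nat_lit 1634551) (nat_lit 1) (nat_lit 0)) <|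
  List.cons (Rec.mk (nat_lit 17) (nat_lit 42) (nat_lit 457741) (nat_lit 585975) (nat_lit 562139) (nat_lit 53161) (nat_lit 457741) (nat_lit 562139) (nat_lit 1506317) (nat_lit 53161) (nat_lit 585975) (nat_lit 1101737) (nat_lit 0) (nat_lit 1)) <|
  List.cons (Rec.mk (nat_lit 17) (nat_lit 43) (nat_lit 457741) (nat_lit 585975) (nat_lit 443596) (nat_lit 733714) (nat_lit 443596) (nat_lit 457741) (nat_lit 1492172) (nat_lit 585975) (nat_lit 733714) (nat_lit 1634551) (nat_lit 1) (nat_lit 1)) <|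
  List.cons (Rec.mk (nat_lit 17) (nat_lit 44) (nat_lit 457741) (nat_lit 585975) (nat_lit 797581) (nat_lit 83136) (nat_lit 457741) (nat_lit 797581) (nat_lit 1506317) (nat_lit 83136) (nat_lit 585975) (nat_lit 1131712) (nat_lit 0) (nat_lit 0)) <|
  List.cons (Rec.mk (nat_lit 17) (nat_lit 45) (nat_lit 457741) (nat_lit 585975) (nat_lit 687375) (nat_lit 777397) (nat_lit 457741) (nat_lit 687375) (nat_lit 1506317) (nat_lit 585975) (nat_lit 777397) (nat_lit 1634551) (nat_lit 1) (nat_lit 1)) <|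
  List.cons (Rec.mk (nat_lit 17) (nat_lit 46) (nat_lit 457741) (nat_lit 585975) (nat_lit 348262) (nat_lit 227533) (nat_lit 348262) (nat_lit 457741) (nat_lit 1396838) (nat_lit 227533) (nat_lit 585975) (nat_lit 1276109) (nat_lit 0) (nat_lit 0)) <|
  List.cons (Rec.mk (nat_lit 17) (nat_lit 47) (nat_lit 457741) (nat_lit 585975) (nat_lit 209178) (nat_lit 549030) (nat_lit 209178) (nat_lit 457741) (nat_lit 1257754) (nat_lit 549030) (nat_lit 585975) (nat_lit 1597606) (nat_lit 1) (nat_lit 0)) <|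
  List.cons (Rec.mk (nat_lit 17) (nat_lit 48) (nat_lit 457741) (nat_lit 585975) (nat_lit 949236) (nat_lit 374610) (nat_lit 457741) (nat_lit 949236) (nat_lit 1506317) (nat_lit 374610) (nat_lit 585975) (nat_lit 1423186) (nat_lit 0) (nat_lit 0)) <|
  List.cons (Rec.mk (nat_lit 17) (nat_lit 49) (nat_lit 457741) (nat_lit 585975) (nat_lit 662814) (nat_lit 807520) (nat_lit 457741) (nat_lit 662814) (nat_lit 1506317) (nat_lit 585975) (nat_lit 807520) (nat_lit 1634551) (nat_lit 1) (nat_lit 1)) <|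
  List.cons (Rec.mk (nat_lit 17) (nat_lit 50) (nat_lit 457741) (nat_lit 585975) (nat_lit 317216) (nat_lit 502786) (nat_lit 317216) (nat_lit 457741) (nat_lit 1365792) (nat_lit 502786) (nat_lit 585975) (nat_lit 1551362) (nat_lit 0) (nat_lit 1)) <|
  List.cons (Rec.mk (nat_lit 17) (nat_lit 51) (nat_lit 457741) (nat_lit 585975) (nat_lit 268762) (nat_lit 231467) (nat_lit 268762) (nat_lit 457741) (nat_lit 1317338) (nat_lit 231467) (nat_lit 585975) (nat_lit 1280043) (nat_lit 0) (nat_lit 1)) <|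
  List.cons (Rec.mk (nat_lit 17) (nat_lit 52) (nat_lit 457741) (nat_lit 585975) (nat_lit 268078) (nat_lit 447768) (nat_lit 268078) (nat_lit 457741) (nat_lit 1316654) (nat_lit 447768) (nat_lit 585975) (nat_lit 1496344) (nat_lit 0) (nat_lit 0)) <|
  List.cons (Rec.mk (nat_lit 17) (nat_lit 53) (nat_lit 457741) (nat_lit 585975) (nat_lit 888048) (nat_lit 578007) (nat_lit 457741) (nat_lit 888048) (nat_lit 1506317) (nat_lit 578007) (nat_lit 585975) (nat_lit 1626583) (nat_lit 0) (nat_lit 0)) <|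
  List.cons (Rec.mk (nat_lit 17) (nat_lit 54) (nat_lit 457741) (nat_lit 585975) (nat_lit 530018) (nat_lit 84442) (nat_lit 457741) (nat_lit 530018) (nat_lit 1506317) (nat_lit 84442) (nat_lit 585975) (nat_lit 1133018) (nat_lit 0) (nat_lit 1)) <|
  List.cons (Rec.mk (nat_lit 17) (nat_lit 55) (nat_lit 1506317) (nat_lit 585975) (nat_lit 1039209) (nat_lit 675035) (nat_lit 1039209) (nat_lit 1506317) (nat_lit 2087785) (nat_lit 585975) (nat_lit 675035) (nat_lit 1634551) (nat_lit 1) (nat_lit 1)) <|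
  List.cons (Rec.mk (nat_lit 18) (nat_lit 19) (nat_lit 1363471) (nat_lit 297987) (nat_lit 821034) (nat_lit 699137) (nat_lit 821034) (nat_lit 1363471) (nat_lit 1869610) (nat_lit 297987) (nat_lit 699137) (nat_lit 1346563) (nat_lit 1) (nat_lit 0)) <|
  List.cons (Rec.mk (nat_lit 18) (nat_lit 20) (nat_lit 1363471) (nat_lit 297987) (nat_lit 876318) (nat_lit 381236) (nat_lit 876318) (nat_lit 1363471) (nat_lit 1924894) (nat_lit 297987) (nat_lit 381236) (nat_lit 1346563) (nat_lit 1) (nat_lit 0)) <|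
  List.cons (Rec.mk (nat_lit 18) (nat_lit 21) (nat_lit 1363471) (nat_lit 297987) (nat_lit 918775) (nat_lit 440156) (nat_lit 918775) (nat_lit 1363471) (nat_lit 1967351) (nat_lit 297987) (nat_lit 440156) (nat_lit 1346563) (nat_lit 1) (nat_lit 0)) <|
  E21

def E19 : List Rec :=
  List.cons (Rec.mk (nat_lit 16) (nat_lit 17) (nat_lit 478612) (nat_lit 544091) (nat_lit 457741) (nat_lit 585975) (nat_lit 457741) (nat_lit 478612) (nat_lit 1506317) (nat_lit 544091) (nat_lit 585975) (nat_lit 1592667) (nat_lit 0) (nat_lit 0)) <|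
  List.cons (Rec.mk (nat_lit 16) (nat_lit 18) (nat_lit 478612) (nat_lit 544091) (nat_lit 314895) (nat_lit 297987) (nat_lit 314895) (nat_lit 478612) (nat_lit 1363471) (nat_lit 297987) (nat_lit 544091) (nat_lit 1346563) (nat_lit 1) (nat_lit 1)) <|
  List.cons (Rec.mk (nat_lit 16) (nat_lit 19) (nat_lit 478612) (nat_lit 544091) (nat_lit 821034) (nat_lit 699137) (nat_lit 478612) (nat_lit 821034) (nat_lit 1527188) (nat_lit 544091) (nat_lit 699137) (nat_lit 1592667) (nat_lit 0) (nat_lit 0)) <|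
  List.cons (Rec.mk (nat_lit 16) (nat_lit 20) (nat_lit 478612) (nat_lit 544091) (nat_lit 876318) (nat_lit 381236) (nat_lit 478612) (nat_lit 876318) (nat_lit 1527188) (nat_lit 381236) (nat_lit 544091) (nat_lit 1429812) (nat_lit 1) (nat_lit 1)) <|
  List.cons (Rec.mk (nat_lit 16) (nat_lit 21) (nat_lit 478612) (nat_lit 544091) (nat_lit 918775) (nat_lit 440156) (nat_lit 478612) (nat_lit 918775) (nat_lit 1527188) (nat_lit 440156) (nat_lit 544091) (nat_lit 1488732) (nat_lit 1) (nat_lit 1)) <|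
  List.cons (Rec.mk (nat_lit 16) (nat_lit 22) (nat_lit 478612) (nat_lit 544091) (nat_lit 236122) (nat_lit 923345) (nat_lit 236122) (nat_lit 478612) (nat_lit 1284698) (nat_lit 544091) (nat_lit 923345) (nat_lit 1592667) (nat_lit 0) (nat_lit 1)) <|
  List.cons (Rec.mk (nat_lit 16) (nat_lit 23) (nat_lit 478612) (nat_lit 544091) (nat_lit 983221) (nat_lit 330793) (nat_lit 478612) (nat_lit 983221) (nat_lit 1527188) (nat_lit 330793) (nat_lit 544091) (nat_lit 1379369) (nat_lit 1) (nat_lit 0)) <|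
  List.cons (Rec.mk (nat_lit 16) (nat_lit 24) (nat_lit 478612) (nat_lit 544091) (nat_lit 664612) (nat_lit 401726) (nat_lit 478612) (nat_lit 664612) (nat_lit 1527188) (nat_lit 401726) (nat_lit 544091) (nat_lit 1450302) (nat_lit 1) (nat_lit 1)) <|
  List.cons (Rec.mk (nat_lit 16) (nat_lit 25) (nat_lit 478612) (nat_lit 544091) (nat_lit 508882) (nat_lit 505448) (nat_lit 478612) (nat_lit 508882) (nat_lit 1527188) (nat_lit 505448) (nat_lit 544091) (nat_lit 1554024) (nat_lit 1) (nat_lit 0)) <|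
  List.cons (Rec.mk (nat_lit 16) (nat_lit 26) (nat_lit 478612) (nat_lit 544091) (nat_lit 46399) (nat_lit 924342) (nat_lit 46399) (nat_lit 478612) (nat_lit 1094975) (nat_lit 544091) (nat_lit 924342) (nat_lit 1592667) (nat_lit 0) (nat_lit 1)) <|
  List.cons (Rec.mk (nat_lit 16) (nat_lit 27) (nat_lit 1527188) (nat_lit 544091) (nat_lit 1020255) (nat_lit 940354) (nat_lit 1020255) (nat_lit 1527188) (nat_lit 2068831) (nat_lit 544091) (nat_lit 940354) (nat_lit 1592667) (nat_lit 0) (nat_lit 0)) <|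
  List.cons (Rec.mk (nat_lit 16) (nat_lit 28) (nat_lit 478612) (nat_lit 544091) (nat_lit 176086) (nat_lit 1028414) (nat_lit 176086) (nat_lit 478612) (nat_lit 1224662) (nat_lit 544091) (nat_lit 1028414) (nat_lit 1592667) (nat_lit 0) (nat_lit 0)) <|
  List.cons (Rec.mk (nat_lit 16) (nat_lit 29) (nat_lit 478612) (nat_lit 544091) (nat_lit 132099) (nat_lit 968835) (nat_lit 132099) (nat_lit 478612) (nat_lit 1180675) (nat_lit 544091) (nat_lit 968835) (nat_lit 1592667) (nat_lit 0) (nat_lit 0)) <|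
  List.cons (Rec.mk (nat_lit 16) (nat_lit 30) (nat_lit 478612) (nat_lit 544091) (nat_lit 841806) (nat_lit 28267) (nat_lit 478612) (nat_lit 841806) (nat_lit 1527188) (nat_lit 28267) (nat_lit 544091) (nat_lit 1076843) (nat_lit 1) (nat_lit 0)) <|
  List.cons (Rec.mk (nat_lit 16) (nat_lit 31) (nat_lit 478612) (nat_lit 544091) (nat_lit 184871) (nat_lit 196633) (nat_lit 184871) (nat_lit 478612) (nat_lit 1233447) (nat_lit 196633) (nat_lit 544091) (nat_lit 1245209) (nat_lit 1) (nat_lit 0)) <|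
  List.cons (Rec.mk (nat_lit 16) (nat_lit 32) (nat_lit 478612) (nat_lit 544091) (nat_lit 769851) (nat_lit 144942) (nat_lit 478612) (nat_lit 769851) (nat_lit 1527188) (nat_lit 144942) (nat_lit 544091) (nat_lit 1193518) (nat_lit 1) (nat_lit 1)) <|
  List.cons (Rec.mk (nat_lit 16) (nat_lit 33) (nat_lit 478612) (nat_lit 544091) (nat_lit 628264) (nat_lit 879843) (nat_lit 478612) (nat_lit 628264) (nat_lit 1527188) (nat_lit 544091) (nat_lit 879843) (nat_lit 1592667) (nat_lit 0) (nat_lit 0)) <|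
  List.cons (Rec.mk (nat_lit 16) (nat_lit 34) (nat_lit 478612) (nat_lit 544091) (nat_lit 138066) (nat_lit 1189142) (nat_lit 138066) (nat_lit 478612) (nat_lit 1186642) (nat_lit 544091) (nat_lit 1189142) (nat_lit 1592667) (nat_lit 0) (nat_lit 1)) <|
  List.cons (Rec.mk (nat_lit 16) (nat_lit 35) (nat_lit 478612) (nat_lit 544091) (nat_lit 401101) (nat_lit 813007) (nat_lit 401101) (nat_lit 478612) (nat_lit 1449677) (nat_lit 544091) (nat_lit 813007) (nat_lit 1592667) (nat_lit 0) (nat_lit 0)) <|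
  List.cons (Rec.mk (nat_lit 16) (nat_lit 36) (nat_lit 478612) (nat_lit 544091) (nat_lit 384169) (nat_lit 176938) (nat_lit 384169) (nat_lit 478612) (nat_lit 1432745) (nat_lit 176938) (nat_lit 544091) (nat_lit 1225514) (nat_lit 1) (nat_lit 0)) <|
  List.cons (Rec.mk (nat_lit 16) (nat_lit 37) (nat_lit 1527188) (nat_lit 544091) (nat_lit 981851) (nat_lit 976656) (nat_lit 981851) (nat_lit 1527188) (nat_lit 2030427) (nat_lit 544091) (nat_lit 976656) (nat_lit 1592667) (nat_lit 0) (nat_lit 0)) <|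
  List.cons (Rec.mk (nat_lit 16) (nat_lit 38) (nat_lit 478612) (nat_lit 544091) (nat_lit 712533) (nat_lit 337991) (nat_lit 478612) (nat_lit 712533) (nat_lit 1527188) (nat_lit 337991) (nat_lit 544091) (nat_lit 1386567) (nat_lit 1) (nat_lit 1)) <|
  List.cons (Rec.mk (nat_lit 16) (nat_lit 39) (nat_lit 478612) (nat_lit 544091) (nat_lit 26484) (nat_lit 718563) (nat_lit 26484) (nat_lit 478612) (nat_lit 1075060) (nat_lit 544091) (nat_lit 718563) (nat_lit 1592667) (nat_lit 0) (nat_lit 0)) <|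
  List.cons (Rec.mk (nat_lit 16) (nat_lit 40) (nat_lit 478612) (nat_lit 544091) (nat_lit 714818) (nat_lit 79592) (nat_lit 478612) (nat_lit 714818) (nat_lit 1527188) (nat_lit 79592) (nat_lit 544091) (nat_lit 1128168) (nat_lit 1) (nat_lit 1)) <|
  List.cons (Rec.mk (nat_lit 16) (nat_lit 41) (nat_lit 478612) (nat_lit 544091) (nat_lit 587619) (nat_lit 824506) (nat_lit 478612) (nat_lit 587619) (nat_lit 1527188) (nat_lit 544091) (nat_lit 824506) (nat_lit 1592667) (nat_lit 0) (nat_lit 0)) <|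
  List.cons (Rec.mk (nat_lit 16) (nat_lit 42) (nat_lit 478612) (nat_lit 544091) (nat_lit 562139) (nat_lit 53161) (nat_lit 478612) (nat_lit 562139) (nat_lit 1527188) (nat_lit 53161) (nat_lit 544091) (nat_lit 1101737) (nat_lit 1) (nat_lit 1)) <|
  List.cons (Rec.mk (nat_lit 16) (nat_lit 43) (nat_lit 478612) (nat_lit 544091) (nat_lit 443596) (nat_lit 733714) (nat_lit 443596) (nat_lit 478612) (nat_lit 1492172) (nat_lit 544091) (nat_lit 733714) (nat_lit 1592667) (nat_lit 0) (nat_lit 1)) <|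
  List.cons (Rec.mk (nat_lit 16) (nat_lit 44) (nat_lit 478612) (nat_lit 544091) (nat_lit 797581) (nat_lit 83136) (nat_lit 478612) (nat_lit 797581) (nat_lit 1527188) (nat_lit 83136) (nat_lit 544091) (nat_lit 1131712) (nat_lit 1) (nat_lit 0)) <|
  List.cons (Rec.mk (nat_lit 16) (nat_lit 45) (nat_lit 478612) (nat_lit 544091) (nat_lit 687375) (nat_lit 777397) (nat_lit 478612) (nat_lit 687375) (nat_lit 1527188) (nat_lit 544091) (nat_lit 777397) (nat_lit 1592667) (nat_lit 0) (nat_lit 1)) <|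
  List.cons (Rec.mk (nat_lit 16) (nat_lit 46) (nat_lit 478612) (nat_lit 544091) (nat_lit 348262) (nat_lit 227533) (nat_lit 348262) (nat_lit 478612) (nat_lit 1396838) (nat_lit 227533) (nat_lit 544091) (nat_lit 1276109) (nat_lit 1) (nat_lit 0)) <|
  List.cons (Rec.mk (nat_lit 16) (nat_lit 47) (nat_lit 478612) (nat_lit 544091) (nat_lit 209178) (nat_lit 549030) (nat_lit 209178) (nat_lit 478612) (nat_lit 1257754) (nat_lit 544091) (nat_lit 549030) (nat_lit 1592667) (nat_lit 0) (nat_lit 0)) <|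
  List.cons (Rec.mk (nat_lit 16) (nat_lit 48) (nat_lit 478612) (nat_lit 544091) (nat_lit 949236) (nat_lit 374610) (nat_lit 478612) (nat_lit 949236) (nat_lit 1527188) (nat_lit 374610) (nat_lit 544091) (nat_lit 1423186) (nat_lit 1) (nat_lit 0)) <|
  List.cons (Rec.mk (nat_lit 16) (nat_lit 49) (nat_lit 478612) (nat_lit 544091) (nat_lit 662814) (nat_lit 807520) (nat_lit 478612) (nat_lit 662814) (nat_lit 1527188) (nat_lit 544091) (nat_lit 807520) (nat_lit 1592667) (nat_lit 0) (nat_lit 1)) <|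
  List.cons (Rec.mk (nat_lit 16) (nat_lit 50) (nat_lit 478612) (nat_lit 544091) (nat_lit 317216) (nat_lit 502786) (nat_lit 317216) (nat_lit 478612) (nat_lit 1365792) (nat_lit 502786) (nat_lit 544091) (nat_lit 1551362) (nat_lit 1) (nat_lit 1)) <|
  List.cons (Rec.mk (nat_lit 16) (nat_lit 51) (nat_lit 478612) (nat_lit 544091) (nat_lit 268762) (nat_lit 231467) (nat_lit 268762) (nat_lit 478612) (nat_lit 1317338) (nat_lit 231467) (nat_lit 544091) (nat_lit 1280043) (nat_lit 1) (nat_lit 1)) <|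
  List.cons (Rec.mk (nat_lit 16) (nat_lit 52) (nat_lit 478612) (nat_lit 544091) (nat_lit 268078) (nat_lit 447768) (nat_lit 268078) (nat_lit 478612) (nat_lit 1316654) (nat_lit 447768) (nat_lit 544091) (nat_lit 1496344) (nat_lit 1) (nat_lit 0)) <|
  List.cons (Rec.mk (nat_lit 16) (nat_lit 53) (nat_lit 478612) (nat_lit 544091) (nat_lit 888048) (nat_lit 578007) (nat_lit 478612) (nat_lit 888048) (nat_lit 1527188) (nat_lit 544091) (nat_lit 578007) (nat_lit 1592667) (nat_lit 0) (nat_lit 0)) <|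
  List.cons (Rec.mk (nat_lit 16) (nat_lit 54) (nat_lit 478612) (nat_lit 544091) (nat_lit 530018) (nat_lit 84442) (nat_lit 478612) (nat_lit 530018) (nat_lit 1527188) (nat_lit 84442) (nat_lit 544091) (nat_lit 1133018) (nat_lit 1) (nat_lit 1)) <|
  List.cons (Rec.mk (nat_lit 16) (nat_lit 55) (nat_lit 1527188) (nat_lit 544091) (nat_lit 1039209) (nat_lit 675035) (nat_lit 1039209) (nat_lit 1527188) (nat_lit 2087785) (nat_lit 544091) (nat_lit 675035) (nat_lit 1592667) (nat_lit 0) (nat_lit 1)) <|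
  List.cons (Rec.mk (nat_lit 17) (nat_lit 18) (nat_lit 457741) (nat_lit 585975) (nat_lit 314895) (nat_lit 297987) (nat_lit 314895) (nat_lit 457741) (nat_lit 1363471) (nat_lit 297987) (nat_lit 585975) (nat_lit 1346563) (nat_lit 0) (nat_lit 1)) <|
  E20

def E18 : List Rec :=
  List.cons (Rec.mk (nat_lit 15) (nat_lit 16) (nat_lit 416168) (nat_lit 793693) (nat_lit 478612) (nat_lit 544091) (nat_lit 416168) (nat_lit 478612) (nat_lit 1464744) (nat_lit 544091) (nat_lit 793693) (nat_lit 1592667) (nat_lit 0) (nat_lit 0)) <|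
  List.cons (Rec.mk (nat_lit 15) (nat_lit 17) (nat_lit 416168) (nat_lit 793693) (nat_lit 457741) (nat_lit 585975) (nat_lit 416168) (nat_lit 457741) (nat_lit 1464744) (nat_lit 585975) (nat_lit 793693) (nat_lit 1634551) (nat_lit 0) (nat_lit 1)) <|
  List.cons (Rec.mk (nat_lit 15) (nat_lit 18) (nat_lit 416168) (nat_lit 793693) (nat_lit 314895) (nat_lit 1346563) (nat_lit 314895) (nat_lit 416168) (nat_lit 1363471) (nat_lit 793693) (nat_lit 1346563) (nat_lit 1842269) (nat_lit 1) (nat_lit 0)) <|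
  List.cons (Rec.mk (nat_lit 15) (nat_lit 19) (nat_lit 416168) (nat_lit 793693) (nat_lit 821034) (nat_lit 699137) (nat_lit 416168) (nat_lit 821034) (nat_lit 1464744) (nat_lit 699137) (nat_lit 793693) (nat_lit 1747713) (nat_lit 0) (nat_lit 1)) <|
  List.cons (Rec.mk (nat_lit 15) (nat_lit 20) (nat_lit 416168) (nat_lit 793693) (nat_lit 876318) (nat_lit 381236) (nat_lit 416168) (nat_lit 876318) (nat_lit 1464744) (nat_lit 381236) (nat_lit 793693) (nat_lit 1429812) (nat_lit 0) (nat_lit 1)) <|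
  List.cons (Rec.mk (nat_lit 15) (nat_lit 21) (nat_lit 416168) (nat_lit 793693) (nat_lit 918775) (nat_lit 440156) (nat_lit 416168) (nat_lit 918775) (nat_lit 1464744) (nat_lit 440156) (nat_lit 793693) (nat_lit 1488732) (nat_lit 0) (nat_lit 1)) <|
  List.cons (Rec.mk (nat_lit 15) (nat_lit 22) (nat_lit 416168) (nat_lit 793693) (nat_lit 236122) (nat_lit 923345) (nat_lit 236122) (nat_lit 416168) (nat_lit 1284698) (nat_lit 793693) (nat_lit 923345) (nat_lit 1842269) (nat_lit 1) (nat_lit 1)) <|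
  List.cons (Rec.mk (nat_lit 15) (nat_lit 23) (nat_lit 416168) (nat_lit 793693) (nat_lit 983221) (nat_lit 330793) (nat_lit 416168) (nat_lit 983221) (nat_lit 1464744) (nat_lit 330793) (nat_lit 793693) (nat_lit 1379369) (nat_lit 0) (nat_lit 0)) <|
  List.cons (Rec.mk (nat_lit 15) (nat_lit 24) (nat_lit 416168) (nat_lit 793693) (nat_lit 664612) (nat_lit 401726) (nat_lit 416168) (nat_lit 664612) (nat_lit 1464744) (nat_lit 401726) (nat_lit 793693) (nat_lit 1450302) (nat_lit 0) (nat_lit 1)) <|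
  List.cons (Rec.mk (nat_lit 15) (nat_lit 25) (nat_lit 416168) (nat_lit 793693) (nat_lit 508882) (nat_lit 505448) (nat_lit 416168) (nat_lit 508882) (nat_lit 1464744) (nat_lit 505448) (nat_lit 793693) (nat_lit 1554024) (nat_lit 0) (nat_lit 0)) <|
  List.cons (Rec.mk (nat_lit 15) (nat_lit 26) (nat_lit 416168) (nat_lit 793693) (nat_lit 46399) (nat_lit 924342) (nat_lit 46399) (nat_lit 416168) (nat_lit 1094975) (nat_lit 793693) (nat_lit 924342) (nat_lit 1842269) (nat_lit 1) (nat_lit 1)) <|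
  List.cons (Rec.mk (nat_lit 15) (nat_lit 27) (nat_lit 1464744) (nat_lit 793693) (nat_lit 1020255) (nat_lit 940354) (nat_lit 1020255) (nat_lit 1464744) (nat_lit 2068831) (nat_lit 793693) (nat_lit 940354) (nat_lit 1842269) (nat_lit 1) (nat_lit 0)) <|
  List.cons (Rec.mk (nat_lit 15) (nat_lit 28) (nat_lit 416168) (nat_lit 793693) (nat_lit 176086) (nat_lit 1028414) (nat_lit 176086) (nat_lit 416168) (nat_lit 1224662) (nat_lit 793693) (nat_lit 1028414) (nat_lit 1842269) (nat_lit 1) (nat_lit 0)) <|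
  List.cons (Rec.mk (nat_lit 15) (nat_lit 29) (nat_lit 416168) (nat_lit 793693) (nat_lit 132099) (nat_lit 968835) (nat_lit 132099) (nat_lit 416168) (nat_lit 1180675) (nat_lit 793693) (nat_lit 968835) (nat_lit 1842269) (nat_lit 1) (nat_lit 0)) <|
  List.cons (Rec.mk (nat_lit 15) (nat_lit 30) (nat_lit 1464744) (nat_lit 793693) (nat_lit 841806) (nat_lit 1076843) (nat_lit 841806) (nat_lit 1464744) (nat_lit 1890382) (nat_lit 793693) (nat_lit 1076843) (nat_lit 1842269) (nat_lit 1) (nat_lit 1)) <|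
  List.cons (Rec.mk (nat_lit 15) (nat_lit 31) (nat_lit 416168) (nat_lit 793693) (nat_lit 184871) (nat_lit 1245209) (nat_lit 184871) (nat_lit 416168) (nat_lit 1233447) (nat_lit 793693) (nat_lit 1245209) (nat_lit 1842269) (nat_lit 1) (nat_lit 1)) <|
  List.cons (Rec.mk (nat_lit 15) (nat_lit 32) (nat_lit 416168) (nat_lit 793693) (nat_lit 769851) (nat_lit 144942) (nat_lit 416168) (nat_lit 769851) (nat_lit 1464744) (nat_lit 144942) (nat_lit 793693) (nat_lit 1193518) (nat_lit 0) (nat_lit 1)) <|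
  List.cons (Rec.mk (nat_lit 15) (nat_lit 33) (nat_lit 416168) (nat_lit 793693) (nat_lit 628264) (nat_lit 879843) (nat_lit 416168) (nat_lit 628264) (nat_lit 1464744) (nat_lit 793693) (nat_lit 879843) (nat_lit 1842269) (nat_lit 1) (nat_lit 1)) <|
  List.cons (Rec.mk (nat_lit 15) (nat_lit 34) (nat_lit 416168) (nat_lit 793693) (nat_lit 138066) (nat_lit 1189142) (nat_lit 138066) (nat_lit 416168) (nat_lit 1186642) (nat_lit 793693) (nat_lit 1189142) (nat_lit 1842269) (nat_lit 1) (nat_lit 1)) <|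
  List.cons (Rec.mk (nat_lit 15) (nat_lit 35) (nat_lit 416168) (nat_lit 793693) (nat_lit 401101) (nat_lit 813007) (nat_lit 401101) (nat_lit 416168) (nat_lit 1449677) (nat_lit 793693) (nat_lit 813007) (nat_lit 1842269) (nat_lit 1) (nat_lit 0)) <|
  List.cons (Rec.mk (nat_lit 15) (nat_lit 36) (nat_lit 416168) (nat_lit 793693) (nat_lit 384169) (nat_lit 1225514) (nat_lit 384169) (nat_lit 416168) (nat_lit 1432745) (nat_lit 793693) (nat_lit 1225514) (nat_lit 1842269) (nat_lit 1) (nat_lit 1)) <|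
  List.cons (Rec.mk (nat_lit 15) (nat_lit 37) (nat_lit 1464744) (nat_lit 793693) (nat_lit 981851) (nat_lit 976656) (nat_lit 981851) (nat_lit 1464744) (nat_lit 2030427) (nat_lit 793693) (nat_lit 976656) (nat_lit 1842269) (nat_lit 1) (nat_lit 0)) <|
  List.cons (Rec.mk (nat_lit 15) (nat_lit 38) (nat_lit 416168) (nat_lit 793693) (nat_lit 712533) (nat_lit 337991) (nat_lit 416168) (nat_lit 712533) (nat_lit 1464744) (nat_lit 337991) (nat_lit 793693) (nat_lit 1386567) (nat_lit 0) (nat_lit 1)) <|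
  List.cons (Rec.mk (nat_lit 15) (nat_lit 39) (nat_lit 416168) (nat_lit 793693) (nat_lit 26484) (nat_lit 718563) (nat_lit 26484) (nat_lit 416168) (nat_lit 1075060) (nat_lit 718563) (nat_lit 793693) (nat_lit 1767139) (nat_lit 1) (nat_lit 1)) <|
  List.cons (Rec.mk (nat_lit 15) (nat_lit 40) (nat_lit 416168) (nat_lit 793693) (nat_lit 714818) (nat_lit 1128168) (nat_lit 416168) (nat_lit 714818) (nat_lit 1464744) (nat_lit 793693) (nat_lit 1128168) (nat_lit 1842269) (nat_lit 1) (nat_lit 0)) <|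
  List.cons (Rec.mk (nat_lit 15) (nat_lit 41) (nat_lit 416168) (nat_lit 793693) (nat_lit 587619) (nat_lit 824506) (nat_lit 416168) (nat_lit 587619) (nat_lit 1464744) (nat_lit 793693) (nat_lit 824506) (nat_lit 1842269) (nat_lit 0) (nat_lit 0)) <|
  List.cons (Rec.mk (nat_lit 15) (nat_lit 42) (nat_lit 416168) (nat_lit 793693) (nat_lit 562139) (nat_lit 1101737) (nat_lit 416168) (nat_lit 562139) (nat_lit 1464744) (nat_lit 793693) (nat_lit 1101737) (nat_lit 1842269) (nat_lit 1) (nat_lit 0)) <|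
  List.cons (Rec.mk (nat_lit 15) (nat_lit 43) (nat_lit 416168) (nat_lit 793693) (nat_lit 443596) (nat_lit 733714) (nat_lit 416168) (nat_lit 443596) (nat_lit 1464744) (nat_lit 733714) (nat_lit 793693) (nat_lit 1782290) (nat_lit 0) (nat_lit 0)) <|
  List.cons (Rec.mk (nat_lit 15) (nat_lit 44) (nat_lit 1464744) (nat_lit 793693) (nat_lit 797581) (nat_lit 1131712) (nat_lit 797581) (nat_lit 1464744) (nat_lit 1846157) (nat_lit 793693) (nat_lit 1131712) (nat_lit 1842269) (nat_lit 1) (nat_lit 1)) <|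
  List.cons (Rec.mk (nat_lit 15) (nat_lit 45) (nat_lit 416168) (nat_lit 793693) (nat_lit 687375) (nat_lit 777397) (nat_lit 416168) (nat_lit 687375) (nat_lit 1464744) (nat_lit 777397) (nat_lit 793693) (nat_lit 1825973) (nat_lit 0) (nat_lit 0)) <|
  List.cons (Rec.mk (nat_lit 15) (nat_lit 46) (nat_lit 416168) (nat_lit 793693) (nat_lit 348262) (nat_lit 1276109) (nat_lit 348262) (nat_lit 416168) (nat_lit 1396838) (nat_lit 793693) (nat_lit 1276109) (nat_lit 1842269) (nat_lit 1) (nat_lit 1)) <|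
  List.cons (Rec.mk (nat_lit 15) (nat_lit 47) (nat_lit 416168) (nat_lit 793693) (nat_lit 209178) (nat_lit 549030) (nat_lit 209178) (nat_lit 416168) (nat_lit 1257754) (nat_lit 549030) (nat_lit 793693) (nat_lit 1597606) (nat_lit 0) (nat_lit 1)) <|
  List.cons (Rec.mk (nat_lit 15) (nat_lit 48) (nat_lit 416168) (nat_lit 793693) (nat_lit 949236) (nat_lit 374610) (nat_lit 416168) (nat_lit 949236) (nat_lit 1464744) (nat_lit 374610) (nat_lit 793693) (nat_lit 1423186) (nat_lit 0) (nat_lit 0)) <|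
  List.cons (Rec.mk (nat_lit 15) (nat_lit 49) (nat_lit 416168) (nat_lit 793693) (nat_lit 662814) (nat_lit 807520) (nat_lit 416168) (nat_lit 662814) (nat_lit 1464744) (nat_lit 793693) (nat_lit 807520) (nat_lit 1842269) (nat_lit 0) (nat_lit 0)) <|
  List.cons (Rec.mk (nat_lit 15) (nat_lit 50) (nat_lit 416168) (nat_lit 793693) (nat_lit 317216) (nat_lit 502786) (nat_lit 317216) (nat_lit 416168) (nat_lit 1365792) (nat_lit 502786) (nat_lit 793693) (nat_lit 1551362) (nat_lit 0) (nat_lit 1)) <|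
  List.cons (Rec.mk (nat_lit 15) (nat_lit 51) (nat_lit 416168) (nat_lit 793693) (nat_lit 268762) (nat_lit 1280043) (nat_lit 268762) (nat_lit 416168) (nat_lit 1317338) (nat_lit 793693) (nat_lit 1280043) (nat_lit 1842269) (nat_lit 1) (nat_lit 0)) <|
  List.cons (Rec.mk (nat_lit 15) (nat_lit 52) (nat_lit 416168) (nat_lit 793693) (nat_lit 268078) (nat_lit 447768) (nat_lit 268078) (nat_lit 416168) (nat_lit 1316654) (nat_lit 447768) (nat_lit 793693) (nat_lit 1496344) (nat_lit 0) (nat_lit 0)) <|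
  List.cons (Rec.mk (nat_lit 15) (nat_lit 53) (nat_lit 416168) (nat_lit 793693) (nat_lit 888048) (nat_lit 578007) (nat_lit 416168) (nat_lit 888048) (nat_lit 1464744) (nat_lit 578007) (nat_lit 793693) (nat_lit 1626583) (nat_lit 0) (nat_lit 0)) <|
  List.cons (Rec.mk (nat_lit 15) (nat_lit 54) (nat_lit 416168) (nat_lit 793693) (nat_lit 530018) (nat_lit 1133018) (nat_lit 416168) (nat_lit 530018) (nat_lit 1464744) (nat_lit 793693) (nat_lit 1133018) (nat_lit 1842269) (nat_lit 1) (nat_lit 0)) <|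
  List.cons (Rec.mk (nat_lit 15) (nat_lit 55) (nat_lit 1464744) (nat_lit 793693) (nat_lit 1039209) (nat_lit 675035) (nat_lit 1039209) (nat_lit 1464744) (nat_lit 2087785) (nat_lit 675035) (nat_lit 793693) (nat_lit 1723611) (nat_lit 1) (nat_lit 0)) <|
  E19

def E17 : List Rec :=
  List.cons (Rec.mk (nat_lit 14) (nat_lit 16) (nat_lit 851227) (nat_lit 656936) (nat_lit 478612) (nat_lit 544091) (nat_lit 478612) (nat_lit 851227) (nat_lit 1527188) (nat_lit 544091) (nat_lit 656936) (nat_lit 1592667) (nat_lit 0) (nat_lit 0)) <|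
  List.cons (Rec.mk (nat_lit 14) (nat_lit 17) (nat_lit 851227) (nat_lit 656936) (nat_lit 457741) (nat_lit 585975) (nat_lit 457741) (nat_lit 851227) (nat_lit 1506317) (nat_lit 585975) (nat_lit 656936) (nat_lit 1634551) (nat_lit 1) (nat_lit 1)) <|
  List.cons (Rec.mk (nat_lit 14) (nat_lit 18) (nat_lit 851227) (nat_lit 656936) (nat_lit 1363471) (nat_lit 297987) (nat_lit 851227) (nat_lit 1363471) (nat_lit 1899803) (nat_lit 297987) (nat_lit 656936) (nat_lit 1346563) (nat_lit 0) (nat_lit 1)) <|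
  List.cons (Rec.mk (nat_lit 14) (nat_lit 19) (nat_lit 851227) (nat_lit 656936) (nat_lit 821034) (nat_lit 699137) (nat_lit 821034) (nat_lit 851227) (nat_lit 1869610) (nat_lit 656936) (nat_lit 699137) (nat_lit 1705512) (nat_lit 1) (nat_lit 0)) <|
  List.cons (Rec.mk (nat_lit 14) (nat_lit 20) (nat_lit 851227) (nat_lit 656936) (nat_lit 876318) (nat_lit 381236) (nat_lit 851227) (nat_lit 876318) (nat_lit 1899803) (nat_lit 381236) (nat_lit 656936) (nat_lit 1429812) (nat_lit 0) (nat_lit 1)) <|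
  List.cons (Rec.mk (nat_lit 14) (nat_lit 21) (nat_lit 851227) (nat_lit 656936) (nat_lit 918775) (nat_lit 440156) (nat_lit 851227) (nat_lit 918775) (nat_lit 1899803) (nat_lit 440156) (nat_lit 656936) (nat_lit 1488732) (nat_lit 0) (nat_lit 1)) <|
  List.cons (Rec.mk (nat_lit 14) (nat_lit 22) (nat_lit 851227) (nat_lit 656936) (nat_lit 236122) (nat_lit 923345) (nat_lit 236122) (nat_lit 851227) (nat_lit 1284698) (nat_lit 656936) (nat_lit 923345) (nat_lit 1705512) (nat_lit 1) (nat_lit 1)) <|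
  List.cons (Rec.mk (nat_lit 14) (nat_lit 23) (nat_lit 851227) (nat_lit 656936) (nat_lit 983221) (nat_lit 330793) (nat_lit 851227) (nat_lit 983221) (nat_lit 1899803) (nat_lit 330793) (nat_lit 656936) (nat_lit 1379369) (nat_lit 0) (nat_lit 0)) <|
  List.cons (Rec.mk (nat_lit 14) (nat_lit 24) (nat_lit 851227) (nat_lit 656936) (nat_lit 664612) (nat_lit 401726) (nat_lit 664612) (nat_lit 851227) (nat_lit 1713188) (nat_lit 401726) (nat_lit 656936) (nat_lit 1450302) (nat_lit 0) (nat_lit 1)) <|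
  List.cons (Rec.mk (nat_lit 14) (nat_lit 25) (nat_lit 851227) (nat_lit 656936) (nat_lit 508882) (nat_lit 505448) (nat_lit 508882) (nat_lit 851227) (nat_lit 1557458) (nat_lit 505448) (nat_lit 656936) (nat_lit 1554024) (nat_lit 0) (nat_lit 0)) <|
  List.cons (Rec.mk (nat_lit 14) (nat_lit 26) (nat_lit 851227) (nat_lit 656936) (nat_lit 1094975) (nat_lit 924342) (nat_lit 851227) (nat_lit 1094975) (nat_lit 1899803) (nat_lit 656936) (nat_lit 924342) (nat_lit 1705512) (nat_lit 1) (nat_lit 1)) <|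
  List.cons (Rec.mk (nat_lit 14) (nat_lit 27) (nat_lit 851227) (nat_lit 656936) (nat_lit 1020255) (nat_lit 940354) (nat_lit 851227) (nat_lit 1020255) (nat_lit 1899803) (nat_lit 656936) (nat_lit 940354) (nat_lit 1705512) (nat_lit 1) (nat_lit 0)) <|
  List.cons (Rec.mk (nat_lit 14) (nat_lit 28) (nat_lit 851227) (nat_lit 1705512) (nat_lit 1224662) (nat_lit 1028414) (nat_lit 851227) (nat_lit 1224662) (nat_lit 1899803) (nat_lit 1028414) (nat_lit 1705512) (nat_lit 2076990) (nat_lit 0) (nat_lit 1)) <|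
  List.cons (Rec.mk (nat_lit 14) (nat_lit 29) (nat_lit 851227) (nat_lit 656936) (nat_lit 1180675) (nat_lit 968835) (nat_lit 851227) (nat_lit 1180675) (nat_lit 1899803) (nat_lit 656936) (nat_lit 968835) (nat_lit 1705512) (nat_lit 1) (nat_lit 0)) <|
  List.cons (Rec.mk (nat_lit 14) (nat_lit 30) (nat_lit 851227) (nat_lit 656936) (nat_lit 841806) (nat_lit 1076843) (nat_lit 841806) (nat_lit 851227) (nat_lit 1890382) (nat_lit 656936) (nat_lit 1076843) (nat_lit 1705512) (nat_lit 1) (nat_lit 1)) <|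
  List.cons (Rec.mk (nat_lit 14) (nat_lit 31) (nat_lit 851227) (nat_lit 656936) (nat_lit 1233447) (nat_lit 196633) (nat_lit 851227) (nat_lit 1233447) (nat_lit 1899803) (nat_lit 196633) (nat_lit 656936) (nat_lit 1245209) (nat_lit 0) (nat_lit 0)) <|
  List.cons (Rec.mk (nat_lit 14) (nat_lit 32) (nat_lit 851227) (nat_lit 656936) (nat_lit 769851) (nat_lit 1193518) (nat_lit 769851) (nat_lit 851227) (nat_lit 1818427) (nat_lit 656936) (nat_lit 1193518) (nat_lit 1705512) (nat_lit 1) (nat_lit 0)) <|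
  List.cons (Rec.mk (nat_lit 14) (nat_lit 33) (nat_lit 851227) (nat_lit 656936) (nat_lit 628264) (nat_lit 879843) (nat_lit 628264) (nat_lit 851227) (nat_lit 1676840) (nat_lit 656936) (nat_lit 879843) (nat_lit 1705512) (nat_lit 1) (nat_lit 0)) <|
  List.cons (Rec.mk (nat_lit 14) (nat_lit 34) (nat_lit 851227) (nat_lit 656936) (nat_lit 1186642) (nat_lit 140566) (nat_lit 851227) (nat_lit 1186642) (nat_lit 1899803) (nat_lit 140566) (nat_lit 656936) (nat_lit 1189142) (nat_lit 0) (nat_lit 0)) <|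
  List.cons (Rec.mk (nat_lit 14) (nat_lit 35) (nat_lit 851227) (nat_lit 656936) (nat_lit 401101) (nat_lit 813007) (nat_lit 401101) (nat_lit 851227) (nat_lit 1449677) (nat_lit 656936) (nat_lit 813007) (nat_lit 1705512) (nat_lit 1) (nat_lit 0)) <|
  List.cons (Rec.mk (nat_lit 14) (nat_lit 36) (nat_lit 851227) (nat_lit 656936) (nat_lit 1432745) (nat_lit 176938) (nat_lit 851227) (nat_lit 1432745) (nat_lit 1899803) (nat_lit 176938) (nat_lit 656936) (nat_lit 1225514) (nat_lit 0) (nat_lit 0)) <|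
  List.cons (Rec.mk (nat_lit 14) (nat_lit 37) (nat_lit 851227) (nat_lit 656936) (nat_lit 981851) (nat_lit 976656) (nat_lit 851227) (nat_lit 981851) (nat_lit 1899803) (nat_lit 656936) (nat_lit 976656) (nat_lit 1705512) (nat_lit 1) (nat_lit 0)) <|
  List.cons (Rec.mk (nat_lit 14) (nat_lit 38) (nat_lit 851227) (nat_lit 656936) (nat_lit 712533) (nat_lit 337991) (nat_lit 712533) (nat_lit 851227) (nat_lit 1761109) (nat_lit 337991) (nat_lit 656936) (nat_lit 1386567) (nat_lit 0) (nat_lit 1)) <|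
  List.cons (Rec.mk (nat_lit 14) (nat_lit 39) (nat_lit 851227) (nat_lit 656936) (nat_lit 1075060) (nat_lit 718563) (nat_lit 851227) (nat_lit 1075060) (nat_lit 1899803) (nat_lit 656936) (nat_lit 718563) (nat_lit 1705512) (nat_lit 1) (nat_lit 0)) <|
  List.cons (Rec.mk (nat_lit 14) (nat_lit 40) (nat_lit 851227) (nat_lit 656936) (nat_lit 714818) (nat_lit 1128168) (nat_lit 714818) (nat_lit 851227) (nat_lit 1763394) (nat_lit 656936) (nat_lit 1128168) (nat_lit 1705512) (nat_lit 1) (nat_lit 0)) <|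
  List.cons (Rec.mk (nat_lit 14) (nat_lit 41) (nat_lit 851227) (nat_lit 656936) (nat_lit 587619) (nat_lit 824506) (nat_lit 587619) (nat_lit 851227) (nat_lit 1636195) (nat_lit 656936) (nat_lit 824506) (nat_lit 1705512) (nat_lit 1) (nat_lit 0)) <|
  List.cons (Rec.mk (nat_lit 14) (nat_lit 42) (nat_lit 851227) (nat_lit 656936) (nat_lit 562139) (nat_lit 1101737) (nat_lit 562139) (nat_lit 851227) (nat_lit 1610715) (nat_lit 656936) (nat_lit 1101737) (nat_lit 1705512) (nat_lit 1) (nat_lit 0)) <|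
  List.cons (Rec.mk (nat_lit 14) (nat_lit 43) (nat_lit 851227) (nat_lit 656936) (nat_lit 443596) (nat_lit 733714) (nat_lit 443596) (nat_lit 851227) (nat_lit 1492172) (nat_lit 656936) (nat_lit 733714) (nat_lit 1705512) (nat_lit 1) (nat_lit 1)) <|
  List.cons (Rec.mk (nat_lit 14) (nat_lit 44) (nat_lit 851227) (nat_lit 656936) (nat_lit 797581) (nat_lit 1131712) (nat_lit 797581) (nat_lit 851227) (nat_lit 1846157) (nat_lit 656936) (nat_lit 1131712) (nat_lit 1705512) (nat_lit 1) (nat_lit 1)) <|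
  List.cons (Rec.mk (nat_lit 14) (nat_lit 45) (nat_lit 851227) (nat_lit 656936) (nat_lit 687375) (nat_lit 777397) (nat_lit 687375) (nat_lit 851227) (nat_lit 1735951) (nat_lit 656936) (nat_lit 777397) (nat_lit 1705512) (nat_lit 1) (nat_lit 1)) <|
  List.cons (Rec.mk (nat_lit 14) (nat_lit 46) (nat_lit 851227) (nat_lit 656936) (nat_lit 1396838) (nat_lit 227533) (nat_lit 851227) (nat_lit 1396838) (nat_lit 1899803) (nat_lit 227533) (nat_lit 656936) (nat_lit 1276109) (nat_lit 0) (nat_lit 0)) <|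
  List.cons (Rec.mk (nat_lit 14) (nat_lit 47) (nat_lit 851227) (nat_lit 656936) (nat_lit 1257754) (nat_lit 549030) (nat_lit 851227) (nat_lit 1257754) (nat_lit 1899803) (nat_lit 549030) (nat_lit 656936) (nat_lit 1597606) (nat_lit 0) (nat_lit 1)) <|
  List.cons (Rec.mk (nat_lit 14) (nat_lit 48) (nat_lit 851227) (nat_lit 656936) (nat_lit 949236) (nat_lit 374610) (nat_lit 851227) (nat_lit 949236) (nat_lit 1899803) (nat_lit 374610) (nat_lit 656936) (nat_lit 1423186) (nat_lit 0) (nat_lit 0)) <|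
  List.cons (Rec.mk (nat_lit 14) (nat_lit 49) (nat_lit 851227) (nat_lit 656936) (nat_lit 662814) (nat_lit 807520) (nat_lit 662814) (nat_lit 851227) (nat_lit 1711390) (nat_lit 656936) (nat_lit 807520) (nat_lit 1705512) (nat_lit 1) (nat_lit 1)) <|
  List.cons (Rec.mk (nat_lit 14) (nat_lit 50) (nat_lit 851227) (nat_lit 656936) (nat_lit 1365792) (nat_lit 502786) (nat_lit 851227) (nat_lit 1365792) (nat_lit 1899803) (nat_lit 502786) (nat_lit 656936) (nat_lit 1551362) (nat_lit 0) (nat_lit 1)) <|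
  List.cons (Rec.mk (nat_lit 14) (nat_lit 51) (nat_lit 851227) (nat_lit 656936) (nat_lit 1317338) (nat_lit 231467) (nat_lit 851227) (nat_lit 1317338) (nat_lit 1899803) (nat_lit 231467) (nat_lit 656936) (nat_lit 1280043) (nat_lit 0) (nat_lit 1)) <|
  List.cons (Rec.mk (nat_lit 14) (nat_lit 52) (nat_lit 851227) (nat_lit 656936) (nat_lit 1316654) (nat_lit 447768) (nat_lit 851227) (nat_lit 1316654) (nat_lit 1899803) (nat_lit 447768) (nat_lit 656936) (nat_lit 1496344) (nat_lit 0) (nat_lit 0)) <|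
  List.cons (Rec.mk (nat_lit 14) (nat_lit 53) (nat_lit 851227) (nat_lit 656936) (nat_lit 888048) (nat_lit 578007) (nat_lit 851227) (nat_lit 888048) (nat_lit 1899803) (nat_lit 578007) (nat_lit 656936) (nat_lit 1626583) (nat_lit 0) (nat_lit 0)) <|
  List.cons (Rec.mk (nat_lit 14) (nat_lit 54) (nat_lit 851227) (nat_lit 656936) (nat_lit 530018) (nat_lit 1133018) (nat_lit 530018) (nat_lit 851227) (nat_lit 1578594) (nat_lit 656936) (nat_lit 1133018) (nat_lit 1705512) (nat_lit 1) (nat_lit 0)) <|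
  List.cons (Rec.mk (nat_lit 14) (nat_lit 55) (nat_lit 851227) (nat_lit 656936) (nat_lit 1039209) (nat_lit 675035) (nat_lit 851227) (nat_lit 1039209) (nat_lit 1899803) (nat_lit 656936) (nat_lit 675035) (nat_lit 1705512) (nat_lit 0) (nat_lit 0)) <|
  E18

def E16 : List Rec :=
  List.cons (Rec.mk (nat_lit 13) (nat_lit 17) (nat_lit 80662) (nat_lit 633316) (nat_lit 457741) (nat_lit 585975) (nat_lit 80662) (nat_lit 457741) (nat_lit 1129238) (nat_lit 585975) (nat_lit 633316) (nat_lit 1634551) (nat_lit 1) (nat_lit 1)) <|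
  List.cons (Rec.mk (nat_lit 13) (nat_lit 18) (nat_lit 80662) (nat_lit 633316) (nat_lit 314895) (nat_lit 297987) (nat_lit 80662) (nat_lit 314895) (nat_lit 1129238) (nat_lit 297987) (nat_lit 633316) (nat_lit 1346563) (nat_lit 1) (nat_lit 1)) <|
  List.cons (Rec.mk (nat_lit 13) (nat_lit 19) (nat_lit 1129238) (nat_lit 633316) (nat_lit 821034) (nat_lit 699137) (nat_lit 821034) (nat_lit 1129238) (nat_lit 1869610) (nat_lit 633316) (nat_lit 699137) (nat_lit 1681892) (nat_lit 0) (nat_lit 0)) <|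
  List.cons (Rec.mk (nat_lit 13) (nat_lit 20) (nat_lit 1129238) (nat_lit 633316) (nat_lit 876318) (nat_lit 381236) (nat_lit 876318) (nat_lit 1129238) (nat_lit 1924894) (nat_lit 381236) (nat_lit 633316) (nat_lit 1429812) (nat_lit 1) (nat_lit 1)) <|
  List.cons (Rec.mk (nat_lit 13) (nat_lit 21) (nat_lit 1129238) (nat_lit 633316) (nat_lit 918775) (nat_lit 440156) (nat_lit 918775) (nat_lit 1129238) (nat_lit 1967351) (nat_lit 440156) (nat_lit 633316) (nat_lit 1488732) (nat_lit 1) (nat_lit 1)) <|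
  List.cons (Rec.mk (nat_lit 13) (nat_lit 22) (nat_lit 80662) (nat_lit 633316) (nat_lit 236122) (nat_lit 923345) (nat_lit 80662) (nat_lit 236122) (nat_lit 1129238) (nat_lit 633316) (nat_lit 923345) (nat_lit 1681892) (nat_lit 0) (nat_lit 1)) <|
  List.cons (Rec.mk (nat_lit 13) (nat_lit 23) (nat_lit 1129238) (nat_lit 633316) (nat_lit 983221) (nat_lit 330793) (nat_lit 983221) (nat_lit 1129238) (nat_lit 2031797) (nat_lit 330793) (nat_lit 633316) (nat_lit 1379369) (nat_lit 1) (nat_lit 0)) <|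
  List.cons (Rec.mk (nat_lit 13) (nat_lit 24) (nat_lit 80662) (nat_lit 633316) (nat_lit 664612) (nat_lit 401726) (nat_lit 80662) (nat_lit 664612) (nat_lit 1129238) (nat_lit 401726) (nat_lit 633316) (nat_lit 1450302) (nat_lit 1) (nat_lit 1)) <|
  List.cons (Rec.mk (nat_lit 13) (nat_lit 25) (nat_lit 80662) (nat_lit 633316) (nat_lit 508882) (nat_lit 505448) (nat_lit 80662) (nat_lit 508882) (nat_lit 1129238) (nat_lit 505448) (nat_lit 633316) (nat_lit 1554024) (nat_lit 1) (nat_lit 0)) <|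
  List.cons (Rec.mk (nat_lit 13) (nat_lit 26) (nat_lit 80662) (nat_lit 633316) (nat_lit 46399) (nat_lit 924342) (nat_lit 46399) (nat_lit 80662) (nat_lit 1094975) (nat_lit 633316) (nat_lit 924342) (nat_lit 1681892) (nat_lit 0) (nat_lit 1)) <|
  List.cons (Rec.mk (nat_lit 13) (nat_lit 27) (nat_lit 1129238) (nat_lit 633316) (nat_lit 1020255) (nat_lit 940354) (nat_lit 1020255) (nat_lit 1129238) (nat_lit 2068831) (nat_lit 633316) (nat_lit 940354) (nat_lit 1681892) (nat_lit 0) (nat_lit 0)) <|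
  List.cons (Rec.mk (nat_lit 13) (nat_lit 28) (nat_lit 80662) (nat_lit 633316) (nat_lit 176086) (nat_lit 1028414) (nat_lit 80662) (nat_lit 176086) (nat_lit 1129238) (nat_lit 633316) (nat_lit 1028414) (nat_lit 1681892) (nat_lit 0) (nat_lit 0)) <|
  List.cons (Rec.mk (nat_lit 13) (nat_lit 29) (nat_lit 80662) (nat_lit 633316) (nat_lit 132099) (nat_lit 968835) (nat_lit 80662) (nat_lit 132099) (nat_lit 1129238) (nat_lit 633316) (nat_lit 968835) (nat_lit 1681892) (nat_lit 0) (nat_lit 0)) <|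
  List.cons (Rec.mk (nat_lit 13) (nat_lit 30) (nat_lit 1129238) (nat_lit 633316) (nat_lit 841806) (nat_lit 1076843) (nat_lit 841806) (nat_lit 1129238) (nat_lit 1890382) (nat_lit 633316) (nat_lit 1076843) (nat_lit 1681892) (nat_lit 0) (nat_lit 1)) <|
  List.cons (Rec.mk (nat_lit 13) (nat_lit 31) (nat_lit 80662) (nat_lit 633316) (nat_lit 184871) (nat_lit 196633) (nat_lit 80662) (nat_lit 184871) (nat_lit 1129238) (nat_lit 196633) (nat_lit 633316) (nat_lit 1245209) (nat_lit 1) (nat_lit 0)) <|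
  List.cons (Rec.mk (nat_lit 13) (nat_lit 32) (nat_lit 1129238) (nat_lit 633316) (nat_lit 769851) (nat_lit 1193518) (nat_lit 769851) (nat_lit 1129238) (nat_lit 1818427) (nat_lit 633316) (nat_lit 1193518) (nat_lit 1681892) (nat_lit 0) (nat_lit 0)) <|
  List.cons (Rec.mk (nat_lit 13) (nat_lit 33) (nat_lit 1129238) (nat_lit 633316) (nat_lit 628264) (nat_lit 879843) (nat_lit 628264) (nat_lit 1129238) (nat_lit 1676840) (nat_lit 633316) (nat_lit 879843) (nat_lit 1681892) (nat_lit 0) (nat_lit 0)) <|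
  List.cons (Rec.mk (nat_lit 13) (nat_lit 34) (nat_lit 80662) (nat_lit 633316) (nat_lit 138066) (nat_lit 140566) (nat_lit 80662) (nat_lit 138066) (nat_lit 1129238) (nat_lit 140566) (nat_lit 633316) (nat_lit 1189142) (nat_lit 1) (nat_lit 0)) <|
  List.cons (Rec.mk (nat_lit 13) (nat_lit 35) (nat_lit 80662) (nat_lit 633316) (nat_lit 401101) (nat_lit 813007) (nat_lit 80662) (nat_lit 401101) (nat_lit 1129238) (nat_lit 633316) (nat_lit 813007) (nat_lit 1681892) (nat_lit 0) (nat_lit 0)) <|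
  List.cons (Rec.mk (nat_lit 13) (nat_lit 36) (nat_lit 80662) (nat_lit 633316) (nat_lit 384169) (nat_lit 176938) (nat_lit 80662) (nat_lit 384169) (nat_lit 1129238) (nat_lit 176938) (nat_lit 633316) (nat_lit 1225514) (nat_lit 1) (nat_lit 0)) <|
  List.cons (Rec.mk (nat_lit 13) (nat_lit 37) (nat_lit 1129238) (nat_lit 633316) (nat_lit 981851) (nat_lit 976656) (nat_lit 981851) (nat_lit 1129238) (nat_lit 2030427) (nat_lit 633316) (nat_lit 976656) (nat_lit 1681892) (nat_lit 0) (nat_lit 0)) <|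
  List.cons (Rec.mk (nat_lit 13) (nat_lit 38) (nat_lit 80662) (nat_lit 633316) (nat_lit 712533) (nat_lit 337991) (nat_lit 80662) (nat_lit 712533) (nat_lit 1129238) (nat_lit 337991) (nat_lit 633316) (nat_lit 1386567) (nat_lit 1) (nat_lit 1)) <|
  List.cons (Rec.mk (nat_lit 13) (nat_lit 39) (nat_lit 80662) (nat_lit 633316) (nat_lit 26484) (nat_lit 718563) (nat_lit 26484) (nat_lit 80662) (nat_lit 1075060) (nat_lit 633316) (nat_lit 718563) (nat_lit 1681892) (nat_lit 0) (nat_lit 0)) <|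
  List.cons (Rec.mk (nat_lit 13) (nat_lit 40) (nat_lit 1129238) (nat_lit 633316) (nat_lit 714818) (nat_lit 1128168) (nat_lit 714818) (nat_lit 1129238) (nat_lit 1763394) (nat_lit 633316) (nat_lit 1128168) (nat_lit 1681892) (nat_lit 0) (nat_lit 0)) <|
  List.cons (Rec.mk (nat_lit 13) (nat_lit 41) (nat_lit 1129238) (nat_lit 633316) (nat_lit 587619) (nat_lit 824506) (nat_lit 587619) (nat_lit 1129238) (nat_lit 1636195) (nat_lit 633316) (nat_lit 824506) (nat_lit 1681892) (nat_lit 0) (nat_lit 0)) <|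
  List.cons (Rec.mk (nat_lit 13) (nat_lit 42) (nat_lit 1129238) (nat_lit 633316) (nat_lit 562139) (nat_lit 1101737) (nat_lit 562139) (nat_lit 1129238) (nat_lit 1610715) (nat_lit 633316) (nat_lit 1101737) (nat_lit 1681892) (nat_lit 0) (nat_lit 0)) <|
  List.cons (Rec.mk (nat_lit 13) (nat_lit 43) (nat_lit 80662) (nat_lit 633316) (nat_lit 443596) (nat_lit 733714) (nat_lit 80662) (nat_lit 443596) (nat_lit 1129238) (nat_lit 633316) (nat_lit 733714) (nat_lit 1681892) (nat_lit 1) (nat_lit 1)) <|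
  List.cons (Rec.mk (nat_lit 13) (nat_lit 44) (nat_lit 1129238) (nat_lit 633316) (nat_lit 797581) (nat_lit 1131712) (nat_lit 797581) (nat_lit 1129238) (nat_lit 1846157) (nat_lit 633316) (nat_lit 1131712) (nat_lit 1681892) (nat_lit 0) (nat_lit 1)) <|
  List.cons (Rec.mk (nat_lit 13) (nat_lit 45) (nat_lit 1129238) (nat_lit 633316) (nat_lit 687375) (nat_lit 777397) (nat_lit 687375) (nat_lit 1129238) (nat_lit 1735951) (nat_lit 633316) (nat_lit 777397) (nat_lit 1681892) (nat_lit 0) (nat_lit 1)) <|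
  List.cons (Rec.mk (nat_lit 13) (nat_lit 46) (nat_lit 80662) (nat_lit 633316) (nat_lit 348262) (nat_lit 227533) (nat_lit 80662) (nat_lit 348262) (nat_lit 1129238) (nat_lit 227533) (nat_lit 633316) (nat_lit 1276109) (nat_lit 1) (nat_lit 0)) <|
  List.cons (Rec.mk (nat_lit 13) (nat_lit 47) (nat_lit 80662) (nat_lit 633316) (nat_lit 209178) (nat_lit 549030) (nat_lit 80662) (nat_lit 209178) (nat_lit 1129238) (nat_lit 549030) (nat_lit 633316) (nat_lit 1597606) (nat_lit 1) (nat_lit 1)) <|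
  List.cons (Rec.mk (nat_lit 13) (nat_lit 48) (nat_lit 1129238) (nat_lit 633316) (nat_lit 949236) (nat_lit 374610) (nat_lit 949236) (nat_lit 1129238) (nat_lit 1997812) (nat_lit 374610) (nat_lit 633316) (nat_lit 1423186) (nat_lit 1) (nat_lit 0)) <|
  List.cons (Rec.mk (nat_lit 13) (nat_lit 49) (nat_lit 1129238) (nat_lit 633316) (nat_lit 662814) (nat_lit 807520) (nat_lit 662814) (nat_lit 1129238) (nat_lit 1711390) (nat_lit 633316) (nat_lit 807520) (nat_lit 1681892) (nat_lit 0) (nat_lit 1)) <|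
  List.cons (Rec.mk (nat_lit 13) (nat_lit 50) (nat_lit 80662) (nat_lit 633316) (nat_lit 317216) (nat_lit 502786) (nat_lit 80662) (nat_lit 317216) (nat_lit 1129238) (nat_lit 502786) (nat_lit 633316) (nat_lit 1551362) (nat_lit 1) (nat_lit 1)) <|
  List.cons (Rec.mk (nat_lit 13) (nat_lit 51) (nat_lit 80662) (nat_lit 633316) (nat_lit 268762) (nat_lit 231467) (nat_lit 80662) (nat_lit 268762) (nat_lit 1129238) (nat_lit 231467) (nat_lit 633316) (nat_lit 1280043) (nat_lit 1) (nat_lit 1)) <|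
  List.cons (Rec.mk (nat_lit 13) (nat_lit 52) (nat_lit 80662) (nat_lit 633316) (nat_lit 268078) (nat_lit 447768) (nat_lit 80662) (nat_lit 268078) (nat_lit 1129238) (nat_lit 447768) (nat_lit 633316) (nat_lit 1496344) (nat_lit 1) (nat_lit 0)) <|
  List.cons (Rec.mk (nat_lit 13) (nat_lit 53) (nat_lit 1129238) (nat_lit 633316) (nat_lit 888048) (nat_lit 578007) (nat_lit 888048) (nat_lit 1129238) (nat_lit 1936624) (nat_lit 578007) (nat_lit 633316) (nat_lit 1626583) (nat_lit 0) (nat_lit 1)) <|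
  List.cons (Rec.mk (nat_lit 13) (nat_lit 54) (nat_lit 80662) (nat_lit 633316) (nat_lit 530018) (nat_lit 84442) (nat_lit 80662) (nat_lit 530018) (nat_lit 1129238) (nat_lit 84442) (nat_lit 633316) (nat_lit 1133018) (nat_lit 1) (nat_lit 1)) <|
  List.cons (Rec.mk (nat_lit 13) (nat_lit 55) (nat_lit 1129238) (nat_lit 633316) (nat_lit 1039209) (nat_lit 675035) (nat_lit 1039209) (nat_lit 1129238) (nat_lit 2087785) (nat_lit 633316) (nat_lit 675035) (nat_lit 1681892) (nat_lit 0) (nat_lit 1)) <|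
  List.cons (Rec.mk (nat_lit 14) (nat_lit 15) (nat_lit 851227) (nat_lit 656936) (nat_lit 416168) (nat_lit 793693) (nat_lit 416168) (nat_lit 851227) (nat_lit 1464744) (nat_lit 656936) (nat_lit 793693) (nat_lit 1705512) (nat_lit 1) (nat_lit 0)) <|
  E17

def E15 : List Rec :=
  List.cons (Rec.mk (nat_lit 12) (nat_lit 19) (nat_lit 1158324) (nat_lit 204044) (nat_lit 821034) (nat_lit 699137) (nat_lit 821034) (nat_lit 1158324) (nat_lit 1869610) (nat_lit 204044) (nat_lit 699137) (nat_lit 1252620) (nat_lit 1) (nat_lit 0)) <|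
  List.cons (Rec.mk (nat_lit 12) (nat_lit 20) (nat_lit 1158324) (nat_lit 204044) (nat_lit 876318) (nat_lit 381236) (nat_lit 876318) (nat_lit 1158324) (nat_lit 1924894) (nat_lit 204044) (nat_lit 381236) (nat_lit 1252620) (nat_lit 1) (nat_lit 0)) <|
  List.cons (Rec.mk (nat_lit 12) (nat_lit 21) (nat_lit 1158324) (nat_lit 204044) (nat_lit 918775) (nat_lit 440156) (nat_lit 918775) (nat_lit 1158324) (nat_lit 1967351) (nat_lit 204044) (nat_lit 440156) (nat_lit 1252620) (nat_lit 1) (nat_lit 0)) <|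
  List.cons (Rec.mk (nat_lit 12) (nat_lit 22) (nat_lit 109748) (nat_lit 1252620) (nat_lit 236122) (nat_lit 923345) (nat_lit 109748) (nat_lit 236122) (nat_lit 1158324) (nat_lit 923345) (nat_lit 1252620) (nat_lit 1971921) (nat_lit 0) (nat_lit 0)) <|
  List.cons (Rec.mk (nat_lit 12) (nat_lit 23) (nat_lit 1158324) (nat_lit 204044) (nat_lit 983221) (nat_lit 330793) (nat_lit 983221) (nat_lit 1158324) (nat_lit 2031797) (nat_lit 204044) (nat_lit 330793) (nat_lit 1252620) (nat_lit 1) (nat_lit 1)) <|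
  List.cons (Rec.mk (nat_lit 12) (nat_lit 24) (nat_lit 1158324) (nat_lit 204044) (nat_lit 664612) (nat_lit 401726) (nat_lit 664612) (nat_lit 1158324) (nat_lit 1713188) (nat_lit 204044) (nat_lit 401726) (nat_lit 1252620) (nat_lit 1) (nat_lit 0)) <|
  List.cons (Rec.mk (nat_lit 12) (nat_lit 25) (nat_lit 1158324) (nat_lit 204044) (nat_lit 508882) (nat_lit 505448) (nat_lit 508882) (nat_lit 1158324) (nat_lit 1557458) (nat_lit 204044) (nat_lit 505448) (nat_lit 1252620) (nat_lit 1) (nat_lit 1)) <|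
  List.cons (Rec.mk (nat_lit 12) (nat_lit 26) (nat_lit 109748) (nat_lit 1252620) (nat_lit 46399) (nat_lit 924342) (nat_lit 46399) (nat_lit 109748) (nat_lit 1094975) (nat_lit 924342) (nat_lit 1252620) (nat_lit 1972918) (nat_lit 0) (nat_lit 0)) <|
  List.cons (Rec.mk (nat_lit 12) (nat_lit 27) (nat_lit 1158324) (nat_lit 1252620) (nat_lit 1020255) (nat_lit 940354) (nat_lit 1020255) (nat_lit 1158324) (nat_lit 2068831) (nat_lit 940354) (nat_lit 1252620) (nat_lit 1988930) (nat_lit 0) (nat_lit 1)) <|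
  List.cons (Rec.mk (nat_lit 12) (nat_lit 28) (nat_lit 109748) (nat_lit 1252620) (nat_lit 176086) (nat_lit 1028414) (nat_lit 109748) (nat_lit 176086) (nat_lit 1158324) (nat_lit 1028414) (nat_lit 1252620) (nat_lit 2076990) (nat_lit 0) (nat_lit 1)) <|
  List.cons (Rec.mk (nat_lit 12) (nat_lit 29) (nat_lit 109748) (nat_lit 1252620) (nat_lit 132099) (nat_lit 968835) (nat_lit 109748) (nat_lit 132099) (nat_lit 1158324) (nat_lit 968835) (nat_lit 1252620) (nat_lit 2017411) (nat_lit 0) (nat_lit 1)) <|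
  List.cons (Rec.mk (nat_lit 12) (nat_lit 30) (nat_lit 1158324) (nat_lit 204044) (nat_lit 841806) (nat_lit 28267) (nat_lit 841806) (nat_lit 1158324) (nat_lit 1890382) (nat_lit 28267) (nat_lit 204044) (nat_lit 1076843) (nat_lit 0) (nat_lit 0)) <|
  List.cons (Rec.mk (nat_lit 12) (nat_lit 31) (nat_lit 109748) (nat_lit 204044) (nat_lit 184871) (nat_lit 196633) (nat_lit 109748) (nat_lit 184871) (nat_lit 1158324) (nat_lit 196633) (nat_lit 204044) (nat_lit 1245209) (nat_lit 0) (nat_lit 0)) <|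
  List.cons (Rec.mk (nat_lit 12) (nat_lit 32) (nat_lit 1158324) (nat_lit 204044) (nat_lit 769851) (nat_lit 144942) (nat_lit 769851) (nat_lit 1158324) (nat_lit 1818427) (nat_lit 144942) (nat_lit 204044) (nat_lit 1193518) (nat_lit 1) (nat_lit 0)) <|
  List.cons (Rec.mk (nat_lit 12) (nat_lit 33) (nat_lit 109748) (nat_lit 1252620) (nat_lit 628264) (nat_lit 879843) (nat_lit 109748) (nat_lit 628264) (nat_lit 1158324) (nat_lit 879843) (nat_lit 1252620) (nat_lit 1928419) (nat_lit 0) (nat_lit 1)) <|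
  List.cons (Rec.mk (nat_lit 12) (nat_lit 34) (nat_lit 109748) (nat_lit 204044) (nat_lit 138066) (nat_lit 140566) (nat_lit 109748) (nat_lit 138066) (nat_lit 1158324) (nat_lit 140566) (nat_lit 204044) (nat_lit 1189142) (nat_lit 0) (nat_lit 0)) <|
  List.cons (Rec.mk (nat_lit 12) (nat_lit 35) (nat_lit 109748) (nat_lit 1252620) (nat_lit 401101) (nat_lit 813007) (nat_lit 109748) (nat_lit 401101) (nat_lit 1158324) (nat_lit 813007) (nat_lit 1252620) (nat_lit 1861583) (nat_lit 0) (nat_lit 1)) <|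
  List.cons (Rec.mk (nat_lit 12) (nat_lit 36) (nat_lit 109748) (nat_lit 204044) (nat_lit 384169) (nat_lit 176938) (nat_lit 109748) (nat_lit 384169) (nat_lit 1158324) (nat_lit 176938) (nat_lit 204044) (nat_lit 1225514) (nat_lit 0) (nat_lit 0)) <|
  List.cons (Rec.mk (nat_lit 12) (nat_lit 37) (nat_lit 1158324) (nat_lit 1252620) (nat_lit 981851) (nat_lit 976656) (nat_lit 981851) (nat_lit 1158324) (nat_lit 2030427) (nat_lit 976656) (nat_lit 1252620) (nat_lit 2025232) (nat_lit 0) (nat_lit 1)) <|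
  List.cons (Rec.mk (nat_lit 12) (nat_lit 38) (nat_lit 1158324) (nat_lit 204044) (nat_lit 712533) (nat_lit 337991) (nat_lit 712533) (nat_lit 1158324) (nat_lit 1761109) (nat_lit 204044) (nat_lit 337991) (nat_lit 1252620) (nat_lit 1) (nat_lit 0)) <|
  List.cons (Rec.mk (nat_lit 12) (nat_lit 39) (nat_lit 109748) (nat_lit 204044) (nat_lit 26484) (nat_lit 718563) (nat_lit 26484) (nat_lit 109748) (nat_lit 1075060) (nat_lit 204044) (nat_lit 718563) (nat_lit 1252620) (nat_lit 1) (nat_lit 0)) <|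
  List.cons (Rec.mk (nat_lit 12) (nat_lit 40) (nat_lit 1158324) (nat_lit 204044) (nat_lit 714818) (nat_lit 79592) (nat_lit 714818) (nat_lit 1158324) (nat_lit 1763394) (nat_lit 79592) (nat_lit 204044) (nat_lit 1128168) (nat_lit 0) (nat_lit 1)) <|
  List.cons (Rec.mk (nat_lit 12) (nat_lit 41) (nat_lit 109748) (nat_lit 1252620) (nat_lit 587619) (nat_lit 824506) (nat_lit 109748) (nat_lit 587619) (nat_lit 1158324) (nat_lit 824506) (nat_lit 1252620) (nat_lit 1873082) (nat_lit 0) (nat_lit 1)) <|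
  List.cons (Rec.mk (nat_lit 12) (nat_lit 42) (nat_lit 109748) (nat_lit 204044) (nat_lit 562139) (nat_lit 53161) (nat_lit 109748) (nat_lit 562139) (nat_lit 1158324) (nat_lit 53161) (nat_lit 204044) (nat_lit 1101737) (nat_lit 0) (nat_lit 1)) <|
  List.cons (Rec.mk (nat_lit 12) (nat_lit 43) (nat_lit 109748) (nat_lit 1252620) (nat_lit 443596) (nat_lit 733714) (nat_lit 109748) (nat_lit 443596) (nat_lit 1158324) (nat_lit 733714) (nat_lit 1252620) (nat_lit 1782290) (nat_lit 0) (nat_lit 0)) <|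
  List.cons (Rec.mk (nat_lit 12) (nat_lit 44) (nat_lit 1158324) (nat_lit 204044) (nat_lit 797581) (nat_lit 83136) (nat_lit 797581) (nat_lit 1158324) (nat_lit 1846157) (nat_lit 83136) (nat_lit 204044) (nat_lit 1131712) (nat_lit 0) (nat_lit 0)) <|
  List.cons (Rec.mk (nat_lit 12) (nat_lit 45) (nat_lit 109748) (nat_lit 1252620) (nat_lit 687375) (nat_lit 777397) (nat_lit 109748) (nat_lit 687375) (nat_lit 1158324) (nat_lit 777397) (nat_lit 1252620) (nat_lit 1825973) (nat_lit 0) (nat_lit 0)) <|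
  List.cons (Rec.mk (nat_lit 12) (nat_lit 46) (nat_lit 109748) (nat_lit 204044) (nat_lit 348262) (nat_lit 227533) (nat_lit 109748) (nat_lit 348262) (nat_lit 1158324) (nat_lit 204044) (nat_lit 227533) (nat_lit 1252620) (nat_lit 0) (nat_lit 0)) <|
  List.cons (Rec.mk (nat_lit 12) (nat_lit 47) (nat_lit 109748) (nat_lit 204044) (nat_lit 209178) (nat_lit 549030) (nat_lit 109748) (nat_lit 209178) (nat_lit 1158324) (nat_lit 204044) (nat_lit 549030) (nat_lit 1252620) (nat_lit 1) (nat_lit 0)) <|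
  List.cons (Rec.mk (nat_lit 12) (nat_lit 48) (nat_lit 1158324) (nat_lit 204044) (nat_lit 949236) (nat_lit 374610) (nat_lit 949236) (nat_lit 1158324) (nat_lit 1997812) (nat_lit 204044) (nat_lit 374610) (nat_lit 1252620) (nat_lit 1) (nat_lit 1)) <|
  List.cons (Rec.mk (nat_lit 12) (nat_lit 49) (nat_lit 109748) (nat_lit 1252620) (nat_lit 662814) (nat_lit 807520) (nat_lit 109748) (nat_lit 662814) (nat_lit 1158324) (nat_lit 807520) (nat_lit 1252620) (nat_lit 1856096) (nat_lit 0) (nat_lit 0)) <|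
  List.cons (Rec.mk (nat_lit 12) (nat_lit 50) (nat_lit 109748) (nat_lit 204044) (nat_lit 317216) (nat_lit 502786) (nat_lit 109748) (nat_lit 317216) (nat_lit 1158324) (nat_lit 204044) (nat_lit 502786) (nat_lit 1252620) (nat_lit 1) (nat_lit 0)) <|
  List.cons (Rec.mk (nat_lit 12) (nat_lit 51) (nat_lit 109748) (nat_lit 204044) (nat_lit 268762) (nat_lit 231467) (nat_lit 109748) (nat_lit 268762) (nat_lit 1158324) (nat_lit 204044) (nat_lit 231467) (nat_lit 1252620) (nat_lit 1) (nat_lit 1)) <|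
  List.cons (Rec.mk (nat_lit 12) (nat_lit 52) (nat_lit 109748) (nat_lit 204044) (nat_lit 268078) (nat_lit 447768) (nat_lit 109748) (nat_lit 268078) (nat_lit 1158324) (nat_lit 204044) (nat_lit 447768) (nat_lit 1252620) (nat_lit 1) (nat_lit 1)) <|
  List.cons (Rec.mk (nat_lit 12) (nat_lit 53) (nat_lit 1158324) (nat_lit 204044) (nat_lit 888048) (nat_lit 578007) (nat_lit 888048) (nat_lit 1158324) (nat_lit 1936624) (nat_lit 204044) (nat_lit 578007) (nat_lit 1252620) (nat_lit 1) (nat_lit 1)) <|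
  List.cons (Rec.mk (nat_lit 12) (nat_lit 54) (nat_lit 109748) (nat_lit 204044) (nat_lit 530018) (nat_lit 84442) (nat_lit 109748) (nat_lit 530018) (nat_lit 1158324) (nat_lit 84442) (nat_lit 204044) (nat_lit 1133018) (nat_lit 0) (nat_lit 1)) <|
  List.cons (Rec.mk (nat_lit 12) (nat_lit 55) (nat_lit 1158324) (nat_lit 204044) (nat_lit 1039209) (nat_lit 675035) (nat_lit 1039209) (nat_lit 1158324) (nat_lit 2087785) (nat_lit 204044) (nat_lit 675035) (nat_lit 1252620) (nat_lit 1) (nat_lit 1)) <|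
  List.cons (Rec.mk (nat_lit 13) (nat_lit 14) (nat_lit 1129238) (nat_lit 633316) (nat_lit 851227) (nat_lit 656936) (nat_lit 851227) (nat_lit 1129238) (nat_lit 1899803) (nat_lit 633316) (nat_lit 656936) (nat_lit 1681892) (nat_lit 0) (nat_lit 0)) <|
  List.cons (Rec.mk (nat_lit 13) (nat_lit 15) (nat_lit 80662) (nat_lit 633316) (nat_lit 416168) (nat_lit 793693) (nat_lit 80662) (nat_lit 416168) (nat_lit 1129238) (nat_lit 633316) (nat_lit 793693) (nat_lit 1681892) (nat_lit 0) (nat_lit 0)) <|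
  List.cons (Rec.mk (nat_lit 13) (nat_lit 16) (nat_lit 80662) (nat_lit 633316) (nat_lit 478612) (nat_lit 544091) (nat_lit 80662) (nat_lit 478612) (nat_lit 1129238) (nat_lit 544091) (nat_lit 633316) (nat_lit 1592667) (nat_lit 1) (nat_lit 0)) <|
  E16

def E14 : List Rec :=
  List.cons (Rec.mk (nat_lit 11) (nat_lit 22) (nat_lit 1039812) (nat_lit 872241) (nat_lit 1284698) (nat_lit 923345) (nat_lit 1039812) (nat_lit 1284698) (nat_lit 2088388) (nat_lit 872241) (nat_lit 923345) (nat_lit 1920817) (nat_lit 1) (nat_lit 0)) <|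
  List.cons (Rec.mk (nat_lit 11) (nat_lit 23) (nat_lit 1039812) (nat_lit 872241) (nat_lit 983221) (nat_lit 1379369) (nat_lit 983221) (nat_lit 1039812) (nat_lit 2031797) (nat_lit 872241) (nat_lit 1379369) (nat_lit 1920817) (nat_lit 0) (nat_lit 1)) <|
  List.cons (Rec.mk (nat_lit 11) (nat_lit 24) (nat_lit 1039812) (nat_lit 872241) (nat_lit 664612) (nat_lit 1450302) (nat_lit 664612) (nat_lit 1039812) (nat_lit 1713188) (nat_lit 872241) (nat_lit 1450302) (nat_lit 1920817) (nat_lit 0) (nat_lit 0)) <|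
  List.cons (Rec.mk (nat_lit 11) (nat_lit 25) (nat_lit 1039812) (nat_lit 872241) (nat_lit 1557458) (nat_lit 505448) (nat_lit 1039812) (nat_lit 1557458) (nat_lit 2088388) (nat_lit 505448) (nat_lit 872241) (nat_lit 1554024) (nat_lit 1) (nat_lit 0)) <|
  List.cons (Rec.mk (nat_lit 11) (nat_lit 26) (nat_lit 1039812) (nat_lit 872241) (nat_lit 1094975) (nat_lit 924342) (nat_lit 1039812) (nat_lit 1094975) (nat_lit 2088388) (nat_lit 872241) (nat_lit 924342) (nat_lit 1920817) (nat_lit 0) (nat_lit 1)) <|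
  List.cons (Rec.mk (nat_lit 11) (nat_lit 27) (nat_lit 1039812) (nat_lit 872241) (nat_lit 1020255) (nat_lit 940354) (nat_lit 1020255) (nat_lit 1039812) (nat_lit 2068831) (nat_lit 872241) (nat_lit 940354) (nat_lit 1920817) (nat_lit 0) (nat_lit 0)) <|
  List.cons (Rec.mk (nat_lit 11) (nat_lit 28) (nat_lit 1039812) (nat_lit 872241) (nat_lit 1224662) (nat_lit 1028414) (nat_lit 1039812) (nat_lit 1224662) (nat_lit 2088388) (nat_lit 872241) (nat_lit 1028414) (nat_lit 1920817) (nat_lit 0) (nat_lit 0)) <|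
  List.cons (Rec.mk (nat_lit 11) (nat_lit 29) (nat_lit 1039812) (nat_lit 872241) (nat_lit 1180675) (nat_lit 968835) (nat_lit 1039812) (nat_lit 1180675) (nat_lit 2088388) (nat_lit 872241) (nat_lit 968835) (nat_lit 1920817) (nat_lit 1) (nat_lit 0)) <|
  List.cons (Rec.mk (nat_lit 11) (nat_lit 30) (nat_lit 1039812) (nat_lit 872241) (nat_lit 841806) (nat_lit 1076843) (nat_lit 841806) (nat_lit 1039812) (nat_lit 1890382) (nat_lit 872241) (nat_lit 1076843) (nat_lit 1920817) (nat_lit 0) (nat_lit 1)) <|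
  List.cons (Rec.mk (nat_lit 11) (nat_lit 31) (nat_lit 1039812) (nat_lit 872241) (nat_lit 1233447) (nat_lit 1245209) (nat_lit 1039812) (nat_lit 1233447) (nat_lit 2088388) (nat_lit 872241) (nat_lit 1245209) (nat_lit 1920817) (nat_lit 0) (nat_lit 1)) <|
  List.cons (Rec.mk (nat_lit 11) (nat_lit 32) (nat_lit 1039812) (nat_lit 872241) (nat_lit 769851) (nat_lit 1193518) (nat_lit 769851) (nat_lit 1039812) (nat_lit 1818427) (nat_lit 872241) (nat_lit 1193518) (nat_lit 1920817) (nat_lit 0) (nat_lit 0)) <|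
  List.cons (Rec.mk (nat_lit 11) (nat_lit 33) (nat_lit 1039812) (nat_lit 872241) (nat_lit 628264) (nat_lit 879843) (nat_lit 628264) (nat_lit 1039812) (nat_lit 1676840) (nat_lit 872241) (nat_lit 879843) (nat_lit 1920817) (nat_lit 0) (nat_lit 0)) <|
  List.cons (Rec.mk (nat_lit 11) (nat_lit 34) (nat_lit 1039812) (nat_lit 872241) (nat_lit 1186642) (nat_lit 1189142) (nat_lit 1039812) (nat_lit 1186642) (nat_lit 2088388) (nat_lit 872241) (nat_lit 1189142) (nat_lit 1920817) (nat_lit 0) (nat_lit 1)) <|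
  List.cons (Rec.mk (nat_lit 11) (nat_lit 35) (nat_lit 1039812) (nat_lit 872241) (nat_lit 1449677) (nat_lit 813007) (nat_lit 1039812) (nat_lit 1449677) (nat_lit 2088388) (nat_lit 813007) (nat_lit 872241) (nat_lit 1861583) (nat_lit 1) (nat_lit 1)) <|
  List.cons (Rec.mk (nat_lit 11) (nat_lit 36) (nat_lit 1039812) (nat_lit 872241) (nat_lit 384169) (nat_lit 1225514) (nat_lit 384169) (nat_lit 1039812) (nat_lit 1432745) (nat_lit 872241) (nat_lit 1225514) (nat_lit 1920817) (nat_lit 0) (nat_lit 1)) <|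
  List.cons (Rec.mk (nat_lit 11) (nat_lit 37) (nat_lit 1039812) (nat_lit 872241) (nat_lit 981851) (nat_lit 976656) (nat_lit 981851) (nat_lit 1039812) (nat_lit 2030427) (nat_lit 872241) (nat_lit 976656) (nat_lit 1920817) (nat_lit 0) (nat_lit 0)) <|
  List.cons (Rec.mk (nat_lit 11) (nat_lit 38) (nat_lit 1039812) (nat_lit 872241) (nat_lit 712533) (nat_lit 1386567) (nat_lit 712533) (nat_lit 1039812) (nat_lit 1761109) (nat_lit 872241) (nat_lit 1386567) (nat_lit 1920817) (nat_lit 0) (nat_lit 0)) <|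
  List.cons (Rec.mk (nat_lit 11) (nat_lit 39) (nat_lit 1039812) (nat_lit 872241) (nat_lit 1075060) (nat_lit 718563) (nat_lit 1039812) (nat_lit 1075060) (nat_lit 2088388) (nat_lit 718563) (nat_lit 872241) (nat_lit 1767139) (nat_lit 1) (nat_lit 1)) <|
  List.cons (Rec.mk (nat_lit 11) (nat_lit 40) (nat_lit 1039812) (nat_lit 872241) (nat_lit 714818) (nat_lit 1128168) (nat_lit 714818) (nat_lit 1039812) (nat_lit 1763394) (nat_lit 872241) (nat_lit 1128168) (nat_lit 1920817) (nat_lit 0) (nat_lit 0)) <|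
  List.cons (Rec.mk (nat_lit 11) (nat_lit 41) (nat_lit 1039812) (nat_lit 872241) (nat_lit 587619) (nat_lit 824506) (nat_lit 587619) (nat_lit 1039812) (nat_lit 1636195) (nat_lit 824506) (nat_lit 872241) (nat_lit 1873082) (nat_lit 0) (nat_lit 1)) <|
  List.cons (Rec.mk (nat_lit 11) (nat_lit 42) (nat_lit 1039812) (nat_lit 872241) (nat_lit 562139) (nat_lit 1101737) (nat_lit 562139) (nat_lit 1039812) (nat_lit 1610715) (nat_lit 872241) (nat_lit 1101737) (nat_lit 1920817) (nat_lit 0) (nat_lit 0)) <|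
  List.cons (Rec.mk (nat_lit 11) (nat_lit 43) (nat_lit 1039812) (nat_lit 872241) (nat_lit 1492172) (nat_lit 733714) (nat_lit 1039812) (nat_lit 1492172) (nat_lit 2088388) (nat_lit 733714) (nat_lit 872241) (nat_lit 1782290) (nat_lit 1) (nat_lit 0)) <|
  List.cons (Rec.mk (nat_lit 11) (nat_lit 44) (nat_lit 1039812) (nat_lit 872241) (nat_lit 797581) (nat_lit 1131712) (nat_lit 797581) (nat_lit 1039812) (nat_lit 1846157) (nat_lit 872241) (nat_lit 1131712) (nat_lit 1920817) (nat_lit 0) (nat_lit 1)) <|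
  List.cons (Rec.mk (nat_lit 11) (nat_lit 45) (nat_lit 1039812) (nat_lit 872241) (nat_lit 687375) (nat_lit 777397) (nat_lit 687375) (nat_lit 1039812) (nat_lit 1735951) (nat_lit 777397) (nat_lit 872241) (nat_lit 1825973) (nat_lit 0) (nat_lit 1)) <|
  List.cons (Rec.mk (nat_lit 11) (nat_lit 46) (nat_lit 1039812) (nat_lit 872241) (nat_lit 1396838) (nat_lit 227533) (nat_lit 1039812) (nat_lit 1396838) (nat_lit 2088388) (nat_lit 227533) (nat_lit 872241) (nat_lit 1276109) (nat_lit 1) (nat_lit 0)) <|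
  List.cons (Rec.mk (nat_lit 11) (nat_lit 47) (nat_lit 1039812) (nat_lit 872241) (nat_lit 1257754) (nat_lit 549030) (nat_lit 1039812) (nat_lit 1257754) (nat_lit 2088388) (nat_lit 549030) (nat_lit 872241) (nat_lit 1597606) (nat_lit 1) (nat_lit 1)) <|
  List.cons (Rec.mk (nat_lit 11) (nat_lit 48) (nat_lit 1039812) (nat_lit 872241) (nat_lit 949236) (nat_lit 1423186) (nat_lit 949236) (nat_lit 1039812) (nat_lit 1997812) (nat_lit 872241) (nat_lit 1423186) (nat_lit 1920817) (nat_lit 0) (nat_lit 1)) <|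
  List.cons (Rec.mk (nat_lit 11) (nat_lit 49) (nat_lit 1039812) (nat_lit 872241) (nat_lit 662814) (nat_lit 807520) (nat_lit 662814) (nat_lit 1039812) (nat_lit 1711390) (nat_lit 807520) (nat_lit 872241) (nat_lit 1856096) (nat_lit 0) (nat_lit 1)) <|
  List.cons (Rec.mk (nat_lit 11) (nat_lit 50) (nat_lit 1039812) (nat_lit 872241) (nat_lit 1365792) (nat_lit 502786) (nat_lit 1039812) (nat_lit 1365792) (nat_lit 2088388) (nat_lit 502786) (nat_lit 872241) (nat_lit 1551362) (nat_lit 1) (nat_lit 1)) <|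
  List.cons (Rec.mk (nat_lit 11) (nat_lit 51) (nat_lit 1039812) (nat_lit 872241) (nat_lit 1317338) (nat_lit 231467) (nat_lit 1039812) (nat_lit 1317338) (nat_lit 2088388) (nat_lit 231467) (nat_lit 872241) (nat_lit 1280043) (nat_lit 1) (nat_lit 1)) <|
  List.cons (Rec.mk (nat_lit 11) (nat_lit 52) (nat_lit 1039812) (nat_lit 872241) (nat_lit 1316654) (nat_lit 447768) (nat_lit 1039812) (nat_lit 1316654) (nat_lit 2088388) (nat_lit 447768) (nat_lit 872241) (nat_lit 1496344) (nat_lit 1) (nat_lit 0)) <|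
  List.cons (Rec.mk (nat_lit 11) (nat_lit 53) (nat_lit 1039812) (nat_lit 872241) (nat_lit 888048) (nat_lit 578007) (nat_lit 888048) (nat_lit 1039812) (nat_lit 1936624) (nat_lit 578007) (nat_lit 872241) (nat_lit 1626583) (nat_lit 1) (nat_lit 0)) <|
  List.cons (Rec.mk (nat_lit 11) (nat_lit 54) (nat_lit 1039812) (nat_lit 872241) (nat_lit 530018) (nat_lit 1133018) (nat_lit 530018) (nat_lit 1039812) (nat_lit 1578594) (nat_lit 872241) (nat_lit 1133018) (nat_lit 1920817) (nat_lit 0) (nat_lit 0)) <|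
  List.cons (Rec.mk (nat_lit 11) (nat_lit 55) (nat_lit 1039812) (nat_lit 872241) (nat_lit 1039209) (nat_lit 675035) (nat_lit 1039209) (nat_lit 1039812) (nat_lit 2087785) (nat_lit 675035) (nat_lit 872241) (nat_lit 1723611) (nat_lit 1) (nat_lit 0)) <|
  List.cons (Rec.mk (nat_lit 12) (nat_lit 13) (nat_lit 109748) (nat_lit 204044) (nat_lit 80662) (nat_lit 633316) (nat_lit 80662) (nat_lit 109748) (nat_lit 1129238) (nat_lit 204044) (nat_lit 633316) (nat_lit 1252620) (nat_lit 1) (nat_lit 1)) <|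
  List.cons (Rec.mk (nat_lit 12) (nat_lit 14) (nat_lit 1158324) (nat_lit 204044) (nat_lit 851227) (nat_lit 656936) (nat_lit 851227) (nat_lit 1158324) (nat_lit 1899803) (nat_lit 204044) (nat_lit 656936) (nat_lit 1252620) (nat_lit 1) (nat_lit 0)) <|
  List.cons (Rec.mk (nat_lit 12) (nat_lit 15) (nat_lit 109748) (nat_lit 1252620) (nat_lit 416168) (nat_lit 793693) (nat_lit 109748) (nat_lit 416168) (nat_lit 1158324) (nat_lit 793693) (nat_lit 1252620) (nat_lit 1842269) (nat_lit 0) (nat_lit 1)) <|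
  List.cons (Rec.mk (nat_lit 12) (nat_lit 16) (nat_lit 1158324) (nat_lit 204044) (nat_lit 478612) (nat_lit 544091) (nat_lit 478612) (nat_lit 1158324) (nat_lit 1527188) (nat_lit 204044) (nat_lit 544091) (nat_lit 1252620) (nat_lit 1) (nat_lit 1)) <|
  List.cons (Rec.mk (nat_lit 12) (nat_lit 17) (nat_lit 109748) (nat_lit 1252620) (nat_lit 457741) (nat_lit 585975) (nat_lit 109748) (nat_lit 457741) (nat_lit 1158324) (nat_lit 585975) (nat_lit 1252620) (nat_lit 1634551) (nat_lit 0) (nat_lit 1)) <|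
  List.cons (Rec.mk (nat_lit 12) (nat_lit 18) (nat_lit 109748) (nat_lit 204044) (nat_lit 314895) (nat_lit 297987) (nat_lit 109748) (nat_lit 314895) (nat_lit 1158324) (nat_lit 204044) (nat_lit 297987) (nat_lit 1252620) (nat_lit 1) (nat_lit 1)) <|
  E15

def E13 : List Rec :=
  List.cons (Rec.mk (nat_lit 10) (nat_lit 26) (nat_lit 802444) (nat_lit 1392381) (nat_lit 1094975) (nat_lit 924342) (nat_lit 802444) (nat_lit 1094975) (nat_lit 1851020) (nat_lit 924342) (nat_lit 1392381) (nat_lit 1972918) (nat_lit 1) (nat_lit 0)) <|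
  List.cons (Rec.mk (nat_lit 10) (nat_lit 27) (nat_lit 802444) (nat_lit 1392381) (nat_lit 1020255) (nat_lit 940354) (nat_lit 802444) (nat_lit 1020255) (nat_lit 1851020) (nat_lit 940354) (nat_lit 1392381) (nat_lit 1988930) (nat_lit 1) (nat_lit 1)) <|
  List.cons (Rec.mk (nat_lit 10) (nat_lit 28) (nat_lit 802444) (nat_lit 1392381) (nat_lit 1224662) (nat_lit 1028414) (nat_lit 802444) (nat_lit 1224662) (nat_lit 1851020) (nat_lit 1028414) (nat_lit 1392381) (nat_lit 2076990) (nat_lit 1) (nat_lit 1)) <|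
  List.cons (Rec.mk (nat_lit 10) (nat_lit 29) (nat_lit 802444) (nat_lit 1392381) (nat_lit 1180675) (nat_lit 968835) (nat_lit 802444) (nat_lit 1180675) (nat_lit 1851020) (nat_lit 968835) (nat_lit 1392381) (nat_lit 2017411) (nat_lit 1) (nat_lit 1)) <|
  List.cons (Rec.mk (nat_lit 10) (nat_lit 30) (nat_lit 802444) (nat_lit 343805) (nat_lit 841806) (nat_lit 28267) (nat_lit 802444) (nat_lit 841806) (nat_lit 1851020) (nat_lit 28267) (nat_lit 343805) (nat_lit 1076843) (nat_lit 1) (nat_lit 0)) <|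
  List.cons (Rec.mk (nat_lit 10) (nat_lit 31) (nat_lit 802444) (nat_lit 343805) (nat_lit 1233447) (nat_lit 196633) (nat_lit 802444) (nat_lit 1233447) (nat_lit 1851020) (nat_lit 196633) (nat_lit 343805) (nat_lit 1245209) (nat_lit 1) (nat_lit 0)) <|
  List.cons (Rec.mk (nat_lit 10) (nat_lit 32) (nat_lit 802444) (nat_lit 343805) (nat_lit 769851) (nat_lit 144942) (nat_lit 769851) (nat_lit 802444) (nat_lit 1818427) (nat_lit 144942) (nat_lit 343805) (nat_lit 1193518) (nat_lit 1) (nat_lit 1)) <|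
  List.cons (Rec.mk (nat_lit 10) (nat_lit 33) (nat_lit 802444) (nat_lit 343805) (nat_lit 628264) (nat_lit 879843) (nat_lit 628264) (nat_lit 802444) (nat_lit 1676840) (nat_lit 343805) (nat_lit 879843) (nat_lit 1392381) (nat_lit 0) (nat_lit 0)) <|
  List.cons (Rec.mk (nat_lit 10) (nat_lit 34) (nat_lit 802444) (nat_lit 343805) (nat_lit 1186642) (nat_lit 140566) (nat_lit 802444) (nat_lit 1186642) (nat_lit 1851020) (nat_lit 140566) (nat_lit 343805) (nat_lit 1189142) (nat_lit 1) (nat_lit 0)) <|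
  List.cons (Rec.mk (nat_lit 10) (nat_lit 35) (nat_lit 802444) (nat_lit 343805) (nat_lit 401101) (nat_lit 813007) (nat_lit 401101) (nat_lit 802444) (nat_lit 1449677) (nat_lit 343805) (nat_lit 813007) (nat_lit 1392381) (nat_lit 0) (nat_lit 0)) <|
  List.cons (Rec.mk (nat_lit 10) (nat_lit 36) (nat_lit 802444) (nat_lit 343805) (nat_lit 384169) (nat_lit 176938) (nat_lit 384169) (nat_lit 802444) (nat_lit 1432745) (nat_lit 176938) (nat_lit 343805) (nat_lit 1225514) (nat_lit 1) (nat_lit 1)) <|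
  List.cons (Rec.mk (nat_lit 10) (nat_lit 37) (nat_lit 802444) (nat_lit 1392381) (nat_lit 981851) (nat_lit 976656) (nat_lit 802444) (nat_lit 981851) (nat_lit 1851020) (nat_lit 976656) (nat_lit 1392381) (nat_lit 2025232) (nat_lit 1) (nat_lit 1)) <|
  List.cons (Rec.mk (nat_lit 10) (nat_lit 38) (nat_lit 802444) (nat_lit 343805) (nat_lit 712533) (nat_lit 337991) (nat_lit 712533) (nat_lit 802444) (nat_lit 1761109) (nat_lit 337991) (nat_lit 343805) (nat_lit 1386567) (nat_lit 0) (nat_lit 0)) <|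
  List.cons (Rec.mk (nat_lit 10) (nat_lit 39) (nat_lit 802444) (nat_lit 1392381) (nat_lit 1075060) (nat_lit 718563) (nat_lit 802444) (nat_lit 1075060) (nat_lit 1851020) (nat_lit 718563) (nat_lit 1392381) (nat_lit 1767139) (nat_lit 1) (nat_lit 1)) <|
  List.cons (Rec.mk (nat_lit 10) (nat_lit 40) (nat_lit 802444) (nat_lit 343805) (nat_lit 714818) (nat_lit 79592) (nat_lit 714818) (nat_lit 802444) (nat_lit 1763394) (nat_lit 79592) (nat_lit 343805) (nat_lit 1128168) (nat_lit 1) (nat_lit 1)) <|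
  List.cons (Rec.mk (nat_lit 10) (nat_lit 41) (nat_lit 802444) (nat_lit 343805) (nat_lit 587619) (nat_lit 824506) (nat_lit 587619) (nat_lit 802444) (nat_lit 1636195) (nat_lit 343805) (nat_lit 824506) (nat_lit 1392381) (nat_lit 0) (nat_lit 0)) <|
  List.cons (Rec.mk (nat_lit 10) (nat_lit 42) (nat_lit 802444) (nat_lit 343805) (nat_lit 562139) (nat_lit 53161) (nat_lit 562139) (nat_lit 802444) (nat_lit 1610715) (nat_lit 53161) (nat_lit 343805) (nat_lit 1101737) (nat_lit 1) (nat_lit 1)) <|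
  List.cons (Rec.mk (nat_lit 10) (nat_lit 43) (nat_lit 802444) (nat_lit 343805) (nat_lit 443596) (nat_lit 733714) (nat_lit 443596) (nat_lit 802444) (nat_lit 1492172) (nat_lit 343805) (nat_lit 733714) (nat_lit 1392381) (nat_lit 0) (nat_lit 1)) <|
  List.cons (Rec.mk (nat_lit 10) (nat_lit 44) (nat_lit 802444) (nat_lit 343805) (nat_lit 797581) (nat_lit 83136) (nat_lit 797581) (nat_lit 802444) (nat_lit 1846157) (nat_lit 83136) (nat_lit 343805) (nat_lit 1131712) (nat_lit 1) (nat_lit 0)) <|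
  List.cons (Rec.mk (nat_lit 10) (nat_lit 45) (nat_lit 802444) (nat_lit 343805) (nat_lit 687375) (nat_lit 777397) (nat_lit 687375) (nat_lit 802444) (nat_lit 1735951) (nat_lit 343805) (nat_lit 777397) (nat_lit 1392381) (nat_lit 0) (nat_lit 1)) <|
  List.cons (Rec.mk (nat_lit 10) (nat_lit 46) (nat_lit 802444) (nat_lit 343805) (nat_lit 348262) (nat_lit 227533) (nat_lit 348262) (nat_lit 802444) (nat_lit 1396838) (nat_lit 227533) (nat_lit 343805) (nat_lit 1276109) (nat_lit 1) (nat_lit 0)) <|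
  List.cons (Rec.mk (nat_lit 10) (nat_lit 47) (nat_lit 802444) (nat_lit 343805) (nat_lit 209178) (nat_lit 549030) (nat_lit 209178) (nat_lit 802444) (nat_lit 1257754) (nat_lit 343805) (nat_lit 549030) (nat_lit 1392381) (nat_lit 0) (nat_lit 0)) <|
  List.cons (Rec.mk (nat_lit 10) (nat_lit 48) (nat_lit 802444) (nat_lit 343805) (nat_lit 949236) (nat_lit 374610) (nat_lit 802444) (nat_lit 949236) (nat_lit 1851020) (nat_lit 343805) (nat_lit 374610) (nat_lit 1392381) (nat_lit 0) (nat_lit 1)) <|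
  List.cons (Rec.mk (nat_lit 10) (nat_lit 49) (nat_lit 802444) (nat_lit 343805) (nat_lit 662814) (nat_lit 807520) (nat_lit 662814) (nat_lit 802444) (nat_lit 1711390) (nat_lit 343805) (nat_lit 807520) (nat_lit 1392381) (nat_lit 0) (nat_lit 1)) <|
  List.cons (Rec.mk (nat_lit 10) (nat_lit 50) (nat_lit 802444) (nat_lit 343805) (nat_lit 317216) (nat_lit 502786) (nat_lit 317216) (nat_lit 802444) (nat_lit 1365792) (nat_lit 343805) (nat_lit 502786) (nat_lit 1392381) (nat_lit 0) (nat_lit 0)) <|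
  List.cons (Rec.mk (nat_lit 10) (nat_lit 51) (nat_lit 802444) (nat_lit 343805) (nat_lit 1317338) (nat_lit 231467) (nat_lit 802444) (nat_lit 1317338) (nat_lit 1851020) (nat_lit 231467) (nat_lit 343805) (nat_lit 1280043) (nat_lit 1) (nat_lit 1)) <|
  List.cons (Rec.mk (nat_lit 10) (nat_lit 52) (nat_lit 802444) (nat_lit 343805) (nat_lit 268078) (nat_lit 447768) (nat_lit 268078) (nat_lit 802444) (nat_lit 1316654) (nat_lit 343805) (nat_lit 447768) (nat_lit 1392381) (nat_lit 0) (nat_lit 1)) <|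
  List.cons (Rec.mk (nat_lit 10) (nat_lit 53) (nat_lit 802444) (nat_lit 343805) (nat_lit 888048) (nat_lit 578007) (nat_lit 802444) (nat_lit 888048) (nat_lit 1851020) (nat_lit 343805) (nat_lit 578007) (nat_lit 1392381) (nat_lit 0) (nat_lit 1)) <|
  List.cons (Rec.mk (nat_lit 10) (nat_lit 54) (nat_lit 802444) (nat_lit 343805) (nat_lit 530018) (nat_lit 84442) (nat_lit 530018) (nat_lit 802444) (nat_lit 1578594) (nat_lit 84442) (nat_lit 343805) (nat_lit 1133018) (nat_lit 1) (nat_lit 1)) <|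
  List.cons (Rec.mk (nat_lit 10) (nat_lit 55) (nat_lit 802444) (nat_lit 343805) (nat_lit 1039209) (nat_lit 675035) (nat_lit 802444) (nat_lit 1039209) (nat_lit 1851020) (nat_lit 343805) (nat_lit 675035) (nat_lit 1392381) (nat_lit 0) (nat_lit 1)) <|
  List.cons (Rec.mk (nat_lit 11) (nat_lit 12) (nat_lit 1039812) (nat_lit 872241) (nat_lit 1158324) (nat_lit 1252620) (nat_lit 1039812) (nat_lit 1158324) (nat_lit 2088388) (nat_lit 872241) (nat_lit 1252620) (nat_lit 1920817) (nat_lit 0) (nat_lit 0)) <|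
  List.cons (Rec.mk (nat_lit 11) (nat_lit 13) (nat_lit 1039812) (nat_lit 872241) (nat_lit 1129238) (nat_lit 633316) (nat_lit 1039812) (nat_lit 1129238) (nat_lit 2088388) (nat_lit 633316) (nat_lit 872241) (nat_lit 1681892) (nat_lit 1) (nat_lit 0)) <|
  List.cons (Rec.mk (nat_lit 11) (nat_lit 14) (nat_lit 1039812) (nat_lit 872241) (nat_lit 851227) (nat_lit 656936) (nat_lit 851227) (nat_lit 1039812) (nat_lit 1899803) (nat_lit 656936) (nat_lit 872241) (nat_lit 1705512) (nat_lit 1) (nat_lit 1)) <|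
  List.cons (Rec.mk (nat_lit 11) (nat_lit 15) (nat_lit 1039812) (nat_lit 872241) (nat_lit 1464744) (nat_lit 793693) (nat_lit 1039812) (nat_lit 1464744) (nat_lit 2088388) (nat_lit 793693) (nat_lit 872241) (nat_lit 1842269) (nat_lit 1) (nat_lit 1)) <|
  List.cons (Rec.mk (nat_lit 11) (nat_lit 16) (nat_lit 1039812) (nat_lit 872241) (nat_lit 1527188) (nat_lit 544091) (nat_lit 1039812) (nat_lit 1527188) (nat_lit 2088388) (nat_lit 544091) (nat_lit 872241) (nat_lit 1592667) (nat_lit 1) (nat_lit 0)) <|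
  List.cons (Rec.mk (nat_lit 11) (nat_lit 17) (nat_lit 1039812) (nat_lit 872241) (nat_lit 1506317) (nat_lit 585975) (nat_lit 1039812) (nat_lit 1506317) (nat_lit 2088388) (nat_lit 585975) (nat_lit 872241) (nat_lit 1634551) (nat_lit 1) (nat_lit 1)) <|
  List.cons (Rec.mk (nat_lit 11) (nat_lit 18) (nat_lit 1039812) (nat_lit 872241) (nat_lit 1363471) (nat_lit 297987) (nat_lit 1039812) (nat_lit 1363471) (nat_lit 2088388) (nat_lit 297987) (nat_lit 872241) (nat_lit 1346563) (nat_lit 1) (nat_lit 1)) <|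
  List.cons (Rec.mk (nat_lit 11) (nat_lit 19) (nat_lit 1039812) (nat_lit 872241) (nat_lit 821034) (nat_lit 699137) (nat_lit 821034) (nat_lit 1039812) (nat_lit 1869610) (nat_lit 699137) (nat_lit 872241) (nat_lit 1747713) (nat_lit 1) (nat_lit 1)) <|
  List.cons (Rec.mk (nat_lit 11) (nat_lit 20) (nat_lit 1039812) (nat_lit 872241) (nat_lit 876318) (nat_lit 1429812) (nat_lit 876318) (nat_lit 1039812) (nat_lit 1924894) (nat_lit 872241) (nat_lit 1429812) (nat_lit 1920817) (nat_lit 0) (nat_lit 0)) <|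
  List.cons (Rec.mk (nat_lit 11) (nat_lit 21) (nat_lit 1039812) (nat_lit 872241) (nat_lit 918775) (nat_lit 440156) (nat_lit 918775) (nat_lit 1039812) (nat_lit 1967351) (nat_lit 440156) (nat_lit 872241) (nat_lit 1488732) (nat_lit 1) (nat_lit 1)) <|
  E14

def E12 : List Rec :=
  List.cons (Rec.mk (nat_lit 9) (nat_lit 31) (nat_lit 38750) (nat_lit 684886) (nat_lit 184871) (nat_lit 196633) (nat_lit 38750) (nat_lit 184871) (nat_lit 1087326) (nat_lit 196633) (nat_lit 684886) (nat_lit 1245209) (nat_lit 1) (nat_lit 0)) <|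
  List.cons (Rec.mk (nat_lit 9) (nat_lit 32) (nat_lit 1087326) (nat_lit 684886) (nat_lit 769851) (nat_lit 1193518) (nat_lit 769851) (nat_lit 1087326) (nat_lit 1818427) (nat_lit 684886) (nat_lit 1193518) (nat_lit 1733462) (nat_lit 0) (nat_lit 0)) <|
  List.cons (Rec.mk (nat_lit 9) (nat_lit 33) (nat_lit 1087326) (nat_lit 684886) (nat_lit 628264) (nat_lit 879843) (nat_lit 628264) (nat_lit 1087326) (nat_lit 1676840) (nat_lit 684886) (nat_lit 879843) (nat_lit 1733462) (nat_lit 0) (nat_lit 0)) <|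
  List.cons (Rec.mk (nat_lit 9) (nat_lit 34) (nat_lit 38750) (nat_lit 684886) (nat_lit 138066) (nat_lit 140566) (nat_lit 38750) (nat_lit 138066) (nat_lit 1087326) (nat_lit 140566) (nat_lit 684886) (nat_lit 1189142) (nat_lit 1) (nat_lit 0)) <|
  List.cons (Rec.mk (nat_lit 9) (nat_lit 35) (nat_lit 38750) (nat_lit 684886) (nat_lit 401101) (nat_lit 813007) (nat_lit 38750) (nat_lit 401101) (nat_lit 1087326) (nat_lit 684886) (nat_lit 813007) (nat_lit 1733462) (nat_lit 0) (nat_lit 0)) <|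
  List.cons (Rec.mk (nat_lit 9) (nat_lit 36) (nat_lit 38750) (nat_lit 684886) (nat_lit 384169) (nat_lit 176938) (nat_lit 38750) (nat_lit 384169) (nat_lit 1087326) (nat_lit 176938) (nat_lit 684886) (nat_lit 1225514) (nat_lit 1) (nat_lit 0)) <|
  List.cons (Rec.mk (nat_lit 9) (nat_lit 37) (nat_lit 1087326) (nat_lit 684886) (nat_lit 981851) (nat_lit 976656) (nat_lit 981851) (nat_lit 1087326) (nat_lit 2030427) (nat_lit 684886) (nat_lit 976656) (nat_lit 1733462) (nat_lit 0) (nat_lit 0)) <|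
  List.cons (Rec.mk (nat_lit 9) (nat_lit 38) (nat_lit 38750) (nat_lit 684886) (nat_lit 712533) (nat_lit 337991) (nat_lit 38750) (nat_lit 712533) (nat_lit 1087326) (nat_lit 337991) (nat_lit 684886) (nat_lit 1386567) (nat_lit 1) (nat_lit 1)) <|
  List.cons (Rec.mk (nat_lit 9) (nat_lit 39) (nat_lit 38750) (nat_lit 684886) (nat_lit 26484) (nat_lit 718563) (nat_lit 26484) (nat_lit 38750) (nat_lit 1075060) (nat_lit 684886) (nat_lit 718563) (nat_lit 1733462) (nat_lit 0) (nat_lit 0)) <|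
  List.cons (Rec.mk (nat_lit 9) (nat_lit 40) (nat_lit 1087326) (nat_lit 684886) (nat_lit 714818) (nat_lit 1128168) (nat_lit 714818) (nat_lit 1087326) (nat_lit 1763394) (nat_lit 684886) (nat_lit 1128168) (nat_lit 1733462) (nat_lit 0) (nat_lit 0)) <|
  List.cons (Rec.mk (nat_lit 9) (nat_lit 41) (nat_lit 1087326) (nat_lit 684886) (nat_lit 587619) (nat_lit 824506) (nat_lit 587619) (nat_lit 1087326) (nat_lit 1636195) (nat_lit 684886) (nat_lit 824506) (nat_lit 1733462) (nat_lit 0) (nat_lit 0)) <|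
  List.cons (Rec.mk (nat_lit 9) (nat_lit 42) (nat_lit 1087326) (nat_lit 684886) (nat_lit 562139) (nat_lit 1101737) (nat_lit 562139) (nat_lit 1087326) (nat_lit 1610715) (nat_lit 684886) (nat_lit 1101737) (nat_lit 1733462) (nat_lit 0) (nat_lit 0)) <|
  List.cons (Rec.mk (nat_lit 9) (nat_lit 43) (nat_lit 38750) (nat_lit 684886) (nat_lit 443596) (nat_lit 733714) (nat_lit 38750) (nat_lit 443596) (nat_lit 1087326) (nat_lit 684886) (nat_lit 733714) (nat_lit 1733462) (nat_lit 0) (nat_lit 1)) <|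
  List.cons (Rec.mk (nat_lit 9) (nat_lit 44) (nat_lit 1087326) (nat_lit 684886) (nat_lit 797581) (nat_lit 1131712) (nat_lit 797581) (nat_lit 1087326) (nat_lit 1846157) (nat_lit 684886) (nat_lit 1131712) (nat_lit 1733462) (nat_lit 0) (nat_lit 1)) <|
  List.cons (Rec.mk (nat_lit 9) (nat_lit 45) (nat_lit 1087326) (nat_lit 684886) (nat_lit 687375) (nat_lit 777397) (nat_lit 687375) (nat_lit 1087326) (nat_lit 1735951) (nat_lit 684886) (nat_lit 777397) (nat_lit 1733462) (nat_lit 0) (nat_lit 1)) <|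
  List.cons (Rec.mk (nat_lit 9) (nat_lit 46) (nat_lit 38750) (nat_lit 684886) (nat_lit 348262) (nat_lit 227533) (nat_lit 38750) (nat_lit 348262) (nat_lit 1087326) (nat_lit 227533) (nat_lit 684886) (nat_lit 1276109) (nat_lit 1) (nat_lit 0)) <|
  List.cons (Rec.mk (nat_lit 9) (nat_lit 47) (nat_lit 38750) (nat_lit 684886) (nat_lit 209178) (nat_lit 549030) (nat_lit 38750) (nat_lit 209178) (nat_lit 1087326) (nat_lit 549030) (nat_lit 684886) (nat_lit 1597606) (nat_lit 1) (nat_lit 1)) <|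
  List.cons (Rec.mk (nat_lit 9) (nat_lit 48) (nat_lit 1087326) (nat_lit 684886) (nat_lit 949236) (nat_lit 374610) (nat_lit 949236) (nat_lit 1087326) (nat_lit 1997812) (nat_lit 374610) (nat_lit 684886) (nat_lit 1423186) (nat_lit 1) (nat_lit 0)) <|
  List.cons (Rec.mk (nat_lit 9) (nat_lit 49) (nat_lit 1087326) (nat_lit 684886) (nat_lit 662814) (nat_lit 807520) (nat_lit 662814) (nat_lit 1087326) (nat_lit 1711390) (nat_lit 684886) (nat_lit 807520) (nat_lit 1733462) (nat_lit 0) (nat_lit 1)) <|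
  List.cons (Rec.mk (nat_lit 9) (nat_lit 50) (nat_lit 38750) (nat_lit 684886) (nat_lit 317216) (nat_lit 502786) (nat_lit 38750) (nat_lit 317216) (nat_lit 1087326) (nat_lit 502786) (nat_lit 684886) (nat_lit 1551362) (nat_lit 1) (nat_lit 1)) <|
  List.cons (Rec.mk (nat_lit 9) (nat_lit 51) (nat_lit 38750) (nat_lit 684886) (nat_lit 268762) (nat_lit 231467) (nat_lit 38750) (nat_lit 268762) (nat_lit 1087326) (nat_lit 231467) (nat_lit 684886) (nat_lit 1280043) (nat_lit 1) (nat_lit 1)) <|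
  List.cons (Rec.mk (nat_lit 9) (nat_lit 52) (nat_lit 38750) (nat_lit 684886) (nat_lit 268078) (nat_lit 447768) (nat_lit 38750) (nat_lit 268078) (nat_lit 1087326) (nat_lit 447768) (nat_lit 684886) (nat_lit 1496344) (nat_lit 1) (nat_lit 0)) <|
  List.cons (Rec.mk (nat_lit 9) (nat_lit 53) (nat_lit 1087326) (nat_lit 684886) (nat_lit 888048) (nat_lit 578007) (nat_lit 888048) (nat_lit 1087326) (nat_lit 1936624) (nat_lit 578007) (nat_lit 684886) (nat_lit 1626583) (nat_lit 1) (nat_lit 1)) <|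
  List.cons (Rec.mk (nat_lit 9) (nat_lit 54) (nat_lit 1087326) (nat_lit 684886) (nat_lit 530018) (nat_lit 1133018) (nat_lit 530018) (nat_lit 1087326) (nat_lit 1578594) (nat_lit 684886) (nat_lit 1133018) (nat_lit 1733462) (nat_lit 0) (nat_lit 0)) <|
  List.cons (Rec.mk (nat_lit 9) (nat_lit 55) (nat_lit 1087326) (nat_lit 684886) (nat_lit 1039209) (nat_lit 675035) (nat_lit 1039209) (nat_lit 1087326) (nat_lit 2087785) (nat_lit 675035) (nat_lit 684886) (nat_lit 1723611) (nat_lit 1) (nat_lit 0)) <|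
  List.cons (Rec.mk (nat_lit 10) (nat_lit 11) (nat_lit 802444) (nat_lit 1392381) (nat_lit 1039812) (nat_lit 872241) (nat_lit 802444) (nat_lit 1039812) (nat_lit 1851020) (nat_lit 872241) (nat_lit 1392381) (nat_lit 1920817) (nat_lit 1) (nat_lit 0)) <|
  List.cons (Rec.mk (nat_lit 10) (nat_lit 12) (nat_lit 802444) (nat_lit 343805) (nat_lit 1158324) (nat_lit 204044) (nat_lit 802444) (nat_lit 1158324) (nat_lit 1851020) (nat_lit 204044) (nat_lit 343805) (nat_lit 1252620) (nat_lit 1) (nat_lit 1)) <|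
  List.cons (Rec.mk (nat_lit 10) (nat_lit 13) (nat_lit 802444) (nat_lit 343805) (nat_lit 1129238) (nat_lit 633316) (nat_lit 802444) (nat_lit 1129238) (nat_lit 1851020) (nat_lit 343805) (nat_lit 633316) (nat_lit 1392381) (nat_lit 0) (nat_lit 1)) <|
  List.cons (Rec.mk (nat_lit 10) (nat_lit 14) (nat_lit 802444) (nat_lit 343805) (nat_lit 851227) (nat_lit 656936) (nat_lit 802444) (nat_lit 851227) (nat_lit 1851020) (nat_lit 343805) (nat_lit 656936) (nat_lit 1392381) (nat_lit 0) (nat_lit 0)) <|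
  List.cons (Rec.mk (nat_lit 10) (nat_lit 15) (nat_lit 802444) (nat_lit 343805) (nat_lit 416168) (nat_lit 793693) (nat_lit 416168) (nat_lit 802444) (nat_lit 1464744) (nat_lit 343805) (nat_lit 793693) (nat_lit 1392381) (nat_lit 0) (nat_lit 0)) <|
  List.cons (Rec.mk (nat_lit 10) (nat_lit 16) (nat_lit 802444) (nat_lit 343805) (nat_lit 478612) (nat_lit 544091) (nat_lit 478612) (nat_lit 802444) (nat_lit 1527188) (nat_lit 343805) (nat_lit 544091) (nat_lit 1392381) (nat_lit 0) (nat_lit 1)) <|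
  List.cons (Rec.mk (nat_lit 10) (nat_lit 17) (nat_lit 802444) (nat_lit 343805) (nat_lit 457741) (nat_lit 585975) (nat_lit 457741) (nat_lit 802444) (nat_lit 1506317) (nat_lit 343805) (nat_lit 585975) (nat_lit 1392381) (nat_lit 0) (nat_lit 0)) <|
  List.cons (Rec.mk (nat_lit 10) (nat_lit 18) (nat_lit 802444) (nat_lit 343805) (nat_lit 314895) (nat_lit 297987) (nat_lit 314895) (nat_lit 802444) (nat_lit 1363471) (nat_lit 297987) (nat_lit 343805) (nat_lit 1346563) (nat_lit 1) (nat_lit 0)) <|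
  List.cons (Rec.mk (nat_lit 10) (nat_lit 19) (nat_lit 802444) (nat_lit 343805) (nat_lit 821034) (nat_lit 699137) (nat_lit 802444) (nat_lit 821034) (nat_lit 1851020) (nat_lit 343805) (nat_lit 699137) (nat_lit 1392381) (nat_lit 0) (nat_lit 0)) <|
  List.cons (Rec.mk (nat_lit 10) (nat_lit 20) (nat_lit 802444) (nat_lit 343805) (nat_lit 876318) (nat_lit 381236) (nat_lit 802444) (nat_lit 876318) (nat_lit 1851020) (nat_lit 343805) (nat_lit 381236) (nat_lit 1392381) (nat_lit 0) (nat_lit 0)) <|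
  List.cons (Rec.mk (nat_lit 10) (nat_lit 21) (nat_lit 802444) (nat_lit 343805) (nat_lit 918775) (nat_lit 440156) (nat_lit 802444) (nat_lit 918775) (nat_lit 1851020) (nat_lit 343805) (nat_lit 440156) (nat_lit 1392381) (nat_lit 0) (nat_lit 0)) <|
  List.cons (Rec.mk (nat_lit 10) (nat_lit 22) (nat_lit 802444) (nat_lit 1392381) (nat_lit 1284698) (nat_lit 923345) (nat_lit 802444) (nat_lit 1284698) (nat_lit 1851020) (nat_lit 923345) (nat_lit 1392381) (nat_lit 1971921) (nat_lit 1) (nat_lit 0)) <|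
  List.cons (Rec.mk (nat_lit 10) (nat_lit 23) (nat_lit 802444) (nat_lit 343805) (nat_lit 983221) (nat_lit 330793) (nat_lit 802444) (nat_lit 983221) (nat_lit 1851020) (nat_lit 330793) (nat_lit 343805) (nat_lit 1379369) (nat_lit 1) (nat_lit 0)) <|
  List.cons (Rec.mk (nat_lit 10) (nat_lit 24) (nat_lit 802444) (nat_lit 343805) (nat_lit 664612) (nat_lit 401726) (nat_lit 664612) (nat_lit 802444) (nat_lit 1713188) (nat_lit 343805) (nat_lit 401726) (nat_lit 1392381) (nat_lit 0) (nat_lit 0)) <|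
  List.cons (Rec.mk (nat_lit 10) (nat_lit 25) (nat_lit 802444) (nat_lit 343805) (nat_lit 508882) (nat_lit 505448) (nat_lit 508882) (nat_lit 802444) (nat_lit 1557458) (nat_lit 343805) (nat_lit 505448) (nat_lit 1392381) (nat_lit 0) (nat_lit 1)) <|
  E13

def E11 : List Rec :=
  List.cons (Rec.mk (nat_lit 8) (nat_lit 37) (nat_lit 1249656) (nat_lit 971903) (nat_lit 981851) (nat_lit 976656) (nat_lit 981851) (nat_lit 1249656) (nat_lit 2030427) (nat_lit 971903) (nat_lit 976656) (nat_lit 2020479) (nat_lit 0) (nat_lit 0)) <|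
  List.cons (Rec.mk (nat_lit 8) (nat_lit 38) (nat_lit 1249656) (nat_lit 971903) (nat_lit 712533) (nat_lit 1386567) (nat_lit 712533) (nat_lit 1249656) (nat_lit 1761109) (nat_lit 971903) (nat_lit 1386567) (nat_lit 2020479) (nat_lit 0) (nat_lit 0)) <|
  List.cons (Rec.mk (nat_lit 8) (nat_lit 39) (nat_lit 201080) (nat_lit 971903) (nat_lit 26484) (nat_lit 718563) (nat_lit 26484) (nat_lit 201080) (nat_lit 1075060) (nat_lit 718563) (nat_lit 971903) (nat_lit 1767139) (nat_lit 1) (nat_lit 1)) <|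
  List.cons (Rec.mk (nat_lit 8) (nat_lit 40) (nat_lit 1249656) (nat_lit 971903) (nat_lit 714818) (nat_lit 1128168) (nat_lit 714818) (nat_lit 1249656) (nat_lit 1763394) (nat_lit 971903) (nat_lit 1128168) (nat_lit 2020479) (nat_lit 0) (nat_lit 0)) <|
  List.cons (Rec.mk (nat_lit 8) (nat_lit 41) (nat_lit 201080) (nat_lit 971903) (nat_lit 587619) (nat_lit 824506) (nat_lit 201080) (nat_lit 587619) (nat_lit 1249656) (nat_lit 824506) (nat_lit 971903) (nat_lit 1873082) (nat_lit 1) (nat_lit 1)) <|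
  List.cons (Rec.mk (nat_lit 8) (nat_lit 42) (nat_lit 201080) (nat_lit 971903) (nat_lit 562139) (nat_lit 1101737) (nat_lit 201080) (nat_lit 562139) (nat_lit 1249656) (nat_lit 971903) (nat_lit 1101737) (nat_lit 2020479) (nat_lit 0) (nat_lit 0)) <|
  List.cons (Rec.mk (nat_lit 8) (nat_lit 43) (nat_lit 201080) (nat_lit 971903) (nat_lit 443596) (nat_lit 733714) (nat_lit 201080) (nat_lit 443596) (nat_lit 1249656) (nat_lit 733714) (nat_lit 971903) (nat_lit 1782290) (nat_lit 1) (nat_lit 0)) <|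
  List.cons (Rec.mk (nat_lit 8) (nat_lit 44) (nat_lit 1249656) (nat_lit 971903) (nat_lit 797581) (nat_lit 1131712) (nat_lit 797581) (nat_lit 1249656) (nat_lit 1846157) (nat_lit 971903) (nat_lit 1131712) (nat_lit 2020479) (nat_lit 0) (nat_lit 1)) <|
  List.cons (Rec.mk (nat_lit 8) (nat_lit 45) (nat_lit 201080) (nat_lit 971903) (nat_lit 687375) (nat_lit 777397) (nat_lit 201080) (nat_lit 687375) (nat_lit 1249656) (nat_lit 777397) (nat_lit 971903) (nat_lit 1825973) (nat_lit 1) (nat_lit 0)) <|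
  List.cons (Rec.mk (nat_lit 8) (nat_lit 46) (nat_lit 201080) (nat_lit 971903) (nat_lit 348262) (nat_lit 1276109) (nat_lit 201080) (nat_lit 348262) (nat_lit 1249656) (nat_lit 971903) (nat_lit 1276109) (nat_lit 2020479) (nat_lit 0) (nat_lit 1)) <|
  List.cons (Rec.mk (nat_lit 8) (nat_lit 47) (nat_lit 201080) (nat_lit 971903) (nat_lit 209178) (nat_lit 549030) (nat_lit 201080) (nat_lit 209178) (nat_lit 1249656) (nat_lit 549030) (nat_lit 971903) (nat_lit 1597606) (nat_lit 1) (nat_lit 1)) <|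
  List.cons (Rec.mk (nat_lit 8) (nat_lit 48) (nat_lit 1249656) (nat_lit 971903) (nat_lit 949236) (nat_lit 1423186) (nat_lit 949236) (nat_lit 1249656) (nat_lit 1997812) (nat_lit 971903) (nat_lit 1423186) (nat_lit 2020479) (nat_lit 0) (nat_lit 1)) <|
  List.cons (Rec.mk (nat_lit 8) (nat_lit 49) (nat_lit 201080) (nat_lit 971903) (nat_lit 662814) (nat_lit 807520) (nat_lit 201080) (nat_lit 662814) (nat_lit 1249656) (nat_lit 807520) (nat_lit 971903) (nat_lit 1856096) (nat_lit 1) (nat_lit 0)) <|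
  List.cons (Rec.mk (nat_lit 8) (nat_lit 50) (nat_lit 201080) (nat_lit 971903) (nat_lit 317216) (nat_lit 502786) (nat_lit 201080) (nat_lit 317216) (nat_lit 1249656) (nat_lit 502786) (nat_lit 971903) (nat_lit 1551362) (nat_lit 1) (nat_lit 1)) <|
  List.cons (Rec.mk (nat_lit 8) (nat_lit 51) (nat_lit 201080) (nat_lit 971903) (nat_lit 268762) (nat_lit 1280043) (nat_lit 201080) (nat_lit 268762) (nat_lit 1249656) (nat_lit 971903) (nat_lit 1280043) (nat_lit 2020479) (nat_lit 0) (nat_lit 0)) <|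
  List.cons (Rec.mk (nat_lit 8) (nat_lit 52) (nat_lit 201080) (nat_lit 971903) (nat_lit 268078) (nat_lit 447768) (nat_lit 201080) (nat_lit 268078) (nat_lit 1249656) (nat_lit 447768) (nat_lit 971903) (nat_lit 1496344) (nat_lit 1) (nat_lit 0)) <|
  List.cons (Rec.mk (nat_lit 8) (nat_lit 53) (nat_lit 1249656) (nat_lit 971903) (nat_lit 888048) (nat_lit 1626583) (nat_lit 888048) (nat_lit 1249656) (nat_lit 1936624) (nat_lit 971903) (nat_lit 1626583) (nat_lit 2020479) (nat_lit 0) (nat_lit 1)) <|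
  List.cons (Rec.mk (nat_lit 8) (nat_lit 54) (nat_lit 201080) (nat_lit 971903) (nat_lit 530018) (nat_lit 1133018) (nat_lit 201080) (nat_lit 530018) (nat_lit 1249656) (nat_lit 971903) (nat_lit 1133018) (nat_lit 2020479) (nat_lit 0) (nat_lit 0)) <|
  List.cons (Rec.mk (nat_lit 8) (nat_lit 55) (nat_lit 1249656) (nat_lit 971903) (nat_lit 1039209) (nat_lit 675035) (nat_lit 1039209) (nat_lit 1249656) (nat_lit 2087785) (nat_lit 675035) (nat_lit 971903) (nat_lit 1723611) (nat_lit 1) (nat_lit 0)) <|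
  List.cons (Rec.mk (nat_lit 9) (nat_lit 10) (nat_lit 1087326) (nat_lit 684886) (nat_lit 802444) (nat_lit 343805) (nat_lit 802444) (nat_lit 1087326) (nat_lit 1851020) (nat_lit 343805) (nat_lit 684886) (nat_lit 1392381) (nat_lit 1) (nat_lit 0)) <|
  List.cons (Rec.mk (nat_lit 9) (nat_lit 11) (nat_lit 1087326) (nat_lit 684886) (nat_lit 1039812) (nat_lit 872241) (nat_lit 1039812) (nat_lit 1087326) (nat_lit 2088388) (nat_lit 684886) (nat_lit 872241) (nat_lit 1733462) (nat_lit 0) (nat_lit 1)) <|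
  List.cons (Rec.mk (nat_lit 9) (nat_lit 12) (nat_lit 38750) (nat_lit 684886) (nat_lit 109748) (nat_lit 204044) (nat_lit 38750) (nat_lit 109748) (nat_lit 1087326) (nat_lit 204044) (nat_lit 684886) (nat_lit 1252620) (nat_lit 1) (nat_lit 1)) <|
  List.cons (Rec.mk (nat_lit 9) (nat_lit 13) (nat_lit 38750) (nat_lit 684886) (nat_lit 80662) (nat_lit 633316) (nat_lit 38750) (nat_lit 80662) (nat_lit 1087326) (nat_lit 633316) (nat_lit 684886) (nat_lit 1681892) (nat_lit 1) (nat_lit 0)) <|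
  List.cons (Rec.mk (nat_lit 9) (nat_lit 14) (nat_lit 1087326) (nat_lit 684886) (nat_lit 851227) (nat_lit 656936) (nat_lit 851227) (nat_lit 1087326) (nat_lit 1899803) (nat_lit 656936) (nat_lit 684886) (nat_lit 1705512) (nat_lit 0) (nat_lit 0)) <|
  List.cons (Rec.mk (nat_lit 9) (nat_lit 15) (nat_lit 38750) (nat_lit 684886) (nat_lit 416168) (nat_lit 793693) (nat_lit 38750) (nat_lit 416168) (nat_lit 1087326) (nat_lit 684886) (nat_lit 793693) (nat_lit 1733462) (nat_lit 0) (nat_lit 0)) <|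
  List.cons (Rec.mk (nat_lit 9) (nat_lit 16) (nat_lit 38750) (nat_lit 684886) (nat_lit 478612) (nat_lit 544091) (nat_lit 38750) (nat_lit 478612) (nat_lit 1087326) (nat_lit 544091) (nat_lit 684886) (nat_lit 1592667) (nat_lit 1) (nat_lit 0)) <|
  List.cons (Rec.mk (nat_lit 9) (nat_lit 17) (nat_lit 38750) (nat_lit 684886) (nat_lit 457741) (nat_lit 585975) (nat_lit 38750) (nat_lit 457741) (nat_lit 1087326) (nat_lit 585975) (nat_lit 684886) (nat_lit 1634551) (nat_lit 1) (nat_lit 1)) <|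
  List.cons (Rec.mk (nat_lit 9) (nat_lit 18) (nat_lit 38750) (nat_lit 684886) (nat_lit 314895) (nat_lit 297987) (nat_lit 38750) (nat_lit 314895) (nat_lit 1087326) (nat_lit 297987) (nat_lit 684886) (nat_lit 1346563) (nat_lit 1) (nat_lit 1)) <|
  List.cons (Rec.mk (nat_lit 9) (nat_lit 19) (nat_lit 1087326) (nat_lit 684886) (nat_lit 821034) (nat_lit 699137) (nat_lit 821034) (nat_lit 1087326) (nat_lit 1869610) (nat_lit 684886) (nat_lit 699137) (nat_lit 1733462) (nat_lit 0) (nat_lit 0)) <|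
  List.cons (Rec.mk (nat_lit 9) (nat_lit 20) (nat_lit 1087326) (nat_lit 684886) (nat_lit 876318) (nat_lit 381236) (nat_lit 876318) (nat_lit 1087326) (nat_lit 1924894) (nat_lit 381236) (nat_lit 684886) (nat_lit 1429812) (nat_lit 1) (nat_lit 1)) <|
  List.cons (Rec.mk (nat_lit 9) (nat_lit 21) (nat_lit 1087326) (nat_lit 684886) (nat_lit 918775) (nat_lit 440156) (nat_lit 918775) (nat_lit 1087326) (nat_lit 1967351) (nat_lit 440156) (nat_lit 684886) (nat_lit 1488732) (nat_lit 1) (nat_lit 1)) <|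
  List.cons (Rec.mk (nat_lit 9) (nat_lit 22) (nat_lit 38750) (nat_lit 684886) (nat_lit 236122) (nat_lit 923345) (nat_lit 38750) (nat_lit 236122) (nat_lit 1087326) (nat_lit 684886) (nat_lit 923345) (nat_lit 1733462) (nat_lit 0) (nat_lit 1)) <|
  List.cons (Rec.mk (nat_lit 9) (nat_lit 23) (nat_lit 1087326) (nat_lit 684886) (nat_lit 983221) (nat_lit 330793) (nat_lit 983221) (nat_lit 1087326) (nat_lit 2031797) (nat_lit 330793) (nat_lit 684886) (nat_lit 1379369) (nat_lit 1) (nat_lit 0)) <|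
  List.cons (Rec.mk (nat_lit 9) (nat_lit 24) (nat_lit 38750) (nat_lit 684886) (nat_lit 664612) (nat_lit 401726) (nat_lit 38750) (nat_lit 664612) (nat_lit 1087326) (nat_lit 401726) (nat_lit 684886) (nat_lit 1450302) (nat_lit 1) (nat_lit 1)) <|
  List.cons (Rec.mk (nat_lit 9) (nat_lit 25) (nat_lit 38750) (nat_lit 684886) (nat_lit 508882) (nat_lit 505448) (nat_lit 38750) (nat_lit 508882) (nat_lit 1087326) (nat_lit 505448) (nat_lit 684886) (nat_lit 1554024) (nat_lit 1) (nat_lit 0)) <|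
  List.cons (Rec.mk (nat_lit 9) (nat_lit 26) (nat_lit 38750) (nat_lit 684886) (nat_lit 46399) (nat_lit 924342) (nat_lit 38750) (nat_lit 46399) (nat_lit 1087326) (nat_lit 684886) (nat_lit 924342) (nat_lit 1733462) (nat_lit 0) (nat_lit 1)) <|
  List.cons (Rec.mk (nat_lit 9) (nat_lit 27) (nat_lit 1087326) (nat_lit 684886) (nat_lit 1020255) (nat_lit 940354) (nat_lit 1020255) (nat_lit 1087326) (nat_lit 2068831) (nat_lit 684886) (nat_lit 940354) (nat_lit 1733462) (nat_lit 0) (nat_lit 0)) <|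
  List.cons (Rec.mk (nat_lit 9) (nat_lit 28) (nat_lit 38750) (nat_lit 684886) (nat_lit 176086) (nat_lit 1028414) (nat_lit 38750) (nat_lit 176086) (nat_lit 1087326) (nat_lit 684886) (nat_lit 1028414) (nat_lit 1733462) (nat_lit 0) (nat_lit 0)) <|
  List.cons (Rec.mk (nat_lit 9) (nat_lit 29) (nat_lit 38750) (nat_lit 684886) (nat_lit 132099) (nat_lit 968835) (nat_lit 38750) (nat_lit 132099) (nat_lit 1087326) (nat_lit 684886) (nat_lit 968835) (nat_lit 1733462) (nat_lit 0) (nat_lit 0)) <|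
  List.cons (Rec.mk (nat_lit 9) (nat_lit 30) (nat_lit 1087326) (nat_lit 684886) (nat_lit 841806) (nat_lit 1076843) (nat_lit 841806) (nat_lit 1087326) (nat_lit 1890382) (nat_lit 684886) (nat_lit 1076843) (nat_lit 1733462) (nat_lit 0) (nat_lit 1)) <|
  E12

def E10 : List Rec :=
  List.cons (Rec.mk (nat_lit 7) (nat_lit 44) (nat_lit 741848) (nat_lit 272566) (nat_lit 797581) (nat_lit 83136) (nat_lit 741848) (nat_lit 797581) (nat_lit 1790424) (nat_lit 83136) (nat_lit 272566) (nat_lit 1131712) (nat_lit 1) (nat_lit 0)) <|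
  List.cons (Rec.mk (nat_lit 7) (nat_lit 45) (nat_lit 741848) (nat_lit 272566) (nat_lit 687375) (nat_lit 777397) (nat_lit 687375) (nat_lit 741848) (nat_lit 1735951) (nat_lit 272566) (nat_lit 777397) (nat_lit 1321142) (nat_lit 0) (nat_lit 1)) <|
  List.cons (Rec.mk (nat_lit 7) (nat_lit 46) (nat_lit 741848) (nat_lit 272566) (nat_lit 348262) (nat_lit 227533) (nat_lit 348262) (nat_lit 741848) (nat_lit 1396838) (nat_lit 227533) (nat_lit 272566) (nat_lit 1276109) (nat_lit 0) (nat_lit 1)) <|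
  List.cons (Rec.mk (nat_lit 7) (nat_lit 47) (nat_lit 741848) (nat_lit 272566) (nat_lit 209178) (nat_lit 549030) (nat_lit 209178) (nat_lit 741848) (nat_lit 1257754) (nat_lit 272566) (nat_lit 549030) (nat_lit 1321142) (nat_lit 0) (nat_lit 0)) <|
  List.cons (Rec.mk (nat_lit 7) (nat_lit 48) (nat_lit 741848) (nat_lit 272566) (nat_lit 949236) (nat_lit 374610) (nat_lit 741848) (nat_lit 949236) (nat_lit 1790424) (nat_lit 272566) (nat_lit 374610) (nat_lit 1321142) (nat_lit 1) (nat_lit 1)) <|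
  List.cons (Rec.mk (nat_lit 7) (nat_lit 49) (nat_lit 741848) (nat_lit 272566) (nat_lit 662814) (nat_lit 807520) (nat_lit 662814) (nat_lit 741848) (nat_lit 1711390) (nat_lit 272566) (nat_lit 807520) (nat_lit 1321142) (nat_lit 0) (nat_lit 1)) <|
  List.cons (Rec.mk (nat_lit 7) (nat_lit 50) (nat_lit 741848) (nat_lit 272566) (nat_lit 317216) (nat_lit 502786) (nat_lit 317216) (nat_lit 741848) (nat_lit 1365792) (nat_lit 272566) (nat_lit 502786) (nat_lit 1321142) (nat_lit 0) (nat_lit 0)) <|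
  List.cons (Rec.mk (nat_lit 7) (nat_lit 51) (nat_lit 741848) (nat_lit 272566) (nat_lit 268762) (nat_lit 231467) (nat_lit 268762) (nat_lit 741848) (nat_lit 1317338) (nat_lit 231467) (nat_lit 272566) (nat_lit 1280043) (nat_lit 0) (nat_lit 0)) <|
  List.cons (Rec.mk (nat_lit 7) (nat_lit 52) (nat_lit 741848) (nat_lit 272566) (nat_lit 268078) (nat_lit 447768) (nat_lit 268078) (nat_lit 741848) (nat_lit 1316654) (nat_lit 272566) (nat_lit 447768) (nat_lit 1321142) (nat_lit 0) (nat_lit 1)) <|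
  List.cons (Rec.mk (nat_lit 7) (nat_lit 53) (nat_lit 741848) (nat_lit 272566) (nat_lit 888048) (nat_lit 578007) (nat_lit 741848) (nat_lit 888048) (nat_lit 1790424) (nat_lit 272566) (nat_lit 578007) (nat_lit 1321142) (nat_lit 0) (nat_lit 1)) <|
  List.cons (Rec.mk (nat_lit 7) (nat_lit 54) (nat_lit 741848) (nat_lit 272566) (nat_lit 530018) (nat_lit 84442) (nat_lit 530018) (nat_lit 741848) (nat_lit 1578594) (nat_lit 84442) (nat_lit 272566) (nat_lit 1133018) (nat_lit 1) (nat_lit 1)) <|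
  List.cons (Rec.mk (nat_lit 7) (nat_lit 55) (nat_lit 741848) (nat_lit 1321142) (nat_lit 1039209) (nat_lit 675035) (nat_lit 741848) (nat_lit 1039209) (nat_lit 1790424) (nat_lit 675035) (nat_lit 1321142) (nat_lit 1723611) (nat_lit 1) (nat_lit 0)) <|
  List.cons (Rec.mk (nat_lit 8) (nat_lit 9) (nat_lit 201080) (nat_lit 971903) (nat_lit 38750) (nat_lit 684886) (nat_lit 38750) (nat_lit 201080) (nat_lit 1087326) (nat_lit 684886) (nat_lit 971903) (nat_lit 1733462) (nat_lit 1) (nat_lit 0)) <|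
  List.cons (Rec.mk (nat_lit 8) (nat_lit 10) (nat_lit 1249656) (nat_lit 971903) (nat_lit 802444) (nat_lit 1392381) (nat_lit 802444) (nat_lit 1249656) (nat_lit 1851020) (nat_lit 971903) (nat_lit 1392381) (nat_lit 2020479) (nat_lit 0) (nat_lit 1)) <|
  List.cons (Rec.mk (nat_lit 8) (nat_lit 11) (nat_lit 1249656) (nat_lit 971903) (nat_lit 1039812) (nat_lit 872241) (nat_lit 1039812) (nat_lit 1249656) (nat_lit 2088388) (nat_lit 872241) (nat_lit 971903) (nat_lit 1920817) (nat_lit 1) (nat_lit 1)) <|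
  List.cons (Rec.mk (nat_lit 8) (nat_lit 12) (nat_lit 201080) (nat_lit 971903) (nat_lit 109748) (nat_lit 1252620) (nat_lit 109748) (nat_lit 201080) (nat_lit 1158324) (nat_lit 971903) (nat_lit 1252620) (nat_lit 2020479) (nat_lit 0) (nat_lit 0)) <|
  List.cons (Rec.mk (nat_lit 8) (nat_lit 13) (nat_lit 201080) (nat_lit 971903) (nat_lit 80662) (nat_lit 633316) (nat_lit 80662) (nat_lit 201080) (nat_lit 1129238) (nat_lit 633316) (nat_lit 971903) (nat_lit 1681892) (nat_lit 1) (nat_lit 0)) <|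
  List.cons (Rec.mk (nat_lit 8) (nat_lit 14) (nat_lit 201080) (nat_lit 971903) (nat_lit 851227) (nat_lit 656936) (nat_lit 201080) (nat_lit 851227) (nat_lit 1249656) (nat_lit 656936) (nat_lit 971903) (nat_lit 1705512) (nat_lit 1) (nat_lit 1)) <|
  List.cons (Rec.mk (nat_lit 8) (nat_lit 15) (nat_lit 201080) (nat_lit 971903) (nat_lit 416168) (nat_lit 793693) (nat_lit 201080) (nat_lit 416168) (nat_lit 1249656) (nat_lit 793693) (nat_lit 971903) (nat_lit 1842269) (nat_lit 1) (nat_lit 1)) <|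
  List.cons (Rec.mk (nat_lit 8) (nat_lit 16) (nat_lit 201080) (nat_lit 971903) (nat_lit 478612) (nat_lit 544091) (nat_lit 201080) (nat_lit 478612) (nat_lit 1249656) (nat_lit 544091) (nat_lit 971903) (nat_lit 1592667) (nat_lit 1) (nat_lit 0)) <|
  List.cons (Rec.mk (nat_lit 8) (nat_lit 17) (nat_lit 201080) (nat_lit 971903) (nat_lit 457741) (nat_lit 585975) (nat_lit 201080) (nat_lit 457741) (nat_lit 1249656) (nat_lit 585975) (nat_lit 971903) (nat_lit 1634551) (nat_lit 1) (nat_lit 1)) <|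
  List.cons (Rec.mk (nat_lit 8) (nat_lit 18) (nat_lit 201080) (nat_lit 971903) (nat_lit 314895) (nat_lit 1346563) (nat_lit 201080) (nat_lit 314895) (nat_lit 1249656) (nat_lit 971903) (nat_lit 1346563) (nat_lit 2020479) (nat_lit 0) (nat_lit 0)) <|
  List.cons (Rec.mk (nat_lit 8) (nat_lit 19) (nat_lit 201080) (nat_lit 971903) (nat_lit 821034) (nat_lit 699137) (nat_lit 201080) (nat_lit 821034) (nat_lit 1249656) (nat_lit 699137) (nat_lit 971903) (nat_lit 1747713) (nat_lit 1) (nat_lit 1)) <|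
  List.cons (Rec.mk (nat_lit 8) (nat_lit 20) (nat_lit 1249656) (nat_lit 971903) (nat_lit 876318) (nat_lit 1429812) (nat_lit 876318) (nat_lit 1249656) (nat_lit 1924894) (nat_lit 971903) (nat_lit 1429812) (nat_lit 2020479) (nat_lit 0) (nat_lit 0)) <|
  List.cons (Rec.mk (nat_lit 8) (nat_lit 21) (nat_lit 1249656) (nat_lit 971903) (nat_lit 918775) (nat_lit 1488732) (nat_lit 918775) (nat_lit 1249656) (nat_lit 1967351) (nat_lit 971903) (nat_lit 1488732) (nat_lit 2020479) (nat_lit 0) (nat_lit 0)) <|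
  List.cons (Rec.mk (nat_lit 8) (nat_lit 22) (nat_lit 201080) (nat_lit 971903) (nat_lit 236122) (nat_lit 923345) (nat_lit 201080) (nat_lit 236122) (nat_lit 1249656) (nat_lit 923345) (nat_lit 971903) (nat_lit 1971921) (nat_lit 1) (nat_lit 0)) <|
  List.cons (Rec.mk (nat_lit 8) (nat_lit 23) (nat_lit 1249656) (nat_lit 971903) (nat_lit 983221) (nat_lit 1379369) (nat_lit 983221) (nat_lit 1249656) (nat_lit 2031797) (nat_lit 971903) (nat_lit 1379369) (nat_lit 2020479) (nat_lit 0) (nat_lit 1)) <|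
  List.cons (Rec.mk (nat_lit 8) (nat_lit 24) (nat_lit 1249656) (nat_lit 971903) (nat_lit 664612) (nat_lit 1450302) (nat_lit 664612) (nat_lit 1249656) (nat_lit 1713188) (nat_lit 971903) (nat_lit 1450302) (nat_lit 2020479) (nat_lit 0) (nat_lit 0)) <|
  List.cons (Rec.mk (nat_lit 8) (nat_lit 25) (nat_lit 201080) (nat_lit 971903) (nat_lit 508882) (nat_lit 505448) (nat_lit 201080) (nat_lit 508882) (nat_lit 1249656) (nat_lit 505448) (nat_lit 971903) (nat_lit 1554024) (nat_lit 1) (nat_lit 0)) <|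
  List.cons (Rec.mk (nat_lit 8) (nat_lit 26) (nat_lit 201080) (nat_lit 971903) (nat_lit 46399) (nat_lit 924342) (nat_lit 46399) (nat_lit 201080) (nat_lit 1094975) (nat_lit 924342) (nat_lit 971903) (nat_lit 1972918) (nat_lit 1) (nat_lit 1)) <|
  List.cons (Rec.mk (nat_lit 8) (nat_lit 27) (nat_lit 1249656) (nat_lit 971903) (nat_lit 1020255) (nat_lit 940354) (nat_lit 1020255) (nat_lit 1249656) (nat_lit 2068831) (nat_lit 940354) (nat_lit 971903) (nat_lit 1988930) (nat_lit 1) (nat_lit 0)) <|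
  List.cons (Rec.mk (nat_lit 8) (nat_lit 28) (nat_lit 201080) (nat_lit 971903) (nat_lit 176086) (nat_lit 1028414) (nat_lit 176086) (nat_lit 201080) (nat_lit 1224662) (nat_lit 971903) (nat_lit 1028414) (nat_lit 2020479) (nat_lit 0) (nat_lit 0)) <|
  List.cons (Rec.mk (nat_lit 8) (nat_lit 29) (nat_lit 201080) (nat_lit 971903) (nat_lit 132099) (nat_lit 968835) (nat_lit 132099) (nat_lit 201080) (nat_lit 1180675) (nat_lit 968835) (nat_lit 971903) (nat_lit 2017411) (nat_lit 0) (nat_lit 0)) <|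
  List.cons (Rec.mk (nat_lit 8) (nat_lit 30) (nat_lit 1249656) (nat_lit 971903) (nat_lit 841806) (nat_lit 1076843) (nat_lit 841806) (nat_lit 1249656) (nat_lit 1890382) (nat_lit 971903) (nat_lit 1076843) (nat_lit 2020479) (nat_lit 0) (nat_lit 1)) <|
  List.cons (Rec.mk (nat_lit 8) (nat_lit 31) (nat_lit 201080) (nat_lit 971903) (nat_lit 184871) (nat_lit 1245209) (nat_lit 184871) (nat_lit 201080) (nat_lit 1233447) (nat_lit 971903) (nat_lit 1245209) (nat_lit 2020479) (nat_lit 0) (nat_lit 1)) <|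
  List.cons (Rec.mk (nat_lit 8) (nat_lit 32) (nat_lit 1249656) (nat_lit 971903) (nat_lit 769851) (nat_lit 1193518) (nat_lit 769851) (nat_lit 1249656) (nat_lit 1818427) (nat_lit 971903) (nat_lit 1193518) (nat_lit 2020479) (nat_lit 0) (nat_lit 0)) <|
  List.cons (Rec.mk (nat_lit 8) (nat_lit 33) (nat_lit 201080) (nat_lit 971903) (nat_lit 628264) (nat_lit 879843) (nat_lit 201080) (nat_lit 628264) (nat_lit 1249656) (nat_lit 879843) (nat_lit 971903) (nat_lit 1928419) (nat_lit 1) (nat_lit 1)) <|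
  List.cons (Rec.mk (nat_lit 8) (nat_lit 34) (nat_lit 201080) (nat_lit 971903) (nat_lit 138066) (nat_lit 1189142) (nat_lit 138066) (nat_lit 201080) (nat_lit 1186642) (nat_lit 971903) (nat_lit 1189142) (nat_lit 2020479) (nat_lit 0) (nat_lit 1)) <|
  List.cons (Rec.mk (nat_lit 8) (nat_lit 35) (nat_lit 201080) (nat_lit 971903) (nat_lit 401101) (nat_lit 813007) (nat_lit 201080) (nat_lit 401101) (nat_lit 1249656) (nat_lit 813007) (nat_lit 971903) (nat_lit 1861583) (nat_lit 1) (nat_lit 1)) <|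
  List.cons (Rec.mk (nat_lit 8) (nat_lit 36) (nat_lit 201080) (nat_lit 971903) (nat_lit 384169) (nat_lit 1225514) (nat_lit 201080) (nat_lit 384169) (nat_lit 1249656) (nat_lit 971903) (nat_lit 1225514) (nat_lit 2020479) (nat_lit 0) (nat_lit 1)) <|
  E11

def E9 : List Rec :=
  List.cons (Rec.mk (nat_lit 6) (nat_lit 52) (nat_lit 937387) (nat_lit 640361) (nat_lit 1316654) (nat_lit 447768) (nat_lit 937387) (nat_lit 1316654) (nat_lit 1985963) (nat_lit 447768) (nat_lit 640361) (nat_lit 1496344) (nat_lit 1) (nat_lit 0)) <|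
  List.cons (Rec.mk (nat_lit 6) (nat_lit 53) (nat_lit 937387) (nat_lit 640361) (nat_lit 888048) (nat_lit 578007) (nat_lit 888048) (nat_lit 937387) (nat_lit 1936624) (nat_lit 578007) (nat_lit 640361) (nat_lit 1626583) (nat_lit 1) (nat_lit 0)) <|
  List.cons (Rec.mk (nat_lit 6) (nat_lit 54) (nat_lit 937387) (nat_lit 640361) (nat_lit 530018) (nat_lit 1133018) (nat_lit 530018) (nat_lit 937387) (nat_lit 1578594) (nat_lit 640361) (nat_lit 1133018) (nat_lit 1688937) (nat_lit 0) (nat_lit 0)) <|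
  List.cons (Rec.mk (nat_lit 6) (nat_lit 55) (nat_lit 937387) (nat_lit 640361) (nat_lit 1039209) (nat_lit 675035) (nat_lit 937387) (nat_lit 1039209) (nat_lit 1985963) (nat_lit 640361) (nat_lit 675035) (nat_lit 1688937) (nat_lit 1) (nat_lit 1)) <|
  List.cons (Rec.mk (nat_lit 7) (nat_lit 8) (nat_lit 741848) (nat_lit 1321142) (nat_lit 1249656) (nat_lit 971903) (nat_lit 741848) (nat_lit 1249656) (nat_lit 1790424) (nat_lit 971903) (nat_lit 1321142) (nat_lit 2020479) (nat_lit 1) (nat_lit 0)) <|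
  List.cons (Rec.mk (nat_lit 7) (nat_lit 9) (nat_lit 741848) (nat_lit 1321142) (nat_lit 1087326) (nat_lit 684886) (nat_lit 741848) (nat_lit 1087326) (nat_lit 1790424) (nat_lit 684886) (nat_lit 1321142) (nat_lit 1733462) (nat_lit 1) (nat_lit 0)) <|
  List.cons (Rec.mk (nat_lit 7) (nat_lit 10) (nat_lit 741848) (nat_lit 272566) (nat_lit 802444) (nat_lit 343805) (nat_lit 741848) (nat_lit 802444) (nat_lit 1790424) (nat_lit 272566) (nat_lit 343805) (nat_lit 1321142) (nat_lit 0) (nat_lit 1)) <|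
  List.cons (Rec.mk (nat_lit 7) (nat_lit 11) (nat_lit 741848) (nat_lit 1321142) (nat_lit 1039812) (nat_lit 872241) (nat_lit 741848) (nat_lit 1039812) (nat_lit 1790424) (nat_lit 872241) (nat_lit 1321142) (nat_lit 1920817) (nat_lit 1) (nat_lit 0)) <|
  List.cons (Rec.mk (nat_lit 7) (nat_lit 12) (nat_lit 741848) (nat_lit 272566) (nat_lit 1158324) (nat_lit 204044) (nat_lit 741848) (nat_lit 1158324) (nat_lit 1790424) (nat_lit 204044) (nat_lit 272566) (nat_lit 1252620) (nat_lit 1) (nat_lit 1)) <|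
  List.cons (Rec.mk (nat_lit 7) (nat_lit 13) (nat_lit 741848) (nat_lit 272566) (nat_lit 80662) (nat_lit 633316) (nat_lit 80662) (nat_lit 741848) (nat_lit 1129238) (nat_lit 272566) (nat_lit 633316) (nat_lit 1321142) (nat_lit 0) (nat_lit 1)) <|
  List.cons (Rec.mk (nat_lit 7) (nat_lit 14) (nat_lit 741848) (nat_lit 272566) (nat_lit 851227) (nat_lit 656936) (nat_lit 741848) (nat_lit 851227) (nat_lit 1790424) (nat_lit 272566) (nat_lit 656936) (nat_lit 1321142) (nat_lit 0) (nat_lit 0)) <|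
  List.cons (Rec.mk (nat_lit 7) (nat_lit 15) (nat_lit 741848) (nat_lit 272566) (nat_lit 416168) (nat_lit 793693) (nat_lit 416168) (nat_lit 741848) (nat_lit 1464744) (nat_lit 272566) (nat_lit 793693) (nat_lit 1321142) (nat_lit 0) (nat_lit 0)) <|
  List.cons (Rec.mk (nat_lit 7) (nat_lit 16) (nat_lit 741848) (nat_lit 272566) (nat_lit 478612) (nat_lit 544091) (nat_lit 478612) (nat_lit 741848) (nat_lit 1527188) (nat_lit 272566) (nat_lit 544091) (nat_lit 1321142) (nat_lit 0) (nat_lit 1)) <|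
  List.cons (Rec.mk (nat_lit 7) (nat_lit 17) (nat_lit 741848) (nat_lit 272566) (nat_lit 457741) (nat_lit 585975) (nat_lit 457741) (nat_lit 741848) (nat_lit 1506317) (nat_lit 272566) (nat_lit 585975) (nat_lit 1321142) (nat_lit 0) (nat_lit 0)) <|
  List.cons (Rec.mk (nat_lit 7) (nat_lit 18) (nat_lit 741848) (nat_lit 272566) (nat_lit 314895) (nat_lit 297987) (nat_lit 314895) (nat_lit 741848) (nat_lit 1363471) (nat_lit 272566) (nat_lit 297987) (nat_lit 1321142) (nat_lit 0) (nat_lit 0)) <|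
  List.cons (Rec.mk (nat_lit 7) (nat_lit 19) (nat_lit 741848) (nat_lit 272566) (nat_lit 821034) (nat_lit 699137) (nat_lit 741848) (nat_lit 821034) (nat_lit 1790424) (nat_lit 272566) (nat_lit 699137) (nat_lit 1321142) (nat_lit 0) (nat_lit 0)) <|
  List.cons (Rec.mk (nat_lit 7) (nat_lit 20) (nat_lit 741848) (nat_lit 272566) (nat_lit 876318) (nat_lit 381236) (nat_lit 741848) (nat_lit 876318) (nat_lit 1790424) (nat_lit 272566) (nat_lit 381236) (nat_lit 1321142) (nat_lit 1) (nat_lit 0)) <|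
  List.cons (Rec.mk (nat_lit 7) (nat_lit 21) (nat_lit 741848) (nat_lit 272566) (nat_lit 918775) (nat_lit 440156) (nat_lit 741848) (nat_lit 918775) (nat_lit 1790424) (nat_lit 272566) (nat_lit 440156) (nat_lit 1321142) (nat_lit 0) (nat_lit 0)) <|
  List.cons (Rec.mk (nat_lit 7) (nat_lit 22) (nat_lit 741848) (nat_lit 1321142) (nat_lit 1284698) (nat_lit 923345) (nat_lit 741848) (nat_lit 1284698) (nat_lit 1790424) (nat_lit 923345) (nat_lit 1321142) (nat_lit 1971921) (nat_lit 1) (nat_lit 0)) <|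
  List.cons (Rec.mk (nat_lit 7) (nat_lit 23) (nat_lit 741848) (nat_lit 272566) (nat_lit 983221) (nat_lit 330793) (nat_lit 741848) (nat_lit 983221) (nat_lit 1790424) (nat_lit 272566) (nat_lit 330793) (nat_lit 1321142) (nat_lit 1) (nat_lit 0)) <|
  List.cons (Rec.mk (nat_lit 7) (nat_lit 24) (nat_lit 741848) (nat_lit 272566) (nat_lit 664612) (nat_lit 401726) (nat_lit 664612) (nat_lit 741848) (nat_lit 1713188) (nat_lit 272566) (nat_lit 401726) (nat_lit 1321142) (nat_lit 0) (nat_lit 0)) <|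
  List.cons (Rec.mk (nat_lit 7) (nat_lit 25) (nat_lit 741848) (nat_lit 272566) (nat_lit 508882) (nat_lit 505448) (nat_lit 508882) (nat_lit 741848) (nat_lit 1557458) (nat_lit 272566) (nat_lit 505448) (nat_lit 1321142) (nat_lit 0) (nat_lit 1)) <|
  List.cons (Rec.mk (nat_lit 7) (nat_lit 26) (nat_lit 741848) (nat_lit 1321142) (nat_lit 1094975) (nat_lit 924342) (nat_lit 741848) (nat_lit 1094975) (nat_lit 1790424) (nat_lit 924342) (nat_lit 1321142) (nat_lit 1972918) (nat_lit 1) (nat_lit 0)) <|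
  List.cons (Rec.mk (nat_lit 7) (nat_lit 27) (nat_lit 741848) (nat_lit 1321142) (nat_lit 1020255) (nat_lit 940354) (nat_lit 741848) (nat_lit 1020255) (nat_lit 1790424) (nat_lit 940354) (nat_lit 1321142) (nat_lit 1988930) (nat_lit 1) (nat_lit 1)) <|
  List.cons (Rec.mk (nat_lit 7) (nat_lit 28) (nat_lit 741848) (nat_lit 1321142) (nat_lit 1224662) (nat_lit 1028414) (nat_lit 741848) (nat_lit 1224662) (nat_lit 1790424) (nat_lit 1028414) (nat_lit 1321142) (nat_lit 2076990) (nat_lit 1) (nat_lit 1)) <|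
  List.cons (Rec.mk (nat_lit 7) (nat_lit 29) (nat_lit 741848) (nat_lit 1321142) (nat_lit 1180675) (nat_lit 968835) (nat_lit 741848) (nat_lit 1180675) (nat_lit 1790424) (nat_lit 968835) (nat_lit 1321142) (nat_lit 2017411) (nat_lit 1) (nat_lit 1)) <|
  List.cons (Rec.mk (nat_lit 7) (nat_lit 30) (nat_lit 741848) (nat_lit 272566) (nat_lit 841806) (nat_lit 28267) (nat_lit 741848) (nat_lit 841806) (nat_lit 1790424) (nat_lit 28267) (nat_lit 272566) (nat_lit 1076843) (nat_lit 1) (nat_lit 0)) <|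
  List.cons (Rec.mk (nat_lit 7) (nat_lit 31) (nat_lit 741848) (nat_lit 272566) (nat_lit 1233447) (nat_lit 196633) (nat_lit 741848) (nat_lit 1233447) (nat_lit 1790424) (nat_lit 196633) (nat_lit 272566) (nat_lit 1245209) (nat_lit 1) (nat_lit 0)) <|
  List.cons (Rec.mk (nat_lit 7) (nat_lit 32) (nat_lit 741848) (nat_lit 272566) (nat_lit 769851) (nat_lit 144942) (nat_lit 741848) (nat_lit 769851) (nat_lit 1790424) (nat_lit 144942) (nat_lit 272566) (nat_lit 1193518) (nat_lit 1) (nat_lit 1)) <|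
  List.cons (Rec.mk (nat_lit 7) (nat_lit 33) (nat_lit 741848) (nat_lit 1321142) (nat_lit 628264) (nat_lit 879843) (nat_lit 628264) (nat_lit 741848) (nat_lit 1676840) (nat_lit 879843) (nat_lit 1321142) (nat_lit 1928419) (nat_lit 1) (nat_lit 1)) <|
  List.cons (Rec.mk (nat_lit 7) (nat_lit 34) (nat_lit 741848) (nat_lit 272566) (nat_lit 1186642) (nat_lit 140566) (nat_lit 741848) (nat_lit 1186642) (nat_lit 1790424) (nat_lit 140566) (nat_lit 272566) (nat_lit 1189142) (nat_lit 1) (nat_lit 0)) <|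
  List.cons (Rec.mk (nat_lit 7) (nat_lit 35) (nat_lit 741848) (nat_lit 272566) (nat_lit 401101) (nat_lit 813007) (nat_lit 401101) (nat_lit 741848) (nat_lit 1449677) (nat_lit 272566) (nat_lit 813007) (nat_lit 1321142) (nat_lit 0) (nat_lit 0)) <|
  List.cons (Rec.mk (nat_lit 7) (nat_lit 36) (nat_lit 741848) (nat_lit 272566) (nat_lit 384169) (nat_lit 176938) (nat_lit 384169) (nat_lit 741848) (nat_lit 1432745) (nat_lit 176938) (nat_lit 272566) (nat_lit 1225514) (nat_lit 0) (nat_lit 1)) <|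
  List.cons (Rec.mk (nat_lit 7) (nat_lit 37) (nat_lit 741848) (nat_lit 1321142) (nat_lit 981851) (nat_lit 976656) (nat_lit 741848) (nat_lit 981851) (nat_lit 1790424) (nat_lit 976656) (nat_lit 1321142) (nat_lit 2025232) (nat_lit 1) (nat_lit 1)) <|
  List.cons (Rec.mk (nat_lit 7) (nat_lit 38) (nat_lit 741848) (nat_lit 272566) (nat_lit 712533) (nat_lit 337991) (nat_lit 712533) (nat_lit 741848) (nat_lit 1761109) (nat_lit 272566) (nat_lit 337991) (nat_lit 1321142) (nat_lit 0) (nat_lit 0)) <|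
  List.cons (Rec.mk (nat_lit 7) (nat_lit 39) (nat_lit 741848) (nat_lit 1321142) (nat_lit 1075060) (nat_lit 718563) (nat_lit 741848) (nat_lit 1075060) (nat_lit 1790424) (nat_lit 718563) (nat_lit 1321142) (nat_lit 1767139) (nat_lit 1) (nat_lit 1)) <|
  List.cons (Rec.mk (nat_lit 7) (nat_lit 40) (nat_lit 741848) (nat_lit 272566) (nat_lit 714818) (nat_lit 79592) (nat_lit 714818) (nat_lit 741848) (nat_lit 1763394) (nat_lit 79592) (nat_lit 272566) (nat_lit 1128168) (nat_lit 1) (nat_lit 1)) <|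
  List.cons (Rec.mk (nat_lit 7) (nat_lit 41) (nat_lit 741848) (nat_lit 272566) (nat_lit 587619) (nat_lit 824506) (nat_lit 587619) (nat_lit 741848) (nat_lit 1636195) (nat_lit 272566) (nat_lit 824506) (nat_lit 1321142) (nat_lit 0) (nat_lit 0)) <|
  List.cons (Rec.mk (nat_lit 7) (nat_lit 42) (nat_lit 741848) (nat_lit 272566) (nat_lit 562139) (nat_lit 53161) (nat_lit 562139) (nat_lit 741848) (nat_lit 1610715) (nat_lit 53161) (nat_lit 272566) (nat_lit 1101737) (nat_lit 1) (nat_lit 1)) <|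
  List.cons (Rec.mk (nat_lit 7) (nat_lit 43) (nat_lit 741848) (nat_lit 272566) (nat_lit 443596) (nat_lit 733714) (nat_lit 443596) (nat_lit 741848) (nat_lit 1492172) (nat_lit 272566) (nat_lit 733714) (nat_lit 1321142) (nat_lit 0) (nat_lit 1)) <|
  E10

def E8 : List Rec :=
  List.cons (Rec.mk (nat_lit 6) (nat_lit 12) (nat_lit 937387) (nat_lit 640361) (nat_lit 1158324) (nat_lit 204044) (nat_lit 937387) (nat_lit 1158324) (nat_lit 1985963) (nat_lit 204044) (nat_lit 640361) (nat_lit 1252620) (nat_lit 1) (nat_lit 1)) <|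
  List.cons (Rec.mk (nat_lit 6) (nat_lit 13) (nat_lit 937387) (nat_lit 640361) (nat_lit 1129238) (nat_lit 633316) (nat_lit 937387) (nat_lit 1129238) (nat_lit 1985963) (nat_lit 633316) (nat_lit 640361) (nat_lit 1681892) (nat_lit 1) (nat_lit 0)) <|
  List.cons (Rec.mk (nat_lit 6) (nat_lit 14) (nat_lit 937387) (nat_lit 640361) (nat_lit 851227) (nat_lit 656936) (nat_lit 851227) (nat_lit 937387) (nat_lit 1899803) (nat_lit 640361) (nat_lit 656936) (nat_lit 1688937) (nat_lit 0) (nat_lit 0)) <|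
  List.cons (Rec.mk (nat_lit 6) (nat_lit 15) (nat_lit 937387) (nat_lit 640361) (nat_lit 416168) (nat_lit 793693) (nat_lit 416168) (nat_lit 937387) (nat_lit 1464744) (nat_lit 640361) (nat_lit 793693) (nat_lit 1688937) (nat_lit 0) (nat_lit 0)) <|
  List.cons (Rec.mk (nat_lit 6) (nat_lit 16) (nat_lit 937387) (nat_lit 640361) (nat_lit 478612) (nat_lit 544091) (nat_lit 478612) (nat_lit 937387) (nat_lit 1527188) (nat_lit 544091) (nat_lit 640361) (nat_lit 1592667) (nat_lit 0) (nat_lit 0)) <|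
  List.cons (Rec.mk (nat_lit 6) (nat_lit 17) (nat_lit 937387) (nat_lit 640361) (nat_lit 457741) (nat_lit 585975) (nat_lit 457741) (nat_lit 937387) (nat_lit 1506317) (nat_lit 585975) (nat_lit 640361) (nat_lit 1634551) (nat_lit 0) (nat_lit 0)) <|
  List.cons (Rec.mk (nat_lit 6) (nat_lit 18) (nat_lit 937387) (nat_lit 640361) (nat_lit 1363471) (nat_lit 297987) (nat_lit 937387) (nat_lit 1363471) (nat_lit 1985963) (nat_lit 297987) (nat_lit 640361) (nat_lit 1346563) (nat_lit 1) (nat_lit 1)) <|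
  List.cons (Rec.mk (nat_lit 6) (nat_lit 19) (nat_lit 937387) (nat_lit 640361) (nat_lit 821034) (nat_lit 699137) (nat_lit 821034) (nat_lit 937387) (nat_lit 1869610) (nat_lit 640361) (nat_lit 699137) (nat_lit 1688937) (nat_lit 0) (nat_lit 0)) <|
  List.cons (Rec.mk (nat_lit 6) (nat_lit 20) (nat_lit 937387) (nat_lit 640361) (nat_lit 876318) (nat_lit 381236) (nat_lit 876318) (nat_lit 937387) (nat_lit 1924894) (nat_lit 381236) (nat_lit 640361) (nat_lit 1429812) (nat_lit 1) (nat_lit 1)) <|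
  List.cons (Rec.mk (nat_lit 6) (nat_lit 21) (nat_lit 937387) (nat_lit 640361) (nat_lit 918775) (nat_lit 440156) (nat_lit 918775) (nat_lit 937387) (nat_lit 1967351) (nat_lit 440156) (nat_lit 640361) (nat_lit 1488732) (nat_lit 1) (nat_lit 1)) <|
  List.cons (Rec.mk (nat_lit 6) (nat_lit 22) (nat_lit 937387) (nat_lit 640361) (nat_lit 1284698) (nat_lit 923345) (nat_lit 937387) (nat_lit 1284698) (nat_lit 1985963) (nat_lit 640361) (nat_lit 923345) (nat_lit 1688937) (nat_lit 0) (nat_lit 1)) <|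
  List.cons (Rec.mk (nat_lit 6) (nat_lit 23) (nat_lit 937387) (nat_lit 640361) (nat_lit 983221) (nat_lit 330793) (nat_lit 937387) (nat_lit 983221) (nat_lit 1985963) (nat_lit 330793) (nat_lit 640361) (nat_lit 1379369) (nat_lit 1) (nat_lit 0)) <|
  List.cons (Rec.mk (nat_lit 6) (nat_lit 24) (nat_lit 937387) (nat_lit 640361) (nat_lit 664612) (nat_lit 401726) (nat_lit 664612) (nat_lit 937387) (nat_lit 1713188) (nat_lit 401726) (nat_lit 640361) (nat_lit 1450302) (nat_lit 1) (nat_lit 1)) <|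
  List.cons (Rec.mk (nat_lit 6) (nat_lit 25) (nat_lit 937387) (nat_lit 640361) (nat_lit 508882) (nat_lit 505448) (nat_lit 508882) (nat_lit 937387) (nat_lit 1557458) (nat_lit 505448) (nat_lit 640361) (nat_lit 1554024) (nat_lit 0) (nat_lit 0)) <|
  List.cons (Rec.mk (nat_lit 6) (nat_lit 26) (nat_lit 937387) (nat_lit 640361) (nat_lit 1094975) (nat_lit 924342) (nat_lit 937387) (nat_lit 1094975) (nat_lit 1985963) (nat_lit 640361) (nat_lit 924342) (nat_lit 1688937) (nat_lit 0) (nat_lit 1)) <|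
  List.cons (Rec.mk (nat_lit 6) (nat_lit 27) (nat_lit 937387) (nat_lit 640361) (nat_lit 1020255) (nat_lit 940354) (nat_lit 937387) (nat_lit 1020255) (nat_lit 1985963) (nat_lit 640361) (nat_lit 940354) (nat_lit 1688937) (nat_lit 0) (nat_lit 0)) <|
  List.cons (Rec.mk (nat_lit 6) (nat_lit 28) (nat_lit 937387) (nat_lit 1688937) (nat_lit 1224662) (nat_lit 1028414) (nat_lit 937387) (nat_lit 1224662) (nat_lit 1985963) (nat_lit 1028414) (nat_lit 1688937) (nat_lit 2076990) (nat_lit 1) (nat_lit 1)) <|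
  List.cons (Rec.mk (nat_lit 6) (nat_lit 29) (nat_lit 937387) (nat_lit 640361) (nat_lit 1180675) (nat_lit 968835) (nat_lit 937387) (nat_lit 1180675) (nat_lit 1985963) (nat_lit 640361) (nat_lit 968835) (nat_lit 1688937) (nat_lit 0) (nat_lit 0)) <|
  List.cons (Rec.mk (nat_lit 6) (nat_lit 30) (nat_lit 937387) (nat_lit 640361) (nat_lit 841806) (nat_lit 1076843) (nat_lit 841806) (nat_lit 937387) (nat_lit 1890382) (nat_lit 640361) (nat_lit 1076843) (nat_lit 1688937) (nat_lit 0) (nat_lit 1)) <|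
  List.cons (Rec.mk (nat_lit 6) (nat_lit 31) (nat_lit 937387) (nat_lit 640361) (nat_lit 1233447) (nat_lit 196633) (nat_lit 937387) (nat_lit 1233447) (nat_lit 1985963) (nat_lit 196633) (nat_lit 640361) (nat_lit 1245209) (nat_lit 1) (nat_lit 0)) <|
  List.cons (Rec.mk (nat_lit 6) (nat_lit 32) (nat_lit 937387) (nat_lit 640361) (nat_lit 769851) (nat_lit 1193518) (nat_lit 769851) (nat_lit 937387) (nat_lit 1818427) (nat_lit 640361) (nat_lit 1193518) (nat_lit 1688937) (nat_lit 0) (nat_lit 0)) <|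
  List.cons (Rec.mk (nat_lit 6) (nat_lit 33) (nat_lit 937387) (nat_lit 640361) (nat_lit 628264) (nat_lit 879843) (nat_lit 628264) (nat_lit 937387) (nat_lit 1676840) (nat_lit 640361) (nat_lit 879843) (nat_lit 1688937) (nat_lit 0) (nat_lit 0)) <|
  List.cons (Rec.mk (nat_lit 6) (nat_lit 34) (nat_lit 937387) (nat_lit 640361) (nat_lit 1186642) (nat_lit 140566) (nat_lit 937387) (nat_lit 1186642) (nat_lit 1985963) (nat_lit 140566) (nat_lit 640361) (nat_lit 1189142) (nat_lit 1) (nat_lit 0)) <|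
  List.cons (Rec.mk (nat_lit 6) (nat_lit 35) (nat_lit 937387) (nat_lit 640361) (nat_lit 401101) (nat_lit 813007) (nat_lit 401101) (nat_lit 937387) (nat_lit 1449677) (nat_lit 640361) (nat_lit 813007) (nat_lit 1688937) (nat_lit 0) (nat_lit 0)) <|
  List.cons (Rec.mk (nat_lit 6) (nat_lit 36) (nat_lit 937387) (nat_lit 640361) (nat_lit 1432745) (nat_lit 176938) (nat_lit 937387) (nat_lit 1432745) (nat_lit 1985963) (nat_lit 176938) (nat_lit 640361) (nat_lit 1225514) (nat_lit 1) (nat_lit 0)) <|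
  List.cons (Rec.mk (nat_lit 6) (nat_lit 37) (nat_lit 937387) (nat_lit 640361) (nat_lit 981851) (nat_lit 976656) (nat_lit 937387) (nat_lit 981851) (nat_lit 1985963) (nat_lit 640361) (nat_lit 976656) (nat_lit 1688937) (nat_lit 0) (nat_lit 0)) <|
  List.cons (Rec.mk (nat_lit 6) (nat_lit 38) (nat_lit 937387) (nat_lit 640361) (nat_lit 712533) (nat_lit 337991) (nat_lit 712533) (nat_lit 937387) (nat_lit 1761109) (nat_lit 337991) (nat_lit 640361) (nat_lit 1386567) (nat_lit 1) (nat_lit 1)) <|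
  List.cons (Rec.mk (nat_lit 6) (nat_lit 39) (nat_lit 937387) (nat_lit 640361) (nat_lit 1075060) (nat_lit 718563) (nat_lit 937387) (nat_lit 1075060) (nat_lit 1985963) (nat_lit 640361) (nat_lit 718563) (nat_lit 1688937) (nat_lit 1) (nat_lit 0)) <|
  List.cons (Rec.mk (nat_lit 6) (nat_lit 40) (nat_lit 937387) (nat_lit 640361) (nat_lit 714818) (nat_lit 1128168) (nat_lit 714818) (nat_lit 937387) (nat_lit 1763394) (nat_lit 640361) (nat_lit 1128168) (nat_lit 1688937) (nat_lit 0) (nat_lit 0)) <|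
  List.cons (Rec.mk (nat_lit 6) (nat_lit 41) (nat_lit 937387) (nat_lit 640361) (nat_lit 587619) (nat_lit 824506) (nat_lit 587619) (nat_lit 937387) (nat_lit 1636195) (nat_lit 640361) (nat_lit 824506) (nat_lit 1688937) (nat_lit 0) (nat_lit 0)) <|
  List.cons (Rec.mk (nat_lit 6) (nat_lit 42) (nat_lit 937387) (nat_lit 640361) (nat_lit 562139) (nat_lit 1101737) (nat_lit 562139) (nat_lit 937387) (nat_lit 1610715) (nat_lit 640361) (nat_lit 1101737) (nat_lit 1688937) (nat_lit 0) (nat_lit 0)) <|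
  List.cons (Rec.mk (nat_lit 6) (nat_lit 43) (nat_lit 937387) (nat_lit 640361) (nat_lit 443596) (nat_lit 733714) (nat_lit 443596) (nat_lit 937387) (nat_lit 1492172) (nat_lit 640361) (nat_lit 733714) (nat_lit 1688937) (nat_lit 0) (nat_lit 1)) <|
  List.cons (Rec.mk (nat_lit 6) (nat_lit 44) (nat_lit 937387) (nat_lit 640361) (nat_lit 797581) (nat_lit 1131712) (nat_lit 797581) (nat_lit 937387) (nat_lit 1846157) (nat_lit 640361) (nat_lit 1131712) (nat_lit 1688937) (nat_lit 0) (nat_lit 1)) <|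
  List.cons (Rec.mk (nat_lit 6) (nat_lit 45) (nat_lit 937387) (nat_lit 640361) (nat_lit 687375) (nat_lit 777397) (nat_lit 687375) (nat_lit 937387) (nat_lit 1735951) (nat_lit 640361) (nat_lit 777397) (nat_lit 1688937) (nat_lit 0) (nat_lit 1)) <|
  List.cons (Rec.mk (nat_lit 6) (nat_lit 46) (nat_lit 937387) (nat_lit 640361) (nat_lit 1396838) (nat_lit 227533) (nat_lit 937387) (nat_lit 1396838) (nat_lit 1985963) (nat_lit 227533) (nat_lit 640361) (nat_lit 1276109) (nat_lit 1) (nat_lit 0)) <|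
  List.cons (Rec.mk (nat_lit 6) (nat_lit 47) (nat_lit 937387) (nat_lit 640361) (nat_lit 1257754) (nat_lit 549030) (nat_lit 937387) (nat_lit 1257754) (nat_lit 1985963) (nat_lit 549030) (nat_lit 640361) (nat_lit 1597606) (nat_lit 1) (nat_lit 1)) <|
  List.cons (Rec.mk (nat_lit 6) (nat_lit 48) (nat_lit 937387) (nat_lit 640361) (nat_lit 949236) (nat_lit 374610) (nat_lit 937387) (nat_lit 949236) (nat_lit 1985963) (nat_lit 374610) (nat_lit 640361) (nat_lit 1423186) (nat_lit 1) (nat_lit 0)) <|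
  List.cons (Rec.mk (nat_lit 6) (nat_lit 49) (nat_lit 937387) (nat_lit 640361) (nat_lit 662814) (nat_lit 807520) (nat_lit 662814) (nat_lit 937387) (nat_lit 1711390) (nat_lit 640361) (nat_lit 807520) (nat_lit 1688937) (nat_lit 0) (nat_lit 1)) <|
  List.cons (Rec.mk (nat_lit 6) (nat_lit 50) (nat_lit 937387) (nat_lit 640361) (nat_lit 1365792) (nat_lit 502786) (nat_lit 937387) (nat_lit 1365792) (nat_lit 1985963) (nat_lit 502786) (nat_lit 640361) (nat_lit 1551362) (nat_lit 1) (nat_lit 1)) <|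
  List.cons (Rec.mk (nat_lit 6) (nat_lit 51) (nat_lit 937387) (nat_lit 640361) (nat_lit 1317338) (nat_lit 231467) (nat_lit 937387) (nat_lit 1317338) (nat_lit 1985963) (nat_lit 231467) (nat_lit 640361) (nat_lit 1280043) (nat_lit 1) (nat_lit 1)) <|
  E9

def E7 : List Rec :=
  List.cons (Rec.mk (nat_lit 5) (nat_lit 21) (nat_lit 494782) (nat_lit 777563) (nat_lit 918775) (nat_lit 440156) (nat_lit 494782) (nat_lit 918775) (nat_lit 1543358) (nat_lit 440156) (nat_lit 777563) (nat_lit 1488732) (nat_lit 1) (nat_lit 1)) <|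
  List.cons (Rec.mk (nat_lit 5) (nat_lit 22) (nat_lit 494782) (nat_lit 777563) (nat_lit 236122) (nat_lit 923345) (nat_lit 236122) (nat_lit 494782) (nat_lit 1284698) (nat_lit 777563) (nat_lit 923345) (nat_lit 1826139) (nat_lit 0) (nat_lit 1)) <|
  List.cons (Rec.mk (nat_lit 5) (nat_lit 23) (nat_lit 494782) (nat_lit 777563) (nat_lit 983221) (nat_lit 330793) (nat_lit 494782) (nat_lit 983221) (nat_lit 1543358) (nat_lit 330793) (nat_lit 777563) (nat_lit 1379369) (nat_lit 1) (nat_lit 0)) <|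
  List.cons (Rec.mk (nat_lit 5) (nat_lit 24) (nat_lit 494782) (nat_lit 777563) (nat_lit 664612) (nat_lit 401726) (nat_lit 494782) (nat_lit 664612) (nat_lit 1543358) (nat_lit 401726) (nat_lit 777563) (nat_lit 1450302) (nat_lit 1) (nat_lit 1)) <|
  List.cons (Rec.mk (nat_lit 5) (nat_lit 25) (nat_lit 494782) (nat_lit 777563) (nat_lit 508882) (nat_lit 505448) (nat_lit 494782) (nat_lit 508882) (nat_lit 1543358) (nat_lit 505448) (nat_lit 777563) (nat_lit 1554024) (nat_lit 1) (nat_lit 0)) <|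
  List.cons (Rec.mk (nat_lit 5) (nat_lit 26) (nat_lit 494782) (nat_lit 777563) (nat_lit 46399) (nat_lit 924342) (nat_lit 46399) (nat_lit 494782) (nat_lit 1094975) (nat_lit 777563) (nat_lit 924342) (nat_lit 1826139) (nat_lit 0) (nat_lit 1)) <|
  List.cons (Rec.mk (nat_lit 5) (nat_lit 27) (nat_lit 1543358) (nat_lit 777563) (nat_lit 1020255) (nat_lit 940354) (nat_lit 1020255) (nat_lit 1543358) (nat_lit 2068831) (nat_lit 777563) (nat_lit 940354) (nat_lit 1826139) (nat_lit 0) (nat_lit 0)) <|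
  List.cons (Rec.mk (nat_lit 5) (nat_lit 28) (nat_lit 494782) (nat_lit 777563) (nat_lit 176086) (nat_lit 1028414) (nat_lit 176086) (nat_lit 494782) (nat_lit 1224662) (nat_lit 777563) (nat_lit 1028414) (nat_lit 1826139) (nat_lit 0) (nat_lit 0)) <|
  List.cons (Rec.mk (nat_lit 5) (nat_lit 29) (nat_lit 494782) (nat_lit 777563) (nat_lit 132099) (nat_lit 968835) (nat_lit 132099) (nat_lit 494782) (nat_lit 1180675) (nat_lit 777563) (nat_lit 968835) (nat_lit 1826139) (nat_lit 0) (nat_lit 0)) <|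
  List.cons (Rec.mk (nat_lit 5) (nat_lit 30) (nat_lit 494782) (nat_lit 777563) (nat_lit 841806) (nat_lit 1076843) (nat_lit 494782) (nat_lit 841806) (nat_lit 1543358) (nat_lit 777563) (nat_lit 1076843) (nat_lit 1826139) (nat_lit 0) (nat_lit 1)) <|
  List.cons (Rec.mk (nat_lit 5) (nat_lit 31) (nat_lit 494782) (nat_lit 777563) (nat_lit 184871) (nat_lit 1245209) (nat_lit 184871) (nat_lit 494782) (nat_lit 1233447) (nat_lit 777563) (nat_lit 1245209) (nat_lit 1826139) (nat_lit 0) (nat_lit 1)) <|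
  List.cons (Rec.mk (nat_lit 5) (nat_lit 32) (nat_lit 494782) (nat_lit 777563) (nat_lit 769851) (nat_lit 144942) (nat_lit 494782) (nat_lit 769851) (nat_lit 1543358) (nat_lit 144942) (nat_lit 777563) (nat_lit 1193518) (nat_lit 1) (nat_lit 1)) <|
  List.cons (Rec.mk (nat_lit 5) (nat_lit 33) (nat_lit 494782) (nat_lit 777563) (nat_lit 628264) (nat_lit 879843) (nat_lit 494782) (nat_lit 628264) (nat_lit 1543358) (nat_lit 777563) (nat_lit 879843) (nat_lit 1826139) (nat_lit 0) (nat_lit 1)) <|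
  List.cons (Rec.mk (nat_lit 5) (nat_lit 34) (nat_lit 494782) (nat_lit 777563) (nat_lit 138066) (nat_lit 1189142) (nat_lit 138066) (nat_lit 494782) (nat_lit 1186642) (nat_lit 777563) (nat_lit 1189142) (nat_lit 1826139) (nat_lit 0) (nat_lit 1)) <|
  List.cons (Rec.mk (nat_lit 5) (nat_lit 35) (nat_lit 494782) (nat_lit 777563) (nat_lit 401101) (nat_lit 813007) (nat_lit 401101) (nat_lit 494782) (nat_lit 1449677) (nat_lit 777563) (nat_lit 813007) (nat_lit 1826139) (nat_lit 0) (nat_lit 0)) <|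
  List.cons (Rec.mk (nat_lit 5) (nat_lit 36) (nat_lit 494782) (nat_lit 777563) (nat_lit 384169) (nat_lit 1225514) (nat_lit 384169) (nat_lit 494782) (nat_lit 1432745) (nat_lit 777563) (nat_lit 1225514) (nat_lit 1826139) (nat_lit 0) (nat_lit 1)) <|
  List.cons (Rec.mk (nat_lit 5) (nat_lit 37) (nat_lit 1543358) (nat_lit 777563) (nat_lit 981851) (nat_lit 976656) (nat_lit 981851) (nat_lit 1543358) (nat_lit 2030427) (nat_lit 777563) (nat_lit 976656) (nat_lit 1826139) (nat_lit 0) (nat_lit 0)) <|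
  List.cons (Rec.mk (nat_lit 5) (nat_lit 38) (nat_lit 494782) (nat_lit 777563) (nat_lit 712533) (nat_lit 337991) (nat_lit 494782) (nat_lit 712533) (nat_lit 1543358) (nat_lit 337991) (nat_lit 777563) (nat_lit 1386567) (nat_lit 1) (nat_lit 1)) <|
  List.cons (Rec.mk (nat_lit 5) (nat_lit 39) (nat_lit 494782) (nat_lit 777563) (nat_lit 26484) (nat_lit 718563) (nat_lit 26484) (nat_lit 494782) (nat_lit 1075060) (nat_lit 718563) (nat_lit 777563) (nat_lit 1767139) (nat_lit 0) (nat_lit 1)) <|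
  List.cons (Rec.mk (nat_lit 5) (nat_lit 40) (nat_lit 494782) (nat_lit 777563) (nat_lit 714818) (nat_lit 1128168) (nat_lit 494782) (nat_lit 714818) (nat_lit 1543358) (nat_lit 777563) (nat_lit 1128168) (nat_lit 1826139) (nat_lit 0) (nat_lit 0)) <|
  List.cons (Rec.mk (nat_lit 5) (nat_lit 41) (nat_lit 494782) (nat_lit 777563) (nat_lit 587619) (nat_lit 824506) (nat_lit 494782) (nat_lit 587619) (nat_lit 1543358) (nat_lit 777563) (nat_lit 824506) (nat_lit 1826139) (nat_lit 0) (nat_lit 0)) <|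
  List.cons (Rec.mk (nat_lit 5) (nat_lit 42) (nat_lit 494782) (nat_lit 777563) (nat_lit 562139) (nat_lit 1101737) (nat_lit 494782) (nat_lit 562139) (nat_lit 1543358) (nat_lit 777563) (nat_lit 1101737) (nat_lit 1826139) (nat_lit 0) (nat_lit 0)) <|
  List.cons (Rec.mk (nat_lit 5) (nat_lit 43) (nat_lit 494782) (nat_lit 777563) (nat_lit 443596) (nat_lit 733714) (nat_lit 443596) (nat_lit 494782) (nat_lit 1492172) (nat_lit 733714) (nat_lit 777563) (nat_lit 1782290) (nat_lit 1) (nat_lit 0)) <|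
  List.cons (Rec.mk (nat_lit 5) (nat_lit 44) (nat_lit 494782) (nat_lit 777563) (nat_lit 797581) (nat_lit 1131712) (nat_lit 494782) (nat_lit 797581) (nat_lit 1543358) (nat_lit 777563) (nat_lit 1131712) (nat_lit 1826139) (nat_lit 0) (nat_lit 1)) <|
  List.cons (Rec.mk (nat_lit 5) (nat_lit 45) (nat_lit 494782) (nat_lit 777563) (nat_lit 687375) (nat_lit 777397) (nat_lit 494782) (nat_lit 687375) (nat_lit 1543358) (nat_lit 777397) (nat_lit 777563) (nat_lit 1825973) (nat_lit 1) (nat_lit 0)) <|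
  List.cons (Rec.mk (nat_lit 5) (nat_lit 46) (nat_lit 494782) (nat_lit 777563) (nat_lit 348262) (nat_lit 1276109) (nat_lit 348262) (nat_lit 494782) (nat_lit 1396838) (nat_lit 777563) (nat_lit 1276109) (nat_lit 1826139) (nat_lit 0) (nat_lit 1)) <|
  List.cons (Rec.mk (nat_lit 5) (nat_lit 47) (nat_lit 494782) (nat_lit 777563) (nat_lit 209178) (nat_lit 549030) (nat_lit 209178) (nat_lit 494782) (nat_lit 1257754) (nat_lit 549030) (nat_lit 777563) (nat_lit 1597606) (nat_lit 1) (nat_lit 1)) <|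
  List.cons (Rec.mk (nat_lit 5) (nat_lit 48) (nat_lit 494782) (nat_lit 777563) (nat_lit 949236) (nat_lit 374610) (nat_lit 494782) (nat_lit 949236) (nat_lit 1543358) (nat_lit 374610) (nat_lit 777563) (nat_lit 1423186) (nat_lit 1) (nat_lit 0)) <|
  List.cons (Rec.mk (nat_lit 5) (nat_lit 49) (nat_lit 494782) (nat_lit 777563) (nat_lit 662814) (nat_lit 807520) (nat_lit 494782) (nat_lit 662814) (nat_lit 1543358) (nat_lit 777563) (nat_lit 807520) (nat_lit 1826139) (nat_lit 1) (nat_lit 1)) <|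
  List.cons (Rec.mk (nat_lit 5) (nat_lit 50) (nat_lit 494782) (nat_lit 777563) (nat_lit 317216) (nat_lit 502786) (nat_lit 317216) (nat_lit 494782) (nat_lit 1365792) (nat_lit 502786) (nat_lit 777563) (nat_lit 1551362) (nat_lit 1) (nat_lit 1)) <|
  List.cons (Rec.mk (nat_lit 5) (nat_lit 51) (nat_lit 494782) (nat_lit 777563) (nat_lit 268762) (nat_lit 1280043) (nat_lit 268762) (nat_lit 494782) (nat_lit 1317338) (nat_lit 777563) (nat_lit 1280043) (nat_lit 1826139) (nat_lit 0) (nat_lit 0)) <|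
  List.cons (Rec.mk (nat_lit 5) (nat_lit 52) (nat_lit 494782) (nat_lit 777563) (nat_lit 268078) (nat_lit 447768) (nat_lit 268078) (nat_lit 494782) (nat_lit 1316654) (nat_lit 447768) (nat_lit 777563) (nat_lit 1496344) (nat_lit 1) (nat_lit 0)) <|
  List.cons (Rec.mk (nat_lit 5) (nat_lit 53) (nat_lit 494782) (nat_lit 777563) (nat_lit 888048) (nat_lit 578007) (nat_lit 494782) (nat_lit 888048) (nat_lit 1543358) (nat_lit 578007) (nat_lit 777563) (nat_lit 1626583) (nat_lit 1) (nat_lit 0)) <|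
  List.cons (Rec.mk (nat_lit 5) (nat_lit 54) (nat_lit 494782) (nat_lit 777563) (nat_lit 530018) (nat_lit 1133018) (nat_lit 494782) (nat_lit 530018) (nat_lit 1543358) (nat_lit 777563) (nat_lit 1133018) (nat_lit 1826139) (nat_lit 0) (nat_lit 0)) <|
  List.cons (Rec.mk (nat_lit 5) (nat_lit 55) (nat_lit 494782) (nat_lit 777563) (nat_lit 1039209) (nat_lit 675035) (nat_lit 494782) (nat_lit 1039209) (nat_lit 1543358) (nat_lit 675035) (nat_lit 777563) (nat_lit 1723611) (nat_lit 1) (nat_lit 0)) <|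
  List.cons (Rec.mk (nat_lit 6) (nat_lit 7) (nat_lit 937387) (nat_lit 640361) (nat_lit 741848) (nat_lit 272566) (nat_lit 741848) (nat_lit 937387) (nat_lit 1790424) (nat_lit 272566) (nat_lit 640361) (nat_lit 1321142) (nat_lit 1) (nat_lit 0)) <|
  List.cons (Rec.mk (nat_lit 6) (nat_lit 8) (nat_lit 937387) (nat_lit 640361) (nat_lit 1249656) (nat_lit 971903) (nat_lit 937387) (nat_lit 1249656) (nat_lit 1985963) (nat_lit 640361) (nat_lit 971903) (nat_lit 1688937) (nat_lit 0) (nat_lit 1)) <|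
  List.cons (Rec.mk (nat_lit 6) (nat_lit 9) (nat_lit 937387) (nat_lit 640361) (nat_lit 1087326) (nat_lit 684886) (nat_lit 937387) (nat_lit 1087326) (nat_lit 1985963) (nat_lit 640361) (nat_lit 684886) (nat_lit 1688937) (nat_lit 1) (nat_lit 1)) <|
  List.cons (Rec.mk (nat_lit 6) (nat_lit 10) (nat_lit 937387) (nat_lit 640361) (nat_lit 802444) (nat_lit 343805) (nat_lit 802444) (nat_lit 937387) (nat_lit 1851020) (nat_lit 343805) (nat_lit 640361) (nat_lit 1392381) (nat_lit 1) (nat_lit 0)) <|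
  List.cons (Rec.mk (nat_lit 6) (nat_lit 11) (nat_lit 937387) (nat_lit 640361) (nat_lit 1039812) (nat_lit 872241) (nat_lit 937387) (nat_lit 1039812) (nat_lit 1985963) (nat_lit 640361) (nat_lit 872241) (nat_lit 1688937) (nat_lit 0) (nat_lit 1)) <|
  E8

def E6 : List Rec :=
  List.cons (Rec.mk (nat_lit 4) (nat_lit 31) (nat_lit 413536) (nat_lit 543987) (nat_lit 184871) (nat_lit 196633) (nat_lit 184871) (nat_lit 413536) (nat_lit 1233447) (nat_lit 196633) (nat_lit 543987) (nat_lit 1245209) (nat_lit 0) (nat_lit 0)) <|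
  List.cons (Rec.mk (nat_lit 4) (nat_lit 32) (nat_lit 413536) (nat_lit 543987) (nat_lit 769851) (nat_lit 144942) (nat_lit 413536) (nat_lit 769851) (nat_lit 1462112) (nat_lit 144942) (nat_lit 543987) (nat_lit 1193518) (nat_lit 0) (nat_lit 1)) <|
  List.cons (Rec.mk (nat_lit 4) (nat_lit 33) (nat_lit 413536) (nat_lit 543987) (nat_lit 628264) (nat_lit 879843) (nat_lit 413536) (nat_lit 628264) (nat_lit 1462112) (nat_lit 543987) (nat_lit 879843) (nat_lit 1592563) (nat_lit 1) (nat_lit 0)) <|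
  List.cons (Rec.mk (nat_lit 4) (nat_lit 34) (nat_lit 413536) (nat_lit 543987) (nat_lit 138066) (nat_lit 1189142) (nat_lit 138066) (nat_lit 413536) (nat_lit 1186642) (nat_lit 543987) (nat_lit 1189142) (nat_lit 1592563) (nat_lit 1) (nat_lit 1)) <|
  List.cons (Rec.mk (nat_lit 4) (nat_lit 35) (nat_lit 413536) (nat_lit 543987) (nat_lit 401101) (nat_lit 813007) (nat_lit 401101) (nat_lit 413536) (nat_lit 1449677) (nat_lit 543987) (nat_lit 813007) (nat_lit 1592563) (nat_lit 1) (nat_lit 0)) <|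
  List.cons (Rec.mk (nat_lit 4) (nat_lit 36) (nat_lit 413536) (nat_lit 543987) (nat_lit 384169) (nat_lit 176938) (nat_lit 384169) (nat_lit 413536) (nat_lit 1432745) (nat_lit 176938) (nat_lit 543987) (nat_lit 1225514) (nat_lit 0) (nat_lit 0)) <|
  List.cons (Rec.mk (nat_lit 4) (nat_lit 37) (nat_lit 1462112) (nat_lit 543987) (nat_lit 981851) (nat_lit 976656) (nat_lit 981851) (nat_lit 1462112) (nat_lit 2030427) (nat_lit 543987) (nat_lit 976656) (nat_lit 1592563) (nat_lit 1) (nat_lit 0)) <|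
  List.cons (Rec.mk (nat_lit 4) (nat_lit 38) (nat_lit 413536) (nat_lit 543987) (nat_lit 712533) (nat_lit 337991) (nat_lit 413536) (nat_lit 712533) (nat_lit 1462112) (nat_lit 337991) (nat_lit 543987) (nat_lit 1386567) (nat_lit 0) (nat_lit 1)) <|
  List.cons (Rec.mk (nat_lit 4) (nat_lit 39) (nat_lit 413536) (nat_lit 543987) (nat_lit 26484) (nat_lit 718563) (nat_lit 26484) (nat_lit 413536) (nat_lit 1075060) (nat_lit 543987) (nat_lit 718563) (nat_lit 1592563) (nat_lit 1) (nat_lit 0)) <|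
  List.cons (Rec.mk (nat_lit 4) (nat_lit 40) (nat_lit 413536) (nat_lit 543987) (nat_lit 714818) (nat_lit 79592) (nat_lit 413536) (nat_lit 714818) (nat_lit 1462112) (nat_lit 79592) (nat_lit 543987) (nat_lit 1128168) (nat_lit 0) (nat_lit 1)) <|
  List.cons (Rec.mk (nat_lit 4) (nat_lit 41) (nat_lit 413536) (nat_lit 543987) (nat_lit 587619) (nat_lit 824506) (nat_lit 413536) (nat_lit 587619) (nat_lit 1462112) (nat_lit 543987) (nat_lit 824506) (nat_lit 1592563) (nat_lit 1) (nat_lit 0)) <|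
  List.cons (Rec.mk (nat_lit 4) (nat_lit 42) (nat_lit 413536) (nat_lit 543987) (nat_lit 562139) (nat_lit 53161) (nat_lit 413536) (nat_lit 562139) (nat_lit 1462112) (nat_lit 53161) (nat_lit 543987) (nat_lit 1101737) (nat_lit 0) (nat_lit 1)) <|
  List.cons (Rec.mk (nat_lit 4) (nat_lit 43) (nat_lit 413536) (nat_lit 543987) (nat_lit 443596) (nat_lit 733714) (nat_lit 413536) (nat_lit 443596) (nat_lit 1462112) (nat_lit 543987) (nat_lit 733714) (nat_lit 1592563) (nat_lit 1) (nat_lit 1)) <|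
  List.cons (Rec.mk (nat_lit 4) (nat_lit 44) (nat_lit 413536) (nat_lit 543987) (nat_lit 797581) (nat_lit 83136) (nat_lit 413536) (nat_lit 797581) (nat_lit 1462112) (nat_lit 83136) (nat_lit 543987) (nat_lit 1131712) (nat_lit 0) (nat_lit 0)) <|
  List.cons (Rec.mk (nat_lit 4) (nat_lit 45) (nat_lit 413536) (nat_lit 543987) (nat_lit 687375) (nat_lit 777397) (nat_lit 413536) (nat_lit 687375) (nat_lit 1462112) (nat_lit 543987) (nat_lit 777397) (nat_lit 1592563) (nat_lit 1) (nat_lit 1)) <|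
  List.cons (Rec.mk (nat_lit 4) (nat_lit 46) (nat_lit 413536) (nat_lit 543987) (nat_lit 348262) (nat_lit 227533) (nat_lit 348262) (nat_lit 413536) (nat_lit 1396838) (nat_lit 227533) (nat_lit 543987) (nat_lit 1276109) (nat_lit 0) (nat_lit 0)) <|
  List.cons (Rec.mk (nat_lit 4) (nat_lit 47) (nat_lit 413536) (nat_lit 543987) (nat_lit 209178) (nat_lit 549030) (nat_lit 209178) (nat_lit 413536) (nat_lit 1257754) (nat_lit 543987) (nat_lit 549030) (nat_lit 1592563) (nat_lit 1) (nat_lit 0)) <|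
  List.cons (Rec.mk (nat_lit 4) (nat_lit 48) (nat_lit 413536) (nat_lit 543987) (nat_lit 949236) (nat_lit 374610) (nat_lit 413536) (nat_lit 949236) (nat_lit 1462112) (nat_lit 374610) (nat_lit 543987) (nat_lit 1423186) (nat_lit 0) (nat_lit 0)) <|
  List.cons (Rec.mk (nat_lit 4) (nat_lit 49) (nat_lit 413536) (nat_lit 543987) (nat_lit 662814) (nat_lit 807520) (nat_lit 413536) (nat_lit 662814) (nat_lit 1462112) (nat_lit 543987) (nat_lit 807520) (nat_lit 1592563) (nat_lit 1) (nat_lit 1)) <|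
  List.cons (Rec.mk (nat_lit 4) (nat_lit 50) (nat_lit 413536) (nat_lit 543987) (nat_lit 317216) (nat_lit 502786) (nat_lit 317216) (nat_lit 413536) (nat_lit 1365792) (nat_lit 502786) (nat_lit 543987) (nat_lit 1551362) (nat_lit 0) (nat_lit 1)) <|
  List.cons (Rec.mk (nat_lit 4) (nat_lit 51) (nat_lit 413536) (nat_lit 543987) (nat_lit 268762) (nat_lit 231467) (nat_lit 268762) (nat_lit 413536) (nat_lit 1317338) (nat_lit 231467) (nat_lit 543987) (nat_lit 1280043) (nat_lit 0) (nat_lit 1)) <|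
  List.cons (Rec.mk (nat_lit 4) (nat_lit 52) (nat_lit 413536) (nat_lit 543987) (nat_lit 268078) (nat_lit 447768) (nat_lit 268078) (nat_lit 413536) (nat_lit 1316654) (nat_lit 447768) (nat_lit 543987) (nat_lit 1496344) (nat_lit 0) (nat_lit 0)) <|
  List.cons (Rec.mk (nat_lit 4) (nat_lit 53) (nat_lit 413536) (nat_lit 543987) (nat_lit 888048) (nat_lit 578007) (nat_lit 413536) (nat_lit 888048) (nat_lit 1462112) (nat_lit 543987) (nat_lit 578007) (nat_lit 1592563) (nat_lit 1) (nat_lit 0)) <|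
  List.cons (Rec.mk (nat_lit 4) (nat_lit 54) (nat_lit 413536) (nat_lit 543987) (nat_lit 530018) (nat_lit 84442) (nat_lit 413536) (nat_lit 530018) (nat_lit 1462112) (nat_lit 84442) (nat_lit 543987) (nat_lit 1133018) (nat_lit 0) (nat_lit 1)) <|
  List.cons (Rec.mk (nat_lit 4) (nat_lit 55) (nat_lit 1462112) (nat_lit 543987) (nat_lit 1039209) (nat_lit 675035) (nat_lit 1039209) (nat_lit 1462112) (nat_lit 2087785) (nat_lit 543987) (nat_lit 675035) (nat_lit 1592563) (nat_lit 1) (nat_lit 1)) <|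
  List.cons (Rec.mk (nat_lit 5) (nat_lit 6) (nat_lit 494782) (nat_lit 777563) (nat_lit 937387) (nat_lit 640361) (nat_lit 494782) (nat_lit 937387) (nat_lit 1543358) (nat_lit 640361) (nat_lit 777563) (nat_lit 1688937) (nat_lit 1) (nat_lit 0)) <|
  List.cons (Rec.mk (nat_lit 5) (nat_lit 7) (nat_lit 494782) (nat_lit 777563) (nat_lit 741848) (nat_lit 272566) (nat_lit 494782) (nat_lit 741848) (nat_lit 1543358) (nat_lit 272566) (nat_lit 777563) (nat_lit 1321142) (nat_lit 1) (nat_lit 0)) <|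
  List.cons (Rec.mk (nat_lit 5) (nat_lit 8) (nat_lit 494782) (nat_lit 777563) (nat_lit 201080) (nat_lit 971903) (nat_lit 201080) (nat_lit 494782) (nat_lit 1249656) (nat_lit 777563) (nat_lit 971903) (nat_lit 1826139) (nat_lit 0) (nat_lit 1)) <|
  List.cons (Rec.mk (nat_lit 5) (nat_lit 9) (nat_lit 494782) (nat_lit 777563) (nat_lit 38750) (nat_lit 684886) (nat_lit 38750) (nat_lit 494782) (nat_lit 1087326) (nat_lit 684886) (nat_lit 777563) (nat_lit 1733462) (nat_lit 1) (nat_lit 0)) <|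
  List.cons (Rec.mk (nat_lit 5) (nat_lit 10) (nat_lit 494782) (nat_lit 777563) (nat_lit 802444) (nat_lit 343805) (nat_lit 494782) (nat_lit 802444) (nat_lit 1543358) (nat_lit 343805) (nat_lit 777563) (nat_lit 1392381) (nat_lit 1) (nat_lit 0)) <|
  List.cons (Rec.mk (nat_lit 5) (nat_lit 11) (nat_lit 1543358) (nat_lit 777563) (nat_lit 1039812) (nat_lit 872241) (nat_lit 1039812) (nat_lit 1543358) (nat_lit 2088388) (nat_lit 777563) (nat_lit 872241) (nat_lit 1826139) (nat_lit 0) (nat_lit 1)) <|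
  List.cons (Rec.mk (nat_lit 5) (nat_lit 12) (nat_lit 494782) (nat_lit 777563) (nat_lit 109748) (nat_lit 1252620) (nat_lit 109748) (nat_lit 494782) (nat_lit 1158324) (nat_lit 777563) (nat_lit 1252620) (nat_lit 1826139) (nat_lit 0) (nat_lit 0)) <|
  List.cons (Rec.mk (nat_lit 5) (nat_lit 13) (nat_lit 494782) (nat_lit 777563) (nat_lit 80662) (nat_lit 633316) (nat_lit 80662) (nat_lit 494782) (nat_lit 1129238) (nat_lit 633316) (nat_lit 777563) (nat_lit 1681892) (nat_lit 1) (nat_lit 1)) <|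
  List.cons (Rec.mk (nat_lit 5) (nat_lit 14) (nat_lit 494782) (nat_lit 777563) (nat_lit 851227) (nat_lit 656936) (nat_lit 494782) (nat_lit 851227) (nat_lit 1543358) (nat_lit 656936) (nat_lit 777563) (nat_lit 1705512) (nat_lit 1) (nat_lit 1)) <|
  List.cons (Rec.mk (nat_lit 5) (nat_lit 15) (nat_lit 494782) (nat_lit 777563) (nat_lit 416168) (nat_lit 793693) (nat_lit 416168) (nat_lit 494782) (nat_lit 1464744) (nat_lit 777563) (nat_lit 793693) (nat_lit 1826139) (nat_lit 0) (nat_lit 0)) <|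
  List.cons (Rec.mk (nat_lit 5) (nat_lit 16) (nat_lit 494782) (nat_lit 777563) (nat_lit 478612) (nat_lit 544091) (nat_lit 478612) (nat_lit 494782) (nat_lit 1527188) (nat_lit 544091) (nat_lit 777563) (nat_lit 1592667) (nat_lit 1) (nat_lit 0)) <|
  List.cons (Rec.mk (nat_lit 5) (nat_lit 17) (nat_lit 494782) (nat_lit 777563) (nat_lit 457741) (nat_lit 585975) (nat_lit 457741) (nat_lit 494782) (nat_lit 1506317) (nat_lit 585975) (nat_lit 777563) (nat_lit 1634551) (nat_lit 1) (nat_lit 1)) <|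
  List.cons (Rec.mk (nat_lit 5) (nat_lit 18) (nat_lit 494782) (nat_lit 777563) (nat_lit 314895) (nat_lit 1346563) (nat_lit 314895) (nat_lit 494782) (nat_lit 1363471) (nat_lit 777563) (nat_lit 1346563) (nat_lit 1826139) (nat_lit 0) (nat_lit 0)) <|
  List.cons (Rec.mk (nat_lit 5) (nat_lit 19) (nat_lit 494782) (nat_lit 777563) (nat_lit 821034) (nat_lit 699137) (nat_lit 494782) (nat_lit 821034) (nat_lit 1543358) (nat_lit 699137) (nat_lit 777563) (nat_lit 1747713) (nat_lit 1) (nat_lit 1)) <|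
  List.cons (Rec.mk (nat_lit 5) (nat_lit 20) (nat_lit 494782) (nat_lit 777563) (nat_lit 876318) (nat_lit 381236) (nat_lit 494782) (nat_lit 876318) (nat_lit 1543358) (nat_lit 381236) (nat_lit 777563) (nat_lit 1429812) (nat_lit 1) (nat_lit 1)) <|
  E7

def E5 : List Rec :=
  List.cons (Rec.mk (nat_lit 3) (nat_lit 42) (nat_lit 595856) (nat_lit 1030861) (nat_lit 562139) (nat_lit 1101737) (nat_lit 562139) (nat_lit 595856) (nat_lit 1610715) (nat_lit 1030861) (nat_lit 1101737) (nat_lit 2079437) (nat_lit 0) (nat_lit 0)) <|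
  List.cons (Rec.mk (nat_lit 3) (nat_lit 43) (nat_lit 595856) (nat_lit 1030861) (nat_lit 443596) (nat_lit 733714) (nat_lit 443596) (nat_lit 595856) (nat_lit 1492172) (nat_lit 733714) (nat_lit 1030861) (nat_lit 1782290) (nat_lit 1) (nat_lit 0)) <|
  List.cons (Rec.mk (nat_lit 3) (nat_lit 44) (nat_lit 595856) (nat_lit 1030861) (nat_lit 797581) (nat_lit 1131712) (nat_lit 595856) (nat_lit 797581) (nat_lit 1644432) (nat_lit 1030861) (nat_lit 1131712) (nat_lit 2079437) (nat_lit 0) (nat_lit 1)) <|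
  List.cons (Rec.mk (nat_lit 3) (nat_lit 45) (nat_lit 595856) (nat_lit 1030861) (nat_lit 687375) (nat_lit 777397) (nat_lit 595856) (nat_lit 687375) (nat_lit 1644432) (nat_lit 777397) (nat_lit 1030861) (nat_lit 1825973) (nat_lit 1) (nat_lit 0)) <|
  List.cons (Rec.mk (nat_lit 3) (nat_lit 46) (nat_lit 595856) (nat_lit 1030861) (nat_lit 348262) (nat_lit 1276109) (nat_lit 348262) (nat_lit 595856) (nat_lit 1396838) (nat_lit 1030861) (nat_lit 1276109) (nat_lit 2079437) (nat_lit 0) (nat_lit 1)) <|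
  List.cons (Rec.mk (nat_lit 3) (nat_lit 47) (nat_lit 595856) (nat_lit 1030861) (nat_lit 209178) (nat_lit 1597606) (nat_lit 209178) (nat_lit 595856) (nat_lit 1257754) (nat_lit 1030861) (nat_lit 1597606) (nat_lit 2079437) (nat_lit 0) (nat_lit 0)) <|
  List.cons (Rec.mk (nat_lit 3) (nat_lit 48) (nat_lit 595856) (nat_lit 1030861) (nat_lit 949236) (nat_lit 374610) (nat_lit 595856) (nat_lit 949236) (nat_lit 1644432) (nat_lit 374610) (nat_lit 1030861) (nat_lit 1423186) (nat_lit 1) (nat_lit 0)) <|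
  List.cons (Rec.mk (nat_lit 3) (nat_lit 49) (nat_lit 595856) (nat_lit 1030861) (nat_lit 662814) (nat_lit 807520) (nat_lit 595856) (nat_lit 662814) (nat_lit 1644432) (nat_lit 807520) (nat_lit 1030861) (nat_lit 1856096) (nat_lit 1) (nat_lit 0)) <|
  List.cons (Rec.mk (nat_lit 3) (nat_lit 50) (nat_lit 595856) (nat_lit 1030861) (nat_lit 317216) (nat_lit 1551362) (nat_lit 317216) (nat_lit 595856) (nat_lit 1365792) (nat_lit 1030861) (nat_lit 1551362) (nat_lit 2079437) (nat_lit 0) (nat_lit 0)) <|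
  List.cons (Rec.mk (nat_lit 3) (nat_lit 51) (nat_lit 595856) (nat_lit 1030861) (nat_lit 268762) (nat_lit 1280043) (nat_lit 268762) (nat_lit 595856) (nat_lit 1317338) (nat_lit 1030861) (nat_lit 1280043) (nat_lit 2079437) (nat_lit 0) (nat_lit 0)) <|
  List.cons (Rec.mk (nat_lit 3) (nat_lit 52) (nat_lit 595856) (nat_lit 1030861) (nat_lit 268078) (nat_lit 1496344) (nat_lit 268078) (nat_lit 595856) (nat_lit 1316654) (nat_lit 1030861) (nat_lit 1496344) (nat_lit 2079437) (nat_lit 0) (nat_lit 1)) <|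
  List.cons (Rec.mk (nat_lit 3) (nat_lit 53) (nat_lit 595856) (nat_lit 1030861) (nat_lit 888048) (nat_lit 578007) (nat_lit 595856) (nat_lit 888048) (nat_lit 1644432) (nat_lit 578007) (nat_lit 1030861) (nat_lit 1626583) (nat_lit 1) (nat_lit 0)) <|
  List.cons (Rec.mk (nat_lit 3) (nat_lit 54) (nat_lit 595856) (nat_lit 1030861) (nat_lit 530018) (nat_lit 1133018) (nat_lit 530018) (nat_lit 595856) (nat_lit 1578594) (nat_lit 1030861) (nat_lit 1133018) (nat_lit 2079437) (nat_lit 0) (nat_lit 0)) <|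
  List.cons (Rec.mk (nat_lit 3) (nat_lit 55) (nat_lit 595856) (nat_lit 1030861) (nat_lit 1039209) (nat_lit 675035) (nat_lit 595856) (nat_lit 1039209) (nat_lit 1644432) (nat_lit 675035) (nat_lit 1030861) (nat_lit 1723611) (nat_lit 1) (nat_lit 0)) <|
  List.cons (Rec.mk (nat_lit 4) (nat_lit 5) (nat_lit 413536) (nat_lit 543987) (nat_lit 494782) (nat_lit 777563) (nat_lit 413536) (nat_lit 494782) (nat_lit 1462112) (nat_lit 543987) (nat_lit 777563) (nat_lit 1592563) (nat_lit 1) (nat_lit 1)) <|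
  List.cons (Rec.mk (nat_lit 4) (nat_lit 6) (nat_lit 1462112) (nat_lit 543987) (nat_lit 937387) (nat_lit 640361) (nat_lit 937387) (nat_lit 1462112) (nat_lit 1985963) (nat_lit 543987) (nat_lit 640361) (nat_lit 1592563) (nat_lit 1) (nat_lit 1)) <|
  List.cons (Rec.mk (nat_lit 4) (nat_lit 7) (nat_lit 413536) (nat_lit 543987) (nat_lit 741848) (nat_lit 272566) (nat_lit 413536) (nat_lit 741848) (nat_lit 1462112) (nat_lit 272566) (nat_lit 543987) (nat_lit 1321142) (nat_lit 0) (nat_lit 0)) <|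
  List.cons (Rec.mk (nat_lit 4) (nat_lit 8) (nat_lit 413536) (nat_lit 543987) (nat_lit 201080) (nat_lit 971903) (nat_lit 201080) (nat_lit 413536) (nat_lit 1249656) (nat_lit 543987) (nat_lit 971903) (nat_lit 1592563) (nat_lit 1) (nat_lit 1)) <|
  List.cons (Rec.mk (nat_lit 4) (nat_lit 9) (nat_lit 413536) (nat_lit 543987) (nat_lit 38750) (nat_lit 684886) (nat_lit 38750) (nat_lit 413536) (nat_lit 1087326) (nat_lit 543987) (nat_lit 684886) (nat_lit 1592563) (nat_lit 1) (nat_lit 1)) <|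
  List.cons (Rec.mk (nat_lit 4) (nat_lit 10) (nat_lit 413536) (nat_lit 543987) (nat_lit 802444) (nat_lit 343805) (nat_lit 413536) (nat_lit 802444) (nat_lit 1462112) (nat_lit 343805) (nat_lit 543987) (nat_lit 1392381) (nat_lit 0) (nat_lit 0)) <|
  List.cons (Rec.mk (nat_lit 4) (nat_lit 11) (nat_lit 1462112) (nat_lit 543987) (nat_lit 1039812) (nat_lit 872241) (nat_lit 1039812) (nat_lit 1462112) (nat_lit 2088388) (nat_lit 543987) (nat_lit 872241) (nat_lit 1592563) (nat_lit 1) (nat_lit 1)) <|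
  List.cons (Rec.mk (nat_lit 4) (nat_lit 12) (nat_lit 413536) (nat_lit 543987) (nat_lit 109748) (nat_lit 204044) (nat_lit 109748) (nat_lit 413536) (nat_lit 1158324) (nat_lit 204044) (nat_lit 543987) (nat_lit 1252620) (nat_lit 0) (nat_lit 1)) <|
  List.cons (Rec.mk (nat_lit 4) (nat_lit 13) (nat_lit 413536) (nat_lit 543987) (nat_lit 80662) (nat_lit 633316) (nat_lit 80662) (nat_lit 413536) (nat_lit 1129238) (nat_lit 543987) (nat_lit 633316) (nat_lit 1592563) (nat_lit 1) (nat_lit 1)) <|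
  List.cons (Rec.mk (nat_lit 4) (nat_lit 14) (nat_lit 413536) (nat_lit 543987) (nat_lit 851227) (nat_lit 656936) (nat_lit 413536) (nat_lit 851227) (nat_lit 1462112) (nat_lit 543987) (nat_lit 656936) (nat_lit 1592563) (nat_lit 1) (nat_lit 1)) <|
  List.cons (Rec.mk (nat_lit 4) (nat_lit 15) (nat_lit 413536) (nat_lit 543987) (nat_lit 416168) (nat_lit 793693) (nat_lit 413536) (nat_lit 416168) (nat_lit 1462112) (nat_lit 543987) (nat_lit 793693) (nat_lit 1592563) (nat_lit 1) (nat_lit 0)) <|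
  List.cons (Rec.mk (nat_lit 4) (nat_lit 16) (nat_lit 413536) (nat_lit 543987) (nat_lit 478612) (nat_lit 544091) (nat_lit 413536) (nat_lit 478612) (nat_lit 1462112) (nat_lit 543987) (nat_lit 544091) (nat_lit 1592563) (nat_lit 0) (nat_lit 0)) <|
  List.cons (Rec.mk (nat_lit 4) (nat_lit 17) (nat_lit 413536) (nat_lit 543987) (nat_lit 457741) (nat_lit 585975) (nat_lit 413536) (nat_lit 457741) (nat_lit 1462112) (nat_lit 543987) (nat_lit 585975) (nat_lit 1592563) (nat_lit 1) (nat_lit 0)) <|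
  List.cons (Rec.mk (nat_lit 4) (nat_lit 18) (nat_lit 413536) (nat_lit 543987) (nat_lit 314895) (nat_lit 297987) (nat_lit 314895) (nat_lit 413536) (nat_lit 1363471) (nat_lit 297987) (nat_lit 543987) (nat_lit 1346563) (nat_lit 0) (nat_lit 1)) <|
  List.cons (Rec.mk (nat_lit 4) (nat_lit 19) (nat_lit 413536) (nat_lit 543987) (nat_lit 821034) (nat_lit 699137) (nat_lit 413536) (nat_lit 821034) (nat_lit 1462112) (nat_lit 543987) (nat_lit 699137) (nat_lit 1592563) (nat_lit 1) (nat_lit 1)) <|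
  List.cons (Rec.mk (nat_lit 4) (nat_lit 20) (nat_lit 413536) (nat_lit 543987) (nat_lit 876318) (nat_lit 381236) (nat_lit 413536) (nat_lit 876318) (nat_lit 1462112) (nat_lit 381236) (nat_lit 543987) (nat_lit 1429812) (nat_lit 0) (nat_lit 1)) <|
  List.cons (Rec.mk (nat_lit 4) (nat_lit 21) (nat_lit 413536) (nat_lit 543987) (nat_lit 918775) (nat_lit 440156) (nat_lit 413536) (nat_lit 918775) (nat_lit 1462112) (nat_lit 440156) (nat_lit 543987) (nat_lit 1488732) (nat_lit 0) (nat_lit 1)) <|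
  List.cons (Rec.mk (nat_lit 4) (nat_lit 22) (nat_lit 413536) (nat_lit 543987) (nat_lit 236122) (nat_lit 923345) (nat_lit 236122) (nat_lit 413536) (nat_lit 1284698) (nat_lit 543987) (nat_lit 923345) (nat_lit 1592563) (nat_lit 1) (nat_lit 1)) <|
  List.cons (Rec.mk (nat_lit 4) (nat_lit 23) (nat_lit 413536) (nat_lit 543987) (nat_lit 983221) (nat_lit 330793) (nat_lit 413536) (nat_lit 983221) (nat_lit 1462112) (nat_lit 330793) (nat_lit 543987) (nat_lit 1379369) (nat_lit 0) (nat_lit 0)) <|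
  List.cons (Rec.mk (nat_lit 4) (nat_lit 24) (nat_lit 413536) (nat_lit 543987) (nat_lit 664612) (nat_lit 401726) (nat_lit 413536) (nat_lit 664612) (nat_lit 1462112) (nat_lit 401726) (nat_lit 543987) (nat_lit 1450302) (nat_lit 0) (nat_lit 1)) <|
  List.cons (Rec.mk (nat_lit 4) (nat_lit 25) (nat_lit 413536) (nat_lit 543987) (nat_lit 508882) (nat_lit 505448) (nat_lit 413536) (nat_lit 508882) (nat_lit 1462112) (nat_lit 505448) (nat_lit 543987) (nat_lit 1554024) (nat_lit 0) (nat_lit 0)) <|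
  List.cons (Rec.mk (nat_lit 4) (nat_lit 26) (nat_lit 413536) (nat_lit 543987) (nat_lit 46399) (nat_lit 924342) (nat_lit 46399) (nat_lit 413536) (nat_lit 1094975) (nat_lit 543987) (nat_lit 924342) (nat_lit 1592563) (nat_lit 1) (nat_lit 1)) <|
  List.cons (Rec.mk (nat_lit 4) (nat_lit 27) (nat_lit 1462112) (nat_lit 543987) (nat_lit 1020255) (nat_lit 940354) (nat_lit 1020255) (nat_lit 1462112) (nat_lit 2068831) (nat_lit 543987) (nat_lit 940354) (nat_lit 1592563) (nat_lit 1) (nat_lit 0)) <|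
  List.cons (Rec.mk (nat_lit 4) (nat_lit 28) (nat_lit 413536) (nat_lit 543987) (nat_lit 176086) (nat_lit 1028414) (nat_lit 176086) (nat_lit 413536) (nat_lit 1224662) (nat_lit 543987) (nat_lit 1028414) (nat_lit 1592563) (nat_lit 1) (nat_lit 0)) <|
  List.cons (Rec.mk (nat_lit 4) (nat_lit 29) (nat_lit 413536) (nat_lit 543987) (nat_lit 132099) (nat_lit 968835) (nat_lit 132099) (nat_lit 413536) (nat_lit 1180675) (nat_lit 543987) (nat_lit 968835) (nat_lit 1592563) (nat_lit 1) (nat_lit 0)) <|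
  List.cons (Rec.mk (nat_lit 4) (nat_lit 30) (nat_lit 413536) (nat_lit 543987) (nat_lit 841806) (nat_lit 28267) (nat_lit 413536) (nat_lit 841806) (nat_lit 1462112) (nat_lit 28267) (nat_lit 543987) (nat_lit 1076843) (nat_lit 0) (nat_lit 0)) <|
  E6

def E4 : List Rec :=
  List.cons (Rec.mk (nat_lit 2) (nat_lit 54) (nat_lit 638790) (nat_lit 32744) (nat_lit 530018) (nat_lit 84442) (nat_lit 530018) (nat_lit 638790) (nat_lit 1578594) (nat_lit 32744) (nat_lit 84442) (nat_lit 1081320) (nat_lit 0) (nat_lit 0)) <|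
  List.cons (Rec.mk (nat_lit 2) (nat_lit 55) (nat_lit 638790) (nat_lit 1081320) (nat_lit 1039209) (nat_lit 675035) (nat_lit 638790) (nat_lit 1039209) (nat_lit 1687366) (nat_lit 675035) (nat_lit 1081320) (nat_lit 1723611) (nat_lit 1) (nat_lit 0)) <|
  List.cons (Rec.mk (nat_lit 3) (nat_lit 4) (nat_lit 595856) (nat_lit 1030861) (nat_lit 413536) (nat_lit 1592563) (nat_lit 413536) (nat_lit 595856) (nat_lit 1462112) (nat_lit 1030861) (nat_lit 1592563) (nat_lit 2079437) (nat_lit 0) (nat_lit 0)) <|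
  List.cons (Rec.mk (nat_lit 3) (nat_lit 5) (nat_lit 595856) (nat_lit 1030861) (nat_lit 494782) (nat_lit 777563) (nat_lit 494782) (nat_lit 595856) (nat_lit 1543358) (nat_lit 777563) (nat_lit 1030861) (nat_lit 1826139) (nat_lit 1) (nat_lit 0)) <|
  List.cons (Rec.mk (nat_lit 3) (nat_lit 6) (nat_lit 595856) (nat_lit 1030861) (nat_lit 937387) (nat_lit 640361) (nat_lit 595856) (nat_lit 937387) (nat_lit 1644432) (nat_lit 640361) (nat_lit 1030861) (nat_lit 1688937) (nat_lit 1) (nat_lit 0)) <|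
  List.cons (Rec.mk (nat_lit 3) (nat_lit 7) (nat_lit 595856) (nat_lit 1030861) (nat_lit 741848) (nat_lit 1321142) (nat_lit 595856) (nat_lit 741848) (nat_lit 1644432) (nat_lit 1030861) (nat_lit 1321142) (nat_lit 2079437) (nat_lit 0) (nat_lit 1)) <|
  List.cons (Rec.mk (nat_lit 3) (nat_lit 8) (nat_lit 595856) (nat_lit 1030861) (nat_lit 201080) (nat_lit 971903) (nat_lit 201080) (nat_lit 595856) (nat_lit 1249656) (nat_lit 971903) (nat_lit 1030861) (nat_lit 2020479) (nat_lit 1) (nat_lit 0)) <|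
  List.cons (Rec.mk (nat_lit 3) (nat_lit 9) (nat_lit 595856) (nat_lit 1030861) (nat_lit 1087326) (nat_lit 684886) (nat_lit 595856) (nat_lit 1087326) (nat_lit 1644432) (nat_lit 684886) (nat_lit 1030861) (nat_lit 1733462) (nat_lit 1) (nat_lit 0)) <|
  List.cons (Rec.mk (nat_lit 3) (nat_lit 10) (nat_lit 595856) (nat_lit 1030861) (nat_lit 802444) (nat_lit 1392381) (nat_lit 595856) (nat_lit 802444) (nat_lit 1644432) (nat_lit 1030861) (nat_lit 1392381) (nat_lit 2079437) (nat_lit 0) (nat_lit 1)) <|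
  List.cons (Rec.mk (nat_lit 3) (nat_lit 11) (nat_lit 595856) (nat_lit 1030861) (nat_lit 1039812) (nat_lit 872241) (nat_lit 595856) (nat_lit 1039812) (nat_lit 1644432) (nat_lit 872241) (nat_lit 1030861) (nat_lit 1920817) (nat_lit 1) (nat_lit 0)) <|
  List.cons (Rec.mk (nat_lit 3) (nat_lit 12) (nat_lit 595856) (nat_lit 1030861) (nat_lit 109748) (nat_lit 1252620) (nat_lit 109748) (nat_lit 595856) (nat_lit 1158324) (nat_lit 1030861) (nat_lit 1252620) (nat_lit 2079437) (nat_lit 0) (nat_lit 0)) <|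
  List.cons (Rec.mk (nat_lit 3) (nat_lit 13) (nat_lit 595856) (nat_lit 1030861) (nat_lit 1129238) (nat_lit 633316) (nat_lit 595856) (nat_lit 1129238) (nat_lit 1644432) (nat_lit 633316) (nat_lit 1030861) (nat_lit 1681892) (nat_lit 1) (nat_lit 0)) <|
  List.cons (Rec.mk (nat_lit 3) (nat_lit 14) (nat_lit 595856) (nat_lit 1030861) (nat_lit 851227) (nat_lit 656936) (nat_lit 595856) (nat_lit 851227) (nat_lit 1644432) (nat_lit 656936) (nat_lit 1030861) (nat_lit 1705512) (nat_lit 1) (nat_lit 1)) <|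
  List.cons (Rec.mk (nat_lit 3) (nat_lit 15) (nat_lit 595856) (nat_lit 1030861) (nat_lit 416168) (nat_lit 793693) (nat_lit 416168) (nat_lit 595856) (nat_lit 1464744) (nat_lit 793693) (nat_lit 1030861) (nat_lit 1842269) (nat_lit 1) (nat_lit 1)) <|
  List.cons (Rec.mk (nat_lit 3) (nat_lit 16) (nat_lit 595856) (nat_lit 1030861) (nat_lit 478612) (nat_lit 1592667) (nat_lit 478612) (nat_lit 595856) (nat_lit 1527188) (nat_lit 1030861) (nat_lit 1592667) (nat_lit 2079437) (nat_lit 0) (nat_lit 1)) <|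
  List.cons (Rec.mk (nat_lit 3) (nat_lit 17) (nat_lit 595856) (nat_lit 1030861) (nat_lit 457741) (nat_lit 585975) (nat_lit 457741) (nat_lit 595856) (nat_lit 1506317) (nat_lit 585975) (nat_lit 1030861) (nat_lit 1634551) (nat_lit 1) (nat_lit 1)) <|
  List.cons (Rec.mk (nat_lit 3) (nat_lit 18) (nat_lit 595856) (nat_lit 1030861) (nat_lit 314895) (nat_lit 1346563) (nat_lit 314895) (nat_lit 595856) (nat_lit 1363471) (nat_lit 1030861) (nat_lit 1346563) (nat_lit 2079437) (nat_lit 0) (nat_lit 0)) <|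
  List.cons (Rec.mk (nat_lit 3) (nat_lit 19) (nat_lit 595856) (nat_lit 1030861) (nat_lit 821034) (nat_lit 699137) (nat_lit 595856) (nat_lit 821034) (nat_lit 1644432) (nat_lit 699137) (nat_lit 1030861) (nat_lit 1747713) (nat_lit 1) (nat_lit 1)) <|
  List.cons (Rec.mk (nat_lit 3) (nat_lit 20) (nat_lit 595856) (nat_lit 1030861) (nat_lit 876318) (nat_lit 381236) (nat_lit 595856) (nat_lit 876318) (nat_lit 1644432) (nat_lit 381236) (nat_lit 1030861) (nat_lit 1429812) (nat_lit 1) (nat_lit 1)) <|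
  List.cons (Rec.mk (nat_lit 3) (nat_lit 21) (nat_lit 595856) (nat_lit 1030861) (nat_lit 918775) (nat_lit 440156) (nat_lit 595856) (nat_lit 918775) (nat_lit 1644432) (nat_lit 440156) (nat_lit 1030861) (nat_lit 1488732) (nat_lit 1) (nat_lit 1)) <|
  List.cons (Rec.mk (nat_lit 3) (nat_lit 22) (nat_lit 595856) (nat_lit 1030861) (nat_lit 236122) (nat_lit 923345) (nat_lit 236122) (nat_lit 595856) (nat_lit 1284698) (nat_lit 923345) (nat_lit 1030861) (nat_lit 1971921) (nat_lit 1) (nat_lit 1)) <|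
  List.cons (Rec.mk (nat_lit 3) (nat_lit 23) (nat_lit 1644432) (nat_lit 1030861) (nat_lit 983221) (nat_lit 1379369) (nat_lit 983221) (nat_lit 1644432) (nat_lit 2031797) (nat_lit 1030861) (nat_lit 1379369) (nat_lit 2079437) (nat_lit 0) (nat_lit 1)) <|
  List.cons (Rec.mk (nat_lit 3) (nat_lit 24) (nat_lit 595856) (nat_lit 1030861) (nat_lit 664612) (nat_lit 1450302) (nat_lit 595856) (nat_lit 664612) (nat_lit 1644432) (nat_lit 1030861) (nat_lit 1450302) (nat_lit 2079437) (nat_lit 0) (nat_lit 0)) <|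
  List.cons (Rec.mk (nat_lit 3) (nat_lit 25) (nat_lit 595856) (nat_lit 1030861) (nat_lit 508882) (nat_lit 1554024) (nat_lit 508882) (nat_lit 595856) (nat_lit 1557458) (nat_lit 1030861) (nat_lit 1554024) (nat_lit 2079437) (nat_lit 0) (nat_lit 1)) <|
  List.cons (Rec.mk (nat_lit 3) (nat_lit 26) (nat_lit 595856) (nat_lit 1030861) (nat_lit 1094975) (nat_lit 924342) (nat_lit 595856) (nat_lit 1094975) (nat_lit 1644432) (nat_lit 924342) (nat_lit 1030861) (nat_lit 1972918) (nat_lit 1) (nat_lit 0)) <|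
  List.cons (Rec.mk (nat_lit 3) (nat_lit 27) (nat_lit 595856) (nat_lit 1030861) (nat_lit 1020255) (nat_lit 940354) (nat_lit 595856) (nat_lit 1020255) (nat_lit 1644432) (nat_lit 940354) (nat_lit 1030861) (nat_lit 1988930) (nat_lit 1) (nat_lit 1)) <|
  List.cons (Rec.mk (nat_lit 3) (nat_lit 28) (nat_lit 595856) (nat_lit 1030861) (nat_lit 176086) (nat_lit 1028414) (nat_lit 176086) (nat_lit 595856) (nat_lit 1224662) (nat_lit 1028414) (nat_lit 1030861) (nat_lit 2076990) (nat_lit 0) (nat_lit 0)) <|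
  List.cons (Rec.mk (nat_lit 3) (nat_lit 29) (nat_lit 595856) (nat_lit 1030861) (nat_lit 132099) (nat_lit 968835) (nat_lit 132099) (nat_lit 595856) (nat_lit 1180675) (nat_lit 968835) (nat_lit 1030861) (nat_lit 2017411) (nat_lit 1) (nat_lit 1)) <|
  List.cons (Rec.mk (nat_lit 3) (nat_lit 30) (nat_lit 595856) (nat_lit 1030861) (nat_lit 841806) (nat_lit 1076843) (nat_lit 595856) (nat_lit 841806) (nat_lit 1644432) (nat_lit 1030861) (nat_lit 1076843) (nat_lit 2079437) (nat_lit 0) (nat_lit 0)) <|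
  List.cons (Rec.mk (nat_lit 3) (nat_lit 31) (nat_lit 595856) (nat_lit 1030861) (nat_lit 184871) (nat_lit 1245209) (nat_lit 184871) (nat_lit 595856) (nat_lit 1233447) (nat_lit 1030861) (nat_lit 1245209) (nat_lit 2079437) (nat_lit 0) (nat_lit 1)) <|
  List.cons (Rec.mk (nat_lit 3) (nat_lit 32) (nat_lit 595856) (nat_lit 1030861) (nat_lit 769851) (nat_lit 1193518) (nat_lit 595856) (nat_lit 769851) (nat_lit 1644432) (nat_lit 1030861) (nat_lit 1193518) (nat_lit 2079437) (nat_lit 0) (nat_lit 0)) <|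
  List.cons (Rec.mk (nat_lit 3) (nat_lit 33) (nat_lit 595856) (nat_lit 1030861) (nat_lit 628264) (nat_lit 879843) (nat_lit 595856) (nat_lit 628264) (nat_lit 1644432) (nat_lit 879843) (nat_lit 1030861) (nat_lit 1928419) (nat_lit 1) (nat_lit 1)) <|
  List.cons (Rec.mk (nat_lit 3) (nat_lit 34) (nat_lit 595856) (nat_lit 1030861) (nat_lit 138066) (nat_lit 1189142) (nat_lit 138066) (nat_lit 595856) (nat_lit 1186642) (nat_lit 1030861) (nat_lit 1189142) (nat_lit 2079437) (nat_lit 0) (nat_lit 1)) <|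
  List.cons (Rec.mk (nat_lit 3) (nat_lit 35) (nat_lit 595856) (nat_lit 1030861) (nat_lit 401101) (nat_lit 813007) (nat_lit 401101) (nat_lit 595856) (nat_lit 1449677) (nat_lit 813007) (nat_lit 1030861) (nat_lit 1861583) (nat_lit 1) (nat_lit 1)) <|
  List.cons (Rec.mk (nat_lit 3) (nat_lit 36) (nat_lit 595856) (nat_lit 1030861) (nat_lit 384169) (nat_lit 1225514) (nat_lit 384169) (nat_lit 595856) (nat_lit 1432745) (nat_lit 1030861) (nat_lit 1225514) (nat_lit 2079437) (nat_lit 0) (nat_lit 1)) <|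
  List.cons (Rec.mk (nat_lit 3) (nat_lit 37) (nat_lit 595856) (nat_lit 1030861) (nat_lit 981851) (nat_lit 976656) (nat_lit 595856) (nat_lit 981851) (nat_lit 1644432) (nat_lit 976656) (nat_lit 1030861) (nat_lit 2025232) (nat_lit 1) (nat_lit 1)) <|
  List.cons (Rec.mk (nat_lit 3) (nat_lit 38) (nat_lit 595856) (nat_lit 1030861) (nat_lit 712533) (nat_lit 1386567) (nat_lit 595856) (nat_lit 712533) (nat_lit 1644432) (nat_lit 1030861) (nat_lit 1386567) (nat_lit 2079437) (nat_lit 0) (nat_lit 0)) <|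
  List.cons (Rec.mk (nat_lit 3) (nat_lit 39) (nat_lit 595856) (nat_lit 1030861) (nat_lit 1075060) (nat_lit 718563) (nat_lit 595856) (nat_lit 1075060) (nat_lit 1644432) (nat_lit 718563) (nat_lit 1030861) (nat_lit 1767139) (nat_lit 1) (nat_lit 1)) <|
  List.cons (Rec.mk (nat_lit 3) (nat_lit 40) (nat_lit 595856) (nat_lit 1030861) (nat_lit 714818) (nat_lit 1128168) (nat_lit 595856) (nat_lit 714818) (nat_lit 1644432) (nat_lit 1030861) (nat_lit 1128168) (nat_lit 2079437) (nat_lit 0) (nat_lit 0)) <|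
  List.cons (Rec.mk (nat_lit 3) (nat_lit 41) (nat_lit 595856) (nat_lit 1030861) (nat_lit 587619) (nat_lit 824506) (nat_lit 587619) (nat_lit 595856) (nat_lit 1636195) (nat_lit 824506) (nat_lit 1030861) (nat_lit 1873082) (nat_lit 1) (nat_lit 1)) <|
  E5

def E3 : List Rec :=
  List.cons (Rec.mk (nat_lit 2) (nat_lit 14) (nat_lit 638790) (nat_lit 1081320) (nat_lit 851227) (nat_lit 656936) (nat_lit 638790) (nat_lit 851227) (nat_lit 1687366) (nat_lit 656936) (nat_lit 1081320) (nat_lit 1705512) (nat_lit 1) (nat_lit 1)) <|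
  List.cons (Rec.mk (nat_lit 2) (nat_lit 15) (nat_lit 638790) (nat_lit 1081320) (nat_lit 416168) (nat_lit 793693) (nat_lit 416168) (nat_lit 638790) (nat_lit 1464744) (nat_lit 793693) (nat_lit 1081320) (nat_lit 1842269) (nat_lit 1) (nat_lit 1)) <|
  List.cons (Rec.mk (nat_lit 2) (nat_lit 16) (nat_lit 638790) (nat_lit 32744) (nat_lit 478612) (nat_lit 544091) (nat_lit 478612) (nat_lit 638790) (nat_lit 1527188) (nat_lit 32744) (nat_lit 544091) (nat_lit 1081320) (nat_lit 0) (nat_lit 1)) <|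
  List.cons (Rec.mk (nat_lit 2) (nat_lit 17) (nat_lit 638790) (nat_lit 32744) (nat_lit 457741) (nat_lit 585975) (nat_lit 457741) (nat_lit 638790) (nat_lit 1506317) (nat_lit 32744) (nat_lit 585975) (nat_lit 1081320) (nat_lit 0) (nat_lit 0)) <|
  List.cons (Rec.mk (nat_lit 2) (nat_lit 18) (nat_lit 638790) (nat_lit 32744) (nat_lit 314895) (nat_lit 297987) (nat_lit 314895) (nat_lit 638790) (nat_lit 1363471) (nat_lit 32744) (nat_lit 297987) (nat_lit 1081320) (nat_lit 0) (nat_lit 0)) <|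
  List.cons (Rec.mk (nat_lit 2) (nat_lit 19) (nat_lit 638790) (nat_lit 1081320) (nat_lit 821034) (nat_lit 699137) (nat_lit 638790) (nat_lit 821034) (nat_lit 1687366) (nat_lit 699137) (nat_lit 1081320) (nat_lit 1747713) (nat_lit 1) (nat_lit 1)) <|
  List.cons (Rec.mk (nat_lit 2) (nat_lit 20) (nat_lit 638790) (nat_lit 32744) (nat_lit 876318) (nat_lit 381236) (nat_lit 638790) (nat_lit 876318) (nat_lit 1687366) (nat_lit 32744) (nat_lit 381236) (nat_lit 1081320) (nat_lit 0) (nat_lit 0)) <|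
  List.cons (Rec.mk (nat_lit 2) (nat_lit 21) (nat_lit 638790) (nat_lit 1081320) (nat_lit 918775) (nat_lit 440156) (nat_lit 638790) (nat_lit 918775) (nat_lit 1687366) (nat_lit 440156) (nat_lit 1081320) (nat_lit 1488732) (nat_lit 1) (nat_lit 1)) <|
  List.cons (Rec.mk (nat_lit 2) (nat_lit 22) (nat_lit 638790) (nat_lit 1081320) (nat_lit 236122) (nat_lit 923345) (nat_lit 236122) (nat_lit 638790) (nat_lit 1284698) (nat_lit 923345) (nat_lit 1081320) (nat_lit 1971921) (nat_lit 0) (nat_lit 1)) <|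
  List.cons (Rec.mk (nat_lit 2) (nat_lit 23) (nat_lit 638790) (nat_lit 32744) (nat_lit 983221) (nat_lit 330793) (nat_lit 638790) (nat_lit 983221) (nat_lit 1687366) (nat_lit 32744) (nat_lit 330793) (nat_lit 1081320) (nat_lit 0) (nat_lit 1)) <|
  List.cons (Rec.mk (nat_lit 2) (nat_lit 24) (nat_lit 638790) (nat_lit 32744) (nat_lit 664612) (nat_lit 401726) (nat_lit 638790) (nat_lit 664612) (nat_lit 1687366) (nat_lit 32744) (nat_lit 401726) (nat_lit 1081320) (nat_lit 0) (nat_lit 0)) <|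
  List.cons (Rec.mk (nat_lit 2) (nat_lit 25) (nat_lit 638790) (nat_lit 32744) (nat_lit 508882) (nat_lit 505448) (nat_lit 508882) (nat_lit 638790) (nat_lit 1557458) (nat_lit 32744) (nat_lit 505448) (nat_lit 1081320) (nat_lit 0) (nat_lit 1)) <|
  List.cons (Rec.mk (nat_lit 2) (nat_lit 26) (nat_lit 638790) (nat_lit 1081320) (nat_lit 1094975) (nat_lit 924342) (nat_lit 638790) (nat_lit 1094975) (nat_lit 1687366) (nat_lit 924342) (nat_lit 1081320) (nat_lit 1972918) (nat_lit 1) (nat_lit 0)) <|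
  List.cons (Rec.mk (nat_lit 2) (nat_lit 27) (nat_lit 638790) (nat_lit 1081320) (nat_lit 1020255) (nat_lit 940354) (nat_lit 638790) (nat_lit 1020255) (nat_lit 1687366) (nat_lit 940354) (nat_lit 1081320) (nat_lit 1988930) (nat_lit 1) (nat_lit 1)) <|
  List.cons (Rec.mk (nat_lit 2) (nat_lit 28) (nat_lit 638790) (nat_lit 1081320) (nat_lit 176086) (nat_lit 1028414) (nat_lit 176086) (nat_lit 638790) (nat_lit 1224662) (nat_lit 1028414) (nat_lit 1081320) (nat_lit 2076990) (nat_lit 0) (nat_lit 1)) <|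
  List.cons (Rec.mk (nat_lit 2) (nat_lit 29) (nat_lit 638790) (nat_lit 1081320) (nat_lit 1180675) (nat_lit 968835) (nat_lit 638790) (nat_lit 1180675) (nat_lit 1687366) (nat_lit 968835) (nat_lit 1081320) (nat_lit 2017411) (nat_lit 1) (nat_lit 1)) <|
  List.cons (Rec.mk (nat_lit 2) (nat_lit 30) (nat_lit 638790) (nat_lit 32744) (nat_lit 841806) (nat_lit 28267) (nat_lit 638790) (nat_lit 841806) (nat_lit 1687366) (nat_lit 28267) (nat_lit 32744) (nat_lit 1076843) (nat_lit 1) (nat_lit 0)) <|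
  List.cons (Rec.mk (nat_lit 2) (nat_lit 31) (nat_lit 638790) (nat_lit 32744) (nat_lit 184871) (nat_lit 196633) (nat_lit 184871) (nat_lit 638790) (nat_lit 1233447) (nat_lit 32744) (nat_lit 196633) (nat_lit 1081320) (nat_lit 0) (nat_lit 1)) <|
  List.cons (Rec.mk (nat_lit 2) (nat_lit 32) (nat_lit 638790) (nat_lit 32744) (nat_lit 769851) (nat_lit 144942) (nat_lit 638790) (nat_lit 769851) (nat_lit 1687366) (nat_lit 32744) (nat_lit 144942) (nat_lit 1081320) (nat_lit 1) (nat_lit 1)) <|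
  List.cons (Rec.mk (nat_lit 2) (nat_lit 33) (nat_lit 638790) (nat_lit 1081320) (nat_lit 628264) (nat_lit 879843) (nat_lit 628264) (nat_lit 638790) (nat_lit 1676840) (nat_lit 879843) (nat_lit 1081320) (nat_lit 1928419) (nat_lit 1) (nat_lit 1)) <|
  List.cons (Rec.mk (nat_lit 2) (nat_lit 34) (nat_lit 638790) (nat_lit 32744) (nat_lit 138066) (nat_lit 140566) (nat_lit 138066) (nat_lit 638790) (nat_lit 1186642) (nat_lit 32744) (nat_lit 140566) (nat_lit 1081320) (nat_lit 0) (nat_lit 1)) <|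
  List.cons (Rec.mk (nat_lit 2) (nat_lit 35) (nat_lit 638790) (nat_lit 1081320) (nat_lit 401101) (nat_lit 813007) (nat_lit 401101) (nat_lit 638790) (nat_lit 1449677) (nat_lit 813007) (nat_lit 1081320) (nat_lit 1861583) (nat_lit 1) (nat_lit 1)) <|
  List.cons (Rec.mk (nat_lit 2) (nat_lit 36) (nat_lit 638790) (nat_lit 32744) (nat_lit 384169) (nat_lit 176938) (nat_lit 384169) (nat_lit 638790) (nat_lit 1432745) (nat_lit 32744) (nat_lit 176938) (nat_lit 1081320) (nat_lit 0) (nat_lit 1)) <|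
  List.cons (Rec.mk (nat_lit 2) (nat_lit 37) (nat_lit 638790) (nat_lit 1081320) (nat_lit 981851) (nat_lit 976656) (nat_lit 638790) (nat_lit 981851) (nat_lit 1687366) (nat_lit 976656) (nat_lit 1081320) (nat_lit 2025232) (nat_lit 1) (nat_lit 1)) <|
  List.cons (Rec.mk (nat_lit 2) (nat_lit 38) (nat_lit 638790) (nat_lit 32744) (nat_lit 712533) (nat_lit 337991) (nat_lit 638790) (nat_lit 712533) (nat_lit 1687366) (nat_lit 32744) (nat_lit 337991) (nat_lit 1081320) (nat_lit 0) (nat_lit 0)) <|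
  List.cons (Rec.mk (nat_lit 2) (nat_lit 39) (nat_lit 638790) (nat_lit 1081320) (nat_lit 1075060) (nat_lit 718563) (nat_lit 638790) (nat_lit 1075060) (nat_lit 1687366) (nat_lit 718563) (nat_lit 1081320) (nat_lit 1767139) (nat_lit 1) (nat_lit 1)) <|
  List.cons (Rec.mk (nat_lit 2) (nat_lit 40) (nat_lit 638790) (nat_lit 32744) (nat_lit 714818) (nat_lit 79592) (nat_lit 638790) (nat_lit 714818) (nat_lit 1687366) (nat_lit 32744) (nat_lit 79592) (nat_lit 1081320) (nat_lit 1) (nat_lit 0)) <|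
  List.cons (Rec.mk (nat_lit 2) (nat_lit 41) (nat_lit 638790) (nat_lit 1081320) (nat_lit 587619) (nat_lit 824506) (nat_lit 587619) (nat_lit 638790) (nat_lit 1636195) (nat_lit 824506) (nat_lit 1081320) (nat_lit 1873082) (nat_lit 1) (nat_lit 1)) <|
  List.cons (Rec.mk (nat_lit 2) (nat_lit 42) (nat_lit 638790) (nat_lit 32744) (nat_lit 562139) (nat_lit 53161) (nat_lit 562139) (nat_lit 638790) (nat_lit 1610715) (nat_lit 32744) (nat_lit 53161) (nat_lit 1081320) (nat_lit 0) (nat_lit 0)) <|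
  List.cons (Rec.mk (nat_lit 2) (nat_lit 43) (nat_lit 638790) (nat_lit 1081320) (nat_lit 443596) (nat_lit 733714) (nat_lit 443596) (nat_lit 638790) (nat_lit 1492172) (nat_lit 733714) (nat_lit 1081320) (nat_lit 1782290) (nat_lit 1) (nat_lit 0)) <|
  List.cons (Rec.mk (nat_lit 2) (nat_lit 44) (nat_lit 638790) (nat_lit 32744) (nat_lit 797581) (nat_lit 83136) (nat_lit 638790) (nat_lit 797581) (nat_lit 1687366) (nat_lit 32744) (nat_lit 83136) (nat_lit 1081320) (nat_lit 1) (nat_lit 1)) <|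
  List.cons (Rec.mk (nat_lit 2) (nat_lit 45) (nat_lit 638790) (nat_lit 1081320) (nat_lit 687375) (nat_lit 777397) (nat_lit 638790) (nat_lit 687375) (nat_lit 1687366) (nat_lit 777397) (nat_lit 1081320) (nat_lit 1825973) (nat_lit 1) (nat_lit 0)) <|
  List.cons (Rec.mk (nat_lit 2) (nat_lit 46) (nat_lit 638790) (nat_lit 32744) (nat_lit 348262) (nat_lit 227533) (nat_lit 348262) (nat_lit 638790) (nat_lit 1396838) (nat_lit 32744) (nat_lit 227533) (nat_lit 1081320) (nat_lit 0) (nat_lit 1)) <|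
  List.cons (Rec.mk (nat_lit 2) (nat_lit 47) (nat_lit 638790) (nat_lit 32744) (nat_lit 209178) (nat_lit 549030) (nat_lit 209178) (nat_lit 638790) (nat_lit 1257754) (nat_lit 32744) (nat_lit 549030) (nat_lit 1081320) (nat_lit 0) (nat_lit 0)) <|
  List.cons (Rec.mk (nat_lit 2) (nat_lit 48) (nat_lit 638790) (nat_lit 32744) (nat_lit 949236) (nat_lit 374610) (nat_lit 638790) (nat_lit 949236) (nat_lit 1687366) (nat_lit 32744) (nat_lit 374610) (nat_lit 1081320) (nat_lit 0) (nat_lit 1)) <|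
  List.cons (Rec.mk (nat_lit 2) (nat_lit 49) (nat_lit 638790) (nat_lit 1081320) (nat_lit 662814) (nat_lit 807520) (nat_lit 638790) (nat_lit 662814) (nat_lit 1687366) (nat_lit 807520) (nat_lit 1081320) (nat_lit 1856096) (nat_lit 1) (nat_lit 0)) <|
  List.cons (Rec.mk (nat_lit 2) (nat_lit 50) (nat_lit 638790) (nat_lit 32744) (nat_lit 317216) (nat_lit 502786) (nat_lit 317216) (nat_lit 638790) (nat_lit 1365792) (nat_lit 32744) (nat_lit 502786) (nat_lit 1081320) (nat_lit 0) (nat_lit 0)) <|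
  List.cons (Rec.mk (nat_lit 2) (nat_lit 51) (nat_lit 638790) (nat_lit 32744) (nat_lit 268762) (nat_lit 231467) (nat_lit 268762) (nat_lit 638790) (nat_lit 1317338) (nat_lit 32744) (nat_lit 231467) (nat_lit 1081320) (nat_lit 0) (nat_lit 0)) <|
  List.cons (Rec.mk (nat_lit 2) (nat_lit 52) (nat_lit 638790) (nat_lit 32744) (nat_lit 268078) (nat_lit 447768) (nat_lit 268078) (nat_lit 638790) (nat_lit 1316654) (nat_lit 32744) (nat_lit 447768) (nat_lit 1081320) (nat_lit 0) (nat_lit 1)) <|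
  List.cons (Rec.mk (nat_lit 2) (nat_lit 53) (nat_lit 638790) (nat_lit 1081320) (nat_lit 888048) (nat_lit 578007) (nat_lit 638790) (nat_lit 888048) (nat_lit 1687366) (nat_lit 578007) (nat_lit 1081320) (nat_lit 1626583) (nat_lit 1) (nat_lit 0)) <|
  E4

def E2 : List Rec :=
  List.cons (Rec.mk (nat_lit 1) (nat_lit 27) (nat_lit 1292199) (nat_lit 501101) (nat_lit 1020255) (nat_lit 940354) (nat_lit 1020255) (nat_lit 1292199) (nat_lit 2068831) (nat_lit 501101) (nat_lit 940354) (nat_lit 1549677) (nat_lit 0) (nat_lit 0)) <|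
  List.cons (Rec.mk (nat_lit 1) (nat_lit 28) (nat_lit 243623) (nat_lit 501101) (nat_lit 176086) (nat_lit 1028414) (nat_lit 176086) (nat_lit 243623) (nat_lit 1224662) (nat_lit 501101) (nat_lit 1028414) (nat_lit 1549677) (nat_lit 0) (nat_lit 0)) <|
  List.cons (Rec.mk (nat_lit 1) (nat_lit 29) (nat_lit 243623) (nat_lit 501101) (nat_lit 132099) (nat_lit 968835) (nat_lit 132099) (nat_lit 243623) (nat_lit 1180675) (nat_lit 501101) (nat_lit 968835) (nat_lit 1549677) (nat_lit 0) (nat_lit 0)) <|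
  List.cons (Rec.mk (nat_lit 1) (nat_lit 30) (nat_lit 243623) (nat_lit 501101) (nat_lit 841806) (nat_lit 28267) (nat_lit 243623) (nat_lit 841806) (nat_lit 1292199) (nat_lit 28267) (nat_lit 501101) (nat_lit 1076843) (nat_lit 1) (nat_lit 0)) <|
  List.cons (Rec.mk (nat_lit 1) (nat_lit 31) (nat_lit 243623) (nat_lit 501101) (nat_lit 184871) (nat_lit 196633) (nat_lit 184871) (nat_lit 243623) (nat_lit 1233447) (nat_lit 196633) (nat_lit 501101) (nat_lit 1245209) (nat_lit 1) (nat_lit 0)) <|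
  List.cons (Rec.mk (nat_lit 1) (nat_lit 32) (nat_lit 243623) (nat_lit 501101) (nat_lit 769851) (nat_lit 144942) (nat_lit 243623) (nat_lit 769851) (nat_lit 1292199) (nat_lit 144942) (nat_lit 501101) (nat_lit 1193518) (nat_lit 1) (nat_lit 1)) <|
  List.cons (Rec.mk (nat_lit 1) (nat_lit 33) (nat_lit 243623) (nat_lit 1549677) (nat_lit 628264) (nat_lit 879843) (nat_lit 243623) (nat_lit 628264) (nat_lit 1292199) (nat_lit 879843) (nat_lit 1549677) (nat_lit 1928419) (nat_lit 1) (nat_lit 1)) <|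
  List.cons (Rec.mk (nat_lit 1) (nat_lit 34) (nat_lit 243623) (nat_lit 501101) (nat_lit 138066) (nat_lit 140566) (nat_lit 138066) (nat_lit 243623) (nat_lit 1186642) (nat_lit 140566) (nat_lit 501101) (nat_lit 1189142) (nat_lit 1) (nat_lit 0)) <|
  List.cons (Rec.mk (nat_lit 1) (nat_lit 35) (nat_lit 243623) (nat_lit 501101) (nat_lit 401101) (nat_lit 813007) (nat_lit 243623) (nat_lit 401101) (nat_lit 1292199) (nat_lit 501101) (nat_lit 813007) (nat_lit 1549677) (nat_lit 0) (nat_lit 0)) <|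
  List.cons (Rec.mk (nat_lit 1) (nat_lit 36) (nat_lit 243623) (nat_lit 501101) (nat_lit 384169) (nat_lit 176938) (nat_lit 243623) (nat_lit 384169) (nat_lit 1292199) (nat_lit 176938) (nat_lit 501101) (nat_lit 1225514) (nat_lit 1) (nat_lit 0)) <|
  List.cons (Rec.mk (nat_lit 1) (nat_lit 37) (nat_lit 1292199) (nat_lit 501101) (nat_lit 981851) (nat_lit 976656) (nat_lit 981851) (nat_lit 1292199) (nat_lit 2030427) (nat_lit 501101) (nat_lit 976656) (nat_lit 1549677) (nat_lit 0) (nat_lit 0)) <|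
  List.cons (Rec.mk (nat_lit 1) (nat_lit 38) (nat_lit 243623) (nat_lit 501101) (nat_lit 712533) (nat_lit 337991) (nat_lit 243623) (nat_lit 712533) (nat_lit 1292199) (nat_lit 337991) (nat_lit 501101) (nat_lit 1386567) (nat_lit 1) (nat_lit 1)) <|
  List.cons (Rec.mk (nat_lit 1) (nat_lit 39) (nat_lit 243623) (nat_lit 501101) (nat_lit 26484) (nat_lit 718563) (nat_lit 26484) (nat_lit 243623) (nat_lit 1075060) (nat_lit 501101) (nat_lit 718563) (nat_lit 1549677) (nat_lit 0) (nat_lit 0)) <|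
  List.cons (Rec.mk (nat_lit 1) (nat_lit 40) (nat_lit 243623) (nat_lit 501101) (nat_lit 714818) (nat_lit 79592) (nat_lit 243623) (nat_lit 714818) (nat_lit 1292199) (nat_lit 79592) (nat_lit 501101) (nat_lit 1128168) (nat_lit 1) (nat_lit 1)) <|
  List.cons (Rec.mk (nat_lit 1) (nat_lit 41) (nat_lit 243623) (nat_lit 501101) (nat_lit 587619) (nat_lit 824506) (nat_lit 243623) (nat_lit 587619) (nat_lit 1292199) (nat_lit 501101) (nat_lit 824506) (nat_lit 1549677) (nat_lit 0) (nat_lit 0)) <|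
  List.cons (Rec.mk (nat_lit 1) (nat_lit 42) (nat_lit 243623) (nat_lit 501101) (nat_lit 562139) (nat_lit 53161) (nat_lit 243623) (nat_lit 562139) (nat_lit 1292199) (nat_lit 53161) (nat_lit 501101) (nat_lit 1101737) (nat_lit 1) (nat_lit 1)) <|
  List.cons (Rec.mk (nat_lit 1) (nat_lit 43) (nat_lit 243623) (nat_lit 501101) (nat_lit 443596) (nat_lit 733714) (nat_lit 243623) (nat_lit 443596) (nat_lit 1292199) (nat_lit 501101) (nat_lit 733714) (nat_lit 1549677) (nat_lit 0) (nat_lit 1)) <|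
  List.cons (Rec.mk (nat_lit 1) (nat_lit 44) (nat_lit 243623) (nat_lit 501101) (nat_lit 797581) (nat_lit 83136) (nat_lit 243623) (nat_lit 797581) (nat_lit 1292199) (nat_lit 83136) (nat_lit 501101) (nat_lit 1131712) (nat_lit 1) (nat_lit 0)) <|
  List.cons (Rec.mk (nat_lit 1) (nat_lit 45) (nat_lit 1292199) (nat_lit 501101) (nat_lit 687375) (nat_lit 777397) (nat_lit 687375) (nat_lit 1292199) (nat_lit 1735951) (nat_lit 501101) (nat_lit 777397) (nat_lit 1549677) (nat_lit 0) (nat_lit 1)) <|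
  List.cons (Rec.mk (nat_lit 1) (nat_lit 46) (nat_lit 243623) (nat_lit 501101) (nat_lit 348262) (nat_lit 227533) (nat_lit 243623) (nat_lit 348262) (nat_lit 1292199) (nat_lit 227533) (nat_lit 501101) (nat_lit 1276109) (nat_lit 1) (nat_lit 0)) <|
  List.cons (Rec.mk (nat_lit 1) (nat_lit 47) (nat_lit 243623) (nat_lit 501101) (nat_lit 209178) (nat_lit 549030) (nat_lit 209178) (nat_lit 243623) (nat_lit 1257754) (nat_lit 501101) (nat_lit 549030) (nat_lit 1549677) (nat_lit 0) (nat_lit 0)) <|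
  List.cons (Rec.mk (nat_lit 1) (nat_lit 48) (nat_lit 1292199) (nat_lit 501101) (nat_lit 949236) (nat_lit 374610) (nat_lit 949236) (nat_lit 1292199) (nat_lit 1997812) (nat_lit 374610) (nat_lit 501101) (nat_lit 1423186) (nat_lit 1) (nat_lit 0)) <|
  List.cons (Rec.mk (nat_lit 1) (nat_lit 49) (nat_lit 1292199) (nat_lit 501101) (nat_lit 662814) (nat_lit 807520) (nat_lit 662814) (nat_lit 1292199) (nat_lit 1711390) (nat_lit 501101) (nat_lit 807520) (nat_lit 1549677) (nat_lit 0) (nat_lit 1)) <|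
  List.cons (Rec.mk (nat_lit 1) (nat_lit 50) (nat_lit 243623) (nat_lit 501101) (nat_lit 317216) (nat_lit 502786) (nat_lit 243623) (nat_lit 317216) (nat_lit 1292199) (nat_lit 501101) (nat_lit 502786) (nat_lit 1549677) (nat_lit 0) (nat_lit 0)) <|
  List.cons (Rec.mk (nat_lit 1) (nat_lit 51) (nat_lit 243623) (nat_lit 501101) (nat_lit 268762) (nat_lit 231467) (nat_lit 243623) (nat_lit 268762) (nat_lit 1292199) (nat_lit 231467) (nat_lit 501101) (nat_lit 1280043) (nat_lit 1) (nat_lit 1)) <|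
  List.cons (Rec.mk (nat_lit 1) (nat_lit 52) (nat_lit 243623) (nat_lit 501101) (nat_lit 268078) (nat_lit 447768) (nat_lit 243623) (nat_lit 268078) (nat_lit 1292199) (nat_lit 447768) (nat_lit 501101) (nat_lit 1496344) (nat_lit 1) (nat_lit 0)) <|
  List.cons (Rec.mk (nat_lit 1) (nat_lit 53) (nat_lit 1292199) (nat_lit 501101) (nat_lit 888048) (nat_lit 578007) (nat_lit 888048) (nat_lit 1292199) (nat_lit 1936624) (nat_lit 501101) (nat_lit 578007) (nat_lit 1549677) (nat_lit 0) (nat_lit 1)) <|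
  List.cons (Rec.mk (nat_lit 1) (nat_lit 54) (nat_lit 243623) (nat_lit 501101) (nat_lit 530018) (nat_lit 84442) (nat_lit 243623) (nat_lit 530018) (nat_lit 1292199) (nat_lit 84442) (nat_lit 501101) (nat_lit 1133018) (nat_lit 1) (nat_lit 1)) <|
  List.cons (Rec.mk (nat_lit 1) (nat_lit 55) (nat_lit 1292199) (nat_lit 501101) (nat_lit 1039209) (nat_lit 675035) (nat_lit 1039209) (nat_lit 1292199) (nat_lit 2087785) (nat_lit 501101) (nat_lit 675035) (nat_lit 1549677) (nat_lit 0) (nat_lit 1)) <|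
  List.cons (Rec.mk (nat_lit 2) (nat_lit 3) (nat_lit 638790) (nat_lit 1081320) (nat_lit 595856) (nat_lit 1030861) (nat_lit 595856) (nat_lit 638790) (nat_lit 1644432) (nat_lit 1030861) (nat_lit 1081320) (nat_lit 2079437) (nat_lit 1) (nat_lit 0)) <|
  List.cons (Rec.mk (nat_lit 2) (nat_lit 4) (nat_lit 638790) (nat_lit 32744) (nat_lit 413536) (nat_lit 543987) (nat_lit 413536) (nat_lit 638790) (nat_lit 1462112) (nat_lit 32744) (nat_lit 543987) (nat_lit 1081320) (nat_lit 0) (nat_lit 0)) <|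
  List.cons (Rec.mk (nat_lit 2) (nat_lit 5) (nat_lit 638790) (nat_lit 1081320) (nat_lit 494782) (nat_lit 777563) (nat_lit 494782) (nat_lit 638790) (nat_lit 1543358) (nat_lit 777563) (nat_lit 1081320) (nat_lit 1826139) (nat_lit 1) (nat_lit 0)) <|
  List.cons (Rec.mk (nat_lit 2) (nat_lit 6) (nat_lit 638790) (nat_lit 1081320) (nat_lit 937387) (nat_lit 640361) (nat_lit 638790) (nat_lit 937387) (nat_lit 1687366) (nat_lit 640361) (nat_lit 1081320) (nat_lit 1688937) (nat_lit 1) (nat_lit 0)) <|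
  List.cons (Rec.mk (nat_lit 2) (nat_lit 7) (nat_lit 638790) (nat_lit 32744) (nat_lit 741848) (nat_lit 272566) (nat_lit 638790) (nat_lit 741848) (nat_lit 1687366) (nat_lit 32744) (nat_lit 272566) (nat_lit 1081320) (nat_lit 0) (nat_lit 1)) <|
  List.cons (Rec.mk (nat_lit 2) (nat_lit 8) (nat_lit 638790) (nat_lit 1081320) (nat_lit 201080) (nat_lit 971903) (nat_lit 201080) (nat_lit 638790) (nat_lit 1249656) (nat_lit 971903) (nat_lit 1081320) (nat_lit 2020479) (nat_lit 0) (nat_lit 0)) <|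
  List.cons (Rec.mk (nat_lit 2) (nat_lit 9) (nat_lit 638790) (nat_lit 1081320) (nat_lit 1087326) (nat_lit 684886) (nat_lit 638790) (nat_lit 1087326) (nat_lit 1687366) (nat_lit 684886) (nat_lit 1081320) (nat_lit 1733462) (nat_lit 1) (nat_lit 0)) <|
  List.cons (Rec.mk (nat_lit 2) (nat_lit 10) (nat_lit 638790) (nat_lit 32744) (nat_lit 802444) (nat_lit 343805) (nat_lit 638790) (nat_lit 802444) (nat_lit 1687366) (nat_lit 32744) (nat_lit 343805) (nat_lit 1081320) (nat_lit 0) (nat_lit 1)) <|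
  List.cons (Rec.mk (nat_lit 2) (nat_lit 11) (nat_lit 638790) (nat_lit 1081320) (nat_lit 1039812) (nat_lit 872241) (nat_lit 638790) (nat_lit 1039812) (nat_lit 1687366) (nat_lit 872241) (nat_lit 1081320) (nat_lit 1920817) (nat_lit 1) (nat_lit 0)) <|
  List.cons (Rec.mk (nat_lit 2) (nat_lit 12) (nat_lit 638790) (nat_lit 32744) (nat_lit 109748) (nat_lit 204044) (nat_lit 109748) (nat_lit 638790) (nat_lit 1158324) (nat_lit 32744) (nat_lit 204044) (nat_lit 1081320) (nat_lit 0) (nat_lit 0)) <|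
  List.cons (Rec.mk (nat_lit 2) (nat_lit 13) (nat_lit 638790) (nat_lit 1081320) (nat_lit 1129238) (nat_lit 633316) (nat_lit 638790) (nat_lit 1129238) (nat_lit 1687366) (nat_lit 633316) (nat_lit 1081320) (nat_lit 1681892) (nat_lit 1) (nat_lit 0)) <|
  E3

def E1 : List Rec :=
  List.cons (Rec.mk (nat_lit 0) (nat_lit 41) (nat_lit 81547) (nat_lit 1290957) (nat_lit 587619) (nat_lit 824506) (nat_lit 81547) (nat_lit 587619) (nat_lit 1130123) (nat_lit 824506) (nat_lit 1290957) (nat_lit 1873082) (nat_lit 0) (nat_lit 1)) <|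
  List.cons (Rec.mk (nat_lit 0) (nat_lit 42) (nat_lit 81547) (nat_lit 242381) (nat_lit 562139) (nat_lit 53161) (nat_lit 81547) (nat_lit 562139) (nat_lit 1130123) (nat_lit 53161) (nat_lit 242381) (nat_lit 1101737) (nat_lit 0) (nat_lit 1)) <|
  List.cons (Rec.mk (nat_lit 0) (nat_lit 43) (nat_lit 81547) (nat_lit 1290957) (nat_lit 443596) (nat_lit 733714) (nat_lit 81547) (nat_lit 443596) (nat_lit 1130123) (nat_lit 733714) (nat_lit 1290957) (nat_lit 1782290) (nat_lit 0) (nat_lit 0)) <|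
  List.cons (Rec.mk (nat_lit 0) (nat_lit 44) (nat_lit 1130123) (nat_lit 242381) (nat_lit 797581) (nat_lit 83136) (nat_lit 797581) (nat_lit 1130123) (nat_lit 1846157) (nat_lit 83136) (nat_lit 242381) (nat_lit 1131712) (nat_lit 0) (nat_lit 0)) <|
  List.cons (Rec.mk (nat_lit 0) (nat_lit 45) (nat_lit 1130123) (nat_lit 242381) (nat_lit 687375) (nat_lit 777397) (nat_lit 687375) (nat_lit 1130123) (nat_lit 1735951) (nat_lit 242381) (nat_lit 777397) (nat_lit 1290957) (nat_lit 1) (nat_lit 1)) <|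
  List.cons (Rec.mk (nat_lit 0) (nat_lit 46) (nat_lit 81547) (nat_lit 242381) (nat_lit 348262) (nat_lit 227533) (nat_lit 81547) (nat_lit 348262) (nat_lit 1130123) (nat_lit 227533) (nat_lit 242381) (nat_lit 1276109) (nat_lit 0) (nat_lit 0)) <|
  List.cons (Rec.mk (nat_lit 0) (nat_lit 47) (nat_lit 81547) (nat_lit 242381) (nat_lit 209178) (nat_lit 549030) (nat_lit 81547) (nat_lit 209178) (nat_lit 1130123) (nat_lit 242381) (nat_lit 549030) (nat_lit 1290957) (nat_lit 1) (nat_lit 0)) <|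
  List.cons (Rec.mk (nat_lit 0) (nat_lit 48) (nat_lit 1130123) (nat_lit 242381) (nat_lit 949236) (nat_lit 374610) (nat_lit 949236) (nat_lit 1130123) (nat_lit 1997812) (nat_lit 242381) (nat_lit 374610) (nat_lit 1290957) (nat_lit 1) (nat_lit 1)) <|
  List.cons (Rec.mk (nat_lit 0) (nat_lit 49) (nat_lit 81547) (nat_lit 1290957) (nat_lit 662814) (nat_lit 807520) (nat_lit 81547) (nat_lit 662814) (nat_lit 1130123) (nat_lit 807520) (nat_lit 1290957) (nat_lit 1856096) (nat_lit 0) (nat_lit 0)) <|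
  List.cons (Rec.mk (nat_lit 0) (nat_lit 50) (nat_lit 81547) (nat_lit 242381) (nat_lit 317216) (nat_lit 502786) (nat_lit 81547) (nat_lit 317216) (nat_lit 1130123) (nat_lit 242381) (nat_lit 502786) (nat_lit 1290957) (nat_lit 1) (nat_lit 0)) <|
  List.cons (Rec.mk (nat_lit 0) (nat_lit 51) (nat_lit 81547) (nat_lit 242381) (nat_lit 268762) (nat_lit 231467) (nat_lit 81547) (nat_lit 268762) (nat_lit 1130123) (nat_lit 231467) (nat_lit 242381) (nat_lit 1280043) (nat_lit 0) (nat_lit 1)) <|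
  List.cons (Rec.mk (nat_lit 0) (nat_lit 52) (nat_lit 81547) (nat_lit 242381) (nat_lit 268078) (nat_lit 447768) (nat_lit 81547) (nat_lit 268078) (nat_lit 1130123) (nat_lit 242381) (nat_lit 447768) (nat_lit 1290957) (nat_lit 1) (nat_lit 1)) <|
  List.cons (Rec.mk (nat_lit 0) (nat_lit 53) (nat_lit 1130123) (nat_lit 242381) (nat_lit 888048) (nat_lit 578007) (nat_lit 888048) (nat_lit 1130123) (nat_lit 1936624) (nat_lit 242381) (nat_lit 578007) (nat_lit 1290957) (nat_lit 1) (nat_lit 1)) <|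
  List.cons (Rec.mk (nat_lit 0) (nat_lit 54) (nat_lit 81547) (nat_lit 242381) (nat_lit 530018) (nat_lit 84442) (nat_lit 81547) (nat_lit 530018) (nat_lit 1130123) (nat_lit 84442) (nat_lit 242381) (nat_lit 1133018) (nat_lit 0) (nat_lit 1)) <|
  List.cons (Rec.mk (nat_lit 0) (nat_lit 55) (nat_lit 1130123) (nat_lit 242381) (nat_lit 1039209) (nat_lit 675035) (nat_lit 1039209) (nat_lit 1130123) (nat_lit 2087785) (nat_lit 242381) (nat_lit 675035) (nat_lit 1290957) (nat_lit 1) (nat_lit 1)) <|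
  List.cons (Rec.mk (nat_lit 1) (nat_lit 2) (nat_lit 243623) (nat_lit 501101) (nat_lit 638790) (nat_lit 32744) (nat_lit 243623) (nat_lit 638790) (nat_lit 1292199) (nat_lit 32744) (nat_lit 501101) (nat_lit 1081320) (nat_lit 1) (nat_lit 0)) <|
  List.cons (Rec.mk (nat_lit 1) (nat_lit 3) (nat_lit 243623) (nat_lit 1549677) (nat_lit 595856) (nat_lit 1030861) (nat_lit 243623) (nat_lit 595856) (nat_lit 1292199) (nat_lit 1030861) (nat_lit 1549677) (nat_lit 2079437) (nat_lit 1) (nat_lit 0)) <|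
  List.cons (Rec.mk (nat_lit 1) (nat_lit 4) (nat_lit 243623) (nat_lit 501101) (nat_lit 413536) (nat_lit 543987) (nat_lit 243623) (nat_lit 413536) (nat_lit 1292199) (nat_lit 501101) (nat_lit 543987) (nat_lit 1549677) (nat_lit 0) (nat_lit 0)) <|
  List.cons (Rec.mk (nat_lit 1) (nat_lit 5) (nat_lit 243623) (nat_lit 501101) (nat_lit 494782) (nat_lit 777563) (nat_lit 243623) (nat_lit 494782) (nat_lit 1292199) (nat_lit 501101) (nat_lit 777563) (nat_lit 1549677) (nat_lit 0) (nat_lit 1)) <|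
  List.cons (Rec.mk (nat_lit 1) (nat_lit 6) (nat_lit 1292199) (nat_lit 501101) (nat_lit 937387) (nat_lit 640361) (nat_lit 937387) (nat_lit 1292199) (nat_lit 1985963) (nat_lit 501101) (nat_lit 640361) (nat_lit 1549677) (nat_lit 0) (nat_lit 1)) <|
  List.cons (Rec.mk (nat_lit 1) (nat_lit 7) (nat_lit 243623) (nat_lit 501101) (nat_lit 741848) (nat_lit 272566) (nat_lit 243623) (nat_lit 741848) (nat_lit 1292199) (nat_lit 272566) (nat_lit 501101) (nat_lit 1321142) (nat_lit 1) (nat_lit 0)) <|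
  List.cons (Rec.mk (nat_lit 1) (nat_lit 8) (nat_lit 243623) (nat_lit 501101) (nat_lit 201080) (nat_lit 971903) (nat_lit 201080) (nat_lit 243623) (nat_lit 1249656) (nat_lit 501101) (nat_lit 971903) (nat_lit 1549677) (nat_lit 0) (nat_lit 1)) <|
  List.cons (Rec.mk (nat_lit 1) (nat_lit 9) (nat_lit 243623) (nat_lit 501101) (nat_lit 38750) (nat_lit 684886) (nat_lit 38750) (nat_lit 243623) (nat_lit 1087326) (nat_lit 501101) (nat_lit 684886) (nat_lit 1549677) (nat_lit 0) (nat_lit 1)) <|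
  List.cons (Rec.mk (nat_lit 1) (nat_lit 10) (nat_lit 243623) (nat_lit 501101) (nat_lit 802444) (nat_lit 343805) (nat_lit 243623) (nat_lit 802444) (nat_lit 1292199) (nat_lit 343805) (nat_lit 501101) (nat_lit 1392381) (nat_lit 1) (nat_lit 0)) <|
  List.cons (Rec.mk (nat_lit 1) (nat_lit 11) (nat_lit 1292199) (nat_lit 501101) (nat_lit 1039812) (nat_lit 872241) (nat_lit 1039812) (nat_lit 1292199) (nat_lit 2088388) (nat_lit 501101) (nat_lit 872241) (nat_lit 1549677) (nat_lit 0) (nat_lit 1)) <|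
  List.cons (Rec.mk (nat_lit 1) (nat_lit 12) (nat_lit 243623) (nat_lit 501101) (nat_lit 109748) (nat_lit 204044) (nat_lit 109748) (nat_lit 243623) (nat_lit 1158324) (nat_lit 204044) (nat_lit 501101) (nat_lit 1252620) (nat_lit 1) (nat_lit 1)) <|
  List.cons (Rec.mk (nat_lit 1) (nat_lit 13) (nat_lit 243623) (nat_lit 501101) (nat_lit 80662) (nat_lit 633316) (nat_lit 80662) (nat_lit 243623) (nat_lit 1129238) (nat_lit 501101) (nat_lit 633316) (nat_lit 1549677) (nat_lit 0) (nat_lit 1)) <|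
  List.cons (Rec.mk (nat_lit 1) (nat_lit 14) (nat_lit 1292199) (nat_lit 501101) (nat_lit 851227) (nat_lit 656936) (nat_lit 851227) (nat_lit 1292199) (nat_lit 1899803) (nat_lit 501101) (nat_lit 656936) (nat_lit 1549677) (nat_lit 0) (nat_lit 0)) <|
  List.cons (Rec.mk (nat_lit 1) (nat_lit 15) (nat_lit 243623) (nat_lit 501101) (nat_lit 416168) (nat_lit 793693) (nat_lit 243623) (nat_lit 416168) (nat_lit 1292199) (nat_lit 501101) (nat_lit 793693) (nat_lit 1549677) (nat_lit 0) (nat_lit 0)) <|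
  List.cons (Rec.mk (nat_lit 1) (nat_lit 16) (nat_lit 243623) (nat_lit 501101) (nat_lit 478612) (nat_lit 544091) (nat_lit 243623) (nat_lit 478612) (nat_lit 1292199) (nat_lit 501101) (nat_lit 544091) (nat_lit 1549677) (nat_lit 0) (nat_lit 1)) <|
  List.cons (Rec.mk (nat_lit 1) (nat_lit 17) (nat_lit 243623) (nat_lit 501101) (nat_lit 457741) (nat_lit 585975) (nat_lit 243623) (nat_lit 457741) (nat_lit 1292199) (nat_lit 501101) (nat_lit 585975) (nat_lit 1549677) (nat_lit 0) (nat_lit 0)) <|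
  List.cons (Rec.mk (nat_lit 1) (nat_lit 18) (nat_lit 243623) (nat_lit 501101) (nat_lit 314895) (nat_lit 297987) (nat_lit 243623) (nat_lit 314895) (nat_lit 1292199) (nat_lit 297987) (nat_lit 501101) (nat_lit 1346563) (nat_lit 1) (nat_lit 1)) <|
  List.cons (Rec.mk (nat_lit 1) (nat_lit 19) (nat_lit 1292199) (nat_lit 501101) (nat_lit 821034) (nat_lit 699137) (nat_lit 821034) (nat_lit 1292199) (nat_lit 1869610) (nat_lit 501101) (nat_lit 699137) (nat_lit 1549677) (nat_lit 0) (nat_lit 0)) <|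
  List.cons (Rec.mk (nat_lit 1) (nat_lit 20) (nat_lit 1292199) (nat_lit 501101) (nat_lit 876318) (nat_lit 381236) (nat_lit 876318) (nat_lit 1292199) (nat_lit 1924894) (nat_lit 381236) (nat_lit 501101) (nat_lit 1429812) (nat_lit 1) (nat_lit 1)) <|
  List.cons (Rec.mk (nat_lit 1) (nat_lit 21) (nat_lit 1292199) (nat_lit 501101) (nat_lit 918775) (nat_lit 440156) (nat_lit 918775) (nat_lit 1292199) (nat_lit 1967351) (nat_lit 440156) (nat_lit 501101) (nat_lit 1488732) (nat_lit 1) (nat_lit 1)) <|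
  List.cons (Rec.mk (nat_lit 1) (nat_lit 22) (nat_lit 243623) (nat_lit 501101) (nat_lit 236122) (nat_lit 923345) (nat_lit 236122) (nat_lit 243623) (nat_lit 1284698) (nat_lit 501101) (nat_lit 923345) (nat_lit 1549677) (nat_lit 0) (nat_lit 1)) <|
  List.cons (Rec.mk (nat_lit 1) (nat_lit 23) (nat_lit 1292199) (nat_lit 501101) (nat_lit 983221) (nat_lit 330793) (nat_lit 983221) (nat_lit 1292199) (nat_lit 2031797) (nat_lit 330793) (nat_lit 501101) (nat_lit 1379369) (nat_lit 1) (nat_lit 0)) <|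
  List.cons (Rec.mk (nat_lit 1) (nat_lit 24) (nat_lit 243623) (nat_lit 501101) (nat_lit 664612) (nat_lit 401726) (nat_lit 243623) (nat_lit 664612) (nat_lit 1292199) (nat_lit 401726) (nat_lit 501101) (nat_lit 1450302) (nat_lit 1) (nat_lit 1)) <|
  List.cons (Rec.mk (nat_lit 1) (nat_lit 25) (nat_lit 243623) (nat_lit 501101) (nat_lit 508882) (nat_lit 505448) (nat_lit 243623) (nat_lit 508882) (nat_lit 1292199) (nat_lit 501101) (nat_lit 505448) (nat_lit 1549677) (nat_lit 1) (nat_lit 1)) <|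
  List.cons (Rec.mk (nat_lit 1) (nat_lit 26) (nat_lit 243623) (nat_lit 501101) (nat_lit 46399) (nat_lit 924342) (nat_lit 46399) (nat_lit 243623) (nat_lit 1094975) (nat_lit 501101) (nat_lit 924342) (nat_lit 1549677) (nat_lit 0) (nat_lit 1)) <|
  E2

def E0 : List Rec :=
  List.cons (Rec.mk (nat_lit 0) (nat_lit 1) (nat_lit 81547) (nat_lit 242381) (nat_lit 243623) (nat_lit 501101) (nat_lit 81547) (nat_lit 243623) (nat_lit 1130123) (nat_lit 242381) (nat_lit 501101) (nat_lit 1290957) (nat_lit 1) (nat_lit 1)) <|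
  List.cons (Rec.mk (nat_lit 0) (nat_lit 2) (nat_lit 81547) (nat_lit 242381) (nat_lit 638790) (nat_lit 32744) (nat_lit 81547) (nat_lit 638790) (nat_lit 1130123) (nat_lit 32744) (nat_lit 242381) (nat_lit 1081320) (nat_lit 0) (nat_lit 0)) <|
  List.cons (Rec.mk (nat_lit 0) (nat_lit 3) (nat_lit 81547) (nat_lit 1290957) (nat_lit 595856) (nat_lit 1030861) (nat_lit 81547) (nat_lit 595856) (nat_lit 1130123) (nat_lit 1030861) (nat_lit 1290957) (nat_lit 2079437) (nat_lit 0) (nat_lit 0)) <|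
  List.cons (Rec.mk (nat_lit 0) (nat_lit 4) (nat_lit 81547) (nat_lit 242381) (nat_lit 413536) (nat_lit 543987) (nat_lit 81547) (nat_lit 413536) (nat_lit 1130123) (nat_lit 242381) (nat_lit 543987) (nat_lit 1290957) (nat_lit 1) (nat_lit 0)) <|
  List.cons (Rec.mk (nat_lit 0) (nat_lit 5) (nat_lit 81547) (nat_lit 1290957) (nat_lit 494782) (nat_lit 777563) (nat_lit 81547) (nat_lit 494782) (nat_lit 1130123) (nat_lit 777563) (nat_lit 1290957) (nat_lit 1826139) (nat_lit 0) (nat_lit 0)) <|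
  List.cons (Rec.mk (nat_lit 0) (nat_lit 6) (nat_lit 1130123) (nat_lit 242381) (nat_lit 937387) (nat_lit 640361) (nat_lit 937387) (nat_lit 1130123) (nat_lit 1985963) (nat_lit 242381) (nat_lit 640361) (nat_lit 1290957) (nat_lit 1) (nat_lit 1)) <|
  List.cons (Rec.mk (nat_lit 0) (nat_lit 7) (nat_lit 1130123) (nat_lit 242381) (nat_lit 741848) (nat_lit 272566) (nat_lit 741848) (nat_lit 1130123) (nat_lit 1790424) (nat_lit 242381) (nat_lit 272566) (nat_lit 1290957) (nat_lit 1) (nat_lit 1)) <|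
  List.cons (Rec.mk (nat_lit 0) (nat_lit 8) (nat_lit 81547) (nat_lit 1290957) (nat_lit 201080) (nat_lit 971903) (nat_lit 81547) (nat_lit 201080) (nat_lit 1130123) (nat_lit 971903) (nat_lit 1290957) (nat_lit 2020479) (nat_lit 0) (nat_lit 0)) <|
  List.cons (Rec.mk (nat_lit 0) (nat_lit 9) (nat_lit 81547) (nat_lit 242381) (nat_lit 38750) (nat_lit 684886) (nat_lit 38750) (nat_lit 81547) (nat_lit 1087326) (nat_lit 242381) (nat_lit 684886) (nat_lit 1290957) (nat_lit 1) (nat_lit 1)) <|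
  List.cons (Rec.mk (nat_lit 0) (nat_lit 10) (nat_lit 1130123) (nat_lit 242381) (nat_lit 802444) (nat_lit 343805) (nat_lit 802444) (nat_lit 1130123) (nat_lit 1851020) (nat_lit 242381) (nat_lit 343805) (nat_lit 1290957) (nat_lit 1) (nat_lit 1)) <|
  List.cons (Rec.mk (nat_lit 0) (nat_lit 11) (nat_lit 1130123) (nat_lit 1290957) (nat_lit 1039812) (nat_lit 872241) (nat_lit 1039812) (nat_lit 1130123) (nat_lit 2088388) (nat_lit 872241) (nat_lit 1290957) (nat_lit 1920817) (nat_lit 0) (nat_lit 0)) <|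
  List.cons (Rec.mk (nat_lit 0) (nat_lit 12) (nat_lit 81547) (nat_lit 242381) (nat_lit 109748) (nat_lit 204044) (nat_lit 81547) (nat_lit 109748) (nat_lit 1130123) (nat_lit 204044) (nat_lit 242381) (nat_lit 1252620) (nat_lit 0) (nat_lit 1)) <|
  List.cons (Rec.mk (nat_lit 0) (nat_lit 13) (nat_lit 81547) (nat_lit 242381) (nat_lit 80662) (nat_lit 633316) (nat_lit 80662) (nat_lit 81547) (nat_lit 1129238) (nat_lit 242381) (nat_lit 633316) (nat_lit 1290957) (nat_lit 1) (nat_lit 1)) <|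
  List.cons (Rec.mk (nat_lit 0) (nat_lit 14) (nat_lit 1130123) (nat_lit 242381) (nat_lit 851227) (nat_lit 656936) (nat_lit 851227) (nat_lit 1130123) (nat_lit 1899803) (nat_lit 242381) (nat_lit 656936) (nat_lit 1290957) (nat_lit 1) (nat_lit 0)) <|
  List.cons (Rec.mk (nat_lit 0) (nat_lit 15) (nat_lit 81547) (nat_lit 1290957) (nat_lit 416168) (nat_lit 793693) (nat_lit 81547) (nat_lit 416168) (nat_lit 1130123) (nat_lit 793693) (nat_lit 1290957) (nat_lit 1842269) (nat_lit 0) (nat_lit 1)) <|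
  List.cons (Rec.mk (nat_lit 0) (nat_lit 16) (nat_lit 1130123) (nat_lit 242381) (nat_lit 478612) (nat_lit 544091) (nat_lit 478612) (nat_lit 1130123) (nat_lit 1527188) (nat_lit 242381) (nat_lit 544091) (nat_lit 1290957) (nat_lit 1) (nat_lit 1)) <|
  List.cons (Rec.mk (nat_lit 0) (nat_lit 17) (nat_lit 1130123) (nat_lit 242381) (nat_lit 457741) (nat_lit 585975) (nat_lit 457741) (nat_lit 1130123) (nat_lit 1506317) (nat_lit 242381) (nat_lit 585975) (nat_lit 1290957) (nat_lit 1) (nat_lit 0)) <|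
  List.cons (Rec.mk (nat_lit 0) (nat_lit 18) (nat_lit 81547) (nat_lit 242381) (nat_lit 314895) (nat_lit 297987) (nat_lit 81547) (nat_lit 314895) (nat_lit 1130123) (nat_lit 242381) (nat_lit 297987) (nat_lit 1290957) (nat_lit 0) (nat_lit 1)) <|
  List.cons (Rec.mk (nat_lit 0) (nat_lit 19) (nat_lit 1130123) (nat_lit 242381) (nat_lit 821034) (nat_lit 699137) (nat_lit 821034) (nat_lit 1130123) (nat_lit 1869610) (nat_lit 242381) (nat_lit 699137) (nat_lit 1290957) (nat_lit 1) (nat_lit 0)) <|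
  List.cons (Rec.mk (nat_lit 0) (nat_lit 20) (nat_lit 1130123) (nat_lit 242381) (nat_lit 876318) (nat_lit 381236) (nat_lit 876318) (nat_lit 1130123) (nat_lit 1924894) (nat_lit 242381) (nat_lit 381236) (nat_lit 1290957) (nat_lit 1) (nat_lit 0)) <|
  List.cons (Rec.mk (nat_lit 0) (nat_lit 21) (nat_lit 1130123) (nat_lit 242381) (nat_lit 918775) (nat_lit 440156) (nat_lit 918775) (nat_lit 1130123) (nat_lit 1967351) (nat_lit 242381) (nat_lit 440156) (nat_lit 1290957) (nat_lit 1) (nat_lit 0)) <|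
  List.cons (Rec.mk (nat_lit 0) (nat_lit 22) (nat_lit 81547) (nat_lit 1290957) (nat_lit 236122) (nat_lit 923345) (nat_lit 81547) (nat_lit 236122) (nat_lit 1130123) (nat_lit 923345) (nat_lit 1290957) (nat_lit 1971921) (nat_lit 0) (nat_lit 0)) <|
  List.cons (Rec.mk (nat_lit 0) (nat_lit 23) (nat_lit 1130123) (nat_lit 242381) (nat_lit 983221) (nat_lit 330793) (nat_lit 983221) (nat_lit 1130123) (nat_lit 2031797) (nat_lit 242381) (nat_lit 330793) (nat_lit 1290957) (nat_lit 1) (nat_lit 1)) <|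
  List.cons (Rec.mk (nat_lit 0) (nat_lit 24) (nat_lit 1130123) (nat_lit 242381) (nat_lit 664612) (nat_lit 401726) (nat_lit 664612) (nat_lit 1130123) (nat_lit 1713188) (nat_lit 242381) (nat_lit 401726) (nat_lit 1290957) (nat_lit 1) (nat_lit 0)) <|
  List.cons (Rec.mk (nat_lit 0) (nat_lit 25) (nat_lit 1130123) (nat_lit 242381) (nat_lit 508882) (nat_lit 505448) (nat_lit 508882) (nat_lit 1130123) (nat_lit 1557458) (nat_lit 242381) (nat_lit 505448) (nat_lit 1290957) (nat_lit 1) (nat_lit 1)) <|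
  List.cons (Rec.mk (nat_lit 0) (nat_lit 26) (nat_lit 81547) (nat_lit 1290957) (nat_lit 46399) (nat_lit 924342) (nat_lit 46399) (nat_lit 81547) (nat_lit 1094975) (nat_lit 924342) (nat_lit 1290957) (nat_lit 1972918) (nat_lit 0) (nat_lit 0)) <|
  List.cons (Rec.mk (nat_lit 0) (nat_lit 27) (nat_lit 1130123) (nat_lit 1290957) (nat_lit 1020255) (nat_lit 940354) (nat_lit 1020255) (nat_lit 1130123) (nat_lit 2068831) (nat_lit 940354) (nat_lit 1290957) (nat_lit 1988930) (nat_lit 0) (nat_lit 1)) <|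
  List.cons (Rec.mk (nat_lit 0) (nat_lit 28) (nat_lit 81547) (nat_lit 1290957) (nat_lit 176086) (nat_lit 1028414) (nat_lit 81547) (nat_lit 176086) (nat_lit 1130123) (nat_lit 1028414) (nat_lit 1290957) (nat_lit 2076990) (nat_lit 0) (nat_lit 1)) <|
  List.cons (Rec.mk (nat_lit 0) (nat_lit 29) (nat_lit 81547) (nat_lit 1290957) (nat_lit 132099) (nat_lit 968835) (nat_lit 81547) (nat_lit 132099) (nat_lit 1130123) (nat_lit 968835) (nat_lit 1290957) (nat_lit 2017411) (nat_lit 0) (nat_lit 1)) <|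
  List.cons (Rec.mk (nat_lit 0) (nat_lit 30) (nat_lit 1130123) (nat_lit 242381) (nat_lit 841806) (nat_lit 28267) (nat_lit 841806) (nat_lit 1130123) (nat_lit 1890382) (nat_lit 28267) (nat_lit 242381) (nat_lit 1076843) (nat_lit 0) (nat_lit 0)) <|
  List.cons (Rec.mk (nat_lit 0) (nat_lit 31) (nat_lit 81547) (nat_lit 242381) (nat_lit 184871) (nat_lit 196633) (nat_lit 81547) (nat_lit 184871) (nat_lit 1130123) (nat_lit 196633) (nat_lit 242381) (nat_lit 1245209) (nat_lit 0) (nat_lit 0)) <|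
  List.cons (Rec.mk (nat_lit 0) (nat_lit 32) (nat_lit 1130123) (nat_lit 242381) (nat_lit 769851) (nat_lit 144942) (nat_lit 769851) (nat_lit 1130123) (nat_lit 1818427) (nat_lit 144942) (nat_lit 242381) (nat_lit 1193518) (nat_lit 1) (nat_lit 0)) <|
  List.cons (Rec.mk (nat_lit 0) (nat_lit 33) (nat_lit 81547) (nat_lit 1290957) (nat_lit 628264) (nat_lit 879843) (nat_lit 81547) (nat_lit 628264) (nat_lit 1130123) (nat_lit 879843) (nat_lit 1290957) (nat_lit 1928419) (nat_lit 0) (nat_lit 1)) <|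
  List.cons (Rec.mk (nat_lit 0) (nat_lit 34) (nat_lit 81547) (nat_lit 242381) (nat_lit 138066) (nat_lit 140566) (nat_lit 81547) (nat_lit 138066) (nat_lit 1130123) (nat_lit 140566) (nat_lit 242381) (nat_lit 1189142) (nat_lit 0) (nat_lit 0)) <|
  List.cons (Rec.mk (nat_lit 0) (nat_lit 35) (nat_lit 81547) (nat_lit 1290957) (nat_lit 401101) (nat_lit 813007) (nat_lit 81547) (nat_lit 401101) (nat_lit 1130123) (nat_lit 813007) (nat_lit 1290957) (nat_lit 1861583) (nat_lit 0) (nat_lit 1)) <|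
  List.cons (Rec.mk (nat_lit 0) (nat_lit 36) (nat_lit 81547) (nat_lit 242381) (nat_lit 384169) (nat_lit 176938) (nat_lit 81547) (nat_lit 384169) (nat_lit 1130123) (nat_lit 176938) (nat_lit 242381) (nat_lit 1225514) (nat_lit 0) (nat_lit 0)) <|
  List.cons (Rec.mk (nat_lit 0) (nat_lit 37) (nat_lit 1130123) (nat_lit 1290957) (nat_lit 981851) (nat_lit 976656) (nat_lit 981851) (nat_lit 1130123) (nat_lit 2030427) (nat_lit 976656) (nat_lit 1290957) (nat_lit 2025232) (nat_lit 0) (nat_lit 1)) <|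
  List.cons (Rec.mk (nat_lit 0) (nat_lit 38) (nat_lit 1130123) (nat_lit 242381) (nat_lit 712533) (nat_lit 337991) (nat_lit 712533) (nat_lit 1130123) (nat_lit 1761109) (nat_lit 242381) (nat_lit 337991) (nat_lit 1290957) (nat_lit 1) (nat_lit 0)) <|
  List.cons (Rec.mk (nat_lit 0) (nat_lit 39) (nat_lit 81547) (nat_lit 242381) (nat_lit 26484) (nat_lit 718563) (nat_lit 26484) (nat_lit 81547) (nat_lit 1075060) (nat_lit 242381) (nat_lit 718563) (nat_lit 1290957) (nat_lit 1) (nat_lit 0)) <|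
  List.cons (Rec.mk (nat_lit 0) (nat_lit 40) (nat_lit 1130123) (nat_lit 242381) (nat_lit 714818) (nat_lit 79592) (nat_lit 714818) (nat_lit 1130123) (nat_lit 1763394) (nat_lit 79592) (nat_lit 242381) (nat_lit 1128168) (nat_lit 1) (nat_lit 1)) <|
  E1

end Pool.Agent.MP_d7736f_co
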