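import Mathlib

namespace Pool.Agent.MP_d7736f_co

/-- The torus, as a product of two circles. -/
abbrev Torus : Type := AddCircle (1 : ℝ) × AddCircle (1 : ℝ)

/-- The edges of the complete graph on `v` vertices. -/
abbrev Edge (v : ℕ) : Type := {e : Fin v × Fin v // e.1 < e.2}

/-- A drawing of the complete graph on `v` vertices on the space `S`. -/
structure Drawing (S : Type) [TopologicalSpace S] (v : ℕ) where
  pt : Fin v → S
  pt_inj : Function.Injective pt
  arc : (e : Edge v) → Path (pt e.1.1) (pt e.1.2)
  arc_inj : ∀ e, Function.Injective (arc e)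
  arc_avoid : ∀ e w, pt w ∈ Set.range (arc e) → w = e.1.1 ∨ w = e.1.2

/-- The number of crossings: pairs made of a set of two edges and a point, not a vertex,
lying on both. -/
noncomputable def Drawing.crossings {S : Type} [TopologicalSpace S] {v : ℕ} (D : Drawing S v) :
    ℕ∞ :=
  {c : Finset (Edge v) × S | c.1.card = 2 ∧ (∀ e ∈ c.1, c.2 ∈ Set.range (D.arc e)) ∧
    c.2 ∉ Set.range D.pt}.encard

/-- The crossing number of the complete graph on `v` vertices on the space `S`. -/
noncomputable def crossingNumber (S : Type) [TopologicalSpace S] (v : ℕ) : ℕ∞ :=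
  ⨅ D : Drawing S v, D.crossings

end Pool.Agent.MP_d7736f_co
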