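import Pool.Agent.MP_d7736f_co.Tor

namespace Pool.Agent.MP_d7736f_co

open Finset

def r0 : Rec := ⟨0, 0, 0, 0, 0, 0, 0, 0, 0, 0, 0, 0, 0, 0⟩

/-- The certificate. -/
structure Cert (dir : ℕ → ℤ × ℤ) (px py : ℕ → ℕ) (M m : ℕ) (E : List Rec) (pos : ℕ → ℕ → ℕ) :
    Prop where
  valid : ∀ r ∈ E, Valid dir px py M m r
  keys : ∀ i j, i ≤ j → j < m →
    pos i j < E.length ∧ (E.getD (pos i j) r0).i = i ∧ (E.getD (pos i j) r0).j = j
  avoid : avAll M (2 * M) px py E m = 0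
  total : tot dir M E < big

variable {dir : ℕ → ℤ × ℤ} {px py : ℕ → ℕ} {M m k v : ℕ} {ε : ℝ} {E : List Rec}
  {pos : ℕ → ℕ → ℕ}

theorem getD_mem {n : ℕ} (h : n < E.length) : E.getD n r0 ∈ E := by
  rw [List.getD_eq_getElem _ _ h]; exact List.getElem_mem h

theorem Cert.base (C : Cert dir px py M m E pos) {l : ℕ} (hl : l < m) :
    px l < M ∧ py l < M ∧ dir l ≠ 0 := by
  obtain ⟨h1, h2, h3⟩ := C.keys l l le_rfl hl
  obtain ⟨⟨-, -, -, -, x5, -⟩, -, -, ⟨a1, a2, -⟩, -, -, -, hd⟩ := C.valid _ (getD_mem h1)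
  rw [h2] at a1 a2 hd
  exact ⟨a1 ▸ Nat.mod_lt _ (by omega), a2 ▸ Nat.mod_lt _ (by omega), hd⟩

theorem proj_mod (hM : 0 < M) (x y i a : ℕ) :
    proj M (Q dir ε ⟨x, y, i, a⟩) = proj M (Q dir ε ⟨x % M, y % M, i, a⟩) := by
  rw [proj_eq_iff hM]
  refine ⟨⟨(x / M : ℕ), ?_⟩, ⟨(y / M : ℕ), ?_⟩⟩
  · have : (x : ℝ) = (x % M : ℕ) + M * (x / M : ℕ) := by exact_mod_cast (Nat.mod_add_div x M).symm
    simp only [Q, Int.cast_natCast]; linarith
  · have : (y : ℝ) = (y % M : ℕ) + M * (y / M : ℕ) := by exact_mod_cast (Nat.mod_add_div y M).symm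
    simp only [Q, Int.cast_natCast]; linarith

/-- The position of a vertex. -/
noncomputable def vert (dir : ℕ → ℤ × ℤ) (px py : ℕ → ℕ) (M k : ℕ) (ε : ℝ) (u : ℕ) : Torus :=
  proj M (Q dir ε ⟨px (u / k), py (u / k), u / k, u % k⟩)

/-- The point of parameter `t` on the lifted edge `n` with end indices `a`, `b`. -/
noncomputable def lift (dir : ℕ → ℤ × ℤ) (ε : ℝ) (E : List Rec) (n a b : ℕ) (t : ℝ) : ℝ × ℝ :=
  seg (Q dir ε ⟨(E.getD n r0).ax, (E.getD n r0).ay, (E.getD n r0).i, a⟩)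
    (Q dir ε ⟨(E.getD n r0).bx, (E.getD n r0).bY, (E.getD n r0).j, b⟩) t

theorem div_lt {u : ℕ} (hv : v ≤ m * k) (hu : u < v) : u / k < m :=
  Nat.div_lt_of_lt_mul (by rw [mul_comm]; omega)

theorem k_pos {u : ℕ} (hv : v ≤ m * k) (hu : u < v) : 0 < k := by
  rcases Nat.eq_zero_or_pos k with rfl | h
  · omega
  · exact h

theorem Cert.lift_zero (C : Cert dir px py M m E pos) (hv : v ≤ m * k) {u w : ℕ} (h : u ≤ w)
    (hw : w < v) : proj M (lift dir ε E (pos (u / k) (w / k)) (u % k) (w % k) 0) =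
      vert dir px py M k ε u := by
  obtain ⟨h1, h2, h3⟩ := C.keys _ _ (Nat.div_le_div_right h) (div_lt hv hw)
  obtain ⟨⟨-, -, -, -, x5, -⟩, -, -, ⟨a1, a2, -⟩, -⟩ := C.valid _ (getD_mem h1)
  have e : ∀ p q : ℝ × ℝ, seg p q 0 = p := fun p q => by simp [seg]
  rw [lift, e, proj_mod (by omega), a1, a2, h2, vert]

theorem Cert.lift_one (C : Cert dir px py M m E pos) (hv : v ≤ m * k) {u w : ℕ} (h : u ≤ w)
    (hw : w < v) : proj M (lift dir ε E (pos (u / k) (w / k)) (u % k) (w % k) 1) =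
      vert dir px py M k ε w := by
  obtain ⟨h1, h2, h3⟩ := C.keys _ _ (Nat.div_le_div_right h) (div_lt hv hw)
  obtain ⟨⟨-, -, -, -, x5, -⟩, -, -, ⟨-, -, a1, a2⟩, -⟩ := C.valid _ (getD_mem h1)
  have e : ∀ p q : ℝ × ℝ, seg p q 1 = q := fun p q => by simp [seg]
  rw [lift, e, proj_mod (by omega), a1, a2, h3, vert]

theorem eq_of_div_mod {u w : ℕ} (h1 : u / k = w / k) (h2 : u % k = w % k) : u = w := by
  rw [← Nat.div_add_mod u k, ← Nat.div_add_mod w k, h1, h2]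

theorem Cert.on_edge (C : Cert dir px py M m E pos) (H : Nice dir (4 * M) m k ε) (hv : v ≤ m * k)
    {u w y : ℕ} (h : u ≤ w) (hw : w < v) (hy : y < v) {t : ℝ} (h0 : 0 ≤ t) (h1 : t ≤ 1)
    (e : proj M (lift dir ε E (pos (u / k) (w / k)) (u % k) (w % k) t) = vert dir px py M k ε y) :
    y = u ∨ y = w := by
  obtain ⟨c1, c2, c3⟩ := C.keys _ _ (Nat.div_le_div_right h) (div_lt hv hw)
  have hk := k_pos hv hw
  obtain ⟨b1, b2, -⟩ := C.base (div_lt hv hy)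
  rcases MP_d7736f_co.avoid H C.avoid (getD_mem c1) (C.valid _ (getD_mem c1))
    (by rw [c3]; exact (C.base (div_lt hv hw)).2.2) (Nat.mod_lt _ hk) (Nat.mod_lt _ hk)
    (Nat.mod_lt _ hk) (div_lt hv hy) b1 b2 h0 h1 e with h | h
  · exact Or.inl (eq_of_div_mod (h.1.trans c2) h.2)
  · exact Or.inr (eq_of_div_mod (h.1.trans c3) h.2)

theorem Cert.vert_inj (C : Cert dir px py M m E pos) (H : Nice dir (4 * M) m k ε) (hv : v ≤ m * k)
    {u y : ℕ} (hu : u < v) (hy : y < v) (e : vert dir px py M k ε u = vert dir px py M k ε y) :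
    u = y := by
  rw [← C.lift_zero hv le_rfl hu] at e
  rcases C.on_edge H hv le_rfl hu hy le_rfl zero_le_one e with h | h <;> exact h.symm

/-- The drawing. -/
noncomputable def Cert.drawing (C : Cert dir px py M m E pos) (H : Nice dir (4 * M) m k ε)
    (hv : v ≤ m * k) : Drawing Torus v where
  pt u := vert dir px py M k ε u
  pt_inj u y e := Fin.ext (C.vert_inj H hv u.2 y.2 e)
  arc e :=
    { toFun := fun t => proj M (lift dir ε E (pos (e.1.1 / k) (e.1.2 / k)) (e.1.1 % k) (e.1.2 % k) t)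
      continuous_toFun := (continuous_proj M).comp (by unfold lift seg; fun_prop)
      source' := C.lift_zero hv e.2.le e.1.2.2
      target' := C.lift_one hv e.2.le e.1.2.2 }
  arc_inj e t u h := by
    obtain ⟨c1, c2, c3⟩ := C.keys _ _ (Nat.div_le_div_right e.2.le) (div_lt hv e.1.2.2)
    have hk := k_pos hv e.1.2.2
    refine Subtype.ext (seg_inj H (C.valid _ (getD_mem c1)) (Nat.mod_lt _ hk) (Nat.mod_lt _ hk)
      t.2.1 t.2.2 u.2.1 u.2.2 (fun hq => ?_) h)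
    have e1 := C.lift_zero (ε := ε) hv e.2.le e.1.2.2
    have e2 := C.lift_one (ε := ε) hv e.2.le e.1.2.2
    rw [lift, hq, seg_self] at e1 e2
    exact e.2.ne (Fin.ext (C.vert_inj H hv e.1.1.2 e.1.2.2 (e1.symm.trans e2)))
  arc_avoid e w := by
    rintro ⟨t, ht⟩
    rcases C.on_edge H hv e.2.le e.1.2.2 w.2 t.2.1 t.2.2 ht with h | h
    · exact Or.inl (Fin.ext h)
    · exact Or.inr (Fin.ext h)

/-- The index quadruples counted for two base edges and a translation. -/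
noncomputable def cell (dir : ℕ → ℤ × ℤ) (M k : ℕ) (ε : ℝ) (self : Bool) (e f : Rec)
    (zx zy : ℕ) : Finset N4 :=
  CS dir ε k self e.i e.j (e.ax + M) (e.ay + M) (e.bx + M) (e.bY + M) f.i f.j (f.ax + zx * M)
    (f.ay + zy * M) (f.bx + zx * M) (f.bY + zy * M)

noncomputable def Om (dir : ℕ → ℤ × ℤ) (M k : ℕ) (ε : ℝ) (E : List Rec) :
    Finset (Σ _ : ℕ, Σ _ : ℕ, Σ _ : ℕ, Σ _ : ℕ, N4) :=
  (range E.length).sigma fun n => ((range E.length).filter (n ≤ ·)).sigma fun n' =>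
    ((range 3).filter (Pass (E.getD n r0).xl (E.getD n r0).xh (E.getD n r0).xm (E.getD n' r0).xl
      (E.getD n' r0).xh (E.getD n' r0).xm)).sigma fun zx =>
    ((range 3).filter (Pass (E.getD n r0).yl (E.getD n r0).yh (E.getD n r0).ym (E.getD n' r0).yl
      (E.getD n' r0).yh (E.getD n' r0).ym)).sigma fun zy =>
    cell dir M k ε (decide (n = n')) (E.getD n r0) (E.getD n' r0) zx zy

theorem tot_sum (dir : ℕ → ℤ × ℤ) (M : ℕ) (E : List Rec) : tot dir M E =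
    ∑ n ∈ range E.length, ∑ n' ∈ (range E.length).filter (n ≤ ·),
    ∑ zx ∈ (range 3).filter (Pass (E.getD n r0).xl (E.getD n r0).xh (E.getD n r0).xm
      (E.getD n' r0).xl (E.getD n' r0).xh (E.getD n' r0).xm),
    ∑ zy ∈ (range 3).filter (Pass (E.getD n r0).yl (E.getD n r0).yh (E.getD n r0).ym
      (E.getD n' r0).yl (E.getD n' r0).yh (E.getD n' r0).ym),
    WR dir M (decide (n = n')) (E.getD n r0) (E.getD n' r0) zx zy := by
  simp only [sum_filter, tot_eq dir M r0, pairW]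

theorem Cert.good (C : Cert dir px py M m E pos) (H : Nice dir (4 * M) m k ε) {n n' zx zy : ℕ}
    (h1 : n ∈ range E.length) (h2 : n' ∈ (range E.length).filter (n ≤ ·))
    (h3 : zx ∈ (range 3).filter (Pass (E.getD n r0).xl (E.getD n r0).xh (E.getD n r0).xm
      (E.getD n' r0).xl (E.getD n' r0).xh (E.getD n' r0).xm))
    (h4 : zy ∈ (range 3).filter (Pass (E.getD n r0).yl (E.getD n r0).yh (E.getD n r0).ym
      (E.getD n' r0).yl (E.getD n' r0).yh (E.getD n' r0).ym)) :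
    Good dir ε k (decide (n = n')) (E.getD n r0).i (E.getD n r0).j ((E.getD n r0).ax + M)
      ((E.getD n r0).ay + M) ((E.getD n r0).bx + M) ((E.getD n r0).bY + M) (E.getD n' r0).i
      (E.getD n' r0).j ((E.getD n' r0).ax + zx * M) ((E.getD n' r0).ay + zy * M)
      ((E.getD n' r0).bx + zx * M) ((E.getD n' r0).bY + zy * M)
      (WR dir M (decide (n = n')) (E.getD n r0) (E.getD n' r0) zx zy) := by
  refine good_WR H (C.valid _ (getD_mem (mem_range.1 h1)))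
    (C.valid _ (getD_mem (mem_range.1 (mem_filter.1 h2).1))) (mem_range.1 (mem_filter.1 h3).1)
    (mem_range.1 (mem_filter.1 h4).1) (lt_of_le_of_lt ?_ C.total)
  rw [tot_sum]
  refine le_trans ?_ (single_le_sum (fun _ _ => Nat.zero_le _) h1)
  refine le_trans ?_ (single_le_sum (fun _ _ => Nat.zero_le _) h2)
  refine le_trans ?_ (single_le_sum (fun _ _ => Nat.zero_le _) h3)
  exact single_le_sum (f := fun zy => WR dir M (decide (n = n')) (E.getD n r0) (E.getD n' r0) zx zy)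
    (fun _ _ => Nat.zero_le _) h4

theorem Cert.card_Om (C : Cert dir px py M m E pos) (H : Nice dir (4 * M) m k ε) :
    24 * (Om dir M k ε E).card ≤ tot dir M E * k ^ 4 := by
  simp only [Om, card_sigma, tot_sum, mul_sum, sum_mul]
  exact sum_le_sum fun n h1 => sum_le_sum fun n' h2 => sum_le_sum fun zx h3 =>
    sum_le_sum fun zy h4 => (C.good H h1 h2 h3 h4).1

/-- The crossing described by an element of `Om`. -/
def Rel (dir : ℕ → ℤ × ℤ) (M k v : ℕ) (ε : ℝ) (E : List Rec) (c : Finset (Edge v) × Torus)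
    (w : Σ _ : ℕ, Σ _ : ℕ, Σ _ : ℕ, Σ _ : ℕ, N4) : Prop :=
  ∃ e f : Edge v, c.1 = {e, f} ∧
    (e.1.1 / k = (E.getD w.1 r0).i ∧ e.1.2 / k = (E.getD w.1 r0).j ∧
      f.1.1 / k = (E.getD w.2.1 r0).i ∧ f.1.2 / k = (E.getD w.2.1 r0).j) ∧
    (e.1.1 % k = w.2.2.2.2.1 ∧ e.1.2 % k = w.2.2.2.2.2.1 ∧ f.1.1 % k = w.2.2.2.2.2.2.1 ∧
      f.1.2 % k = w.2.2.2.2.2.2.2) ∧
    ∃ t u : ℝ, seg (Q dir ε ⟨(E.getD w.1 r0).ax + M, (E.getD w.1 r0).ay + M, (E.getD w.1 r0).i,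
        w.2.2.2.2.1⟩) (Q dir ε ⟨(E.getD w.1 r0).bx + M, (E.getD w.1 r0).bY + M, (E.getD w.1 r0).j,
        w.2.2.2.2.2.1⟩) t =
      seg (Q dir ε ⟨(E.getD w.2.1 r0).ax + w.2.2.1 * M, (E.getD w.2.1 r0).ay + w.2.2.2.1 * M,
        (E.getD w.2.1 r0).i, w.2.2.2.2.2.2.1⟩) (Q dir ε ⟨(E.getD w.2.1 r0).bx + w.2.2.1 * M,
        (E.getD w.2.1 r0).bY + w.2.2.2.1 * M, (E.getD w.2.1 r0).j, w.2.2.2.2.2.2.2⟩) u ∧
      c.2 = proj M (lift dir ε E w.1 w.2.2.2.2.1 w.2.2.2.2.2.1 t)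

theorem Cert.rel_unique (C : Cert dir px py M m E pos) (H : Nice dir (4 * M) m k ε)
    {c c' : Finset (Edge v) × Torus} {w : Σ _ : ℕ, Σ _ : ℕ, Σ _ : ℕ, Σ _ : ℕ, N4}
    (hw : w ∈ Om dir M k ε E) (h : Rel dir M k v ε E c w) (h' : Rel dir M k v ε E c' w) :
    c = c' := by
  obtain ⟨e, f, a1, a2, a3, t, u, a4, a5⟩ := h
  obtain ⟨e', f', b1, b2, b3, t', u', b4, b5⟩ := h'
  have ee : e = e' := Subtype.ext (Prod.ext
    (Fin.ext (eq_of_div_mod (a2.1.trans b2.1.symm) (a3.1.trans b3.1.symm)))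
    (Fin.ext (eq_of_div_mod (a2.2.1.trans b2.2.1.symm) (a3.2.1.trans b3.2.1.symm))))
  have ff : f = f' := Subtype.ext (Prod.ext
    (Fin.ext (eq_of_div_mod (a2.2.2.1.trans b2.2.2.1.symm) (a3.2.2.1.trans b3.2.2.1.symm)))
    (Fin.ext (eq_of_div_mod (a2.2.2.2.trans b2.2.2.2.symm) (a3.2.2.2.trans b3.2.2.2.symm))))
  simp only [Om, mem_sigma] at hw
  obtain ⟨h1, h2, h3, h4, h5⟩ := hw
  have hu := seg_unique ((mem_CS.1 h5).2.2.neg ((C.good H h1 h2 h3 h4).2 _ h5)) a4 b4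
  rw [seg_shift, seg_shift] at hu
  refine Prod.ext (by rw [a1, b1, ee, ff]) ?_
  rw [a5, b5]
  congr 1
  exact Prod.ext (add_right_cancel (congrArg Prod.fst hu)) (add_right_cancel (congrArg Prod.snd hu))

theorem Cert.rel_exists (C : Cert dir px py M m E pos) (H : Nice dir (4 * M) m k ε)
    (hv : v ≤ m * k) {e f : Edge v} {x : Torus}
    (hlt : pos (e.1.1 / k) (e.1.2 / k) < pos (f.1.1 / k) (f.1.2 / k) ∨
      (pos (e.1.1 / k) (e.1.2 / k) = pos (f.1.1 / k) (f.1.2 / k) ∧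
        (e.1.1.1 % k < f.1.1.1 % k ∨ (e.1.1.1 % k = f.1.1.1 % k ∧ e.1.2.1 % k < f.1.2.1 % k))))
    (he : x ∈ Set.range ((C.drawing H hv).arc e)) (hf : x ∈ Set.range ((C.drawing H hv).arc f))
    (hx : x ∉ Set.range (C.drawing H hv).pt) :
    ∃ w ∈ Om dir M k ε E, Rel dir M k v ε E ({e, f}, x) w := by
  have op : ∀ (g : Edge v) (t : unitInterval), (C.drawing H hv).arc g t = x →
      0 < (t : ℝ) ∧ (t : ℝ) < 1 := by
    intro g t ht
    refine ⟨lt_of_le_of_ne t.2.1 fun h => hx ⟨g.1.1, ?_⟩, lt_of_le_of_ne t.2.2 fun h => hx ⟨g.1.2, ?_⟩⟩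
    · rw [← ht, show t = 0 from Subtype.ext h.symm, Path.source]
    · rw [← ht, show t = 1 from Subtype.ext h, Path.target]
  have ord : ∀ g : Edge v, g.1.1.1 / k = g.1.2.1 / k → g.1.1.1 % k < g.1.2.1 % k := by
    intro g hg
    have h1 := Nat.div_add_mod g.1.1.1 k
    have h2 := Nat.div_add_mod g.1.2.1 k
    have h3 : g.1.1.1 < g.1.2.1 := g.2
    rw [hg] at h1
    omega
  obtain ⟨t, ht⟩ := he
  obtain ⟨u, hu⟩ := hf
  obtain ⟨c1, c2, c3⟩ := C.keys _ _ (Nat.div_le_div_right e.2.le) (div_lt hv e.1.2.2)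
  obtain ⟨d1, d2, d3⟩ := C.keys _ _ (Nat.div_le_div_right f.2.le) (div_lt hv f.1.2.2)
  have hk := k_pos hv e.1.2.2
  obtain ⟨zx, hzx, zy, hzy, p1, p2, hs⟩ := meet_window H (C.valid _ (getD_mem c1))
    (C.valid _ (getD_mem d1)) (Nat.mod_lt _ hk) (Nat.mod_lt _ hk) (Nat.mod_lt _ hk)
    (Nat.mod_lt _ hk) t.2.1 t.2.2 u.2.1 u.2.2 (ht.trans hu.symm)
  refine ⟨⟨pos (e.1.1 / k) (e.1.2 / k), pos (f.1.1 / k) (f.1.2 / k), zx, zy,
    (e.1.1 % k, e.1.2 % k, f.1.1 % k, f.1.2 % k)⟩, ?_,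
    e, f, rfl, ⟨c2.symm, c3.symm, d2.symm, d3.symm⟩, ⟨rfl, rfl, rfl, rfl⟩, t, u, hs, ht.symm⟩
  simp only [Om, mem_sigma, mem_filter, mem_range]
  refine ⟨c1, ⟨d1, by omega⟩, ⟨hzx, p1⟩, ⟨hzy, p2⟩, mem_CS.2 ⟨⟨Nat.mod_lt _ hk, Nat.mod_lt _ hk,
    Nat.mod_lt _ hk, Nat.mod_lt _ hk⟩, ⟨fun h => ord e ?_, fun h => ord f ?_, fun h => ?_⟩,
    t, u, (op e t ht).1, (op e t ht).2, (op f u hu).1, (op f u hu).2, hs⟩⟩
  · exact c2.symm.trans (h.trans c3)
  · exact d2.symm.trans (h.trans d3)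
  · have := of_decide_eq_true h
    simp only
    omega

theorem Cert.crossings_le (C : Cert dir px py M m E pos) (H : Nice dir (4 * M) m k ε)
    (hv : v ≤ m * k) : (C.drawing H hv).crossings ≤ (Om dir M k ε E).card := by
  classical
  have ex : ∀ c ∈ {c : Finset (Edge v) × Torus | c.1.card = 2 ∧
      (∀ e ∈ c.1, c.2 ∈ Set.range ((C.drawing H hv).arc e)) ∧
      c.2 ∉ Set.range (C.drawing H hv).pt}, ∃ w ∈ Om dir M k ε E, Rel dir M k v ε E c w := by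
    rintro ⟨s, x⟩ ⟨h1, h2, h3⟩
    obtain ⟨e, f, hef, rfl⟩ := card_eq_two.1 h1
    have he := h2 e (by simp)
    have hf := h2 f (by simp)
    by_cases hlt : pos (e.1.1 / k) (e.1.2 / k) < pos (f.1.1 / k) (f.1.2 / k) ∨
      (pos (e.1.1 / k) (e.1.2 / k) = pos (f.1.1 / k) (f.1.2 / k) ∧
        (e.1.1.1 % k < f.1.1.1 % k ∨ (e.1.1.1 % k = f.1.1.1 % k ∧ e.1.2.1 % k < f.1.2.1 % k)))
    · exact C.rel_exists H hv hlt he hf h3
    · rw [pair_comm]
      refine C.rel_exists H hv ?_ hf he h3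
      by_contra hgt
      obtain ⟨c1, c2, c3⟩ := C.keys _ _ (Nat.div_le_div_right e.2.le) (div_lt hv e.1.2.2)
      obtain ⟨d1, d2, d3⟩ := C.keys _ _ (Nat.div_le_div_right f.2.le) (div_lt hv f.1.2.2)
      have hp : pos (e.1.1 / k) (e.1.2 / k) = pos (f.1.1 / k) (f.1.2 / k) := by omega
      have q1 : e.1.1.1 / k = f.1.1.1 / k := c2.symm.trans (hp ▸ d2)
      have q2 : e.1.2.1 / k = f.1.2.1 / k := c3.symm.trans (hp ▸ d3)
      exact hef (Subtype.ext (Prod.ext (Fin.ext (eq_of_div_mod q1 (by omega)))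
        (Fin.ext (eq_of_div_mod q2 (by omega)))))
  choose! g hg using ex
  rw [← Set.encard_coe_eq_coe_finsetCard]
  exact Set.encard_le_encard_of_injOn (f := g) (fun c hc => (hg c hc).1) fun c hc c' hc' e =>
    C.rel_unique H (hg c hc).1 (hg c hc).2 (e ▸ (hg c' hc').2)

theorem Cert.bound (C : Cert dir px py M m E pos) (hv : v ≤ m * k) :
    ∃ n : ℕ, crossingNumber Torus v = n ∧ 24 * n ≤ tot dir M E * k ^ 4 := by
  obtain ⟨ε, H⟩ := exists_nice dir (4 * M) m k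
  have h1 : crossingNumber Torus v ≤ (Om dir M k ε E).card :=
    (iInf_le _ (C.drawing H hv)).trans (C.crossings_le H hv)
  obtain ⟨n, hn, hle⟩ := ENat.le_natCast_iff.1 h1
  exact ⟨n, hn, (Nat.mul_le_mul_left _ hle).trans (C.card_Om H)⟩

end Pool.Agent.MP_d7736f_co
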