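import Pool.Agent.MP_d7736f_co.Wt

namespace Pool.Agent.MP_d7736f_co

open Filter Topology

def det (p q : ℝ × ℝ) : ℝ := p.1 * q.2 - p.2 * q.1

/-- The open segments `AB` and `CD` meet. -/
def Z (A B C D : ℝ × ℝ) : Prop :=
  ∃ s t : ℝ, 0 < s ∧ s < 1 ∧ 0 < t ∧ t < 1 ∧ A + s • (B - A) = C + t • (D - C)

theorem Z.symm {A B C D : ℝ × ℝ} (h : Z A B C D) : Z C D A B := by
  obtain ⟨s, t, h1, h2, h3, h4, h5⟩ := h
  exact ⟨t, s, h3, h4, h1, h2, h5.symm⟩

theorem Z.swap {A B C D : ℝ × ℝ} (h : Z A B C D) : Z B A C D := by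
  obtain ⟨s, t, h1, h2, h3, h4, h5⟩ := h
  refine ⟨1 - s, t, by linarith, by linarith, h3, h4, ?_⟩
  rw [← h5]; module

theorem Z.L1 {A B C D : ℝ × ℝ} (h : Z A B C D) :
    det (B - A) (C - A) * det (B - A) (D - A) < 0 ∨
      (det (B - A) (C - A) = 0 ∧ det (B - A) (D - A) = 0) := by
  obtain ⟨s, t, -, -, h3, h4, h5⟩ := h
  have e1 := congrArg Prod.fst h5
  have e2 := congrArg Prod.snd h5
  simp only [Prod.fst_add, Prod.smul_fst, Prod.fst_sub, smul_eq_mul, Prod.snd_add, Prod.smul_snd,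
    Prod.snd_sub] at e1 e2
  have key : (1 - t) * det (B - A) (C - A) + t * det (B - A) (D - A) = 0 := by
    simp only [det, Prod.fst_sub, Prod.snd_sub]
    linear_combination (B.2 - A.2) * e1 - (B.1 - A.1) * e2
  generalize det (B - A) (C - A) = α at *
  generalize det (B - A) (D - A) = β at *
  by_cases hα : α = 0
  · right
    refine ⟨hα, ?_⟩
    rw [hα, mul_zero, zero_add] at key
    exact (mul_eq_zero.1 key).resolve_left h3.ne'
  · left
    have h6 : 0 < α ^ 2 := by positivity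
    have h7 : t * (α * β) = -((1 - t) * α ^ 2) := by linear_combination α * key
    by_contra h8
    have := mul_nonneg h3.le (not_lt.1 h8)
    nlinarith

theorem det_sub_eq (A B C D : ℝ × ℝ) :
    det (B - A) (D - C) = det (B - A) (D - A) - det (B - A) (C - A) := by
  simp only [det, Prod.fst_sub, Prod.snd_sub]; ring

theorem det_ne_of_lt {A B C D : ℝ × ℝ} (h : det (B - A) (C - A) * det (B - A) (D - A) < 0) :
    det (B - A) (D - C) ≠ 0 := by
  rw [det_sub_eq, sub_ne_zero]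
  intro h1
  rw [h1] at h
  nlinarith [sq_nonneg (det (B - A) (C - A))]

theorem det_comm (p q : ℝ × ℝ) : det p q = -det q p := by simp only [det]; ring

theorem det_smul_right (c : ℝ) (p q : ℝ × ℝ) : det p (c • q) = c * det p q := by
  simp only [det, Prod.smul_fst, Prod.smul_snd, smul_eq_mul]; ring

theorem det_smul_left (c : ℝ) (p q : ℝ × ℝ) : det (c • p) q = c * det p q := by
  simp only [det, Prod.smul_fst, Prod.smul_snd, smul_eq_mul]; ring

theorem seg_lt {a b c d s t : ℝ} (h1 : a < c) (h2 : a < d) (h3 : b < c) (h4 : b < d)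
    (s0 : 0 < s) (s1 : s < 1) (t0 : 0 < t) (t1 : t < 1) : a + s * (b - a) < c + t * (d - c) := by
  have : c + t * (d - c) - (a + s * (b - a)) = (1 - s) * (1 - t) * (c - a) + (1 - s) * t * (d - a) +
      s * (1 - t) * (c - b) + s * t * (d - b) := by ring
  have a1 := sub_pos.2 h1
  have a2 := sub_pos.2 h2
  have a3 := sub_pos.2 h3
  have a4 := sub_pos.2 h4
  have a5 := sub_pos.2 s1
  have a6 := sub_pos.2 t1
  rw [← sub_pos, this]
  positivity

variable (e : ℕ → ℤ × ℤ)

/-- Position of the `i`-th point of the cluster at `A`. -/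
noncomputable def pos (ε : ℝ) (A : Pt) (i : ℕ) : ℝ × ℝ :=
  (A.x + ε * i * (e A.a).1 - ε ^ 2 * i ^ 2 * (e A.a).2,
    A.y + ε * i * (e A.a).2 + ε ^ 2 * i ^ 2 * (e A.a).1)

noncomputable def hh (ε : ℝ) (A : Pt) (i k : ℕ) : ℝ × ℝ :=
  ((e A.a).1 - ε * (i + k) * (e A.a).2, (e A.a).2 + ε * (i + k) * (e A.a).1)

theorem pos_sub (ε : ℝ) (A : Pt) (i k : ℕ) :
    pos e ε A k - pos e ε A i = (ε * (k - i)) • hh e ε A i k := by
  ext <;> simp [pos, hh] <;> ring

theorem ev_pos {g : ℝ → ℝ} (hg : Continuous g) (h : 0 < g 0) : ∀ᶠ ε in 𝓝[>] (0 : ℝ), 0 < g ε :=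
  ((hg.tendsto 0).eventually (lt_mem_nhds h)).filter_mono nhdsWithin_le_nhds

theorem ev_lt {f g : ℝ → ℝ} (hf : Continuous f) (hg : Continuous g) (h : f 0 < g 0) :
    ∀ᶠ ε in 𝓝[>] (0 : ℝ), f ε < g ε :=
  (ev_pos (hg.sub hf) (sub_pos.2 h)).mono fun _ h => sub_pos.1 h

theorem ev_ne {g : ℝ → ℝ} (hg : Continuous g) (h : g 0 ≠ 0) : ∀ᶠ ε in 𝓝[>] (0 : ℝ), g ε ≠ 0 :=
  ((hg.tendsto 0).eventually_ne h).filter_mono nhdsWithin_le_nhds

def same (A B C D : Pt) (i j k l : ℕ) : Prop :=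
  (A = C ∧ i = k ∧ B = D ∧ j = l) ∨ (A = D ∧ i = l ∧ B = C ∧ j = k)

def BoundP (A B C D : Pt) (P : ℕ → ℕ → ℕ → ℕ → Prop) : Prop :=
  ∀ i j k l : ℕ, ∀ᶠ ε in 𝓝[>] (0 : ℝ), ¬ same A B C D i j k l →
    Z (pos e ε A i) (pos e ε B j) (pos e ε C k) (pos e ε D l) →
      det (pos e ε B j - pos e ε A i) (pos e ε D l - pos e ε C k) ≠ 0 ∧ P i j k l

variable {e}

theorem BoundP.symm {A B C D : Pt} {P : ℕ → ℕ → ℕ → ℕ → Prop} (h : BoundP e A B C D P) :
    BoundP e C D A B fun i j k l => P k l i j := by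
  intro i j k l
  filter_upwards [h k l i j] with ε h h1 h2
  obtain ⟨h3, h4⟩ := h (fun h5 => h1 (by unfold same at *; tauto)) h2.symm
  exact ⟨by rw [det_comm]; exact neg_ne_zero.2 h3, h4⟩

theorem BoundP.swap {A B C D : Pt} {P : ℕ → ℕ → ℕ → ℕ → Prop} (h : BoundP e A B C D P) :
    BoundP e B A C D fun i j k l => P j i k l := by
  intro i j k l
  filter_upwards [h j i k l] with ε h h1 h2
  obtain ⟨h3, h4⟩ := h (fun h5 => h1 (by unfold same at *; tauto)) h2.swap
  refine ⟨fun h6 => h3 ?_, h4⟩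
  simp only [det, Prod.fst_sub, Prod.snd_sub] at h6 ⊢
  linear_combination -h6

theorem bp_below_y {A B C D : Pt} (h : below A.y B.y C.y D.y = true) :
    BoundP e A B C D fun _ _ _ _ => False := by
  simp only [below, Bool.and_eq_true, Nat.blt_eq] at h
  obtain ⟨⟨⟨h1, h2⟩, h3⟩, h4⟩ := h
  have key : ∀ (P Q : Pt) (i j : ℕ), P.y < Q.y →
      ∀ᶠ ε in 𝓝[>] (0 : ℝ), (pos e ε P i).2 < (pos e ε Q j).2 := fun P Q i j h =>
    ev_lt (by unfold pos; fun_prop) (by unfold pos; fun_prop) (by simpa [pos] using h)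
  intro i j k l
  filter_upwards [key A C i k h1, key A D i l h2, key B C j k h3, key B D j l h4] with ε a1 a2 a3 a4 _ hZ
  obtain ⟨s, t, s0, s1, t0, t1, h5⟩ := hZ
  exact absurd (congrArg Prod.snd h5) (seg_lt a1 a2 a3 a4 s0 s1 t0 t1).ne

theorem bp_below_x {A B C D : Pt} (h : below A.x B.x C.x D.x = true) :
    BoundP e A B C D fun _ _ _ _ => False := by
  simp only [below, Bool.and_eq_true, Nat.blt_eq] at h
  obtain ⟨⟨⟨h1, h2⟩, h3⟩, h4⟩ := h
  have key : ∀ (P Q : Pt) (i j : ℕ), P.x < Q.x →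
      ∀ᶠ ε in 𝓝[>] (0 : ℝ), (pos e ε P i).1 < (pos e ε Q j).1 := fun P Q i j h =>
    ev_lt (by unfold pos; fun_prop) (by unfold pos; fun_prop) (by simpa [pos] using h)
  intro i j k l
  filter_upwards [key A C i k h1, key A D i l h2, key B C j k h3, key B D j l h4] with ε a1 a2 a3 a4 _ hZ
  obtain ⟨s, t, s0, s1, t0, t1, h5⟩ := hZ
  exact absurd (congrArg Prod.fst h5) (seg_lt a1 a2 a3 a4 s0 s1 t0 t1).ne

theorem det_base (A B C : Pt) (i j k : ℕ) :
    det (pos e 0 B j - pos e 0 A i) (pos e 0 C k - pos e 0 A i) = dpos A B C - dneg A B C := by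
  simp [det, pos, dpos, dneg]; ring

theorem bp_sameSide {A B C D : Pt} (h : sameSide A B C D = true) :
    BoundP e A B C D fun _ _ _ _ => False := by
  intro i j k l
  have h1 : (0 : ℝ) < ((dpos A B C : ℝ) - dneg A B C) * (dpos A B D - dneg A B D) := by
    simp only [sameSide, Bool.or_eq_true, Bool.and_eq_true, Nat.blt_eq] at h
    rcases h with ⟨h1, h2⟩ | ⟨h1, h2⟩
    · exact mul_pos (sub_pos.2 (by exact_mod_cast h1)) (sub_pos.2 (by exact_mod_cast h2))
    · exact mul_pos_of_neg_of_neg (sub_neg.2 (by exact_mod_cast h1))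
        (sub_neg.2 (by exact_mod_cast h2))
  filter_upwards [ev_pos (g := fun ε => det (pos e ε B j - pos e ε A i) (pos e ε C k - pos e ε A i) *
    det (pos e ε B j - pos e ε A i) (pos e ε D l - pos e ε A i)) (by unfold det pos; fun_prop)
    (by rwa [det_base, det_base])] with ε h2 _ hZ
  rcases hZ.L1 with h3 | ⟨h3, -⟩
  · linarith
  · rw [h3, zero_mul] at h2
    exact absurd h2 (lt_irrefl _)

theorem bp_generic {A B C D : Pt} (h : dpos A B D + dneg A B C ≠ dpos A B C + dneg A B D) :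
    BoundP e A B C D fun _ _ _ _ => True := by
  intro i j k l
  filter_upwards [ev_ne (g := fun ε => det (pos e ε B j - pos e ε A i) (pos e ε D l - pos e ε C k))
    (by unfold det pos; fun_prop) (by
      rw [det_sub_eq, det_base, det_base]
      intro h1
      apply h
      have : (dpos A B D : ℝ) + dneg A B C = dpos A B C + dneg A B D := by linarith
      exact_mod_cast this)] with ε h2 _ _
  exact ⟨h2, trivial⟩

theorem det_hh (A B : Pt) (i j k l : ℕ) :
    det (hh e 0 A i k) (pos e 0 B j - pos e 0 A l) = side e A B := by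
  simp [det, pos, hh, side]

theorem sign_aux {x y σ : ℝ} (h1 : x * y < 0) (h2 : 0 < y * σ) : x * σ < 0 := by
  by_contra h
  have h3 : 0 < y ^ 2 := by
    have : y ≠ 0 := by rintro rfl; simp at h1
    positivity
  nlinarith [mul_nonneg (not_lt.1 h) h3.le, mul_neg_of_neg_of_pos h1 h2]

theorem bp_opp {A B D : Pt} (h : side e A B * side e A D < 0) :
    BoundP e A B A D fun _ _ _ _ => False := by
  intro i j k l
  filter_upwards [ev_lt (f := fun ε => det (hh e ε A i k) (pos e ε B j - pos e ε A i) *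
    det (hh e ε A i k) (pos e ε D l - pos e ε A k)) (g := fun _ => 0)
    (by unfold det pos hh; fun_prop) continuous_const
    (by rw [det_hh, det_hh]; exact_mod_cast h)] with ε h2 _ hZ
  obtain ⟨s, t, s0, -, t0, -, h5⟩ := hZ
  have h6 : s • (pos e ε B j - pos e ε A i) =
      (ε * (k - i)) • hh e ε A i k + t • (pos e ε D l - pos e ε A k) := by
    rw [← pos_sub]; linear_combination (exp := 1) h5
  have h7 : s * det (hh e ε A i k) (pos e ε B j - pos e ε A i) =
      t * det (hh e ε A i k) (pos e ε D l - pos e ε A k) := by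
    rw [← det_smul_right, h6]
    simp only [det, Prod.fst_add, Prod.snd_add, Prod.smul_fst, Prod.smul_snd, smul_eq_mul]
    ring
  exfalso
  generalize det (hh e ε A i k) (pos e ε B j - pos e ε A i) = x at *
  generalize det (hh e ε A i k) (pos e ε D l - pos e ε A k) = y at *
  have h8 : s * (x * y) = t * y ^ 2 := by linear_combination y * h7
  nlinarith [mul_neg_of_pos_of_neg s0 h2, mul_nonneg t0.le (sq_nonneg y)]

theorem bp_star {A B D : Pt} (h : side e A B ≠ 0) (h' : dpos A B D ≠ dneg A B D) :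
    ∃ σ : ℝ, BoundP e A B A D fun i _ k _ => ((k : ℝ) - i) * σ < 0 := by
  have h0 : (dpos A B D : ℝ) - dneg A B D ≠ 0 := sub_ne_zero.2 (by exact_mod_cast h')
  have h1 : (side e A B : ℝ) ≠ 0 := by exact_mod_cast h
  refine ⟨-(side e A B) * (dpos A B D - dneg A B D), fun i j k l => ?_⟩
  filter_upwards [ev_pos (g := fun ε => -det (hh e ε A i k) (pos e ε B j - pos e ε A i) *
    det (pos e ε B j - pos e ε A i) (pos e ε D l - pos e ε A i) *
      (-(side e A B) * (dpos A B D - dneg A B D)))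
    (by unfold det pos hh; fun_prop)
    (by rw [det_hh, det_base]; exact mul_self_pos.2 (mul_ne_zero (neg_ne_zero.2 h1) h0)),
    self_mem_nhdsWithin] with ε h2 hε _ hZ
  have hε : 0 < ε := hε
  rcases hZ.L1 with h3 | ⟨-, h3⟩
  · refine ⟨det_ne_of_lt h3, ?_⟩
    rw [pos_sub, det_smul_right, det_comm _ (hh e ε A i k)] at h3
    refine sign_aux ?_ h2
    by_contra h4
    nlinarith [mul_nonneg hε.le (not_lt.1 h4)]
  · rw [h3] at h2
    simp at h2

theorem bp_bundle {A B : Pt} (h : side e A B ≠ 0) (h' : side e B A ≠ 0) :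
    ∃ σ : ℝ, BoundP e A B A B fun i j k l => ((k : ℝ) - i) * (l - j) * σ < 0 := by
  have h0 : (side e B A : ℝ) ≠ 0 := by exact_mod_cast h'
  have h1 : (side e A B : ℝ) ≠ 0 := by exact_mod_cast h
  refine ⟨-(side e A B) * side e B A, fun i j k l => ?_⟩
  filter_upwards [ev_pos (g := fun ε => -det (hh e ε A i k) (pos e ε B j - pos e ε A i) *
    det (hh e ε B j l) (pos e ε A i - pos e ε B j) * (-(side e A B) * side e B A))
    (by unfold det pos hh; fun_prop)
    (by rw [det_hh, det_hh]; exact mul_self_pos.2 (mul_ne_zero (neg_ne_zero.2 h1) h0)),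
    self_mem_nhdsWithin] with ε h2 hε hs hZ
  have hε : 0 < ε := hε
  have e1 : det (pos e ε B j - pos e ε A i) (pos e ε A k - pos e ε A i) =
      ε * (k - i) * -det (hh e ε A i k) (pos e ε B j - pos e ε A i) := by
    rw [pos_sub, det_smul_right, det_comm]
  have e2 : det (pos e ε B j - pos e ε A i) (pos e ε B l - pos e ε A i) =
      ε * (l - j) * det (hh e ε B j l) (pos e ε A i - pos e ε B j) := by
    rw [← det_smul_left, ← pos_sub]
    simp only [det, Prod.fst_sub, Prod.snd_sub]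
    ring
  rcases hZ.L1 with h3 | ⟨h3, h4⟩
  · refine ⟨det_ne_of_lt h3, ?_⟩
    rw [e1, e2] at h3
    refine sign_aux ?_ h2
    by_contra h4
    nlinarith [mul_nonneg (sq_nonneg ε) (not_lt.1 h4)]
  · exfalso
    rw [e1] at h3
    rw [e2] at h4
    have a1 : -det (hh e ε A i k) (pos e ε B j - pos e ε A i) ≠ 0 := fun h => by simp [h] at h2
    have a2 : det (hh e ε B j l) (pos e ε A i - pos e ε B j) ≠ 0 := fun h => by simp [h] at h2
    have b1 : (k : ℝ) - i = 0 := by simpa [neg_ne_zero.1 a1, hε.ne'] using h3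
    have b2 : (l : ℝ) - j = 0 := by simpa [a2, hε.ne'] using h4
    exact hs (Or.inl ⟨rfl, by exact_mod_cast (sub_eq_zero.1 b1).symm, rfl,
      by exact_mod_cast (sub_eq_zero.1 b2).symm⟩)

theorem bp_chord {A D : Pt} (h : side e A D ≠ 0) :
    BoundP e A A A D fun i j k _ => ((i : ℝ) - k) * (j - k) < 0 := by
  have h1 : (side e A D : ℝ) ≠ 0 := by exact_mod_cast h
  intro i j k l
  filter_upwards [ev_pos (g := fun ε => det (hh e ε A k i) (pos e ε D l - pos e ε A k) *
    det (hh e ε A k j) (pos e ε D l - pos e ε A k))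
    (by unfold det pos hh; fun_prop) (by rw [det_hh, det_hh]; exact mul_self_pos.2 h1),
    self_mem_nhdsWithin] with ε h2 hε _ hZ
  have hε : 0 < ε := hε
  have e1 : ∀ i : ℕ, det (pos e ε D l - pos e ε A k) (pos e ε A i - pos e ε A k) =
      ε * (i - k) * -det (hh e ε A k i) (pos e ε D l - pos e ε A k) := fun i => by
    rw [pos_sub, det_smul_right, det_comm]
  have a1 : det (hh e ε A k i) (pos e ε D l - pos e ε A k) ≠ 0 := fun h => by simp [h] at h2
  have a2 : det (hh e ε A k j) (pos e ε D l - pos e ε A k) ≠ 0 := fun h => by simp [h] at h2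
  rcases hZ.symm.L1 with h3 | ⟨h3, h4⟩
  · refine ⟨by rw [det_comm]; exact neg_ne_zero.2 (det_ne_of_lt h3), ?_⟩
    rw [e1, e1] at h3
    by_contra h4
    nlinarith [mul_nonneg (mul_nonneg (sq_nonneg ε) (not_lt.1 h4)) h2.le]
  · exfalso
    rw [e1] at h3 h4
    have b1 : (i : ℝ) - k = 0 := by simpa [a1, hε.ne'] using h3
    have b2 : (j : ℝ) - k = 0 := by simpa [a2, hε.ne'] using h4
    obtain rfl : i = k := by exact_mod_cast sub_eq_zero.1 b1
    obtain rfl : j = i := by exact_mod_cast sub_eq_zero.1 b2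
    obtain ⟨s, t, -, -, t0, -, h5⟩ := hZ
    rw [sub_self, smul_zero, add_right_inj, eq_comm, smul_eq_zero] at h5
    rw [h5.resolve_left t0.ne'] at a1
    simp [det] at a1

theorem bp_chord0 {A D : Pt} (h : side e A D < 0) : BoundP e A A A D fun _ _ _ _ => False := by
  intro i j k l
  filter_upwards [bp_chord h.ne i j k l, ev_lt (f := fun ε =>
    det (hh e ε A i j) (pos e ε D l - pos e ε A i)) (g := fun _ => 0)
    (by unfold det pos hh; fun_prop) continuous_const (by rw [det_hh]; exact_mod_cast h),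
    self_mem_nhdsWithin] with ε h1 h2 hε hs hZ
  have hε : 0 < ε := hε
  obtain ⟨-, h3⟩ := h1 hs hZ
  exfalso
  have hij : (j : ℝ) - i ≠ 0 := fun h => by
    rw [sub_eq_zero.1 h] at h3
    nlinarith [sq_nonneg ((i : ℝ) - k)]
  have e2 : det (pos e ε A j - pos e ε A i) (pos e ε D l - pos e ε A i) =
      ε * (j - i) * det (hh e ε A i j) (pos e ε D l - pos e ε A i) := by
    rw [pos_sub, det_smul_left]
  rcases hZ.L1 with h4 | ⟨-, h4⟩
  · have e1 : det (pos e ε A j - pos e ε A i) (pos e ε A k - pos e ε A i) =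
        ε ^ 3 * (j - i) * ((i - k) * (j - k)) * ((e A.a).1 ^ 2 + (e A.a).2 ^ 2) := by
      simp only [det, pos, Prod.fst_sub, Prod.snd_sub]; ring
    rw [e1, e2] at h4
    have := mul_nonneg (mul_nonneg (mul_nonneg (pow_pos hε 4).le (sq_nonneg ((j : ℝ) - i)))
      (mul_pos_of_neg_of_neg h3 h2).le)
      (show (0 : ℝ) ≤ (e A.a).1 ^ 2 + (e A.a).2 ^ 2 by positivity)
    nlinarith
  · rw [e2] at h4
    exact mul_ne_zero (mul_ne_zero hε.ne' hij) h2.ne h4

theorem bp_inner {A : Pt} (h : e A.a ≠ (0, 0)) :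
    BoundP e A A A A fun i j k l => ((k : ℝ) - i) * (k - j) * ((l - i) * (l - j)) < 0 := by
  have hN : (0 : ℝ) < (e A.a).1 ^ 2 + (e A.a).2 ^ 2 := by
    by_contra h1
    have h2 : ((e A.a).1 : ℝ) = 0 := by nlinarith [sq_nonneg ((e A.a).1 : ℝ), sq_nonneg ((e A.a).2 : ℝ)]
    have h3 : ((e A.a).2 : ℝ) = 0 := by nlinarith [sq_nonneg ((e A.a).1 : ℝ), sq_nonneg ((e A.a).2 : ℝ)]
    exact h (Prod.ext (by exact_mod_cast h2) (by exact_mod_cast h3))
  intro i j k l
  filter_upwards [self_mem_nhdsWithin] with ε hε hs hZ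
  have hε : 0 < ε := hε
  have hZ' := hZ
  obtain ⟨s, t, s0, s1, t0, t1, h5⟩ := hZ'
  have e1 := congrArg Prod.fst h5
  have e2 := congrArg Prod.snd h5
  simp only [pos, Prod.fst_add, Prod.smul_fst, Prod.fst_sub, smul_eq_mul, Prod.snd_add,
    Prod.smul_snd, Prod.snd_sub] at e1 e2
  have f1 : (i : ℝ) + s * (j - i) = k + t * (l - k) := by
    apply mul_left_cancel₀ (mul_pos hε hN).ne'
    linear_combination (e A.a).1 * e1 + (e A.a).2 * e2
  have f2 : (i : ℝ) ^ 2 + s * (j ^ 2 - i ^ 2) = k ^ 2 + t * (l ^ 2 - k ^ 2) := by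
    apply mul_left_cancel₀ (mul_pos (pow_pos hε 2) hN).ne'
    linear_combination (e A.a).1 * e2 - (e A.a).2 * e1
  have g1 : (1 - t) * (((k : ℝ) - i) * (k - j)) + t * ((l - i) * (l - j)) = 0 := by
    linear_combination (i + j) * f1 - f2
  have g2 : (1 - s) * (((i : ℝ) - k) * (i - l)) + s * ((j - k) * (j - l)) = 0 := by
    linear_combination f2 - (k + l) * f1
  have aux : ∀ {t α β : ℝ}, 0 < t → t < 1 → (1 - t) * α + t * β = 0 → 0 ≤ α * β →
      α = 0 ∧ β = 0 := by
    intro t α β t0 t1 key h8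
    have h7 : t * (α * β) = -((1 - t) * α ^ 2) := by linear_combination α * key
    have hα : α = 0 := by
      by_contra hα
      have h6 : 0 < α ^ 2 := by positivity
      nlinarith [mul_nonneg t0.le h8]
    refine ⟨hα, ?_⟩
    rw [hα, mul_zero, zero_add] at key
    exact (mul_eq_zero.1 key).resolve_left t0.ne'
  have hlt : ((k : ℝ) - i) * (k - j) * ((l - i) * (l - j)) < 0 := by
    by_contra h8
    obtain ⟨a1, a2⟩ := aux t0 t1 g1 (not_lt.1 h8)
    obtain ⟨a3, a4⟩ := aux s0 s1 g2 (by linarith [not_lt.1 h8])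
    simp only [mul_eq_zero, sub_eq_zero, Nat.cast_inj] at a1 a2 a3 a4
    apply hs
    unfold same
    simp only [true_and]
    omega
  refine ⟨?_, hlt⟩
  have e3 : det (pos e ε A j - pos e ε A i) (pos e ε A l - pos e ε A k) =
      ε ^ 3 * (j - i) * ((l - i) * (l - j) - (k - i) * (k - j)) *
        ((e A.a).1 ^ 2 + (e A.a).2 ^ 2) := by
    simp only [det, pos, Prod.fst_sub, Prod.snd_sub]; ring
  rw [e3]
  refine mul_ne_zero (mul_ne_zero (mul_ne_zero (pow_pos hε 3).ne' fun h => ?_) fun h => ?_) hN.ne'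
  · rw [sub_eq_zero.1 h] at hlt
    nlinarith [sq_nonneg (((k : ℝ) - i) * (l - i))]
  · rw [sub_eq_zero.1 h] at hlt
    nlinarith [sq_nonneg (((k : ℝ) - i) * (k - j))]

end Pool.Agent.MP_d7736f_co
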