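import Pool.Agent.MP_d7736f_co.PGeo

namespace Pool.Agent.MP_d7736f_co

variable {dir : ℕ → ℤ × ℤ} {B m k : ℕ} {ε : ℝ}

theorem orient_self13 (p q : ℝ × ℝ) : orient p q p = 0 := by simp [orient]

theorem orient_self23 (p q : ℝ × ℝ) : orient p q q = 0 := by simp only [orient]; ring

theorem Nice.sep (H : Nice dir B m k ε) {s1 s2 s3 s4 : Site} (h1 : s1.In B m k) (h2 : s2.In B m k)
    (h3 : s3.In B m k) (h4 : s4.In B m k)
    (h : 0 < oZ s1.x s1.y s2.x s2.y s3.x s3.y * oZ s1.x s1.y s2.x s2.y s4.x s4.y) :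
    ¬ Meet (Q dir ε s1) (Q dir ε s2) (Q dir ε s3) (Q dir ε s4) := by
  intro hm
  have a3 := H.gen s1 s2 s3 h1 h2 h3 (left_ne_zero_of_mul h.ne')
  have a4 := H.gen s1 s2 s4 h1 h2 h4 (right_ne_zero_of_mul h.ne')
  have := sgn_mul a3 a4 (hm.neg (Or.inl (ne_of_mul_pos a3)))
  have h' : (0 : ℝ) < oZ s1.x s1.y s2.x s2.y s3.x s3.y * oZ s1.x s1.y s2.x s2.y s4.x s4.y := by
    exact_mod_cast h
  linarith

theorem Nice.shared (H : Nice dir B m k ε) {s1 s2 s4 : Site} {c : ℕ} (h1 : s1.In B m k)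
    (h2 : s2.In B m k) (hc : c < k) (h4 : s4.In B m k)
    (hB : dZ (dir s1.i) s1.x s1.y s2.x s2.y ≠ 0) (hD : dZ (dir s1.i) s1.x s1.y s4.x s4.y ≠ 0)
    (ho : oZ s1.x s1.y s2.x s2.y s4.x s4.y ≠ 0)
    (hm : Meet (Q dir ε s1) (Q dir ε s2) (Q dir ε ⟨s1.x, s1.y, s1.i, c⟩) (Q dir ε s4)) :
    orient (Q dir ε s1) (Q dir ε s2) (Q dir ε s4) ≠ 0 ∧
      0 < dZ (dir s1.i) s1.x s1.y s2.x s2.y * dZ (dir s1.i) s1.x s1.y s4.x s4.y ∧
      ((s1.a : ℝ) - c) * (dZ (dir s1.i) s1.x s1.y s2.x s2.y *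
        oZ s1.x s1.y s2.x s2.y s4.x s4.y) < 0 := by
  have h3 : (⟨s1.x, s1.y, s1.i, c⟩ : Site).In B m k := ⟨h1.1, h1.2.1, h1.2.2.1, hc⟩
  have a4 := H.gen s1 s2 s4 h1 h2 h4 ho
  have n34 := hm.neg (Or.inr (ne_of_mul_pos a4))
  have hca : c ≠ s1.a := by
    rintro rfl
    rw [show (⟨s1.x, s1.y, s1.i, s1.a⟩ : Site) = s1 from rfl, orient_self13] at n34
    simp at n34
  have a3 := H.sh s1 s2 c h1 h2 hc hca hB
  rw [orient_swap23, mul_neg, ← neg_mul] at a3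
  have r1 := sgn_mul a3 a4 n34
  have e : oZ s1.x s1.y s4.x s4.y s2.x s2.y = -oZ s1.x s1.y s2.x s2.y s4.x s4.y := by
    simp only [oZ]; ring
  have a2 := H.gen ⟨s1.x, s1.y, s1.i, c⟩ s4 s2 h3 h4 h2 (by simp only [e]; exact neg_ne_zero.2 ho)
  have n12 := hm.symm.neg (Or.inr (ne_of_mul_pos a2))
  have a1 := H.sh ⟨s1.x, s1.y, s1.i, c⟩ s4 s1.a h3 h4 h1.2.2.2 hca.symm hD
  rw [show (⟨s1.x, s1.y, s1.i, s1.a⟩ : Site) = s1 from rfl, orient_swap23, mul_neg, ← neg_mul] at a1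
  have r2 := sgn_mul a1 a2 n12
  simp only [e] at r2
  push_cast at r2
  refine ⟨ne_of_mul_pos a4, ?_, by linarith⟩
  have : (0 : ℝ) < dZ (dir s1.i) s1.x s1.y s2.x s2.y * dZ (dir s1.i) s1.x s1.y s4.x s4.y := by
    have := mul_pos_of_neg_of_neg r1 r2
    by_contra hh
    push Not at hh
    nlinarith [mul_nonneg (neg_nonneg.2 hh)
      (sq_nonneg (((s1.a : ℝ) - c) * oZ s1.x s1.y s2.x s2.y s4.x s4.y))]
  exact_mod_cast this

theorem Nice.double (H : Nice dir B m k ε) {s1 s2 : Site} {c d : ℕ} (h1 : s1.In B m k)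
    (h2 : s2.In B m k) (hc : c < k) (hd : d < k)
    (hB : dZ (dir s1.i) s1.x s1.y s2.x s2.y ≠ 0) (hA : dZ (dir s2.i) s2.x s2.y s1.x s1.y ≠ 0)
    (key : s1.a < c ∨ (s1.a = c ∧ s2.a < d))
    (hm : Meet (Q dir ε s1) (Q dir ε s2) (Q dir ε ⟨s1.x, s1.y, s1.i, c⟩)
      (Q dir ε ⟨s2.x, s2.y, s2.i, d⟩)) :
    orient (Q dir ε s1) (Q dir ε s2) (Q dir ε ⟨s1.x, s1.y, s1.i, c⟩) ≠ 0 ∧ s1.a < c ∧
      ((s2.a : ℝ) - d) * (dZ (dir s1.i) s1.x s1.y s2.x s2.y *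
        dZ (dir s2.i) s2.x s2.y s1.x s1.y) < 0 := by
  rcases key with key | ⟨rfl, key⟩
  · have a3 := H.sh s1 s2 c h1 h2 hc key.ne' hB
    rw [orient_swap23, mul_neg, ← neg_mul] at a3
    have n34 := hm.neg (Or.inl (ne_of_mul_pos a3))
    have hdb : d ≠ s2.a := by
      rintro rfl
      rw [show (⟨s2.x, s2.y, s2.i, s2.a⟩ : Site) = s2 from rfl, orient_self23] at n34
      simp at n34
    have a4 := H.sh s2 s1 d h2 h1 hd hdb hA
    rw [orient_rot] at a4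
    have r := sgn_mul a3 a4 n34
    refine ⟨ne_of_mul_pos a3, key, ?_⟩
    have hca : (0 : ℝ) < c - s1.a := sub_pos.2 (by exact_mod_cast key)
    by_contra hh
    push Not at hh
    nlinarith [mul_nonneg hca.le hh]
  · have a4 := H.sh s2 s1 d h2 h1 hd key.ne' hA
    rw [orient_rot] at a4
    have n34 := hm.neg (Or.inr (ne_of_mul_pos a4))
    rw [show (⟨s1.x, s1.y, s1.i, s1.a⟩ : Site) = s1 from rfl, orient_self13] at n34
    simp at n34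

theorem dir_pos {d : ℤ × ℤ} (h : d ≠ 0) : (0 : ℝ) < (d.1 : ℝ) ^ 2 + (d.2 : ℝ) ^ 2 := by
  by_contra hh
  push Not at hh
  apply h
  have h1 : (d.1 : ℝ) = 0 := by nlinarith [sq_nonneg (d.1 : ℝ), sq_nonneg (d.2 : ℝ)]
  have h2 : (d.2 : ℝ) = 0 := by nlinarith [sq_nonneg (d.1 : ℝ), sq_nonneg (d.2 : ℝ)]
  exact Prod.ext (by exact_mod_cast h1) (by exact_mod_cast h2)

theorem Nice.inner (H : Nice dir B m k ε) {s1 s2 : Site} {c d : ℕ} (h1 : s1.In B m k)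
    (h2 : s2.In B m k) (hc : c < k) (hd : d < k) (hcd : c < d)
    (hB : dZ (dir s1.i) s1.x s1.y s2.x s2.y ≠ 0)
    (hm : Meet (Q dir ε s1) (Q dir ε s2) (Q dir ε ⟨s1.x, s1.y, s1.i, c⟩)
      (Q dir ε ⟨s1.x, s1.y, s1.i, d⟩)) :
    orient (Q dir ε s1) (Q dir ε s2) (Q dir ε ⟨s1.x, s1.y, s1.i, c⟩) ≠ 0 ∧ c < s1.a ∧ s1.a < d ∧
      0 < dZ (dir s1.i) s1.x s1.y s2.x s2.y := by
  have aux : ∀ c, c < k → c ≠ s1.a → 0 < -(((c : ℝ) - s1.a) * dZ (dir s1.i) s1.x s1.y s2.x s2.y) *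
      orient (Q dir ε s1) (Q dir ε s2) (Q dir ε ⟨s1.x, s1.y, s1.i, c⟩) := by
    intro c hc hca
    have a3 := H.sh s1 s2 c h1 h2 hc hca hB
    rwa [orient_swap23, mul_neg, ← neg_mul] at a3
  have n34 := hm.neg (by
    by_cases h : c = s1.a
    · exact Or.inr (ne_of_mul_pos (aux d hd (by omega)))
    · exact Or.inl (ne_of_mul_pos (aux c hc h)))
  have hca : c ≠ s1.a := by
    rintro rfl
    rw [show (⟨s1.x, s1.y, s1.i, s1.a⟩ : Site) = s1 from rfl, orient_self13] at n34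
    simp at n34
  have hda : d ≠ s1.a := by
    rintro rfl
    rw [show (⟨s1.x, s1.y, s1.i, s1.a⟩ : Site) = s1 from rfl, orient_self13] at n34
    simp at n34
  have r := sgn_mul (aux c hc hca) (aux d hd hda) n34
  have r' : ((c : ℝ) - s1.a) * ((d : ℝ) - s1.a) < 0 := by
    by_contra hh
    push Not at hh
    nlinarith [mul_nonneg hh (mul_self_nonneg (dZ (dir s1.i) s1.x s1.y s2.x s2.y : ℝ))]
  have hcd' : (c : ℝ) < d := by exact_mod_cast hcd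
  have b1 : (c : ℝ) < s1.a := by nlinarith
  have b2 : (s1.a : ℝ) < d := by nlinarith
  have h3 : (⟨s1.x, s1.y, s1.i, c⟩ : Site).In B m k := ⟨h1.1, h1.2.1, h1.2.2.1, hc⟩
  have a2 := H.sh ⟨s1.x, s1.y, s1.i, c⟩ s2 d h3 h2 hd hcd.ne' hB
  have n12 := hm.symm.neg (Or.inr (ne_of_mul_pos a2))
  have hd0 : dir s1.i ≠ 0 := by intro h; apply hB; simp [dZ, h]
  have v := orient_vdm dir ε s1.x s1.y s1.i c d s1.a
  rw [show (⟨s1.x, s1.y, s1.i, s1.a⟩ : Site) = s1 from rfl] at v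
  have v' : 0 < -1 * orient (Q dir ε ⟨s1.x, s1.y, s1.i, c⟩) (Q dir ε ⟨s1.x, s1.y, s1.i, d⟩)
      (Q dir ε s1) := by
    rw [v]
    have := mul_pos (mul_pos (pow_pos H.pos 3) (dir_pos hd0))
      (mul_pos (mul_pos (sub_pos.2 hcd') (sub_pos.2 b1)) (sub_pos.2 b2))
    linarith
  have r2 := sgn_mul v' a2 n12
  refine ⟨ne_of_mul_pos (aux c hc hca), by exact_mod_cast b1, by exact_mod_cast b2, ?_⟩
  have : (0 : ℝ) < dZ (dir s1.i) s1.x s1.y s2.x s2.y := by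
    simp only at r2
    by_contra hh
    push Not at hh
    nlinarith [mul_nonneg (sub_pos.2 hcd').le (neg_nonneg.2 hh)]
  exact_mod_cast this

theorem vdm_ne (hε : 0 < ε) {x y i a b c : ℕ} (hd : dir i ≠ 0) (h1 : a ≠ b) (h2 : c ≠ a)
    (h3 : c ≠ b) :
    orient (Q dir ε ⟨x, y, i, a⟩) (Q dir ε ⟨x, y, i, b⟩) (Q dir ε ⟨x, y, i, c⟩) ≠ 0 := by
  rw [orient_vdm]
  refine mul_ne_zero (mul_pos (pow_pos hε 3) (dir_pos hd)).ne' (mul_ne_zero (mul_ne_zero ?_ ?_) ?_)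
  · exact sub_ne_zero.2 (by exact_mod_cast h1.symm)
  · exact sub_ne_zero.2 (by exact_mod_cast h2)
  · exact sub_ne_zero.2 (by exact_mod_cast h3)

theorem convex_four (hε : 0 < ε) {x y i a b c d : ℕ} (hd : dir i ≠ 0) (hab : a < b) (hcd : c < d)
    (key : a < c ∨ (a = c ∧ b < d))
    (hm : Meet (Q dir ε ⟨x, y, i, a⟩) (Q dir ε ⟨x, y, i, b⟩) (Q dir ε ⟨x, y, i, c⟩)
      (Q dir ε ⟨x, y, i, d⟩)) :
    orient (Q dir ε ⟨x, y, i, a⟩) (Q dir ε ⟨x, y, i, b⟩) (Q dir ε ⟨x, y, i, c⟩) ≠ 0 ∧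
      a < c ∧ c < b ∧ b < d := by
  have n34 := hm.neg (by
    by_cases h : c = a ∨ c = b
    · exact Or.inr (vdm_ne hε hd hab.ne (by omega) (by omega))
    · exact Or.inl (vdm_ne hε hd hab.ne (by omega) (by omega)))
  have h3 := left_ne_zero_of_mul n34.ne
  have hac : a < c := by
    rcases key with h | ⟨rfl, _⟩
    · exact h
    · exact absurd (orient_self13 _ _) h3
  rw [orient_vdm, orient_vdm] at n34
  have K := mul_pos (pow_pos hε 3) (dir_pos hd)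
  have e1 : (0 : ℝ) < (b : ℝ) - a := sub_pos.2 (by exact_mod_cast hab)
  have e2 : (0 : ℝ) < (c : ℝ) - a := sub_pos.2 (by exact_mod_cast hac)
  have e3 : (0 : ℝ) < (d : ℝ) - a := sub_pos.2 (by exact_mod_cast hac.trans hcd)
  have r : ((c : ℝ) - b) * ((d : ℝ) - b) < 0 := by
    by_contra hh
    push Not at hh
    have := mul_nonneg (mul_pos (mul_pos (mul_pos K K) (mul_pos e1 e1)) (mul_pos e2 e3)).le hh
    linarith
  have hcd' : (c : ℝ) < d := by exact_mod_cast hcd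
  have b1 : (c : ℝ) < b := by nlinarith
  have b2 : (b : ℝ) < d := by nlinarith
  exact ⟨h3, hac, by exact_mod_cast b1, by exact_mod_cast b2⟩

end Pool.Agent.MP_d7736f_co
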