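import Mathlib

namespace Pool.Agent.MP_d7736f_co

open Filter Topology

/-- A lifted vertex: integer position, cluster and index in the cluster. -/
structure Site where
  x : ℕ
  y : ℕ
  i : ℕ
  a : ℕ

/-- Orientation determinant. -/
def orient (p q r : ℝ × ℝ) : ℝ := (q.1 - p.1) * (r.2 - p.2) - (q.2 - p.2) * (r.1 - p.1)

/-- The true position of a site. -/
def Q (dir : ℕ → ℤ × ℤ) (ε : ℝ) (s : Site) : ℝ × ℝ :=
  (s.x + (ε * s.a * (dir s.i).1 - ε ^ 2 * s.a ^ 2 * (dir s.i).2),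
   s.y + (ε * s.a * (dir s.i).2 + ε ^ 2 * s.a ^ 2 * (dir s.i).1))

def oZ (ax ay bx by' cx cy : ℕ) : ℤ := ((bx : ℤ) - ax) * (cy - ay) - ((by' : ℤ) - ay) * (cx - ax)

def dZ (d : ℤ × ℤ) (ax ay cx cy : ℕ) : ℤ := d.1 * ((cy : ℤ) - ay) - d.2 * ((cx : ℤ) - ax)

def Site.In (B m k : ℕ) (s : Site) : Prop := s.x < B ∧ s.y < B ∧ s.i < m ∧ s.a < k

theorem finite_In (B m k : ℕ) : {s : Site | s.In B m k}.Finite := by
  refine Set.Finite.subset (Set.Finite.image (fun p : ℕ × ℕ × ℕ × ℕ => (⟨p.1, p.2.1, p.2.2.1, p.2.2.2⟩ : Site))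
    ((Set.finite_Iio B).prod ((Set.finite_Iio B).prod ((Set.finite_Iio m).prod (Set.finite_Iio k))))) ?_
  rintro ⟨x, y, i, a⟩ h
  exact ⟨(x, y, i, a), h, rfl⟩

structure Nice (dir : ℕ → ℤ × ℤ) (B m k : ℕ) (ε : ℝ) : Prop where
  pos : 0 < ε
  gen : ∀ s1 s2 s3 : Site, s1.In B m k → s2.In B m k → s3.In B m k →
    oZ s1.x s1.y s2.x s2.y s3.x s3.y ≠ 0 →
    0 < (oZ s1.x s1.y s2.x s2.y s3.x s3.y : ℝ) * orient (Q dir ε s1) (Q dir ε s2) (Q dir ε s3)
  sh : ∀ (s1 s3 : Site) (b : ℕ), s1.In B m k → s3.In B m k → b < k → b ≠ s1.a →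
    dZ (dir s1.i) s1.x s1.y s3.x s3.y ≠ 0 →
    0 < ((b : ℝ) - s1.a) * (dZ (dir s1.i) s1.x s1.y s3.x s3.y : ℝ) *
      orient (Q dir ε s1) (Q dir ε ⟨s1.x, s1.y, s1.i, b⟩) (Q dir ε s3)
  small : ∀ s : Site, s.In B m k → |(Q dir ε s).1 - s.x| < 1 / 2 ∧ |(Q dir ε s).2 - s.y| < 1 / 2

theorem ev_pos {f : ℝ → ℝ} (hf : Continuous f) (h0 : 0 < f 0) : ∀ᶠ ε in 𝓝[>] (0 : ℝ), 0 < f ε :=
  mem_nhdsWithin_of_mem_nhds (hf.continuousAt.eventually (lt_mem_nhds h0))

theorem exists_nice (dir : ℕ → ℤ × ℤ) (B m k : ℕ) : ∃ ε, Nice dir B m k ε := by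
  have hF := finite_In B m k
  have h0 : ∀ᶠ ε in 𝓝[>] (0 : ℝ), 0 < ε := self_mem_nhdsWithin
  have h1 : ∀ᶠ ε in 𝓝[>] (0 : ℝ), ∀ s1 ∈ {s : Site | s.In B m k}, ∀ s2 ∈ {s : Site | s.In B m k},
      ∀ s3 ∈ {s : Site | s.In B m k}, oZ s1.x s1.y s2.x s2.y s3.x s3.y ≠ 0 →
      0 < (oZ s1.x s1.y s2.x s2.y s3.x s3.y : ℝ) *
        orient (Q dir ε s1) (Q dir ε s2) (Q dir ε s3) := by
    simp only [eventually_all_finite hF]
    intro s1 _ s2 _ s3 _
    by_cases h : oZ s1.x s1.y s2.x s2.y s3.x s3.y = 0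
    · exact Eventually.of_forall fun _ h' => absurd h h'
    refine (ev_pos (f := fun ε => (oZ s1.x s1.y s2.x s2.y s3.x s3.y : ℝ) *
        orient (Q dir ε s1) (Q dir ε s2) (Q dir ε s3)) ?_ ?_).mono fun _ h' _ => h'
    · simp only [orient, Q]; fun_prop
    · have : orient (Q dir 0 s1) (Q dir 0 s2) (Q dir 0 s3) = oZ s1.x s1.y s2.x s2.y s3.x s3.y := by
        simp [orient, Q, oZ]
      simp only [this]
      exact mul_self_pos.2 (by exact_mod_cast h)
  have h2 : ∀ᶠ ε in 𝓝[>] (0 : ℝ), ∀ s1 ∈ {s : Site | s.In B m k}, ∀ s3 ∈ {s : Site | s.In B m k},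
      ∀ b ∈ Set.Iio k, b ≠ s1.a → dZ (dir s1.i) s1.x s1.y s3.x s3.y ≠ 0 →
      0 < ((b : ℝ) - s1.a) * (dZ (dir s1.i) s1.x s1.y s3.x s3.y : ℝ) *
        orient (Q dir ε s1) (Q dir ε ⟨s1.x, s1.y, s1.i, b⟩) (Q dir ε s3) := by
    simp only [eventually_all_finite hF, eventually_all_finite (Set.finite_Iio k)]
    intro s1 _ s3 _ b _
    by_cases hb : b = s1.a
    · exact Eventually.of_forall fun _ h' => absurd hb h'
    by_cases h : dZ (dir s1.i) s1.x s1.y s3.x s3.y = 0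
    · exact Eventually.of_forall fun _ _ h' => absurd h h'
    set g : ℝ → ℝ := fun ε => (((dir s1.i).1 - ε * (s1.a + b) * (dir s1.i).2) *
        ((Q dir ε s3).2 - (Q dir ε s1).2) - ((dir s1.i).2 + ε * (s1.a + b) * (dir s1.i).1) *
        ((Q dir ε s3).1 - (Q dir ε s1).1)) with hg
    have e : ∀ ε, orient (Q dir ε s1) (Q dir ε ⟨s1.x, s1.y, s1.i, b⟩) (Q dir ε s3) =
        ε * ((b : ℝ) - s1.a) * g ε := by
      intro ε; simp only [hg, orient, Q]; ring
    have h3 := ev_pos (f := fun ε => (dZ (dir s1.i) s1.x s1.y s3.x s3.y : ℝ) * g ε)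
      (by simp only [hg, Q]; fun_prop) (by
        have : g 0 = dZ (dir s1.i) s1.x s1.y s3.x s3.y := by simp [hg, Q, dZ]
        simp only [this]
        exact mul_self_pos.2 (by exact_mod_cast h))
    refine (h0.and h3).mono fun ε h' _ _ => ?_
    have hb' : (b : ℝ) - s1.a ≠ 0 := sub_ne_zero.2 (by exact_mod_cast hb)
    have := mul_pos (mul_pos h'.1 (mul_self_pos.2 hb')) h'.2
    rw [e]; linarith
  have h3 : ∀ᶠ ε in 𝓝[>] (0 : ℝ), ∀ s ∈ {s : Site | s.In B m k},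
      |(Q dir ε s).1 - s.x| < 1 / 2 ∧ |(Q dir ε s).2 - s.y| < 1 / 2 := by
    simp only [eventually_all_finite hF]
    intro s _
    refine ((ev_pos (f := fun ε => 1 / 2 - |(Q dir ε s).1 - s.x|) ?_ ?_).and
      (ev_pos (f := fun ε => 1 / 2 - |(Q dir ε s).2 - s.y|) ?_ ?_)).mono fun _ h' =>
        ⟨by linarith [h'.1], by linarith [h'.2]⟩
    · simp only [Q]; fun_prop
    · simp [Q]
    · simp only [Q]; fun_prop
    · simp [Q]
  obtain ⟨ε, e0, e1, e2, e3⟩ := (h0.and (h1.and (h2.and h3))).exists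
  exact ⟨ε, e0, fun s1 s2 s3 a b c => e1 s1 a s2 b s3 c,
    fun s1 s3 b a c d => e2 s1 a s3 c b d, e3⟩

theorem orient_vdm (dir : ℕ → ℤ × ℤ) (ε : ℝ) (x y i a b c : ℕ) :
    orient (Q dir ε ⟨x, y, i, a⟩) (Q dir ε ⟨x, y, i, b⟩) (Q dir ε ⟨x, y, i, c⟩) =
      ε ^ 3 * (((dir i).1 : ℝ) ^ 2 + ((dir i).2 : ℝ) ^ 2) *
        (((b : ℝ) - a) * ((c : ℝ) - a) * ((c : ℝ) - b)) := by
  simp only [orient, Q]; ring

/-- The point of parameter `t` on a segment. -/
def seg (p q : ℝ × ℝ) (t : ℝ) : ℝ × ℝ := ((1 - t) * p.1 + t * q.1, (1 - t) * p.2 + t * q.2)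

/-- Two open segments meet. -/
def Meet (p q r s : ℝ × ℝ) : Prop :=
  ∃ t u : ℝ, 0 < t ∧ t < 1 ∧ 0 < u ∧ u < 1 ∧ seg p q t = seg r s u

theorem Meet.symm {p q r s : ℝ × ℝ} (h : Meet p q r s) : Meet r s p q := by
  obtain ⟨t, u, a, b, c, d, e⟩ := h
  exact ⟨u, t, c, d, a, b, e.symm⟩

theorem Meet.swap {p q r s : ℝ × ℝ} (h : Meet p q r s) : Meet q p r s := by
  obtain ⟨t, u, a, b, c, d, e⟩ := h
  refine ⟨1 - t, u, by linarith, by linarith, c, d, ?_⟩
  rw [← e]; simp only [seg]; ext <;> simp <;> ring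

theorem Meet.swap' {p q r s : ℝ × ℝ} (h : Meet p q r s) : Meet p q s r := h.symm.swap.symm

theorem orient_seg (p q : ℝ × ℝ) (t : ℝ) : orient p q (seg p q t) = 0 := by
  simp only [orient, seg]; ring

theorem orient_seg' (p q r s : ℝ × ℝ) (u : ℝ) :
    orient p q (seg r s u) = (1 - u) * orient p q r + u * orient p q s := by
  simp only [orient, seg]; ring

theorem Meet.neg {p q r s : ℝ × ℝ} (h : Meet p q r s) (h' : orient p q r ≠ 0 ∨ orient p q s ≠ 0) :
    orient p q r * orient p q s < 0 := by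
  obtain ⟨t, u, _, _, c, d, e⟩ := h
  have h1 := orient_seg p q t
  rw [e, orient_seg'] at h1
  have d' : 0 < 1 - u := by linarith
  rcases h' with h' | h'
  · have := mul_self_pos.2 h'
    by_contra hc
    push Not at hc
    have e2 : (1 - u) * (orient p q r * orient p q r) + u * (orient p q r * orient p q s) = 0 := by
      linear_combination orient p q r * h1
    nlinarith [mul_pos d' this, mul_nonneg c.le hc]
  · have := mul_self_pos.2 h'
    by_contra hc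
    push Not at hc
    have e2 : (1 - u) * (orient p q r * orient p q s) + u * (orient p q s * orient p q s) = 0 := by
      linear_combination orient p q s * h1
    nlinarith [mul_pos c this, mul_nonneg d'.le hc]

theorem seg_unique {p q r s : ℝ × ℝ} (h : orient p q r * orient p q s < 0) {t u t' u' : ℝ}
    (e : seg p q t = seg r s u) (e' : seg p q t' = seg r s u') : seg p q t = seg p q t' := by
  have h1 := orient_seg p q t
  have h2 := orient_seg p q t'
  rw [e, orient_seg'] at h1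
  rw [e', orient_seg'] at h2
  have h3 : (u - u') * (orient p q s - orient p q r) = 0 := by linear_combination h1 - h2
  have h4 : orient p q s - orient p q r ≠ 0 := by
    intro h5
    rw [show orient p q s = orient p q r by linarith] at h
    nlinarith [mul_self_nonneg (orient p q r)]
  rw [e, e', show u = u' by have := (mul_eq_zero.1 h3).resolve_right h4; linarith]

theorem orient_swap12 (p q r : ℝ × ℝ) : orient q p r = -orient p q r := by
  simp only [orient]; ring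

theorem orient_swap23 (p q r : ℝ × ℝ) : orient p r q = -orient p q r := by
  simp only [orient]; ring

theorem orient_rot (p q r : ℝ × ℝ) : orient q r p = orient p q r := by
  simp only [orient]; ring

theorem sgn_mul {a b x y : ℝ} (h1 : 0 < a * x) (h2 : 0 < b * y) (h : x * y < 0) : a * b < 0 := by
  by_contra hc
  push Not at hc
  have := mul_pos h1 h2
  nlinarith [mul_nonneg hc (neg_nonneg.2 h.le)]

theorem ne_of_mul_pos {a x : ℝ} (h1 : 0 < a * x) : x ≠ 0 := by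
  rintro rfl; simp at h1

end Pool.Agent.MP_d7736f_co
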