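import Pool.Agent.MP_d7736f_co.Data

namespace Pool.Agent.MP_d7736f_co

theorem rows0 : rows dirT (nat_lit 1048576) (nat_lit 2097152) E0 (nat_lit 40) = 131400 :=
  Nat.eq_of_beq_eq_true (by decide +kernel)

theorem rows1 : rows dirT (nat_lit 1048576) (nat_lit 2097152) E1 (nat_lit 40) = 128820 :=
  Nat.eq_of_beq_eq_true (by decide +kernel)

theorem rows2 : rows dirT (nat_lit 1048576) (nat_lit 2097152) E2 (nat_lit 40) = 128540 :=
  Nat.eq_of_beq_eq_true (by decide +kernel)

theorem rows3 : rows dirT (nat_lit 1048576) (nat_lit 2097152) E3 (nat_lit 40) = 123596 :=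
  Nat.eq_of_beq_eq_true (by decide +kernel)

theorem rows4 : rows dirT (nat_lit 1048576) (nat_lit 2097152) E4 (nat_lit 40) = 118832 :=
  Nat.eq_of_beq_eq_true (by decide +kernel)

theorem rows5 : rows dirT (nat_lit 1048576) (nat_lit 2097152) E5 (nat_lit 40) = 110328 :=
  Nat.eq_of_beq_eq_true (by decide +kernel)

end Pool.Agent.MP_d7736f_co
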