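import Pool.Agent.MP_d7736f_co.Data

namespace Pool.Agent.MP_d7736f_co

theorem rows6 : rows dirT (nat_lit 1048576) (nat_lit 2097152) E6 (nat_lit 40) = 114536 :=
  Nat.eq_of_beq_eq_true (by decide +kernel)

theorem rows7 : rows dirT (nat_lit 1048576) (nat_lit 2097152) E7 (nat_lit 40) = 109820 :=
  Nat.eq_of_beq_eq_true (by decide +kernel)

theorem rows8 : rows dirT (nat_lit 1048576) (nat_lit 2097152) E8 (nat_lit 40) = 110132 :=
  Nat.eq_of_beq_eq_true (by decide +kernel)

theorem rows9 : rows dirT (nat_lit 1048576) (nat_lit 2097152) E9 (nat_lit 40) = 99136 :=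
  Nat.eq_of_beq_eq_true (by decide +kernel)

theorem rows10 : rows dirT (nat_lit 1048576) (nat_lit 2097152) E10 (nat_lit 40) = 98724 :=
  Nat.eq_of_beq_eq_true (by decide +kernel)

theorem rows11 : rows dirT (nat_lit 1048576) (nat_lit 2097152) E11 (nat_lit 40) = 101720 :=
  Nat.eq_of_beq_eq_true (by decide +kernel)

end Pool.Agent.MP_d7736f_co
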