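import Pool.Agent.MP_d7736f_co.Data

namespace Pool.Agent.MP_d7736f_co

theorem rows12 : rows dirT (nat_lit 1048576) (nat_lit 2097152) E12 (nat_lit 40) = 90720 :=
  Nat.eq_of_beq_eq_true (by decide +kernel)

theorem rows13 : rows dirT (nat_lit 1048576) (nat_lit 2097152) E13 (nat_lit 40) = 92248 :=
  Nat.eq_of_beq_eq_true (by decide +kernel)

theorem rows14 : rows dirT (nat_lit 1048576) (nat_lit 2097152) E14 (nat_lit 40) = 87116 :=
  Nat.eq_of_beq_eq_true (by decide +kernel)

theorem rows15 : rows dirT (nat_lit 1048576) (nat_lit 2097152) E15 (nat_lit 40) = 79792 :=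
  Nat.eq_of_beq_eq_true (by decide +kernel)

theorem rows16 : rows dirT (nat_lit 1048576) (nat_lit 2097152) E16 (nat_lit 40) = 76944 :=
  Nat.eq_of_beq_eq_true (by decide +kernel)

theorem rows17 : rows dirT (nat_lit 1048576) (nat_lit 2097152) E17 (nat_lit 40) = 72460 :=
  Nat.eq_of_beq_eq_true (by decide +kernel)

theorem rows18 : rows dirT (nat_lit 1048576) (nat_lit 2097152) E18 (nat_lit 40) = 72124 :=
  Nat.eq_of_beq_eq_true (by decide +kernel)

theorem rows19 : rows dirT (nat_lit 1048576) (nat_lit 2097152) E19 (nat_lit 40) = 66528 :=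
  Nat.eq_of_beq_eq_true (by decide +kernel)

end Pool.Agent.MP_d7736f_co
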