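import Pool.Agent.MP_d7736f_co.Data

namespace Pool.Agent.MP_d7736f_co

theorem rows20 : rows dirT (nat_lit 1048576) (nat_lit 2097152) E20 (nat_lit 40) = 60208 :=
  Nat.eq_of_beq_eq_true (by decide +kernel)

theorem rows21 : rows dirT (nat_lit 1048576) (nat_lit 2097152) E21 (nat_lit 40) = 61976 :=
  Nat.eq_of_beq_eq_true (by decide +kernel)

theorem rows22 : rows dirT (nat_lit 1048576) (nat_lit 2097152) E22 (nat_lit 40) = 56328 :=
  Nat.eq_of_beq_eq_true (by decide +kernel)

theorem rows23 : rows dirT (nat_lit 1048576) (nat_lit 2097152) E23 (nat_lit 40) = 57544 :=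
  Nat.eq_of_beq_eq_true (by decide +kernel)

theorem rows24 : rows dirT (nat_lit 1048576) (nat_lit 2097152) E24 (nat_lit 40) = 46416 :=
  Nat.eq_of_beq_eq_true (by decide +kernel)

theorem rows25 : rows dirT (nat_lit 1048576) (nat_lit 2097152) E25 (nat_lit 40) = 48088 :=
  Nat.eq_of_beq_eq_true (by decide +kernel)

theorem rows26 : rows dirT (nat_lit 1048576) (nat_lit 2097152) E26 (nat_lit 40) = 40488 :=
  Nat.eq_of_beq_eq_true (by decide +kernel)

theorem rows27 : rows dirT (nat_lit 1048576) (nat_lit 2097152) E27 (nat_lit 40) = 35128 :=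
  Nat.eq_of_beq_eq_true (by decide +kernel)

theorem rows28 : rows dirT (nat_lit 1048576) (nat_lit 2097152) E28 (nat_lit 40) = 42844 :=
  Nat.eq_of_beq_eq_true (by decide +kernel)

theorem rows29 : rows dirT (nat_lit 1048576) (nat_lit 2097152) E29 (nat_lit 40) = 33676 :=
  Nat.eq_of_beq_eq_true (by decide +kernel)

theorem rows30 : rows dirT (nat_lit 1048576) (nat_lit 2097152) E30 (nat_lit 40) = 32780 :=
  Nat.eq_of_beq_eq_true (by decide +kernel)

theorem rows31 : rows dirT (nat_lit 1048576) (nat_lit 2097152) E31 (nat_lit 40) = 28412 :=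
  Nat.eq_of_beq_eq_true (by decide +kernel)

theorem rows32 : rows dirT (nat_lit 1048576) (nat_lit 2097152) E32 (nat_lit 40) = 26416 :=
  Nat.eq_of_beq_eq_true (by decide +kernel)

theorem rows33 : rows dirT (nat_lit 1048576) (nat_lit 2097152) E33 (nat_lit 40) = 20580 :=
  Nat.eq_of_beq_eq_true (by decide +kernel)

theorem rows34 : rows dirT (nat_lit 1048576) (nat_lit 2097152) E34 (nat_lit 40) = 16264 :=
  Nat.eq_of_beq_eq_true (by decide +kernel)

theorem rows35 : rows dirT (nat_lit 1048576) (nat_lit 2097152) E35 (nat_lit 40) = 13796 :=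
  Nat.eq_of_beq_eq_true (by decide +kernel)

theorem rows36 : rows dirT (nat_lit 1048576) (nat_lit 2097152) E36 (nat_lit 40) = 9000 :=
  Nat.eq_of_beq_eq_true (by decide +kernel)

theorem rows37 : rows dirT (nat_lit 1048576) (nat_lit 2097152) E37 (nat_lit 40) = 6040 :=
  Nat.eq_of_beq_eq_true (by decide +kernel)

theorem rows38 : rows dirT (nat_lit 1048576) (nat_lit 2097152) E38 (nat_lit 40) = 888 :=
  Nat.eq_of_beq_eq_true (by decide +kernel)

theorem rows39 : rows dirT (nat_lit 1048576) (nat_lit 2097152) E39 (nat_lit 36) = 36 :=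
  Nat.eq_of_beq_eq_true (by decide +kernel)

end Pool.Agent.MP_d7736f_co
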