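import Pool.Agent.MP_d7736f_co.RPCount

namespace Pool.Agent.MP_d7736f_co.RP

open Finset

/-- Numbers packed in lanes of `W` bits. -/
def pk (W n : ℕ) (f : ℕ → ℕ) : ℕ := ∑ j ∈ range n, 2 ^ (W * j) * f j

theorem pk_lt {W n : ℕ} {f : ℕ → ℕ} (hf : ∀ j < n, f j < 2 ^ W) : pk W n f < 2 ^ (W * n) := by
  induction n with
  | zero => simp [pk]
  | succ n ih =>
    have h1 := ih fun j hj => hf j (by omega)
    have h2 := Nat.mul_le_mul_left (2 ^ (W * n)) (Nat.succ_le_of_lt (hf n (by omega)))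
    rw [pk, sum_range_succ, mul_add, mul_one, pow_add]
    rw [pk] at h1
    rw [Nat.mul_succ] at h2
    omega

theorem testBit_pk {W n : ℕ} {f : ℕ → ℕ} (hf : ∀ j < n, f j < 2 ^ W) {c e : ℕ} (hc : c < n)
    (he : e < W) : (pk W n f).testBit (W * c + e) = (f c).testBit e := by
  induction n with
  | zero => omega
  | succ n ih =>
    have h1 : ∀ j < n, f j < 2 ^ W := fun j hj => hf j (by omega)
    rw [pk, sum_range_succ, add_comm, ← pk, Nat.testBit_two_pow_mul_add _ (pk_lt h1)]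
    rcases lt_or_eq_of_le (Nat.lt_succ_iff.1 hc) with h | rfl
    · have := Nat.mul_le_mul_left W (Nat.succ_le_of_lt h)
      rw [Nat.mul_succ] at this
      rw [if_pos (by omega), ih h1 h]
    · rw [if_neg (by omega), Nat.add_sub_cancel_left]

theorem mul_pk (W n z : ℕ) (f : ℕ → ℕ) : z * pk W n f = pk W n fun j => z * f j := by
  simp only [pk, mul_sum]
  exact sum_congr rfl fun j _ => by ring

theorem pk_add (W n : ℕ) (f g : ℕ → ℕ) : pk W n f + pk W n g = pk W n fun j => f j + g j := by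
  simp only [pk, ← sum_add_distrib, mul_add]

theorem pk_sub {W n : ℕ} {f g : ℕ → ℕ} (h : ∀ j < n, g j ≤ f j) :
    pk W n f - pk W n g = pk W n fun j => f j - g j := by
  rw [Nat.sub_eq_iff_eq_add, pk_add]
  · exact sum_congr rfl fun j hj => by simp only [Nat.sub_add_cancel (h j (mem_range.1 hj))]
  · exact sum_le_sum fun j hj => Nat.mul_le_mul_left _ (h j (mem_range.1 hj))

theorem and_pk {W : ℕ} (hW : 0 < W) (n x : ℕ) :
    x &&& pk W n (fun _ => 1) = pk W n fun c => (x.testBit (W * c)).toNat := by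
  have h1 : ∀ j < n, 1 < 2 ^ W := fun _ _ => Nat.one_lt_two_pow hW.ne'
  have h2 : ∀ j < n, (x.testBit (W * j)).toNat < 2 ^ W :=
    fun j hj => lt_of_le_of_lt (Bool.toNat_le _) (h1 j hj)
  refine Nat.eq_of_testBit_eq fun i => ?_
  rw [Nat.testBit_and]
  by_cases hc : i / W < n
  · rw [← Nat.div_add_mod i W, testBit_pk h1 hc (Nat.mod_lt _ hW),
      testBit_pk h2 hc (Nat.mod_lt _ hW)]
    cases i % W with
    | zero => cases hx : x.testBit (W * (i / W)) <;> simp [hx]
    | succ e => cases x.testBit (W * (i / W)) <;> simp [Nat.testBit_succ]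
  · have h3 : 2 ^ (W * n) ≤ 2 ^ i := Nat.pow_le_pow_right two_pos
      ((Nat.mul_le_mul_left W (not_lt.1 hc)).trans (Nat.mul_div_le i W))
    rw [Nat.testBit_lt_two_pow ((pk_lt h1).trans_le h3),
      Nat.testBit_lt_two_pow ((pk_lt h2).trans_le h3), Bool.and_false]

theorem sum_range_blocks (L n : ℕ) (f : ℕ → ℕ) :
    ∑ i ∈ range (L * n), f i = ∑ j ∈ range n, ∑ r ∈ range L, f (L * j + r) := by
  induction n with
  | zero => simp
  | succ n ih => rw [Nat.mul_succ, sum_range_add, ih, sum_range_succ]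

theorem pk_mod (n : ℕ) (f : ℕ → ℕ) : pk 16 n f ≡ ∑ j ∈ range n, f j [MOD 65535] := by
  induction n with
  | zero => rfl
  | succ n ih =>
    rw [pk, sum_range_succ, sum_range_succ]
    refine ih.add ?_
    have h : 2 ^ 16 ≡ 1 [MOD 65535] := by decide
    simpa [pow_mul] using (h.pow n).mul_right (f n)

/-- Population count. -/
def pop (R T : ℕ) : ℕ := (∑ r ∈ range 16, ((T >>> r) &&& R)) % 65535

theorem pop_eq {n : ℕ} (hn : 16 * n < 65535) (T : ℕ) :
    pop (pk 16 n fun _ => 1) T = ∑ i ∈ range (16 * n), (T.testBit i).toNat := by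
  have h1 : ∑ i ∈ range (16 * n), (T.testBit i).toNat ≤ 16 * n := by
    simpa using sum_le_card_nsmul (range (16 * n)) _ 1 fun i _ => Bool.toNat_le (T.testBit i)
  rw [← Nat.mod_eq_of_lt (h1.trans_lt hn), sum_range_blocks, sum_comm, pop]
  refine Nat.ModEq.sum fun r _ => ?_
  rw [and_pk (by norm_num)]
  simp only [Nat.testBit_shiftRight, add_comm r]
  exact pk_mod _ _

def lane (X i : ℕ) : ℕ := (X >>> (128 * i)) % 4294967296

def pt (X Y Z : ℕ) (i : ℕ) : Z3 := (lane X i, lane Y i, lane Z i)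

/-- The packed values of the determinant with two fixed rows, shifted by `K`. -/
def VV (X Y Z R K a c : ℕ) : ℕ :=
  K * R + (lane Y a * lane Z c * X + lane Z a * lane X c * Y + lane X a * lane Y c * Z) -
    (lane Z a * lane Y c * X + lane X a * lane Z c * Y + lane Y a * lane X c * Z)

theorem lane3 (A B C a b c : ℕ) : lane A a * lane B b * lane C c ≤ 2 ^ 96 := by
  have h : ∀ X i, lane X i ≤ 2 ^ 32 := fun X i => (Nat.mod_lt _ (by norm_num)).le
  exact (Nat.mul_le_mul (Nat.mul_le_mul (h _ _) (h _ _)) (h _ _)).trans (by norm_num)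

theorem testBit_VV {m X Y Z K : ℕ} (hX : X = pk 128 m (lane X)) (hY : Y = pk 128 m (lane Y))
    (hZ : Z = pk 128 m (lane Z)) (h1 : 2 ^ 126 ≤ K) (h2 : K ≤ 2 ^ 127) (a c : ℕ) {e : ℕ}
    (he : e < m) : (VV X Y Z (pk 128 m fun _ => 1) K a c).testBit (127 + 128 * e) =
      decide ((2 : ℤ) ^ 127 ≤ K + det3 (pt X Y Z a) (pt X Y Z c) (pt X Y Z e)) := by
  have b1 := fun j => lane3 Y Z X a c j
  have b2 := fun j => lane3 Z X Y a c j
  have b3 := fun j => lane3 X Y Z a c j
  have b4 := fun j => lane3 Z Y X a c j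
  have b5 := fun j => lane3 X Z Y a c j
  have b6 := fun j => lane3 Y X Z a c j
  have ev : VV X Y Z (pk 128 m fun _ => 1) K a c = pk 128 m fun j =>
      K * 1 + (lane Y a * lane Z c * lane X j + lane Z a * lane X c * lane Y j +
        lane X a * lane Y c * lane Z j) - (lane Z a * lane Y c * lane X j +
        lane X a * lane Z c * lane Y j + lane Y a * lane X c * lane Z j) := by
    rw [← pk_sub fun j _ => by
      have := b4 j; have := b5 j; have := b6 j; omega]
    simp only [← pk_add, ← mul_pk, ← hX, ← hY, ← hZ, VV]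
  have hd : det3 (pt X Y Z a) (pt X Y Z c) (pt X Y Z e) =
      ((lane Y a * lane Z c * lane X e : ℕ) + (lane Z a * lane X c * lane Y e : ℕ) +
        (lane X a * lane Y c * lane Z e : ℕ)) - ((lane Z a * lane Y c * lane X e : ℕ) +
        (lane X a * lane Z c * lane Y e : ℕ) + (lane Y a * lane X c * lane Z e : ℕ)) := by
    simp only [det3, pt]; push_cast; ring
  rw [ev, add_comm 127, testBit_pk (fun j _ => by
    have := b1 j; have := b2 j; have := b3 j; omega) he (by norm_num), hd]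
  have := b1 e; have := b2 e; have := b3 e; have := b4 e; have := b5 e; have := b6 e
  by_cases h : (2 : ℤ) ^ 127 ≤ K + (((lane Y a * lane Z c * lane X e : ℕ) +
      (lane Z a * lane X c * lane Y e : ℕ) + (lane X a * lane Y c * lane Z e : ℕ)) -
      ((lane Z a * lane Y c * lane X e : ℕ) + (lane X a * lane Z c * lane Y e : ℕ) +
      (lane Y a * lane X c * lane Z e : ℕ)))
  · rw [decide_eq_true h]
    exact Nat.testBit_of_two_pow_le_and_two_pow_add_one_gt (by omega) (by omega)
  · rw [decide_eq_false h]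
    exact Nat.testBit_lt_two_pow (by omega)

/-- Check of column `c` of the sign matrix `h` of the vertex `a`, and of general position. -/
def chkH (X Y Z R h a c : ℕ) : Bool :=
  (((h >>> c) ^^^ (VV X Y Z R (2 ^ 127) a c >>> 127)) &&& R == R) &&
    (a == c || ((VV X Y Z R (2 ^ 127) a c ^^^ VV X Y Z R (2 ^ 127 - 1) a c) >>> 127) &&&
      (R ^^^ 2 ^ (128 * a)) &&& (R ^^^ 2 ^ (128 * c)) == 0)

theorem rep_bit {m e : ℕ} (he : e < m) : (pk 128 m fun _ => 1).testBit (128 * e) = true :=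
  testBit_pk (W := 128) (f := fun _ => 1) (e := 0) (fun _ _ => by norm_num) he (by norm_num)

theorem chkH_spec {m X Y Z h a c : ℕ} (hX : X = pk 128 m (lane X)) (hY : Y = pk 128 m (lane Y))
    (hZ : Z = pk 128 m (lane Z)) (H : chkH X Y Z (pk 128 m fun _ => 1) h a c = true) {e : ℕ}
    (he : e < m) :
    h.testBit (128 * e + c) = decide (0 < det3 (pt X Y Z a) (pt X Y Z e) (pt X Y Z c)) ∧
      (a ≠ c → a ≠ e → c ≠ e → det3 (pt X Y Z a) (pt X Y Z c) (pt X Y Z e) ≠ 0) := by
  simp only [chkH, Bool.and_eq_true, beq_iff_eq, Bool.or_eq_true] at H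
  have v1 := testBit_VV hX hY hZ (K := 2 ^ 127) (by norm_num) le_rfl a c he
  have v2 := testBit_VV hX hY hZ (K := 2 ^ 127 - 1) (by norm_num) (by norm_num) a c he
  constructor
  · have := congrArg (·.testBit (128 * e)) H.1
    simp only [Nat.testBit_and, Nat.testBit_xor, Nat.testBit_shiftRight, rep_bit he, v1,
      Bool.and_true, add_comm c] at this
    have e1 : det3 (pt X Y Z a) (pt X Y Z e) (pt X Y Z c) =
        -det3 (pt X Y Z a) (pt X Y Z c) (pt X Y Z e) := by simp only [det3]; ring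
    rw [e1]
    revert this
    generalize det3 (pt X Y Z a) (pt X Y Z c) (pt X Y Z e) = x
    cases h.testBit (128 * e + c) <;> simp
  · intro h1 h2 h3 h4
    have := congrArg (·.testBit (128 * e)) (H.2.resolve_left h1)
    simp only [Nat.testBit_and, Nat.testBit_xor, Nat.testBit_shiftRight, rep_bit he, v1, v2, h4,
      Nat.testBit_two_pow] at this
    simp [h2, h3] at this

theorem col_bit {m z c e : ℕ} (hz : z < 2 ^ 128) (hc : c < m) (he : e < 128) :
    (z * pk 128 m fun _ => 1).testBit (128 * c + e) = z.testBit e := by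
  rw [mul_pk, testBit_pk (fun _ _ => by simpa using hz) hc he, mul_one]

theorem row_bit {m x c e : ℕ} (hc : c < m) (he : e < 128) :
    ((2 ^ 128 - 1) * (x &&& pk 128 m fun _ => 1)).testBit (128 * c + e) = x.testBit (128 * c) := by
  rw [and_pk (by norm_num), mul_pk, testBit_pk (fun j _ => ?_) hc he]
  · cases x.testBit (128 * c)
    · simp
    · simp only [Bool.toNat_true, mul_one, Nat.testBit_two_pow_sub_one, he, decide_true]
  · cases x.testBit (128 * j) <;> simp

def sgn (S i j : ℕ) : ℤ := if S.testBit (128 * i + j) then 1 else -1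

def msk (m R a : ℕ) : ℕ :=
  (((2 ^ m - 1) ^^^ 2 ^ a) * R) &&& ((2 ^ 128 - 1) * ((R ^^^ 2 ^ (128 * a)) &&& R))

/-- The bit matrix of the edges that cross the edge `ab`. -/
def TT (m R S ha hb a b : ℕ) : ℕ :=
  (ha ^^^ hb ^^^ (if S.testBit (128 * a + b) then 0 else (2 ^ 128 - 1) * R)) &&&
    (S ^^^ ((2 ^ 128 - 1) * ((ha >>> b) &&& R)) ^^^ (((ha >>> (128 * b)) % 2 ^ 128) * R)) &&&
      msk m R a &&& msk m R b

theorem msk_bit {m a c e : ℕ} (hm : m ≤ 128) (ha : a < m) (hc : c < m) (he : e < m) (h1 : a ≠ c)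
    (h2 : a ≠ e) : (msk m (pk 128 m fun _ => 1) a).testBit (128 * c + e) = true := by
  have hz : (2 ^ m - 1) ^^^ 2 ^ a < 2 ^ 128 := Nat.xor_lt_two_pow
    (lt_of_lt_of_le (Nat.sub_lt (by positivity) one_pos) (Nat.pow_le_pow_right two_pos hm))
    (Nat.pow_lt_pow_right one_lt_two (by omega))
  rw [msk, Nat.testBit_and, col_bit hz hc (by omega), row_bit hc (by omega)]
  simp [rep_bit hc, Nat.testBit_two_pow, he, h1, h2]

theorem TT_bit {m S a b c e : ℕ} {p : ℕ → Z3} {H : ℕ → ℕ} (hm : m ≤ 128)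
    (hH : ∀ a < m, ∀ c < m, ∀ e < m,
      (H a).testBit (128 * c + e) = decide (0 < det3 (p a) (p c) (p e)))
    (ha : a < m) (hb : b < m) (hc : c < m) (he : e < m) (hX : X0 p (sgn S) a b c e) :
    (TT m (pk 128 m fun _ => 1) S (H a) (H b) a b).testBit (128 * c + e) = true := by
  obtain ⟨h1, h2⟩ := hX
  have n1 : a ≠ c := by rintro rfl; simp [det3_self1] at h1
  have n2 : a ≠ e := by rintro rfl; simp [det3_self2] at h1
  have n3 : b ≠ c := by rintro rfl; simp [det3_self1] at h1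
  have n4 : b ≠ e := by rintro rfl; simp [det3_self2] at h1
  have he' : e < 128 := by omega
  have e1 : det3 (p a) (p c) (p b) = -det3 (p a) (p b) (p c) := by simp only [det3]; ring
  rw [det3_rot (p a), det3_rot (p b)] at h1
  simp only [TT, Nat.testBit_and, msk_bit hm ha hc he n1 n2, msk_bit hm hb hc he n3 n4,
    Nat.testBit_xor, row_bit hc he', col_bit (Nat.mod_lt _ (by positivity)) hc he',
    Nat.testBit_shiftRight, Nat.testBit_mod_two_pow, he', add_comm b, hH a ha c hc e he,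
    hH b hb c hc e he, hH a ha c hc b hb, hH a ha b hb e he, e1, Bool.and_true, decide_true,
    Bool.true_and, Bool.and_eq_true]
  unfold sgn at h1 h2
  generalize det3 (p a) (p c) (p e) = x at *
  generalize det3 (p b) (p c) (p e) = y at *
  generalize det3 (p a) (p b) (p c) = z at *
  generalize det3 (p a) (p b) (p e) = w at *
  constructor
  · split_ifs at h1 ⊢
    · rw [one_mul] at h1
      rcases mul_neg_iff.1 h1 with h | h <;> simp [h.1, h.2, h.1.not_gt, h.2.not_gt]
    · rw [col_bit (by norm_num) hc he', Nat.testBit_two_pow_sub_one]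
      rcases mul_pos_iff.1 (by linarith : 0 < x * y) with h | h <;>
        simp [h.1, h.2, h.1.not_gt, h.2.not_gt, he']
  · split_ifs at h2 with h3
    · rw [one_mul] at h2
      rcases mul_neg_iff.1 h2 with h | h <;> simp [h3, h.1, h.2, h.1.not_gt, h.2.not_gt]
    · rcases mul_pos_iff.1 (by linarith : 0 < z * w) with h | h <;>
        simp [h3, h.1, h.2, h.1.not_gt, h.2.not_gt]

theorem N0_le {m S : ℕ} {p : ℕ → Z3} {H : ℕ → ℕ} (hm : m ≤ 128)
    (hH : ∀ a < m, ∀ c < m, ∀ e < m,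
      (H a).testBit (128 * c + e) = decide (0 < det3 (p a) (p c) (p e))) :
    N0 p (sgn S) m ≤ ∑ a ∈ range m, ∑ b ∈ range m,
      pop (pk 16 (8 * m) fun _ => 1) (TT m (pk 128 m fun _ => 1) S (H a) (H b) a b) := by
  refine sum_le_sum fun a ha => sum_le_sum fun b hb => ?_
  rw [pop_eq (by omega), show 16 * (8 * m) = 128 * m by ring, sum_range_blocks]
  refine sum_le_sum fun c hc => le_trans (sum_le_sum fun e he => ?_)
    (sum_le_sum_of_subset (range_subset_range.2 hm))
  split_ifs with h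
  · rw [TT_bit hm hH (mem_range.1 ha) (mem_range.1 hb) (mem_range.1 hc) (mem_range.1 he) h]
    rfl
  · exact zero_le

theorem cert {m X Y Z U V W S R R' L t : ℕ} {H : ℕ → ℕ} (hm2 : 2 ≤ m) (hm : m ≤ 128)
    (hX : X = pk 128 m (lane X)) (hY : Y = pk 128 m (lane Y)) (hZ : Z = pk 128 m (lane Z))
    (hR : R = pk 128 m fun _ => 1) (hR' : R' = pk 16 (8 * m) fun _ => 1)
    (hH : ∀ a < m, ∀ c < m, chkH X Y Z R (H a) a c = true)
    (hS : ∀ i < m, ∀ j < m, sgn S i j = sgn S j i) (hS' : ∀ i < m, sgn S i i = 1)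
    (hD : ∀ i < m, ∀ j < m, i ≠ j → D (pt X Y Z) (pt U V W) i j ≠ 0)
    (hL : ∀ i < m, LL (pt X Y Z) (pt U V W) (sgn S) m i = L)
    (ht : ∑ a ∈ range m, ∑ b ∈ range m, pop R' (TT m R S (H a) (H b) a b) = t) {v k : ℕ}
    (hv : 3 ≤ v) (hk : v ≤ m * k) : ∃ c : ℕ, crossingNumber ProjPlane v = c ∧
      96 * c ≤ (12 * t + 4 * (m * (4 + 4 * L + 6 * L ^ 2 + 6 * (m - 1 - L) ^ 2 - 3 * m))) *
        k ^ 4 := by
  subst hR hR'
  have B : Base (pt X Y Z) (pt U V W) m (sgn S) :=
    ⟨hm2, fun i hi j hj l hl => (chkH_spec hX hY hZ (hH i hi j hj) hl).2, hD, hS, hS',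
      fun i j => by unfold sgn; split_ifs <;> simp⟩
  obtain ⟨c, h1, h2⟩ := B.bound hv hk
  refine ⟨c, h1, h2.trans (Nat.mul_le_mul_right _ (add_le_add ?_ (le_of_eq ?_)))⟩
  · rw [← ht]
    exact Nat.mul_le_mul_left _
      (N0_le hm fun a ha c hc e he => (chkH_spec hX hY hZ (hH a ha e he) hc).1)
  · rw [GG, sum_congr rfl (g := fun _ => 4 + 4 * L + 6 * L ^ 2 + 6 * (m - 1 - L) ^ 2 - 3 * m)]
    · simp
    · intro i hi
      rw [← hL i (mem_range.1 hi), ← sum_gw (mem_range.1 hi), Nat.add_sub_cancel]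

end Pool.Agent.MP_d7736f_co.RP
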