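import Pool.Agent.MP_d7736f_co.RPGeo

namespace Pool.Agent.MP_d7736f_co.RP

open Filter Topology

abbrev Z3 : Type := ℤ × ℤ × ℤ

def cross {R : Type} [CommRing R] (a b : R × R × R) : R × R × R :=
  (a.2.1 * b.2.2 - a.2.2 * b.2.1, a.2.2 * b.1 - a.1 * b.2.2, a.1 * b.2.1 - a.2.1 * b.1)

def toR (a : Z3) : R3 := (a.1, a.2.1, a.2.2)

theorem det3_toR (a b c : Z3) : det3 (toR a) (toR b) (toR c) = (det3 a b c : ℤ) := by
  simp [det3, toR]

variable (p d : ℕ → Z3)

/-- The points of the clusters. -/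
noncomputable def Q (ε : ℝ) (a : ℕ × ℕ) : R3 :=
  toR (p a.1) + (ε * a.2) • toR (d a.1) + ((ε * a.2) ^ 2) • toR (cross (p a.1) (d a.1))

def D (i j : ℕ) : ℤ := det3 (p i) (d i) (p j)

/-- The limiting orientation of three points of the clusters. -/
def chi (a b c : ℕ × ℕ) : ℤ :=
  if a.1 = b.1 then
    (if a.1 = c.1 then ((b.2 : ℤ) - a.2) * ((c.2 : ℤ) - a.2) * ((c.2 : ℤ) - b.2)
    else ((b.2 : ℤ) - a.2) * D p d a.1 c.1)
  else if a.1 = c.1 then ((a.2 : ℤ) - c.2) * D p d a.1 b.1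
  else if b.1 = c.1 then ((c.2 : ℤ) - b.2) * D p d b.1 a.1
  else det3 (p a.1) (p b.1) (p c.1)

theorem ev_pos {f : ℝ → ℝ} (hf : Continuous f) (h0 : 0 < f 0) : ∀ᶠ ε in 𝓝[>] (0 : ℝ), 0 < f ε :=
  mem_nhdsWithin_of_mem_nhds (hf.continuousAt.eventually (lt_mem_nhds h0))

theorem ev_two (i s t : ℕ) (c : ℕ × ℕ) (h : ((t : ℤ) - s) * D p d i c.1 ≠ 0) :
    ∀ᶠ ε in 𝓝[>] (0 : ℝ), 0 < ((((t : ℤ) - s) * D p d i c.1 : ℤ) : ℝ) *
      det3 (Q p d ε (i, s)) (Q p d ε (i, t)) (Q p d ε c) := by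
  set g : ℝ → ℝ := fun ε => det3 (Q p d ε (i, s))
    (toR (d i) + (ε * (s + t)) • toR (cross (p i) (d i))) (Q p d ε c) with hg
  have e : ∀ ε, det3 (Q p d ε (i, s)) (Q p d ε (i, t)) (Q p d ε c) = ε * ((t : ℝ) - s) * g ε := by
    intro ε
    have : Q p d ε (i, t) = (1 : ℝ) • Q p d ε (i, s) + (ε * ((t : ℝ) - s)) •
        (toR (d i) + (ε * (s + t)) • toR (cross (p i) (d i))) := by
      simp only [Q]; module
    rw [hg, this, ← det3_rot, ← det3_rot, det3_lin, det3_self2, det3_rot, det3_rot]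
    simp only []
    rw [det3_rot (Q p d ε c)]
    ring
  have h1 : (D p d i c.1 : ℝ) ≠ 0 := by exact_mod_cast right_ne_zero_of_mul h
  have h2 : (t : ℝ) - s ≠ 0 := by exact_mod_cast left_ne_zero_of_mul h
  have h3 := ev_pos (f := fun ε => (D p d i c.1 : ℝ) * g ε)
    (by simp only [hg, Q, det3]; fun_prop) (by
      have : g 0 = D p d i c.1 := by simp [hg, Q, D, det3_toR]
      simp only [this]
      exact mul_self_pos.2 h1)
  filter_upwards [h3, self_mem_nhdsWithin] with ε h4 h5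
  have := mul_pos (mul_pos (show 0 < ε from h5) (mul_self_pos.2 h2)) h4
  rw [e]; push_cast; linarith

theorem det_three (ε : ℝ) (i s t u : ℕ) :
    det3 (Q p d ε (i, s)) (Q p d ε (i, t)) (Q p d ε (i, u)) =
      ε ^ 3 * (((t : ℝ) - s) * ((u : ℝ) - s) * ((u : ℝ) - t)) *
        ((toR (cross (p i) (d i))).1 ^ 2 + (toR (cross (p i) (d i))).2.1 ^ 2 +
          (toR (cross (p i) (d i))).2.2 ^ 2) := by
  simp [det3, Q, toR, cross]; ring

theorem cross_pos {a b c : Z3} (h : det3 a b c ≠ 0) :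
    0 < (toR (cross a b)).1 ^ 2 + (toR (cross a b)).2.1 ^ 2 + (toR (cross a b)).2.2 ^ 2 := by
  by_contra h1
  apply h
  have e1 : (toR (cross a b)).1 = 0 := by
    nlinarith [sq_nonneg (toR (cross a b)).1, sq_nonneg (toR (cross a b)).2.1,
      sq_nonneg (toR (cross a b)).2.2]
  have e2 : (toR (cross a b)).2.1 = 0 := by
    nlinarith [sq_nonneg (toR (cross a b)).1, sq_nonneg (toR (cross a b)).2.1,
      sq_nonneg (toR (cross a b)).2.2]
  have e3 : (toR (cross a b)).2.2 = 0 := by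
    nlinarith [sq_nonneg (toR (cross a b)).1, sq_nonneg (toR (cross a b)).2.1,
      sq_nonneg (toR (cross a b)).2.2]
  simp only [toR, Int.cast_eq_zero] at e1 e2 e3
  have : det3 a b c = (cross a b).1 * c.1 + (cross a b).2.1 * c.2.1 + (cross a b).2.2 * c.2.2 := by
    simp only [det3, cross]; ring
  rw [this, e1, e2, e3]; ring

theorem ev_chi (a b c : ℕ × ℕ) (hd : ∃ j, D p d a.1 j ≠ 0) (h : chi p d a b c ≠ 0) :
    ∀ᶠ ε in 𝓝[>] (0 : ℝ), 0 < (chi p d a b c : ℝ) * det3 (Q p d ε a) (Q p d ε b) (Q p d ε c) := by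
  obtain ⟨i, s⟩ := a
  obtain ⟨j, t⟩ := b
  obtain ⟨l, u⟩ := c
  unfold chi at h ⊢
  simp only at h ⊢
  split_ifs at h ⊢ with h1 h2 h3 h4
  · subst h1 h2
    obtain ⟨j, hj⟩ := hd
    filter_upwards [self_mem_nhdsWithin] with ε h5
    rw [det_three]
    have h6 : (((t : ℝ) - s) * ((u : ℝ) - s) * ((u : ℝ) - t)) ≠ 0 := by exact_mod_cast h
    have := mul_pos (mul_pos (pow_pos (show 0 < ε from h5) 3) (mul_self_pos.2 h6)) (cross_pos hj)
    push_cast; linarith
  · subst h1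
    exact ev_two p d i s t (l, u) h
  · subst h3
    filter_upwards [ev_two p d i u s (j, t) h] with ε h5
    rwa [det3_rot] 
  · subst h4
    filter_upwards [ev_two p d j t u (i, s) h] with ε h5
    rwa [← det3_rot]
  · refine ev_pos (by simp only [Q, det3]; fun_prop) ?_
    have : det3 (Q p d 0 (i, s)) (Q p d 0 (j, t)) (Q p d 0 (l, u)) = (det3 (p i) (p j) (p l) : ℤ) := by
      simp [Q, det3_toR]
    simp only [this]
    exact mul_self_pos.2 (by exact_mod_cast h)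

/-- The base configuration is in general position. -/
structure Base (m : ℕ) (σ : ℕ → ℕ → ℤ) : Prop where
  two : 2 ≤ m
  gen : ∀ i < m, ∀ j < m, ∀ l < m, i ≠ j → i ≠ l → j ≠ l → det3 (p i) (p j) (p l) ≠ 0
  side : ∀ i < m, ∀ j < m, i ≠ j → D p d i j ≠ 0
  symm : ∀ i < m, ∀ j < m, σ i j = σ j i
  diag : ∀ i < m, σ i i = 1
  unit : ∀ i j, σ i j = 1 ∨ σ i j = -1

variable {p d} {m : ℕ} {σ : ℕ → ℕ → ℤ}

theorem Base.chi_ne (B : Base p d m σ) {a b c : ℕ × ℕ} (ha : a.1 < m) (hb : b.1 < m) (hc : c.1 < m)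
    (h1 : a ≠ b) (h2 : c ≠ a) (h3 : c ≠ b) : chi p d a b c ≠ 0 := by
  obtain ⟨i, s⟩ := a
  obtain ⟨j, t⟩ := b
  obtain ⟨l, u⟩ := c
  simp only [ne_eq, Prod.mk.injEq, not_and] at h1 h2 h3
  unfold chi
  simp only
  split_ifs with e1 e2 e3 e4
  · have := h1 e1
    have := h2 e2.symm
    have := h3 (e2.symm.trans e1)
    exact mul_ne_zero (mul_ne_zero (by omega) (by omega)) (by omega)
  · have := h1 e1
    exact mul_ne_zero (by omega) (B.side _ ha _ hc e2)
  · have := h2 e3.symm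
    exact mul_ne_zero (by omega) (B.side _ ha _ hb e1)
  · have := h3 e4.symm
    exact mul_ne_zero (by omega) (B.side _ hb _ ha (Ne.symm e1))
  · exact B.gen _ ha _ hb _ hc e1 e3 e4

variable (p d σ) in
/-- The combinatorial crossing condition. -/
def XC (a b c e : ℕ × ℕ) : Prop :=
  σ a.1 b.1 * (chi p d c e a * chi p d c e b) < 0 ∧ σ c.1 e.1 * (chi p d a b c * chi p d a b e) < 0

theorem chi_self1 (a b : ℕ × ℕ) : chi p d a b a = 0 := by
  unfold chi; split_ifs <;> simp_all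

theorem chi_self2 (a b : ℕ × ℕ) : chi p d a b b = 0 := by
  unfold chi; split_ifs <;> simp_all

theorem sgn_aux {s x y x' y' : ℝ} (h : s * (x * y) < 0) (h1 : 0 < x' * x) (h2 : 0 < y' * y) :
    s * (x' * y') < 0 := by
  by_contra h3
  have h4 := mul_neg_of_neg_of_pos h (mul_pos h1 h2)
  have h5 := mul_nonneg (not_lt.1 h3) (sq_nonneg (x * y))
  nlinarith

theorem Base.exists_gen (B : Base p d m σ) {v : ℕ} (hv : 3 ≤ v) (ι : Fin v → ℕ × ℕ)
    (hι : Function.Injective ι) (hm : ∀ a, (ι a).1 < m) :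
    ∃ G : Gen v, ∀ a b c e, G.X a b c e → XC p d σ (ι a) (ι b) (ι c) (ι e) := by
  have h : ∀ᶠ ε in 𝓝[>] (0 : ℝ), ∀ a b c : Fin v, a ≠ b → c ≠ a → c ≠ b →
      0 < (chi p d (ι a) (ι b) (ι c) : ℝ) * det3 (Q p d ε (ι a)) (Q p d ε (ι b)) (Q p d ε (ι c)) := by
    simp only [eventually_all]
    intro a b c h1 h2 h3
    refine ev_chi p d _ _ _ ?_ (B.chi_ne (hm a) (hm b) (hm c) (hι.ne h1) (hι.ne h2) (hι.ne h3))
    have := B.two
    have := hm a
    by_cases h0 : (ι a).1 = 0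
    · exact ⟨1, B.side _ (hm a) _ (by omega) (by omega)⟩
    · exact ⟨0, B.side _ (hm a) _ (by omega) h0⟩
  obtain ⟨ε, hε⟩ := h.exists
  refine ⟨⟨fun a => Q p d ε (ι a), fun a b => σ (ι a).1 (ι b).1, fun a b => ?_, fun a b => ?_,
    fun a b c h1 h2 h3 h4 => ?_⟩, fun a b c e hX => ?_⟩
  · rcases B.unit (ι a).1 (ι b).1 with h | h <;> simp [h]
  · by_contra h1
    push Not at h1
    have e0 := h1 ⟨0, by omega⟩
    have e1 := h1 ⟨1, by omega⟩
    have e2 := h1 ⟨2, by omega⟩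
    simp only [ne_eq, Fin.ext_iff] at e0 e1 e2
    omega
  · have := hε a b c h1 h2 h3
    rw [h4] at this
    simp at this
  · obtain ⟨h1, h2⟩ := hX
    simp only at h1 h2
    have n1 : ∀ {x y z w : Fin v} {s : ℝ}, s * (det3 (Q p d ε (ι x)) (Q p d ε (ι y)) (Q p d ε (ι z)) *
        det3 (Q p d ε (ι x)) (Q p d ε (ι y)) (Q p d ε (ι w))) < 0 →
        s * ((chi p d (ι x) (ι y) (ι z) : ℝ) * chi p d (ι x) (ι y) (ι w)) < 0 := by
      intro x y z w s h
      have a1 : x ≠ y := by rintro rfl; rw [← det3_rot, det3_self1] at h; simp at h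
      have a2 : z ≠ x := by rintro rfl; simp [det3_self1] at h
      have a3 : z ≠ y := by rintro rfl; simp [det3_self2] at h
      have a4 : w ≠ x := by rintro rfl; simp [det3_self1] at h
      have a5 : w ≠ y := by rintro rfl; simp [det3_self2] at h
      exact sgn_aux h (hε x y z a1 a2 a3) (hε x y w a1 a4 a5)
    exact ⟨by exact_mod_cast n1 h1, by exact_mod_cast n1 h2⟩

end Pool.Agent.MP_d7736f_co.RP
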