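import Pool.Agent.MP_d7736f_co.RPData

namespace Pool.Agent.MP_d7736f_co.RP

theorem cnt0 : cntB 0 = 794442 := by decide +kernel

theorem chk0 : chkB 0 := by decide +kernel

theorem cnt1 : cntB 1 = 794140 := by decide +kernel

theorem chk1 : chkB 1 := by decide +kernel

theorem cnt2 : cntB 2 = 794938 := by decide +kernel

theorem chk2 : chkB 2 := by decide +kernel

theorem cnt3 : cntB 3 = 794980 := by decide +kernel

theorem chk3 : chkB 3 := by decide +kernel

theorem cnt4 : cntB 4 = 794734 := by decide +kernel

theorem chk4 : chkB 4 := by decide +kernel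

theorem cnt5 : cntB 5 = 794916 := by decide +kernel

theorem chk5 : chkB 5 := by decide +kernel


end Pool.Agent.MP_d7736f_co.RP
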