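import Pool.Agent.MP_d7736f_co.RPData

namespace Pool.Agent.MP_d7736f_co.RP

theorem cnt6 : cntB 6 = 794554 := by decide +kernel

theorem chk6 : chkB 6 := by decide +kernel

theorem cnt7 : cntB 7 = 793780 := by decide +kernel

theorem chk7 : chkB 7 := by decide +kernel

theorem cnt8 : cntB 8 = 794838 := by decide +kernel

theorem chk8 : chkB 8 := by decide +kernel

theorem cnt9 : cntB 9 = 793990 := by decide +kernel

theorem chk9 : chkB 9 := by decide +kernel

theorem cnt10 : cntB 10 = 794726 := by decide +kernel

theorem chk10 : chkB 10 := by decide +kernel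

theorem cnt11 : cntB 11 = 794894 := by decide +kernel

theorem chk11 : chkB 11 := by decide +kernel


end Pool.Agent.MP_d7736f_co.RP
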