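import Pool.Agent.MP_d7736f_co.RPData

namespace Pool.Agent.MP_d7736f_co.RP

theorem cnt12 : cntB 12 = 793792 := by decide +kernel

theorem chk12 : chkB 12 := by decide +kernel

theorem cnt13 : cntB 13 = 794666 := by decide +kernel

theorem chk13 : chkB 13 := by decide +kernel

theorem cnt14 : cntB 14 = 794620 := by decide +kernel

theorem chk14 : chkB 14 := by decide +kernel

theorem cnt15 : cntB 15 = 794314 := by decide +kernel

theorem chk15 : chkB 15 := by decide +kernel

theorem cnt16 : cntB 16 = 794452 := by decide +kernel

theorem chk16 : chkB 16 := by decide +kernel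

theorem cnt17 : cntB 17 = 794486 := by decide +kernel

theorem chk17 : chkB 17 := by decide +kernel


end Pool.Agent.MP_d7736f_co.RP
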