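import Pool.Agent.MP_d7736f_co.RPData

namespace Pool.Agent.MP_d7736f_co.RP

theorem cnt18 : cntB 18 = 794034 := by decide +kernel

theorem chk18 : chkB 18 := by decide +kernel

theorem cnt19 : cntB 19 = 795018 := by decide +kernel

theorem chk19 : chkB 19 := by decide +kernel

theorem cnt20 : cntB 20 = 794326 := by decide +kernel

theorem chk20 : chkB 20 := by decide +kernel

theorem cnt21 : cntB 21 = 794302 := by decide +kernel

theorem chk21 : chkB 21 := by decide +kernel

theorem cnt22 : cntB 22 = 795072 := by decide +kernel

theorem chk22 : chkB 22 := by decide +kernel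

theorem cnt23 : cntB 23 = 794314 := by decide +kernel

theorem chk23 : chkB 23 := by decide +kernel


end Pool.Agent.MP_d7736f_co.RP
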