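import Pool.Agent.MP_d7736f_co.RPBlow

namespace Pool.Agent.MP_d7736f_co.RP

open Finset

theorem half_le {α : Type} [Fintype α] (f : α → α) (hf : Function.Injective f) (P Q : α → Prop)
    [DecidablePred P] [DecidablePred Q] [DecidablePred fun x => P x ∧ Q x]
    (h : ∀ x, P x → Q x → P (f x) ∧ ¬Q (f x)) :
    2 * #{x | P x ∧ Q x} ≤ #{x | P x} := by
  have h1 : #{x | P x ∧ Q x} ≤ #{x ∈ univ.filter P | ¬Q x} :=
    card_le_card_of_injOn f (fun x hx => by simp_all) hf.injOn
  have h2 := card_filter_add_card_filter_not (s := univ.filter P) Q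
  have h3 : #{x | P x ∧ Q x} = #((univ.filter P).filter Q) := by congr 1; ext; simp
  show _ ≤ #(univ.filter P)
  omega

theorem half_univ {α : Type} [Fintype α] (f : α → α) (hf : Function.Injective f) (Q : α → Prop)
    [DecidablePred Q] (h : ∀ x, Q x → ¬Q (f x)) : 2 * #{x | Q x} ≤ Fintype.card α := by
  classical
  have := half_le f hf (fun _ => True) Q (fun x _ hx => ⟨trivial, h x hx⟩)
  simpa using this

theorem third_univ {α : Type} [Fintype α] (r : α ≃ α) (P : α → Prop) [DecidablePred P]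
    (h1 : ∀ x, P x → ¬P (r x)) (h2 : ∀ x, P x → ¬P (r (r x))) :
    3 * #{x | P x} ≤ Fintype.card α := by
  classical
  show 3 * #(univ.filter P) ≤ _
  have e1 : #{x | P (r x)} = #(univ.filter P) := card_equiv r (by simp)
  have e2 : #{x | P (r (r x))} = #{x | P (r x)} := card_equiv r (by simp)
  have d1 : Disjoint (univ.filter P) (univ.filter fun x => P (r x)) := by
    rw [disjoint_left]; simpa using h1
  have d2 : Disjoint (univ.filter P ∪ univ.filter fun x => P (r x))
      (univ.filter fun x => P (r (r x))) := by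
    rw [disjoint_left]
    intro x hx
    simp only [mem_union, mem_filter, mem_univ, true_and] at hx ⊢
    exact hx.elim (h2 x) (h1 _)
  have := card_le_univ ((univ.filter P ∪ univ.filter fun x => P (r x)) ∪
    univ.filter fun x => P (r (r x)))
  rw [card_union_of_disjoint d2, card_union_of_disjoint d1] at this
  omega

variable {p d : ℕ → Z3} {m : ℕ} {σ : ℕ → ℕ → ℤ}

theorem chi_swap (a b c : ℕ × ℕ) : chi p d b a c = -chi p d a b c := by
  obtain ⟨i, s⟩ := a
  obtain ⟨j, t⟩ := b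
  obtain ⟨l, u⟩ := c
  unfold chi
  simp only
  by_cases h1 : i = j
  · subst h1
    simp only [if_true]
    split_ifs <;> ring
  · rw [if_neg h1, if_neg (Ne.symm h1)]
    by_cases h2 : i = l
    · subst h2
      simp only [if_true, if_neg (Ne.symm h1)]; ring
    · simp only [if_neg h2]
      split_ifs
      · ring
      · exact det3_swap _ _ _

theorem XC.swapP {a b c e : ℕ × ℕ} (h : XC p d σ a b c e) : XC p d σ c e a b := ⟨h.2, h.1⟩

theorem XC.swap12 (B : Base p d m σ) {a b c e : ℕ × ℕ} (ha : a.1 < m) (hb : b.1 < m)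
    (h : XC p d σ a b c e) : XC p d σ b a c e := by
  unfold XC at h ⊢
  rw [B.symm _ hb _ ha, chi_swap a b c, chi_swap a b e, mul_comm (chi p d c e b), neg_mul_neg]
  exact h

abbrev F4 (k : ℕ) : Type := Fin k × Fin k × Fin k × Fin k

variable (p d σ) in
open Classical in
/-- Number of crossings between given clusters. -/
noncomputable def NN (k i j l n : ℕ) : ℕ :=
  #{y : F4 k | XC p d σ (i, y.1) (j, y.2.1) (l, y.2.2.1) (n, y.2.2.2)}

theorem card_F4 (k : ℕ) : Fintype.card (F4 k) = k ^ 4 := by simp; ring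

theorem NN_swapP (k i j l n : ℕ) : NN p d σ k i j l n ≤ NN p d σ k l n i j := by
  classical
  refine card_le_card_of_injOn (fun y => (y.2.2.1, y.2.2.2, y.1, y.2.1)) (fun y hy => ?_) ?_
  · simp only [coe_filter, mem_univ, true_and, Set.mem_ofPred_eq] at hy ⊢
    exact hy.swapP
  · intro x _ y _ h
    simp only [Prod.mk.injEq] at h
    exact Prod.ext h.2.2.1 (Prod.ext h.2.2.2 (Prod.ext h.1 h.2.1))

theorem NN_swap12 (B : Base p d m σ) (k : ℕ) {i j : ℕ} (l n : ℕ) (hi : i < m) (hj : j < m) :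
    NN p d σ k i j l n ≤ NN p d σ k j i l n := by
  classical
  refine card_le_card_of_injOn (fun y => (y.2.1, y.1, y.2.2)) (fun y hy => ?_) ?_
  · simp only [coe_filter, mem_univ, true_and, Set.mem_ofPred_eq] at hy ⊢
    exact hy.swap12 B hi hj
  · intro x _ y _ h
    simp only [Prod.mk.injEq] at h
    exact Prod.ext h.2.1 (Prod.ext h.1 h.2.2)

theorem NN_swap34 (B : Base p d m σ) (k : ℕ) (i j : ℕ) {l n : ℕ} (hl : l < m) (hn : n < m) :
    NN p d σ k i j l n ≤ NN p d σ k i j n l :=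
  (NN_swapP k i j l n).trans ((NN_swap12 B k i j hl hn).trans (NN_swapP k n l i j))

variable (p σ) in
/-- Crossing in the base configuration. -/
def X0 (i j l n : ℕ) : Prop :=
  σ i j * (det3 (p l) (p n) (p i) * det3 (p l) (p n) (p j)) < 0 ∧
    σ l n * (det3 (p i) (p j) (p l) * det3 (p i) (p j) (p n)) < 0

instance (i j l n : ℕ) : Decidable (X0 p σ i j l n) := by unfold X0; infer_instance

theorem NN_zero {k i j l n : ℕ} (h : ∀ s t u w, ¬XC p d σ (i, s) (j, t) (l, u) (n, w)) :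
    NN p d σ k i j l n = 0 := by
  classical
  exact card_eq_zero.2 (filter_eq_empty_iff.2 fun y _ => h _ _ _ _)

theorem loop_no (B : Base p d m σ) {i l n : ℕ} (hi : i < m) (h1 : i ≠ l) (h2 : i ≠ n)
    (s t u w : ℕ) : ¬XC p d σ (i, s) (i, t) (l, u) (n, w) := by
  intro h
  have := h.1
  simp only [chi, B.diag i hi, one_mul, if_neg h1.symm, if_neg h2.symm] at this
  exact absurd this (not_lt.2 (mul_self_nonneg _))

theorem L0 (B : Base p d m σ) (k : ℕ) {i j l n : ℕ} (hi : i < m) (hl : l < m) (h1 : i ≠ l)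
    (h2 : i ≠ n) (h3 : j ≠ l) (h4 : j ≠ n) :
    NN p d σ k i j l n ≤ (if X0 p σ i j l n then 1 else 0) * k ^ 4 := by
  split_ifs with h
  · rw [one_mul, ← card_F4]; exact card_le_univ _
  · refine le_of_eq_of_le (NN_zero fun s t u w hX => ?_) (zero_le)
    by_cases e1 : i = j
    · subst e1; exact loop_no B hi h1 h2 _ _ _ _ hX
    by_cases e2 : l = n
    · subst e2; exact loop_no B hl h1.symm h3.symm _ _ _ _ hX.swapP
    apply h
    simpa only [XC, X0, chi, if_neg e1, if_neg e2, if_neg h1, if_neg h2, if_neg h3, if_neg h4,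
      if_neg h1.symm, if_neg h2.symm, if_neg h3.symm, if_neg h4.symm] using hX

variable (p d σ) in
/-- The side of the chord direction. -/
def tau (i j : ℕ) : Prop := 0 < σ i j * D p d i j

instance (i j : ℕ) : Decidable (tau p d σ i j) := by unfold tau; infer_instance

def sw (k : ℕ) (y : F4 k) : F4 k := (y.2.2.1, y.2.1, y.1, y.2.2.2)

theorem sw_inj (k : ℕ) : Function.Injective (sw k) :=
  Function.Involutive.injective fun _ => rfl

theorem L2 (k : ℕ) {i j n : ℕ} (h1 : i ≠ j) (h2 : i ≠ n) (h3 : j ≠ n) :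
    12 * NN p d σ k i j i n ≤ (if (tau p d σ i j ↔ tau p d σ i n) then 6 else 0) * k ^ 4 := by
  classical
  have key : ∀ s t u w, XC p d σ (i, s) (j, t) (i, u) (n, w) ↔
      σ i j * D p d i n * (((s : ℤ) - u) * det3 (p i) (p j) (p n)) < 0 ∧
      σ i n * D p d i j * (((s : ℤ) - u) * det3 (p i) (p j) (p n)) < 0 := by
    intro s t u w
    have e : det3 (p i) (p n) (p j) = -det3 (p i) (p j) (p n) := by simp only [det3]; ring
    simp only [XC, chi, if_neg h1, if_neg h2, if_neg h3, if_neg h3.symm, if_true, e]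
    refine and_congr (iff_of_eq ?_) (iff_of_eq ?_) <;> congr 1 <;> ring
  split_ifs with h
  · have := half_univ (sw k) (sw_inj k)
      (fun y => XC p d σ (i, y.1) (j, y.2.1) (i, y.2.2.1) (n, y.2.2.2)) (fun y hy hy' => by
        have a1 := ((key _ _ _ _).1 hy).1
        have a2 := ((key _ _ _ _).1 hy').1
        simp only [sw] at a2
        linarith)
    rw [card_F4] at this
    unfold NN
    omega
  · rw [NN_zero fun s t u w hX => h ?_]
    · simp
    obtain ⟨a1, a2⟩ := (key _ _ _ _).1 hX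
    have a3 := mul_pos_of_neg_of_neg a1 a2
    have a4 : 0 < (σ i j * D p d i j) * (σ i n * D p d i n) := by
      by_contra a5
      have := mul_nonneg (neg_nonneg.2 (not_lt.1 a5))
        (sq_nonneg (((s : ℤ) - u) * det3 (p i) (p j) (p n)))
      linarith
    unfold tau
    rcases pos_and_pos_or_neg_and_neg_of_mul_pos a4 with a | a
    · simp [a.1, a.2]
    · simp [a.1.not_gt, a.2.not_gt]

theorem L3 (k : ℕ) {i j : ℕ} (h1 : i ≠ j) : 12 * NN p d σ k i j i j ≤ 6 * k ^ 4 := by
  classical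
  have := half_univ (sw k) (sw_inj k)
    (fun y => XC p d σ (i, y.1) (j, y.2.1) (i, y.2.2.1) (j, y.2.2.2)) (fun y hy hy' => by
      have a1 := hy.1
      have a2 := hy'.1
      simp only [sw, chi, if_neg h1, if_true] at a1 a2
      linarith)
  rw [card_F4] at this
  unfold NN
  omega

def rot3 (k : ℕ) : F4 k ≃ F4 k :=
  ⟨fun y => (y.2.1, y.2.2.1, y.1, y.2.2.2), fun y => (y.2.2.1, y.1, y.2.1, y.2.2.2),
    fun _ => rfl, fun _ => rfl⟩

def rot4 (k : ℕ) : F4 k ≃ F4 k :=
  ⟨fun y => (y.1, y.2.2.1, y.2.2.2, y.2.1), fun y => (y.1, y.2.2.2, y.2.1, y.2.2.1),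
    fun _ => rfl, fun _ => rfl⟩

theorem neg_of_sq {x y : ℤ} (h : y ^ 2 * x < 0) : x < 0 := by
  by_contra h1
  have := mul_nonneg (sq_nonneg y) (not_lt.1 h1)
  linarith

theorem L4 (B : Base p d m σ) (k : ℕ) {i n : ℕ} (hi : i < m) (h1 : i ≠ n) :
    12 * NN p d σ k i i i n ≤ (if tau p d σ i n then 4 else 0) * k ^ 4 := by
  classical
  have key : ∀ s t u w, XC p d σ (i, s) (i, t) (i, u) (n, w) →
      ((u : ℤ) - s) * (u - t) < 0 ∧ tau p d σ i n := by
    intro s t u w h
    obtain ⟨a1, a2⟩ := h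
    simp only [chi, if_neg h1, if_true, B.diag i hi] at a1 a2
    have a3 : ((u : ℤ) - s) * (u - t) < 0 := neg_of_sq (y := D p d i n) (by linarith)
    refine ⟨a3, ?_⟩
    have a4 : (((u : ℤ) - s) * (u - t)) * (σ i n * D p d i n) < 0 :=
      neg_of_sq (y := (t : ℤ) - s) (by linarith)
    exact pos_of_mul_neg_right a4 a3.le
  split_ifs with h
  · have := third_univ (rot3 k)
      (fun y => XC p d σ (i, y.1) (i, y.2.1) (i, y.2.2.1) (n, y.2.2.2)) (fun y hy hy' => by
        have a1 := (key _ _ _ _ hy).1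
        have a2 := (key _ _ _ _ hy').1
        simp only [rot3, Equiv.coe_fn_mk] at a2
        nlinarith [sq_nonneg ((y.2.2.1 : ℤ) - y.1)]) (fun y hy hy' => by
        have a1 := (key _ _ _ _ hy).1
        have a2 := (key _ _ _ _ hy').1
        simp only [rot3, Equiv.coe_fn_mk] at a2
        nlinarith [sq_nonneg ((y.2.2.1 : ℤ) - y.2.1)])
    rw [card_F4] at this
    unfold NN
    omega
  · rw [NN_zero fun s t u w hX => h (key _ _ _ _ hX).2]
    simp

theorem L5 (B : Base p d m σ) (k : ℕ) {i : ℕ} (hi : i < m) :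
    12 * NN p d σ k i i i i ≤ 4 * k ^ 4 := by
  classical
  have key : ∀ s t u w, XC p d σ (i, s) (i, t) (i, u) (i, w) →
      (((s : ℤ) - u) * (t - w)) * ((s - w) * (t - u)) < 0 := by
    intro s t u w h
    have a2 := h.2
    simp only [chi, if_true, B.diag i hi] at a2
    exact neg_of_sq (y := (t : ℤ) - s) (by linarith)
  have := third_univ (rot4 k)
    (fun y => XC p d σ (i, y.1) (i, y.2.1) (i, y.2.2.1) (i, y.2.2.2)) (fun y hy hy' => by
      have a1 := key _ _ _ _ hy
      have a2 := key _ _ _ _ hy'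
      simp only [rot4, Equiv.coe_fn_mk] at a2
      nlinarith [sq_nonneg (((y.1 : ℤ) - y.2.2.2) * (y.2.1 - y.2.2.1))]) (fun y hy hy' => by
      have a1 := key _ _ _ _ hy
      have a2 := key _ _ _ _ hy'
      simp only [rot4, Equiv.coe_fn_mk] at a2
      nlinarith [sq_nonneg (((y.1 : ℤ) - y.2.2.1) * (y.2.1 - y.2.2.2))])
  rw [card_F4] at this
  unfold NN
  omega

variable (p d σ) in
/-- Local weights. -/
def gw (i j n : ℕ) : ℕ :=
  if i = j then (if i = n then 1 else if tau p d σ i n then 2 else 0)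
  else if i = n then (if tau p d σ i j then 2 else 0)
  else if j = n then 3 else if (tau p d σ i j ↔ tau p d σ i n) then 6 else 0

variable (p d σ) in
def ww (i j l n : ℕ) : ℕ :=
  (if i = l then gw p d σ i j n else 0) + (if i = n then gw p d σ i j l else 0) +
    (if j = l then gw p d σ j i n else 0) + (if j = n then gw p d σ j i l else 0)

theorem LV (B : Base p d m σ) (k : ℕ) {i : ℕ} (hi : i < m) (j n : ℕ) :
    12 * NN p d σ k i j i n ≤ ww p d σ i j i n * k ^ 4 := by
  by_cases h1 : i = j <;> by_cases h2 : i = n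
  · subst h1 h2
    simpa [ww, gw] using L5 B k hi
  · subst h1
    refine (L4 B k hi h2).trans (le_of_eq ?_)
    simp only [ww, gw, if_true, if_neg h2]
    split_ifs <;> rfl
  · subst h2
    refine ((Nat.mul_le_mul_left _ (NN_swapP k i j i i)).trans (L4 B k hi h1)).trans (le_of_eq ?_)
    simp only [ww, gw, if_true, if_neg h1, if_neg (Ne.symm h1)]
    split_ifs <;> rfl
  · by_cases h3 : j = n
    · subst h3
      simpa [ww, gw, h1, Ne.symm h1] using L3 k h1
    · simpa [ww, gw, h1, Ne.symm h1, h2, h3] using L2 k h1 h2 h3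

theorem NN_le (B : Base p d m σ) (k : ℕ) {i j l n : ℕ} (hi : i < m) (hj : j < m) (hl : l < m)
    (hn : n < m) : 12 * NN p d σ k i j l n ≤
      (12 * (if X0 p σ i j l n then 1 else 0) + ww p d σ i j l n) * k ^ 4 := by
  have s12 : ∀ i j l n, ww p d σ i j l n = ww p d σ j i l n := fun i j l n => by
    unfold ww; omega
  have s34 : ∀ i j l n, ww p d σ i j l n = ww p d σ i j n l := fun i j l n => by
    unfold ww; omega
  rw [add_mul]
  by_cases h1 : i = l
  · subst h1; exact le_add_left (LV B k hi j n)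
  by_cases h2 : i = n
  · subst h2
    rw [s34]
    exact le_add_left ((Nat.mul_le_mul_left _ (NN_swap34 B k _ _ hl hi)).trans (LV B k hi j l))
  by_cases h3 : j = l
  · subst h3
    rw [s12]
    exact le_add_left ((Nat.mul_le_mul_left _ (NN_swap12 B k _ _ hi hj)).trans (LV B k hj i n))
  by_cases h4 : j = n
  · subst h4
    rw [s12, s34]
    exact le_add_left ((Nat.mul_le_mul_left _ ((NN_swap12 B k _ _ hi hj).trans
      (NN_swap34 B k _ _ hl hj))).trans (LV B k hj i l))
  · rw [mul_assoc]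
    exact le_add_right (Nat.mul_le_mul_left _ (L0 B k hi hl h1 h2 h3 h4))

variable (p σ) in
/-- Ordered crossing quadruples of the base configuration. -/
def N0 (m : ℕ) : ℕ :=
  ∑ i ∈ range m, ∑ j ∈ range m, ∑ l ∈ range m, ∑ n ∈ range m, if X0 p σ i j l n then 1 else 0

variable (p d σ) in
def GG (m : ℕ) : ℕ := ∑ i ∈ range m, ∑ j ∈ range m, ∑ n ∈ range m, gw p d σ i j n

theorem sum_ww : ∑ i ∈ range m, ∑ j ∈ range m, ∑ l ∈ range m, ∑ n ∈ range m, ww p d σ i j l n =
    4 * GG p d σ m := by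
  have e1 : ∀ (f : ℕ → ℕ) (i), i ∈ range m →
      ∑ l ∈ range m, ∑ n ∈ range m, (if i = l then f n else 0) = ∑ n ∈ range m, f n := by
    intro f i hi
    rw [sum_comm]
    exact sum_congr rfl fun n _ => by rw [sum_ite_eq, if_pos hi]
  have e2 : ∀ (f : ℕ → ℕ) (i), i ∈ range m →
      ∑ l ∈ range m, ∑ n ∈ range m, (if i = n then f l else 0) = ∑ n ∈ range m, f n := by
    intro f i hi
    exact sum_congr rfl fun n _ => by rw [sum_ite_eq, if_pos hi]
  have e3 : ∀ i ∈ range m, ∀ j ∈ range m, ∑ l ∈ range m, ∑ n ∈ range m, ww p d σ i j l n =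
      2 * ∑ n ∈ range m, gw p d σ i j n + 2 * ∑ n ∈ range m, gw p d σ j i n := by
    intro i hi j hj
    simp only [ww, sum_add_distrib]
    rw [e1 _ i hi, e2 _ i hi, e1 _ j hj, e2 _ j hj]
    ring
  rw [sum_congr rfl fun i hi => sum_congr rfl fun j hj => e3 i hi j hj]
  simp only [sum_add_distrib, ← mul_sum]
  rw [sum_comm (f := fun i j => ∑ n ∈ range m, gw p d σ j i n), GG]
  ring

variable (p d σ) in
/-- Number of vertices on the chord side. -/
def LL (m i : ℕ) : ℕ := ∑ j ∈ range m, if i ≠ j ∧ tau p d σ i j then 1 else 0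

theorem sum_gw {i : ℕ} (hi : i < m) :
    ∑ j ∈ range m, ∑ n ∈ range m, gw p d σ i j n + 3 * m =
      4 + 4 * LL p d σ m i + 6 * LL p d σ m i ^ 2 + 6 * (m - 1 - LL p d σ m i) ^ 2 := by
  set a : ℕ → ℕ := fun j => if i ≠ j ∧ tau p d σ i j then 1 else 0 with ha
  set b : ℕ → ℕ := fun j => if i ≠ j ∧ ¬tau p d σ i j then 1 else 0 with hb
  set e : ℕ → ℕ := fun j => if i = j then 1 else 0 with he
  have h1 : ∀ j n, gw p d σ i j n + (if j = n then 3 else 0) =
      4 * (e j * e n) + 2 * (e j * a n) + 2 * (a j * e n) + 6 * (a j * a n) + 6 * (b j * b n) := by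
    intro j n
    simp only [gw, ha, hb, he]
    by_cases c1 : i = j <;> by_cases c2 : i = n <;> by_cases c3 : j = n <;>
      by_cases c4 : tau p d σ i j <;> by_cases c5 : tau p d σ i n <;> simp_all
  have h2 : ∑ j ∈ range m, e j = 1 := by simp [he, hi]
  have h3 : ∑ j ∈ range m, a j = LL p d σ m i := rfl
  have h4 : ∑ j ∈ range m, (e j + a j + b j) = m := by
    rw [sum_congr rfl (g := fun _ => 1)]
    · simp
    · intro j _
      simp only [ha, hb, he]
      by_cases c1 : i = j <;> by_cases c4 : tau p d σ i j <;> simp_all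
  have h5 : ∑ j ∈ range m, b j = m - 1 - LL p d σ m i := by
    rw [sum_add_distrib, sum_add_distrib] at h4
    omega
  have h6 : ∑ j ∈ range m, ∑ n ∈ range m, (if j = n then 3 else 0) = 3 * m := by
    rw [sum_congr rfl (g := fun _ => 3)]
    · simp [mul_comm]
    · intro j hj
      rw [sum_ite_eq, if_pos hj]
  rw [← h6, ← sum_add_distrib]
  simp only [← sum_add_distrib, h1]
  simp only [sum_add_distrib, ← mul_sum, ← sum_mul, h2, h3, h5]
  ring

theorem Base.bound (B : Base p d m σ) {v k : ℕ} (hv : 3 ≤ v) (hk : v ≤ m * k) :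
    ∃ c : ℕ, crossingNumber ProjPlane v = c ∧
      96 * c ≤ (12 * N0 p σ m + 4 * GG p d σ m) * k ^ 4 := by
  classical
  have hm : 0 < m := by have := B.two; omega
  set ι : Fin v → ℕ × ℕ := fun x => (x % m, x / m) with hι
  have h1 : ∀ a, (ι a).1 < m := fun a => Nat.mod_lt _ hm
  have h2 : ∀ a, (ι a).2 < k := fun a => Nat.div_lt_of_lt_mul (lt_of_lt_of_le a.2 hk)
  have h3 : Function.Injective ι := by
    intro a b h
    simp only [hι, Prod.mk.injEq] at h
    apply Fin.ext
    rw [← Nat.mod_add_div a m, ← Nat.mod_add_div b m, h.1, h.2]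
  obtain ⟨G, hG⟩ := B.exists_gen hv ι h3 h1
  set P : F4 v → Prop := fun x => XC p d σ (ι x.1) (ι x.2.1) (ι x.2.2.1) (ι x.2.2.2) with hP
  have a1 := half_le (fun x : F4 v => (x.2.1, x.1, x.2.2))
    (Function.Involutive.injective fun _ => rfl) P (fun x => x.1 < x.2.1)
    (fun x hx h => ⟨XC.swap12 B (h1 _) (h1 _) hx, h.not_gt⟩)
  have a2 := half_le (fun x : F4 v => (x.1, x.2.1, x.2.2.2, x.2.2.1))
    (Function.Involutive.injective fun _ => rfl) (fun x => P x ∧ x.1 < x.2.1)
    (fun x => x.2.2.1 < x.2.2.2)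
    (fun x hx h => ⟨⟨(XC.swap12 B (h1 _) (h1 _) (XC.swapP hx.1)).swapP, hx.2⟩, h.not_gt⟩)
  have a3 := half_le (fun x : F4 v => (x.2.2.1, x.2.2.2, x.1, x.2.1))
    (Function.Involutive.injective fun _ => rfl)
    (fun x => (P x ∧ x.1 < x.2.1) ∧ x.2.2.1 < x.2.2.2) (fun x => x.1 < x.2.2.1)
    (fun x hx h => ⟨⟨⟨XC.swapP hx.1.1, hx.2⟩, hx.1.2⟩, h.not_gt⟩)
  have a4 : #{x : F4 v | G.X x.1 x.2.1 x.2.2.1 x.2.2.2 ∧ x.1 < x.2.1 ∧ x.2.2.1 < x.2.2.2 ∧
      x.1 < x.2.2.1} ≤ #{x | ((P x ∧ x.1 < x.2.1) ∧ x.2.2.1 < x.2.2.2) ∧ x.1 < x.2.2.1} :=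
    card_le_card fun x hx => by
      simp only [mem_filter, mem_univ, true_and] at hx ⊢
      exact ⟨⟨⟨hG _ _ _ _ hx.1, hx.2.1⟩, hx.2.2.1⟩, hx.2.2.2⟩
  have a5 : #{x | P x} ≤ ∑ i ∈ range m, ∑ j ∈ range m, ∑ l ∈ range m, ∑ n ∈ range m,
      NN p d σ k i j l n := by
    have : ∑ i ∈ range m, ∑ j ∈ range m, ∑ l ∈ range m, ∑ n ∈ range m, NN p d σ k i j l n =
        #((range m ×ˢ range m ×ˢ range m ×ˢ range m).sigma fun q => univ.filter fun y : F4 k =>
          XC p d σ (q.1, y.1) (q.2.1, y.2.1) (q.2.2.1, y.2.2.1) (q.2.2.2, y.2.2.2)) := by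
      simp only [card_sigma, sum_product]; rfl
    rw [this]
    refine card_le_card_of_injOn (fun x => ⟨((ι x.1).1, (ι x.2.1).1, (ι x.2.2.1).1, (ι x.2.2.2).1),
      (⟨_, h2 x.1⟩, ⟨_, h2 x.2.1⟩, ⟨_, h2 x.2.2.1⟩, ⟨_, h2 x.2.2.2⟩)⟩) (fun x hx => ?_) ?_
    · simp only [coe_filter, mem_univ, true_and, Set.mem_ofPred_eq] at hx
      simp only [coe_sigma, coe_product, Set.mem_sigma_iff, Set.mem_prod, mem_coe, mem_range, h1,
        true_and, mem_filter, mem_univ]
      exact hx
    · intro x _ y _ h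
      simp only [Sigma.mk.injEq, Prod.mk.injEq, heq_eq_eq, Fin.mk.injEq] at h
      obtain ⟨⟨b1, b2, b3, b4⟩, c1, c2, c3, c4⟩ := h
      exact Prod.ext (h3 (Prod.ext b1 c1)) (Prod.ext (h3 (Prod.ext b2 c2))
        (Prod.ext (h3 (Prod.ext b3 c3)) (h3 (Prod.ext b4 c4))))
  have a6 : 12 * ∑ i ∈ range m, ∑ j ∈ range m, ∑ l ∈ range m, ∑ n ∈ range m, NN p d σ k i j l n ≤
      (12 * N0 p σ m + 4 * GG p d σ m) * k ^ 4 := by
    rw [← sum_ww, N0]
    simp only [mul_sum, ← sum_add_distrib, sum_mul]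
    exact sum_le_sum fun i hi => sum_le_sum fun j hj => sum_le_sum fun l hl => sum_le_sum
      fun n hn => NN_le B k (mem_range.1 hi) (mem_range.1 hj) (mem_range.1 hl) (mem_range.1 hn)
  have a7 := (iInf_le _ G.drawing : crossingNumber ProjPlane v ≤ _).trans G.crossings_le
  obtain ⟨c, hc⟩ := ENat.ne_top_iff_exists.1 (ne_top_of_le_ne_top (ENat.natCast_ne_top _) a7)
  refine ⟨c, hc.symm, ?_⟩
  rw [← hc, Nat.cast_le] at a7
  have a8 := a7.trans (le_of_eq_of_le (by congr) a4)
  omega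

end Pool.Agent.MP_d7736f_co.RP
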