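import Pool.Agent.MP_d7736f_co.Defs

namespace Pool.Agent.MP_d7736f_co

/-- The real projective plane: nonzero vectors of three-space up to nonzero scalars, with the
quotient topology. -/
abbrev ProjPlane : Type := Quotient (projectivizationSetoid ℝ (ℝ × ℝ × ℝ))

end Pool.Agent.MP_d7736f_co
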