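import Pool.Agent.MP_d7736f_co.RPChk0
import Pool.Agent.MP_d7736f_co.RPChk1
import Pool.Agent.MP_d7736f_co.RPChk2
import Pool.Agent.MP_d7736f_co.RPChk3

namespace Pool.Agent.MP_d7736f_co.RP

theorem chk_all (q : ℕ) (hq : q < 24) : chkB q := by
  interval_cases q
  exacts [chk0, chk1, chk2, chk3, chk4, chk5, chk6, chk7, chk8, chk9, chk10, chk11, chk12, chk13, chk14, chk15, chk16, chk17, chk18, chk19, chk20, chk21, chk22, chk23]

theorem cnt_all : ∑ a ∈ Finset.range 120, cntA a = 19068328 := by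
  rw [show 120 = 5 * 24 from rfl, sum_range_blocks]
  show ∑ q ∈ Finset.range 24, cntB q = _
  simp only [Finset.sum_range_succ, Finset.sum_range_zero, cnt0, cnt1, cnt2, cnt3, cnt4, cnt5, cnt6, cnt7, cnt8, cnt9, cnt10, cnt11, cnt12, cnt13, cnt14, cnt15, cnt16, cnt17, cnt18, cnt19, cnt20, cnt21, cnt22, cnt23]

theorem final {v k : ℕ} (hv : 3 ≤ v) (hk : v ≤ 120 * k) :
    ∃ c : ℕ, crossingNumber ProjPlane v = c ∧ 96 * c ≤ 249155616 * k ^ 4 :=
  cert (X := dX) (Y := dY) (Z := dZ) (U := dU) (V := dV) (W := dW) (S := dS) (R := dR) (R' := dQ)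
    (H := dH) (L := 59) (by norm_num) (by norm_num) (by decide +kernel) (by decide +kernel)
    (by decide +kernel) (by decide +kernel) (by decide +kernel)
    (fun a ha c hc => by
      have := chk_all (a / 5) (by omega) (a % 5) (by omega) c hc
      rwa [Nat.div_add_mod] at this)
    (by decide +kernel) (by decide +kernel) (by decide +kernel) (by decide +kernel) cnt_all hv hk

end Pool.Agent.MP_d7736f_co.RP
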