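import Pool.Agent.MP_d7736f_co.RPDefs

namespace Pool.Agent.MP_d7736f_co.RP

open Finset

abbrev R3 : Type := ℝ × ℝ × ℝ

def det3 {R : Type} [CommRing R] (a b c : R × R × R) : R :=
  a.1 * (b.2.1 * c.2.2 - b.2.2 * c.2.1) - a.2.1 * (b.1 * c.2.2 - b.2.2 * c.1) +
    a.2.2 * (b.1 * c.2.1 - b.2.1 * c.1)

theorem det3_lin (a b c d : R3) (s t : ℝ) :
    det3 a b (s • c + t • d) = s * det3 a b c + t * det3 a b d := by
  simp [det3]; ring

theorem det3_smul (a b c : R3) (s : ℝ) : det3 a b (s • c) = s * det3 a b c := by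
  simp [det3]; ring

theorem det3_self1 {R : Type} [CommRing R] (a b : R × R × R) : det3 a b a = 0 := by
  simp [det3]; ring

theorem det3_self2 {R : Type} [CommRing R] (a b : R × R × R) : det3 a b b = 0 := by
  simp [det3]; ring

theorem det3_swap {R : Type} [CommRing R] (a b c : R × R × R) : det3 b a c = -det3 a b c := by
  simp [det3]; ring

theorem det3_rot {R : Type} [CommRing R] (a b c : R × R × R) : det3 b c a = det3 a b c := by
  simp [det3]; ring

theorem mk_eq {u w : R3} {hu : u ≠ 0} {hw : w ≠ 0}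
    (h : (Quotient.mk _ ⟨u, hu⟩ : ProjPlane) = Quotient.mk _ ⟨w, hw⟩) :
    ∃ r : ℝ, r ≠ 0 ∧ u = r • w := by
  obtain ⟨r, hr⟩ := Quotient.exact h
  exact ⟨r, r.ne_zero, hr.symm⟩

theorem mk_smul {u w : R3} {hu : u ≠ 0} {hw : w ≠ 0} {r : ℝ} (hr : r ≠ 0) (h : u = r • w) :
    (Quotient.mk _ ⟨u, hu⟩ : ProjPlane) = Quotient.mk _ ⟨w, hw⟩ :=
  Quotient.sound ⟨Units.mk0 r hr, h.symm⟩

/-- Vectors in general position, with a sign for every pair. -/
structure Gen (v : ℕ) where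
  q : Fin v → R3
  σ : Fin v → Fin v → ℝ
  hσ : ∀ a b, σ a b ≠ 0
  third : ∀ a b : Fin v, ∃ c, c ≠ a ∧ c ≠ b
  gen : ∀ a b c, a ≠ b → c ≠ a → c ≠ b → det3 (q a) (q b) (q c) ≠ 0

namespace Gen

variable {v : ℕ} (G : Gen v)

def sg (a b : Fin v) (t : ℝ) : R3 := (1 - t) • G.q a + (t * G.σ a b) • G.q b

theorem indep {a b : Fin v} (h : a ≠ b) {s t : ℝ} (e : s • G.q a + t • G.q b = 0) :
    s = 0 ∧ t = 0 := by
  obtain ⟨c, h1, h2⟩ := G.third a b
  have g := G.gen a b c h h1 h2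
  have z : ∀ x y : R3, det3 x y 0 = 0 := fun x y => by simp [det3]
  have e1 := det3_lin (G.q b) (G.q c) (G.q a) (G.q b) s t
  have e2 := det3_lin (G.q c) (G.q a) (G.q a) (G.q b) s t
  rw [e, z, det3_self1, det3_rot (G.q a)] at e1
  rw [e, z, det3_self2, ← det3_rot (G.q c)] at e2
  exact ⟨(mul_eq_zero.1 (by linarith : s * _ = 0)).resolve_right g,
    (mul_eq_zero.1 (by linarith : t * _ = 0)).resolve_right g⟩

theorem q_ne (a : Fin v) : G.q a ≠ 0 := by
  obtain ⟨b, h1, -⟩ := G.third a a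
  intro h
  have := (G.indep h1.symm (s := 1) (t := 0) (by simp [h])).1
  simp at this

theorem sg_ne {a b : Fin v} (h : a ≠ b) (t : ℝ) : G.sg a b t ≠ 0 := by
  intro e
  obtain ⟨h1, h2⟩ := G.indep h e
  rcases mul_eq_zero.1 h2 with h3 | h3
  · rw [h3] at h1; simp at h1
  · exact G.hσ a b h3

noncomputable def pt (a : Fin v) : ProjPlane := Quotient.mk _ ⟨G.q a, G.q_ne a⟩

noncomputable def arc (e : Edge v) : Path (G.pt e.1.1) (G.pt e.1.2) where
  toFun t := Quotient.mk _ ⟨G.sg e.1.1 e.1.2 t, G.sg_ne e.2.ne t⟩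
  continuous_toFun := by
    refine continuous_quotient_mk'.comp (Continuous.subtype_mk ?_ _)
    unfold sg; fun_prop
  source' := mk_smul one_ne_zero (by simp [sg])
  target' := mk_smul (G.hσ e.1.1 e.1.2) (by simp [sg])

theorem arc_apply (e : Edge v) (t : unitInterval) :
    G.arc e t = Quotient.mk _ ⟨G.sg e.1.1 e.1.2 t, G.sg_ne e.2.ne t⟩ := rfl

theorem det_sg (a b : Fin v) (t : ℝ) : det3 (G.q a) (G.q b) (G.sg a b t) = 0 := by
  rw [sg, det3_lin, det3_self1, det3_self2]; ring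

noncomputable def drawing : Drawing ProjPlane v where
  pt := G.pt
  pt_inj := by
    intro a b h
    by_contra hab
    obtain ⟨r, -, e⟩ := mk_eq h
    have := (G.indep hab (s := 1) (t := -r) (by rw [e]; simp)).1
    simp at this
  arc := G.arc
  arc_inj := by
    intro e s t h
    obtain ⟨r, -, h1⟩ := mk_eq h
    obtain ⟨h2, h3⟩ := G.indep e.2.ne (s := (1 - s) - r * (1 - t))
      (t := s * G.σ e.1.1 e.1.2 - r * (t * G.σ e.1.1 e.1.2)) (by
        rw [← sub_eq_zero] at h1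
        rw [← h1]; simp only [sg]; module)
    have h4 : (s : ℝ) - r * t = 0 :=
      (mul_eq_zero.1 (by linarith : ((s : ℝ) - r * t) * G.σ e.1.1 e.1.2 = 0)).resolve_right
        (G.hσ _ _)
    have h5 : r = 1 := by linarith
    rw [h5] at h4
    exact Subtype.ext (by linarith)
  arc_avoid := by
    rintro e w ⟨t, h⟩
    by_contra hw
    push Not at hw
    obtain ⟨r, hr, h1⟩ := mk_eq h
    have := G.det_sg e.1.1 e.1.2 t
    rw [h1, det3_smul] at this
    exact G.gen _ _ _ e.2.ne hw.1 hw.2 ((mul_eq_zero.1 this).resolve_left hr)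

/-- The sign condition for a crossing. -/
def X (a b c d : Fin v) : Prop :=
  G.σ a b * (det3 (G.q c) (G.q d) (G.q a) * det3 (G.q c) (G.q d) (G.q b)) < 0 ∧
    G.σ c d * (det3 (G.q a) (G.q b) (G.q c) * det3 (G.q a) (G.q b) (G.q d)) < 0

theorem half_X {a b c d : Fin v} (hab : a < b) (hcd : c < d) (hne : (a, b) ≠ (c, d)) {s t r : ℝ}
    (s0 : 0 < s) (s1 : s < 1) (h : G.sg a b s = r • G.sg c d t) :
    G.σ a b * (det3 (G.q c) (G.q d) (G.q a) * det3 (G.q c) (G.q d) (G.q b)) < 0 := by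
  have e : det3 (G.q c) (G.q d) (G.sg a b s) = 0 := by rw [h, det3_smul, G.det_sg, mul_zero]
  rw [sg, det3_lin] at e
  set x := det3 (G.q c) (G.q d) (G.q a) with hx
  set y := det3 (G.q c) (G.q d) (G.q b) with hy
  have hxy : x ≠ 0 := by
    intro h0
    have hy0 : y = 0 := by
      rw [h0] at e
      have : s * G.σ a b * y = 0 := by linarith
      exact (mul_eq_zero.1 this).resolve_left (mul_ne_zero s0.ne' (G.hσ a b))
    have a1 : a = c ∨ a = d := by
      by_contra h1; push Not at h1; exact G.gen c d a hcd.ne h1.1 h1.2 h0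
    have a2 : b = c ∨ b = d := by
      by_contra h1; push Not at h1; exact G.gen c d b hcd.ne h1.1 h1.2 hy0
    apply hne
    rcases a1 with rfl | rfl <;> rcases a2 with rfl | rfl
    · exact absurd hab (lt_irrefl _)
    · rfl
    · exact absurd hab (lt_asymm hcd)
    · exact absurd hab (lt_irrefl _)
  have h1 : s * (G.σ a b * (x * y)) = -((1 - s) * x ^ 2) := by linear_combination x * e
  have h2 : 0 < (1 - s) * x ^ 2 := mul_pos (by linarith) (by positivity)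
  by_contra h3
  have := mul_nonneg s0.le (not_lt.1 h3)
  linarith

theorem inner {e : Edge v} {t : unitInterval} (h : G.arc e t ∉ Set.range G.pt) :
    (0 : ℝ) < t ∧ (t : ℝ) < 1 := by
  refine ⟨lt_of_le_of_ne t.2.1 fun h0 => h ⟨e.1.1, ?_⟩, lt_of_le_of_ne t.2.2 fun h1 => h ⟨e.1.2, ?_⟩⟩
  · rw [show t = 0 from Subtype.ext h0.symm]; simp
  · rw [show t = 1 from Subtype.ext h1]; simp

theorem cross_X {e f : Edge v} (hef : e ≠ f) {x : ProjPlane} (he : x ∈ Set.range (G.arc e))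
    (hf : x ∈ Set.range (G.arc f)) (hx : x ∉ Set.range G.pt) : G.X e.1.1 e.1.2 f.1.1 f.1.2 := by
  obtain ⟨s, rfl⟩ := he
  obtain ⟨t, ht⟩ := hf
  obtain ⟨s0, s1⟩ := G.inner hx
  obtain ⟨t0, t1⟩ := G.inner (ht ▸ hx)
  obtain ⟨r, -, h1⟩ := mk_eq ht
  obtain ⟨r', -, h2⟩ := mk_eq ht.symm
  have hne : (e.1.1, e.1.2) ≠ (f.1.1, f.1.2) := fun h => hef (Subtype.ext h)
  exact ⟨G.half_X e.2 f.2 hne s0 s1 h2, G.half_X f.2 e.2 hne.symm t0 t1 h1⟩

theorem cross_unique {e f : Edge v} (h : G.X e.1.1 e.1.2 f.1.1 f.1.2) {x y : ProjPlane}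
    (he : x ∈ Set.range (G.arc e)) (hf : x ∈ Set.range (G.arc f))
    (he' : y ∈ Set.range (G.arc e)) (hf' : y ∈ Set.range (G.arc f)) : x = y := by
  obtain ⟨s, rfl⟩ := he
  obtain ⟨t, ht⟩ := hf
  obtain ⟨s', rfl⟩ := he'
  obtain ⟨t', ht'⟩ := hf'
  obtain ⟨r, -, h1⟩ := mk_eq ht.symm
  obtain ⟨r', -, h2⟩ := mk_eq ht'.symm
  have e1 : det3 (G.q f.1.1) (G.q f.1.2) (G.sg e.1.1 e.1.2 s) = 0 := by
    rw [h1, det3_smul, G.det_sg, mul_zero]
  have e2 : det3 (G.q f.1.1) (G.q f.1.2) (G.sg e.1.1 e.1.2 s') = 0 := by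
    rw [h2, det3_smul, G.det_sg, mul_zero]
  rw [sg, det3_lin] at e1 e2
  have h3 := h.1
  set x := det3 (G.q f.1.1) (G.q f.1.2) (G.q e.1.1)
  set y := det3 (G.q f.1.1) (G.q f.1.2) (G.q e.1.2)
  have h4 : ((s : ℝ) - s') * (G.σ e.1.1 e.1.2 * y - x) = 0 := by linear_combination e1 - e2
  have h5 : G.σ e.1.1 e.1.2 * y - x ≠ 0 := by
    intro h6
    have : G.σ e.1.1 e.1.2 * (x * y) = x ^ 2 := by linear_combination x * h6
    nlinarith [sq_nonneg x]
  rw [show s = s' from Subtype.ext (by have := (mul_eq_zero.1 h4).resolve_right h5; linarith)]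

open Classical in
theorem crossings_le : G.drawing.crossings ≤
    (univ.filter fun x : Fin v × Fin v × Fin v × Fin v => G.X x.1 x.2.1 x.2.2.1 x.2.2.2 ∧
      x.1 < x.2.1 ∧ x.2.2.1 < x.2.2.2 ∧ x.1 < x.2.2.1).card := by
  have ex : ∀ c ∈ {c : Finset (Edge v) × ProjPlane | c.1.card = 2 ∧
      (∀ e ∈ c.1, c.2 ∈ Set.range (G.drawing.arc e)) ∧ c.2 ∉ Set.range G.drawing.pt},
      ∃ p : Edge v × Edge v, c.1 = {p.1, p.2} ∧ G.X p.1.1.1 p.1.1.2 p.2.1.1 p.2.1.2 ∧
        p.1.1.1 < p.2.1.1 := by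
    rintro ⟨s, x⟩ ⟨h1, h2, h3⟩
    obtain ⟨e, f, hef, rfl⟩ := card_eq_two.1 h1
    have he := h2 e (by simp)
    have hf := h2 f (by simp)
    have hX := G.cross_X hef he hf h3
    rcases lt_trichotomy e.1.1 f.1.1 with h | h | h
    · exact ⟨(e, f), rfl, hX, h⟩
    · have := hX.1
      rw [h, det3_self1] at this
      simp at this
    · exact ⟨(f, e), pair_comm _ _, ⟨hX.2, hX.1⟩, h⟩
  rcases isEmpty_or_nonempty (Edge v) with hE | hE
  · refine le_of_eq_of_le (Set.encard_eq_zero.2 (Set.eq_empty_of_forall_notMem fun c hc => ?_))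
      (zero_le)
    obtain ⟨p, -⟩ := ex c hc
    exact hE.false p.1
  choose! g hg using ex
  rw [← Set.encard_coe_eq_coe_finsetCard]
  refine Set.encard_le_encard_of_injOn
    (f := fun c => ((g c).1.1.1, (g c).1.1.2, (g c).2.1.1, (g c).2.1.2)) (fun c hc => ?_) ?_
  · obtain ⟨-, h2, h3⟩ := hg c hc
    simp only [coe_filter, mem_univ, true_and, Set.mem_ofPred_eq]
    exact ⟨h2, (g c).1.2, (g c).2.2, h3⟩
  · intro c hc c' hc' e
    simp only [Prod.mk.injEq] at e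
    have e' : g c = g c' :=
      Prod.ext (Subtype.ext (Prod.ext e.1 e.2.1)) (Subtype.ext (Prod.ext e.2.2.1 e.2.2.2))
    obtain ⟨h1, h2, -⟩ := hg c hc
    obtain ⟨h1', -, -⟩ := hg c' hc'
    rw [← e'] at h1'
    refine Prod.ext (h1.trans h1'.symm) (G.cross_unique h2 ?_ ?_ ?_ ?_)
    · exact hc.2.1 _ (by rw [h1]; simp)
    · exact hc.2.1 _ (by rw [h1]; simp)
    · exact hc'.2.1 _ (by rw [h1']; simp)
    · exact hc'.2.1 _ (by rw [h1']; simp)

end Gen

end Pool.Agent.MP_d7736f_co.RP
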