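import Pool.Agent.MP_d7736f_co.Check

namespace Pool.Agent.MP_d7736f_co

open Finset

def Pass (l h m l' h' m' z : ℕ) : Prop :=
  (z = 0 → m ≤ h') ∧ (z = 1 → l ≤ h' ∧ l' ≤ h) ∧ (z = 2 → m' ≤ h)

instance (l h m l' h' m' z : ℕ) : Decidable (Pass l h m l' h' m' z) := by
  unfold Pass; infer_instance

theorem three_eq (w : ℕ → ℕ → ℕ) (M l h m l' h' m' c d : ℕ) :
    three w M (2 * M) l h m l' h' m' c d =
      ∑ z ∈ range 3, if Pass l h m l' h' m' z then w (c + z * M) (d + z * M) else 0 := by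
  unfold three
  simp only [sum_range_succ, range_zero, sum_empty, Pass]
  cases h1 : Nat.ble m h' <;> cases h2 : Nat.ble l h' <;> cases h3 : Nat.ble l' h <;>
    cases h4 : Nat.ble m' h <;> simp only [Nat.ble_eq, ← Bool.not_eq_true] at h1 h2 h3 h4 <;>
    simp [h1, h2, h3, h4]

theorem frc_eq (v : ℕ) (k : ℕ → ℕ) : frc v k = k v := by cases v <;> rfl

noncomputable def WR (dir : ℕ → ℤ × ℤ) (M : ℕ) (self : Bool) (e f : Rec) (zx zy : ℕ) : ℕ :=
  W dir self e.i e.j (e.ax + M) (e.ay + M) (e.bx + M) (e.bY + M) (Nat.mul (e.ax + M) (e.bY + M))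
    (Nat.mul (e.ay + M) (e.bx + M)) e.sa e.sb f.i f.j (f.ax + zx * M) (f.ay + zy * M)
    (f.bx + zx * M) (f.bY + zy * M) f.sa f.sb

noncomputable def pairW (dir : ℕ → ℤ × ℤ) (M : ℕ) (self : Bool) (e f : Rec) : ℕ :=
  ∑ zx ∈ range 3, if Pass e.xl e.xh e.xm f.xl f.xh f.xm zx then
    ∑ zy ∈ range 3, if Pass e.yl e.yh e.ym f.yl f.yh f.ym zy then WR dir M self e f zx zy else 0
  else 0

theorem rowC_eq (dir : ℕ → ℤ × ℤ) (M : ℕ) (self : Bool) (e : Rec) (L : List Rec) :
    rowC dir M (2 * M) self e.i e.j (e.ax + M) (e.ay + M) (e.bx + M) (e.bY + M)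
      (Nat.mul (e.ax + M) (e.bY + M)) (Nat.mul (e.ay + M) (e.bx + M)) e.xl e.xh e.xm e.yl e.yh e.ym
      e.sa e.sb L = (L.map (pairW dir M self e)).sum := by
  induction L with
  | nil => rfl
  | cons f l ih =>
    rw [List.map_cons, List.sum_cons, ← ih]
    cases f
    simp only [rowC, three_eq, pairW, WR, Nat.add_eq]

theorem rowW_eq (dir : ℕ → ℤ × ℤ) (M : ℕ) (e : Rec) (L : List Rec) :
    rowW dir M (2 * M) e L = pairW dir M true e e + (L.map (pairW dir M false e)).sum := by
  have h1 := rowC_eq dir M true e [e]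
  have h2 := rowC_eq dir M false e L
  cases e
  simp only [rowW, frc_eq, Nat.add_eq] at h1 h2 ⊢
  rw [h1, h2]; simp

noncomputable def tot (dir : ℕ → ℤ × ℤ) (M : ℕ) : List Rec → ℕ
  | [] => 0
  | e :: l => rowW dir M (2 * M) e l + tot dir M l

theorem tot_split (dir : ℕ → ℤ × ℤ) (M : ℕ) (L : List Rec) (n : ℕ) :
    tot dir M L = rows dir M (2 * M) L n + tot dir M (L.drop n) := by
  induction L generalizing n with
  | nil => simp [tot, rows]
  | cons e l ih =>
    cases n with
    | zero => simp [rows]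
    | succ n =>
      rw [tot, ih n, List.drop_succ_cons, ← add_assoc]
      rfl

theorem sum_map_eq {α : Type} (d : α) (F : α → ℕ) (L : List α) :
    (L.map F).sum = ∑ n ∈ range L.length, F (L.getD n d) := by
  induction L with
  | nil => simp
  | cons a l ih => rw [List.length_cons, sum_range_succ', List.map_cons, List.sum_cons, ih]; simp [add_comm]

theorem tot_eq (dir : ℕ → ℤ × ℤ) (M : ℕ) (d : Rec) (L : List Rec) :
    tot dir M L = ∑ n ∈ range L.length, ∑ n' ∈ range L.length,
      if n ≤ n' then pairW dir M (decide (n = n')) (L.getD n d) (L.getD n' d) else 0 := by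
  induction L with
  | nil => simp [tot]
  | cons e l ih =>
    rw [tot, ih, rowW_eq, sum_map_eq d, List.length_cons, sum_range_succ']
    simp only [sum_range_succ' _ l.length]
    simp
    ring

theorem avRow_eq (M l x y : ℕ) (L : List Rec) (h : avRow M (2 * M) l x (x + M) y (y + M) L = 0)
    (e : Rec) (he : e ∈ L) (zx zy : ℕ) (hx : zx < 3) (hy : zy < 3)
    (px : Pass e.xl e.xh e.xm x x (x + M) zx) (py : Pass e.yl e.yh e.ym y y (y + M) zy) :
    av e.i e.j (e.ax + M) (e.ay + M) (e.bx + M) (e.bY + M) l (x + zx * M) (y + zy * M) = 0 := by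
  induction L with
  | nil => simp at he
  | cons f t ih =>
    have h' : avRow M (2 * M) l x (x + M) y (y + M) (f :: t) =
        (∑ zx ∈ range 3, if Pass f.xl f.xh f.xm x x (x + M) zx then
          ∑ zy ∈ range 3, if Pass f.yl f.yh f.ym y y (y + M) zy then
            av f.i f.j (f.ax + M) (f.ay + M) (f.bx + M) (f.bY + M) l (x + zx * M) (y + zy * M)
          else 0 else 0) + avRow M (2 * M) l x (x + M) y (y + M) t := by
      cases f
      simp only [avRow, three_eq, Nat.add_eq]
    rw [h', add_eq_zero] at h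
    rcases List.mem_cons.1 he with rfl | he
    · have h1 := sum_eq_zero_iff.1 h.1 zx (mem_range.2 hx)
      rw [if_pos px] at h1
      have h2 := sum_eq_zero_iff.1 h1 zy (mem_range.2 hy)
      rwa [if_pos py] at h2
    · exact ih h.2 he

theorem avAll_eq (M : ℕ) (px py : ℕ → ℕ) (L : List Rec) (n : ℕ)
    (h : avAll M (2 * M) px py L n = 0) (l : ℕ) (hl : l < n) :
    avRow M (2 * M) l (px l) (px l + M) (py l) (py l + M) L = 0 := by
  induction n with
  | zero => omega
  | succ n ih =>
    have h' : avAll M (2 * M) px py L (n + 1) =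
        avRow M (2 * M) n (px n) (px n + M) (py n) (py n + M) L + avAll M (2 * M) px py L n := by
      simp only [avAll, frc_eq, Nat.add_eq]
    rw [h', add_eq_zero] at h
    rcases Nat.lt_succ_iff_lt_or_eq.1 hl with hl | rfl
    · exact ih h.2 hl
    · exact h.1

theorem mem_pairs {m i j : ℕ} (hij : i ≤ j) (hj : j < m) : (i, j) ∈ pairs m := by
  unfold pairs
  rcases hij.eq_or_lt with rfl | h
  · simp [hj]
  · refine List.mem_append_left _ (List.mem_flatMap.2 ⟨i, List.mem_range.2 (by omega),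
      List.mem_map.2 ⟨j - (i + 1), List.mem_range.2 (by omega), ?_⟩⟩)
    congr 1; omega

end Pool.Agent.MP_d7736f_co
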