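import Pool.Agent.MP_d7736f_co.Data

namespace Pool.Agent.MP_d7736f_co

theorem valid_all : (E0.all fun r => decide (Valid dirT pxT pyT 1048576 56 r)) = true := by
  decide +kernel

theorem keys_all : E0.map (fun r => (r.i, r.j)) = pairs 56 := by decide +kernel

theorem avoid_all : avAll (nat_lit 1048576) (nat_lit 2097152) pxT pyT E0 (nat_lit 56) = 0 :=
  Nat.eq_of_beq_eq_true (by decide +kernel)

end Pool.Agent.MP_d7736f_co
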