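import Pool.Agent.MP_d7736f_co.Check
import Pool.Agent.MP_d7736f_co.Local
import Pool.Agent.MP_d7736f_co.Count

namespace Pool.Agent.MP_d7736f_co

open Finset

def Key (self : Bool) (i j i' j' : ℕ) (x : N4) : Prop :=
  (i = j → x.1 < x.2.1) ∧ (i' = j' → x.2.2.1 < x.2.2.2) ∧
    (self = true → x.1 < x.2.2.1 ∨ (x.1 = x.2.2.1 ∧ x.2.1 < x.2.2.2))

open Classical in
/-- The index quadruples whose edges meet. -/
noncomputable def CS (dir : ℕ → ℤ × ℤ) (ε : ℝ) (k : ℕ) (self : Bool)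
    (i j ax ay bx bY i' j' cx cy dx dy : ℕ) : Finset N4 :=
  (box4 k).filter fun x => Key self i j i' j' x ∧
    Meet (Q dir ε ⟨ax, ay, i, x.1⟩) (Q dir ε ⟨bx, bY, j, x.2.1⟩) (Q dir ε ⟨cx, cy, i', x.2.2.1⟩)
      (Q dir ε ⟨dx, dy, j', x.2.2.2⟩)

def Good (dir : ℕ → ℤ × ℤ) (ε : ℝ) (k : ℕ) (self : Bool)
    (i j ax ay bx bY i' j' cx cy dx dy w : ℕ) : Prop :=
  24 * (CS dir ε k self i j ax ay bx bY i' j' cx cy dx dy).card ≤ w * k ^ 4 ∧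
    ∀ x ∈ CS dir ε k self i j ax ay bx bY i' j' cx cy dx dy,
      orient (Q dir ε ⟨ax, ay, i, x.1⟩) (Q dir ε ⟨bx, bY, j, x.2.1⟩)
          (Q dir ε ⟨cx, cy, i', x.2.2.1⟩) ≠ 0 ∨
        orient (Q dir ε ⟨ax, ay, i, x.1⟩) (Q dir ε ⟨bx, bY, j, x.2.1⟩)
          (Q dir ε ⟨dx, dy, j', x.2.2.2⟩) ≠ 0

/-- The bounds on the data. -/
structure Bd (B m i j ax ay bx bY i' j' cx cy dx dy : ℕ) : Prop where
  i : i < m
  j : j < m
  i' : i' < m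
  j' : j' < m
  ax : ax < B
  ay : ay < B
  bx : bx < B
  bY : bY < B
  cx : cx < B
  cy : cy < B
  dx : dx < B
  dy : dy < B

variable {dir : ℕ → ℤ × ℤ} {B m k : ℕ} {ε : ℝ} {self : Bool}
  {i j ax ay bx bY i' j' cx cy dx dy : ℕ}

theorem mem_CS {x : N4} : x ∈ CS dir ε k self i j ax ay bx bY i' j' cx cy dx dy ↔
    (x.1 < k ∧ x.2.1 < k ∧ x.2.2.1 < k ∧ x.2.2.2 < k) ∧ Key self i j i' j' x ∧
    Meet (Q dir ε ⟨ax, ay, i, x.1⟩) (Q dir ε ⟨bx, bY, j, x.2.1⟩) (Q dir ε ⟨cx, cy, i', x.2.2.1⟩)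
      (Q dir ε ⟨dx, dy, j', x.2.2.2⟩) := by
  simp only [CS, mem_filter, mem_box4]

theorem good_empty {w : ℕ} (h : ∀ x ∈ CS dir ε k self i j ax ay bx bY i' j' cx cy dx dy, False) :
    Good dir ε k self i j ax ay bx bY i' j' cx cy dx dy w := by
  refine ⟨?_, fun x hx => (h x hx).elim⟩
  rw [eq_empty_of_forall_notMem h]; simp

theorem tri_cases (p q lt eq gt : ℕ) : (p < q ∧ tri p q lt eq gt = lt) ∨
    (p = q ∧ tri p q lt eq gt = eq) ∨ (q < p ∧ tri p q lt eq gt = gt) := by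
  unfold tri
  cases h1 : Nat.ble p q <;> cases h2 : Nat.ble q p <;>
    simp only [Nat.ble_eq, ← Bool.not_eq_true] at h1 h2 <;> simp <;> omega

theorem oZ_eq (ax ay bx bY cx cy : ℕ) : oZ ax ay bx bY cx cy =
    ((Nat.add (Nat.add (Nat.mul bx cy) (Nat.mul ax bY)) (Nat.mul ay cx) : ℕ) : ℤ) -
    ((Nat.add (Nat.add (Nat.mul bY cx) (Nat.mul ay bx)) (Nat.mul ax cy) : ℕ) : ℤ) := by
  simp only [oZ, Nat.add_eq, Nat.mul_eq]; push_cast; ring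

theorem wSh_cases {i x y s i' x' y' s' other : ℕ} (h : wSh i x y s i' x' y' s' other < big) :
    (i ≠ i' ∧ wSh i x y s i' x' y' s' other = other) ∨ (i = i' ∧ x = x' ∧ y = y' ∧
      ((s = s' ∧ wSh i x y s i' x' y' s' other = 12) ∨
        (s ≠ s' ∧ wSh i x y s i' x' y' s' other = 0))) := by
  unfold wSh at h ⊢
  cases h1 : Nat.beq i i' <;> cases h2 : Nat.beq x x' <;> cases h3 : Nat.beq y y' <;>
    cases h4 : Nat.beq s s' <;> simp only [h1, h2, h3, h4] at h <;>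
    simp only [Nat.beq_eq, ← Bool.not_eq_true] at h1 h2 h3 h4 <;> simp_all

theorem cnt12' {S : Finset N4} (p q r s : N4 → ℕ) {σ : ℝ}
    (inj : ∀ x y, p x = p y → q x = q y → r x = r y → s x = s y → x = y)
    (h : ∀ x ∈ S, ((p x : ℝ) - q x) * σ < 0 ∧ p x < k ∧ q x < k ∧ r x < k ∧ s x < k) :
    24 * S.card ≤ 12 * k ^ 4 := by
  rcases le_total 0 σ with hσ | hσ
  · refine cnt12 p q r s inj fun x hx => ?_
    obtain ⟨a, b, c, d, e⟩ := h x hx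
    refine ⟨?_, c, d, e⟩
    have : (p x : ℝ) < q x := by by_contra hh; push Not at hh; nlinarith
    exact_mod_cast this
  · refine cnt12 q p r s (fun x y a b => inj x y b a) fun x hx => ?_
    obtain ⟨a, b, c, d, e⟩ := h x hx
    refine ⟨?_, b, d, e⟩
    have : (q x : ℝ) < p x := by by_contra hh; push Not at hh; nlinarith
    exact_mod_cast this

theorem side_aux {d : ℤ × ℤ} {ax ay bx bY dx dy s s' : ℕ} (h1 : Side d ax ay bx bY s)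
    (h2 : Side d ax ay dx dy s') (ho : oZ ax ay bx bY dx dy ≠ 0) :
    dZ d ax ay bx bY ≠ 0 ∧ dZ d ax ay dx dy ≠ 0 ∧
      (0 < dZ d ax ay bx bY * dZ d ax ay dx dy → s = s') := by
  rcases h1 with ⟨rfl, rfl⟩ | h1 | h1
  · simp [oZ] at ho
  all_goals
    rcases h2 with ⟨rfl, rfl⟩ | h2 | h2
    · simp [oZ] at ho
    all_goals
      refine ⟨by omega, by omega, fun h => ?_⟩
      first | omega | nlinarith [h1.2, h2.2]

theorem n4_ext {x y : N4} (a : x.1 = y.1) (b : x.2.1 = y.2.1) (c : x.2.2.1 = y.2.2.1)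
    (d : x.2.2.2 = y.2.2.2) : x = y := Prod.ext a (Prod.ext b (Prod.ext c d))

theorem good_second (H : Nice dir B m k ε) (b : Bd B m i j ax ay bx bY i' j' cx cy dx dy)
    (h3 : oZ ax ay bx bY cx cy ≠ 0)
    (h : second ax ay bx bY cx cy dx dy (Nat.mul cx dy) (Nat.mul cy dx) < big) :
    Good dir ε k self i j ax ay bx bY i' j' cx cy dx dy
      (second ax ay bx bY cx cy dx dy (Nat.mul cx dy) (Nat.mul cy dx)) := by
  have full : Good dir ε k self i j ax ay bx bY i' j' cx cy dx dy 24 := by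
    refine ⟨cnt24 (fun x hx => mem_box4.2 (mem_CS.1 hx).1), fun x hx => Or.inl ?_⟩
    obtain ⟨hb, -, -⟩ := mem_CS.1 hx
    exact ne_of_mul_pos (H.gen ⟨ax, ay, i, x.1⟩ ⟨bx, bY, j, x.2.1⟩ ⟨cx, cy, i', x.2.2.1⟩
      ⟨b.ax, b.ay, b.i, hb.1⟩ ⟨b.bx, b.bY, b.j, hb.2.1⟩ ⟨b.cx, b.cy, b.i', hb.2.2.1⟩ h3)
  have none : 0 < oZ cx cy dx dy ax ay * oZ cx cy dx dy bx bY →
      Good dir ε k self i j ax ay bx bY i' j' cx cy dx dy 0 := fun hp => good_empty fun x hx => by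
    obtain ⟨hb, -, hm⟩ := mem_CS.1 hx
    exact H.sep (s1 := ⟨cx, cy, i', x.2.2.1⟩) (s2 := ⟨dx, dy, j', x.2.2.2⟩)
      (s3 := ⟨ax, ay, i, x.1⟩) (s4 := ⟨bx, bY, j, x.2.1⟩) ⟨b.cx, b.cy, b.i', hb.2.2.1⟩
      ⟨b.dx, b.dy, b.j', hb.2.2.2⟩ ⟨b.ax, b.ay, b.i, hb.1⟩ ⟨b.bx, b.bY, b.j, hb.2.1⟩ hp hm.symm
  have e1 := oZ_eq cx cy dx dy ax ay
  have e2 := oZ_eq cx cy dx dy bx bY
  unfold second at h ⊢
  rcases tri_cases _ _ _ _ _ with ⟨c1, r1⟩ | ⟨c1, r1⟩ | ⟨c1, r1⟩ <;> rw [r1] at h ⊢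
  · rcases tri_cases _ _ _ _ _ with ⟨c2, r2⟩ | ⟨c2, r2⟩ | ⟨c2, r2⟩ <;> rw [r2] at h ⊢
    · exact none (mul_pos_of_neg_of_neg (by omega) (by omega))
    · exact absurd h (lt_irrefl _)
    · exact full
  · exact absurd h (lt_irrefl _)
  · rcases tri_cases _ _ _ _ _ with ⟨c2, r2⟩ | ⟨c2, r2⟩ | ⟨c2, r2⟩ <;> rw [r2] at h ⊢
    · exact full
    · exact absurd h (lt_irrefl _)
    · exact none (mul_pos (by omega) (by omega))

theorem good_AC (H : Nice dir B m k ε) (b : Bd B m i j ax ay bx bY i j' ax ay dx dy) {s s' w : ℕ}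
    (h1 : Side (dir i) ax ay bx bY s) (h2 : Side (dir i) ax ay dx dy s')
    (ho : oZ ax ay bx bY dx dy ≠ 0) (hw : (s = s' ∧ w = 12) ∨ (s ≠ s' ∧ w = 0)) :
    Good dir ε k self i j ax ay bx bY i j' ax ay dx dy w := by
  obtain ⟨a1, a2, a3⟩ := side_aux h1 h2 ho
  have key := fun x (hx : x ∈ CS dir ε k self i j ax ay bx bY i j' ax ay dx dy) =>
    H.shared (s1 := ⟨ax, ay, i, x.1⟩) (s2 := ⟨bx, bY, j, x.2.1⟩) (s4 := ⟨dx, dy, j', x.2.2.2⟩)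
      ⟨b.ax, b.ay, b.i, (mem_CS.1 hx).1.1⟩ ⟨b.bx, b.bY, b.j, (mem_CS.1 hx).1.2.1⟩
      (mem_CS.1 hx).1.2.2.1 ⟨b.dx, b.dy, b.j', (mem_CS.1 hx).1.2.2.2⟩ a1 a2 ho (mem_CS.1 hx).2.2
  rcases hw with ⟨_, rfl⟩ | ⟨hs, rfl⟩
  · refine ⟨cnt12' (fun x => x.1) (fun x => x.2.2.1) (fun x => x.2.1) (fun x => x.2.2.2)
      (σ := (dZ (dir i) ax ay bx bY : ℝ) * oZ ax ay bx bY dx dy)
      (fun x y a c b d => n4_ext a b c d) fun x hx => ⟨(key x hx).2.2, ?_⟩,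
      fun x hx => Or.inr (key x hx).1⟩
    have := (mem_CS.1 hx).1; tauto
  · exact good_empty fun x hx => hs (a3 (key x hx).2.1)

theorem good_BC (H : Nice dir B m k ε) (b : Bd B m i j ax ay bx bY j j' bx bY dx dy) {s s' w : ℕ}
    (h1 : Side (dir j) bx bY ax ay s) (h2 : Side (dir j) bx bY dx dy s')
    (ho : oZ ax ay bx bY dx dy ≠ 0) (hw : (s = s' ∧ w = 12) ∨ (s ≠ s' ∧ w = 0)) :
    Good dir ε k self i j ax ay bx bY j j' bx bY dx dy w := by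
  have ho' : oZ bx bY ax ay dx dy ≠ 0 := by
    intro h; apply ho; simp only [oZ] at h ⊢; linarith
  obtain ⟨a1, a2, a3⟩ := side_aux h1 h2 ho'
  have key := fun x (hx : x ∈ CS dir ε k self i j ax ay bx bY j j' bx bY dx dy) =>
    H.shared (s1 := ⟨bx, bY, j, x.2.1⟩) (s2 := ⟨ax, ay, i, x.1⟩) (s4 := ⟨dx, dy, j', x.2.2.2⟩)
      ⟨b.bx, b.bY, b.j, (mem_CS.1 hx).1.2.1⟩ ⟨b.ax, b.ay, b.i, (mem_CS.1 hx).1.1⟩
      (mem_CS.1 hx).1.2.2.1 ⟨b.dx, b.dy, b.j', (mem_CS.1 hx).1.2.2.2⟩ a1 a2 ho'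
      (mem_CS.1 hx).2.2.swap
  rcases hw with ⟨_, rfl⟩ | ⟨hs, rfl⟩
  · refine ⟨cnt12' (fun x => x.2.1) (fun x => x.2.2.1) (fun x => x.1) (fun x => x.2.2.2)
      (σ := (dZ (dir j) bx bY ax ay : ℝ) * oZ bx bY ax ay dx dy)
      (fun x y b c a d => n4_ext a b c d) fun x hx => ⟨(key x hx).2.2, ?_⟩,
      fun x hx => Or.inr ?_⟩
    · have := (mem_CS.1 hx).1; tauto
    · rw [orient_swap12]; exact neg_ne_zero.2 (key x hx).1
  · exact good_empty fun x hx => hs (a3 (key x hx).2.1)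

theorem good_BD (H : Nice dir B m k ε) (b : Bd B m i j ax ay bx bY i' j cx cy bx bY) {s s' w : ℕ}
    (h1 : Side (dir j) bx bY ax ay s) (h2 : Side (dir j) bx bY cx cy s')
    (ho : oZ ax ay bx bY cx cy ≠ 0) (hw : (s = s' ∧ w = 12) ∨ (s ≠ s' ∧ w = 0)) :
    Good dir ε k self i j ax ay bx bY i' j cx cy bx bY w := by
  have ho' : oZ bx bY ax ay cx cy ≠ 0 := by
    intro h; apply ho; simp only [oZ] at h ⊢; linarith
  obtain ⟨a1, a2, a3⟩ := side_aux h1 h2 ho'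
  have key := fun x (hx : x ∈ CS dir ε k self i j ax ay bx bY i' j cx cy bx bY) =>
    H.shared (s1 := ⟨bx, bY, j, x.2.1⟩) (s2 := ⟨ax, ay, i, x.1⟩) (s4 := ⟨cx, cy, i', x.2.2.1⟩)
      ⟨b.bx, b.bY, b.j, (mem_CS.1 hx).1.2.1⟩ ⟨b.ax, b.ay, b.i, (mem_CS.1 hx).1.1⟩
      (mem_CS.1 hx).1.2.2.2 ⟨b.cx, b.cy, b.i', (mem_CS.1 hx).1.2.2.1⟩ a1 a2 ho'
      (mem_CS.1 hx).2.2.swap.swap'
  rcases hw with ⟨_, rfl⟩ | ⟨hs, rfl⟩
  · refine ⟨cnt12' (fun x => x.2.1) (fun x => x.2.2.2) (fun x => x.1) (fun x => x.2.2.1)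
      (σ := (dZ (dir j) bx bY ax ay : ℝ) * oZ bx bY ax ay cx cy)
      (fun x y b d a c => n4_ext a b c d) fun x hx => ⟨(key x hx).2.2, ?_⟩,
      fun x hx => Or.inl ?_⟩
    · have := (mem_CS.1 hx).1; tauto
    · rw [orient_swap12]; exact neg_ne_zero.2 (key x hx).1
  · exact good_empty fun x hx => hs (a3 (key x hx).2.1)

theorem wEI_cases {s : ℤ} (h : wEI s < big) : s ≠ 0 ∧ (wEI s = 4 ∨ (s < 0 ∧ wEI s = 0)) := by
  unfold wEI at h ⊢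
  split_ifs at h ⊢ with h1 h2
  · exact ⟨h1.ne', Or.inl rfl⟩
  · exact ⟨h2.ne, Or.inr ⟨h2, rfl⟩⟩
  · exact absurd h (lt_irrefl _)

theorem good_rare (H : Nice dir B m k ε) (b : Bd B m i j ax ay bx bY i' j' cx cy dx dy)
    (h : rare dir self i j ax ay bx bY i' j' cx cy dx dy < big) :
    Good dir ε k self i j ax ay bx bY i' j' cx cy dx dy
      (rare dir self i j ax ay bx bY i' j' cx cy dx dy) := by
  unfold rare at h ⊢
  split_ifs at h ⊢ with h1 h2 h3 h4 h5 h6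
  · obtain ⟨hs, rfl, rfl, rfl, rfl, rfl, rfl, rfl, rfl, hd⟩ := h2
    subst h1
    have key := fun x (hx : x ∈ CS dir ε k self j' j' dx dy dx dy j' j' dx dy dx dy) =>
      convex_four H.pos hd ((mem_CS.1 hx).2.1.1 rfl) ((mem_CS.1 hx).2.1.2.1 rfl)
        ((mem_CS.1 hx).2.1.2.2 hs) (mem_CS.1 hx).2.2
    exact ⟨cnt1 (fun x => x.1) (fun x => x.2.2.1) (fun x => x.2.1) (fun x => x.2.2.2)
      (fun x y a c b d => n4_ext a b c d) fun x hx => ⟨(key x hx).2.1, (key x hx).2.2.1,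
        (key x hx).2.2.2, (mem_CS.1 hx).1.2.2.2⟩, fun x hx => Or.inl (key x hx).1⟩
  · exact absurd h (lt_irrefl _)
  · obtain ⟨rfl, rfl, rfl, rfl, rfl⟩ := h4
    subst h3
    obtain ⟨hs, hw⟩ := wEI_cases h
    have key := fun x (hx : x ∈ CS dir ε k self i' j dx dy bx bY i' i' dx dy dx dy) =>
      H.inner (s1 := ⟨dx, dy, i', x.1⟩) (s2 := ⟨bx, bY, j, x.2.1⟩)
        ⟨b.ax, b.ay, b.i, (mem_CS.1 hx).1.1⟩ ⟨b.bx, b.bY, b.j, (mem_CS.1 hx).1.2.1⟩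
        (mem_CS.1 hx).1.2.2.1 (mem_CS.1 hx).1.2.2.2 ((mem_CS.1 hx).2.1.2.1 rfl) hs
        (mem_CS.1 hx).2.2
    rcases hw with hw | ⟨hn, hw⟩ <;> rw [hw]
    · exact ⟨cnt4 (fun x => x.2.2.1) (fun x => x.1) (fun x => x.2.2.2) (fun x => x.2.1)
        (fun x y c a d b => n4_ext a b c d) fun x hx => ⟨(key x hx).2.1, (key x hx).2.2.1,
          (mem_CS.1 hx).1.2.2.2, (mem_CS.1 hx).1.2.1⟩, fun x hx => Or.inl (key x hx).1⟩
    · exact good_empty fun x hx => absurd (key x hx).2.2.2 hn.not_gt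
  · obtain ⟨rfl, rfl, rfl, rfl, rfl⟩ := h5
    subst h3
    obtain ⟨hs, hw⟩ := wEI_cases h
    have key := fun x (hx : x ∈ CS dir ε k self i i' ax ay dx dy i' i' dx dy dx dy) =>
      H.inner (s1 := ⟨dx, dy, i', x.2.1⟩) (s2 := ⟨ax, ay, i, x.1⟩)
        ⟨b.bx, b.bY, b.j, (mem_CS.1 hx).1.2.1⟩ ⟨b.ax, b.ay, b.i, (mem_CS.1 hx).1.1⟩
        (mem_CS.1 hx).1.2.2.1 (mem_CS.1 hx).1.2.2.2 ((mem_CS.1 hx).2.1.2.1 rfl) hs
        (mem_CS.1 hx).2.2.swap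
    rcases hw with hw | ⟨hn, hw⟩ <;> rw [hw]
    · refine ⟨cnt4 (fun x => x.2.2.1) (fun x => x.2.1) (fun x => x.2.2.2) (fun x => x.1)
        (fun x y c b d a => n4_ext a b c d) fun x hx => ⟨(key x hx).2.1, (key x hx).2.2.1,
          (mem_CS.1 hx).1.2.2.2, (mem_CS.1 hx).1.1⟩, fun x hx => Or.inl ?_⟩
      rw [orient_swap12]; exact neg_ne_zero.2 (key x hx).1
    · exact good_empty fun x hx => absurd (key x hx).2.2.2 hn.not_gt
  · exact absurd h (lt_irrefl _)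
  · obtain ⟨hs, rfl, rfl, rfl, rfl, rfl, rfl, hA, hB⟩ := h6
    have key := fun x (hx : x ∈ CS dir ε k self i' j' cx cy dx dy i' j' cx cy dx dy) =>
      H.double (s1 := ⟨cx, cy, i', x.1⟩) (s2 := ⟨dx, dy, j', x.2.1⟩)
        ⟨b.ax, b.ay, b.i, (mem_CS.1 hx).1.1⟩ ⟨b.bx, b.bY, b.j, (mem_CS.1 hx).1.2.1⟩
        (mem_CS.1 hx).1.2.2.1 (mem_CS.1 hx).1.2.2.2 hA hB ((mem_CS.1 hx).2.1.2.2 hs)
        (mem_CS.1 hx).2.2
    refine ⟨?_, fun x hx => Or.inl (key x hx).1⟩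
    rcases le_total 0 ((dZ (dir i') cx cy dx dy : ℝ) * dZ (dir j') dx dy cx cy) with hσ | hσ
    · refine cnt6 (fun x => x.1) (fun x => x.2.2.1) (fun x => x.2.1) (fun x => x.2.2.2)
        (fun x y a c b d => n4_ext a b c d) fun x hx => ⟨(key x hx).2.1, (mem_CS.1 hx).1.2.2.1,
          ?_, (mem_CS.1 hx).1.2.2.2⟩
      have h7 := (key x hx).2.2
      have : (x.2.1 : ℝ) < x.2.2.2 := by by_contra hh; push Not at hh; simp only at h7; nlinarith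
      exact_mod_cast this
    · refine cnt6 (fun x => x.1) (fun x => x.2.2.1) (fun x => x.2.2.2) (fun x => x.2.1)
        (fun x y a c d b => n4_ext a b c d) fun x hx => ⟨(key x hx).2.1, (mem_CS.1 hx).1.2.2.1,
          ?_, (mem_CS.1 hx).1.2.1⟩
      have h7 := (key x hx).2.2
      have : (x.2.2.2 : ℝ) < x.2.1 := by by_contra hh; push Not at hh; simp only at h7; nlinarith
      exact_mod_cast this
  · exact absurd h (lt_irrefl _)

theorem good_W (H : Nice dir B m k ε) (b : Bd B m i j ax ay bx bY i' j' cx cy dx dy)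
    {sa sb sa' sb' : ℕ} (h1 : Side (dir i) ax ay bx bY sa) (h2 : Side (dir j) bx bY ax ay sb)
    (h3 : Side (dir i') cx cy dx dy sa') (h4 : Side (dir j') dx dy cx cy sb')
    (h : W dir self i j ax ay bx bY (Nat.mul ax bY) (Nat.mul ay bx) sa sb i' j' cx cy dx dy sa' sb'
      < big) :
    Good dir ε k self i j ax ay bx bY i' j' cx cy dx dy
      (W dir self i j ax ay bx bY (Nat.mul ax bY) (Nat.mul ay bx) sa sb i' j' cx cy dx dy
        sa' sb') := by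
  have none : 0 < oZ ax ay bx bY cx cy * oZ ax ay bx bY dx dy →
      Good dir ε k self i j ax ay bx bY i' j' cx cy dx dy 0 := fun hp => good_empty fun x hx => by
    obtain ⟨hb, -, hm⟩ := mem_CS.1 hx
    exact H.sep (s3 := ⟨cx, cy, i', x.2.2.1⟩) (s4 := ⟨dx, dy, j', x.2.2.2⟩)
      (s1 := ⟨ax, ay, i, x.1⟩) (s2 := ⟨bx, bY, j, x.2.1⟩) ⟨b.ax, b.ay, b.i, hb.1⟩
      ⟨b.bx, b.bY, b.j, hb.2.1⟩ ⟨b.cx, b.cy, b.i', hb.2.2.1⟩ ⟨b.dx, b.dy, b.j', hb.2.2.2⟩ hp hm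
  have BD : oZ ax ay bx bY cx cy ≠ 0 → wSh j bx bY sb j' dx dy sb' big < big →
      Good dir ε k self i j ax ay bx bY i' j' cx cy dx dy (wSh j bx bY sb j' dx dy sb' big) := by
    intro ho hw
    rcases wSh_cases hw with ⟨_, e⟩ | ⟨rfl, rfl, rfl, e⟩
    · rw [e] at hw; exact absurd hw (lt_irrefl _)
    · exact good_BD H b h2 h4 ho e
  have e1 := oZ_eq ax ay bx bY cx cy
  have e2 := oZ_eq ax ay bx bY dx dy
  unfold W at h ⊢
  rcases tri_cases _ _ _ _ _ with ⟨c1, r1⟩ | ⟨c1, r1⟩ | ⟨c1, r1⟩ <;> rw [r1] at h ⊢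
  · rcases tri_cases _ _ _ _ _ with ⟨c2, r2⟩ | ⟨c2, r2⟩ | ⟨c2, r2⟩ <;> rw [r2] at h ⊢
    · exact none (mul_pos_of_neg_of_neg (by omega) (by omega))
    · exact BD (by omega) h
    · exact good_second H b (by omega) h
  · cases c2 : Nat.beq (Nat.add (Nat.add (Nat.mul bx dy) (Nat.mul ax bY)) (Nat.mul ay dx))
      (Nat.add (Nat.add (Nat.mul bY dx) (Nat.mul ay bx)) (Nat.mul ax dy)) <;> rw [c2] at h
    · have ho : oZ ax ay bx bY dx dy ≠ 0 := by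
        have := Nat.ne_of_beq_eq_false c2
        omega
      simp only at h ⊢
      rcases wSh_cases h with ⟨_, e⟩ | ⟨rfl, rfl, rfl, e⟩
      · rw [e] at h ⊢
        rcases wSh_cases h with ⟨_, e⟩ | ⟨rfl, rfl, rfl, e⟩
        · rw [e] at h; exact absurd h (lt_irrefl _)
        · exact good_BC H b h2 h3 ho e
      · exact good_AC H b h1 h3 ho e
    · exact good_rare H b h
  · rcases tri_cases _ _ _ _ _ with ⟨c2, r2⟩ | ⟨c2, r2⟩ | ⟨c2, r2⟩ <;> rw [r2] at h ⊢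
    · exact good_second H b (by omega) h
    · exact BD (by omega) h
    · exact none (mul_pos (by omega) (by omega))

end Pool.Agent.MP_d7736f_co
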