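import Pool.Agent.MP_d7736f_co.Defs
import Pool.Agent.MP_d7736f_co.Rows
import Pool.Agent.MP_d7736f_co.Sound

namespace Pool.Agent.MP_d7736f_co

open Finset

noncomputable def proj (M : ℕ) (p : ℝ × ℝ) : Torus :=
  (((p.1 / M : ℝ) : AddCircle (1 : ℝ)), ((p.2 / M : ℝ) : AddCircle (1 : ℝ)))

theorem circ_eq_iff {M : ℕ} (hM : 0 < M) (x y : ℝ) :
    ((x / M : ℝ) : AddCircle (1 : ℝ)) = ((y / M : ℝ) : AddCircle (1 : ℝ)) ↔
      ∃ z : ℤ, x = y + M * z := by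
  have hM' : (M : ℝ) ≠ 0 := by exact_mod_cast hM.ne'
  rw [← sub_eq_zero, ← AddCircle.coe_sub, AddCircle.coe_eq_zero_iff]
  constructor
  · rintro ⟨z, hz⟩
    refine ⟨z, ?_⟩
    rw [zsmul_eq_mul, mul_one] at hz
    field_simp at hz
    linarith
  · rintro ⟨z, hz⟩
    refine ⟨z, ?_⟩
    rw [zsmul_eq_mul, mul_one, hz]
    field_simp
    ring

theorem proj_eq_iff {M : ℕ} (hM : 0 < M) (p q : ℝ × ℝ) :
    proj M p = proj M q ↔ (∃ z : ℤ, p.1 = q.1 + M * z) ∧ ∃ z : ℤ, p.2 = q.2 + M * z := by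
  simp only [proj, Prod.mk.injEq, circ_eq_iff hM]

theorem continuous_proj (M : ℕ) : Continuous (proj M) := by
  unfold proj
  exact ((AddCircle.continuous_mk' 1).comp (by fun_prop)).prodMk
    ((AddCircle.continuous_mk' 1).comp (by fun_prop))

theorem window {M l h l' h' : ℕ} {x y : ℝ} {z : ℤ} (h1 : (l : ℝ) - 1 / 2 < x) (h2 : x < h + 1 / 2)
    (h3 : (l' : ℝ) - 1 / 2 < y) (h4 : y < h' + 1 / 2) (e : x = y + M * z) (a1 : l < M)
    (a2 : h < l + M) (a3 : l' < M) (a4 : h' < l' + M) :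
    ∃ n : ℕ, n < 3 ∧ x + M = y + n * M ∧ Pass l h (l + M) l' h' (l' + M) n := by
  have b1 : (l : ℤ) < h' + 1 + M * z := by
    have : (l : ℝ) < h' + 1 + M * z := by linarith
    exact_mod_cast this
  have b2 : (l' : ℤ) + M * z < h + 1 := by
    have : (l' : ℝ) + M * z < h + 1 := by linarith
    exact_mod_cast this
  have c1 : -2 < z := by
    by_contra hc
    push Not at hc
    have : (M : ℤ) * z ≤ M * (-2) := mul_le_mul_of_nonneg_left hc (by positivity)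
    omega
  have c2 : z < 2 := by
    by_contra hc
    push Not at hc
    have : (M : ℤ) * 2 ≤ M * z := mul_le_mul_of_nonneg_left hc (by positivity)
    omega
  interval_cases z
  · exact ⟨0, by norm_num, by rw [e]; push_cast; ring, by unfold Pass; omega⟩
  · exact ⟨1, by norm_num, by rw [e]; push_cast; ring, by unfold Pass; omega⟩
  · exact ⟨2, by norm_num, by rw [e]; push_cast; ring, by unfold Pass; omega⟩

variable {dir : ℕ → ℤ × ℤ} {px py : ℕ → ℕ} {M m k : ℕ} {ε : ℝ}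

theorem seg_shift (x y i a x' y' j b s u : ℕ) (t : ℝ) :
    seg (Q dir ε ⟨x + s, y + u, i, a⟩) (Q dir ε ⟨x' + s, y' + u, j, b⟩) t =
      ((seg (Q dir ε ⟨x, y, i, a⟩) (Q dir ε ⟨x', y', j, b⟩) t).1 + s,
        (seg (Q dir ε ⟨x, y, i, a⟩) (Q dir ε ⟨x', y', j, b⟩) t).2 + u) := by
  simp only [seg, Q]; push_cast; ext <;> simp only <;> ring

theorem seg_self (p : ℝ × ℝ) (t : ℝ) : seg p p t = p := by
  simp only [seg]; ext <;> simp only <;> ring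

theorem seg_box (H : Nice dir (4 * M) m k ε) {r : Rec} (hr : Valid dir px py M m r) {a b : ℕ}
    (ha : a < k) (hb : b < k) {t : ℝ} (h0 : 0 ≤ t) (h1 : t ≤ 1) :
    ((r.xl : ℝ) - 1 / 2 < (seg (Q dir ε ⟨r.ax, r.ay, r.i, a⟩) (Q dir ε ⟨r.bx, r.bY, r.j, b⟩) t).1 ∧
      (seg (Q dir ε ⟨r.ax, r.ay, r.i, a⟩) (Q dir ε ⟨r.bx, r.bY, r.j, b⟩) t).1 < r.xh + 1 / 2) ∧
    ((r.yl : ℝ) - 1 / 2 < (seg (Q dir ε ⟨r.ax, r.ay, r.i, a⟩) (Q dir ε ⟨r.bx, r.bY, r.j, b⟩) t).2 ∧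
      (seg (Q dir ε ⟨r.ax, r.ay, r.i, a⟩) (Q dir ε ⟨r.bx, r.bY, r.j, b⟩) t).2 < r.yh + 1 / 2) := by
  obtain ⟨⟨x1, x2, x3, x4, x5, x6, x7⟩, ⟨y1, y2, y3, y4, y5, y6, y7⟩, ⟨i1, j1⟩, -⟩ := hr
  obtain ⟨p1, p2⟩ := H.small ⟨r.ax, r.ay, r.i, a⟩ ⟨by simp only; omega, by simp only; omega, i1, ha⟩
  obtain ⟨q1, q2⟩ := H.small ⟨r.bx, r.bY, r.j, b⟩ ⟨by simp only; omega, by simp only; omega, j1, hb⟩
  rw [abs_lt] at p1 p2 q1 q2
  have aux : ∀ (l h a b : ℕ) (p q : ℝ), l ≤ a → a ≤ h → l ≤ b → b ≤ h →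
      (-(1 / 2) < p - a ∧ p - a < 1 / 2) → (-(1 / 2) < q - b ∧ q - b < 1 / 2) →
      (l : ℝ) - 1 / 2 < (1 - t) * p + t * q ∧ (1 - t) * p + t * q < h + 1 / 2 := by
    intro l h a b p q c1 c2 c3 c4 c5 c6
    have d1 : (l : ℝ) ≤ a := by exact_mod_cast c1
    have d2 : (a : ℝ) ≤ h := by exact_mod_cast c2
    have d3 : (l : ℝ) ≤ b := by exact_mod_cast c3
    have d4 : (b : ℝ) ≤ h := by exact_mod_cast c4
    have e1 : min p q ≤ (1 - t) * p + t * q := by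
      nlinarith [min_le_left p q, min_le_right p q]
    have e2 : (1 - t) * p + t * q ≤ max p q := by
      nlinarith [le_max_left p q, le_max_right p q]
    exact ⟨(lt_min (by linarith) (by linarith)).trans_le e1,
      e2.trans_lt (max_lt (by linarith) (by linarith))⟩
  exact ⟨aux _ _ _ _ _ _ x1 x2 x3 x4 p1 q1, aux _ _ _ _ _ _ y1 y2 y3 y4 p2 q2⟩

theorem dZ_shift (d : ℤ × ℤ) (ax ay bx bY s u : ℕ) :
    dZ d (ax + s) (ay + u) (bx + s) (bY + u) = dZ d ax ay bx bY := by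
  simp only [dZ]; push_cast; ring

theorem Side.shift {d : ℤ × ℤ} {ax ay bx bY w : ℕ} (h : Side d ax ay bx bY w) (s u : ℕ) :
    Side d (ax + s) (ay + u) (bx + s) (bY + u) w := by
  unfold Side at h ⊢
  rw [dZ_shift]
  rcases h with ⟨rfl, rfl⟩ | h
  · exact Or.inl ⟨rfl, rfl⟩
  · exact Or.inr h

theorem Q_inj (hε : 0 < ε) {x y i a c : ℕ} (hd : dir i ≠ 0)
    (h : Q dir ε ⟨x, y, i, a⟩ = Q dir ε ⟨x, y, i, c⟩) : a = c := by
  have h1 := congrArg Prod.fst h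
  have h2 := congrArg Prod.snd h
  simp only [Q] at h1 h2
  have : ε * (((dir i).1 : ℝ) ^ 2 + ((dir i).2 : ℝ) ^ 2) * ((a : ℝ) - c) = 0 := by
    linear_combination ((dir i).1 : ℝ) * h1 + ((dir i).2 : ℝ) * h2
  have := (mul_eq_zero.1 this).resolve_left (mul_pos hε (dir_pos hd)).ne'
  exact_mod_cast sub_eq_zero.1 this

theorem on_seg {B : ℕ} (H : Nice dir B m k ε) {s1 s2 : Site} {c w : ℕ} (h1 : s1.In B m k)
    (h2 : s2.In B m k) (hc : c < k) (hd : dir s1.i ≠ 0)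
    (hi : s1.x = s2.x ∧ s1.y = s2.y → s1.i = s2.i) (hs : Side (dir s1.i) s1.x s1.y s2.x s2.y w)
    {t : ℝ} (h : seg (Q dir ε s1) (Q dir ε s2) t = Q dir ε ⟨s1.x, s1.y, s1.i, c⟩) :
    c = s1.a ∨ (s1.i = s2.i ∧ c = s2.a) := by
  by_contra hn
  push Not at hn
  have ho := orient_seg (Q dir ε s1) (Q dir ε s2) t
  rw [h] at ho
  by_cases hp : s1.x = s2.x ∧ s1.y = s2.y
  · obtain ⟨x, y, i, a⟩ := s1
    obtain ⟨x', y', i', b⟩ := s2
    have := hi hp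
    obtain ⟨rfl, rfl⟩ := hp
    simp only at this hn hd h ho
    subst this
    by_cases hab : a = b
    · subst hab
      rw [seg_self] at h
      exact hn.1 (Q_inj H.pos hd h).symm
    · exact vdm_ne H.pos hd hab hn.1 (hn.2 rfl) ho
  · have hz : dZ (dir s1.i) s1.x s1.y s2.x s2.y ≠ 0 := by
      rcases hs with hs | hs | hs
      · exact absurd hs hp
      · exact hs.2.ne'
      · exact hs.2.ne
    have := H.sh s1 s2 c h1 h2 hc hn.1 hz
    rw [orient_swap23, ho] at this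
    simp at this

theorem seg_rev (p q : ℝ × ℝ) (t : ℝ) : seg q p (1 - t) = seg p q t := by
  simp only [seg]; ext <;> simp only <;> ring

theorem avoid (H : Nice dir (4 * M) m k ε) {E : List Rec} (hE : avAll M (2 * M) px py E m = 0)
    {r : Rec} (hrE : r ∈ E) (hr : Valid dir px py M m r) (hdj : dir r.j ≠ 0) {a b c l : ℕ}
    (ha : a < k) (hb : b < k) (hc : c < k) (hl : l < m) (hx : px l < M) (hy : py l < M) {t : ℝ}
    (h0 : 0 ≤ t) (h1 : t ≤ 1)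
    (h : proj M (seg (Q dir ε ⟨r.ax, r.ay, r.i, a⟩) (Q dir ε ⟨r.bx, r.bY, r.j, b⟩) t) =
      proj M (Q dir ε ⟨px l, py l, l, c⟩)) : (l = r.i ∧ c = a) ∨ (l = r.j ∧ c = b) := by
  have hM : 0 < M := by omega
  obtain ⟨⟨zx, ex⟩, zy, ey⟩ := (proj_eq_iff hM _ _).1 h
  obtain ⟨bx, by'⟩ := seg_box H hr ha hb h0 h1
  obtain ⟨⟨x1, x2, x3, x4, x5, x6, x7⟩, ⟨y1, y2, y3, y4, y5, y6, y7⟩, ⟨i1, j1⟩, -, hij, s1, s2, hd⟩ := hr
  obtain ⟨p1, p2⟩ := H.small ⟨px l, py l, l, c⟩ ⟨by simp only; omega, by simp only; omega, hl, hc⟩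
  rw [abs_lt] at p1 p2
  simp only at p1 p2
  obtain ⟨nx, hnx, ex', px'⟩ := window (l' := px l) (h' := px l) bx.1 bx.2 (by linarith)
    (by linarith) ex x5 (by omega) hx (by omega)
  obtain ⟨ny, hny, ey', py'⟩ := window (l' := py l) (h' := py l) by'.1 by'.2 (by linarith)
    (by linarith) ey y5 (by omega) hy (by omega)
  have hav := avRow_eq M l (px l) (py l) E (avAll_eq M px py E m hE l hl) r hrE nx ny hnx hny
    (x7 ▸ px') (y7 ▸ py')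
  have e : seg (Q dir ε ⟨r.ax + M, r.ay + M, r.i, a⟩) (Q dir ε ⟨r.bx + M, r.bY + M, r.j, b⟩) t =
      Q dir ε ⟨px l + nx * M, py l + ny * M, l, c⟩ := by
    rw [seg_shift, ex', ey']
    simp only [Q]; push_cast; ext <;> simp only <;> ring
  have nxM : nx * M ≤ 2 * M := Nat.mul_le_mul_right _ (by omega)
  have nyM : ny * M ≤ 2 * M := Nat.mul_le_mul_right _ (by omega)
  have I1 : (⟨r.ax + M, r.ay + M, r.i, a⟩ : Site).In (4 * M) m k :=
    ⟨by simp only; omega, by simp only; omega, i1, ha⟩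
  have I2 : (⟨r.bx + M, r.bY + M, r.j, b⟩ : Site).In (4 * M) m k :=
    ⟨by simp only; omega, by simp only; omega, j1, hb⟩
  have I3 : (⟨px l + nx * M, py l + ny * M, l, c⟩ : Site).In (4 * M) m k :=
    ⟨by simp only; omega, by simp only; omega, hl, hc⟩
  have eo := oZ_eq (r.ax + M) (r.ay + M) (r.bx + M) (r.bY + M) (px l + nx * M) (py l + ny * M)
  unfold av at hav
  generalize px l + nx * M = cx at *
  generalize py l + ny * M = cy at *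
  cases hq : Nat.beq (Nat.add (Nat.add (Nat.mul (r.bx + M) cy) (Nat.mul (r.ax + M) (r.bY + M)))
    (Nat.mul (r.ay + M) cx)) (Nat.add (Nat.add (Nat.mul (r.bY + M) cx)
      (Nat.mul (r.ay + M) (r.bx + M))) (Nat.mul (r.ax + M) cy)) <;> rw [hq] at hav
  · have := H.gen _ _ _ I1 I2 I3 (by have := Nat.ne_of_beq_eq_false hq; simp only; omega)
    rw [← e, orient_seg] at this
    simp at this
  · simp only [ite_eq_left_iff, one_ne_zero, imp_false, not_not] at hav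
    rcases hav with ⟨rfl, rfl, rfl⟩ | ⟨rfl, rfl, rfl⟩
    · rcases on_seg H I1 I2 hc hd (fun h => hij.2 (by simpa using h)) (s1.shift M M) e with h | h
      · exact Or.inl ⟨rfl, h⟩
      · exact Or.inr h
    · rw [← seg_rev] at e
      rcases on_seg H I2 I1 hc hdj (fun h => (hij.2 (by simp at h; omega)).symm) (s2.shift M M) e
        with h | h
      · exact Or.inr ⟨rfl, h⟩
      · exact Or.inl h

theorem meet_window (H : Nice dir (4 * M) m k ε) {e f : Rec} (he : Valid dir px py M m e)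
    (hf : Valid dir px py M m f) {a b c d : ℕ} (ha : a < k) (hb : b < k) (hc : c < k) (hd : d < k)
    {t u : ℝ} (t0 : 0 ≤ t) (t1 : t ≤ 1) (u0 : 0 ≤ u) (u1 : u ≤ 1)
    (h : proj M (seg (Q dir ε ⟨e.ax, e.ay, e.i, a⟩) (Q dir ε ⟨e.bx, e.bY, e.j, b⟩) t) =
      proj M (seg (Q dir ε ⟨f.ax, f.ay, f.i, c⟩) (Q dir ε ⟨f.bx, f.bY, f.j, d⟩) u)) :
    ∃ zx < 3, ∃ zy < 3, Pass e.xl e.xh e.xm f.xl f.xh f.xm zx ∧
      Pass e.yl e.yh e.ym f.yl f.yh f.ym zy ∧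
      seg (Q dir ε ⟨e.ax + M, e.ay + M, e.i, a⟩) (Q dir ε ⟨e.bx + M, e.bY + M, e.j, b⟩) t =
        seg (Q dir ε ⟨f.ax + zx * M, f.ay + zy * M, f.i, c⟩)
          (Q dir ε ⟨f.bx + zx * M, f.bY + zy * M, f.j, d⟩) u := by
  obtain ⟨bx, by'⟩ := seg_box H he ha hb t0 t1
  obtain ⟨bx2, by2⟩ := seg_box H hf hc hd u0 u1
  obtain ⟨⟨x1, x2, x3, x4, x5, x6, x7⟩, ⟨y1, y2, y3, y4, y5, y6, y7⟩, -⟩ := he
  obtain ⟨⟨X1, X2, X3, X4, X5, X6, X7⟩, ⟨Y1, Y2, Y3, Y4, Y5, Y6, Y7⟩, -⟩ := hf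
  have hM : 0 < M := by omega
  obtain ⟨⟨zx, ex⟩, zy, ey⟩ := (proj_eq_iff hM _ _).1 h
  obtain ⟨nx, hnx, ex', px'⟩ := window bx.1 bx.2 bx2.1 bx2.2 ex x5 (by omega) X5 (by omega)
  obtain ⟨ny, hny, ey', py'⟩ := window by'.1 by'.2 by2.1 by2.2 ey y5 (by omega) Y5 (by omega)
  refine ⟨nx, hnx, ny, hny, x7 ▸ X7 ▸ px', y7 ▸ Y7 ▸ py', ?_⟩
  rw [seg_shift, seg_shift, ex', ey']
  push_cast
  rfl

theorem good_WR (H : Nice dir (4 * M) m k ε) {e f : Rec} (he : Valid dir px py M m e)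
    (hf : Valid dir px py M m f) {self : Bool} {zx zy : ℕ} (hx : zx < 3) (hy : zy < 3)
    (h : WR dir M self e f zx zy < big) :
    Good dir ε k self e.i e.j (e.ax + M) (e.ay + M) (e.bx + M) (e.bY + M) f.i f.j (f.ax + zx * M)
      (f.ay + zy * M) (f.bx + zx * M) (f.bY + zy * M) (WR dir M self e f zx zy) := by
  obtain ⟨⟨x1, x2, x3, x4, x5, x6, x7⟩, ⟨y1, y2, y3, y4, y5, y6, y7⟩, ⟨i1, j1⟩, -, -, s1, s2, -⟩ := he
  obtain ⟨⟨X1, X2, X3, X4, X5, X6, X7⟩, ⟨Y1, Y2, Y3, Y4, Y5, Y6, Y7⟩, ⟨I1, J1⟩, -, -, S1, S2, -⟩ := hf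
  have nxM : zx * M ≤ 2 * M := Nat.mul_le_mul_right _ (by omega)
  have nyM : zy * M ≤ 2 * M := Nat.mul_le_mul_right _ (by omega)
  exact good_W H ⟨i1, j1, I1, J1, by omega, by omega, by omega, by omega, by omega, by omega,
    by omega, by omega⟩ (s1.shift _ _) (s2.shift _ _) (S1.shift _ _) (S2.shift _ _) h

theorem seg_inj (H : Nice dir (4 * M) m k ε) {r : Rec} (hr : Valid dir px py M m r) {a b : ℕ}
    (ha : a < k) (hb : b < k) {t u : ℝ} (t0 : 0 ≤ t) (t1 : t ≤ 1) (u0 : 0 ≤ u) (u1 : u ≤ 1)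
    (hne : Q dir ε ⟨r.ax, r.ay, r.i, a⟩ ≠ Q dir ε ⟨r.bx, r.bY, r.j, b⟩)
    (h : proj M (seg (Q dir ε ⟨r.ax, r.ay, r.i, a⟩) (Q dir ε ⟨r.bx, r.bY, r.j, b⟩) t) =
      proj M (seg (Q dir ε ⟨r.ax, r.ay, r.i, a⟩) (Q dir ε ⟨r.bx, r.bY, r.j, b⟩) u)) : t = u := by
  obtain ⟨bx, by'⟩ := seg_box H hr ha hb t0 t1
  obtain ⟨bx2, by2⟩ := seg_box H hr ha hb u0 u1
  obtain ⟨⟨x1, x2, x3, x4, x5, x6, x7⟩, ⟨y1, y2, y3, y4, y5, y6, y7⟩, -⟩ := hr
  have hM : 0 < M := by omega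
  obtain ⟨⟨zx, ex⟩, zy, ey⟩ := (proj_eq_iff hM _ _).1 h
  have aux : ∀ (l h : ℕ) (x y : ℝ) (z : ℤ), h < l + M → (l : ℝ) - 1 / 2 < x ∧ x < h + 1 / 2 →
      (l : ℝ) - 1 / 2 < y ∧ y < h + 1 / 2 → x = y + M * z → x = y := by
    intro l h x y z c1 c2 c3 c4
    have b1 : (l : ℤ) < h + 1 + M * z := by
      have : (l : ℝ) < h + 1 + M * z := by linarith
      exact_mod_cast this
    have b2 : (l : ℤ) + M * z < h + 1 := by
      have : (l : ℝ) + M * z < h + 1 := by linarith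
      exact_mod_cast this
    have : z = 0 := by
      rcases lt_trichotomy z 0 with hz | hz | hz
      · have : (M : ℤ) * z ≤ M * (-1) := mul_le_mul_of_nonneg_left (by omega) (by positivity)
        omega
      · exact hz
      · have : (M : ℤ) * 1 ≤ M * z := mul_le_mul_of_nonneg_left (by omega) (by positivity)
        omega
    rw [c4, this]; simp
  have e1 := aux _ _ _ _ _ (by omega) bx bx2 ex
  have e2 := aux _ _ _ _ _ (by omega) by' by2 ey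
  by_contra htu
  apply hne
  simp only [seg] at e1 e2
  have htu' : t - u ≠ 0 := sub_ne_zero.2 htu
  ext
  · apply mul_left_cancel₀ htu'; linarith
  · apply mul_left_cancel₀ htu'; linarith

end Pool.Agent.MP_d7736f_co
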