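import Pool.Agent.MP_d7736f_co.Part0
import Pool.Agent.MP_d7736f_co.Part1
import Pool.Agent.MP_d7736f_co.Part2
import Pool.Agent.MP_d7736f_co.Part3
import Pool.Agent.MP_d7736f_co.Rows

namespace Pool.Agent.MP_d7736f_co

theorem tot_step {L L' : List Rec} {n a b c : ℕ}
    (h1 : rows dirT (nat_lit 1048576) (nat_lit 2097152) L n = a) (h2 : L.drop n = L')
    (h3 : tot dirT 1048576 L' = b) (h4 : a + b = c) : tot dirT 1048576 L = c := by
  rw [tot_split dirT 1048576 L n, h2, h3, ← h4, ← h1]

theorem tot40 : tot dirT 1048576 E40 = 0 := rfl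

theorem tot39 : tot dirT 1048576 E39 = 36 :=
  tot_step rows39 (by rfl) tot40 (by norm_num)

theorem tot38 : tot dirT 1048576 E38 = 924 :=
  tot_step rows38 (by rfl) tot39 (by norm_num)

theorem tot37 : tot dirT 1048576 E37 = 6964 :=
  tot_step rows37 (by rfl) tot38 (by norm_num)

theorem tot36 : tot dirT 1048576 E36 = 15964 :=
  tot_step rows36 (by rfl) tot37 (by norm_num)

theorem tot35 : tot dirT 1048576 E35 = 29760 :=
  tot_step rows35 (by rfl) tot36 (by norm_num)

theorem tot34 : tot dirT 1048576 E34 = 46024 :=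
  tot_step rows34 (by rfl) tot35 (by norm_num)

theorem tot33 : tot dirT 1048576 E33 = 66604 :=
  tot_step rows33 (by rfl) tot34 (by norm_num)

theorem tot32 : tot dirT 1048576 E32 = 93020 :=
  tot_step rows32 (by rfl) tot33 (by norm_num)

theorem tot31 : tot dirT 1048576 E31 = 121432 :=
  tot_step rows31 (by rfl) tot32 (by norm_num)

theorem tot30 : tot dirT 1048576 E30 = 154212 :=
  tot_step rows30 (by rfl) tot31 (by norm_num)

theorem tot29 : tot dirT 1048576 E29 = 187888 :=
  tot_step rows29 (by rfl) tot30 (by norm_num)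

theorem tot28 : tot dirT 1048576 E28 = 230732 :=
  tot_step rows28 (by rfl) tot29 (by norm_num)

theorem tot27 : tot dirT 1048576 E27 = 265860 :=
  tot_step rows27 (by rfl) tot28 (by norm_num)

theorem tot26 : tot dirT 1048576 E26 = 306348 :=
  tot_step rows26 (by rfl) tot27 (by norm_num)

theorem tot25 : tot dirT 1048576 E25 = 354436 :=
  tot_step rows25 (by rfl) tot26 (by norm_num)

theorem tot24 : tot dirT 1048576 E24 = 400852 :=
  tot_step rows24 (by rfl) tot25 (by norm_num)

theorem tot23 : tot dirT 1048576 E23 = 458396 :=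
  tot_step rows23 (by rfl) tot24 (by norm_num)

theorem tot22 : tot dirT 1048576 E22 = 514724 :=
  tot_step rows22 (by rfl) tot23 (by norm_num)

theorem tot21 : tot dirT 1048576 E21 = 576700 :=
  tot_step rows21 (by rfl) tot22 (by norm_num)

theorem tot20 : tot dirT 1048576 E20 = 636908 :=
  tot_step rows20 (by rfl) tot21 (by norm_num)

theorem tot19 : tot dirT 1048576 E19 = 703436 :=
  tot_step rows19 (by rfl) tot20 (by norm_num)

theorem tot18 : tot dirT 1048576 E18 = 775560 :=
  tot_step rows18 (by rfl) tot19 (by norm_num)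

theorem tot17 : tot dirT 1048576 E17 = 848020 :=
  tot_step rows17 (by rfl) tot18 (by norm_num)

theorem tot16 : tot dirT 1048576 E16 = 924964 :=
  tot_step rows16 (by rfl) tot17 (by norm_num)

theorem tot15 : tot dirT 1048576 E15 = 1004756 :=
  tot_step rows15 (by rfl) tot16 (by norm_num)

theorem tot14 : tot dirT 1048576 E14 = 1091872 :=
  tot_step rows14 (by rfl) tot15 (by norm_num)

theorem tot13 : tot dirT 1048576 E13 = 1184120 :=
  tot_step rows13 (by rfl) tot14 (by norm_num)

theorem tot12 : tot dirT 1048576 E12 = 1274840 :=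
  tot_step rows12 (by rfl) tot13 (by norm_num)

theorem tot11 : tot dirT 1048576 E11 = 1376560 :=
  tot_step rows11 (by rfl) tot12 (by norm_num)

theorem tot10 : tot dirT 1048576 E10 = 1475284 :=
  tot_step rows10 (by rfl) tot11 (by norm_num)

theorem tot9 : tot dirT 1048576 E9 = 1574420 :=
  tot_step rows9 (by rfl) tot10 (by norm_num)

theorem tot8 : tot dirT 1048576 E8 = 1684552 :=
  tot_step rows8 (by rfl) tot9 (by norm_num)

theorem tot7 : tot dirT 1048576 E7 = 1794372 :=
  tot_step rows7 (by rfl) tot8 (by norm_num)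

theorem tot6 : tot dirT 1048576 E6 = 1908908 :=
  tot_step rows6 (by rfl) tot7 (by norm_num)

theorem tot5 : tot dirT 1048576 E5 = 2019236 :=
  tot_step rows5 (by rfl) tot6 (by norm_num)

theorem tot4 : tot dirT 1048576 E4 = 2138068 :=
  tot_step rows4 (by rfl) tot5 (by norm_num)

theorem tot3 : tot dirT 1048576 E3 = 2261664 :=
  tot_step rows3 (by rfl) tot4 (by norm_num)

theorem tot2 : tot dirT 1048576 E2 = 2390204 :=
  tot_step rows2 (by rfl) tot3 (by norm_num)

theorem tot1 : tot dirT 1048576 E1 = 2519024 :=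
  tot_step rows1 (by rfl) tot2 (by norm_num)

theorem tot0 : tot dirT 1048576 E0 = 2650424 :=
  tot_step rows0 (by rfl) tot1 (by norm_num)

end Pool.Agent.MP_d7736f_co
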