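import Mathlib

namespace Pool.Agent.MP_d7736f_co

/-- A labelled base point: cluster number and two coordinates. -/
structure Pt where
  a : ℕ
  x : ℕ
  y : ℕ

def dpos (A B C : Pt) : ℕ := A.x * B.y + B.x * C.y + C.x * A.y
def dneg (A B C : Pt) : ℕ := A.y * B.x + B.y * C.x + C.y * A.x

def sameSide (A B C D : Pt) : Bool :=
  (Nat.blt (dneg A B C) (dpos A B C) && Nat.blt (dneg A B D) (dpos A B D)) ||
  (Nat.blt (dpos A B C) (dneg A B C) && Nat.blt (dpos A B D) (dneg A B D))

def below (a b c d : ℕ) : Bool := Nat.blt a c && Nat.blt a d && Nat.blt b c && Nat.blt b d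

def peq (A B : Pt) : Bool := Nat.beq A.x B.x && Nat.beq A.y B.y && Nat.beq A.a B.a

def pen : ℕ := 1000000000

def side (e : ℕ → ℤ × ℤ) (A B : Pt) : ℤ :=
  (e A.a).1 * ((B.y : ℤ) - A.y) - (e A.a).2 * ((B.x : ℤ) - A.x)

def w2 (e : ℕ → ℤ × ℤ) (A D : Pt) : ℕ :=
  if 0 < side e A D then 2 else if side e A D < 0 then 0 else pen

def w1b (e : ℕ → ℤ × ℤ) (A B D : Pt) : ℕ :=
  if side e A B * side e A D < 0 then 0
  else if 0 < side e A B * side e A D ∧ dpos A B D ≠ dneg A B D then 3 else pen

def w1c (e : ℕ → ℤ × ℤ) (A B : Pt) : ℕ := if side e A B ≠ 0 ∧ side e B A ≠ 0 then 3 else pen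

def wt (e : ℕ → ℤ × ℤ) (A B C D : Pt) : ℕ :=
  bif below A.y B.y C.y D.y || below C.y D.y A.y B.y then 0
  else bif below A.x B.x C.x D.x || below C.x D.x A.x B.x then 0
  else bif sameSide A B C D || sameSide C D A B then 0
  else bif peq A B then
    (bif peq C D then (bif peq A C then 2 else pen)
    else bif peq A C then w2 e A D else bif peq A D then w2 e A C else pen)
  else bif peq C D then (bif peq C A then w2 e A B else bif peq C B then w2 e B A else pen)
  else bif peq A C then (bif peq B D then w1c e A B else w1b e A B D)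
  else bif peq A D then (bif peq B C then w1c e A B else w1b e A B C)
  else bif peq B C then w1b e B A D
  else bif peq B D then w1b e B A C
  else bif Nat.beq (dpos A B D + dneg A B C) (dpos A B C + dneg A B D) then pen else 6

/-- Sum of `f` over `0, ..., n - 1`. -/
def sumTo (n : ℕ) (f : ℕ → ℕ) : ℕ := Nat.rec 0 (fun k s => s + f k) n

theorem sumTo_eq (n : ℕ) (f : ℕ → ℕ) : sumTo n f = ∑ i ∈ Finset.range n, f i := by
  induction n with
  | zero => rfl
  | succ n ih => rw [Finset.sum_range_succ, ← ih]; rfl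

/-- Forces the evaluation of a natural number. -/
def force (n : ℕ) (f : ℕ → ℕ) : ℕ := Nat.rec (f 0) (fun k _ => f (k + 1)) n

theorem force_eq (n : ℕ) (f : ℕ → ℕ) : force n f = f n := by cases n <;> rfl

end Pool.Agent.MP_d7736f_co
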